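import Mathlib

/-! Grothendieck groups of modules, and the affine model of unitary Deligne–Lusztig varieties. -/

namespace Pool.Agent.P.MP_1bf4cb_ag

open Matrix

/-- Finitely generated modules over `A`. -/
structure FG (A : Type) [CommRing A] where
  M : Type
  [acg : AddCommGroup M]
  [mod : Module A M]
  [fin : Module.Finite A M]

attribute [instance] FG.acg FG.mod FG.fin

/-- The relations `[N] = [M] + [P]` for short exact sequences `0 → M → N → P → 0`. -/
def ses (A : Type) [CommRing A] : Set (FreeAbelianGroup (FG A)) :=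
  {z | ∃ (M N P : FG A) (f : M.M →ₗ[A] N.M) (g : N.M →ₗ[A] P.M), Function.Injective f ∧
    Function.Surjective g ∧ Function.Exact f g ∧
    z = FreeAbelianGroup.of N - FreeAbelianGroup.of M - FreeAbelianGroup.of P}

/-- The Grothendieck group of finitely generated `A`-modules. -/
abbrev G0 (A : Type) [CommRing A] := FreeAbelianGroup (FG A) ⧸ AddSubgroup.closure (ses A)

/-- The class of the structure sheaf of the closed subscheme with ideal `I`. -/
def cyc {A : Type} [CommRing A] (I : Ideal A) : G0 A :=
  QuotientAddGroup.mk (FreeAbelianGroup.of ⟨A ⧸ I⟩)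

/-- Names of the subspaces: a side (first or second factor), a flag, a member of the flag. -/
abbrev Ix (d m : ℕ) := Bool × Fin (d + 1) × Fin m

/-- The ideal generated by the entries of a set of matrices. -/
def ents {A : Type} [CommRing A] {n : ℕ} (S : Set (Matrix (Fin n) (Fin n) A)) : Ideal A :=
  Ideal.span {x | ∃ Z ∈ S, ∃ a b, x = Z a b}

variable {d m n : ℕ}

/-- The equations, for matrices `e` whose images are the subspaces: `e` is idempotent and the
images increase along each flag; `V (c+1) j ⊆ V c i` for `E c i j`, `c < d`; and `V d i` is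
orthogonal to `V 0 j` under `∑ xₐ yₐ ^ q` for `E d i j`. -/
def eqs {A : Type} [CommRing A] (q : ℕ) (E : Fin (d + 1) → Fin m → Fin m → Prop)
    (e : Ix d m → Matrix (Fin n) (Fin n) A) : Set (Matrix (Fin n) (Fin n) A) :=
  {Z | ∃ s c i j, (i ≤ j ∧ Z = e (s, c, j) * e (s, c, i) - e (s, c, i)) ∨
    (E c i j ∧ c ≠ Fin.last d ∧ Z = e (s, c, i) * e (s, c + 1, j) - e (s, c + 1, j)) ∨
    (E c i j ∧ c = Fin.last d ∧ Z = (e (s, c, i))ᵀ * (e (s, 0, j)).map (· ^ q))}

/-- The generic matrices. -/
noncomputable def gen (k : Type) [Field k] (n : ℕ) (v : Ix d m) :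
    Matrix (Fin n) (Fin n) (MvPolynomial (Ix d m × Fin n × Fin n) k) :=
  Matrix.of fun a b => MvPolynomial.X (v, a, b)

/-- The coordinate ring of `X' × X'`. -/
abbrev Crd (k : Type) [Field k] (n q : ℕ) (E : Fin (d + 1) → Fin m → Fin m → Prop) :=
  MvPolynomial (Ix d m × Fin n × Fin n) k ⧸ ents (eqs q E (gen k n))

/-- The ideal saying that each subspace on the second side is obtained from the one on the first
side by raising coordinates to the power `Q`. -/
def graph {A : Type} [CommRing A] (Q : ℕ) (e : Ix d m → Matrix (Fin n) (Fin n) A) : Ideal A :=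
  ents {Z | ∃ c i, Z = (e (false, c, i)).map (· ^ Q) * e (true, c, i) - e (true, c, i) ∨
    Z = e (true, c, i) * (e (false, c, i)).map (· ^ Q) - (e (false, c, i)).map (· ^ Q)}

/-- The universal matrices over the coordinate ring. -/
noncomputable def univ (k : Type) [Field k] (n q : ℕ) (E : Fin (d + 1) → Fin m → Fin m → Prop)
    (v : Ix d m) : Matrix (Fin n) (Fin n) (Crd k n q E) :=
  (gen k n v).map (Ideal.Quotient.mk _)

open scoped TensorProduct in
/-- The linear map `ℚ[T] → ℚ ⊗ G₀` sending `T ^ a` to the class of the graph of the `a`-th power of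
the `Q`-Frobenius. -/
noncomputable def ev {A : Type} [CommRing A] (Q : ℕ) (e : Ix d m → Matrix (Fin n) (Fin n) A)
    (f : Polynomial ℚ) : ℚ ⊗[ℤ] G0 A :=
  f.sum fun a c => c ⊗ₜ[ℤ] cyc (graph (Q ^ a) e)

end Pool.Agent.P.MP_1bf4cb_ag
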