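import Pool.Agent.P.MP_1bf4cb_ag.Defs

set_option autoImplicit false
set_option linter.unusedSectionVars false
set_option linter.unusedVariables false

open Function Matrix
open scoped TensorProduct

noncomputable section

namespace Pool.Agent.P.MP_1bf4cb_ag

/-- functions on modules that are additive on short exact sequences of finite modules -/
structure AddF (A : Type) [CommRing A] (Γ : Type 1) [AddCommGroup Γ] where
  val : (M : Type) → [AddCommGroup M] → [Module A M] → Γ
  add : ∀ {M N P : Type} [AddCommGroup M] [Module A M] [AddCommGroup N] [Module A N]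
    [AddCommGroup P] [Module A P] [Module.Finite A N] (f : M →ₗ[A] N) (g : N →ₗ[A] P),
    Injective f → Surjective g → Exact f g → val N = val M + val P

variable {A B : Type} [CommRing A] [CommRing B] {Γ : Type 1} [AddCommGroup Γ]

/-- `χ` vanishes on the finite modules killed by `b` -/
def Van (χ : AddF A Γ) (b : Ideal A) : Prop :=
  ∀ (M : Type) [AddCommGroup M] [Module A M] [Module.Finite A M],
    (∀ x ∈ b, ∀ y : M, x • y = 0) → χ.val M = 0

/-- finitely many modules generate the classes of the modules killed by `b` -/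
def CellI (A : Type) [CommRing A] (b : Ideal A) : Prop :=
  ∃ G : List (FG A), ∀ (Γ : Type 1) [AddCommGroup Γ] (χ : AddF A Γ),
    (∀ M ∈ G, χ.val M.M = 0) → Van χ b

/-- the Grothendieck group is finitely generated -/
abbrev Cell (A : Type) [CommRing A] : Prop := CellI A ⊥

/-- additive functions on `A` extend to `B` by specialisation along `ε` -/
def Spec (φ : A →+* B) (ε : B →+* A) : Prop :=
  ∀ (Γ : Type 1) [AddCommGroup Γ] (χ : AddF A Γ), ∃ ρ : AddF B Γ,
    (∀ s, Van χ (Ideal.span {ε s}) → Van ρ (Ideal.span {s})) ∧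
      ∀ I : Ideal A, ρ.val (B ⧸ I.map φ) = χ.val (A ⧸ I)

/-- the elements that lie in the image of `ψ` after multiplication by a power of `ψ f` -/
def den (ψ : A →+* B) (f : A) : Subring B where
  carrier := {y | ∃ N x, ψ f ^ N * y = ψ x}
  mul_mem' := by
    rintro y y' ⟨N, x, h⟩ ⟨N', x', h'⟩
    exact ⟨N + N', x * x', by rw [map_mul, ← h, ← h']; ring⟩
  one_mem' := ⟨0, 1, by simp⟩
  add_mem' := by
    rintro y y' ⟨N, x, h⟩ ⟨N', x', h'⟩
    exact ⟨N + N', f ^ N' * x + f ^ N * x', by
      rw [map_add, map_mul, map_mul, map_pow, map_pow, ← h, ← h']; ring⟩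
  zero_mem' := ⟨0, 0, by simp⟩
  neg_mem' := by
    rintro y ⟨N, x, h⟩
    exact ⟨N, -x, by rw [map_neg, ← h]; ring⟩

theorem mem_den {ψ : A →+* B} {f : A} {y : B} : y ∈ den ψ f ↔ ∃ N x, ψ f ^ N * y = ψ x := Iff.rfl

theorem map_mem_den (ψ : A →+* B) (f x : A) : ψ x ∈ den ψ f := ⟨0, x, by simp⟩

end Pool.Agent.P.MP_1bf4cb_ag
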