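import Pool.Agent.P.MP_1bf4cb_ag.G0

set_option autoImplicit false
set_option linter.unusedSectionVars false
set_option linter.unusedVariables false

open Function Matrix
open scoped TensorProduct

noncomputable section

namespace Pool.Agent.P.MP_1bf4cb_ag

variable {A B : Type} [CommRing A] [CommRing B] {Γ : Type 1} [AddCommGroup Γ]
  {M N : Type} [AddCommGroup M] [Module A M] [AddCommGroup N] [Module A N]

theorem AddF.zero (χ : AddF A Γ) (M : Type) [AddCommGroup M] [Module A M] [Subsingleton M] :
    χ.val M = 0 := by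
  have h := χ.add (M := M) (N := M) (P := M) LinearMap.id LinearMap.id
    (fun a b _ => Subsingleton.elim a b) (fun a => ⟨a, rfl⟩)
    (fun y => ⟨fun _ => ⟨y, rfl⟩, fun _ => Subsingleton.elim _ _⟩)
  simpa using h

theorem AddF.congr (χ : AddF A Γ) [Module.Finite A N] (e : M ≃ₗ[A] N) : χ.val M = χ.val N := by
  have h := χ.add (M := M) (N := N) (P := PUnit) e.toLinearMap 0 e.injective
    (fun a => ⟨0, Subsingleton.elim _ _⟩)
    (fun y => ⟨fun _ => e.surjective y, fun _ => Subsingleton.elim _ _⟩)
  rw [h, χ.zero PUnit, add_zero]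

theorem AddF.sub_quot (χ : AddF A Γ) [Module.Finite A M] (S : Submodule A M) :
    χ.val M = χ.val S + χ.val (M ⧸ S) := by
  exact χ.add S.subtype S.mkQ S.injective_subtype S.mkQ_surjective
    (LinearMap.exact_subtype_mkQ S)

theorem AddF.ker_range (χ : AddF A Γ) [Module.Finite A M] (f : M →ₗ[A] N) :
    χ.val M = χ.val (LinearMap.ker f) + χ.val (LinearMap.range f) := by
  refine χ.add (LinearMap.ker f).subtype f.rangeRestrict (LinearMap.ker f).injective_subtype
    f.surjective_rangeRestrict ?_
  rw [LinearMap.exact_iff, LinearMap.ker_rangeRestrict, Submodule.range_subtype]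

theorem Van.mono {χ : AddF A Γ} {b b' : Ideal A} (h : Van χ b) (hb : b ≤ b') : Van χ b' := by
  intro M _ _ _ hM
  exact h M fun x hx y => hM x (hb hx) y

theorem van_top (χ : AddF A Γ) : Van χ ⊤ := by
  intro M _ _ _ hM
  have : Subsingleton M := ⟨fun a b => by
    rw [← one_smul A a, ← one_smul A b, hM 1 Submodule.mem_top a, hM 1 Submodule.mem_top b]⟩
  exact χ.zero M

theorem val_of_primes [IsNoetherianRing A] {χ : AddF A Γ} {b : Ideal A}
    (h : ∀ P : Ideal A, P.IsPrime → b ≤ P → χ.val (A ⧸ P) = 0) [Module.Finite A M]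
    (hM : ∀ P : Ideal A, P.IsPrime → Module.annihilator A M ≤ P → b ≤ P) : χ.val M = 0 := by
  revert hM
  induction ‹Module.Finite A M› using
    IsNoetherianRing.induction_on_isQuotientEquivQuotientPrime A with
  | subsingleton N => exact fun _ => χ.zero N
  | quotient N p f =>
    intro hM
    rw [χ.congr f]
    refine h p.1 p.2 (hM p.1 p.2 ?_)
    rw [f.annihilator_eq, Ideal.annihilator_quotient]
  | exact N₁ N₂ N₃ f g hf hg hfg h₁ h₃ =>
    intro hM
    rw [χ.add f g hf hg hfg,
      h₁ fun P hP hle => hM P hP ((f.annihilator_le_of_injective hf).trans hle),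
      h₃ fun P hP hle => hM P hP ((g.annihilator_le_of_surjective hg).trans hle), add_zero]

theorem van_of_primes [IsNoetherianRing A] {χ : AddF A Γ} {b : Ideal A}
    (h : ∀ P : Ideal A, P.IsPrime → b ≤ P → χ.val (A ⧸ P) = 0) : Van χ b := by
  intro M _ _ _ hM
  refine val_of_primes h fun P _ hle => le_trans ?_ hle
  intro x hx
  exact Module.mem_annihilator.2 (hM x hx)

theorem pow_mem_annihilator_GA [Module.Finite A M] {x : A} (hx : ∀ y : M, ∃ N : ℕ, x ^ N • y = 0) :
    ∃ N : ℕ, x ^ N ∈ Module.annihilator A M := by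
  obtain ⟨s, hs⟩ := Module.Finite.fg_top (R := A) (M := M)
  choose n hn using hx
  refine ⟨s.sup n, Module.mem_annihilator.2 fun y => ?_⟩
  have hy : y ∈ Submodule.span A (s : Set M) := hs ▸ Submodule.mem_top
  induction hy using Submodule.span_induction with
  | mem z hz =>
    obtain ⟨k, hk⟩ := Nat.exists_eq_add_of_le (Finset.le_sup (f := n) hz)
    rw [hk, add_comm, pow_add, mul_smul, hn, smul_zero]
  | zero => exact smul_zero _
  | add a b _ _ ha hb => rw [smul_add, ha, hb, add_zero]
  | smul c a _ ha => rw [smul_comm, ha, smul_zero]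

/-- only the support matters -/
theorem Van.supp [IsNoetherianRing A] {χ : AddF A Γ} {b : Ideal A} (h : Van χ b)
    [Module.Finite A M] (hM : ∀ x ∈ b, ∀ y : M, ∃ N : ℕ, x ^ N • y = 0) : χ.val M = 0 := by
  refine val_of_primes (b := b) (fun P _ hb => h (A ⧸ P) fun x hx y => ?_) fun P hP hle x hx => ?_
  · have : x ∈ Module.annihilator A (A ⧸ P) := by
      rw [Ideal.annihilator_quotient]
      exact hb hx
    exact Module.mem_annihilator.1 this y
  · obtain ⟨N, hN⟩ := pow_mem_annihilator_GA (hM x hx)
    exact hP.mem_of_pow_mem N (hle hN)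

theorem cellI_top (A : Type) [CommRing A] : CellI A ⊤ := by
  exact ⟨[], fun Γ _ χ _ => van_top χ⟩

theorem cell_trivial (A : Type) [CommRing A] [Subsingleton A] : Cell A := by
  refine ⟨[], fun Γ _ χ _ M _ _ _ _ => ?_⟩
  have : Subsingleton M := Module.subsingleton A M
  exact χ.zero M

end Pool.Agent.P.MP_1bf4cb_ag
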