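import Pool.Agent.P.MP_1bf4cb_ag.GF

set_option autoImplicit false
set_option linter.unusedSectionVars false
set_option linter.unusedVariables false

open Function Matrix
open scoped TensorProduct

noncomputable section

namespace Pool.Agent.P.MP_1bf4cb_ag

variable {A : Type} [CommRing A]

theorem cell_field (k : Type) [Field k] : Cell k := by
  refine ⟨[⟨k⟩], fun Γ _ χ hχ => van_of_primes fun P hP _ => ?_⟩
  rw [χ.congr (Submodule.quotEquivOfEqBot P (Ideal.eq_bot_of_prime P))]
  exact hχ ⟨k⟩ (List.mem_singleton_self _)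

open Polynomial in
theorem mem_GB (I : Ideal A) (g : A[X]) :
    g ∈ I.map (C : A →+* A[X]) ↔ g.map (Ideal.Quotient.mk I) = 0 := by
  rw [Ideal.mem_map_C_iff, Polynomial.ext_iff]
  simp only [coeff_map, coeff_zero, Ideal.Quotient.eq_zero_iff_mem]

open Polynomial in
/-- pseudo-division by an element of least degree -/
theorem pdiv_GB {I : Ideal A} [I.IsPrime] {PP : Ideal A[X]} {f : A[X]} (hf : f ∈ PP)
    (hpos : 0 < (f.map (Ideal.Quotient.mk I)).natDegree)
    (hmin : ∀ g ∈ PP, g ∉ I.map (C : A →+* A[X]) →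
      (f.map (Ideal.Quotient.mk I)).natDegree ≤ (g.map (Ideal.Quotient.mk I)).natDegree) (n : ℕ) :
    ∀ g ∈ PP, (g.map (Ideal.Quotient.mk I)).natDegree = n →
      ∃ N : ℕ, C (f.coeff (f.map (Ideal.Quotient.mk I)).natDegree) ^ N * g ∈
        I.map (C : A →+* A[X]) ⊔ Ideal.span {f} := by
  induction n using Nat.strong_induction_on with
  | _ n ih =>
    intro g hg hn
    by_cases hgI : g ∈ I.map (C : A →+* A[X])
    · exact ⟨0, by simpa using Ideal.mem_sup_left hgI⟩
    have hle := hmin g hg hgI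
    have hlt := natDegree_cancelLeads_lt_of_natDegree_le_natDegree hle (hpos.trans_le hle)
    have he : (C (f.coeff (f.map (Ideal.Quotient.mk I)).natDegree) * g -
        C (g.coeff (g.map (Ideal.Quotient.mk I)).natDegree) *
          X ^ ((g.map (Ideal.Quotient.mk I)).natDegree - (f.map (Ideal.Quotient.mk I)).natDegree) *
            f).map (Ideal.Quotient.mk I) =
        (f.map (Ideal.Quotient.mk I)).cancelLeads (g.map (Ideal.Quotient.mk I)) := by
      rw [cancelLeads, Nat.sub_eq_zero_of_le hle]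
      simp only [Polynomial.map_sub, Polynomial.map_mul, map_C, Polynomial.map_pow, map_X,
        leadingCoeff, coeff_map, pow_zero, mul_one]
    obtain ⟨N, hN⟩ := ih _ (hn ▸ hlt) _
      (PP.sub_mem (PP.mul_mem_left _ hg) (PP.mul_mem_left _ hf)) (congrArg natDegree he)
    refine ⟨N + 1, ?_⟩
    rw [mul_sub, ← mul_assoc, ← pow_succ] at hN
    exact (Submodule.sub_mem_iff_left _ (Ideal.mem_sup_right (Ideal.mul_mem_left _ _
      (Ideal.mul_mem_left _ _ (Ideal.mem_span_singleton_self f))))).1 hN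

variable {Γ : Type 1} [AddCommGroup Γ]

/-- the quotient of a domain by a nonzero element has value zero -/
theorem quot_GB (χ : AddF A Γ) {J : Ideal A} [J.IsPrime] {f : A} (hf : f ∉ J) :
    χ.val (A ⧸ (J ⊔ Ideal.span {f})) = 0 := by
  have h := χ.add (LinearMap.lsmul A (A ⧸ J) f)
    (Submodule.factor (le_sup_left : J ≤ J ⊔ Ideal.span {f})) ?_ (Submodule.factor_surjective _) ?_
  · simpa using h
  · rw [injective_iff_map_eq_zero]
    intro y hy
    obtain ⟨x, rfl⟩ := Ideal.Quotient.mk_surjective y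
    have h1 : f * x ∈ J := Ideal.Quotient.eq_zero_iff_mem.1 hy
    exact Ideal.Quotient.eq_zero_iff_mem.2 ((Ideal.IsPrime.mem_or_mem ‹_› h1).resolve_left hf)
  · intro y
    obtain ⟨x, rfl⟩ := Ideal.Quotient.mk_surjective y
    constructor
    · intro hy
      have h1 : x ∈ J ⊔ Ideal.span {f} := Ideal.Quotient.eq_zero_iff_mem.1 hy
      obtain ⟨j, hj, z, hz, rfl⟩ := Submodule.mem_sup.1 h1
      obtain ⟨a, rfl⟩ := Ideal.mem_span_singleton'.1 hz
      refine ⟨Ideal.Quotient.mk J a, ?_⟩
      refine (Ideal.Quotient.eq (x := f * a)).2 ?_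
      rw [show f * a - (j + a * f) = -j by ring]
      exact J.neg_mem hj
    · rintro ⟨y, hy⟩
      obtain ⟨a, rfl⟩ := Ideal.Quotient.mk_surjective y
      rw [← hy]
      exact (Ideal.Quotient.eq_zero_iff_mem (a := f * a)).2
        (Ideal.mem_sup_right (Ideal.mul_mem_right _ _ (Ideal.mem_span_singleton_self f)))

/-- passing from `K` to a larger ideal whose elements are `c`-torsion modulo `K` -/
theorem up_GB [IsNoetherianRing A] {χ : AddF A Γ} {J K PP : Ideal A} {c : A} (hJ : J ≤ K)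
    (hK : K ≤ PP) (h0 : χ.val (A ⧸ K) = 0) (hv : Van χ (J ⊔ Ideal.span {c}))
    (ht : ∀ g ∈ PP, ∃ N : ℕ, c ^ N * g ∈ K) : χ.val (A ⧸ PP) = 0 := by
  have h := χ.add (LinearMap.ker (Submodule.factor hK)).subtype (Submodule.factor hK)
    (Submodule.injective_subtype _) (Submodule.factor_surjective _)
    (LinearMap.exact_subtype_ker_map _)
  have h1 : χ.val (LinearMap.ker (Submodule.factor hK)) = 0 := by
    refine hv.supp fun x hx y => ?_
    obtain ⟨y, hy⟩ := y
    obtain ⟨g, rfl⟩ := Ideal.Quotient.mk_surjective y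
    obtain ⟨N, hN⟩ := ht g (Ideal.Quotient.eq_zero_iff_mem.1 hy)
    obtain ⟨j, hj, z, hz, rfl⟩ := Submodule.mem_sup.1 hx
    obtain ⟨a, rfl⟩ := Ideal.mem_span_singleton'.1 hz
    refine ⟨N, Subtype.ext ?_⟩
    show Ideal.Quotient.mk K ((j + a * c) ^ N * g) = 0
    have h2 : Ideal.Quotient.mk K j = 0 := Ideal.Quotient.eq_zero_iff_mem.2 (hJ hj)
    have h3 : Ideal.Quotient.mk K (c ^ N * g) = 0 := Ideal.Quotient.eq_zero_iff_mem.2 hN
    rw [map_mul, map_pow] at h3
    rw [map_mul, map_pow, map_add, h2, zero_add, map_mul, mul_pow, mul_assoc, h3, mul_zero]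
  rw [h1, zero_add] at h
  exact h.symm.trans h0

open Polynomial in
theorem van_GB [IsNoetherianRing A] {χ : AddF A[X] Γ}
    (h0 : ∀ I : Ideal A, χ.val (A[X] ⧸ I.map (C : A →+* A[X])) = 0) (I : Ideal A) :
    Van χ (I.map (C : A →+* A[X])) := by
  induction I using IsNoetherian.induction with
  | hgt I ih =>
    refine van_of_primes fun PP hPP hle => ?_
    rcases (Ideal.map_le_iff_le_comap.1 hle).lt_or_eq with hlt | heq
    · refine ih _ hlt _ fun x hx y => ?_
      obtain ⟨g, rfl⟩ := Ideal.Quotient.mk_surjective y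
      exact (Ideal.Quotient.eq_zero_iff_mem (a := x * g)).2
        (PP.mul_mem_right _ (Ideal.map_comap_le hx))
    have hI : Ideal.IsPrime I := heq ▸ Ideal.IsPrime.comap _
    have hJ : (Ideal.map (C : A →+* A[X]) I).IsPrime := (Ideal.isPrime_map_C_iff_isPrime I).2 hI
    rcases hle.lt_or_eq with hlt | rfl
    swap
    · exact h0 I
    obtain ⟨f0, hf0⟩ := SetLike.exists_of_lt hlt
    obtain ⟨f, ⟨hf, hfJ⟩, hmin⟩ := exists_minimalFor_of_wellFoundedLT
      (fun g : A[X] => g ∈ PP ∧ g ∉ Ideal.map (C : A →+* A[X]) I)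
      (fun g => (g.map (Ideal.Quotient.mk I)).natDegree) ⟨f0, hf0⟩
    have hf0 : f.map (Ideal.Quotient.mk I) ≠ 0 := fun e => hfJ ((mem_GB I f).2 e)
    have hc : f.coeff (f.map (Ideal.Quotient.mk I)).natDegree ∉ I := fun hm =>
      leadingCoeff_ne_zero.2 hf0 (by
        rw [leadingCoeff, coeff_map]; exact Ideal.Quotient.eq_zero_iff_mem.2 hm)
    have hpos : 0 < (f.map (Ideal.Quotient.mk I)).natDegree := by
      refine Nat.pos_of_ne_zero fun e => hc ?_
      rw [e]
      have h1 : f - C (f.coeff 0) ∈ Ideal.map (C : A →+* A[X]) I := by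
        rw [mem_GB, Polynomial.map_sub, map_C, ← coeff_map, ← eq_C_of_natDegree_eq_zero e,
          sub_self]
      have h2 : C (f.coeff 0) ∈ PP := by simpa using PP.sub_mem hf (hle h1)
      rw [heq]
      exact h2
    refine up_GB (c := C (f.coeff (f.map (Ideal.Quotient.mk I)).natDegree)) le_sup_left
      (sup_le hle ((Ideal.span_singleton_le_iff_mem _).2 hf)) (quot_GB χ hfJ) ?_ fun g hg =>
      pdiv_GB hf hpos (fun g hg hgJ => (le_total _ _).elim id (@hmin g ⟨hg, hgJ⟩)) _ g hg rfl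
    have h3 := ih (I ⊔ Ideal.span {f.coeff (f.map (Ideal.Quotient.mk I)).natDegree})
      (lt_of_le_of_ne le_sup_left fun e =>
        hc (e.ge (Ideal.mem_sup_right (Ideal.mem_span_singleton_self _))))
    rwa [Ideal.map_sup, Ideal.map_span, Set.image_singleton] at h3

theorem cell_poly [IsNoetherianRing A] (h : Cell A) : Cell (Polynomial A) := by
  obtain ⟨G, hG⟩ := h
  refine ⟨G.map fun M => ⟨Polynomial A ⊗[A] M.M⟩, fun Γ _ χ hχ => ?_⟩
  obtain ⟨χ0, h1, h2⟩ := exists_base (A := A) χ
  have h3 := hG Γ χ0 fun M hM => by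
    rw [h1]
    exact hχ _ (List.mem_map_of_mem hM)
  have h4 := van_GB (χ := χ) (fun I => by
    rw [← Polynomial.algebraMap_eq, ← h2]
    exact h3 _ fun x hx y => by rw [Ideal.mem_bot.1 hx, zero_smul]) ⊥
  rwa [Ideal.map_bot] at h4

theorem cell_mv [IsNoetherianRing A] (h : Cell A) (V : Type) [Finite V] :
    Cell (MvPolynomial V A) := by
  induction V using Finite.induction_empty_option with
  | of_equiv e ih => exact cell_equiv (MvPolynomial.renameEquiv A e).toRingEquiv ih
  | h_empty => exact cell_equiv (MvPolynomial.isEmptyRingEquiv A PEmpty).symm h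
  | h_option ih =>
    exact cell_equiv (MvPolynomial.optionEquivLeft A _).symm.toRingEquiv (cell_poly ih)

end Pool.Agent.P.MP_1bf4cb_ag
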