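import Pool.Agent.P.MP_1bf4cb_ag.GA

set_option autoImplicit false
set_option linter.unusedSectionVars false
set_option linter.unusedVariables false

open Function Matrix
open scoped TensorProduct

noncomputable section

namespace Pool.Agent.P.MP_1bf4cb_ag

variable {A P : Type} [CommRing A] [CommRing P] {Γ : Type 1} [AddCommGroup Γ]

/-- finite modules have lattices -/
theorem exists_lat (ψ : A →+* P) (F : Finset A) (hi : ∀ f ∈ F, ∀ y, y ∈ den ψ f)
    (N : Type) [AddCommGroup N] [Module P N] [Module.Finite P N] :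
    ∃ (M : FG A) (h : M.M →ₛₗ[ψ] N), Injective h ∧
      ∀ f ∈ F, ∀ y : N, ∃ (r : ℕ) (x : M.M), ψ f ^ r • y = h x := by
  obtain ⟨n, π, hπ⟩ := Module.Finite.exists_fin' P N
  let g : (Fin n → A) →ₛₗ[ψ] N :=
    { toFun := fun x => π (fun i => ψ (x i))
      map_add' := fun x y => by
        rw [← map_add]; congr 1; funext i; simp
      map_smul' := fun a x => by
        rw [← map_smul]; congr 1; funext i; simp }
  refine ⟨⟨(Fin n → A) ⧸ LinearMap.ker g⟩, (LinearMap.ker g).liftQ g le_rfl, ?_, ?_⟩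
  · rw [← LinearMap.ker_eq_bot]
    exact Submodule.ker_liftQ_eq_bot _ _ _ le_rfl
  · intro f hf y
    obtain ⟨p, rfl⟩ := hπ y
    choose r x hx using fun i => mem_den.1 (hi f hf (p i))
    refine ⟨∑ i, r i, Submodule.Quotient.mk (fun i => f ^ (∑ j, r j - r i) * x i), ?_⟩
    rw [Submodule.liftQ_apply, ← map_smul]
    change _ = π _
    congr 1
    funext i
    have hle : r i ≤ ∑ j, r j := Finset.single_le_sum (fun j _ => Nat.zero_le (r j)) (Finset.mem_univ i)
    rw [Pi.smul_apply, smul_eq_mul, map_mul, map_pow, ← hx i, ← mul_assoc, ← pow_add,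
      Nat.sub_add_cancel hle]

/-- a sublattice has the same value -/
theorem sub_val_GC [IsNoetherianRing A] (ψ : A →+* P) (F : Finset A)
    (χ : AddF A Γ) (hv : Van χ (RingHom.ker ψ ⊔ Ideal.span (F : Set A)))
    (M : Type) [AddCommGroup M] [Module A M] [Module.Finite A M] (S : Submodule A M)
    (hk : ∀ a ∈ RingHom.ker ψ, ∀ x : M, a • x = 0)
    (hF : ∀ f ∈ F, ∀ x : M, ∃ r : ℕ, f ^ r • x ∈ S) : χ.val M = χ.val S := by
  have h0 : χ.val (M ⧸ S) = 0 := by
    refine hv.supp ?_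
    intro a ha y
    have hle : RingHom.ker ψ ⊔ Ideal.span (F : Set A) ≤ (Ideal.torsionOf A (M ⧸ S) y).radical := by
      obtain ⟨x, rfl⟩ := Submodule.Quotient.mk_surjective S y
      refine sup_le ?_ ?_
      · intro b hb
        refine Ideal.le_radical ?_
        rw [Ideal.mem_torsionOf_iff, ← Submodule.Quotient.mk_smul, hk b hb x,
          Submodule.Quotient.mk_zero]
      · rw [Ideal.span_le]
        intro f hf
        obtain ⟨r, hr⟩ := hF f hf x
        refine ⟨r, ?_⟩
        rw [Ideal.mem_torsionOf_iff, ← Submodule.Quotient.mk_smul,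
          Submodule.Quotient.mk_eq_zero]
        exact hr
    obtain ⟨r, hr⟩ := hle ha
    exact ⟨r, (Ideal.mem_torsionOf_iff _ _).1 hr⟩
  rw [χ.sub_quot S, h0, add_zero]

/-- two lattices have the same value -/
theorem lat_eq_GC [IsNoetherianRing A] (ψ : A →+* P) (F : Finset A)
    (χ : AddF A Γ) (hv : Van χ (RingHom.ker ψ ⊔ Ideal.span (F : Set A)))
    (N : Type) [AddCommGroup N] [Module P N]
    (M : Type) [AddCommGroup M] [Module A M] [Module.Finite A M] (h : M →ₛₗ[ψ] N)
    (hh : Injective h) (hM : ∀ f ∈ F, ∀ y : N, ∃ (r : ℕ) (x : M), ψ f ^ r • y = h x)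
    (M' : Type) [AddCommGroup M'] [Module A M'] [Module.Finite A M'] (h' : M' →ₛₗ[ψ] N)
    (hh' : Injective h') (hM' : ∀ f ∈ F, ∀ y : N, ∃ (r : ℕ) (x : M'), ψ f ^ r • y = h' x) :
    χ.val M = χ.val M' := by
  let K : Submodule A (M × M') :=
    LinearMap.ker (h.comp (LinearMap.fst A M M') - h'.comp (LinearMap.snd A M M'))
  have hK : ∀ z : M × M', z ∈ K ↔ h z.1 = h' z.2 := by
    intro z
    simp only [K, LinearMap.mem_ker, LinearMap.sub_apply, LinearMap.comp_apply,
      LinearMap.fst_apply, LinearMap.snd_apply, sub_eq_zero]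
  let p : K →ₗ[A] M := (LinearMap.fst A M M').comp K.subtype
  let p' : K →ₗ[A] M' := (LinearMap.snd A M M').comp K.subtype
  have hp : Injective p := by
    rintro ⟨⟨x, x'⟩, hx⟩ ⟨⟨y, y'⟩, hy⟩ hxy
    have e1 : x = y := hxy
    have e2 : x' = y' := by
      apply hh'
      have a1 := (hK _).1 hx
      have a2 := (hK _).1 hy
      simp only at a1 a2
      rw [← a1, ← a2, e1]
    subst e1 e2
    rfl
  have hp' : Injective p' := by
    rintro ⟨⟨x, x'⟩, hx⟩ ⟨⟨y, y'⟩, hy⟩ hxy
    have e1 : x' = y' := hxy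
    have e2 : x = y := by
      apply hh
      have a1 := (hK _).1 hx
      have a2 := (hK _).1 hy
      simp only at a1 a2
      rw [a1, a2, e1]
    subst e1 e2
    rfl
  have e1 : χ.val M = χ.val (LinearMap.range p) := by
    refine sub_val_GC ψ F χ hv M _ ?_ ?_
    · intro a ha x
      apply hh
      rw [LinearMap.map_smulₛₗ, (RingHom.mem_ker).1 ha, zero_smul, map_zero]
    · intro f hf x
      obtain ⟨r, x', hx'⟩ := hM' f hf (h x)
      refine ⟨r, ⟨(f ^ r • x, x'), (hK _).2 ?_⟩, rfl⟩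
      simp only
      rw [LinearMap.map_smulₛₗ, map_pow, hx']
  have e2 : χ.val M' = χ.val (LinearMap.range p') := by
    refine sub_val_GC ψ F χ hv M' _ ?_ ?_
    · intro a ha x
      apply hh'
      rw [LinearMap.map_smulₛₗ, (RingHom.mem_ker).1 ha, zero_smul, map_zero]
    · intro f hf x'
      obtain ⟨r, x, hx⟩ := hM f hf (h' x')
      refine ⟨r, ⟨(x, f ^ r • x'), (hK _).2 ?_⟩, rfl⟩
      simp only
      rw [LinearMap.map_smulₛₗ, map_pow, hx]
  have e3 : χ.val K = χ.val (LinearMap.range p) := χ.congr (LinearEquiv.ofInjective p hp)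
  have e4 : χ.val K = χ.val (LinearMap.range p') := χ.congr (LinearEquiv.ofInjective p' hp')
  rw [e1, e2, ← e3, ← e4]

/-- `N` has a lattice -/
def HasLat_GC (ψ : A →+* P) (F : Finset A) (N : Type) [AddCommGroup N] [Module P N] : Prop :=
  ∃ (M : FG A) (h : M.M →ₛₗ[ψ] N), Injective h ∧
    ∀ f ∈ F, ∀ y : N, ∃ (r : ℕ) (x : M.M), ψ f ^ r • y = h x

open Classical in
/-- the value of a chosen lattice -/
def latVal_GC (ψ : A →+* P) (F : Finset A) (χ : AddF A Γ) (N : Type) [AddCommGroup N]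
    [Module P N] : Γ :=
  if hN : HasLat_GC ψ F N then χ.val (Classical.choose hN).M else 0

theorem latVal_eq_GC [IsNoetherianRing A] (ψ : A →+* P) (F : Finset A)
    (χ : AddF A Γ) (hv : Van χ (RingHom.ker ψ ⊔ Ideal.span (F : Set A)))
    (N : Type) [AddCommGroup N] [Module P N]
    (M : Type) [AddCommGroup M] [Module A M] [Module.Finite A M] (h : M →ₛₗ[ψ] N)
    (hh : Injective h) (hM : ∀ f ∈ F, ∀ y : N, ∃ (r : ℕ) (x : M), ψ f ^ r • y = h x) :
    latVal_GC ψ F χ N = χ.val M := by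
  have hN : HasLat_GC ψ F N := ⟨⟨M⟩, h, hh, hM⟩
  unfold latVal_GC
  rw [dif_pos hN]
  obtain ⟨h', hh', hM'⟩ := Classical.choose_spec hN
  exact lat_eq_GC ψ F χ hv N _ h' hh' hM' M h hh hM

/-- an additive function descends to the open part -/
theorem lat [IsNoetherianRing A] (ψ : A →+* P) (F : Finset A) (hi : ∀ f ∈ F, ∀ y, y ∈ den ψ f)
    (χ : AddF A Γ) (hv : Van χ (RingHom.ker ψ ⊔ Ideal.span (F : Set A))) :
    ∃ χ' : AddF P Γ, ∀ (N : Type) [AddCommGroup N] [Module P N] (M : Type) [AddCommGroup M]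
      [Module A M] [Module.Finite A M] (h : M →ₛₗ[ψ] N), Injective h →
      (∀ f ∈ F, ∀ y : N, ∃ (r : ℕ) (x : M), ψ f ^ r • y = h x) → χ'.val N = χ.val M := by
  refine ⟨⟨fun N _ _ => latVal_GC ψ F χ N, ?_⟩, ?_⟩
  · intro M N Q _ _ _ _ _ _ _ u g hu hg hug
    obtain ⟨L, h, hh, hL⟩ := exists_lat ψ F hi N
    let gh : L.M →ₛₗ[ψ] Q := g.comp h
    let L' : Submodule A L.M := LinearMap.ker gh
    have hex : ∀ x : L', ∃ m : M, u m = h x := by
      intro x
      have hx : g (h x) = 0 := x.2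
      exact (hug _).1 hx
    choose s hs using hex
    let h' : L' →ₛₗ[ψ] M :=
      { toFun := s
        map_add' := fun x y => by
          apply hu
          rw [map_add, hs, hs, hs, Submodule.coe_add, map_add]
        map_smul' := fun a x => by
          apply hu
          rw [map_smul, hs, hs, Submodule.coe_smul, LinearMap.map_smulₛₗ] }
    have hh' : Injective h' := by
      intro x y hxy
      have e : s x = s y := hxy
      apply Subtype.ext
      apply hh
      rw [← hs, ← hs, e]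
    have hL' : ∀ f ∈ F, ∀ y : M, ∃ (r : ℕ) (x : L'), ψ f ^ r • y = h' x := by
      intro f hf y
      obtain ⟨r, x, hx⟩ := hL f hf (u y)
      have hx' : x ∈ L' := by
        change g (h x) = 0
        rw [← hx, map_smul, (hug _).2 ⟨y, rfl⟩, smul_zero]
      refine ⟨r, ⟨x, hx'⟩, hu ?_⟩
      change _ = u (s ⟨x, hx'⟩)
      rw [hs, map_smul, hx]
    let h'' : (L.M ⧸ L') →ₛₗ[ψ] Q := L'.liftQ gh le_rfl
    have hh'' : Injective h'' := by
      rw [← LinearMap.ker_eq_bot]
      exact Submodule.ker_liftQ_eq_bot _ _ _ le_rfl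
    have hL'' : ∀ f ∈ F, ∀ y : Q, ∃ (r : ℕ) (x : L.M ⧸ L'), ψ f ^ r • y = h'' x := by
      intro f hf y
      obtain ⟨n, rfl⟩ := hg y
      obtain ⟨r, x, hx⟩ := hL f hf n
      refine ⟨r, Submodule.Quotient.mk x, ?_⟩
      change _ = g (h x)
      rw [← hx, map_smul]
    change latVal_GC ψ F χ N = latVal_GC ψ F χ M + latVal_GC ψ F χ Q
    rw [latVal_eq_GC ψ F χ hv N L.M h hh hL, latVal_eq_GC ψ F χ hv M L' h' hh' hL',
      latVal_eq_GC ψ F χ hv Q _ h'' hh'' hL'']
    exact χ.sub_quot L'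
  · intro N _ _ M _ _ _ h hh hM
    exact latVal_eq_GC ψ F χ hv N M h hh hM

end Pool.Agent.P.MP_1bf4cb_ag
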