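import Pool.Agent.P.MP_1bf4cb_ag.GF

set_option autoImplicit false
set_option linter.unusedSectionVars false
set_option linter.unusedVariables false

open Function Matrix
open scoped TensorProduct

noncomputable section

namespace Pool.Agent.P.MP_1bf4cb_ag

variable {A : Type} [CommRing A]

theorem exact_GD {Γ : Type 1} [AddCommGroup Γ] (χ : AddF A Γ) {X Y Z : Type} [AddCommGroup X]
    [Module A X] [AddCommGroup Y] [Module A Y] [AddCommGroup Z] [Module A Z] [Module.Finite A Y]
    (u : X →ₗ[A] Y) (v : Y →ₗ[A] Z) (h : Exact u v) :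
    χ.val Y = χ.val (LinearMap.range u) + χ.val (LinearMap.range v) := by
  rw [χ.ker_range v, h.linearMap_ker_eq]

theorem euler_GD {Γ : Type 1} [AddCommGroup Γ] (χ : AddF A Γ) {M N P : Type} [AddCommGroup M]
    [Module A M] [AddCommGroup N] [Module A N] [AddCommGroup P] [Module A P]
    (f : M →ₗ[A] N) (g : N →ₗ[A] P) (hf : Injective f) (hg : Surjective g) (h : Exact f g)
    (i₁ : M →ₗ[A] M) (i₂ : N →ₗ[A] N) (i₃ : P →ₗ[A] P)
    (h₁ : ∀ y, f (i₁ y) = i₂ (f y)) (h₂ : ∀ y, g (i₂ y) = i₃ (g y))
    [Module.Finite A (LinearMap.ker i₁)] [Module.Finite A (LinearMap.ker i₂)]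
    [Module.Finite A (LinearMap.ker i₃)] [Module.Finite A (M ⧸ LinearMap.range i₁)]
    [Module.Finite A (N ⧸ LinearMap.range i₂)] [Module.Finite A (P ⧸ LinearMap.range i₃)] :
    χ.val (N ⧸ LinearMap.range i₂) - χ.val (LinearMap.ker i₂) =
      (χ.val (M ⧸ LinearMap.range i₁) - χ.val (LinearMap.ker i₁)) +
        (χ.val (P ⧸ LinearMap.range i₃) - χ.val (LinearMap.ker i₃)) := by
  let F1 : LinearMap.ker i₁ →ₗ[A] LinearMap.ker i₂ := f.restrict (fun y hy => by
    rw [LinearMap.mem_ker] at hy ⊢
    rw [← h₁, hy, map_zero])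
  let F2 : LinearMap.ker i₂ →ₗ[A] LinearMap.ker i₃ := g.restrict (fun y hy => by
    rw [LinearMap.mem_ker] at hy ⊢
    rw [← h₂, hy, map_zero])
  let G1 : (M ⧸ LinearMap.range i₁) →ₗ[A] (N ⧸ LinearMap.range i₂) :=
    Submodule.mapQ _ _ f (by
      rintro _ ⟨y, rfl⟩
      exact ⟨f y, (h₁ y).symm⟩)
  let G2 : (N ⧸ LinearMap.range i₂) →ₗ[A] (P ⧸ LinearMap.range i₃) :=
    Submodule.mapQ _ _ g (by
      rintro _ ⟨y, rfl⟩
      exact ⟨g y, (h₂ y).symm⟩)
  have k1 : f.comp i₁ = i₂.comp f := LinearMap.ext h₁
  have k2 : g.comp i₂ = i₃.comp g := LinearMap.ext h₂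
  have eF : Exact F1 F2 := by
    intro y
    constructor
    · intro hy
      have h0 : g y.1 = 0 := congrArg Subtype.val hy
      obtain ⟨z, hz⟩ := (h _).1 h0
      refine ⟨⟨z, ?_⟩, Subtype.ext hz⟩
      rw [LinearMap.mem_ker]
      apply hf
      rw [h₁, hz, map_zero]
      exact y.2
    · rintro ⟨z, rfl⟩
      exact Subtype.ext (h.apply_apply_eq_zero z.1)
  have eG : Exact G1 G2 := by
    intro y
    obtain ⟨y, rfl⟩ := Submodule.Quotient.mk_surjective _ y
    constructor
    · intro hy
      have h0 : g y ∈ LinearMap.range i₃ := (Submodule.Quotient.mk_eq_zero _).1 hy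
      obtain ⟨w, hw⟩ := h0
      obtain ⟨v, rfl⟩ := hg w
      obtain ⟨z, hz⟩ := (h (y - i₂ v)).1 (by rw [map_sub, h₂, hw, sub_self])
      refine ⟨Submodule.Quotient.mk z, ?_⟩
      refine (Submodule.Quotient.eq _).2 ⟨-v, ?_⟩
      rw [hz, map_neg]
      abel
    · rintro ⟨z, hz⟩
      obtain ⟨z, rfl⟩ := Submodule.Quotient.mk_surjective _ z
      rw [← hz]
      refine (Submodule.Quotient.mk_eq_zero _).2 ?_
      rw [h.apply_apply_eq_zero z]
      exact zero_mem _
  have e2 := SnakeLemma.exact_δ'_right i₁ i₂ i₃ f g h f g h k1 k2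
    (LinearMap.ker i₂).subtype (LinearMap.exact_subtype_ker_map i₂)
    (LinearMap.ker i₃).subtype (LinearMap.exact_subtype_ker_map i₃)
    (LinearMap.range i₁).mkQ (LinearMap.exact_map_mkQ_range i₁) hg hf F2
    (LinearMap.ext fun _ => rfl) (Submodule.subtype_injective _)
  have e3 := SnakeLemma.exact_δ'_left i₁ i₂ i₃ f g h f g h k1 k2
    (LinearMap.ker i₃).subtype (LinearMap.exact_subtype_ker_map i₃)
    (LinearMap.range i₁).mkQ (LinearMap.exact_map_mkQ_range i₁)
    (LinearMap.range i₂).mkQ (LinearMap.exact_map_mkQ_range i₂) hg hf G1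
    (LinearMap.ext fun _ => rfl) (Submodule.mkQ_surjective _)
  have iF : Injective F1 := fun y z hyz => Subtype.ext (hf (congrArg Subtype.val hyz))
  have sG : Surjective G2 := by
    intro y
    obtain ⟨y, rfl⟩ := Submodule.Quotient.mk_surjective _ y
    obtain ⟨z, rfl⟩ := hg y
    exact ⟨Submodule.Quotient.mk z, rfl⟩
  have a1 := χ.congr (LinearEquiv.ofInjective F1 iF)
  have a2 := exact_GD χ _ _ eF
  have a3 := exact_GD χ _ _ e2
  have a4 := exact_GD χ _ _ e3
  have a5 := exact_GD χ _ _ eG
  have a6 := χ.congr (LinearEquiv.ofTop (LinearMap.range G2) (LinearMap.range_eq_top.2 sG))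
  rw [a1, a2, a3, a4, a5, a6]
  abel

section
open Polynomial
variable {M : Type} [AddCommGroup M] [Module A M] [Module A[X] M] [IsScalarTower A A[X] M]

/-- multiplication by `X - a` -/
def mulX_GD (a : A) (M : Type) [AddCommGroup M] [Module A M] [Module A[X] M]
    [IsScalarTower A A[X] M] : M →ₗ[A] M :=
  (LinearMap.lsmul A[X] M (X - C a)).restrictScalars A

theorem mulX_apply_GD (a : A) (y : M) : mulX_GD a M y = (X - C a : A[X]) • y := rfl

theorem split_GD (a : A) (p : A[X]) :
    ∃ q : A[X], ∀ y : M, p • y = p.eval a • y + ((X - C a) * q) • y := by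
  obtain ⟨q, hq⟩ := X_sub_C_dvd_sub_C_eval (a := a) (p := p)
  refine ⟨q, fun y => ?_⟩
  rw [← hq, sub_smul, ← algebraMap_smul A[X] (p.eval a) y, algebraMap_eq]
  abel

theorem ker_smul_GD (a : A) (p : A[X]) {y : M} (hy : (X - C a : A[X]) • y = 0) :
    p • y = p.eval a • y := by
  obtain ⟨q, hq⟩ := split_GD (M := M) a p
  rw [hq, mul_comm, mul_smul, hy, smul_zero, add_zero]

theorem quot_smul_GD (a : A) (p : A[X]) (y : M) :
    (LinearMap.range (mulX_GD a M)).mkQ (p • y) =
      p.eval a • (LinearMap.range (mulX_GD a M)).mkQ y := by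
  obtain ⟨q, hq⟩ := split_GD (M := M) a p
  have h0 : (LinearMap.range (mulX_GD a M)).mkQ (((X - C a) * q) • y) = 0 :=
    (Submodule.Quotient.mk_eq_zero _).2 ⟨q • y, by rw [mulX_apply_GD, mul_smul]⟩
  rw [hq, map_add, h0, add_zero, map_smul]

theorem fin_quot_GD (a : A) [Module.Finite A[X] M] :
    Module.Finite A (M ⧸ LinearMap.range (mulX_GD a M)) := by
  obtain ⟨s, hs⟩ := Module.Finite.fg_top (R := A[X]) (M := M)
  refine ⟨Submodule.fg_def.2 ⟨(LinearMap.range (mulX_GD a M)).mkQ '' s,
    s.finite_toSet.image _, ?_⟩⟩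
  rw [eq_top_iff]
  rintro y -
  obtain ⟨y, rfl⟩ := Submodule.mkQ_surjective _ y
  have hy : y ∈ Submodule.span A[X] (s : Set M) := by rw [hs]; trivial
  induction hy using Submodule.span_induction with
  | mem z hz => exact Submodule.subset_span ⟨z, hz, rfl⟩
  | zero => rw [map_zero]; exact zero_mem _
  | add z w _ _ hz hw => rw [map_add]; exact add_mem hz hw
  | smul p z _ hz => rw [quot_smul_GD]; exact Submodule.smul_mem _ _ hz

theorem fin_ker_GD [IsNoetherianRing A] (a : A) [Module.Finite A[X] M] :
    Module.Finite A (LinearMap.ker (mulX_GD a M)) := by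
  obtain ⟨s, hs⟩ := IsNoetherian.noetherian (LinearMap.ker (LinearMap.lsmul A[X] M (X - C a)))
  rw [Module.Finite.iff_fg]
  refine ⟨s, le_antisymm ?_ ?_⟩
  · rw [Submodule.span_le]
    intro y hy
    have : y ∈ LinearMap.ker (LinearMap.lsmul A[X] M (X - C a)) := by
      rw [← hs]; exact Submodule.subset_span hy
    exact this
  · intro y hy
    have hy' : y ∈ Submodule.span A[X] (s : Set M) := by rw [hs]; exact hy
    clear hy
    induction hy' using Submodule.span_induction with
    | mem z hz => exact Submodule.subset_span hz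
    | zero => exact zero_mem _
    | add z w _ _ hz hw => exact add_mem hz hw
    | smul p z hz' hz =>
      rw [hs] at hz'
      rw [ker_smul_GD a p hz']
      exact Submodule.smul_mem _ _ hz

theorem tower_GD (M : Type) [AddCommGroup M] [Module A[X] M] :
    letI : Module A M := Module.compHom M (C : A →+* A[X])
    IsScalarTower A A[X] M :=
  letI : Module A M := Module.compHom M (C : A →+* A[X])
  ⟨fun c p y => by
    change (c • p) • y = (C c : A[X]) • p • y
    rw [smul_eq_C_mul, mul_smul]⟩

theorem cyc_GD {Γ : Type 1} [AddCommGroup Γ] [IsNoetherianRing A] (χ : AddF A Γ) (a : A)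
    (I : Ideal A) (m : M) (hm : ∀ y : M, ∃ p : A[X], p • m = y)
    (hI : ∀ p : A[X], p • m = 0 ↔ p ∈ I.map (C : A →+* A[X])) :
    χ.val (M ⧸ LinearMap.range (mulX_GD a M)) - χ.val (LinearMap.ker (mulX_GD a M)) =
      χ.val (A ⧸ I) := by
  have hk : ∀ p : A[X], p ∈ I.map (C : A →+* A[X]) ↔ p.map (Ideal.Quotient.mk I) = 0 := by
    intro p
    have := ker_mapRingHom (Ideal.Quotient.mk I)
    rw [Ideal.mk_ker] at this
    rw [← this, RingHom.mem_ker, coe_mapRingHom]
  have h0 : Subsingleton (LinearMap.ker (mulX_GD a M)) := by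
    refine subsingleton_of_forall_eq 0 fun y => Subtype.ext ?_
    obtain ⟨p, hp⟩ := hm y.1
    have h1 : ((X - C a) * p) • m = 0 := by rw [mul_smul, hp]; exact y.2
    rw [hI, hk, Polynomial.map_mul, ((monic_X_sub_C a).map _).mul_right_eq_zero_iff, ← hk,
      ← hI] at h1
    rw [← hp, h1]
    rfl
  rw [χ.zero (LinearMap.ker (mulX_GD a M)), sub_zero]
  let φ := LinearMap.toSpanSingleton A _ ((LinearMap.range (mulX_GD a M)).mkQ m)
  have hs : Surjective φ := by
    intro y
    obtain ⟨y, rfl⟩ := Submodule.mkQ_surjective _ y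
    obtain ⟨p, rfl⟩ := hm y
    exact ⟨p.eval a, (quot_smul_GD a p m).symm⟩
  have hker : LinearMap.ker φ = I := by
    ext c
    have h1 : φ c = (LinearMap.range (mulX_GD a M)).mkQ ((C c : A[X]) • m) := by
      rw [quot_smul_GD, eval_C]; rfl
    rw [LinearMap.mem_ker, h1]
    constructor
    · intro h2
      obtain ⟨z, hz⟩ := (Submodule.Quotient.mk_eq_zero _).1 h2
      obtain ⟨p, rfl⟩ := hm z
      have h3 : (C c - (X - C a) * p) ∈ I.map (C : A →+* A[X]) := by
        rw [← hI, sub_smul, mul_smul, ← hz, mulX_apply_GD, sub_self]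
      have h4 : I.map (C : A →+* A[X]) ≤ I.comap (evalRingHom a) := by
        rw [Ideal.map_le_iff_le_comap]
        intro d hd
        simpa using hd
      simpa using h4 h3
    · intro hc
      rw [(hI _).2 (Ideal.mem_map_of_mem _ hc), map_zero]
  exact χ.congr ((φ.quotKerEquivOfSurjective hs).symm.trans (Submodule.quotEquivOfEq _ _ hker))

end

theorem spec_poly [IsNoetherianRing A] (a : A) :
    Spec (Polynomial.C : A →+* Polynomial A) (Polynomial.evalRingHom a) := by
  intro Γ _ χ
  refine ⟨⟨fun M _ _ =>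
    letI : Module A M := Module.compHom M (Polynomial.C : A →+* Polynomial A)
    haveI := tower_GD (A := A) M
    χ.val (M ⧸ LinearMap.range (mulX_GD a M)) - χ.val (LinearMap.ker (mulX_GD a M)), ?_⟩, ?_, ?_⟩
  · intro M N P _ _ _ _ _ _ _ f g hf hg h
    letI : Module A M := Module.compHom M (Polynomial.C : A →+* Polynomial A)
    letI : Module A N := Module.compHom N (Polynomial.C : A →+* Polynomial A)
    letI : Module A P := Module.compHom P (Polynomial.C : A →+* Polynomial A)
    haveI := tower_GD (A := A) M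
    haveI := tower_GD (A := A) N
    haveI := tower_GD (A := A) P
    haveI : Module.Finite (Polynomial A) M := Module.Finite.of_injective f hf
    haveI : Module.Finite (Polynomial A) P := Module.Finite.of_surjective g hg
    haveI := fin_quot_GD (M := M) a
    haveI := fin_quot_GD (M := N) a
    haveI := fin_quot_GD (M := P) a
    haveI := fin_ker_GD (M := M) a
    haveI := fin_ker_GD (M := N) a
    haveI := fin_ker_GD (M := P) a
    exact euler_GD χ (f.restrictScalars A) (g.restrictScalars A) hf hg h _ _ _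
      (fun y => map_smul f _ y) (fun y => map_smul g _ y)
  · intro s hs M _ _ _ hM
    letI : Module A M := Module.compHom M (Polynomial.C : A →+* Polynomial A)
    haveI := tower_GD (A := A) M
    haveI := fin_quot_GD (M := M) a
    haveI := fin_ker_GD (M := M) a
    have hs0 : ∀ y : M, s • y = 0 := hM s (Ideal.mem_span_singleton_self s)
    have h1 : χ.val (M ⧸ LinearMap.range (mulX_GD a M)) = 0 := by
      refine hs _ fun c hc y => ?_
      obtain ⟨d, rfl⟩ := Ideal.mem_span_singleton'.1 hc
      obtain ⟨y, rfl⟩ := Submodule.mkQ_surjective _ y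
      rw [mul_smul, Polynomial.coe_evalRingHom, ← quot_smul_GD, hs0, map_zero, smul_zero]
    have h2 : χ.val (LinearMap.ker (mulX_GD a M)) = 0 := by
      refine hs _ fun c hc y => ?_
      obtain ⟨d, rfl⟩ := Ideal.mem_span_singleton'.1 hc
      have h3 : Polynomial.evalRingHom a s • y = 0 := by
        refine Subtype.ext ?_
        rw [Submodule.coe_smul, Polynomial.coe_evalRingHom, ← ker_smul_GD a s y.2, hs0]
        rfl
      rw [mul_smul, h3, smul_zero]
    change χ.val (M ⧸ LinearMap.range (mulX_GD a M)) - χ.val (LinearMap.ker (mulX_GD a M)) = 0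
    rw [h1, h2, sub_zero]
  · intro I
    letI : Module A (Polynomial A ⧸ I.map (Polynomial.C : A →+* Polynomial A)) :=
      Module.compHom _ (Polynomial.C : A →+* Polynomial A)
    haveI := tower_GD (A := A) (Polynomial A ⧸ I.map (Polynomial.C : A →+* Polynomial A))
    have hp : ∀ p : Polynomial A,
        p • (1 : Polynomial A ⧸ I.map (Polynomial.C : A →+* Polynomial A)) =
          Ideal.Quotient.mk _ p := fun p => by
      change Ideal.Quotient.mk _ (p * 1) = _
      rw [mul_one]
    refine cyc_GD χ a I 1 (fun y => ?_) (fun p => ?_)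
    · obtain ⟨p, rfl⟩ := Ideal.Quotient.mk_surjective y
      exact ⟨p, hp p⟩
    · rw [hp, Ideal.Quotient.eq_zero_iff_mem]

theorem spec_mv [IsNoetherianRing A] {V : Type} [Finite V] (a : V → A) :
    Spec (MvPolynomial.C : A →+* MvPolynomial V A) (MvPolynomial.eval a) := by
  revert a
  refine Finite.induction_empty_option
    (P := fun V => ∀ a : V → A,
      Spec (MvPolynomial.C : A →+* MvPolynomial V A) (MvPolynomial.eval a)) ?_ ?_ ?_ V
  · intro α β e h a
    have k := spec_trans (h (a ∘ e)) (spec_equiv (MvPolynomial.renameEquiv A e).toRingEquiv)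
    have e1 : ((MvPolynomial.renameEquiv A e).toRingEquiv :
        MvPolynomial α A →+* MvPolynomial β A).comp MvPolynomial.C =
        MvPolynomial.C := by
      ext1 c
      simp
    have e2 : (MvPolynomial.eval (a ∘ e)).comp
        ((MvPolynomial.renameEquiv A e).toRingEquiv.symm :
          MvPolynomial β A →+* MvPolynomial α A) = MvPolynomial.eval a := by
      refine MvPolynomial.ringHom_ext (fun c => ?_) (fun i => ?_)
      · change MvPolynomial.eval (a ∘ e) (MvPolynomial.rename e.symm (MvPolynomial.C c)) = _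
        simp
      · change MvPolynomial.eval (a ∘ e) (MvPolynomial.rename e.symm (MvPolynomial.X i)) = _
        simp
    rwa [e1, e2] at k
  · intro a
    have k := spec_equiv (MvPolynomial.isEmptyRingEquiv A PEmpty.{1}).symm
    have e1 : ((MvPolynomial.isEmptyRingEquiv A PEmpty.{1}).symm :
        A →+* MvPolynomial PEmpty.{1} A) = MvPolynomial.C := by
      ext1 c
      simp
    have e2 : ((MvPolynomial.isEmptyRingEquiv A PEmpty.{1}).symm.symm :
        MvPolynomial PEmpty.{1} A →+* A) =
        MvPolynomial.eval a := by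
      refine MvPolynomial.ringHom_ext (fun c => ?_) (fun i => i.elim)
      rw [MvPolynomial.eval_C, ← e1]
      exact (MvPolynomial.isEmptyRingEquiv A PEmpty.{1}).apply_symm_apply c
    rwa [e1, e2] at k
  · intro α _ h a
    have k := spec_trans (spec_trans (h (a ∘ some)) (spec_poly (MvPolynomial.C (a none))))
      (spec_equiv (MvPolynomial.optionEquivLeft A α).toRingEquiv.symm)
    have e1 : ((MvPolynomial.optionEquivLeft A α).toRingEquiv.symm :
        Polynomial (MvPolynomial α A) →+* MvPolynomial (Option α) A).comp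
        (Polynomial.C.comp MvPolynomial.C) = MvPolynomial.C := by
      ext1 c
      apply (MvPolynomial.optionEquivLeft A α).injective
      change MvPolynomial.optionEquivLeft A α ((MvPolynomial.optionEquivLeft A α).symm _) = _
      rw [AlgEquiv.apply_symm_apply, MvPolynomial.optionEquivLeft_C]
      rfl
    have e2 : ((MvPolynomial.eval (a ∘ some)).comp
        (Polynomial.evalRingHom (MvPolynomial.C (a none)))).comp
        ((MvPolynomial.optionEquivLeft A α).toRingEquiv.symm.symm :
          MvPolynomial (Option α) A →+* Polynomial (MvPolynomial α A)) =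
        MvPolynomial.eval a := by
      refine MvPolynomial.ringHom_ext (fun c => ?_) (fun i => ?_)
      · change MvPolynomial.eval (a ∘ some) (Polynomial.eval _
          (MvPolynomial.optionEquivLeft A α (MvPolynomial.C c))) = _
        simp [MvPolynomial.optionEquivLeft_C]
      · change MvPolynomial.eval (a ∘ some) (Polynomial.eval _
          (MvPolynomial.optionEquivLeft A α (MvPolynomial.X i))) = _
        cases i <;> simp [MvPolynomial.optionEquivLeft_X_none, MvPolynomial.optionEquivLeft_X_some]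
    rwa [e1, e2] at k

end Pool.Agent.P.MP_1bf4cb_ag
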