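import Pool.Agent.P.MP_1bf4cb_ag.GC
import Pool.Agent.P.MP_1bf4cb_ag.GD

set_option autoImplicit false
set_option linter.unusedSectionVars false
set_option linter.unusedVariables false

open Function Matrix
open scoped TensorProduct

noncomputable section

namespace Pool.Agent.P.MP_1bf4cb_ag

theorem loc_GE {D L : Type} [CommRing D] [IsNoetherianRing D] (s : D) [CommRing L] [Algebra D L]
    [IsLocalization.Away s L] {Γ : Type 1} [AddCommGroup Γ] (ρ : AddF D Γ)
    (hv : Van ρ (Ideal.span {s})) (ρ' : AddF L Γ) (hi : ∀ y : L, y ∈ den (algebraMap D L) s)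
    (hρ' : ∀ (N : Type) [AddCommGroup N] [Module L N] (M : Type) [AddCommGroup M]
      [Module D M] [Module.Finite D M] (h : M →ₛₗ[algebraMap D L] N), Injective h →
      (∀ y : N, ∃ (r : ℕ) (x : M), algebraMap D L s ^ r • y = h x) → ρ'.val N = ρ.val M)
    (K : Ideal D) : ρ'.val (L ⧸ K.map (algebraMap D L)) = ρ.val (D ⧸ K) := by
  set KL := K.map (algebraMap D L) with hKL
  set K' := KL.comap (algebraMap D L) with hK'
  let h : (D ⧸ K') →ₛₗ[algebraMap D L] (L ⧸ KL) :=
    { toFun := Ideal.quotientMap KL (algebraMap D L) le_rfl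
      map_add' := map_add _
      map_smul' := fun c x => by
        obtain ⟨x, rfl⟩ := Ideal.Quotient.mk_surjective x
        have e1 : c • Ideal.Quotient.mk K' x = Ideal.Quotient.mk K' (c * x) := rfl
        rw [e1, Ideal.quotientMap_mk, Ideal.quotientMap_mk, map_mul]
        rfl }
  have h1 : ρ'.val (L ⧸ KL) = ρ.val (D ⧸ K') := by
    refine hρ' _ _ h Ideal.quotientMap_injective fun y => ?_
    obtain ⟨y, rfl⟩ := Ideal.Quotient.mk_surjective y
    obtain ⟨r, x, hx⟩ := hi y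
    refine ⟨r, Ideal.Quotient.mk K' x, ?_⟩
    show Ideal.Quotient.mk KL (algebraMap D L s ^ r * y) =
      Ideal.quotientMap KL (algebraMap D L) le_rfl (Ideal.Quotient.mk K' x)
    rw [Ideal.quotientMap_mk, hx]
  have hle : K ≤ K' := Ideal.le_comap_map
  let f : (D ⧸ K) →ₗ[D] (D ⧸ K') := Submodule.factor hle
  have hf : Surjective f := Submodule.factor_surjective hle
  have h2 : ρ.val (LinearMap.ker f) = 0 := by
    refine hv.supp fun x hx y => ?_
    obtain ⟨c, rfl⟩ := Ideal.mem_span_singleton'.1 hx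
    obtain ⟨y, hy⟩ := y
    obtain ⟨y, rfl⟩ := Ideal.Quotient.mk_surjective y
    have h3 : y ∈ K' := Ideal.Quotient.eq_zero_iff_mem.1 hy
    obtain ⟨_, ⟨N, rfl⟩, h4⟩ := (IsLocalization.algebraMap_mem_map_algebraMap_iff
      (Submonoid.powers s) L K y).1 h3
    refine ⟨N, Subtype.ext ?_⟩
    show Ideal.Quotient.mk K ((c * s) ^ N * y) = 0
    rw [Ideal.Quotient.eq_zero_iff_mem, mul_pow, mul_assoc]
    exact K.mul_mem_left _ h4
  rw [h1, ρ.add (LinearMap.ker f).subtype f (Submodule.injective_subtype _) hf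
    (LinearMap.exact_subtype_ker_map f), h2, zero_add]

/-- ideals whose extension to `L` comes from a cellular ring `U` have classes in a finitely
generated subgroup -/
theorem key {R U L V : Type} [CommRing R] [IsNoetherianRing R] [Finite V] (a : V → R)
    (s : MvPolynomial V R) (hs : MvPolynomial.eval a s = 1) [CommRing L]
    [Algebra (MvPolynomial V R) L] [IsLocalization.Away s L] [CommRing U] [Algebra U L]
    [Module.Flat U L] (hU : Cell U) : ∃ H : AddSubgroup (G0 R), H.FG ∧ ∀ I : Ideal R,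
      (∃ J : Ideal U, J.map (algebraMap U L) =
        (I.map (MvPolynomial.C : R →+* MvPolynomial V R)).map (algebraMap _ L)) → cyc I ∈ H := by
  obtain ⟨χ, hχ⟩ := exists_cls R
  obtain ⟨ρ, hρ1, hρ2⟩ := spec_mv a (G0 R) χ
  have hv : Van ρ (Ideal.span {s}) := hρ1 s (by rw [hs, Ideal.span_singleton_one]; exact van_top χ)
  have hi : ∀ y : L, y ∈ den (algebraMap (MvPolynomial V R) L) s := fun y => by
    obtain ⟨⟨x, _, N, rfl⟩, h⟩ := IsLocalization.surj (Submonoid.powers s) y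
    exact ⟨N, x, by rw [← map_pow, mul_comm]; exact h⟩
  obtain ⟨ρ', hρ'⟩ := lat (algebraMap (MvPolynomial V R) L) {s}
    (fun f hf => by rw [Finset.mem_singleton.1 hf]; exact hi) ρ
    (hv.mono (by rw [Finset.coe_singleton]; exact le_sup_right))
  obtain ⟨ρ'', -, hρ''⟩ := exists_base (A := U) ρ'
  obtain ⟨G, hG⟩ := hU
  let H : AddSubgroup (G0 R) := AddSubgroup.closure {x | x ∈ G.map fun M => ρ''.val M.M}
  refine ⟨H, (AddSubgroup.fg_iff _).2 ⟨_, rfl, List.finite_toSet _⟩, ?_⟩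
  rintro I ⟨J, hJ⟩
  obtain ⟨τ, hτ⟩ := exists_comp ρ'' (QuotientAddGroup.mk' H)
  have h1 : τ.val (U ⧸ J) = 0 := hG _ τ (fun M hM => by
    rw [hτ]
    exact (QuotientAddGroup.eq_zero_iff _).2
      (AddSubgroup.subset_closure (List.mem_map.2 ⟨M, hM, rfl⟩))) _
    (fun x hx y => by rw [Ideal.mem_bot.1 hx, zero_smul])
  rw [hτ] at h1
  have h2 : ρ''.val (U ⧸ J) ∈ H := (QuotientAddGroup.eq_zero_iff _).1 h1
  rw [hρ'', hJ] at h2
  rw [← hχ, ← hρ2, ← loc_GE s ρ hv ρ' hi fun N _ _ M _ _ _ h h3 h4 =>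
    hρ' N M h h3 fun f hf => by rw [Finset.mem_singleton.1 hf]; exact h4]
  exact h2

theorem dep {Γ : Type 1} [AddCommGroup Γ] {H : AddSubgroup Γ} (hH : H.FG) {v : ℕ → Γ}
    {ι : ℕ → ℕ} (hι : Injective ι) (h : ∀ j, v (ι j) ∈ H) : ¬ LinearIndependent ℤ v := by
  intro hv
  have : Module.Finite ℤ H := Module.Finite.iff_addGroup_fg.2 ((AddGroup.fg_iff_addSubgroup_fg H).2 hH)
  have h1 : LinearIndependent ℤ fun j => (⟨v (ι j), h j⟩ : H) :=
    LinearIndependent.of_comp H.subtype.toIntLinearMap (hv.comp ι hι)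
  exact Module.Finite.not_linearIndependent_of_infinite _ h1

/-- an ideal generated by elements with unit denominators is extended -/
theorem map_comap_den {U L : Type} [CommRing U] [CommRing L] (ψ : U →+* L) (t : U)
    (ht : IsUnit (ψ t)) (J : Ideal L) (S : Set L) (hS : ∀ y ∈ S, y ∈ J ∧ y ∈ den ψ t)
    (hJ : J ≤ Ideal.span S) : (J.comap ψ).map ψ = J := by
  refine le_antisymm Ideal.map_comap_le (hJ.trans (Ideal.span_le.2 fun y hy => ?_))
  obtain ⟨h1, N, x, h2⟩ := hS y hy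
  refine ((Ideal.unit_mul_mem_iff_mem _ (ht.pow N)).1 ?_)
  rw [h2]
  refine Ideal.mem_map_of_mem ψ (Ideal.mem_comap.2 ?_)
  rw [← h2]
  exact J.mul_mem_left _ h1

end Pool.Agent.P.MP_1bf4cb_ag
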