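import Pool.Agent.P.MP_1bf4cb_ag.GA

set_option autoImplicit false
set_option linter.unusedSectionVars false
set_option linter.unusedVariables false

open Function Matrix
open scoped TensorProduct

noncomputable section

namespace Pool.Agent.P.MP_1bf4cb_ag

variable {A B : Type} [CommRing A] [CommRing B] {Γ : Type 1} [AddCommGroup Γ]
  {M N : Type} [AddCommGroup M] [Module A M] [AddCommGroup N] [Module A N]

/-- flat base change -/
theorem exists_base [Algebra A B] [Module.Flat A B] (χ : AddF B Γ) : ∃ χ' : AddF A Γ,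
    (∀ (M : Type) [AddCommGroup M] [Module A M], χ'.val M = χ.val (B ⊗[A] M)) ∧
      ∀ I : Ideal A, χ'.val (A ⧸ I) = χ.val (B ⧸ I.map (algebraMap A B)) := by
  refine ⟨⟨fun M _ _ => χ.val (B ⊗[A] M), fun f g hf hg h => ?_⟩, fun M _ _ => rfl, fun I => ?_⟩
  · refine χ.add (f.baseChange B) (g.baseChange B) ?_ ?_ ?_
    · rw [LinearMap.baseChange_eq_ltensor]
      exact Module.Flat.lTensor_preserves_injective_linearMap f hf
    · rw [LinearMap.baseChange_eq_ltensor]
      exact LinearMap.lTensor_surjective B hg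
    · rw [LinearMap.baseChange_eq_ltensor, LinearMap.baseChange_eq_ltensor]
      exact lTensor_exact B h hg
  · exact χ.congr (Algebra.TensorProduct.quotIdealMapEquivTensorQuot B I).toLinearEquiv.symm

/-- composition with a homomorphism of groups -/
theorem exists_comp {Γ' : Type 1} [AddCommGroup Γ'] (χ : AddF A Γ) (π : Γ →+ Γ') :
    ∃ χ' : AddF A Γ', ∀ (M : Type) [AddCommGroup M] [Module A M], χ'.val M = π (χ.val M) := by
  exact ⟨⟨fun M _ _ => π (χ.val M), fun f g hf hg h => by rw [χ.add f g hf hg h, map_add]⟩,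
    fun M _ _ => rfl⟩

/-- the universal additive function -/
theorem exists_cls (A : Type) [CommRing A] [IsNoetherianRing A] :
    ∃ χ : AddF A (G0 A), ∀ I : Ideal A, χ.val (A ⧸ I) = cyc I := by
  classical
  refine ⟨⟨fun M _ _ => if h : Module.Finite A M then
    QuotientAddGroup.mk (FreeAbelianGroup.of (@FG.mk A _ M _ _ h)) else 0, ?_⟩, fun I => ?_⟩
  · intro M N P _ _ _ _ _ _ hN f g hf hg h
    have hM : Module.Finite A M := Module.Finite.of_injective f hf
    have hP : Module.Finite A P := Module.Finite.of_surjective g hg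
    rw [dif_pos hM, dif_pos hN, dif_pos hP, ← QuotientAddGroup.mk_add, eq_comm,
      QuotientAddGroup.eq]
    refine AddSubgroup.subset_closure ⟨⟨M⟩, ⟨N⟩, ⟨P⟩, f, g, hf, hg, h, ?_⟩
    abel
  · exact dif_pos (inferInstance : Module.Finite A (A ⧸ I))

theorem fin_GF (ψ : B →+* A) (hψ : Surjective ψ) (M : Type) [AddCommGroup M] [Module A M]
    [Module.Finite A M] : @Module.Finite B M _ _ (Module.compHom M ψ) := by
  let : Module B M := Module.compHom M ψ
  let : Algebra B A := ψ.toAlgebra
  have : IsScalarTower B A M := ⟨fun b a y => mul_smul (ψ b) a y⟩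
  have : Module.Finite B A := Module.Finite.of_surjective (Algebra.linearMap B A) hψ
  exact Module.Finite.trans A M

/-- restriction of scalars -/
def res_GF (ψ : B →+* A) (hψ : Surjective ψ) (χ : AddF B Γ) : AddF A Γ where
  val M _ _ := @AddF.val B _ Γ _ χ M _ (Module.compHom M ψ)
  add {M N P} _ _ _ _ _ _ _ f g hf hg h := by
    let : Module B M := Module.compHom M ψ
    let : Module B N := Module.compHom N ψ
    let : Module B P := Module.compHom P ψ
    have := fin_GF ψ hψ N
    exact χ.add (M := M) (N := N) (P := P) ⟨f.toAddHom, fun b y => f.map_smul (ψ b) y⟩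
      ⟨g.toAddHom, fun b y => g.map_smul (ψ b) y⟩ hf hg h

theorem cell_equiv (e : A ≃+* B) (h : Cell A) : Cell B := by
  obtain ⟨G, hG⟩ := h
  refine ⟨G.map fun M => @FG.mk B _ M.M _ (Module.compHom M.M (e.symm : B →+* A))
    (fin_GF _ e.symm.surjective M.M), fun Γ _ χ h0 N _ iN _ _ => ?_⟩
  have h1 := hG Γ (res_GF (e.symm : B →+* A) e.symm.surjective χ)
    fun M hM => h0 _ (List.mem_map_of_mem hM)
  let : Module A N := Module.compHom N (e : A →+* B)
  have := fin_GF (e : A →+* B) e.surjective N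
  have h2 : @AddF.val B _ Γ _ χ N _ (Module.compHom N (e.symm : B →+* A)) = 0 :=
    h1 N fun x hx y => by rw [Ideal.mem_bot.1 hx, zero_smul]
  have h3 : Module.compHom N (e.symm : B →+* A) = iN := by
    refine Module.ext' _ _ fun b y => ?_
    show e (e.symm b) • y = b • y
    rw [e.apply_symm_apply]
  rwa [h3] at h2

theorem spec_equiv (e : A ≃+* B) : Spec (e : A →+* B) (e.symm : B →+* A) := by
  intro Γ _ χ
  refine ⟨res_GF (e : A →+* B) e.surjective χ, fun s hs M _ _ _ hM => ?_, fun I => ?_⟩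
  · let : Module A M := Module.compHom M (e : A →+* B)
    have := fin_GF (e : A →+* B) e.surjective M
    refine hs M fun x hx y => hM (e x) ?_ y
    obtain ⟨a, rfl⟩ := Ideal.mem_span_singleton'.1 hx
    refine Ideal.mem_span_singleton'.2 ⟨e a, ?_⟩
    simp
  · let : Module A (B ⧸ I.map (e : A →+* B)) := Module.compHom _ (e : A →+* B)
    let q : (A ⧸ I) ≃+* B ⧸ I.map (e : A →+* B) := Ideal.quotientEquiv I _ e rfl
    refine χ.congr (LinearEquiv.symm { q.toAddEquiv with map_smul' := fun a y => ?_ })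
    obtain ⟨u, rfl⟩ := Ideal.Quotient.mk_surjective y
    show q (Ideal.Quotient.mk I (a * u)) = e a • q (Ideal.Quotient.mk I u)
    rw [map_mul, map_mul]
    rfl

theorem spec_trans {C : Type} [CommRing C] {φ : A →+* B} {ε : B →+* A} {φ' : B →+* C}
    {ε' : C →+* B} (h : Spec φ ε) (h' : Spec φ' ε') : Spec (φ'.comp φ) (ε.comp ε') := by
  intro Γ _ χ
  obtain ⟨ρ, h1, h2⟩ := h Γ χ
  obtain ⟨ρ', h3, h4⟩ := h' Γ ρ
  refine ⟨ρ', fun s hs => h3 s (h1 _ hs), fun I => ?_⟩
  rw [← Ideal.map_map, h4, h2]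

end Pool.Agent.P.MP_1bf4cb_ag
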