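import Pool.Agent.P.MP_1bf4cb_ag.GC

set_option autoImplicit false
set_option linter.unusedSectionVars false
set_option linter.unusedVariables false

open Function Matrix
open scoped TensorProduct

noncomputable section

namespace Pool.Agent.P.MP_1bf4cb_ag

variable {A P : Type} [CommRing A] [CommRing P] {Γ : Type 1} [AddCommGroup Γ]

theorem clear_GH (ψ : A →+* P) (f : A) (hi : ∀ y, y ∈ den ψ f) (I : Ideal A) (y : P)
    (hy : y ∈ I.map ψ) : ∃ (r : ℕ) (p : A), p ∈ I ∧ ψ f ^ r * y = ψ p := by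
  unfold Ideal.map at hy
  induction hy using Submodule.span_induction with
  | mem z hz =>
    obtain ⟨p, hp, rfl⟩ := hz
    exact ⟨0, p, hp, by simp⟩
  | zero => exact ⟨0, 0, I.zero_mem, by simp⟩
  | add z z' _ _ h h' =>
    obtain ⟨r, p, hp, h⟩ := h
    obtain ⟨r', p', hp', h'⟩ := h'
    refine ⟨r + r', f ^ r' * p + f ^ r * p',
      I.add_mem (I.mul_mem_left _ hp) (I.mul_mem_left _ hp'), ?_⟩
    rw [map_add, map_mul, map_mul, map_pow, map_pow, ← h, ← h']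
    ring
  | smul c z _ h =>
    obtain ⟨r, p, hp, h⟩ := h
    obtain ⟨r', x, hx⟩ := hi c
    refine ⟨r + r', x * p, I.mul_mem_left _ hp, ?_⟩
    rw [map_mul, ← h, ← hx, smul_eq_mul]
    ring

/-- adding one cell -/
theorem step [IsNoetherianRing A] (ψ : A →+* P) (F : Finset A) (b : Ideal A)
    (hi : ∀ f ∈ F, ∀ y, y ∈ den ψ f) (hb : b ≤ RingHom.ker ψ)
    (hp : ∀ 𝔭 : Ideal A, 𝔭.IsPrime → b ≤ 𝔭 → (∃ f ∈ F, f ∉ 𝔭) → RingHom.ker ψ ≤ 𝔭)
    (hP : Cell P) (hA : CellI A (b ⊔ Ideal.span (F : Set A))) : CellI A b := by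
  classical
  obtain ⟨G, hG⟩ := hA
  obtain ⟨G', hG'⟩ := hP
  choose L hL hinj hlat using fun N : FG P => exists_lat ψ F hi N.M
  refine ⟨G ++ G'.map L, fun Γ _ χ hχ => ?_⟩
  have hv0 : Van χ (b ⊔ Ideal.span (F : Set A)) :=
    hG Γ χ fun M hM => hχ M (List.mem_append_left _ hM)
  have hv : Van χ (RingHom.ker ψ ⊔ Ideal.span (F : Set A)) :=
    hv0.mono (sup_le_sup_right hb _)
  obtain ⟨χ', hχ'⟩ := lat ψ F hi χ hv
  have hbot : Van χ' ⊥ := by
    refine hG' Γ χ' fun N hN => ?_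
    rw [hχ' N.M (L N).M (hL N) (hinj N) (hlat N)]
    exact hχ _ (List.mem_append_right _ (List.mem_map_of_mem hN))
  refine van_of_primes fun 𝔭 h𝔭 hb𝔭 => ?_
  by_cases hF : ∃ f ∈ F, f ∉ 𝔭
  · have hk := hp 𝔭 h𝔭 hb𝔭 hF
    obtain ⟨f, hf, hf𝔭⟩ := hF
    let h : (A ⧸ 𝔭) →ₛₗ[ψ] (P ⧸ 𝔭.map ψ) :=
      Submodule.mapQ 𝔭 (𝔭.map ψ) ψ.toSemilinearMap fun x hx => Ideal.mem_map_of_mem ψ hx
    have hh : ∀ x : A, h (Ideal.Quotient.mk 𝔭 x) = Ideal.Quotient.mk (𝔭.map ψ) (ψ x) :=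
      fun x => rfl
    have hinj' : Injective h := by
      rw [injective_iff_map_eq_zero]
      intro z hz
      obtain ⟨x, rfl⟩ := Ideal.Quotient.mk_surjective z
      rw [hh, Ideal.Quotient.eq_zero_iff_mem] at hz
      obtain ⟨r, p, hp𝔭, hr⟩ := clear_GH ψ f (hi f hf) 𝔭 _ hz
      have h1 : f ^ r * x - p ∈ RingHom.ker ψ := by
        rw [RingHom.mem_ker, map_sub, map_mul, map_pow, hr, sub_self]
      have h2 : f ^ r * x ∈ 𝔭 := by
        have := 𝔭.add_mem (hk h1) hp𝔭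
        rwa [sub_add_cancel] at this
      rw [Ideal.Quotient.eq_zero_iff_mem]
      rcases h𝔭.mem_or_mem h2 with h3 | h3
      · exact absurd (h𝔭.mem_of_pow_mem r h3) hf𝔭
      · exact h3
    rw [← hχ' (P ⧸ 𝔭.map ψ) (A ⧸ 𝔭) h hinj' ?_]
    · refine hbot _ fun x hx y => ?_
      rw [Ideal.mem_bot.1 hx, zero_smul]
    · intro f' hf' y
      obtain ⟨y, rfl⟩ := Ideal.Quotient.mk_surjective y
      obtain ⟨r, x, hx⟩ := hi f' hf' y
      refine ⟨r, Ideal.Quotient.mk 𝔭 x, ?_⟩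
      rw [hh, ← hx]
      rfl
  · have hle : b ⊔ Ideal.span (F : Set A) ≤ 𝔭 := by
      refine sup_le hb𝔭 (Ideal.span_le.2 fun f hf => ?_)
      by_contra hn
      exact hF ⟨f, hf, hn⟩
    refine hv0 _ fun x hx y => ?_
    obtain ⟨y, rfl⟩ := Ideal.Quotient.mk_surjective y
    have : x • Ideal.Quotient.mk 𝔭 y = Ideal.Quotient.mk 𝔭 (x * y) := rfl
    rw [this, Ideal.Quotient.eq_zero_iff_mem]
    exact 𝔭.mul_mem_right _ (hle hx)

end Pool.Agent.P.MP_1bf4cb_ag
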