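import Pool.Agent.P.MP_1bf4cb_ag.RDefs

/-! Bruhat decomposition of square matrices over commutative rings, through minors. -/

namespace Pool.Agent.P.MP_1bf4cb_ag.RG

open Matrix Equiv

variable {n : ℕ} {C : Type} [CommRing C]

/-- The leading corner up to `j`, completed by the identity. -/
def cor (j : Fin n) (g : Mx n C) : Mx n C :=
  Matrix.of fun a b => if a ≤ j ∧ b ≤ j then g a b else (1 : Mx n C) a b

/-- The minor with columns up to `j` and rows `σ a` for `a < j` and `i`. -/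
def Dm (σ : Perm (Fin n)) (j i : Fin n) (g : Mx n C) : C :=
  (cor j (g.submatrix (Function.update σ j i) id)).det

/-- The rows `σ a` with `a < t` have a pivot in column `a`. -/
def Piv (σ : Perm (Fin n)) (t : ℕ) (m : Mx n C) : Prop :=
  ∀ a : Fin n, a.val < t → m (σ a) a = 1 ∧ ∀ c, a < c → m (σ a) c = 0

lemma cor_mul (j : Fin n) (g : Mx n C) {b : Mx n C} (hb : b.IsUpperTriangular) :
    cor j (g * b) = cor j g * cor j b := by
  ext a c
  simp only [cor, of_apply, mul_apply]
  by_cases ha : a ≤ j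
  · by_cases hc : c ≤ j
    · simp only [ha, hc, and_self, if_true, true_and, and_true]
      refine Finset.sum_congr rfl fun x _ => ?_
      by_cases hx : x ≤ j
      · simp [hx]
      · have h1 : b x c = 0 := hb (show c < x from hc.trans_lt (not_le.1 hx))
        have h2 : x ≠ c := by rintro rfl; exact hx hc
        simp [hx, h1, one_apply_ne h2]
    · have h2 : a ≠ c := by rintro rfl; exact hc ha
      simp only [ha, hc, and_false, if_false, true_and, one_apply_ne h2]
      rw [Finset.sum_eq_single c (fun x _ hx => by simp [one_apply_ne hx]) (by simp)]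
      simp [hc, one_apply_ne h2]
  · simp only [ha, false_and, if_false]
    rw [Finset.sum_eq_single a (fun x _ hx => by simp [one_apply_ne hx.symm]) (by simp)]
    simp [ha]

lemma Dm_mul (σ : Perm (Fin n)) (j i : Fin n) (g : Mx n C) {b : Mx n C}
    (hb : b.IsUpperTriangular) : Dm σ j i (g * b) = Dm σ j i g * (cor j b).det := by
  have : (g * b).submatrix (Function.update σ j i) id
      = g.submatrix (Function.update σ j i) id * b := by
    ext a c; simp [mul_apply]
  rw [Dm, this, cor_mul _ _ hb, det_mul, Dm]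

lemma diag_unit {b : Mx n C} (hb : b.IsUpperTriangular) (hd : IsUnit b.det) (a : Fin n) :
    IsUnit (b a a) := by
  rw [det_of_isUpperTriangular hb] at hd
  exact isUnit_of_dvd_unit (Finset.dvd_prod_of_mem (fun i => b i i) (Finset.mem_univ a)) hd

lemma cor_unit (j : Fin n) {b : Mx n C} (hb : b.IsUpperTriangular) (hd : IsUnit b.det) :
    IsUnit (cor j b).det := by
  have h1 : (cor j b).IsUpperTriangular := fun a c h => by
    have h2 : c < a := h
    simp [cor, hb h, one_apply_ne h2.ne']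
  rw [det_of_isUpperTriangular h1]
  refine IsUnit.prod_univ_iff.2 fun a => ?_
  by_cases h : a ≤ j
  · simpa [cor, h] using diag_unit hb hd a
  · simp [cor, h]

lemma Dm_piv {σ : Perm (Fin n)} {j : Fin n} {m : Mx n C} (h : Piv σ j m) (i : Fin n) :
    Dm σ j i m = m i j := by
  have h1 : (cor j (m.submatrix (Function.update σ j i) id)).IsLowerTriangular := fun a c hac => by
    have h2 : a < c := hac
    by_cases h3 : a ≤ j ∧ c ≤ j
    · have h4 : a < j := h2.trans_le h3.2
      simp [cor, h3, Function.update_of_ne h4.ne, (h a h4).2 c h2]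
    · simp [cor, h3, one_apply_ne h2.ne]
  rw [Dm, det_of_isLowerTriangular _ h1, Finset.prod_eq_single j (fun a _ ha => ?_) (by simp)]
  · simp [cor]
  · by_cases h3 : a ≤ j
    · simp [cor, h3, Function.update_of_ne ha, (h a (show a < j from lt_of_le_of_ne h3 ha)).1]
    · simp [cor, h3]

lemma Dm_map {C' : Type} [CommRing C'] (φ : C →+* C') (σ : Perm (Fin n)) (j i : Fin n)
    (g : Mx n C) : φ (Dm σ j i g) = Dm σ j i (g.map φ) := by
  rw [Dm, Dm, RingHom.map_det]
  congr 1
  ext a b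
  simp [cor, one_apply, apply_ite φ]

/-- One step of column elimination. -/
lemma elim (m : Mx n C) (j i : Fin n) (hu : IsUnit (m i j)) : ∃ m' E : Mx n C, m = m' * E ∧
    E.IsUpperTriangular ∧ IsUnit E.det ∧ m' i j = 1 ∧ (∀ c, j < c → m' i c = 0) ∧
    (∀ x c, c < j → m' x c = m x c) ∧ (∀ x, m x j = 0 → ∀ c, m' x c = m x c) := by
  obtain ⟨u, hu⟩ := hu
  let E : Mx n C := Matrix.of fun a c => if a = j ∧ j ≤ c then m i c else (1 : Mx n C) a c
  have hE : E.IsUpperTriangular := fun a c h => by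
    have h2 : c < a := h
    have h3 : ¬ (a = j ∧ j ≤ c) := fun h3 => absurd (h3.1 ▸ h2) (not_lt.2 h3.2)
    simp [E, h3, one_apply_ne h2.ne']
  refine ⟨Matrix.of fun x c => if c = j then m x j * ↑u⁻¹ else if j < c then
    m x c - m x j * ↑u⁻¹ * m i c else m x c, E, ?_, hE, ?_, ?_, ?_, ?_, ?_⟩
  · ext x c
    rw [mul_apply]
    rcases lt_trichotomy c j with h | rfl | h
    · rw [Finset.sum_eq_single c (fun y _ hy => by simp [E, not_le.2 h, one_apply_ne hy]) (by simp)]
      simp [E, h.ne, not_lt.2 h.le]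
    · rw [Finset.sum_eq_single c (fun y _ hy => by simp [E, hy, one_apply_ne hy]) (by simp)]
      simp [E, ← hu]
    · rw [Finset.sum_eq_add c j h.ne' (fun y _ hy => by simp [E, hy.2, one_apply_ne hy.1])
        (by simp) (by simp)]
      simp [E, h, h.ne', h.le]
  · rw [det_of_isUpperTriangular hE]
    refine IsUnit.prod_univ_iff.2 fun a => ?_
    by_cases h : a = j
    · simp [E, h, ← hu]
    · simp [E, h]
  · simp [← hu]
  · intro c hc
    simp [hc, hc.ne', ← hu]
  · intro x c hc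
    simp [hc.ne, not_lt.2 hc.le]
  · intro x hx c
    by_cases h : c = j <;> simp [h, hx]

lemma piv_step {σ : Perm (Fin n)} {j : Fin n} {m m' : Mx n C} (h : Piv σ j m)
    (h1 : m' (σ j) j = 1) (h2 : ∀ c, j < c → m' (σ j) c = 0)
    (h3 : ∀ x, m x j = 0 → ∀ c, m' x c = m x c) : Piv σ (j + 1) m' := fun a ha => by
  rcases (show a ≤ j from Nat.lt_succ_iff.1 ha).eq_or_lt with rfl | ha
  · exact ⟨h1, h2⟩
  · simpa only [h3 _ ((h a ha).2 j ha)] using h a ha

/-- Unit pivots give the factorisation. -/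
lemma fac_ring {σ : Perm (Fin n)} {g : Mx n C} (h : ∀ j, IsUnit (Dm σ j (σ j) g)) :
    ∃ m b : Mx n C, g = m * b ∧ b.IsUpperTriangular ∧ IsUnit b.det ∧ Piv σ n m := by
  suffices H : ∀ t ≤ n, ∃ m b : Mx n C, g = m * b ∧ b.IsUpperTriangular ∧ IsUnit b.det ∧
      Piv σ t m from H n le_rfl
  intro t
  induction t with
  | zero => exact fun _ => ⟨g, 1, by simp, blockTriangular_one, by simp, fun a ha => by omega⟩
  | succ t ih =>
    intro ht
    obtain ⟨m, b, rfl, h1, h2, h3⟩ := ih (by omega)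
    have h4 := h ⟨t, ht⟩
    rw [Dm_mul _ _ _ _ h1, Dm_piv (j := ⟨t, ht⟩) h3] at h4
    obtain ⟨m', E, rfl, e1, e2, e3, e4, -, e6⟩ := elim m ⟨t, ht⟩ _ (isUnit_of_mul_isUnit_left h4)
    exact ⟨m', E * b, by rw [mul_assoc], e1.mul h1, by rw [det_mul]; exact e2.mul h2,
      piv_step (j := ⟨t, ht⟩) h3 e3 e4 e6⟩

/-- Bruhat decomposition over a field. -/
lemma fac_field {K : Type} [Field K] {g : Mx n K} (h : g.det ≠ 0) :
    ∃ (σ : Perm (Fin n)) (m b : Mx n K), g = m * b ∧ b.IsUpperTriangular ∧ IsUnit b.det ∧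
      Piv σ n m ∧ ∀ a i, σ a < i → m i a = 0 := by
  classical
  suffices H : ∀ t ≤ n, ∃ (σ : Perm (Fin n)) (m b : Mx n K), g = m * b ∧ b.IsUpperTriangular ∧
      IsUnit b.det ∧ Piv σ t m ∧ ∀ a i, a.val < t → σ a < i → m i a = 0 by
    obtain ⟨σ, m, b, h1, h2, h3, h4, h5⟩ := H n le_rfl
    exact ⟨σ, m, b, h1, h2, h3, h4, fun a i => h5 a i a.2⟩
  intro t
  induction t with
  | zero => exact fun _ => ⟨1, g, 1, by simp, blockTriangular_one, by simp, fun a ha => by omega,
      fun a i ha => by omega⟩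
  | succ t ih =>
    intro ht
    obtain ⟨σ, m, b, rfl, h1, h2, h3, h4⟩ := ih (by omega)
    set j : Fin n := ⟨t, ht⟩ with hj
    have h5 : (Finset.univ.filter fun i => m i j ≠ 0).Nonempty := by
      by_contra h5
      rw [Finset.not_nonempty_iff_eq_empty, Finset.filter_eq_empty_iff] at h5
      exact h (by rw [det_mul, det_eq_zero_of_column_eq_zero j
        fun i => not_not.1 (h5 (Finset.mem_univ i)), zero_mul])
    obtain ⟨i, hi, hi'⟩ := Finset.exists_max_image _ id h5
    have hi0 : m i j ≠ 0 := (Finset.mem_filter.1 hi).2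
    have h6 : ∀ a, a < j → (σ * swap j (σ.symm i)) a = σ a := fun a ha => by
      rw [Perm.mul_apply, swap_apply_of_ne_of_ne ha.ne]
      rintro rfl
      exact hi0 (by simpa using (h3 _ ha).2 j ha)
    have h7 : (σ * swap j (σ.symm i)) j = i := by simp
    obtain ⟨m', E, hm, e1, e2, e3, e4, e5, e6⟩ := elim m j i (Ne.isUnit hi0)
    refine ⟨σ * swap j (σ.symm i), m', E * b, by rw [← mul_assoc, ← hm], e1.mul h1,
      by rw [det_mul]; exact e2.mul h2, piv_step (j := j) (m := m)
        (fun a ha => by rw [h6 a ha]; exact h3 a ha) (by rwa [h7]) (by rwa [h7]) e6,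
      fun a x ha hx => ?_⟩
    rcases (show a ≤ j from Nat.lt_succ_iff.1 ha).eq_or_lt with rfl | ha
    · have : m x j = 0 := by
        by_contra h8
        exact absurd (hi' x (by simpa using h8)) (not_le.2 (h7 ▸ hx))
      rw [e6 x this, this]
    · rw [e5 x a ha]
      exact h4 a x ha (h6 a ha ▸ hx)

/-- The lexicographic order on permutations. -/
@[reducible] noncomputable def lexP (n : ℕ) : LinearOrder (Perm (Fin n)) :=
  LinearOrder.lift' (fun σ => toLex (σ : Fin n → Fin n))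
    fun _ _ h => DFunLike.coe_injective (toLex.injective h)

/-- `σ` comes before `τ` in the lexicographic order. -/
def Lt (σ τ : Perm (Fin n)) : Prop := ∃ j, (∀ a < j, σ a = τ a) ∧ σ j < τ j

lemma lexP_lt (σ τ : Perm (Fin n)) : (lexP n).lt σ τ ↔ Lt σ τ := Iff.rfl

lemma Lt_minor {σ τ : Perm (Fin n)} (h : Lt σ τ) : ∃ j i, σ j < i ∧ j < σ.symm i ∧
    ∀ (C : Type) [CommRing C] (g : Mx n C), Dm σ j i g = Dm τ j (τ j) g := by
  obtain ⟨j, h1, h2⟩ := h
  refine ⟨j, τ j, h2, ?_, fun C _ g => ?_⟩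
  · rcases lt_trichotomy j (σ.symm (τ j)) with h | h | h
    · exact h
    · exact absurd (by rw [eq_symm_apply] at h; exact h) h2.ne
    · have := h1 _ h
      rw [apply_symm_apply] at this
      exact absurd (τ.injective this) h.ne'
  · unfold Dm
    congr 1
    ext a b
    by_cases h : a ≤ j ∧ b ≤ j
    · rcases h.1.eq_or_lt with rfl | h3
      · simp [cor]
      · simp [cor, h, Function.update_of_ne h3.ne, h1 a h3]
    · simp [cor, h]

/-- The minors that vanish on the cell of `σ`. -/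
def Mn (σ : Perm (Fin n)) (g : Mx n C) : Set C :=
  {x | ∃ j i, σ j < i ∧ j < σ.symm i ∧ x = Dm σ j i g}

lemma piv_iff {σ : Perm (Fin n)} {g : Mx n C} (hd : IsUnit g.det) (h0 : ∀ x ∈ Mn σ g, x = 0) :
    (∀ τ, Lt τ σ → Ideal.span (Mn τ g) = ⊤) ↔ ∀ j, IsUnit (Dm σ j (σ j) g) := by
  refine ⟨fun h j => ?_, fun h τ hτ => ?_⟩
  · by_contra hu
    obtain ⟨I, hI, hx⟩ := exists_max_ideal_of_mem_nonunits hu
    let _ := Ideal.Quotient.field I
    have h1 : (g.map (Ideal.Quotient.mk I)).det ≠ 0 := by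
      have := hd.map (Ideal.Quotient.mk I)
      rw [RingHom.map_det] at this
      exact this.ne_zero
    obtain ⟨τ, m, b, e1, e2, e3, e4, e5⟩ := fac_field h1
    have h2 : ∀ a i, Ideal.Quotient.mk I (Dm τ a i g) = m i a * (cor a b).det := fun a i => by
      rw [Dm_map, e1, Dm_mul _ _ _ _ e2, Dm_piv fun x _ => e4 x x.2]
    have h3 : ∀ a, Ideal.Quotient.mk I (Dm τ a (τ a) g) ≠ 0 := fun a => by
      rw [h2, (e4 a a.2).1, one_mul]
      exact (cor_unit a e2 e3).ne_zero
    rcases @lt_trichotomy _ (lexP n) τ σ with h4 | rfl | h4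
    · refine hI.ne_top (top_le_iff.1 (h τ h4 ▸ Ideal.span_le.2 ?_))
      rintro _ ⟨a, i, h5, -, rfl⟩
      exact Ideal.Quotient.eq_zero_iff_mem.1 (by rw [h2, e5 a i h5, zero_mul])
    · exact h3 j (Ideal.Quotient.eq_zero_iff_mem.2 hx)
    · obtain ⟨a, i, h5, h6, h7⟩ := Lt_minor h4
      exact h3 a (by rw [← h7, h0 _ ⟨a, i, h5, h6, rfl⟩, map_zero])
  · obtain ⟨a, i, h5, h6, h7⟩ := Lt_minor hτ
    exact Ideal.eq_top_of_isUnit_mem _ (Ideal.subset_span ⟨a, i, h5, h6, (h7 C g).symm⟩) (h a)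

lemma Mn_max {σ : Perm (Fin n)} (h : ∀ τ, ¬ Lt σ τ) (g : Mx n C) : Mn σ g = ∅ := by
  refine Set.eq_empty_of_forall_notMem ?_
  rintro _ ⟨j, i, h1, h2, -⟩
  refine h (σ * swap j (σ.symm i)) ⟨j, fun a ha => ?_, by simpa using h1⟩
  rw [Perm.mul_apply, swap_apply_of_ne_of_ne ha.ne (ha.trans h2).ne]

end Pool.Agent.P.MP_1bf4cb_ag.RG
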