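import Pool.Agent.P.MP_1bf4cb_ag.InC

/-! The special linear and special unitary groups, with every standard parabolic subgroup, are
instances of `Bru.Ok`. -/

namespace Pool.Agent.P.MP_1bf4cb_ag.RG

open Matrix Equiv MvPolynomial

variable {k : Type} [Field k] {n r : ℕ} {C : Type} [CommRing C]

/-- The Bruhat datum of `SL_(r+1)` with block structure `β`, map `F` and cells listed by `en`. -/
noncomputable def slD (β : Fin (r + 1) → ℕ) (F : Mx (r + 1) (Pn k (r + 1))) (M : ℕ)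
    (en : ℕ → Perm (Fin (r + 1))) : Bru k (r + 1) r where
  G := eqs k fun _ => 0
  B := eqs k Fin.val
  Pa := eqs k β
  F := F
  wt := wts r
  N := _
  u := gU k (· < ·)
  M := M + 1
  l := fun _ => _
  c := fun j => gU k (Iv (en j))
  w := fun j => Wm k (en j)
  Z := Zr en (gX k (r + 1))

lemma sol_G [Algebra k C] {g : Mx n C} : Sol (eqs k fun _ => 0) g ↔ g.det = 1 :=
  sol_eqs.trans ⟨fun h => h.1, fun h => ⟨h, fun _ _ h => absurd h (lt_irrefl 0)⟩⟩

lemma sol_B [Algebra k C] {g : Mx n C} :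
    Sol (eqs k Fin.val) g ↔ g.det = 1 ∧ g.IsUpperTriangular := sol_eqs

lemma bij_prod {α α' β γ : Type} {f : α → α'} {s : Set α'} (hf : Set.BijOn f Set.univ s)
    {t : Set β} {g : α' × β → γ} {u : Set γ} (hg : Set.BijOn g {x | x.1 ∈ s ∧ x.2 ∈ t} u) :
    Set.BijOn (fun x : α × β => g (f x.1, x.2)) {x | x.2 ∈ t} u := by
  refine hg.comp (f := fun x : α × β => (f x.1, x.2))
    ⟨fun x hx => ⟨hf.1 trivial, hx⟩, fun x _ y _ h => ?_, fun x hx => ?_⟩
  · exact Prod.ext (hf.2.1 trivial trivial (Prod.mk.inj h).1) (Prod.mk.inj h).2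
  · obtain ⟨a, -, ha⟩ := hf.2.2 hx.1
    exact ⟨(a, x.2), hx.2, Prod.ext ha rfl⟩

theorem slD_ok {β : Fin (r + 1) → ℕ} (hβ : Monotone β) {F : Mx (r + 1) (Pn k (r + 1))} {M : ℕ}
    {en : ℕ → Perm (Fin (r + 1))} (h1 : ∀ j < M + 1, ∀ τ, Lt τ (en j) ↔ ∃ i < j, τ = en i)
    (h2 : ∀ τ, ¬ Lt (en M) τ) (hH : (slD β F M en).Hom) (hP : (slD β F M en).Pow) :
    (slD β F M en).Ok where
  grp := ⟨grp_eqs _, grp_eqs _, grp_eqs _⟩
  sub := ⟨fun _ h => h.imp id fun ⟨_, _, h, _⟩ => absurd h (lt_irrefl 0),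
    fun _ h => h.imp id fun ⟨a, b, h, e⟩ => ⟨a, b, hβ.reflect_lt h, e⟩⟩
  smo := ⟨smooth_eqs _, smooth_eqs _⟩
  hom := hH
  pow := hP
  bor := fun C _ _ => by
    have := bij_prod (gU_bij (k := k) (C := C) (n := r + 1) (· < ·)) (t := Set.univ)
      (by simp only [Set.mem_univ, and_true]; exact bor_bij (r := r) (C := C))
    simp only [Set.mem_univ, Set.ofPred_true] at this
    simp only [slD, sol_B]
    exact this
  span := wts_span
  ends := ⟨rfl, by simp [slD, Zr, Mn_max h2]⟩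
  cel := fun j hj => ⟨sol_G.2 (det_Wm _), fun C _ _ => ⟨fun a => by
    have := Off.tri ((gU_bij (k := k) (C := C) (Iv (en j))).1 (Set.mem_univ a)) fun _ _ h => h.1
    exact sol_B.2 ⟨this.2.1, this.1⟩, by
    have h3 := bij_prod (gU_bij (k := k) (C := C) (Iv (en j)))
      (t := {b : Mx (r + 1) C | b.det = 1 ∧ b.IsUpperTriangular}) (cell_bij (C := C) (en j))
    have h4 : ∀ (g : Mx (r + 1) C) i, vl g '' Zr en (gX k (r + 1)) i = Zr en g i := fun g i => by
      rw [vl_eq, Zr_map, gX_map]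
    have h5 : {g : Mx (r + 1) C | Sol (eqs k fun _ => 0) g ∧ Sol (Zr en (gX k (r + 1)) (j + 1)) g ∧
        Ideal.span (vl g '' Zr en (gX k (r + 1)) j) = ⊤} = {g | g.det = 1 ∧
        (∀ x ∈ Mn (en j) g, x = 0) ∧ ∀ τ, Lt τ (en j) → Ideal.span (Mn τ g) = ⊤} := by
      ext g
      have h6 : Sol (Zr en (gX k (r + 1)) (j + 1)) g ↔ ∀ x ∈ Zr en g (j + 1), x = 0 := by
        rw [← h4, Set.forall_mem_image]; rfl
      have h7 : Ideal.span (Zr en g j) = ⊤ ↔ ∀ τ, Lt τ (en j) → Ideal.span (Mn τ g) = ⊤ := by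
        rw [Zr_top]
        refine ⟨fun h τ hτ => ?_, fun h i hi => h _ ((h1 j hj _).2 ⟨i, hi, rfl⟩)⟩
        obtain ⟨i, hi, rfl⟩ := (h1 j hj τ).1 hτ
        exact h i hi
      simp only [Set.mem_ofPred_eq, sol_G, h6, h4, ← h7]
      exact and_congr_right fun _ => and_congr_left fun h => Zr_zero h
    simp only [slD, sol_B, Wm_map]
    rw [h5]
    exact h3⟩⟩
  dbl := fun x y hx hy C _ _ _ p q hp hq h => by
    obtain ⟨p, q, e1, e2, e3⟩ := dbl_eqs hβ (sol_G.1 hx) (sol_G.1 hy) (algebraMap k C)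
      (sol_eqs.1 hp).2 (sol_eqs.1 hq).2 (sol_eqs.1 hq).1 h
    exact ⟨p, q, sol_eqs.2 e1, sol_eqs.2 e2, e3⟩

lemma exists_frob (k : Type) [Field k] (p : ℕ) [Fact p.Prime] [CharP k p] (e : ℕ) (C : Type)
    [CommRing C] [Algebra k C] : ∃ φ : C →+* C, ⇑φ = (· ^ p ^ e) := by
  rcases subsingleton_or_nontrivial C with _ | _
  · exact ⟨RingHom.id C, Subsingleton.elim _ _⟩
  · have := charP_of_injective_algebraMap (algebraMap k C).injective p
    exact ⟨iterateFrobenius C p e, rfl⟩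

lemma pow_of {D : Bru k n r} [Finite k] (p : ℕ) [Fact p.Prime] [CharP k p] (hH : D.Hom)
    {s e : ℕ} (he : 0 < e) (h : ∀ (C : Type) [CommRing C] [Algebra k C] (g : Mx n C),
      Sol D.G g → D.fr^[s] g = g.map (· ^ p ^ e)) : D.Pow := by
  let _ := Fintype.ofFinite k
  obtain ⟨f, -, hf⟩ := FiniteField.card k p
  refine ⟨s * f, e, he, fun C _ _ g hg => ?_⟩
  have h1 : ∀ t, Sol D.G (D.fr^[t] g) := fun t => by
    induction t with
    | zero => exact hg
    | succ t ih => rw [Function.iterate_succ_apply']; exact (hH C _ _ ih ih).1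
  have h2 : ∀ t, D.fr^[s * t] g = g.map (· ^ (p ^ e) ^ t) := fun t => by
    induction t with
    | zero => ext a b; simp
    | succ t ih =>
      rw [mul_add, mul_one, add_comm, Function.iterate_add_apply, h C _ (h1 _), ih]
      ext a b
      simp [pow_succ, pow_mul]
  rw [h2, Nat.card_eq_fintype_card, hf, ← pow_mul, ← pow_mul, mul_comm]

/-- The twisted inverse transpose. -/
def tw (g : Mx n C) : Mx n C := g.adjugateᵀ.submatrix Fin.revPerm Fin.revPerm

lemma tw_map {C' : Type} [CommRing C'] (φ : C →+* C') (g : Mx n C) :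
    (tw g).map φ = tw (g.map φ) := by
  rw [tw, tw, ← RingHom.mapMatrix_apply φ g, ← RingHom.map_adjugate]
  rfl

lemma tw_mul (g h : Mx n C) : tw (g * h) = tw g * tw h := by
  rw [tw, tw, tw, adjugate_mul_distrib, transpose_mul, submatrix_mul_equiv]

lemma det_tw {g : Mx n C} (h : g.det = 1) : (tw g).det = 1 := by
  rw [tw, det_submatrix_equiv_self, det_transpose, det_adj h]

lemma tw_tri {g : Mx n C} (h : g.det = 1) (h' : g.IsUpperTriangular) :
    (tw g).IsUpperTriangular := fun _ _ hab => adj_tri h' h (Fin.rev_lt_rev.2 hab)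

lemma tw_tw {g : Mx n C} (h : g.det = 1) : tw (tw g) = g := by
  have h1 : g.adjugate.adjugate = g := by
    rw [adj_eq (det_adj h), adj_eq h, nonsing_inv_nonsing_inv _ (by simp [h])]
  rw [tw, tw, adjugate_submatrix_equiv_self, ← adjugate_transpose, h1]
  ext a b
  simp

/-- `SL_(r+1)` with the Frobenius map `g ↦ g^(q)` and `SU_(r+1)` with the twisted Frobenius map,
`q = p^e`, with the parabolic subgroup of any block structure `β`, satisfy `Bru.Ok`. -/
theorem exists_ok [Finite k] (p : ℕ) [Fact p.Prime] [CharP k p] {e : ℕ} (he : 0 < e)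
    {β : Fin (r + 1) → ℕ} (hβ : Monotone β) (u : Bool) : ∃ D : Bru k (r + 1) r, D.Ok ∧
      ∀ (C : Type) [CommRing C] [Algebra k C] (g : Mx (r + 1) C), (Sol D.G g ↔ g.det = 1) ∧
        (Sol D.B g ↔ g.det = 1 ∧ g.IsUpperTriangular) ∧
        (Sol D.Pa g ↔ g.det = 1 ∧ g.BlockTriangular β) ∧
        D.fr g = if u then tw (g.map (· ^ p ^ e)) else g.map (· ^ p ^ e) := by
  obtain ⟨M, en, h1, h2⟩ := exists_en (r + 1)
  let D := slD β (if u then tw ((gX k (r + 1)).map (· ^ p ^ e)) else (gX k (r + 1)).map (· ^ p ^ e))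
    M en
  have h3 : ∀ (C : Type) [CommRing C] [Algebra k C] (g : Mx (r + 1) C),
      D.fr g = if u then tw (g.map (· ^ p ^ e)) else g.map (· ^ p ^ e) := fun C _ _ g => by
    have h4 : ((gX k (r + 1)).map (· ^ p ^ e)).map (vlR k g) = g.map (· ^ p ^ e) := by
      ext a b; simp [gX, vlR]
    cases u
    · exact h4
    · exact (tw_map (vlR k g) _).trans (congrArg tw h4)
  have h4 : ∀ (C : Type) [CommRing C] (φ : C →+* C) (g : Mx (r + 1) C), g.det = 1 →
      (g.map φ).det = 1 := fun C _ φ g hg => by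
    rw [← RingHom.mapMatrix_apply, ← RingHom.map_det, hg, map_one]
  have hH : D.Hom := fun C _ _ g h hg hh => by
    obtain ⟨φ, hφ⟩ := exists_frob k p e C
    have h5 := h4 C φ g (sol_G.1 hg)
    simp only [h3, ← hφ]
    cases u
    · exact ⟨sol_G.2 h5, Matrix.map_mul, fun hb => sol_B.2 ⟨h5, (sol_B.1 hb).2.map φ⟩⟩
    · exact ⟨sol_G.2 (det_tw h5), (congrArg tw Matrix.map_mul).trans (tw_mul _ _),
        fun hb => sol_B.2 ⟨det_tw h5, tw_tri h5 ((sol_B.1 hb).2.map φ)⟩⟩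
  refine ⟨D, slD_ok hβ h1 h2 hH (pow_of p hH (s := 2) (e := e * 2) (by omega) fun C _ _ g hg => ?_),
    fun C _ _ g => ⟨sol_G, sol_B, sol_eqs, h3 C g⟩⟩
  obtain ⟨φ, hφ⟩ := exists_frob k p e C
  have h5 : (g.map φ).map φ = g.map (· ^ p ^ (e * 2)) := by
    ext a b; simp [hφ, ← pow_mul, ← pow_add, mul_two]
  change D.fr (D.fr g) = _
  simp only [h3, ← hφ]
  cases u
  · exact h5
  · exact ((congrArg tw (tw_map φ _)).trans
      (tw_tw (h4 C φ _ (h4 C φ g (sol_G.1 hg))))).trans h5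

end Pool.Agent.P.MP_1bf4cb_ag.RG
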