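import Pool.Agent.P.MP_1bf4cb_ag.XG

set_option autoImplicit false
set_option linter.unusedSectionVars false
set_option linter.unusedVariables false

open Function Matrix
open scoped TensorProduct

noncomputable section

namespace Pool.Agent.P.MP_1bf4cb_ag

variable {k : Type} [Field k] {𝒟 : Dat k}

theorem inv_map_XH {n : ℕ} {ι C C' : Type} [CommRing C] [CommRing C'] {g h : ι → Mt n C}
    (hi : Inv g h) (φ : C →+* C') : Inv (fun c => (g c).map φ) (fun c => (h c).map φ) := by
  intro c
  refine ⟨?_, ?_⟩
  · show (g c).map φ * (h c).map φ = 1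
    rw [← Matrix.map_mul, (hi c).1, Matrix.map_one _ (map_zero φ) (map_one φ)]
  · show (h c).map φ * (g c).map φ = 1
    rw [← Matrix.map_mul, (hi c).2, Matrix.map_one _ (map_zero φ) (map_one φ)]

theorem inv_symm_XH {n : ℕ} {ι C : Type} [CommRing C] {g h : ι → Mt n C}
    (hi : Inv g h) : Inv h g := fun c => ⟨(hi c).2, (hi c).1⟩

theorem inv_unique_XH {n : ℕ} {ι C : Type} [CommRing C] {g h h' : ι → Mt n C}
    (hi : Inv g h) (hi' : Inv g h') : h = h' := by
  funext c
  calc h c = h c * (g c * h' c) := by rw [(hi' c).1, Matrix.mul_one]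
    _ = h' c := by rw [← Matrix.mul_assoc, (hi c).2, Matrix.one_mul]

/-- the Lang map is flat -/
theorem flat_lang {R U L : Type} [CommRing R] [Algebra k R] {x : Pt 𝒟 R} (hx : Rep1 R x)
    [CommRing U] [Algebra k U] {y : Pt 𝒟 U} (hy : RepT (fun _ => none) U y) [CommRing L]
    [Algebra k L] [Algebra (MvPolynomial (Fin (𝒟.d + 1) × Fin 𝒟.n × Fin 𝒟.n) R) L]
    [IsScalarTower k (MvPolynomial (Fin (𝒟.d + 1) × Fin 𝒟.n × Fin 𝒟.n) R) L]
    [IsLocalization.Away (∏ c, (gfr (𝒟 := 𝒟) R c).det) L] [Algebra U L] [IsScalarTower k U L]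
    {g h : Fin (𝒟.d + 1) → Mt 𝒟.n L} (hg : ∀ c, g c = (gfr R c).map (algebraMap _ L))
    (hi : Inv g h) (e : y.map (algebraMap U L) = act h g
      (x.map ((algebraMap (MvPolynomial (Fin (𝒟.d + 1) × Fin 𝒟.n × Fin 𝒟.n) R) L).comp
        MvPolynomial.C))) : Module.Flat U L := by
  classical
  have hR : Algebra.FiniteType k R := hx.ft
  have hP : Algebra.FiniteType k (MvPolynomial (Fin (𝒟.d + 1) × Fin 𝒟.n × Fin 𝒟.n) R) :=
    Algebra.FiniteType.trans hR inferInstance
  have hPL : Algebra.FiniteType (MvPolynomial (Fin (𝒟.d + 1) × Fin 𝒟.n × Fin 𝒟.n) R) L :=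
    IsLocalization.finiteType_of_monoid_fg (Submonoid.powers (∏ c, (gfr (𝒟 := 𝒟) R c).det)) L
  have hL : Algebra.FiniteType k L := Algebra.FiniteType.trans hP hPL
  have hUL : Algebra.FiniteType U L := Algebra.FiniteType.of_restrictScalars_finiteType k U L
  have hU : IsNoetherianRing U := hy.noeth
  have hsm : Algebra.FormallySmooth U L := by
    refine Algebra.FormallySmooth.of_comp_surjective fun B _ _ I hI f => ?_
    let _ : Algebra k B := ((algebraMap U B).comp (algebraMap k U)).toAlgebra
    have hkB : ∀ c : k, algebraMap k B c = algebraMap U B (algebraMap k U c) := fun c => rfl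
    set ι := algebraMap (MvPolynomial (Fin (𝒟.d + 1) × Fin 𝒟.n × Fin 𝒟.n) R) L with hι
    have hi' : Inv (fun c => (g c).map (f : L →+* B ⧸ I)) (fun c => (h c).map (f : L →+* B ⧸ I)) :=
      inv_map_XH hi (f : L →+* B ⧸ I)
    have e1 : (y.map (algebraMap U B)).map (Ideal.Quotient.mk I) =
        act (fun c => (h c).map (f : L →+* B ⧸ I)) (fun c => (g c).map (f : L →+* B ⧸ I))
          ((x.map (ι.comp MvPolynomial.C)).map (f : L →+* B ⧸ I)) := by
      rw [← act_map, ← e, Pt.map_map, Pt.map_map]
      congr 1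
      funext u
      exact (f.commutes u).symm
    have e2 : act (fun c => (g c).map (f : L →+* B ⧸ I)) (fun c => (h c).map (f : L →+* B ⧸ I))
        ((y.map (algebraMap U B)).map (Ideal.Quotient.mk I)) =
        (x.map (ι.comp MvPolynomial.C)).map (f : L →+* B ⧸ I) := by
      rw [e1]
      exact act_act (inv_symm_XH hi') _
    have hs1 : Sat1 ((x.map (ι.comp MvPolynomial.C)).map (f : L →+* B ⧸ I)) :=
      (Sat1.map hx.sat _).map _
    obtain ⟨G, H, hGH, hG, hγ⟩ := lift_frames I hI (y.map (algebraMap U B)) hi'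
      (by rw [e2]; exact hs1.one)
    have hz : Sat1 (act G H (y.map (algebraMap U B))) :=
      ⟨sat0_act (Sat0.map hy.sat.base _) hGH, hγ⟩
    obtain ⟨φ, hφ⟩ := hx.univ B _ hz
    let ψ : MvPolynomial (Fin (𝒟.d + 1) × Fin 𝒟.n × Fin 𝒟.n) R →+* B :=
      MvPolynomial.eval₂Hom (φ : R →+* B) fun p => G p.1 p.2.1 p.2.2
    have hψG : ∀ c, (gfr (𝒟 := 𝒟) R c).map ψ = G c := by
      intro c
      ext a b
      simp [gfr, ψ]
    have hunit : IsUnit (ψ (∏ c, (gfr (𝒟 := 𝒟) R c).det)) := by
      rw [map_prod]
      refine IsUnit.prod_iff.mpr fun c _ => ?_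
      rw [RingHom.map_det, RingHom.mapMatrix_apply, hψG]
      exact Matrix.isUnit_det_of_right_inverse (hGH c).1
    let F : L →+* B := IsLocalization.Away.lift (∏ c, (gfr (𝒟 := 𝒟) R c).det) hunit
    have hF : ∀ p, F (ι p) = ψ p := fun p => IsLocalization.Away.lift_eq _ hunit p
    have hFg : (fun c => (g c).map F) = G := by
      funext c
      rw [hg c, Matrix.map_map, ← hψG c]
      congr 1
      funext p
      exact hF p
    have hFh : (fun c => (h c).map F) = H := by
      have := inv_map_XH hi F
      rw [hFg] at this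
      exact inv_unique_XH this hGH
    have hFx : (x.map (ι.comp MvPolynomial.C)).map F = act G H (y.map (algebraMap U B)) := by
      rw [← hφ, Pt.map_map]
      congr 1
      funext r
      show F (ι (MvPolynomial.C r)) = φ r
      rw [hF]
      simp [ψ]
    have hkL : ∀ c : k, algebraMap U L (algebraMap k U c) =
        ι (MvPolynomial.C (algebraMap k R c)) := by
      intro c
      rw [← IsScalarTower.algebraMap_apply k U L,
        IsScalarTower.algebraMap_apply k (MvPolynomial (Fin (𝒟.d + 1) × Fin 𝒟.n × Fin 𝒟.n) R) L]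
      rfl
    have hFU : F.comp (algebraMap U L) = algebraMap U B := by
      refine hy.ext (fun c => ?_) ?_
      · rw [RingHom.comp_apply, hkL, hF]
        simp only [ψ, MvPolynomial.eval₂Hom_C]
        exact φ.commutes c
      · have : y.map (F.comp (algebraMap U L)) = (y.map (algebraMap U L)).map F := by
          rw [Pt.map_map]; rfl
        rw [this, e, act_map, hFg, hFh, hFx]
        exact act_act hGH _
    have hH : (fun c => (H c).map (Ideal.Quotient.mk I)) =
        fun c => (h c).map (f : L →+* B ⧸ I) := by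
      have := inv_map_XH hGH (Ideal.Quotient.mk I)
      rw [funext hG] at this
      exact inv_unique_XH this hi'
    have hfin : (Ideal.Quotient.mk I).comp F = (f : L →+* B ⧸ I) := by
      refine IsLocalization.ringHom_ext (Submonoid.powers (∏ c, (gfr (𝒟 := 𝒟) R c).det)) ?_
      refine MvPolynomial.ringHom_ext' ?_ ?_
      · have h1 : (((Ideal.Quotient.mk I).comp F).comp ι).comp MvPolynomial.C =
            (Ideal.Quotient.mk I).comp (φ : R →+* B) := by
          ext r
          show Ideal.Quotient.mk I (F (ι (MvPolynomial.C r))) = Ideal.Quotient.mk I (φ r)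
          rw [hF]
          simp [ψ]
        rw [h1]
        refine hx.ext (fun c => ?_) ?_
        · show Ideal.Quotient.mk I (φ (algebraMap k R c)) =
            f (ι (MvPolynomial.C (algebraMap k R c)))
          rw [← hkL, f.commutes, φ.commutes, hkB]
          rfl
        · have h2 : x.map ((Ideal.Quotient.mk I).comp (φ : R →+* B)) =
              (x.map φ).map (Ideal.Quotient.mk I) := by
            rw [Pt.map_map]; rfl
          have h3 : x.map (((f : L →+* B ⧸ I).comp ι).comp MvPolynomial.C) =
              (x.map (ι.comp MvPolynomial.C)).map (f : L →+* B ⧸ I) := by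
            rw [Pt.map_map]; rfl
          rw [h2, h3, hφ, act_map, funext hG, hH, e2]
      · rintro ⟨c, a, b⟩
        show Ideal.Quotient.mk I (F (ι (MvPolynomial.X (c, a, b)))) =
          f (ι (MvPolynomial.X (c, a, b)))
        rw [hF]
        have h4 := congrFun (congrFun (hG c) a) b
        simp only [Matrix.map_apply, hg c, gfr, Matrix.of_apply] at h4
        simpa [ψ] using h4
    refine ⟨{ F with commutes' := fun u => DFunLike.congr_fun hFU u }, ?_⟩
    ext l
    exact DFunLike.congr_fun hfin l
  obtain ⟨m, f, hf⟩ := (Algebra.FiniteType.iff_quotient_mvPolynomial'' (R := U) (S := L)).mp hUL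
  exact Algebra.FormallySmooth.flat_of_algHom_of_isNoetherianRing f hf

end Pool.Agent.P.MP_1bf4cb_ag
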