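import Pool.Agent.P.MP_1bf4cb_ag.XI
import Pool.Agent.P.MP_1bf4cb_ag.GE

set_option autoImplicit false
set_option linter.unusedSectionVars false
set_option linter.unusedVariables false

open Function Matrix
open scoped TensorProduct

noncomputable section

namespace Pool.Agent.P.MP_1bf4cb_ag

variable {k : Type} [Field k] {𝒟 : Dat k} {L : Type} [CommRing L] [Algebra k L]
  {g h : Fin (𝒟.d + 1) → Mt 𝒟.n L} {x : Pt 𝒟 L}

theorem graph_map {A B : Type} [CommRing A] [CommRing B] {d m n : ℕ} (φ : A →+* B) (Q : ℕ)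
    (e : Ix d m → Mt n A) : (graph Q e).map φ = graph Q fun v => (e v).map φ := by
  have e1 : ∀ M : Mt n A, (M.map φ).map (· ^ Q) = (M.map (· ^ Q)).map φ := fun M => by
    ext a b
    simp
  have e2 : ∀ M N P : Mt n A, M.map φ * N.map φ - P.map φ = (M * N - P).map φ := fun M N P => by
    ext a b
    simp [Matrix.mul_apply]
  unfold graph ents
  rw [Ideal.map_span]
  congr 1
  ext z
  simp only [e1, e2]
  constructor
  · rintro ⟨_, ⟨Z, ⟨c, i, hZ⟩, a, b, rfl⟩, rfl⟩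
    exact ⟨Z.map φ, ⟨c, i, hZ.imp (fun h => by rw [h]) fun h => by rw [h]⟩, a, b, rfl⟩
  · rintro ⟨_, ⟨c, i, rfl | rfl⟩, a, b, rfl⟩
    · exact ⟨_, ⟨_, ⟨c, i, Or.inl rfl⟩, a, b, rfl⟩, rfl⟩
    · exact ⟨_, ⟨_, ⟨c, i, Or.inr rfl⟩, a, b, rfl⟩, rfl⟩

theorem mul_mem_XJ {n : ℕ} {I : Ideal L} {Z : Mt n L} (hZ : ∀ a b, Z a b ∈ I) (P R : Mt n L)
    (a b : Fin n) : (P * Z * R) a b ∈ I := by
  simp only [Matrix.mul_apply]
  exact I.sum_mem fun _ _ => I.mul_mem_right _ (I.sum_mem fun _ _ => I.mul_mem_left _ (hZ _ _))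

/-- the ideal of the graph comes from the universal family -/
theorem graph_ext {U : Type} [CommRing U] (ψ : U →+* L) (y : Pt 𝒟 U) (hi : Inv g h)
    (hx : ∀ c, x.γ c = 1) (e : y.map ψ = act h g x) (b : ℕ) :
    ((graph (𝒟.q ^ (2 * b)) x.e).comap ψ).map ψ = graph (𝒟.q ^ (2 * b)) x.e := by
  have eγ : ∀ c, (y.γ c).map ψ = (act h g x).γ c := fun c => congrArg (fun z => z.γ c) e
  have ee : ∀ v, (y.e v).map ψ = h v.2.1 * x.e v * g v.2.1 := fun v => congrArg (fun z => z.e v) e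
  have hu : ∀ c, IsUnit (ψ (y.γ c).det) := fun c => by
    have h1 : ψ (y.γ c).det = ((act h g x).γ c).det := by
      rw [← eγ]
      exact RingHom.map_det ψ _
    have h2 : IsUnit (LG 𝒟 c (h c) (g c)).det := by
      unfold LG
      split_ifs
      · rw [Matrix.det_transpose]
        exact Matrix.isUnit_det_of_right_inverse (hi c).1
      · exact Matrix.isUnit_det_of_right_inverse (hi c).2
    have h3 : IsUnit (RB 𝒟 c (g (c + 1))).det :=
      Matrix.isUnit_det_of_right_inverse (B := RB 𝒟 c (h (c + 1)))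
        (by rw [← RB_mul, (hi _).1, RB_one])
    rw [h1]
    show IsUnit (LG 𝒟 c (h c) (g c) * x.γ c * RB 𝒟 c (g (c + 1))).det
    rw [hx, mul_one, Matrix.det_mul]
    exact h2.mul h3
  let t : U := ∏ c, (y.γ c).det
  have hS : ∀ M : Mt 𝒟.n U, InS (den ψ t) (M.map ψ) := fun M a b => map_mem_den ψ t _
  have hc := coc_InS (den ψ t) hi hx (fun c => eγ c ▸ hS _) (fun c => by
    obtain ⟨u, hu'⟩ := (hu c).exists_left_inv
    refine ⟨u, ⟨1, ∏ c' ∈ Finset.univ.erase c, (y.γ c').det, ?_⟩, ?_⟩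
    · rw [pow_one, show t = _ from (Finset.mul_prod_erase _ _ (Finset.mem_univ c)).symm, map_mul,
        mul_right_comm, mul_comm _ u, hu', one_mul]
    · rw [← eγ, ← hu']
      exact congrArg (u * ·) (RingHom.map_det ψ _).symm) b
  refine map_comap_den ψ t (by rw [map_prod]; exact IsUnit.prod_univ_iff.2 hu) _
    {z | z ∈ graph (𝒟.q ^ (2 * b)) x.e ∧ z ∈ den ψ t} (fun _ hz => hz) (Ideal.span_le.2 ?_)
  rintro _ ⟨Z, ⟨c, i, hZ⟩, a, a', rfl⟩
  have h1 : ∀ a b', Z a b' ∈ graph (𝒟.q ^ (2 * b)) x.e := fun a b' =>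
    Ideal.subset_span ⟨Z, ⟨c, i, hZ⟩, a, b', rfl⟩
  have h2 : Z = g c * (h c * Z * g c) * h c := by
    rw [← mul_assoc, ← mul_assoc, (hi c).1, one_mul, mul_assoc, (hi c).1, mul_one]
  have h3 : InS (den ψ t) (h c * x.e (true, c, i) * g c) := ee (true, c, i) ▸ hS _
  have h4 : InS (den ψ t) (h c * (x.e (false, c, i)).map (· ^ 𝒟.q ^ (2 * b)) * g c) := by
    have h5 : InS (den ψ t) (h c * x.e (false, c, i) * g c) := ee (false, c, i) ▸ hS _
    have h6 : x.e (false, c, i) = g c * (h c * x.e (false, c, i) * g c) * h c := by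
      rw [← mul_assoc, ← mul_assoc, (hi c).1, one_mul, mul_assoc, (hi c).1, mul_one]
    rw [h6, pow_mul_mat, pow_mul_mat, ← mul_assoc, ← mul_assoc, mul_assoc _ _ (g c)]
    exact ((hc c).1.mul (h5.pow _)).mul (hc c).2
  have h7 : ∀ M N P : Mt 𝒟.n L, h c * (M * N - P) * g c =
      h c * M * g c * (h c * N * g c) - h c * P * g c := fun M N P => by
    rw [mul_sub, sub_mul, mul_assoc (h c) N, ← mul_assoc _ (h c), mul_assoc _ (g c), (hi c).1,
      mul_one]
    simp only [mul_assoc]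
  have h8 : InS (den ψ t) (h c * Z * g c) := by
    rcases hZ with rfl | rfl <;> rw [h7]
    exacts [(h4.mul h3).sub h3, (h3.mul h4).sub h4]
  have h9 : ∀ a b', (h c * Z * g c) a b' ∈
      Ideal.span {z | z ∈ graph (𝒟.q ^ (2 * b)) x.e ∧ z ∈ den ψ t} := fun a b' =>
    Ideal.subset_span ⟨mul_mem_XJ h1 _ _ a b', h8 a b'⟩
  have h10 := mul_mem_XJ h9 (g c) (h c) a a'
  rwa [← h2] at h10

end Pool.Agent.P.MP_1bf4cb_ag
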