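import Pool.Agent.P.MP_1bf4cb_ag.XB

set_option autoImplicit false
set_option linter.unusedSectionVars false
set_option linter.unusedVariables false

open Function Matrix
open scoped TensorProduct

noncomputable section

namespace Pool.Agent.P.MP_1bf4cb_ag

variable {k : Type} [Field k] {𝒟 : Dat k}

theorem unit_XG {B : Type} [CommRing B] {n : ℕ} {I : Ideal B} (hI : I ^ 2 = ⊥) {M : Mt n B}
    {N : Mt n (B ⧸ I)} (h : M.map (Ideal.Quotient.mk I) * N = 1) :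
    M * M⁻¹ = 1 ∧ M⁻¹ * M = 1 ∧ M⁻¹.map (Ideal.Quotient.mk I) = N := by
  have h1 : IsUnit (Ideal.Quotient.mk I M.det) := by
    rw [RingHom.map_det, RingHom.mapMatrix_apply]
    exact Matrix.isUnit_det_of_right_inverse h
  have h2 : IsUnit M.det := (IsNilpotent.isUnit_quotient_mk_iff ⟨2, hI⟩).1 h1
  have h3 := Matrix.mul_nonsing_inv M h2
  have h4 := Matrix.nonsing_inv_mul M h2
  refine ⟨h3, h4, ?_⟩
  have h5 : M⁻¹.map (Ideal.Quotient.mk I) * M.map (Ideal.Quotient.mk I) = 1 := by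
    rw [← Matrix.map_mul, h4, Matrix.map_one _ (map_zero _) (map_one _)]
  rw [← mul_one (M⁻¹.map _), ← h, ← mul_assoc, h5, one_mul]

theorem pow_XG {B : Type} [CommRing B] [Algebra k B] {I : Ideal B} (hI : I ^ 2 = ⊥) {a b : B}
    (h : Ideal.Quotient.mk I a = Ideal.Quotient.mk I b) : a ^ 𝒟.q = b ^ 𝒟.q := by
  have h1 : (a - b) ^ 2 = 0 := by
    have h2 := Ideal.pow_mem_pow (Ideal.Quotient.eq.1 h) 2
    rwa [hI, Ideal.mem_bot] at h2
  have h3 := 𝒟.add B b (a - b)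
  rwa [pow_eq_zero_of_le 𝒟.two h1, add_zero, add_sub_cancel] at h3

theorem fr_XG {B : Type} [CommRing B] [Algebra k B] {M N : Mt 𝒟.n B} (h : M * N = 1) :
    M.map (· ^ 𝒟.q) * N.map (· ^ 𝒟.q) = 1 := by
  have h1 : (M * N).map (𝒟.fr B) = M.map (𝒟.fr B) * N.map (𝒟.fr B) := Matrix.map_mul
  rw [h, Matrix.map_one _ (map_zero _) (map_one _)] at h1
  exact h1.symm

/-- frames lift along square-zero extensions -/
theorem lift_frames {B : Type} [CommRing B] [Algebra k B] (I : Ideal B) (hI : I ^ 2 = ⊥)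
    (y : Pt 𝒟 B) {g h : Fin (𝒟.d + 1) → Mt 𝒟.n (B ⧸ I)} (hi : Inv g h)
    (hy : ∀ c, (act g h (y.map (Ideal.Quotient.mk I))).γ c = 1) :
    ∃ G H : Fin (𝒟.d + 1) → Mt 𝒟.n B, Inv G H ∧ (∀ c, (G c).map (Ideal.Quotient.mk I) = g c) ∧
      ∀ c, (act G H y).γ c = 1 := by
  obtain ⟨g₀, hg₀⟩ : ∃ g₀ : Mt 𝒟.n B, g₀.map (Ideal.Quotient.mk I) = g 0 := by
    choose u hu using fun a b => Ideal.Quotient.mk_surjective (g 0 a b)
    exact ⟨Matrix.of u, Matrix.ext hu⟩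
  obtain ⟨W, hW⟩ : ∃ W : Mt 𝒟.n B, W = g₀.map (· ^ 𝒟.q) := ⟨_, rfl⟩
  have hW1 : W.map (Ideal.Quotient.mk I) * (h 0).map (· ^ 𝒟.q) = 1 := by
    have e : W.map (Ideal.Quotient.mk I) = (g 0).map (· ^ 𝒟.q) := by
      rw [hW, ← hg₀]
      ext a b
      simp only [Matrix.map_apply, map_pow]
    rw [e]
    exact fr_XG (hi 0).1
  have hl : (h (Fin.last 𝒟.d))ᵀ * (y.γ (Fin.last 𝒟.d)).map (Ideal.Quotient.mk I) *
      (h 0).map (· ^ 𝒟.q) = 1 := by
    simpa only [act, Pt.map, LG, RB, if_true, Fin.last_add_one] using hy (Fin.last 𝒟.d)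
  have hc : ∀ i : Fin 𝒟.d, (y.γ i.castSucc).map (Ideal.Quotient.mk I) *
      (h i.succ * g i.castSucc) = 1 := fun i => by
    have h1 : g i.castSucc * (y.γ i.castSucc).map (Ideal.Quotient.mk I) * h i.succ = 1 := by
      simpa only [act, Pt.map, LG, RB, if_neg (Fin.castSucc_ne_last i), Fin.coeSucc_eq_succ]
        using hy i.castSucc
    rw [mul_assoc] at h1
    rw [← mul_assoc]
    exact mul_eq_one_comm.1 h1
  obtain ⟨G, hGl, hGc⟩ : ∃ G : Fin (𝒟.d + 1) → Mt 𝒟.n B,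
      G (Fin.last 𝒟.d) = (y.γ (Fin.last 𝒟.d) * W⁻¹)ᵀ ∧
        ∀ i : Fin 𝒟.d, G i.castSucc = G i.succ * (y.γ i.castSucc)⁻¹ :=
    ⟨Fin.reverseInduction (motive := fun _ => Mt 𝒟.n B) (y.γ (Fin.last 𝒟.d) * W⁻¹)ᵀ
      fun i M => M * (y.γ i.castSucc)⁻¹, Fin.reverseInduction_last,
      fun i => Fin.reverseInduction_castSucc i⟩
  have hG : ∀ c, (G c).map (Ideal.Quotient.mk I) = g c := fun c => by
    induction c using Fin.reverseInduction with
    | last =>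
      rw [hGl, Matrix.transpose_map, Matrix.map_mul, (unit_XG hI hW1).2.2]
      have h1 : (g (Fin.last 𝒟.d))ᵀ * (h (Fin.last 𝒟.d))ᵀ = 1 := by
        rw [← Matrix.transpose_mul, (hi _).2, Matrix.transpose_one]
      rw [mul_assoc] at hl
      rw [← one_mul (_ * (h 0).map _), ← h1, mul_assoc, hl, mul_one, Matrix.transpose_transpose]
    | cast i ih =>
      rw [hGc, Matrix.map_mul, ih, (unit_XG hI (hc i)).2.2, ← mul_assoc, (hi _).1, one_mul]
  have hU := fun c => unit_XG hI (M := G c) (N := h c) (by rw [hG]; exact (hi c).1)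
  refine ⟨G, fun c => (G c)⁻¹, fun c => ⟨(hU c).1, (hU c).2.1⟩, hG, fun c => ?_⟩
  induction c using Fin.lastCases with
  | last =>
    have h1 : (G 0).map (· ^ 𝒟.q) = W := by
      rw [hW]
      ext a b
      exact pow_XG hI (congrFun (congrFun ((hG 0).trans hg₀.symm) a) b)
    have h2 : W⁻¹ = (G 0)⁻¹.map (· ^ 𝒟.q) :=
      Matrix.inv_eq_left_inv (by rw [← h1]; exact fr_XG (hU 0).2.1)
    simp only [act, LG, RB, if_true, Fin.last_add_one]
    rw [← h2, mul_assoc, ← Matrix.transpose_transpose (_ * W⁻¹), ← hGl, ← Matrix.transpose_mul,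
      (hU _).1, Matrix.transpose_one]
  | cast i =>
    simp only [act, LG, RB, if_neg (Fin.castSucc_ne_last i), Fin.coeSucc_eq_succ]
    rw [hGc, mul_assoc (G _), (unit_XG hI (hc i)).2.1, mul_one, (hU _).1]

end Pool.Agent.P.MP_1bf4cb_ag
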