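import Pool.Agent.P.MP_1bf4cb_ag.YB
import Pool.Agent.P.MP_1bf4cb_ag.XG

set_option autoImplicit false
set_option linter.unusedSectionVars false
set_option linter.unusedVariables false

open Function Matrix
open scoped TensorProduct

noncomputable section

namespace Pool.Agent.P.MP_1bf4cb_ag

variable {k : Type} [Field k] {𝒟 : Dat k}

/-- both sides agree -/
def Dia {C : Type} (y : Pt 𝒟 C) : Prop := ∀ c i, y.e (true, c, i) = y.e (false, c, i)

theorem LA_abs_YC {C : Type} [CommRing C] (c : Fin (𝒟.d + 1)) {e f : Mt 𝒟.n C} (h1 : f * e = e)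
    (h2 : e * f = f) : LA 𝒟 c e * LA 𝒟 c f = LA 𝒟 c e := by
  unfold LA
  split_ifs
  · rw [← transpose_mul, h1]
  · rw [mul_sub, mul_one, sub_mul, one_mul, h2, sub_self, sub_zero]

theorem LA_comm_YC {C : Type} [CommRing C] (c : Fin (𝒟.d + 1)) {e f : Mt 𝒟.n C}
    (h : e * f = f * e) : LA 𝒟 c e * LA 𝒟 c f = LA 𝒟 c f * LA 𝒟 c e := by
  unfold LA
  split_ifs
  · rw [← transpose_mul, ← transpose_mul, h]
  · simp only [mul_sub, sub_mul, mul_one, one_mul, h]
    abel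

theorem LA_map_YC {C C' : Type} [CommRing C] [CommRing C'] (φ : C →+* C') (c : Fin (𝒟.d + 1))
    (M : Mt 𝒟.n C) : (LA 𝒟 c M).map φ = LA 𝒟 c (M.map φ) := by
  unfold LA
  split_ifs
  · rfl
  · rw [Matrix.map_sub _ (map_sub φ), Matrix.map_one _ (map_zero φ) (map_one φ)]

theorem RB_map_YC {C C' : Type} [CommRing C] [CommRing C'] (φ : C →+* C') (c : Fin (𝒟.d + 1))
    (M : Mt 𝒟.n C) : (RB 𝒟 c M).map φ = RB 𝒟 c (M.map φ) := by
  unfold RB
  split_ifs
  · ext a b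
    simp
  · rfl

theorem act_one_YC {C : Type} [CommRing C] (x : Pt 𝒟 C) :
    act (fun _ => 1) (fun _ => 1) x = x := by
  refine Pt.ext (funext fun v => ?_) (funext fun c => ?_)
  · show 1 * x.e v * 1 = x.e v
    rw [one_mul, mul_one]
  · show LG 𝒟 c 1 1 * x.γ c * RB 𝒟 c 1 = x.γ c
    rw [RB_one, mul_one, LG, transpose_one, ite_self, one_mul]

theorem Dia.map_YC {C C' : Type} [CommRing C] [CommRing C'] {y : Pt 𝒟 C} (h : Dia y) (φ : C → C') :
    Dia (y.map φ) := fun c i => congrArg (fun M : Mt 𝒟.n C => M.map φ) (h c i)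

theorem map_id_YC {C : Type} (y : Pt 𝒟 C) {φ : C → C} (h : ∀ a, φ a = a) : y.map φ = y := by
  obtain rfl : φ = id := funext h
  rfl

theorem lift_sq {B : Type} [CommRing B] [Algebra k B] (I : Ideal B) (hI : I ^ 2 = ⊥)
    (y : Pt 𝒟 (B ⧸ I)) (hy : Sat1 y) (hd : Dia y) :
    ∃ x : Pt 𝒟 B, Sat1 x ∧ Dia x ∧ x.map (Ideal.Quotient.mk I) = y := by
  choose e he hπ using fun c => lift_chain I hI (fun i => y.e (false, c, i)) (hy.base.chain false c)
  choose f hf hfe using fun c => comm_chain (e c) (he c)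
  have fc : ∀ c i j, f c i * f c j = f c j * f c i := fun c i j => by
    rcases le_total i j with h | h
    · rw [(hf c i j h).1, (hf c i j h).2]
    · rw [(hf c j i h).1, (hf c j i h).2]
  have ff : ∀ c i, f c i * f c i = f c i := fun c i => (hf c i i le_rfl).1
  have hγ : ∀ c, ∃ γ : Mt 𝒟.n B, γ.map (Ideal.Quotient.mk I) = 1 ∧ ∀ i j, 𝒟.E c i j →
      LA 𝒟 c (e c i) * γ * RB 𝒟 c (e (c + 1) j) = 0 := fun c => by
    obtain ⟨γ, h1, h2⟩ := exists_gamma (ι := {p : Fin 𝒟.m × Fin 𝒟.m // 𝒟.E c p.1 p.2})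
      (Ideal.Quotient.mk I).mapMatrix (fun p => LA 𝒟 c (f c p.1.1))
      (fun p => RB 𝒟 c (f (c + 1) p.1.2)) (fun p p' => LA_comm_YC c (fc c _ _))
      (fun p p' => by rw [← RB_mul, ← RB_mul, fc]) (fun p => LA_abs_YC c (ff c _) (ff c _))
      (fun p => by rw [← RB_mul, ff]) (fun p => by
        have h3 := hy.base.edge false c p.1.1 p.1.2 p.2
        rw [hy.one, mul_one, ← hπ, ← hπ, ← LA_map_YC, ← RB_map_YC] at h3
        rw [← LA_abs_YC c (hfe c p.1.1).2 (hfe c p.1.1).1, ← (hfe (c + 1) p.1.2).2, RB_mul,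
          mul_assoc, ← mul_assoc (LA 𝒟 c (e c p.1.1)), map_mul, map_mul, map_mul]
        simp only [RingHom.mapMatrix_apply]
        rw [h3, zero_mul, mul_zero])
    refine ⟨γ, h1, fun i j hij => ?_⟩
    have h3 := h2 ⟨(i, j), hij⟩
    rw [← LA_abs_YC c (hfe c i).1 (hfe c i).2, ← (hfe (c + 1) j).1, RB_mul, mul_assoc (LA 𝒟 c _),
      mul_assoc (LA 𝒟 c _), ← mul_assoc (LA 𝒟 c (f c i) * γ), h3, zero_mul, mul_zero]
  choose γ hγ1 hγ2 using hγ
  let x0 : Pt 𝒟 B := ⟨fun v => e v.2.1 v.2.2, γ⟩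
  have s0 : Sat0 x0 := ⟨fun _ c i j h => he c i j h, fun _ c i j h => hγ2 c i j h⟩
  have m0 : x0.map (Ideal.Quotient.mk I) = y := by
    refine Pt.ext (funext fun v => ?_) (funext fun c => (hγ1 c).trans (hy.one c).symm)
    obtain ⟨s, c, i⟩ := v
    cases s
    · exact hπ c i
    · exact (hπ c i).trans (hd c i).symm
  obtain ⟨G, H, hi, hG, h1⟩ := lift_frames I hI x0 (g := fun _ => 1) (h := fun _ => 1)
    (fun _ => ⟨one_mul _, one_mul _⟩) (fun c => by rw [act_one_YC, m0, hy.one])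
  have hH : ∀ c, (H c).map (Ideal.Quotient.mk I) = 1 := fun c => by
    have := congrArg (fun M => M.map (Ideal.Quotient.mk I)) (hi c).1
    simp only [Matrix.map_mul, hG, one_mul] at this
    rw [this]
    exact Matrix.map_one _ (map_zero _) (map_one _)
  refine ⟨act G H x0, ⟨sat0_act s0 hi, h1⟩, fun _ _ => rfl, ?_⟩
  rw [act_map]
  simp only [hG, hH]
  rw [act_one_YC, m0]

theorem lift_nil {B C : Type} [CommRing B] [Algebra k B] [CommRing C] (π : B →+* C)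
    (hπ : Surjective π) (hI : IsNilpotent (RingHom.ker π)) (y : Pt 𝒟 C) (hy : Sat1 y)
    (hd : Dia y) : ∃ x : Pt 𝒟 B, Sat1 x ∧ Dia x ∧ x.map π = y := by
  have key : ∀ [Algebra k B] (y : Pt 𝒟 (B ⧸ RingHom.ker π)), Sat1 y → Dia y →
      ∃ x : Pt 𝒟 B, Sat1 x ∧ Dia x ∧ x.map (Ideal.Quotient.mk (RingHom.ker π)) = y := by
    refine Ideal.IsNilpotent.induction_on (RingHom.ker π) hI
      (P := fun S _ J => ∀ [Algebra k S] (y : Pt 𝒟 (S ⧸ J)), Sat1 y → Dia y →
        ∃ x : Pt 𝒟 S, Sat1 x ∧ Dia x ∧ x.map (Ideal.Quotient.mk J) = y) ?_ ?_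
    · intro S _ J hJ _ y hy hd
      exact lift_sq J hJ y hy hd
    · intro S _ I J hIJ h1 h2 _ y hy hd
      let ε := DoubleQuot.quotQuotEquivQuotOfLE hIJ
      obtain ⟨x1, s1, d1, m1⟩ := h2 (y.map (ε.symm : S ⧸ J →+* _)) (hy.map _) (hd.map_YC _)
      obtain ⟨x, s2, d2, m2⟩ := h1 x1 s1 d1
      refine ⟨x, s2, d2, ?_⟩
      have := congrArg (fun z => Pt.map z ε) m1
      simp only [← m2, Pt.map_map] at this
      exact this.trans (map_id_YC y fun a => ε.apply_symm_apply a)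
  let ε := RingHom.quotientKerEquivOfSurjective hπ
  obtain ⟨x, s1, d1, m1⟩ := key (y.map (ε.symm : C →+* _)) (hy.map _) (hd.map_YC _)
  refine ⟨x, s1, d1, ?_⟩
  have := congrArg (fun z => Pt.map z ε) m1
  simp only [Pt.map_map] at this
  exact this.trans (map_id_YC y fun a => ε.apply_symm_apply a)

end Pool.Agent.P.MP_1bf4cb_ag
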