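import Pool.Agent.P.MP_1bf4cb_ag.YA
import Pool.Agent.P.MP_1bf4cb_ag.YC

set_option autoImplicit false
set_option linter.unusedSectionVars false
set_option linter.unusedVariables false

open Function Matrix
open scoped TensorProduct

noncomputable section

namespace Pool.Agent.P.MP_1bf4cb_ag

variable {k : Type} [Field k] (𝒟 : Dat k)

/-- the `Q`-th power map -/
def pw_YD (Q : ℕ) (hQ : 0 < Q) (C : Type) [CommRing C] (hadd : ∀ x y : C, (x + y) ^ Q = x ^ Q + y ^ Q) :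
    C →+* C where
  toFun x := x ^ Q
  map_one' := one_pow _
  map_mul' x y := mul_pow x y _
  map_zero' := zero_pow hQ.ne'
  map_add' := hadd

/-- the equations on one side -/
def eqs1_YD {A : Type} [CommRing A] (s : Bool) (e : Ix 𝒟.d 𝒟.m → Mt 𝒟.n A) : Set (Mt 𝒟.n A) :=
  {Z | ∃ c i j, (i ≤ j ∧ Z = e (s, c, j) * e (s, c, i) - e (s, c, i)) ∨
    (𝒟.E c i j ∧ c ≠ Fin.last 𝒟.d ∧ Z = e (s, c, i) * e (s, c + 1, j) - e (s, c + 1, j)) ∨
    (𝒟.E c i j ∧ c = Fin.last 𝒟.d ∧ Z = (e (s, c, i))ᵀ * (e (s, 0, j)).map (· ^ 𝒟.q))}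

theorem eqs1_map_YD {A A' : Type} [CommRing A] [CommRing A'] (s : Bool)
    (e : Ix 𝒟.d 𝒟.m → Mt 𝒟.n A) (φ φ' : A →+* A')
    (h : ∀ c i, (e (s, c, i)).map φ = (e (s, c, i)).map φ') {Z : Mt 𝒟.n A}
    (hZ : Z ∈ eqs1_YD 𝒟 s e) : Z.map φ = Z.map φ' := by
  have hp : ∀ (ψ : A →+* A') (M : Mt 𝒟.n A),
      (M.map (· ^ 𝒟.q)).map ψ = (M.map ψ).map (· ^ 𝒟.q) := fun ψ M => by
    ext a b
    simp
  obtain ⟨c, i, j, ⟨-, rfl⟩ | ⟨-, -, rfl⟩ | ⟨-, -, rfl⟩⟩ := hZ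
  · rw [Matrix.map_sub _ (map_sub φ), Matrix.map_sub _ (map_sub φ'), Matrix.map_mul, Matrix.map_mul,
      h, h]
  · rw [Matrix.map_sub _ (map_sub φ), Matrix.map_sub _ (map_sub φ'), Matrix.map_mul, Matrix.map_mul,
      h, h]
  · rw [Matrix.map_mul, Matrix.map_mul, hp, hp, transpose_map, transpose_map, h, h]

/-- a point glued from two points -/
theorem sat1_glue_YD {C : Type} [CommRing C] {x y : Pt 𝒟 C} (hx : Sat1 x)
    (hy : ∀ Z ∈ eqs1_YD 𝒟 true y.e, Z = 0) :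
    Sat1 (𝒟 := 𝒟) ⟨fun v => if v.1 = true then y.e v else x.e v, fun _ => 1⟩ := by
  refine ⟨⟨fun s c i j hij => ?_, fun s c i j hE => ?_⟩, fun _ => rfl⟩
  · cases s
    · simpa using hx.base.chain false c i j hij
    · simpa [sub_eq_zero] using hy _ ⟨c, i, j, Or.inl ⟨hij, rfl⟩⟩
  · cases s
    · have := hx.base.edge false c i j hE
      rw [hx.one] at this
      simpa using this
    · by_cases hc : c = Fin.last 𝒟.d
      · have := hy _ ⟨c, i, j, Or.inr (Or.inr ⟨hE, hc, rfl⟩)⟩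
        subst hc
        simpa [LA, RB] using this
      · have := hy _ ⟨c, i, j, Or.inr (Or.inl ⟨hE, hc, rfl⟩)⟩
        rw [sub_eq_zero] at this
        simp [LA, RB, hc, sub_mul, this]

/-- the Frobenius of the first factor is flat -/
theorem flat_frob (Q : ℕ) (hQ : 0 < Q)
    (hadd : ∀ (C : Type) [CommRing C] [Algebra k C] (x y : C), (x + y) ^ Q = x ^ Q + y ^ Q) :
    ∃ φ : Crd k 𝒟.n 𝒟.q 𝒟.E →+* Crd k 𝒟.n 𝒟.q 𝒟.E, φ.Flat ∧
      (∀ c i, (univ k 𝒟.n 𝒟.q 𝒟.E (false, c, i)).map φ =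
        (univ k 𝒟.n 𝒟.q 𝒟.E (false, c, i)).map (· ^ Q)) ∧
      ∀ c i, (univ k 𝒟.n 𝒟.q 𝒟.E (true, c, i)).map φ = univ k 𝒟.n 𝒟.q 𝒟.E (true, c, i) := by
  classical
  let S := MvPolynomial (Ix 𝒟.d 𝒟.m × Fin 𝒟.n × Fin 𝒟.n) k
  let J : Ideal S := ents (eqs 𝒟.q 𝒟.E (gen k 𝒟.n))
  let r : Ix 𝒟.d 𝒟.m × Fin 𝒟.n × Fin 𝒟.n → ℕ := fun v => if v.1.1 = true then 1 else Q
  let φS : S →+* S := (MvPolynomial.aeval (R := k) fun v => (MvPolynomial.X v : S) ^ r v).toRingHom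
  have hφS : φS.Flat := flat_pexp k _ r fun v => by
    simp only [r]
    split_ifs
    · exact one_pos
    · exact hQ
  have hφX : ∀ v, φS (MvPolynomial.X v) = MvPolynomial.X v ^ r v := fun v => MvPolynomial.aeval_X _ _
  have g0 : ∀ c i, (gen k 𝒟.n (false, c, i) : Mt 𝒟.n S).map φS =
      (gen k 𝒟.n (false, c, i) : Mt 𝒟.n S).map (pw_YD Q hQ S (hadd S)) := fun c i =>
    Matrix.ext fun a b => hφX ((false, c, i), a, b)
  have g1 : ∀ c i, (gen k 𝒟.n (true, c, i) : Mt 𝒟.n S).map φS =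
      (gen k 𝒟.n (true, c, i) : Mt 𝒟.n S).map (RingHom.id S) := fun c i =>
    Matrix.ext fun a b => (hφX ((true, c, i), a, b)).trans (pow_one _)
  have hgen : ∀ y ∈ {x | ∃ Z ∈ eqs 𝒟.q 𝒟.E (gen k 𝒟.n : _ → Mt 𝒟.n S), ∃ a b, x = Z a b},
      φS y = y ^ Q ∨ φS y = y := by
    rintro _ ⟨Z, ⟨s, hZ⟩, a, b, rfl⟩
    cases s
    · exact Or.inl (congrFun₂ (eqs1_map_YD 𝒟 false _ _ _ g0 hZ) a b)
    · exact Or.inr (congrFun₂ (eqs1_map_YD 𝒟 true _ _ _ g1 hZ) a b)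
  have hle : J.map φS ≤ J := by
    rw [Ideal.map_le_iff_le_comap]
    refine Ideal.span_le.2 fun y hy => ?_
    have hy' : y ∈ J := Ideal.subset_span hy
    rcases hgen y hy with h | h
    · exact show φS y ∈ J from h ▸ J.pow_mem_of_mem hy' Q hQ
    · exact show φS y ∈ J from h.symm ▸ hy'
  let B := S ⧸ J.map φS
  let π : B →+* S ⧸ J := Ideal.Quotient.factor hle
  let j : S ⧸ J →+* B := Ideal.quotientMap (J.map φS) φS Ideal.le_comap_map
  have hker : ∀ i : B, π i = 0 → i ^ Q = 0 := by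
    intro i hi
    obtain ⟨y, rfl⟩ := Ideal.Quotient.mk_surjective i
    have hy : y ∈ J := Ideal.Quotient.eq_zero_iff_mem.1 hi
    have : J ≤ RingHom.ker ((pw_YD Q hQ B (hadd B)).comp (Ideal.Quotient.mk _)) := by
      refine Ideal.span_le.2 fun y hy => ?_
      have hy' : φS y ∈ J.map φS := Ideal.mem_map_of_mem _ (Ideal.subset_span hy)
      show (Ideal.Quotient.mk (J.map φS) y) ^ Q = 0
      rcases hgen y hy with h | h
      · rw [← map_pow, ← h]
        exact Ideal.Quotient.eq_zero_iff_mem.2 hy'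
      · rw [h] at hy'
        rw [Ideal.Quotient.eq_zero_iff_mem.2 hy', zero_pow hQ.ne']
    exact this hy
  have hnil : IsNilpotent (RingHom.ker π) :=
    (Ideal.FG.isNilpotent_iff_le_nilradical (IsNoetherian.noetherian _)).2
      fun i hi => ⟨Q, hker i hi⟩
  have hx := rep_crd 𝒟
  let u := univ k 𝒟.n 𝒟.q 𝒟.E
  have hd : Sat1 (𝒟 := 𝒟) ⟨fun v => u (false, v.2), fun _ => 1⟩ :=
    ⟨⟨fun s c i j hij => hx.sat.base.chain false c i j hij,
      fun s c i j hE => hx.sat.base.edge false c i j hE⟩, fun _ => rfl⟩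
  obtain ⟨x, hx1, -, hx2⟩ := lift_nil π (Ideal.Quotient.factor_surjective hle) hnil _ hd
    fun _ _ => rfl
  let y : Pt 𝒟 B := ⟨fun v => (gen k 𝒟.n v : Mt 𝒟.n S).map (Ideal.Quotient.mk _), fun _ => 1⟩
  have hy : ∀ Z ∈ eqs1_YD 𝒟 true y.e, Z = 0 := by
    have key : ∀ Z ∈ eqs1_YD 𝒟 true (gen k 𝒟.n : _ → Mt 𝒟.n S),
        Z.map (Ideal.Quotient.mk (J.map φS)) = 0 := fun Z hZ => by
      ext a b
      have h1 : φS (Z a b) = Z a b := congrFun₂ (eqs1_map_YD 𝒟 true _ _ _ g1 hZ) a b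
      have h2 : Z a b ∈ J := Ideal.subset_span ⟨Z, ⟨true, hZ⟩, a, b, rfl⟩
      exact Ideal.Quotient.eq_zero_iff_mem.2 (h1 ▸ Ideal.mem_map_of_mem _ h2)
    rintro Z ⟨c, i, j, ⟨h, rfl⟩ | ⟨h, h', rfl⟩ | ⟨h, h', rfl⟩⟩
    · have := key _ ⟨c, i, j, Or.inl ⟨h, rfl⟩⟩
      rwa [Matrix.map_sub _ (map_sub _), Matrix.map_mul] at this
    · have := key _ ⟨c, i, j, Or.inr (Or.inl ⟨h, h', rfl⟩)⟩
      rwa [Matrix.map_sub _ (map_sub _), Matrix.map_mul] at this
    · have := key _ ⟨c, i, j, Or.inr (Or.inr ⟨h, h', rfl⟩)⟩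
      rw [Matrix.map_mul, transpose_map] at this
      refine Eq.trans ?_ this
      congr 1
  obtain ⟨g, hg⟩ := hx.univ B _ (sat1_glue_YD 𝒟 hx1 hy)
  have hgX : ∀ v a b, g (Ideal.Quotient.mk J (MvPolynomial.X (v, a, b))) =
      (if v.1 = true then y.e v else x.e v) a b := fun v a b =>
    congrFun₂ (congrFun (congrArg Pt.e hg) v) a b
  have hπx : ∀ c i a b, π (x.e (false, c, i) a b) =
      Ideal.Quotient.mk J (MvPolynomial.X ((false, c, i), a, b)) := fun c i a b =>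
    congrFun₂ (congrFun (congrArg Pt.e hx2) (false, c, i)) a b
  have hext : ∀ {T : Type} [CommRing T] (f f' : S ⧸ J →+* T),
      (∀ c : k, f (algebraMap k _ c) = f' (algebraMap k _ c)) →
      (∀ v, f (Ideal.Quotient.mk J (MvPolynomial.X v)) = f' (Ideal.Quotient.mk J (MvPolynomial.X v))) →
      f = f' := fun f f' h1 h2 =>
    Ideal.Quotient.ringHom_ext (MvPolynomial.ringHom_ext h1 h2)
  have hφk : ∀ c : k, φS (algebraMap k S c) = algebraMap k S c := fun c => AlgHom.commutes _ c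
  have hjk : ∀ c : k, j (algebraMap k _ c) = algebraMap k B c := fun c =>
    congrArg (Ideal.Quotient.mk (J.map φS)) (hφk c)
  have hjX : ∀ v, j (Ideal.Quotient.mk J (MvPolynomial.X v)) =
      Ideal.Quotient.mk (J.map φS) (MvPolynomial.X v) ^ r v := fun v =>
    (congrArg (Ideal.Quotient.mk (J.map φS)) (hφX v)).trans (map_pow _ _ _)
  have hπX : ∀ z : S, π (Ideal.Quotient.mk (J.map φS) z) = Ideal.Quotient.mk J z := fun z => rfl
  refine ⟨π.comp j, flat_of_retract j (g : S ⧸ J →+* B) π _ (flat_quot φS hφS J) ?_ rfl ?_, ?_, ?_⟩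
  · refine hext _ _ (fun c => congrArg π (g.commutes c)) ?_
    rintro ⟨⟨s, c, i⟩, a, b⟩
    refine (congrArg π (hgX _ a b)).trans ?_
    cases s
    · exact hπx c i a b
    · rfl
  · refine hext _ _ (fun c => ?_) ?_
    · exact (congrArg (fun t => g (π t)) (hjk c)).trans ((g.commutes c).trans (hjk c).symm)
    · rintro ⟨⟨s, c, i⟩, a, b⟩
      refine (congrArg (fun t => g (π t)) (hjX _)).trans (Eq.trans ?_ (hjX _).symm)
      refine (congrArg g (map_pow π _ _)).trans ((map_pow g _ _).trans ?_)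
      refine (congrArg (· ^ r ((s, c, i), a, b)) (hgX (s, c, i) a b)).trans ?_
      cases s
      · have h1 := hker (x.e (false, c, i) a b -
          Ideal.Quotient.mk (J.map φS) (MvPolynomial.X ((false, c, i), a, b)))
          (by rw [map_sub, hπx, hπX, sub_self])
        have h2 := map_sub (pw_YD Q hQ B (hadd B)) (x.e (false, c, i) a b)
          (Ideal.Quotient.mk (J.map φS) (MvPolynomial.X ((false, c, i), a, b)))
        exact sub_eq_zero.1 (h2.symm.trans h1)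
      · rfl
  · intro c i
    ext a b
    exact (congrArg π (hjX ((false, c, i), a, b))).trans (map_pow π _ _)
  · intro c i
    ext a b
    exact (congrArg π (hjX ((true, c, i), a, b))).trans ((map_pow π _ _).trans (pow_one _))

end Pool.Agent.P.MP_1bf4cb_ag
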