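import Pool.Agent.P.MP_1bf4cb_ag.GF

set_option autoImplicit false
set_option linter.unusedSectionVars false
set_option linter.unusedVariables false

open Function Matrix
open scoped TensorProduct

noncomputable section

namespace Pool.Agent.P.MP_1bf4cb_ag

open Polynomial

theorem shift_YE {A B : Type} [CommRing A] [CommRing B] [IsNoetherianRing B] (φ : A →+* B)
    (hφ : φ.Flat) : ∃ Φ : G0 A →+ G0 B, ∀ I : Ideal A, Φ (cyc I) = cyc (I.map φ) := by
  let : Algebra A B := φ.toAlgebra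
  have : Module.Flat A B := hφ
  obtain ⟨χ, hχ⟩ := exists_cls B
  obtain ⟨χ', -, h'⟩ := exists_base (A := A) χ
  refine ⟨QuotientAddGroup.lift _ (FreeAbelianGroup.lift fun M : FG A => χ'.val M.M) ?_,
    fun I => ?_⟩
  · refine (AddSubgroup.closure_le _).2 ?_
    rintro _ ⟨M, N, P, f, g, hf, hg, h, rfl⟩
    show FreeAbelianGroup.lift (fun M : FG A => χ'.val M.M) _ = 0
    rw [map_sub, map_sub, FreeAbelianGroup.lift_apply_of, FreeAbelianGroup.lift_apply_of,
      FreeAbelianGroup.lift_apply_of, χ'.add f g hf hg h]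
    abel
  · rw [cyc, QuotientAddGroup.lift_mk, FreeAbelianGroup.lift_apply_of]
    exact (h' I).trans (hχ _)

/-- flat base change on the Grothendieck group -/
theorem exists_shift {A : Type} [CommRing A] [IsNoetherianRing A] (φ : A →+* A) (hφ : φ.Flat) :
    ∃ Φ : G0 A →+ G0 A, ∀ I : Ideal A, Φ (cyc I) = cyc (I.map φ) :=
  shift_YE φ hφ

theorem exists_ann {Γ : Type 1} [AddCommGroup Γ] (Φ : Γ →+ Γ) (v : ℕ → Γ)
    (hv : ∀ a, Φ (v a) = v (a + 1)) (h : ¬ LinearIndependent ℤ v) :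
    ∃ c : ℚ[X], c ≠ 0 ∧ ∀ f : ℚ[X], ((c * f).sum fun a t => (t ⊗ₜ[ℤ] v a : ℚ ⊗[ℤ] Γ)) = 0 := by
  classical
  rw [linearIndependent_iff] at h
  push Not at h
  obtain ⟨l, hl, hl0⟩ := h
  let E : ℚ[X] →ₗ[ℚ] ℚ ⊗[ℤ] Γ :=
    Polynomial.lsum fun a => LinearMap.toSpanSingleton ℚ _ ((1 : ℚ) ⊗ₜ[ℤ] v a : ℚ ⊗[ℤ] Γ)
  have e1 : ∀ (t : ℚ) (x : Γ), t • ((1 : ℚ) ⊗ₜ[ℤ] x : ℚ ⊗[ℤ] Γ) = t ⊗ₜ[ℤ] x := fun t x => by
    rw [TensorProduct.smul_tmul', smul_eq_mul, mul_one]
  have hE : ∀ g : ℚ[X], E g = g.sum fun a t => (t ⊗ₜ[ℤ] v a : ℚ ⊗[ℤ] Γ) := fun g => by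
    simp only [E, Polynomial.lsum_apply, LinearMap.toSpanSingleton_apply, e1]
  have hm : ∀ a t, E (monomial a t) = t ⊗ₜ[ℤ] v a := fun a t => by
    rw [hE, Polynomial.sum_monomial_index]
    exact TensorProduct.zero_tmul _ _
  have hX : ∀ g : ℚ[X], E (X * g) = Φ.toIntLinearMap.baseChange ℚ (E g) := fun g => by
    induction g using Polynomial.induction_on' with
    | add p q hp hq => rw [mul_add, map_add, map_add, map_add, hp, hq]
    | monomial n t =>
      rw [Polynomial.X_mul_monomial, hm, hm, LinearMap.baseChange_tmul, ← hv]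
      rfl
  let c : ℚ[X] := ∑ a ∈ l.support, monomial a (l a : ℚ)
  have hc : E c = 0 := by
    have e2 : ∀ a, ((l a : ℚ) ⊗ₜ[ℤ] v a : ℚ ⊗[ℤ] Γ) = (1 : ℚ) ⊗ₜ[ℤ] (l a • v a) := fun a => by
      rw [← TensorProduct.smul_tmul, zsmul_eq_mul, mul_one]
    rw [Finsupp.linearCombination_apply, Finsupp.sum] at hl
    simp only [c, map_sum, hm, e2]
    rw [← TensorProduct.tmul_sum, hl, TensorProduct.tmul_zero]
  have hn : ∀ n : ℕ, E (X ^ n * c) = 0 := fun n => by
    induction n with
    | zero => rw [pow_zero, one_mul, hc]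
    | succ n ih => rw [pow_succ', mul_assoc, hX, ih, map_zero]
  refine ⟨c, fun h0 => ?_, fun f => ?_⟩
  · obtain ⟨a, ha⟩ := Finsupp.support_nonempty_iff.2 hl0
    have h1 : c.coeff a = (l a : ℚ) := by
      simp only [c, Polynomial.finsetSum_coeff, Polynomial.coeff_monomial]
      rw [Finset.sum_ite_eq', if_pos ha]
    rw [h0, Polynomial.coeff_zero] at h1
    exact Finsupp.mem_support_iff.1 ha (by exact_mod_cast h1.symm)
  · rw [← hE]
    induction f using Polynomial.induction_on' with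
    | add p q hp hq => rw [mul_add, map_add, hp, hq, add_zero]
    | monomial n t =>
      have e3 : c * monomial n t = t • (X ^ n * c) := by
        rw [← Polynomial.C_mul_X_pow_eq_monomial, Polynomial.smul_eq_C_mul]
        ring
      rw [e3, map_smul, hn, smul_zero]

theorem split_YE (D c : ℚ[X]) (hc : c ≠ 0) : ∃ (c0 : ℚ[X]) (r : ℕ), IsCoprime c0 D ∧
    c ∣ c0 * D ^ r := by
  induction c using UniqueFactorizationMonoid.induction_on_prime with
  | h₁ => exact absurd rfl hc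
  | h₂ x hx => exact ⟨1, 0, isCoprime_one_left, hx.dvd⟩
  | h₃ a p ha hp ih =>
    obtain ⟨c0, r, h1, h2⟩ := ih ha
    by_cases hd : p ∣ D
    · refine ⟨c0, r + 1, h1, ?_⟩
      rw [show c0 * D ^ (r + 1) = D * (c0 * D ^ r) by ring]
      exact mul_dvd_mul hd h2
    · refine ⟨p * c0, r, (hp.irreducible.coprime_iff_not_dvd.2 hd).mul_left h1, ?_⟩
      rw [mul_assoc]
      exact mul_dvd_mul_left p h2

theorem crt_YE {ι : Type} [Fintype ι] [DecidableEq ι] (Q : ι → ℚ[X])
    (hQ : Pairwise fun i j => IsCoprime (Q i) (Q j)) (i : ι) :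
    ∃ π : ℚ[X], ∀ j, Q j ∣ π - if i = j then 1 else 0 := by
  obtain ⟨a, b, h⟩ : IsCoprime (Q i) (∏ j ∈ Finset.univ.erase i, Q j) :=
    IsCoprime.prod_right fun j hj => hQ (Finset.ne_of_mem_erase hj).symm
  refine ⟨b * ∏ j ∈ Finset.univ.erase i, Q j, fun j => ?_⟩
  by_cases e : i = j
  · subst e
    rw [if_pos rfl]
    exact ⟨-a, by linear_combination h⟩
  · rw [if_neg e, sub_zero]
    exact Dvd.dvd.mul_left (Finset.dvd_prod_of_mem Q
      (Finset.mem_erase.2 ⟨fun h => e h.symm, Finset.mem_univ _⟩)) b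

theorem exists_crt {N : ℕ} (P : Fin (N + 1) → ℚ[X]) (hP : Pairwise fun i j => IsCoprime (P i) (P j))
    (c : ℚ[X]) (hc : c ≠ 0) : ∃ π : Fin (N + 1) → ℚ[X],
      (∀ i j, c ∣ π i * π j - if i = j then π i else 0) ∧ c ∣ ∑ i, π i - 1 ∧
      ∀ i j, P j ∣ π i - if i = j then 1 else 0 := by
  obtain ⟨c0, r, h1, h2⟩ := split_YE (∏ i, P i) c hc
  let u : Fin (N + 1) → ℚ[X] := fun i => if i = 0 then c0 else 1
  let Q : Fin (N + 1) → ℚ[X] := fun i => u i * P i ^ (r + 1)
  have hu : ∀ i j, IsCoprime (u i) (P j) := fun i j => by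
    by_cases e : i = 0
    · simp only [u, if_pos e]
      exact h1.of_isCoprime_of_dvd_right (Finset.dvd_prod_of_mem P (Finset.mem_univ j))
    · simp only [u, if_neg e]
      exact isCoprime_one_left
  have hQ : Pairwise fun i j => IsCoprime (Q i) (Q j) := fun i j hij => by
    have huu : IsCoprime (u i) (u j) := by
      by_cases e : i = 0
      · have e' : j ≠ 0 := fun h => hij (e.trans h.symm)
        simp only [u, if_neg e']
        exact isCoprime_one_right
      · simp only [u, if_neg e]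
        exact isCoprime_one_left
    exact (huu.mul_right (hu i j).pow_right).mul_left
      ((hu j i).symm.pow_left.mul_right (hP hij).pow)
  have hd : ∀ z : ℚ[X], (∀ k, Q k ∣ z) → c ∣ z := fun z hz => by
    refine h2.trans (dvd_trans ?_ (Finset.prod_dvd_of_coprime (t := Finset.univ)
      (fun i _ j _ hij => hQ hij) fun k _ => hz k))
    have e : ∏ k, Q k = c0 * (∏ i, P i) ^ r * ∏ i, P i := by
      simp only [Q, u]
      rw [Finset.prod_mul_distrib, Finset.prod_ite_eq', if_pos (Finset.mem_univ _),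
        Finset.prod_pow]
      ring
    rw [e]
    exact dvd_mul_right _ _
  choose π hπ using crt_YE Q hQ
  refine ⟨π, fun i j => hd _ fun k => ?_, hd _ fun k => ?_, fun i j => ?_⟩
  · obtain ⟨s, hs⟩ := hπ i k
    obtain ⟨t, ht⟩ := hπ j k
    by_cases e : i = j
    · subst e
      rw [if_pos rfl]
      by_cases e' : i = k
      · rw [if_pos e'] at hs
        exact ⟨π i * s, by linear_combination π i * hs⟩
      · rw [if_neg e'] at hs
        exact ⟨s * (π i - 1), by linear_combination (π i - 1) * hs⟩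
    · rw [if_neg e]
      by_cases e' : i = k
      · rw [if_neg fun h => e (e'.trans h.symm)] at ht
        exact ⟨π i * t, by linear_combination π i * ht⟩
      · rw [if_neg e'] at hs
        exact ⟨s * π j, by linear_combination π j * hs⟩
  · have e : ∑ i, π i - 1 = ∑ i, (π i - if i = k then 1 else 0) := by
      rw [Finset.sum_sub_distrib, Finset.sum_ite_eq', if_pos (Finset.mem_univ _)]
    rw [e]
    exact Finset.dvd_sum fun i _ => hπ i k
  · exact dvd_trans (Dvd.dvd.mul_left (dvd_pow_self _ (Nat.succ_ne_zero r)) _) (hπ i j)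

end Pool.Agent.P.MP_1bf4cb_ag
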