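import Pool.Agent.P.MP_1bf4cb_ag.XF
import Pool.Agent.P.MP_1bf4cb_ag.XH
import Pool.Agent.P.MP_1bf4cb_ag.XJ
import Pool.Agent.P.MP_1bf4cb_ag.YD
import Pool.Agent.P.MP_1bf4cb_ag.YE

set_option autoImplicit false
set_option linter.unusedSectionVars false
set_option linter.unusedVariables false

open Function Matrix
open scoped TensorProduct

noncomputable section

namespace Pool.Agent.P.MP_1bf4cb_ag

theorem fg_graph {k : Type} [Field k] (𝒟 : Dat k) :
    ∃ H : AddSubgroup (G0 (Crd k 𝒟.n 𝒟.q 𝒟.E)), H.FG ∧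
      ∀ b : ℕ, cyc (graph (𝒟.q ^ (2 * b)) (univ k 𝒟.n 𝒟.q 𝒟.E)) ∈ H := by
  classical
  set R := Crd k 𝒟.n 𝒟.q 𝒟.E with hR
  have hx := rep_crd 𝒟
  set x : Pt 𝒟 R := ⟨univ k 𝒟.n 𝒟.q 𝒟.E, fun _ => 1⟩ with hxdef
  have := hx.noeth
  obtain ⟨U, _, _, y, hy⟩ := exists_rep (𝒟 := 𝒟) fun _ => none
  have hU : Cell U := cell_of_all cell_all U y hy
  let D := MvPolynomial (Fin (𝒟.d + 1) × Fin 𝒟.n × Fin 𝒟.n) R
  let s : D := ∏ c, (gfr (𝒟 := 𝒟) R c).det
  let L := Localization.Away s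
  let g : Fin (𝒟.d + 1) → Mt 𝒟.n L := fun c => (gfr R c).map (algebraMap D L)
  have hs : IsUnit (algebraMap D L s) := IsLocalization.Away.algebraMap_isUnit s
  have hg : ∀ c, IsUnit (g c).det := fun c => by
    have h1 : (g c).det = algebraMap D L (gfr (𝒟 := 𝒟) R c).det :=
      (RingHom.map_det (algebraMap D L) _).symm
    rw [h1]
    exact isUnit_of_dvd_unit (map_dvd _ (Finset.dvd_prod_of_mem
      (fun c => (gfr (𝒟 := 𝒟) R c).det) (Finset.mem_univ c))) hs
  let h : Fin (𝒟.d + 1) → Mt 𝒟.n L := fun c => (g c)⁻¹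
  have hi : Inv g h := fun c => ⟨mul_nonsing_inv _ (hg c), nonsing_inv_mul _ (hg c)⟩
  have hi' : Inv h g := fun c => (hi c).symm
  let ι : R →+* L := (algebraMap D L).comp MvPolynomial.C
  have h1 : Sat1 (x.map ι) := hx.sat.map ι
  obtain ⟨ψ, hψ⟩ := hy.univ L (act h g (x.map ι))
    ⟨sat0_act h1.base hi', fun v I hv => by cases hv⟩
  let : Algebra U L := (ψ : U →+* L).toAlgebra
  have : IsScalarTower k U L := IsScalarTower.of_algebraMap_eq fun c => (ψ.commutes c).symm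
  have : Module.Flat U L := flat_lang hx hy (fun c => rfl) hi hψ
  have he : MvPolynomial.eval (fun v : Fin (𝒟.d + 1) × Fin 𝒟.n × Fin 𝒟.n =>
      (1 : Mt 𝒟.n R) v.2.1 v.2.2) s = 1 := by
    rw [map_prod]
    refine Finset.prod_eq_one fun c _ => ?_
    rw [RingHom.map_det]
    have : (MvPolynomial.eval (fun v : Fin (𝒟.d + 1) × Fin 𝒟.n × Fin 𝒟.n =>
        (1 : Mt 𝒟.n R) v.2.1 v.2.2)).mapMatrix (gfr (𝒟 := 𝒟) R c) = 1 := by
      ext a b
      simp [gfr]
    rw [this, det_one]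
  obtain ⟨H, hH, hm⟩ := key (L := L) _ s he hU
  refine ⟨H, hH, fun b => hm _ ⟨(graph (𝒟.q ^ (2 * b)) (x.map ι).e).comap (ψ : U →+* L), ?_⟩⟩
  rw [Ideal.map_map, graph_map]
  exact graph_ext (ψ : U →+* L) y hi h1.one hψ b

theorem add_pow_card (k : Type) [Field k] (p : ℕ) [hp : Fact p.Prime] [CharP k p] (r : ℕ)
    (C : Type) [CommRing C] [Algebra k C] (x y : C) : (x + y) ^ p ^ r = x ^ p ^ r + y ^ p ^ r := by
  cases subsingleton_or_nontrivial C with
  | inl h => exact Subsingleton.elim _ _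
  | inr h =>
    have : CharP C p := charP_of_injective_algebraMap (algebraMap k C).injective p
    exact add_pow_char_pow x y p r

/-- the data attached to the parameters -/
def dat (k : Type) [Field k] (p e : ℕ) [hp : Fact p.Prime] [CharP k p] (he : 0 < e) (n m d : ℕ)
    (E : Fin (d + 1) → Fin m → Fin m → Prop) : Dat k :=
  ⟨n, m, d, p ^ e, E, Nat.one_lt_pow he.ne' hp.out.one_lt, add_pow_card k p e⟩

theorem not_indep (k : Type) [Field k] [Finite k] (p e : ℕ) [CharP k p] (he : 0 < e) (n m d : ℕ)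
    (E : Fin (d + 1) → Fin m → Fin m → Prop) :
    ¬ LinearIndependent ℤ fun a : ℕ => cyc (graph (Nat.card k ^ a) (univ k n (p ^ e) E)) := by
  have hp : Fact p.Prime := ⟨CharP.char_is_prime k p⟩
  cases nonempty_fintype k
  obtain ⟨f, -, hf⟩ := FiniteField.card k p
  obtain ⟨H, hH, hm⟩ := fg_graph (dat k p e he n m d E)
  refine dep hH (ι := fun j => 2 * e * j) (mul_right_injective₀ (by omega)) fun j => ?_
  have h1 : Nat.card k ^ (2 * e * j) = (p ^ e) ^ (2 * (f * j)) := by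
    rw [Nat.card_eq_fintype_card, hf, ← pow_mul, ← pow_mul]
    congr 1
    ring
  rw [h1]
  exact hm (f * j)

theorem graph_shift {A : Type} [CommRing A] {d m n : ℕ} (φ : A →+* A) (Q a : ℕ)
    (u : Ix d m → Mt n A) (h0 : ∀ c i, (u (false, c, i)).map φ = (u (false, c, i)).map (· ^ Q))
    (h1 : ∀ c i, (u (true, c, i)).map φ = u (true, c, i)) :
    (graph (Q ^ a) u).map φ = graph (Q ^ (a + 1)) u := by
  rw [graph_map]
  unfold graph
  congr 1
  ext Z
  refine exists_congr fun c => exists_congr fun i => ?_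
  have e2 : ((u (false, c, i)).map φ).map (· ^ Q ^ a) = (u (false, c, i)).map (· ^ Q ^ (a + 1)) := by
    rw [h0]
    ext s t
    simp only [Matrix.map_apply]
    rw [← pow_mul, ← pow_succ']
  simp only [e2, h1]

theorem main (k : Type) [Field k] [Finite k] (p e : ℕ) [CharP k p] (he : 0 < e) (n m d : ℕ)
    (E : Fin (d + 1) → Fin m → Fin m → Prop) (N : ℕ) (P : Fin (N + 1) → Polynomial ℚ)
    (hP : Pairwise fun i j => IsCoprime (P i) (P j)) :
    ∃ π : Fin (N + 1) → Polynomial ℚ, (∀ i j, P j ∣ π i - if i = j then 1 else 0) ∧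
      (∀ i j, ev (Nat.card k) (univ k n (p ^ e) E) (π i * π j) =
        if i = j then ev (Nat.card k) (univ k n (p ^ e) E) (π i) else 0) ∧
      ∑ i, ev (Nat.card k) (univ k n (p ^ e) E) (π i) = ev (Nat.card k) (univ k n (p ^ e) E) 1 := by
  have hp : Fact p.Prime := ⟨CharP.char_is_prime k p⟩
  have hd := not_indep k p e he n m d E
  cases nonempty_fintype k
  obtain ⟨f, -, hf⟩ := FiniteField.card k p
  rw [← Nat.card_eq_fintype_card] at hf
  have hadd : ∀ (C : Type) [CommRing C] [Algebra k C] (x y : C),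
      (x + y) ^ Nat.card k = x ^ Nat.card k + y ^ Nat.card k := fun C _ _ x y => by
    rw [hf]
    exact add_pow_card k p f C x y
  have := (rep_crd (dat k p e he n m d E)).noeth
  obtain ⟨φ, hφ, h0, h1⟩ := flat_frob (dat k p e he n m d E) (Nat.card k) Nat.card_pos hadd
  obtain ⟨Φ, hΦ⟩ := exists_shift φ hφ
  obtain ⟨c, hc, hann⟩ := exists_ann Φ
    (fun a : ℕ => cyc (graph (Nat.card k ^ a) (univ k n (p ^ e) E))) (fun a => by
      refine (hΦ _).trans (congrArg cyc ?_)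
      exact graph_shift φ _ a _ h0 h1) hd
  obtain ⟨π, h2, h3, h4⟩ := exists_crt P hP c hc
  let ℓ : Polynomial ℚ →+ ℚ ⊗[ℤ] G0 (Crd k n (p ^ e) E) :=
    { toFun := ev (Nat.card k) (univ k n (p ^ e) E)
      map_zero' := Polynomial.sum_zero_index _
      map_add' := fun f g => Polynomial.sum_add_index f g _ (fun _ => TensorProduct.zero_tmul _ _)
        fun _ _ _ => TensorProduct.add_tmul _ _ _ }
  have hz : ∀ u v : Polynomial ℚ, c ∣ u - v → ℓ u = ℓ v := by
    rintro u v ⟨w, hw⟩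
    rw [← sub_eq_zero, ← map_sub, hw]
    exact hann w
  refine ⟨π, h4, fun i j => ?_, ?_⟩
  · have := hz _ _ (h2 i j)
    split_ifs at this ⊢
    · exact this
    · exact this.trans (map_zero ℓ)
  · exact (map_sum ℓ π Finset.univ).symm.trans (hz _ _ h3)

end Pool.Agent.P.MP_1bf4cb_ag
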