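import Pool.Agent.P.MP_1bf4cb_ag.NsA

/-! Block triangular subgroups of the special linear group: equations, smoothness, charts. -/

namespace Pool.Agent.P.MP_1bf4cb_ag.RG.In

open Matrix Equiv MvPolynomial

variable {k : Type} [Field k] {n r : ℕ} {C : Type} [CommRing C]

/-- The generic matrix. -/
noncomputable def gX (k : Type) [Field k] (n : ℕ) : Mx n (Pn k n) :=
  Matrix.of fun a b => X (a, b)

/-- The equations of block triangular matrices of determinant one. -/
def eqs (k : Type) [Field k] (β : Fin n → ℕ) : Set (Pn k n) :=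
  {f | f = (gX k n).det - 1 ∨ ∃ a b, β b < β a ∧ f = X (a, b)}

/-- Evaluation at a matrix as a ring map. -/
noncomputable def vlR (k : Type) [Field k] [Algebra k C] (g : Mx n C) : Pn k n →+* C :=
  (aeval (fun ab : Fin n × Fin n => g ab.1 ab.2) : Pn k n →ₐ[k] C)

lemma vl_eq [Algebra k C] (g : Mx n C) : vl g = vlR k g := rfl

lemma gX_map [Algebra k C] (g : Mx n C) : (gX k n).map (vlR k g) = g := by
  ext a b; simp [gX, vlR]

lemma sol_eqs [Algebra k C] {β : Fin n → ℕ} {g : Mx n C} :
    Sol (eqs k β) g ↔ g.det = 1 ∧ g.BlockTriangular β := by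
  have h0 : vl g ((gX k n).det - 1) = g.det - 1 := by
    rw [vl_eq, map_sub, RingHom.map_det, map_one, RingHom.mapMatrix_apply, gX_map]
  refine ⟨fun h => ⟨?_, fun a b hab => ?_⟩, fun h f hf => ?_⟩
  · exact sub_eq_zero.1 (h0 ▸ h _ (Or.inl rfl))
  · simpa [vl] using h _ (Or.inr ⟨a, b, hab, rfl⟩)
  · rcases hf with rfl | ⟨a, b, hab, rfl⟩
    · rw [h0, h.1, sub_self]
    · simpa [vl] using h.2 hab

lemma inv_tri {α : Type} [LinearOrder α] {β : Fin n → α} {b : Mx n C} (hb : b.BlockTriangular β)
    (hd : IsUnit b.det) : b⁻¹.BlockTriangular β := by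
  let _ := invertibleOfIsUnitDet b hd
  exact blockTriangular_inv_of_blockTriangular hb

lemma adj_eq {h : Mx n C} (hd : h.det = 1) : h.adjugate = h⁻¹ := by
  rw [Matrix.inv_def, hd, Ring.inverse_one, one_smul]

lemma det_adj {h : Mx n C} (hd : h.det = 1) : h.adjugate.det = 1 := by
  have := congrArg det (mul_adjugate h)
  simpa [hd] using this

lemma adj_tri {α : Type} [LinearOrder α] {β : Fin n → α} {b : Mx n C} (hb : b.BlockTriangular β)
    (hd : b.det = 1) : b.adjugate.BlockTriangular β :=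
  adj_eq hd ▸ inv_tri hb (by simp [hd])

lemma grp_eqs (β : Fin n → ℕ) : Grp (eqs k β) := fun C _ _ =>
  ⟨sol_eqs.2 ⟨det_one, blockTriangular_one⟩, fun g h hg hh => by
    rw [sol_eqs] at hg hh ⊢
    exact ⟨hg.1, by rw [det_mul, hg.1, det_adj hh.1, one_mul], hg.2.mul (adj_tri hh.2 hh.1)⟩⟩

lemma eqs_fin (β : Fin n → ℕ) : (eqs k β).Finite := by
  refine ((Set.finite_range fun ab : Fin n × Fin n => (X ab : Pn k n)).insert
    ((gX k n).det - 1)).subset ?_
  rintro f (rfl | ⟨a, b, -, rfl⟩)
  · exact Or.inl rfl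
  · exact Or.inr ⟨_, rfl⟩

/-- The diagonal matrix with first entry `s` and other entries one. -/
def dg (r : ℕ) (s : C) : Mx (r + 1) C := diagonal (Function.update 1 0 s)

lemma det_dg (s : C) : (dg r s).det = s := by
  rw [dg, det_diagonal, Finset.prod_update_of_mem (Finset.mem_univ _)]
  simp

lemma dg_tri {α : Type} [Preorder α] (β : Fin (r + 1) → α) (s : C) :
    (dg r s).BlockTriangular β := blockTriangular_diagonal _

lemma dg_map {C' : Type} [CommRing C'] (φ : C →+* C') (s : C) :
    (dg r s).map φ = dg r (φ s) := by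
  rw [dg, dg, diagonal_map (map_zero φ)]
  congr 1
  ext a
  by_cases h : a = 0 <;> simp [h]

lemma dg_one : dg r (1 : C) = 1 := by simp [dg]

lemma dg_mul (s t : C) : dg r s * dg r t = dg r (s * t) := by
  rw [dg, dg, dg, diagonal_mul_diagonal]
  congr 1
  ext a
  by_cases h : a = 0 <;> simp [h]

lemma smooth_eqs (β : Fin (r + 1) → ℕ) :
    Algebra.Smooth k (Pn k (r + 1) ⧸ Ideal.span (eqs k β)) := by
  refine ⟨Algebra.FormallySmooth.of_comp_surjective fun B _ _ I hI f => ?_,
    Algebra.FinitePresentation.quotient (Submodule.fg_span (eqs_fin β))⟩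
  let g : Mx (r + 1) (B ⧸ I) := Matrix.of fun a b => f (Ideal.Quotient.mk _ (X (a, b)))
  have h1 : ∀ x, vl g x = f (Ideal.Quotient.mk _ x) := fun x => by
    have : (aeval (fun ab : Fin (r + 1) × Fin (r + 1) => g ab.1 ab.2) : Pn k (r + 1) →ₐ[k] B ⧸ I)
        = f.comp (Ideal.Quotient.mkₐ k _) := MvPolynomial.algHom_ext fun ab => by simp [g]
    exact DFunLike.congr_fun this x
  have h2 : Sol (eqs k β) g := fun x hx => by
    rw [h1, Ideal.Quotient.eq_zero_iff_mem.2 (Ideal.subset_span hx), map_zero]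
  rw [sol_eqs] at h2
  choose s hs using Ideal.Quotient.mk_surjective (I := I)
  let m : Mx (r + 1) B := Matrix.of fun a b => if β b < β a then 0 else s (g a b)
  have h3 : m.map (Ideal.Quotient.mk I) = g := by
    ext a b
    by_cases h : β b < β a
    · simp [m, h, h2.2 h]
    · simp [m, h, hs]
  have h4 : Ideal.Quotient.mk I m.det = 1 := by
    rw [RingHom.map_det, RingHom.mapMatrix_apply, h3, h2.1]
  have h5 : (m.det - 1) ^ 2 = 0 := by
    have : m.det - 1 ∈ I := Ideal.Quotient.eq_zero_iff_mem.1 (by rw [map_sub, h4, map_one, sub_self])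
    simpa [hI] using Ideal.pow_mem_pow this 2
  have h6 : Sol (eqs k β) (dg r (2 - m.det) * m) := sol_eqs.2
    ⟨by rw [det_mul, det_dg]; linear_combination -h5,
      (dg_tri β _).mul fun a b h => by simp [m, show β b < β a from h]⟩
  have h7 : (dg r (2 - m.det) * m).map (Ideal.Quotient.mk I) = g := by
    rw [Matrix.map_mul, dg_map, map_sub, h4, map_ofNat, h3,
      show (2 - 1 : B ⧸ I) = 1 by norm_num, dg_one, one_mul]
  generalize dg r (2 - m.det) * m = m' at h6 h7
  have h8 : ∀ x ∈ Ideal.span (eqs k β), aeval (fun ab => m' ab.1 ab.2) x = 0 := fun x hx =>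
    (Ideal.span_le (I := RingHom.ker (vlR k m'))).2 h6 hx
  refine ⟨Ideal.Quotient.liftₐ _ _ h8, Ideal.Quotient.algHom_ext _ ?_⟩
  rw [AlgHom.comp_assoc, Ideal.Quotient.liftₐ_comp]
  exact MvPolynomial.algHom_ext fun ab => by simpa [g] using congrFun (congrFun h7 ab.1) ab.2

/-- The generic matrix that agrees with the identity outside `S`. -/
noncomputable def gU (k : Type) [Field k] (S : Fin n → Fin n → Prop) [DecidableRel S] :
    Mx n (MvPolynomial (Fin (Fintype.card {p : Fin n × Fin n // S p.1 p.2})) k) :=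
  Matrix.of fun a b => if h : S a b then X (Fintype.equivFin _ (⟨(a, b), h⟩ :
    {p : Fin n × Fin n // S p.1 p.2})) else (1 : Mx n _) a b

/-- The matrix agrees with the identity outside `S`. -/
def Off (S : Fin n → Fin n → Prop) (m : Mx n C) : Prop := ∀ a b, ¬ S a b → m a b = (1 : Mx n C) a b

lemma gU_bij [Algebra k C] (S : Fin n → Fin n → Prop) [DecidableRel S] :
    Set.BijOn (fun x : Fin _ → C => (gU k S).map (aeval x)) Set.univ {m | Off S m} := by
  refine ⟨fun x _ a b h => ?_, fun x _ y _ h => funext fun i => ?_, fun m hm => ?_⟩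
  · simp [gU, h, one_apply, apply_ite (aeval _)]
  · obtain ⟨⟨⟨a, b⟩, hab⟩, rfl⟩ := (Fintype.equivFin _).surjective i
    simpa [gU, show S a b from hab] using congrFun (congrFun h a) b
  · refine ⟨fun i => m ((Fintype.equivFin _).symm i).1.1 ((Fintype.equivFin _).symm i).1.2,
      trivial, ?_⟩
    ext a b
    by_cases h : S a b
    · simp [gU, h]
    · simp [gU, h, hm a b h, one_apply, apply_ite (aeval _)]

lemma Off.tri {S : Fin n → Fin n → Prop} {m : Mx n C} (h : Off S m) (hS : ∀ a b, S a b → a < b) :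
    m.IsUpperTriangular ∧ m.det = 1 ∧ ∀ a, m a a = 1 := by
  have h1 : m.IsUpperTriangular := fun a b hab => by
    have h2 : b < a := hab
    rw [h a b fun h3 => absurd (hS a b h3) (not_lt.2 h2.le), one_apply_ne h2.ne']
  have h2 : ∀ a, m a a = 1 := fun a => by rw [h a a fun h3 => absurd (hS a a h3) (lt_irrefl a), one_apply_eq]
  exact ⟨h1, by simp [det_of_isUpperTriangular h1, h2], h2⟩

/-- The weights of the diagonal torus of the special linear group. -/
def wts (r : ℕ) : Fin (r + 1) → Fin r → ℤ := Fin.cons (fun _ => -1) fun a => Pi.single a 1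

lemma wts_span : AddSubgroup.closure (Set.range (wts r)) = ⊤ := by
  refine eq_top_iff.2 fun x _ => ?_
  rw [← Finset.univ_sum_single x]
  refine sum_mem fun a _ => ?_
  have : Pi.single a (x a) = x a • wts r a.succ := by
    ext b
    by_cases h : b = a <;> simp [wts, h]
  rw [this]
  exact zsmul_mem (AddSubgroup.subset_closure (Set.mem_range_self _)) _

lemma wts_succ (t : Fin r → Cˣ) (a : Fin r) : ∏ i, t i ^ wts r a.succ i = t a := by
  rw [Finset.prod_eq_single a (fun b _ h => by simp [wts, h]) (by simp)]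
  simp [wts]

lemma wts_zero (t : Fin r → Cˣ) : ∏ i, t i ^ wts r 0 i = (∏ i, t i)⁻¹ := by
  simp [wts]

lemma bor_bij : Set.BijOn (fun x : Mx (r + 1) C × (Fin r → Cˣ) =>
      x.1 * diagonal fun a => ((∏ i, x.2 i ^ wts r a i : Cˣ) : C))
    {x | Off (· < ·) x.1} {g | g.det = 1 ∧ g.IsUpperTriangular} := by
  refine ⟨fun x hx => ?_, fun x hx y hy h => ?_, fun g hg => ?_⟩
  · obtain ⟨h1, h2, -⟩ := Off.tri hx fun _ _ h => h
    refine ⟨?_, h1.mul (blockTriangular_diagonal _)⟩
    rw [det_mul, h2, det_diagonal, ← Units.coe_prod, Fin.prod_univ_succ, wts_zero]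
    simp [wts_succ]
  · have h1 : ∀ a, (∏ i, x.2 i ^ wts r a i) = ∏ i, y.2 i ^ wts r a i := fun a => by
      have := congrFun (congrFun h a) a
      simp only [mul_diagonal, (Off.tri hx fun _ _ h => h).2.2, (Off.tri hy fun _ _ h => h).2.2,
        one_mul] at this
      exact Units.ext this
    refine Prod.ext ?_ (funext fun a => by simpa [wts_succ] using h1 a.succ)
    ext a b
    have := congrFun (congrFun h a) b
    simp only [mul_diagonal, h1] at this
    exact (Units.mul_left_inj _).1 this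
  · choose u hu using diag_unit hg.2 (by simp [hg.1])
    have h1 : ∀ a, (∏ i, u (Fin.succ i) ^ wts r a i) = u a := by
      refine Fin.cases ?_ fun a => wts_succ _ a
      have := hg.1
      rw [det_of_isUpperTriangular hg.2] at this
      simp only [← hu, ← Units.coe_prod, Units.val_eq_one, Fin.prod_univ_succ] at this
      rw [wts_zero, eq_inv_of_mul_eq_one_left this]
    refine ⟨(Matrix.of fun a b => g a b * ↑(u b)⁻¹, fun i => u i.succ), fun a b h => ?_, ?_⟩
    · rcases (not_lt.1 h).eq_or_lt with rfl | h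
      · simp [← hu]
      · simp [hg.2 h, one_apply_ne h.ne']
    · ext a b
      simp [h1]

end Pool.Agent.P.MP_1bf4cb_ag.RG.In
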