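import Pool.Agent.P.MP_1bf4cb_ag.NsB

/-! Bruhat cells and double cosets in the special linear group. -/

namespace Pool.Agent.P.MP_1bf4cb_ag.RG.In

open Matrix Equiv MvPolynomial Pointwise

variable {k : Type} [Field k] {n r : ℕ} {C : Type} [CommRing C]

/-- The permutation matrix with entry one in row `σ a` of column `a`. -/
def Pm (C : Type) [CommRing C] (σ : Perm (Fin n)) : Mx n C := (1 : Mx n C).submatrix id σ

lemma mul_Pm (c : Mx n C) (σ : Perm (Fin n)) (i a : Fin n) : (c * Pm C σ) i a = c i (σ a) := by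
  simp [Pm, mul_apply, one_apply]

lemma Pm_mul (c : Mx n C) (σ : Perm (Fin n)) (a b : Fin n) : (Pm C σ * c) (σ a) b = c a b := by
  simp [Pm, mul_apply, one_apply]

lemma det_Pm (σ : Perm (Fin n)) : (Pm C σ).det = Perm.sign σ := by
  simp [Pm, det_permute']

lemma Pm_map {C' : Type} [CommRing C'] (φ : C →+* C') (σ : Perm (Fin n)) :
    (Pm C σ).map φ = Pm C' σ := by
  ext a b; simp [Pm, one_apply, apply_ite φ]

lemma sign_sq (σ : Perm (Fin n)) : ((Perm.sign σ : ℤ) : C) * (Perm.sign σ : ℤ) = 1 := by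
  rw [← Int.cast_mul, ← Units.val_mul, Int.units_mul_self]; simp

/-- The representative of determinant one of a permutation. -/
def Wm (C : Type) [CommRing C] (σ : Perm (Fin (r + 1))) : Mx (r + 1) C :=
  Pm C σ * dg r ((Perm.sign σ : ℤ) : C)

lemma det_Wm (σ : Perm (Fin (r + 1))) : (Wm C σ).det = 1 := by
  rw [Wm, det_mul, det_Pm, det_dg, sign_sq]

lemma Wm_map {C' : Type} [CommRing C'] (φ : C →+* C') (σ : Perm (Fin (r + 1))) :
    (Wm C σ).map φ = Wm C' σ := by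
  rw [Wm, Wm, Matrix.map_mul, Pm_map, dg_map, map_intCast]

/-- The inversions of a permutation. -/
def Iv (σ : Perm (Fin n)) (a b : Fin n) : Prop := a < b ∧ σ.symm b < σ.symm a

instance (σ : Perm (Fin n)) : DecidableRel (Iv σ) := fun _ _ => by unfold Iv; infer_instance

lemma Off.piv {σ : Perm (Fin n)} {c : Mx n C} (h : Off (Iv σ) c) : Piv σ n (c * Pm C σ) :=
  fun a _ => ⟨by rw [mul_Pm, (h.tri fun _ _ h => h.1).2.2], fun b hb => by
    rw [mul_Pm, h _ _ fun h2 => absurd h2.2 (by simpa using hb.le),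
      one_apply_ne (σ.injective.ne hb.ne)]⟩

lemma cell_bij (σ : Perm (Fin (r + 1))) :
    Set.BijOn (fun x : Mx (r + 1) C × Mx (r + 1) C => x.1 * Wm C σ * x.2)
      {x | Off (Iv σ) x.1 ∧ x.2.det = 1 ∧ x.2.IsUpperTriangular}
      {g | g.det = 1 ∧ (∀ x ∈ Mn σ g, x = 0) ∧ ∀ τ, Lt τ σ → Ideal.span (Mn τ g) = ⊤} := by
  have key : ∀ x : Mx (r + 1) C × Mx (r + 1) C,
      Off (Iv σ) x.1 ∧ x.2.det = 1 ∧ x.2.IsUpperTriangular → (x.1 * Wm C σ * x.2).det = 1 ∧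
        ∀ j, ∃ u : Cˣ, ∀ i, Dm σ j i (x.1 * Wm C σ * x.2) = x.1 i (σ j) * u := fun x hx => by
    refine ⟨by rw [det_mul, det_mul, (hx.1.tri fun _ _ h => h.1).2.1, det_Wm, hx.2.1]; simp,
      fun j => ?_⟩
    have h1 : (dg r ((Perm.sign σ : ℤ) : C) * x.2).IsUpperTriangular := (dg_tri _ _).mul hx.2.2
    obtain ⟨u, hu⟩ := cor_unit j h1 (by
      rw [det_mul, det_dg, hx.2.1, mul_one]; exact IsUnit.of_mul_eq_one _ (sign_sq σ))
    refine ⟨u, fun i => ?_⟩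
    rw [Wm, ← mul_assoc, mul_assoc _ (dg _ _), Dm_mul _ _ _ _ h1,
      Dm_piv fun a _ => hx.1.piv a a.2, mul_Pm, hu]
  refine ⟨fun x hx => ?_, fun x hx y hy h => ?_, fun g hg => ?_⟩
  · obtain ⟨h1, h2⟩ := key x hx
    have h3 : ∀ y ∈ Mn σ (x.1 * Wm C σ * x.2), y = 0 := by
      rintro _ ⟨j, i, h4, -, rfl⟩
      obtain ⟨u, hu⟩ := h2 j
      rw [hu, (hx.1.tri fun _ _ h => h.1).1 h4, zero_mul]
    refine ⟨h1, h3, (piv_iff (by simp [h1]) h3).2 fun j => ?_⟩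
    obtain ⟨u, hu⟩ := h2 j
    rw [hu, (hx.1.tri fun _ _ h => h.1).2.2, one_mul]
    exact u.isUnit
  · have h1 : x.1 = y.1 := by
      ext i a
      obtain ⟨j, rfl⟩ := σ.surjective a
      obtain ⟨u, hu⟩ := (key x hx).2 j
      obtain ⟨v, hv⟩ := (key y hy).2 j
      have h2 : ∀ i, x.1 i (σ j) * u = y.1 i (σ j) * v := fun i => by
        rw [← hu, ← hv, show x.1 * Wm C σ * x.2 = y.1 * Wm C σ * y.2 from h]
      have h3 := h2 (σ j)
      rw [(hx.1.tri fun _ _ h => h.1).2.2, (hy.1.tri fun _ _ h => h.1).2.2, one_mul, one_mul] at h3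
      exact (Units.mul_left_inj u).1 (by rw [h2, h3])
    refine Prod.ext h1 ?_
    have h2 : IsUnit (y.1 * Wm C σ) := (isUnit_iff_isUnit_det _).2 (by
      rw [det_mul, (hy.1.tri fun _ _ h => h.1).2.1, det_Wm]; simp)
    exact h2.mul_left_cancel (by simpa only [h1] using h)
  · obtain ⟨m, b, rfl, h1, h2, h3⟩ := fac_ring ((piv_iff (by simp [hg.1]) hg.2.1).1 hg.2.2)
    have h4 : Off (Iv σ) (m.submatrix id σ.symm) := fun a c h => by
      obtain ⟨a, rfl⟩ := σ.surjective a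
      obtain ⟨j, rfl⟩ := σ.surjective c
      simp only [Iv, symm_apply_apply, submatrix_apply, id, not_and] at h ⊢
      rcases lt_trichotomy a j with h5 | rfl | h5
      · rw [(h3 a a.2).2 j h5, one_apply_ne (σ.injective.ne h5.ne)]
      · rw [(h3 a a.2).1, one_apply_eq]
      · have h6 : σ j < σ a := lt_of_le_of_ne (not_lt.1 fun h6 => h h6 h5) (σ.injective.ne h5.ne)
        have h7 := hg.2.1 _ ⟨j, σ a, h6, by simpa using h5, rfl⟩
        rw [Dm_mul _ _ _ _ h1, Dm_piv fun a _ => h3 a a.2] at h7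
        rw [(cor_unit j h1 h2).mul_left_eq_zero.1 h7, one_apply_ne h6.ne']
    have h5 : m.submatrix id σ.symm * Wm C σ * (dg r ((Perm.sign σ : ℤ) : C) * b) = m * b := by
      rw [Wm, ← mul_assoc (m.submatrix id σ.symm), mul_assoc _ (dg _ _), ← mul_assoc (dg _ _),
        dg_mul, sign_sq, dg_one, one_mul]
      congr 1
      ext i a
      simp [mul_Pm]
    refine ⟨(m.submatrix id σ.symm, dg r ((Perm.sign σ : ℤ) : C) * b),
      ⟨h4, ?_, (dg_tri _ _).mul h1⟩, h5⟩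
    have h6 := hg.1
    rwa [← h5, det_mul, det_mul, (h4.tri fun _ _ h => h.1).2.1, det_Wm, one_mul, one_mul] at h6

/-- The products of the minors of the first cells. -/
def Zr (en : ℕ → Perm (Fin n)) (g : Mx n C) : ℕ → Set C
  | 0 => {1}
  | j + 1 => Zr en g j * Mn (en j) g

lemma Mn_map {C' : Type} [CommRing C'] (φ : C →+* C') (σ : Perm (Fin n)) (g : Mx n C) :
    φ '' Mn σ g = Mn σ (g.map φ) := by
  ext x
  constructor
  · rintro ⟨_, ⟨j, i, h1, h2, rfl⟩, rfl⟩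
    exact ⟨j, i, h1, h2, Dm_map ..⟩
  · rintro ⟨j, i, h1, h2, rfl⟩
    exact ⟨_, ⟨j, i, h1, h2, rfl⟩, Dm_map ..⟩

lemma Zr_map {C' : Type} [CommRing C'] (φ : C →+* C') (en : ℕ → Perm (Fin n)) (g : Mx n C)
    (j : ℕ) : φ '' Zr en g j = Zr en (g.map φ) j := by
  induction j with
  | zero => simp [Zr]
  | succ j ih => rw [Zr, Zr, Set.image_mul, ih, Mn_map]

lemma Zr_top (en : ℕ → Perm (Fin n)) (g : Mx n C) (j : ℕ) :
    Ideal.span (Zr en g j) = ⊤ ↔ ∀ i < j, Ideal.span (Mn (en i) g) = ⊤ := by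
  induction j with
  | zero => simp [Zr]
  | succ j ih =>
    rw [Zr, ← Ideal.span_mul_span', Nat.forall_lt_succ_right, ← ih]
    exact ⟨fun h => ⟨top_le_iff.1 (h.ge.trans Ideal.mul_le_left),
      top_le_iff.1 (h.ge.trans Ideal.mul_le_right)⟩,
      fun h => by rw [h.1, h.2, Ideal.top_mul]⟩

lemma Zr_zero {en : ℕ → Perm (Fin n)} {g : Mx n C} {j : ℕ} (h : Ideal.span (Zr en g j) = ⊤) :
    (∀ x ∈ Zr en g (j + 1), x = 0) ↔ ∀ x ∈ Mn (en j) g, x = 0 := by
  refine ⟨fun h1 x hx => ?_, ?_⟩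
  · have : Ideal.span (Zr en g j) ≤ LinearMap.ker (LinearMap.toSpanSingleton C C x) :=
      Ideal.span_le.2 fun z hz => h1 _ (Set.mul_mem_mul hz hx)
    exact (one_mul x).symm.trans (this (h ▸ Submodule.mem_top (x := (1 : C))))
  · rintro h1 _ ⟨z, -, x, hx, rfl⟩
    simp [h1 x hx]

lemma exists_en (n : ℕ) : ∃ (M : ℕ) (en : ℕ → Perm (Fin n)),
    (∀ j < M + 1, ∀ τ, Lt τ (en j) ↔ ∃ i < j, τ = en i) ∧ ∀ τ, ¬ Lt (en M) τ := by
  let _ := lexP n
  obtain ⟨M, hM⟩ : ∃ M, Fintype.card (Perm (Fin n)) = M + 1 :=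
    Nat.exists_eq_succ_of_ne_zero Fintype.card_ne_zero
  let e := monoEquivOfFin _ hM
  refine ⟨M, fun j => if h : j < M + 1 then e ⟨j, h⟩ else 1, fun j hj τ => ?_, fun τ h => ?_⟩
  · obtain ⟨i, rfl⟩ := e.surjective τ
    simp only [← lexP_lt, dif_pos hj]
    refine e.lt_iff_lt.trans ⟨fun h => ⟨i, h, by rw [dif_pos i.2]⟩, ?_⟩
    rintro ⟨i', h1, h2⟩
    rw [dif_pos (h1.trans hj)] at h2
    rw [e.injective h2]
    exact h1
  · obtain ⟨i, rfl⟩ := e.surjective τ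
    simp only [← lexP_lt, dif_pos M.lt_succ_self] at h
    exact absurd (e.lt_iff_lt.1 h) (not_lt.2 (Nat.lt_succ_iff.1 i.2))

lemma fac_three {g : Mx n k} (h : g.det = 1) : ∃ (σ : Perm (Fin n)) (c b : Mx n k),
    g = c * Pm k σ * b ∧ c.IsUpperTriangular ∧ IsUnit c.det ∧ b.IsUpperTriangular ∧
      IsUnit b.det := by
  obtain ⟨σ, m, b, rfl, h1, h2, h3, h4⟩ := fac_field (g := g) (by simp [h])
  have h5 : m.submatrix id σ.symm * Pm k σ = m := by
    ext i a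
    simp [mul_Pm]
  refine ⟨σ, m.submatrix id σ.symm, b, by rw [h5], fun a c hc => h4 _ _ (by simpa using hc), ?_,
    h1, h2⟩
  rw [← h5, det_mul, det_mul, mul_assoc] at h
  exact IsUnit.of_mul_eq_one _ h

lemma dbl_eqs {β : Fin (r + 1) → ℕ} (hβ : Monotone β) {x y : Mx (r + 1) k} (hx : x.det = 1)
    (hy : y.det = 1) [Nontrivial C] (φ : k →+* C) {p q : Mx (r + 1) C}
    (hp : p.BlockTriangular β) (hq : q.BlockTriangular β) (hd : q.det = 1)
    (h : x.map φ * q = p * y.map φ) : ∃ p q : Mx (r + 1) k, (p.det = 1 ∧ p.BlockTriangular β) ∧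
      (q.det = 1 ∧ q.BlockTriangular β) ∧ x * q = p * y := by
  have up : ∀ {m : Mx (r + 1) k}, m.IsUpperTriangular → m.BlockTriangular β :=
    fun hm a b hab => hm (hβ.reflect_lt hab)
  obtain ⟨σ, c, b, e, c1, c2, b1, b2⟩ := fac_three hx
  obtain ⟨τ, c', b', e', c1', c2', b1', b2'⟩ := fac_three hy
  have h1 : Pm C σ * (b.map φ * q * b'⁻¹.map φ) = c⁻¹.map φ * p * c'.map φ * Pm C τ := by
    have e1 : Pm k σ * b = c⁻¹ * x := by
      rw [e, mul_assoc c, nonsing_inv_mul_cancel_left _ _ c2]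
    have e2 : c' * Pm k τ = y * b'⁻¹ := by rw [e', mul_nonsing_inv_cancel_right _ _ b2']
    rw [← Pm_map φ σ, ← Pm_map φ τ, ← mul_assoc, ← mul_assoc, ← Matrix.map_mul, e1, mul_assoc _ (c'.map φ),
      ← Matrix.map_mul, e2, Matrix.map_mul, Matrix.map_mul, mul_assoc _ _ q, h]
    simp only [mul_assoc]
  have hQ : (b.map φ * q * b'⁻¹.map φ).BlockTriangular β :=
    (((up b1).map φ).mul hq).mul ((up (inv_tri b1' b2')).map φ)
  have hP : (c⁻¹.map φ * p * c'.map φ).BlockTriangular β :=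
    (((up (inv_tri c1 c2)).map φ).mul hp).mul ((up c1').map φ)
  have hQd : (b.map φ * q * b'⁻¹.map φ).det ≠ 0 := by
    rw [det_mul, det_mul, hd, mul_one, ← RingHom.mapMatrix_apply, ← RingHom.mapMatrix_apply,
      ← RingHom.map_det, ← RingHom.map_det, ← map_mul]
    exact ((b2.mul (isUnit_nonsing_inv_det _ b2')).map φ).ne_zero
  generalize b.map φ * q * b'⁻¹.map φ = Q at h1 hQ hQd
  generalize c⁻¹.map φ * p * c'.map φ = P at h1 hP
  rw [det_apply] at hQd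
  obtain ⟨π, -, hπ⟩ := Finset.exists_ne_zero_of_sum_ne_zero hQd
  have h2 : ∀ a, Q (π a) a ≠ 0 := fun a h2 =>
    hπ (smul_eq_zero_of_right _ (Finset.prod_eq_zero (Finset.mem_univ a) h2))
  have h3 : ∀ a, P (σ (π a)) (τ a) ≠ 0 := fun a => by
    rw [← mul_Pm P, ← h1, Pm_mul]; exact h2 a
  obtain ⟨s, hs⟩ : ∃ s, (b⁻¹ * (Pm k π * dg r s) * b').det = 1 := by
    obtain ⟨s, hs⟩ := ((isUnit_nonsing_inv_det _ b2).mul
      ((IsUnit.of_mul_eq_one _ (sign_sq (C := k) π)).mul b2')).exists_right_inv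
    exact ⟨s, by rw [det_mul, det_mul, det_mul, det_Pm, det_dg, ← hs]; ring⟩
  have h4 : (Pm k π * dg r s).BlockTriangular β :=
    BlockTriangular.mul (fun a a' ha => one_apply_ne (by rintro rfl; exact h2 a' (hQ ha)))
      (dg_tri β s)
  have h5 : (Pm k σ * (Pm k π * dg r s) * (Pm k τ)⁻¹).BlockTriangular β := fun a a' ha => by
    have h6 : (Pm k τ)⁻¹ = Pm k τ⁻¹ := inv_eq_right_inv (by
      ext i j; rw [mul_Pm]; simp [Pm, one_apply])
    obtain ⟨a, rfl⟩ := σ.surjective a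
    obtain ⟨a', rfl⟩ := τ.surjective a'
    rw [h6, mul_Pm, Pm_mul, dg, mul_diagonal, show τ⁻¹ (τ a') = a' by simp]
    refine mul_eq_zero_of_left (one_apply_ne ?_) _
    rintro rfl
    exact h3 a' (hP ha)
  have h6 : IsUnit (Pm k τ).det := det_Pm (C := k) τ ▸ IsUnit.of_mul_eq_one _ (sign_sq τ)
  have h7 : x * (b⁻¹ * (Pm k π * dg r s) * b') =
      c * (Pm k σ * (Pm k π * dg r s) * (Pm k τ)⁻¹) * c'⁻¹ * y := by
    rw [e, e']
    simp only [mul_assoc, mul_nonsing_inv_cancel_left _ _ b2, nonsing_inv_mul_cancel_left _ _ c2',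
      nonsing_inv_mul_cancel_left _ _ h6]
  refine ⟨_, _, ⟨?_, ((up c1).mul h5).mul (up (inv_tri c1' c2'))⟩,
    ⟨hs, ((up (inv_tri b1 b2)).mul h4).mul (up b1')⟩, h7⟩
  have h8 := congrArg det h7
  rw [det_mul, hx, hs, det_mul _ y, hy, mul_one, mul_one] at h8
  exact h8.symm

end Pool.Agent.P.MP_1bf4cb_ag.RG.In
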