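import Pool.Agent.P.MP_1bf4cb_ag.RDefs
import Pool.Agent.P.MP_1bf4cb_ag.GH
import Pool.Agent.P.MP_1bf4cb_ag.GE
import Pool.Agent.P.MP_1bf4cb_ag.GB

set_option autoImplicit false
set_option linter.unusedSectionVars false
set_option linter.unusedVariables false

open Function Matrix
open scoped TensorProduct

noncomputable section

namespace Pool.Agent.P.MP_1bf4cb_ag.RG

/-- functors of points -/
structure Fn (k : Type) [Field k] where
  obj : (C : Type) → [CommRing C] → [Algebra k C] → Type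
  map : {C C' : Type} → [CommRing C] → [Algebra k C] → [CommRing C'] → [Algebra k C'] →
    (C →ₐ[k] C') → obj C → obj C'
  map_id : ∀ {C : Type} [CommRing C] [Algebra k C] (x : obj C), map (AlgHom.id k C) x = x
  map_comp : ∀ {C C' C'' : Type} [CommRing C] [Algebra k C] [CommRing C'] [Algebra k C']
    [CommRing C''] [Algebra k C''] (φ : C →ₐ[k] C') (ψ : C' →ₐ[k] C'') (x : obj C),
    map ψ (map φ x) = map (ψ.comp φ) x

variable {k : Type} [Field k]

/-- the pair `(R, x)` represents the functor -/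
structure Rp (X : Fn k) (R : Type) [CommRing R] [Algebra k R] (x : X.obj R) : Prop where
  ft : Algebra.FiniteType k R
  ex : ∀ (C : Type) [CommRing C] [Algebra k C] (y : X.obj C), ∃ φ : R →ₐ[k] C, X.map φ x = y
  ext : ∀ (C : Type) [CommRing C] [Algebra k C] (φ ψ : R →ₐ[k] C), X.map φ x = X.map ψ x → φ = ψ

/-- representable by an algebra of finite type -/
def Ex (X : Fn k) : Prop := ∃ (R : Type) (_ : CommRing R) (_ : Algebra k R) (x : X.obj R), Rp X R x

/-- the representing algebra has finitely generated Grothendieck group -/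
def CF (X : Fn k) : Prop :=
  ∀ (R : Type) [CommRing R] [Algebra k R] (x : X.obj R), Rp X R x → Cell R

/-- product -/
def Fn.prod (X Y : Fn k) : Fn k where
  obj C _ _ := X.obj C × Y.obj C
  map φ x := (X.map φ x.1, Y.map φ x.2)
  map_id x := by rw [X.map_id, Y.map_id]
  map_comp φ ψ x := by rw [X.map_comp, Y.map_comp]

/-- a condition on points -/
structure Cnd (X : Fn k) where
  p : (C : Type) → [CommRing C] → [Algebra k C] → X.obj C → Prop
  st : ∀ {C C' : Type} [CommRing C] [Algebra k C] [CommRing C'] [Algebra k C'] (φ : C →ₐ[k] C')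
    (x : X.obj C), p C x → p C' (X.map φ x)

/-- subfunctor -/
def Fn.sub (X : Fn k) (q : Cnd X) : Fn k where
  obj C _ _ := {x : X.obj C // q.p C x}
  map φ x := ⟨X.map φ x.1, q.st φ x.1 x.2⟩
  map_id x := Subtype.ext (X.map_id x.1)
  map_comp φ ψ x := Subtype.ext (X.map_comp φ ψ x.1)

/-- points of an algebra -/
def hF (k : Type) [Field k] (D : Type) [CommRing D] [Algebra k D] : Fn k where
  obj C _ _ := D →ₐ[k] C
  map φ x := φ.comp x
  map_id x := AlgHom.id_comp x
  map_comp φ ψ x := (AlgHom.comp_assoc ψ φ x).symm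

/-- affine space -/
def aff (k : Type) [Field k] (κ : Type) : Fn k where
  obj C _ _ := κ → C
  map φ x := fun i => φ (x i)
  map_id x := rfl
  map_comp φ ψ x := rfl

/-- natural functions -/
structure NF (X : Fn k) where
  f : (C : Type) → [CommRing C] → [Algebra k C] → X.obj C → C
  nat : ∀ {C C' : Type} [CommRing C] [Algebra k C] [CommRing C'] [Algebra k C'] (φ : C →ₐ[k] C')
    (x : X.obj C), f C' (X.map φ x) = φ (f C x)

/-- the locus where a function is invertible -/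
def Fn.loc (X : Fn k) (f : NF X) : Fn k :=
  X.sub ⟨fun C _ _ x => IsUnit (f.f C x), fun φ x h => by rw [f.nat]; exact h.map φ⟩

/-- natural isomorphisms -/
structure NI (X Y : Fn k) where
  ap : (C : Type) → [CommRing C] → [Algebra k C] → X.obj C → Y.obj C
  bij : ∀ (C : Type) [CommRing C] [Algebra k C], Bijective (ap C)
  nat : ∀ {C C' : Type} [CommRing C] [Algebra k C] [CommRing C'] [Algebra k C'] (φ : C →ₐ[k] C')
    (x : X.obj C), ap C' (X.map φ x) = Y.map φ (ap C x)

variable {X Y Z W : Fn k}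

/-- inverse -/
def NI.symm (e : NI X Y) : NI Y X where
  ap C _ _ := (Equiv.ofBijective _ (e.bij C)).symm
  bij C _ _ := (Equiv.ofBijective _ (e.bij C)).symm.bijective
  nat {C C'} _ _ _ _ φ y := by
    apply (e.bij C').1
    rw [e.nat, Equiv.ofBijective_apply_symm_apply _ (e.bij C'),
      Equiv.ofBijective_apply_symm_apply _ (e.bij C)]

theorem NI.ap_symm (e : NI X Y) (C : Type) [CommRing C] [Algebra k C] (y : Y.obj C) :
    e.ap C (e.symm.ap C y) = y := Equiv.ofBijective_apply_symm_apply _ (e.bij C) y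

/-- composition -/
def NI.trans (e : NI X Y) (e' : NI Y Z) : NI X Z where
  ap C _ _ x := e'.ap C (e.ap C x)
  bij C _ _ := (e'.bij C).comp (e.bij C)
  nat φ x := by rw [e.nat, e'.nat]

/-- identity -/
def NI.refl (X : Fn k) : NI X X where
  ap C _ _ x := x
  bij C _ _ := bijective_id
  nat φ x := rfl

/-- product of isomorphisms -/
def NI.prod (e : NI X Y) (e' : NI Z W) : NI (X.prod Z) (Y.prod W) where
  ap C _ _ x := (e.ap C x.1, e'.ap C x.2)
  bij C _ _ := (e.bij C).prodMap (e'.bij C)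
  nat φ x := Prod.ext (e.nat φ x.1) (e'.nat φ x.2)

/-- associativity -/
def NI.assoc (X Y Z : Fn k) : NI ((X.prod Y).prod Z) (X.prod (Y.prod Z)) where
  ap C _ _ x := (x.1.1, x.1.2, x.2)
  bij C _ _ := (Equiv.prodAssoc _ _ _).bijective
  nat φ x := rfl

/-- commutativity -/
def NI.comm (X Y : Fn k) : NI (X.prod Y) (Y.prod X) where
  ap C _ _ x := (x.2, x.1)
  bij C _ _ := (Equiv.prodComm _ _).bijective
  nat φ x := rfl

section
variable {R : Type} [CommRing R] [Algebra k R]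

theorem Rp.iso {x : X.obj R} (h : Rp X R x) (e : NI X Y) : Rp Y R (e.ap R x) := by
  refine ⟨h.ft, fun C _ _ y => ?_, fun C _ _ φ ψ h1 => ?_⟩
  · obtain ⟨z, rfl⟩ := (e.bij C).2 y
    obtain ⟨φ, rfl⟩ := h.ex C z
    exact ⟨φ, (e.nat φ x).symm⟩
  · refine h.ext C φ ψ ((e.bij C).1 ?_)
    rw [e.nat, e.nat, h1]

theorem Rp.noeth {x : X.obj R} (h : Rp X R x) : IsNoetherianRing R :=
  have := h.ft
  Algebra.FiniteType.isNoetherianRing k R

theorem Rp.equiv {x : X.obj R} (h : Rp X R x) {R' : Type} [CommRing R'] [Algebra k R']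
    {x' : X.obj R'} (h' : Rp X R' x') : ∃ e : R ≃ₐ[k] R', X.map (e : R →ₐ[k] R') x = x' := by
  obtain ⟨φ, hφ⟩ := h.ex R' x'
  obtain ⟨ψ, hψ⟩ := h'.ex R x
  refine ⟨AlgEquiv.ofAlgHom φ ψ (h'.ext _ _ _ ?_) (h.ext _ _ _ ?_), hφ⟩
  · rw [← X.map_comp, hψ, hφ, X.map_id]
  · rw [← X.map_comp, hφ, hψ, X.map_id]

theorem Rp.cf {x : X.obj R} (h : Rp X R x) (hR : Cell R) : CF X := by
  intro R' _ _ x' h'
  obtain ⟨e, -⟩ := h.equiv h'
  exact cell_equiv e.toRingEquiv hR

/-- the Yoneda isomorphism -/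
def Rp.yon {x : X.obj R} (h : Rp X R x) : NI (hF k R) X where
  ap C _ _ φ := X.map φ x
  bij C _ _ := ⟨fun φ ψ => h.ext C φ ψ, h.ex C⟩
  nat φ ψ := (X.map_comp ψ φ x).symm

theorem rp_hF (h : Algebra.FiniteType k R) : Rp (hF k R) R (AlgHom.id k R) :=
  ⟨h, fun C _ _ y => ⟨y, AlgHom.comp_id y⟩, fun C _ _ φ ψ h1 => by
    rw [← AlgHom.comp_id φ, ← AlgHom.comp_id ψ]; exact h1⟩

end

theorem Ex.iso (h : Ex X) (e : NI X Y) : Ex Y := by
  obtain ⟨R, _, _, x, h⟩ := h
  exact ⟨R, _, _, _, h.iso e⟩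

theorem CF.iso (h : CF X) (e : NI X Y) : CF Y := fun R _ _ y hy => h R _ (hy.iso e.symm)

theorem ex_hF {R : Type} [CommRing R] [Algebra k R] (h : Algebra.FiniteType k R) : Ex (hF k R) :=
  ⟨R, _, _, _, rp_hF h⟩

theorem rp_tensor {R S : Type} [CommRing R] [Algebra k R] [CommRing S] [Algebra k S] {x : X.obj R}
    {y : Y.obj S} (h : Rp X R x) (h' : Rp Y S y) : Rp (X.prod Y) (R ⊗[k] S)
      (X.map Algebra.TensorProduct.includeLeft x, Y.map Algebra.TensorProduct.includeRight y) := by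
  refine ⟨?_, fun C _ _ z => ?_, fun C _ _ φ ψ h1 => ?_⟩
  · have := h.ft
    have := h'.ft
    exact Algebra.FiniteType.trans (S := R) inferInstance inferInstance
  · obtain ⟨φ, hφ⟩ := h.ex C z.1
    obtain ⟨ψ, hψ⟩ := h'.ex C z.2
    refine ⟨Algebra.TensorProduct.lift φ ψ fun _ _ => Commute.all _ _, Prod.ext ?_ ?_⟩
    · show X.map _ (X.map _ x) = z.1
      rw [X.map_comp, Algebra.TensorProduct.lift_comp_includeLeft, hφ]
    · show Y.map _ (Y.map _ y) = z.2
      rw [Y.map_comp, ← hψ]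
      congr 1
      ext s
      simp
  · have h2 : X.map φ (X.map _ x) = X.map ψ (X.map _ x) := congrArg Prod.fst h1
    have h3 : Y.map φ (Y.map _ y) = Y.map ψ (Y.map _ y) := congrArg Prod.snd h1
    rw [X.map_comp, X.map_comp] at h2
    rw [Y.map_comp, Y.map_comp] at h3
    have h4 := h.ext _ _ _ h2
    have h5 := h'.ext _ _ _ h3
    refine Algebra.TensorProduct.ext h4 ?_
    ext s
    exact DFunLike.congr_fun h5 s

theorem Ex.prod (h : Ex X) (h' : Ex Y) : Ex (X.prod Y) := by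
  obtain ⟨R, _, _, x, h⟩ := h
  obtain ⟨S, _, _, y, h'⟩ := h'
  exact ⟨R ⊗[k] S, _, _, _, rp_tensor h h'⟩

/-- closed conditions -/
def Cnd.Cl (q : Cnd X) : Prop :=
  ∀ (R : Type) [CommRing R] [Algebra k R] (x : X.obj R), ∃ I : Ideal R,
    ∀ (C : Type) [CommRing C] [Algebra k C] (φ : R →ₐ[k] C), q.p C (X.map φ x) ↔ ∀ i ∈ I, φ i = 0

theorem rp_quot {R : Type} [CommRing R] [Algebra k R] {x : X.obj R} (h : Rp X R x) (q : Cnd X)
    (I : Ideal R) (hI : ∀ (C : Type) [CommRing C] [Algebra k C] (φ : R →ₐ[k] C),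
      q.p C (X.map φ x) ↔ ∀ i ∈ I, φ i = 0) :
    Rp (X.sub q) (R ⧸ I) ⟨X.map (Ideal.Quotient.mkₐ k I) x,
      (hI _ _).2 fun i hi => Ideal.Quotient.eq_zero_iff_mem.2 hi⟩ := by
  refine ⟨?_, fun C _ _ z => ?_, fun C _ _ φ ψ h1 => ?_⟩
  · have := h.ft
    infer_instance
  · obtain ⟨φ, hφ⟩ := h.ex C z.1
    refine ⟨Ideal.Quotient.liftₐ I φ ((hI C φ).1 (by rw [hφ]; exact z.2)), Subtype.ext ?_⟩
    show X.map _ (X.map _ x) = z.1
    rw [X.map_comp, Ideal.Quotient.liftₐ_comp, hφ]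
  · have h2 : X.map φ (X.map _ x) = X.map ψ (X.map _ x) := congrArg Subtype.val h1
    rw [X.map_comp, X.map_comp] at h2
    exact Ideal.Quotient.algHom_ext k (h.ext _ _ _ h2)

theorem Ex.sub (h : Ex X) {q : Cnd X} (hq : q.Cl) : Ex (X.sub q) := by
  obtain ⟨R, _, _, x, h⟩ := h
  obtain ⟨I, hI⟩ := hq R x
  exact ⟨R ⧸ I, _, _, _, rp_quot h q I hI⟩

theorem rp_mv {R : Type} [CommRing R] [Algebra k R] {x : X.obj R} (h : Rp X R x) (κ : Type)
    [Finite κ] : Rp (X.prod (aff k κ)) (MvPolynomial κ R)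
      (X.map (IsScalarTower.toAlgHom k R (MvPolynomial κ R)) x, MvPolynomial.X) := by
  refine ⟨?_, fun C _ _ z => ?_, fun C _ _ φ ψ h1 => ?_⟩
  · have := h.ft
    exact Algebra.FiniteType.trans (S := R) inferInstance inferInstance
  · obtain ⟨φ, hφ⟩ := h.ex C z.1
    refine ⟨MvPolynomial.aevalTower φ z.2, Prod.ext ?_ ?_⟩
    · show X.map _ (X.map _ x) = z.1
      rw [X.map_comp, MvPolynomial.aevalTower_comp_toAlgHom, hφ]
    · funext i
      exact MvPolynomial.aevalTower_X φ z.2 i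
  · have h2 : X.map φ (X.map _ x) = X.map ψ (X.map _ x) := congrArg Prod.fst h1
    rw [X.map_comp, X.map_comp] at h2
    have h4 := h.ext _ _ _ h2
    have h3 : ∀ i, φ (MvPolynomial.X i) = ψ (MvPolynomial.X i) :=
      fun i => congrFun (congrArg Prod.snd h1) i
    exact MvPolynomial.algHom_ext' h4 h3

theorem rp_aff (κ : Type) [Finite κ] : Rp (aff k κ) (MvPolynomial κ k) MvPolynomial.X := by
  refine ⟨inferInstance, fun C _ _ z => ⟨MvPolynomial.aeval z, ?_⟩, fun C _ _ φ ψ h1 => ?_⟩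
  · funext i
    exact MvPolynomial.aeval_X z i
  · exact MvPolynomial.algHom_ext fun i => congrFun h1 i

theorem ex_aff (κ : Type) [Finite κ] : Ex (aff k κ) := ⟨_, _, _, _, rp_aff κ⟩

theorem rp_loc {R : Type} [CommRing R] [Algebra k R] {x : X.obj R} (h : Rp X R x) (f : NF X) :
    Rp (X.loc f) (Localization.Away (f.f R x))
      ⟨X.map (IsScalarTower.toAlgHom k R (Localization.Away (f.f R x))) x, by
        show IsUnit (f.f _ _)
        rw [f.nat]
        exact IsLocalization.Away.algebraMap_isUnit (f.f R x)⟩ := by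
  refine ⟨?_, fun C _ _ z => ?_, fun C _ _ φ ψ h1 => ?_⟩
  · have := h.ft
    have : Algebra.FiniteType R (Localization.Away (f.f R x)) :=
      IsLocalization.finiteType_of_monoid_fg (Submonoid.powers (f.f R x)) _
    exact Algebra.FiniteType.trans (S := R) inferInstance inferInstance
  · obtain ⟨φ, hφ⟩ := h.ex C z.1
    have hu : IsUnit (φ (f.f R x)) := by
      rw [← f.nat, hφ]
      exact z.2
    refine ⟨IsLocalization.Away.liftAlgHom (f.f R x) (f := φ) hu, Subtype.ext ?_⟩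
    show X.map _ (X.map _ x) = z.1
    rw [X.map_comp, ← hφ]
    congr 1
    ext s
    simp [IsLocalization.Away.liftAlgHom]
  · have h2 : X.map φ (X.map _ x) = X.map ψ (X.map _ x) := congrArg Subtype.val h1
    rw [X.map_comp, X.map_comp] at h2
    have h4 := h.ext _ _ _ h2
    apply AlgHom.coe_ringHom_injective
    refine IsLocalization.ringHom_ext (Submonoid.powers (f.f R x)) ?_
    ext s
    exact DFunLike.congr_fun h4 s

theorem Ex.loc (h : Ex X) (f : NF X) : Ex (X.loc f) := by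
  obtain ⟨R, _, _, x, h⟩ := h
  exact ⟨_, _, _, _, rp_loc h f⟩

end Pool.Agent.P.MP_1bf4cb_ag.RG
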