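import Pool.Agent.P.MP_1bf4cb_ag.RA

set_option autoImplicit false
set_option linter.unusedSectionVars false
set_option linter.unusedVariables false

open Function Matrix
open scoped TensorProduct

noncomputable section

namespace Pool.Agent.P.MP_1bf4cb_ag.RG

variable {A B : Type} [CommRing A] [CommRing B]

/-- additive functions factor through the Grothendieck group -/
theorem exists_lift {Γ : Type 1} [AddCommGroup Γ] (χ : AddF A Γ) : ∃ Φ : G0 A →+ Γ,
    ∀ M : FG A, Φ (QuotientAddGroup.mk (FreeAbelianGroup.of M)) = χ.val M.M := by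
  refine ⟨QuotientAddGroup.lift _ (FreeAbelianGroup.lift fun M : FG A => χ.val M.M) ?_,
    fun M => ?_⟩
  · refine (AddSubgroup.closure_le _).2 ?_
    rintro _ ⟨M, N, P, f, g, hf, hg, h, rfl⟩
    show FreeAbelianGroup.lift (fun M : FG A => χ.val M.M) _ = 0
    rw [map_sub, map_sub, FreeAbelianGroup.lift_apply_of, FreeAbelianGroup.lift_apply_of,
      FreeAbelianGroup.lift_apply_of, χ.add f g hf hg h]
    abel
  · rw [QuotientAddGroup.lift_mk, FreeAbelianGroup.lift_apply_of]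

theorem list_RB (z : G0 A) : ∃ G : List (FG A), ∀ (Γ : Type 1) [AddCommGroup Γ] (Φ : G0 A →+ Γ),
    (∀ M ∈ G, Φ (QuotientAddGroup.mk (FreeAbelianGroup.of M)) = 0) → Φ z = 0 := by
  obtain ⟨z, rfl⟩ := QuotientAddGroup.mk_surjective z
  induction z using FreeAbelianGroup.induction_on with
  | zero => exact ⟨[], fun Γ _ Φ _ => map_zero Φ⟩
  | of M => exact ⟨[M], fun Γ _ Φ h => h M (List.mem_singleton_self M)⟩
  | neg M h =>
    obtain ⟨G, hG⟩ := h
    exact ⟨G, fun Γ _ Φ h => by rw [QuotientAddGroup.mk_neg, map_neg, hG Γ Φ h, neg_zero]⟩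
  | add x y hx hy =>
    obtain ⟨G, hG⟩ := hx
    obtain ⟨G', hG'⟩ := hy
    refine ⟨G ++ G', fun Γ _ Φ h => ?_⟩
    rw [QuotientAddGroup.mk_add, map_add, hG Γ Φ fun M hM => h M (List.mem_append_left _ hM),
      hG' Γ Φ fun M hM => h M (List.mem_append_right _ hM), add_zero]

theorem cell_of_fg [IsNoetherianRing A] {H : AddSubgroup (G0 A)} (hH : H.FG)
    (h : ∀ I : Ideal A, cyc I ∈ H) : Cell A := by
  classical
  obtain ⟨s, hs⟩ := hH
  choose L hL using fun z : G0 A => list_RB z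
  refine ⟨s.toList.flatMap L, fun Γ _ χ h0 => van_of_primes fun 𝔭 _ _ => ?_⟩
  obtain ⟨Φ, hΦ⟩ := exists_lift χ
  have h1 : H ≤ Φ.ker := by
    rw [← hs]
    refine (AddSubgroup.closure_le _).2 fun z hz => hL z Γ Φ fun M hM => ?_
    rw [hΦ]
    exact h0 M (List.mem_flatMap.2 ⟨z, Finset.mem_toList.2 hz, hM⟩)
  exact (hΦ ⟨A ⧸ 𝔭⟩).symm.trans (h1 (h 𝔭))

theorem cell_away [IsNoetherianRing A] (f : A) (h : Cell A) : Cell (Localization.Away f) := by
  obtain ⟨G, hG⟩ := h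
  have : IsNoetherianRing (Localization.Away f) :=
    IsLocalization.isNoetherianRing (Submonoid.powers f) _ inferInstance
  refine ⟨G.map fun M => ⟨Localization.Away f ⊗[A] M.M⟩, fun Γ _ χ h0 =>
    van_of_primes fun 𝔭 _ _ => ?_⟩
  obtain ⟨χ', h1, h2⟩ := exists_base (A := A) χ
  have h3 := hG Γ χ' (fun M hM => by
    rw [h1]
    exact h0 _ (List.mem_map_of_mem hM)) (A ⧸ 𝔭.comap (algebraMap A _))
    (fun x hx y => by rw [Ideal.mem_bot.1 hx, zero_smul])
  have h4 : (𝔭.comap (algebraMap A (Localization.Away f))).map (algebraMap A _) = 𝔭 :=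
    IsLocalization.map_under (Submonoid.powers f) _ 𝔭
  rw [h2, h4] at h3
  exact h3

theorem spec_away [IsNoetherianRing B] {φ : A →+* B} {ε : B →+* A} (h : Spec φ ε) (s : B)
    (hs : IsUnit (ε s)) (ε' : Localization.Away s →+* A)
    (he : ∀ b, ε' (algebraMap B _ b) = ε b) :
    Spec ((algebraMap B (Localization.Away s)).comp φ) ε' := by
  intro Γ _ χ
  obtain ⟨ρ, hρ1, hρ2⟩ := h Γ χ
  have hv : Van ρ (Ideal.span {s}) :=
    hρ1 s (by rw [Ideal.span_singleton_eq_top.2 hs]; exact van_top χ)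
  have hi : ∀ y : Localization.Away s, y ∈ den (algebraMap B (Localization.Away s)) s := fun y => by
    obtain ⟨⟨x, _, N, rfl⟩, h⟩ := IsLocalization.surj (Submonoid.powers s) y
    exact ⟨N, x, by rw [← map_pow, mul_comm]; exact h⟩
  have hi' : ∀ f ∈ ({s} : Finset B), ∀ y, y ∈ den (algebraMap B (Localization.Away s)) f :=
    fun f hf => by rw [Finset.mem_singleton.1 hf]; exact hi
  obtain ⟨ρ', hρ'⟩ := lat (algebraMap B (Localization.Away s)) {s} hi' ρ
    (hv.mono (by rw [Finset.coe_singleton]; exact le_sup_right))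
  refine ⟨ρ', fun t ht N _ _ _ hN => ?_, fun I => ?_⟩
  · obtain ⟨m, b, hb⟩ := hi t
    have h1 : Van ρ (Ideal.span {b}) := by
      refine hρ1 b (ht.mono ?_)
      rw [Ideal.span_singleton_le_iff_mem, ← he, ← hb, map_mul, map_pow, he]
      exact (Ideal.unit_mul_mem_iff_mem _ (hs.pow m)).1 (Ideal.mem_span_singleton_self _)
    obtain ⟨M, g, hg, hM⟩ := exists_lat (algebraMap B (Localization.Away s)) {s} hi' N
    rw [hρ' N M.M g hg hM]
    refine h1 _ fun x hx y => hg ?_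
    obtain ⟨c, rfl⟩ := Ideal.mem_span_singleton'.1 hx
    rw [map_smulₛₗ, map_zero, map_mul, ← hb]
    exact hN _ (Ideal.mul_mem_left _ _ (Ideal.mul_mem_left _ _ (Ideal.mem_span_singleton_self t))) _
  · rw [← Ideal.map_map, loc_GE s ρ hv ρ' hi fun N _ _ M _ _ _ h h3 h4 =>
      hρ' N M h h3 fun f hf => by rw [Finset.mem_singleton.1 hf]; exact h4, hρ2]

theorem key_spec {R U L : Type} [CommRing R] [IsNoetherianRing R] [CommRing L] {φ : R →+* L}
    {ε : L →+* R} (h : Spec φ ε) [CommRing U] (θ : U →+* L) (hθ : θ.Flat) (hU : Cell U) :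
    ∃ H : AddSubgroup (G0 R), H.FG ∧ ∀ I : Ideal R,
      (∃ J : Ideal U, J.map θ = I.map φ) → cyc I ∈ H := by
  let : Algebra U L := θ.toAlgebra
  have : Module.Flat U L := hθ
  obtain ⟨χ, hχ⟩ := exists_cls R
  obtain ⟨ρ, -, hρ2⟩ := h (G0 R) χ
  obtain ⟨ρ'', -, hρ''⟩ := exists_base (A := U) ρ
  obtain ⟨G, hG⟩ := hU
  let H : AddSubgroup (G0 R) := AddSubgroup.closure {x | x ∈ G.map fun M => ρ''.val M.M}
  refine ⟨H, (AddSubgroup.fg_iff _).2 ⟨_, rfl, List.finite_toSet _⟩, ?_⟩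
  rintro I ⟨J, hJ⟩
  obtain ⟨τ, hτ⟩ := exists_comp ρ'' (QuotientAddGroup.mk' H)
  have h1 : τ.val (U ⧸ J) = 0 := hG _ τ (fun M hM => by
    rw [hτ]
    exact (QuotientAddGroup.eq_zero_iff _).2
      (AddSubgroup.subset_closure (List.mem_map.2 ⟨M, hM, rfl⟩))) _
    (fun x hx y => by rw [Ideal.mem_bot.1 hx, zero_smul])
  rw [hτ] at h1
  have h2 : ρ''.val (U ⧸ J) ∈ H := (QuotientAddGroup.eq_zero_iff _).1 h1
  have h3 : J.map (algebraMap U L) = I.map φ := hJ
  rw [hρ'', h3, hρ2, hχ] at h2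
  exact h2

theorem cell_of_spec [IsNoetherianRing A] {φ : A →+* B} {ε : B →+* A} (h : Spec φ ε)
    (hB : Cell B) : Cell A := by
  obtain ⟨H, hH, h1⟩ := key_spec h (RingHom.id B) (RingHom.Flat.id B) hB
  exact cell_of_fg hH fun I => h1 I ⟨I.map φ, Ideal.map_id _⟩

theorem spec_congr {φ φ' : A →+* B} {ε ε' : B →+* A} (h : Spec φ ε) (h1 : φ = φ') (h2 : ε = ε') :
    Spec φ' ε' := h1 ▸ h2 ▸ h

theorem mono_RB {b b' : Ideal A} (h : CellI A b) (hb : b ≤ b') : CellI A b' := by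
  obtain ⟨G, hG⟩ := h
  exact ⟨G, fun Γ _ χ h => (hG Γ χ h).mono hb⟩

end Pool.Agent.P.MP_1bf4cb_ag.RG
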