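import Pool.Agent.P.MP_1bf4cb_ag.RB

set_option autoImplicit false
set_option linter.unusedSectionVars false
set_option linter.unusedVariables false

open Function Matrix
open scoped TensorProduct

noncomputable section

namespace Pool.Agent.P.MP_1bf4cb_ag.RG

variable {k : Type} [Field k] {X Y Z : Fn k}

theorem CF.aff (hE : Ex X) (h : CF X) (κ : Type) [Finite κ] : CF (X.prod (aff k κ)) := by
  obtain ⟨R, _, _, x, hx⟩ := hE
  have := hx.noeth
  exact (rp_mv hx κ).cf (cell_mv (h R x hx) κ)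

theorem CF.loc (hE : Ex X) (h : CF X) (f : NF X) : CF (X.loc f) := by
  obtain ⟨R, _, _, x, hx⟩ := hE
  have := hx.noeth
  exact (rp_loc hx f).cf (cell_away _ (h R x hx))

theorem cf_empty (h : ∀ (C : Type) [CommRing C] [Algebra k C], X.obj C → Subsingleton C) : CF X :=
  fun R _ _ x _ => have := h R x; cell_trivial R

/-- stably cellular -/
def SC (X : Fn k) : Prop := ∀ Y : Fn k, Ex Y → CF Y → CF (Y.prod X)

theorem SC.iso (h : SC X) (e : NI X Y) : SC Y :=
  fun W h1 h2 => (h W h1 h2).iso ((NI.refl W).prod e)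

theorem SC.prod (h : SC X) (hX : Ex X) (h' : SC Y) : SC (X.prod Y) :=
  fun W h1 h2 => (h' _ (h1.prod hX) (h W h1 h2)).iso (NI.assoc W X Y)

theorem sc_aff (κ : Type) [Finite κ] : SC (aff k κ) := fun W h1 h2 => h2.aff h1 κ

/-- a function of the second factor -/
def NF.snd (f : NF X) (Y : Fn k) : NF (Y.prod X) :=
  ⟨fun C _ _ x => f.f C x.2, fun φ x => f.nat φ x.2⟩

/-- localisation commutes with products -/
def NI.locProd (f : NF X) (Y : Fn k) : NI ((Y.prod X).loc (f.snd Y)) (Y.prod (X.loc f)) where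
  ap C _ _ x := (x.1.1, ⟨x.1.2, x.2⟩)
  bij C _ _ := ⟨fun x y h => Subtype.ext (Prod.ext (congrArg (fun z => z.1) h :)
    (congrArg (fun z => z.2.1) h :)), fun y => ⟨⟨(y.1, y.2.1), y.2.2⟩, rfl⟩⟩
  nat φ x := rfl

theorem SC.loc (h : SC X) (hX : Ex X) (f : NF X) : SC (X.loc f) :=
  fun W h1 h2 => ((h W h1 h2).loc (h1.prod hX) (f.snd W)).iso (NI.locProd f W)

theorem sc_empty (h : ∀ (C : Type) [CommRing C] [Algebra k C], X.obj C → Subsingleton C) : SC X :=
  fun W _ _ => cf_empty fun C _ _ x => h C x.2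

theorem SC.cf (h : SC X) : CF X := by
  have h1 : Rp (hF k k) k (AlgHom.id k k) := rp_hF inferInstance
  refine (h (hF k k) ⟨k, _, _, _, h1⟩ (h1.cf (cell_field k))).iso
    ⟨fun C _ _ x => x.2, fun C _ _ => ⟨fun x y h => Prod.ext ?_ h,
      fun y => ⟨(Algebra.ofId k C, y), rfl⟩⟩, fun φ x => rfl⟩
  exact Subsingleton.elim (α := k →ₐ[k] C) _ _

/-- specialisation at a rational point -/
def PO (X : Fn k) (s : X.obj k) : Prop :=
  ∀ (D : Type) [CommRing D] [Algebra k D], Algebra.FiniteType k D →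
    ∃ (R : Type) (_ : CommRing R) (_ : Algebra k R) (δ : D →ₐ[k] R) (x : X.obj R) (ε : R →ₐ[k] D),
      Rp ((hF k D).prod X) R (δ, x) ∧ ε.comp δ = AlgHom.id k D ∧
        X.map ε x = X.map (Algebra.ofId k D) s ∧ Spec (δ : D →+* R) (ε : R →+* D)

theorem po_aff (κ : Type) [Finite κ] (s : κ → k) : PO (aff k κ) s := by
  intro D _ _ hD
  have := Algebra.FiniteType.isNoetherianRing k D
  refine ⟨MvPolynomial κ D, _, _, _, _,
    MvPolynomial.aevalTower (AlgHom.id k D) fun i => algebraMap k D (s i),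
    rp_mv (rp_hF hD) κ, ?_, ?_, spec_congr (spec_mv fun i => algebraMap k D (s i)) ?_ ?_⟩
  · ext d
    simp [hF]
  · funext i
    exact MvPolynomial.aevalTower_X _ _ i
  · ext d
    rfl
  · refine MvPolynomial.ringHom_ext (fun d => ?_) fun i => ?_
    · simp
    · simp

theorem PO.iso {s : X.obj k} (h : PO X s) (e : NI X Y) : PO Y (e.ap k s) := by
  intro D _ _ hD
  obtain ⟨R, _, _, δ, x, ε, h1, h2, h3, h4⟩ := h D hD
  exact ⟨R, _, _, δ, e.ap R x, ε, h1.iso ((NI.refl _).prod e), h2, by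
    rw [← e.nat, h3, e.nat], h4⟩

theorem PO.loc {s : X.obj k} (h : PO X s) (f : NF X) (hs : IsUnit (f.f k s)) :
    PO (X.loc f) ⟨s, hs⟩ := by
  intro D _ _ hD
  obtain ⟨R, _, _, δ, x, ε, h1, h2, h3, h4⟩ := h D hD
  have := h1.noeth
  have hu : IsUnit (ε (f.f R x)) := by
    rw [← f.nat, h3, f.nat]
    exact hs.map _
  have he : ∀ b, IsLocalization.Away.liftAlgHom (S := Localization.Away (f.f R x)) (f.f R x)
      (f := ε) hu (algebraMap R _ b) = ε b := fun b => by
    simp [IsLocalization.Away.liftAlgHom]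
  refine ⟨Localization.Away (f.f R x), _, _, _, _,
    IsLocalization.Away.liftAlgHom (f.f R x) (f := ε) hu,
    (rp_loc h1 (f.snd _)).iso (NI.locProd f _), ?_, Subtype.ext ?_,
    spec_congr (spec_away h4 (f.f R x) hu _ he) rfl rfl⟩
  · ext d
    exact (he _).trans (DFunLike.congr_fun h2 d)
  · show X.map _ (X.map _ x) = X.map _ s
    rw [X.map_comp, ← h3]
    congr 1
    ext b
    exact he b

theorem PO.prod {s : X.obj k} {t : Y.obj k} (h : PO X s) (h' : PO Y t) : PO (X.prod Y) (s, t) := by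
  intro D _ _ hD
  obtain ⟨R, _, _, δ, x, ε, h1, h2, h3, h4⟩ := h D hD
  obtain ⟨R', _, _, δ', y, ε', h1', h2', h3', h4'⟩ := h' R h1.ft
  refine ⟨R', _, _, δ'.comp δ, (X.map δ' x, y), ε.comp ε',
    (h1'.iso (h1.yon.prod (NI.refl Y))).iso (NI.assoc _ _ _), ?_, Prod.ext ?_ ?_,
    spec_trans h4 h4'⟩
  · rw [AlgHom.comp_assoc, ← AlgHom.comp_assoc ε', h2', AlgHom.id_comp, h2]
  · show X.map _ (X.map _ x) = X.map _ s
    rw [X.map_comp, AlgHom.comp_assoc, h2', AlgHom.comp_id, h3]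
  · show Y.map _ y = Y.map _ t
    rw [← Y.map_comp, h3', Y.map_comp]
    congr 1
    exact Subsingleton.elim _ _

theorem PO.back {s : X.obj k} (h : PO X s) (h1 : CF (Y.prod X)) : CF Y := by
  intro D _ _ y hy
  obtain ⟨R, _, _, δ, x, ε, h2, -, -, h4⟩ := h D hy.ft
  have := hy.noeth
  exact cell_of_spec h4 (h1 R _ (h2.iso (hy.yon.prod (NI.refl X))))

end Pool.Agent.P.MP_1bf4cb_ag.RG
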