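import Pool.Agent.P.MP_1bf4cb_ag.RC

set_option autoImplicit false
set_option maxHeartbeats 400000
set_option linter.unusedSectionVars false
set_option linter.unusedVariables false

open Function Matrix
open scoped TensorProduct

noncomputable section

namespace Pool.Agent.P.MP_1bf4cb_ag.RG

variable {k : Type} [Field k] {n r : ℕ} {C C' : Type} [CommRing C] [Algebra k C] [CommRing C']
  [Algebra k C']

theorem vl_map (φ : C →ₐ[k] C') (g : Mx n C) (f : Pn k n) : vl (g.map φ) f = φ (vl g f) := by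
  unfold vl
  rw [MvPolynomial.comp_aeval_apply]
  rfl

theorem Sol.map {S : Set (Pn k n)} {g : Mx n C} (h : Sol S g) (φ : C →ₐ[k] C') :
    Sol S (g.map φ) := fun f hf => by rw [vl_map, h f hf, map_zero]

theorem Sol.mono {S T : Set (Pn k n)} {g : Mx n C} (h : Sol S g) (hT : T ⊆ S) : Sol T g :=
  fun f hf => h f (hT hf)

theorem sol_map_iff (S : Set (Pn k n)) (g : Mx n C) (φ : C →ₐ[k] C') :
    Sol S (g.map φ) ↔ ∀ i ∈ Ideal.span (vl g '' S), φ i = 0 := by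
  constructor
  · intro h i hi
    have : Ideal.span (vl g '' S) ≤ RingHom.ker φ := Ideal.span_le.2 (by
      rintro _ ⟨f, hf, rfl⟩
      exact (vl_map φ g f).symm.trans (h f hf))
    exact this hi
  · intro h f hf
    rw [vl_map]
    exact h _ (Ideal.subset_span ⟨f, hf, rfl⟩)

theorem span_map_vl (S : Set (Pn k n)) (g : Mx n C) (φ : C →ₐ[k] C') :
    (Ideal.span (vl g '' S)).map φ = Ideal.span (vl (g.map φ) '' S) := by
  rw [Ideal.map_span, Set.image_image]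
  simp only [vl_map]

/-- the group of points -/
def sg {S : Set (Pn k n)} (hS : Grp S) (C : Type) [CommRing C] [Algebra k C] :
    Subgroup (SpecialLinearGroup (Fin n) C) where
  carrier := {g | Sol S g.1}
  one_mem' := (hS C).1
  inv_mem' {g} hg := by
    have := ((hS C).2 1 g.1 (hS C).1 hg).2
    rw [Matrix.one_mul] at this
    exact this
  mul_mem' {g h} hg hh := by
    have h1 := ((hS C).2 1 h.1 (hS C).1 hh).2
    rw [Matrix.one_mul] at h1
    have h2 := ((hS C).2 g.1 _ hg h1).2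
    have h3 : (adjugate h.1).adjugate = h.1 := congrArg Subtype.val (inv_inv h)
    rw [h3] at h2
    exact h2

/-- a datum with its axioms -/
structure OB (k : Type) [Field k] (n r : ℕ) extends Bru k n r where
  ok : toBru.Ok

variable (E : OB k n r)

/-- the group `G(C)` -/
abbrev OB.Γ (C : Type) [CommRing C] [Algebra k C] : Type := sg E.ok.grp.1 C

variable {E}

/-- the matrix of a point -/
def mx (g : E.Γ C) : Mx n C := g.1.1

theorem mx_sol (g : E.Γ C) : Sol E.G (mx g) := g.2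

theorem mx_inj {g h : E.Γ C} (e : mx g = mx h) : g = h := Subtype.ext (Subtype.ext e)

theorem mx_mul (g h : E.Γ C) : mx (g * h) = mx g * mx h := rfl

theorem mx_inv (g : E.Γ C) : mx g⁻¹ = (mx g).adjugate := rfl

theorem mx_one : mx (1 : E.Γ C) = 1 := rfl

/-- the point of a matrix -/
def mkG (g : Mx n C) (hg : Sol E.G g) : E.Γ C := ⟨⟨g, ((E.ok.grp.1 C).2 g g hg hg).1⟩, hg⟩

theorem mx_mkG (g : Mx n C) (hg : Sol E.G g) : mx (mkG g hg) = g := rfl

/-- functoriality -/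
def mp (φ : C →ₐ[k] C') : E.Γ C →* E.Γ C' :=
  MonoidHom.mk' (fun g => mkG ((mx g).map φ) ((mx_sol g).map φ)) fun g h =>
    mx_inj (Matrix.map_mul (f := (φ : C →+* C')))

theorem mx_mp (φ : C →ₐ[k] C') (g : E.Γ C) : mx (mp φ g) = (mx g).map φ := rfl

theorem mp_mp {C'' : Type} [CommRing C''] [Algebra k C''] (φ : C →ₐ[k] C') (ψ : C' →ₐ[k] C'')
    (g : E.Γ C) : mp ψ (mp φ g) = mp (ψ.comp φ) g := rfl

/-- rational points -/
abbrev rt (C : Type) [CommRing C] [Algebra k C] : E.Γ k →* E.Γ C := mp (Algebra.ofId k C)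

theorem mp_rt (φ : C →ₐ[k] C') (g : E.Γ k) : mp φ (rt C g) = rt C' g := by
  rw [mp_mp]
  congr 2
  exact Subsingleton.elim _ _

theorem rt_self (g : E.Γ k) : rt k g = g := rfl

variable (E)

/-- the subgroup `B(C)` -/
def OB.BB (C : Type) [CommRing C] [Algebra k C] : Subgroup (E.Γ C) :=
  (sg E.ok.grp.2.1 C).subgroupOf _

/-- the subgroup `P(C)` -/
def OB.PP (C : Type) [CommRing C] [Algebra k C] : Subgroup (E.Γ C) :=
  (sg E.ok.grp.2.2 C).subgroupOf _

/-- the endomorphism `F` -/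
def OB.FF (C : Type) [CommRing C] [Algebra k C] : E.Γ C →* E.Γ C :=
  MonoidHom.mk' (fun g => mkG (E.fr (mx g)) (E.ok.hom C _ _ (mx_sol g) (mx_sol g)).1) fun g h =>
    mx_inj (E.ok.hom C _ _ (mx_sol g) (mx_sol h)).2.1

/-- the functor of `G` -/
def OB.fG : Fn k where
  obj C _ _ := E.Γ C
  map φ g := mp φ g
  map_id g := rfl
  map_comp φ ψ g := rfl

variable {E}

theorem mem_BB {g : E.Γ C} : g ∈ E.BB C ↔ Sol E.B (mx g) := Iff.rfl

theorem mem_PP {g : E.Γ C} : g ∈ E.PP C ↔ Sol E.Pa (mx g) := Iff.rfl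

theorem BB_le {g : E.Γ C} (h : g ∈ E.BB C) : g ∈ E.PP C := Sol.mono h E.ok.sub.2

theorem mp_BB (φ : C →ₐ[k] C') {g : E.Γ C} (h : g ∈ E.BB C) : mp φ g ∈ E.BB C' := Sol.map h φ

theorem mp_PP (φ : C →ₐ[k] C') {g : E.Γ C} (h : g ∈ E.PP C) : mp φ g ∈ E.PP C' := Sol.map h φ

theorem mx_FF (g : E.Γ C) : mx (E.FF C g) = E.fr (mx g) := rfl

theorem fr_map (D : Bru k n r) (φ : C →ₐ[k] C') (g : Mx n C) :
    D.fr (g.map φ) = (D.fr g).map φ := by
  ext a b
  exact vl_map φ g _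

theorem mp_FF (φ : C →ₐ[k] C') (g : E.Γ C) : mp φ (E.FF C g) = E.FF C' (mp φ g) :=
  mx_inj (fr_map _ φ _).symm

theorem FF_BB {g : E.Γ C} (h : g ∈ E.BB C) : E.FF C g ∈ E.BB C :=
  (E.ok.hom C _ _ (mx_sol g) (mx_sol g)).2.2 h

theorem sol_B_G {g : Mx n C} (h : Sol E.B g) : Sol E.G g := (h.mono E.ok.sub.2).mono E.ok.sub.1

theorem sol_P_G {g : Mx n C} (h : Sol E.Pa g) : Sol E.G g := h.mono E.ok.sub.1

variable {j : ℕ}

/-- the unipotent part of a cell -/
def cc (hj : j < E.M) (a : Fin (E.l j) → C) : E.Γ C :=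
  mkG ((E.c j).map (MvPolynomial.aeval a)) (sol_B_G (((E.ok.cel j hj).2 C).1 a))

/-- the rational point of a cell -/
def ww (hj : j < E.M) : E.Γ k := mkG (E.w j) (E.ok.cel j hj).1

theorem cc_BB (hj : j < E.M) (a : Fin (E.l j) → C) : cc hj a ∈ E.BB C := ((E.ok.cel j hj).2 C).1 a

theorem mp_cc (hj : j < E.M) (φ : C →ₐ[k] C') (a : Fin (E.l j) → C) :
    mp φ (cc hj a) = cc hj fun i => φ (a i) := by
  refine mx_inj ?_
  ext s t
  exact MvPolynomial.comp_aeval_apply a φ _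

theorem mx_cel (hj : j < E.M) (a : Fin (E.l j) → C) (b : E.Γ C) :
    mx (cc hj a * rt C (ww hj) * b) =
      (E.c j).map (MvPolynomial.aeval a) * (E.w j).map (algebraMap k C) * mx b := rfl

theorem cel_ex (hj : j < E.M) {g : E.Γ C} (h1 : Sol (E.Z (j + 1)) (mx g))
    (h2 : Ideal.span (vl (mx g) '' E.Z j) = ⊤) :
    ∃ (a : Fin (E.l j) → C) (b : E.Γ C), b ∈ E.BB C ∧ g = cc hj a * rt C (ww hj) * b := by
  obtain ⟨⟨a, b⟩, hb, e⟩ := ((E.ok.cel j hj).2 C).2.surjOn ⟨mx_sol g, h1, h2⟩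
  exact ⟨a, mkG b (sol_B_G hb), hb, mx_inj e.symm⟩

theorem cel_uniq (hj : j < E.M) {a a' : Fin (E.l j) → C} {b b' : E.Γ C} (hb : b ∈ E.BB C)
    (hb' : b' ∈ E.BB C) (e : cc hj a * rt C (ww hj) * b = cc hj a' * rt C (ww hj) * b') :
    a = a' ∧ b = b' := by
  have e0 := congrArg mx e
  rw [mx_cel, mx_cel] at e0
  have hb1 : (a, mx b) ∈ {x : (Fin (E.l j) → C) × Mx n C | Sol E.B x.2} := mem_BB.1 hb
  have hb2 : (a', mx b') ∈ {x : (Fin (E.l j) → C) × Mx n C | Sol E.B x.2} := mem_BB.1 hb'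
  have h0 := ((E.ok.cel j hj).2 C).2.injOn hb1 hb2
  dsimp only at h0
  have h := h0 e0
  exact ⟨congrArg Prod.fst h, mx_inj (congrArg Prod.snd h)⟩

theorem cel_mem (hj : j < E.M) (a : Fin (E.l j) → C) {b : E.Γ C} (hb : b ∈ E.BB C) :
    Sol (E.Z (j + 1)) (mx (cc hj a * rt C (ww hj) * b)) ∧
      Ideal.span (vl (mx (cc hj a * rt C (ww hj) * b)) '' E.Z j) = ⊤ :=
  (((E.ok.cel j hj).2 C).2.mapsTo (x := (a, mx b)) hb).2

theorem dbl_pt (x y : E.Γ k) [Nontrivial C] {p q : E.Γ C} (hp : p ∈ E.PP C) (hq : q ∈ E.PP C)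
    (e : rt C x * q = p * rt C y) : ∃ p q : E.Γ k, p ∈ E.PP k ∧ q ∈ E.PP k ∧ x * q = p * y := by
  obtain ⟨p', q', h1, h2, h3⟩ := E.ok.dbl _ _ (mx_sol x) (mx_sol y) C _ _ hp hq (congrArg mx e)
  exact ⟨mkG p' (sol_P_G h1), mkG q' (sol_P_G h2), h1, h2, mx_inj h3⟩

/-- natural maps to the group -/
structure NG (X : Fn k) (E : OB k n r) where
  g : (C : Type) → [CommRing C] → [Algebra k C] → X.obj C → E.Γ C
  nat : ∀ {C C' : Type} [CommRing C] [Algebra k C] [CommRing C'] [Algebra k C'] (φ : C →ₐ[k] C')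
    (x : X.obj C), g C' (X.map φ x) = mp φ (g C x)

variable {X : Fn k}

/-- the condition of solving equations -/
def cS (S : Set (Pn k n)) (h : NG X E) : Cnd X :=
  ⟨fun C _ _ x => Sol S (mx (h.g C x)), fun φ x hx => by rw [h.nat]; exact hx.map φ⟩

/-- the condition of equality -/
def cE (h h' : NG X E) : Cnd X :=
  ⟨fun C _ _ x => h.g C x = h'.g C x, fun φ x hx => by rw [h.nat, h'.nat, hx]⟩

/-- conjunction -/
def Cnd.and (q q' : Cnd X) : Cnd X :=
  ⟨fun C _ _ x => q.p C x ∧ q'.p C x, fun φ x hx => ⟨q.st φ x hx.1, q'.st φ x hx.2⟩⟩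

theorem cl_cS (S : Set (Pn k n)) (h : NG X E) : (cS S h).Cl := fun R _ _ x =>
  ⟨Ideal.span (vl (mx (h.g R x)) '' S), fun C _ _ φ => by
    show Sol S (mx (h.g C _)) ↔ _
    rw [h.nat]
    exact sol_map_iff S _ φ⟩

theorem cl_cE (h h' : NG X E) : (cE h h').Cl := fun R _ _ x =>
  ⟨Ideal.span (Set.range fun ab : Fin n × Fin n =>
    mx (h.g R x) ab.1 ab.2 - mx (h'.g R x) ab.1 ab.2), fun C _ _ φ => by
    show h.g C _ = h'.g C _ ↔ _
    rw [h.nat, h'.nat]
    constructor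
    · intro e i hi
      refine (Ideal.span_le (I := RingHom.ker φ)).2 ?_ hi
      rintro _ ⟨ab, rfl⟩
      exact (map_sub φ _ _).trans (sub_eq_zero.2 (congrFun (congrFun (congrArg mx e) ab.1) ab.2))
    · intro e
      refine mx_inj ?_
      ext a b
      exact sub_eq_zero.1 ((map_sub φ _ _).symm.trans (e _ (Ideal.subset_span ⟨(a, b), rfl⟩)))⟩

theorem Cnd.Cl.and {q q' : Cnd X} (h : q.Cl) (h' : q'.Cl) : (q.and q').Cl := fun R _ _ x => by
  obtain ⟨I, hI⟩ := h R x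
  obtain ⟨J, hJ⟩ := h' R x
  refine ⟨I ⊔ J, fun C _ _ φ => (and_congr (hI C φ) (hJ C φ)).trans ⟨fun e i hi => ?_,
    fun e => ⟨fun i hi => e i (Ideal.mem_sup_left hi), fun i hi => e i (Ideal.mem_sup_right hi)⟩⟩⟩
  exact (sup_le (c := RingHom.ker φ) e.1 e.2) hi

/-- the value of a polynomial on a natural point -/
def nv (h : NG X E) (f : Pn k n) : NF X :=
  ⟨fun C _ _ x => vl (mx (h.g C x)) f, fun φ x => by rw [h.nat]; exact vl_map φ _ f⟩

end Pool.Agent.P.MP_1bf4cb_ag.RG
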