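import Pool.Agent.P.MP_1bf4cb_ag.Defs

/-! Split Bruhat data and the affine model of the variety of cosets `gB` with `g⁻¹ F(g) ∈ P`. -/

namespace Pool.Agent.P.MP_1bf4cb_ag.RG

open Matrix

/-- Square matrices. -/
abbrev Mx (n : ℕ) (C : Type) := Matrix (Fin n) (Fin n) C

/-- Polynomials in the entries of a square matrix. -/
abbrev Pn (k : Type) [Field k] (n : ℕ) := MvPolynomial (Fin n × Fin n) k

variable {k : Type} [Field k] {n r : ℕ}

/-- The value of a polynomial at a matrix. -/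
noncomputable def vl {C : Type} [CommRing C] [Algebra k C] (g : Mx n C) (f : Pn k n) : C :=
  MvPolynomial.aeval (fun ab => g ab.1 ab.2) f

/-- The matrix `g` solves the equations `S`. -/
def Sol {C : Type} [CommRing C] [Algebra k C] (S : Set (Pn k n)) (g : Mx n C) : Prop :=
  ∀ f ∈ S, vl g f = 0

/-- The equations `S` define a closed subgroup scheme of the special linear group. -/
def Grp (S : Set (Pn k n)) : Prop :=
  ∀ (C : Type) [CommRing C] [Algebra k C], Sol S (1 : Mx n C) ∧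
    ∀ g h : Mx n C, Sol S g → Sol S h → g.det = 1 ∧ Sol S (g * h.adjugate)

/-- Equations of `G`, `B`, `P`, a polynomial map `F`, weights of a diagonal torus, a parametrisation
`u`, and cells: parametrisations `c j`, rational points `w j`, equations `Z j`. -/
structure Bru (k : Type) [Field k] (n r : ℕ) where
  G : Set (Pn k n)
  B : Set (Pn k n)
  Pa : Set (Pn k n)
  F : Mx n (Pn k n)
  wt : Fin n → Fin r → ℤ
  N : ℕ
  u : Mx n (MvPolynomial (Fin N) k)
  M : ℕ
  l : ℕ → ℕ
  c : (j : ℕ) → Mx n (MvPolynomial (Fin (l j)) k)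
  w : ℕ → Mx n k
  Z : ℕ → Set (Pn k n)

/-- The map `F` on matrices. -/
noncomputable def Bru.fr (D : Bru k n r) {C : Type} [CommRing C] [Algebra k C] (g : Mx n C) :
    Mx n C := D.F.map (vl g)

/-- `F` is an endomorphism of `G` that keeps `B`. -/
def Bru.Hom (D : Bru k n r) : Prop :=
  ∀ (C : Type) [CommRing C] [Algebra k C] (g h : Mx n C), Sol D.G g → Sol D.G h →
    Sol D.G (D.fr g) ∧ D.fr (g * h) = D.fr g * D.fr h ∧ (Sol D.B g → Sol D.B (D.fr g))

/-- A power of `F` is a power of the Frobenius of `k`. -/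
def Bru.Pow (D : Bru k n r) : Prop :=
  ∃ ρ e : ℕ, 0 < e ∧ ∀ (C : Type) [CommRing C] [Algebra k C] (g : Mx n C), Sol D.G g →
    D.fr^[ρ] g = g.map (· ^ Nat.card k ^ e)

/-- `B` is the product of an affine space and a split torus. -/
def Bru.Bor (D : Bru k n r) : Prop :=
  ∀ (C : Type) [CommRing C] [Algebra k C], Set.BijOn
    (fun x : (Fin D.N → C) × (Fin r → Cˣ) =>
      D.u.map (MvPolynomial.aeval x.1) * diagonal fun a => ((∏ i, x.2 i ^ D.wt a i : Cˣ) : C))
    Set.univ {g | Sol D.B g}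

/-- The `j`-th step of the filtration of `G` is the cell of `w j`. -/
def Bru.Cel (D : Bru k n r) (j : ℕ) : Prop :=
  Sol D.G (D.w j) ∧ ∀ (C : Type) [CommRing C] [Algebra k C],
    (∀ a : Fin (D.l j) → C, Sol D.B ((D.c j).map (MvPolynomial.aeval a))) ∧ Set.BijOn
      (fun x : (Fin (D.l j) → C) × Mx n C =>
        (D.c j).map (MvPolynomial.aeval x.1) * (D.w j).map (algebraMap k C) * x.2)
      {x | Sol D.B x.2} {g | Sol D.G g ∧ Sol (D.Z (j + 1)) g ∧ Ideal.span (vl g '' D.Z j) = ⊤}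

/-- Rational points in one double coset of `P` over an algebra are in one double coset over `k`. -/
def Bru.Dbl (D : Bru k n r) : Prop :=
  ∀ x y : Mx n k, Sol D.G x → Sol D.G y → ∀ (C : Type) [CommRing C] [Algebra k C]
    [Nontrivial C] (p q : Mx n C), Sol D.Pa p → Sol D.Pa q →
    x.map (algebraMap k C) * q = p * y.map (algebraMap k C) →
    ∃ p q : Mx n k, Sol D.Pa p ∧ Sol D.Pa q ∧ x * q = p * y

/-- The axioms of a split Bruhat datum with a Steinberg endomorphism. -/
structure Bru.Ok (D : Bru k n r) : Prop where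
  grp : Grp D.G ∧ Grp D.B ∧ Grp D.Pa
  sub : D.G ⊆ D.Pa ∧ D.Pa ⊆ D.B
  smo : Algebra.Smooth k (Pn k n ⧸ Ideal.span D.G) ∧ Algebra.Smooth k (Pn k n ⧸ Ideal.span D.Pa)
  hom : D.Hom
  pow : D.Pow
  bor : D.Bor
  span : AddSubgroup.closure (Set.range D.wt) = ⊤
  ends : D.Z 0 = {1} ∧ D.Z D.M = ∅
  cel : ∀ j < D.M, D.Cel j
  dbl : D.Dbl

/-- Two generic matrices. -/
noncomputable def gn (k : Type) [Field k] (n : ℕ) (s : Bool) :
    Mx n (MvPolynomial (Bool × Fin n × Fin n) k) := Matrix.of fun a b => MvPolynomial.X (s, a, b)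

/-- The equations of pairs of matrices `g ∈ G` with `g⁻¹ F(g) ∈ P`. -/
def Bru.rel (D : Bru k n r) : Set (MvPolynomial (Bool × Fin n × Fin n) k) :=
  {x | ∃ s, x ∈ vl (gn k n s) '' D.G ∨ x ∈ vl ((gn k n s).adjugate * D.fr (gn k n s)) '' D.Pa}

/-- The coordinate ring of pairs of matrices `g ∈ G` with `g⁻¹ F(g) ∈ P`. -/
abbrev Bru.Frm (D : Bru k n r) := MvPolynomial (Bool × Fin n × Fin n) k ⧸ Ideal.span D.rel

/-- The functions invariant under right multiplication by the torus on each matrix. -/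
noncomputable def Bru.Inv (D : Bru k n r) : Subalgebra k D.Frm :=
  Algebra.adjoin k {x | ∃ m : Bool × Fin n × Fin n →₀ ℕ,
    (∀ s, ∑ a, ∑ b, m (s, a, b) • D.wt b = 0) ∧ x = Ideal.Quotient.mk _ (MvPolynomial.monomial m 1)}

/-- The ideal saying that the second matrix lies in `g^(Q) B`, `g` the first matrix. -/
noncomputable def Bru.gph (D : Bru k n r) (Q : ℕ) : Ideal D.Inv :=
  (Ideal.span (vl ((((gn k n false).map (· ^ Q)).adjugate * gn k n true).map
    (Ideal.Quotient.mk _ : _ →+* D.Frm)) '' D.B)).comap D.Inv.val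

open scoped TensorProduct in
/-- The linear map `ℚ[T] → ℚ ⊗ G₀` sending `T ^ a` to the class of the subscheme with ideal `I a`. -/
noncomputable def evl {A : Type} [CommRing A] (I : ℕ → Ideal A) (f : Polynomial ℚ) :
    ℚ ⊗[ℤ] G0 A :=
  f.sum fun a t => t ⊗ₜ[ℤ] cyc (I a)

/-- After `evl I`, the `π i` are orthogonal idempotents whose sum is the unit. -/
def Ort {A : Type} [CommRing A] (I : ℕ → Ideal A) {N : ℕ} (π : Fin (N + 1) → Polynomial ℚ) : Prop :=
  (∀ i j, evl I (π i * π j) = if i = j then evl I (π i) else 0) ∧ ∑ i, evl I (π i) = evl I 1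

end Pool.Agent.P.MP_1bf4cb_ag.RG
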