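import Pool.Agent.P.MP_1bf4cb_ag.RD

set_option autoImplicit false
set_option maxHeartbeats 400000
set_option linter.unusedSectionVars false
set_option linter.unusedVariables false

open Function Matrix
open scoped TensorProduct

noncomputable section

namespace Pool.Agent.P.MP_1bf4cb_ag.RG

variable {k : Type} [Field k] {n r : ℕ} {C C' : Type} [CommRing C] [Algebra k C] [CommRing C']
  [Algebra k C'] {E : OB k n r}

/-- families of points of the group -/
def OB.pw (E : OB k n r) (ι : Type) : Fn k where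
  obj C _ _ := ι → E.Γ C
  map φ g := fun s => mp φ (g s)
  map_id g := rfl
  map_comp φ ψ g := rfl

/-- the entries of a family of points -/
def ent {ι : Type} (x : ι → E.Γ C) (v : ι × Fin n × Fin n) : C := mx (x v.1) v.2.1 v.2.2

theorem rp_span {ι : Type} [Finite ι] (q : Cnd (E.pw ι))
    (T : Set (MvPolynomial (ι × Fin n × Fin n) k))
    (h1 : ∀ (C : Type) [CommRing C] [Algebra k C] (ψ : MvPolynomial (ι × Fin n × Fin n) k →ₐ[k] C),
      (∀ t ∈ T, ψ t = 0) → ∃ x : ι → E.Γ C, (∀ v, ent x v = ψ (MvPolynomial.X v)) ∧ q.p C x)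
    (h2 : ∀ (C : Type) [CommRing C] [Algebra k C] (x : ι → E.Γ C), q.p C x →
      ∀ t ∈ T, MvPolynomial.aeval (ent x) t = 0) :
    ∃ x, Rp ((E.pw ι).sub q) (MvPolynomial (ι × Fin n × Fin n) k ⧸ Ideal.span T) x ∧
      ∀ v, ent x.1 v = Ideal.Quotient.mk _ (MvPolynomial.X v) := by
  obtain ⟨x, hx, hq⟩ := h1 _ (Ideal.Quotient.mkₐ k (Ideal.span T))
    fun t ht => Ideal.Quotient.eq_zero_iff_mem.2 (Ideal.subset_span ht)
  refine ⟨⟨x, hq⟩, ⟨inferInstance, fun C _ _ y => ?_, fun C _ _ φ ψ h => ?_⟩, hx⟩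
  · have hk0 : Ideal.span T ≤ RingHom.ker (MvPolynomial.aeval (ent y.1) : _ →ₐ[k] C) :=
      Ideal.span_le.2 fun t ht => h2 C y.1 y.2 t ht
    have hk : ∀ a ∈ Ideal.span T, (MvPolynomial.aeval (ent y.1) : _ →ₐ[k] C) a = 0 :=
      fun a ha => hk0 ha
    refine ⟨Ideal.Quotient.liftₐ _ (MvPolynomial.aeval (ent y.1)) hk,
      Subtype.ext (funext fun s => mx_inj ?_)⟩
    ext a b
    show Ideal.Quotient.liftₐ _ (MvPolynomial.aeval (ent y.1)) hk
      (ent x (s, a, b)) = ent y.1 (s, a, b)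
    rw [hx]
    simp
  · refine Ideal.Quotient.algHom_ext k (MvPolynomial.algHom_ext fun v => ?_)
    show φ (Ideal.Quotient.mkₐ k _ _) = ψ (Ideal.Quotient.mkₐ k _ _)
    rw [← hx]
    exact congrArg (fun z : ((E.pw ι).sub q).obj C => ent z.1 v) h

/-- generic matrices -/
def gm (k : Type) [Field k] (n : ℕ) {ι : Type} (s : ι) :
    Mx n (MvPolynomial (ι × Fin n × Fin n) k) := Matrix.of fun a b => MvPolynomial.X (s, a, b)

theorem gm_map {ι : Type} (x : ι → E.Γ C) (s : ι) :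
    (gm k n s).map (MvPolynomial.aeval (ent x) : _ →ₐ[k] C) = mx (x s) := by
  ext a b
  exact MvPolynomial.aeval_X _ _

theorem ex_gen {ι : Type} [Finite ι] {q : Cnd (E.pw ι)} (hq : q.Cl) :
    ∃ (R : Type) (_ : CommRing R) (_ : Algebra k R) (x : ((E.pw ι).sub q).obj R),
      Rp ((E.pw ι).sub q) R x ∧ Surjective (MvPolynomial.aeval (ent x.1) : _ →ₐ[k] R) := by
  obtain ⟨x, hx, hv⟩ := rp_span (E := E) (ι := ι) ⟨fun _ _ _ _ => True, fun _ _ _ => trivial⟩
    {t | ∃ s, t ∈ vl (gm k n s) '' E.G}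
    (fun C _ _ ψ h => ⟨fun s => mkG ((gm k n s).map ψ) fun f hf =>
      (vl_map ψ _ f).trans (h _ ⟨s, f, hf, rfl⟩), fun v => rfl, trivial⟩)
    (by
      rintro C _ _ x - _ ⟨s, f, hf, rfl⟩
      rw [← vl_map, gm_map]
      exact mx_sol _ f hf)
  have h1 := hx.iso (Y := E.pw ι) ⟨fun C _ _ y => y.1, fun C _ _ =>
    ⟨Subtype.val_injective, fun y => ⟨⟨y, trivial⟩, rfl⟩⟩, fun φ y => rfl⟩
  obtain ⟨I, hI⟩ := hq _ x.1
  refine ⟨_, _, _, _, rp_quot h1 q I hI, ?_⟩
  have e : (MvPolynomial.aeval (ent ((E.pw ι).map (Ideal.Quotient.mkₐ k I) x.1)) : _ →ₐ[k] _) =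
      (Ideal.Quotient.mkₐ k I).comp (Ideal.Quotient.mkₐ k _) := by
    refine MvPolynomial.algHom_ext fun v => ?_
    rw [MvPolynomial.aeval_X]
    exact congrArg (Ideal.Quotient.mkₐ k I) (hv v)
  show Surjective (MvPolynomial.aeval (ent ((E.pw ι).map (Ideal.Quotient.mkₐ k I) x.1)) : _ →ₐ[k] _)
  rw [e]
  exact (Ideal.Quotient.mkₐ_surjective k I).comp (Ideal.Quotient.mkₐ_surjective k _)

theorem ex_fG : Ex E.fG := by
  obtain ⟨R, _, _, x, h, -⟩ := ex_gen (E := E) (ι := Unit)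
    (q := ⟨fun _ _ _ _ => True, fun _ _ _ => trivial⟩)
    fun R _ _ x => ⟨⊥, fun C _ _ φ => ⟨fun _ i hi => by rw [Ideal.mem_bot.1 hi, map_zero],
      fun _ => trivial⟩⟩
  exact ⟨R, _, _, _, h.iso ⟨fun C _ _ y => y.1 (), fun C _ _ =>
    ⟨fun a b e => Subtype.ext (funext fun _ => e), fun y => ⟨⟨fun _ => y, trivial⟩, rfl⟩⟩,
    fun φ y => rfl⟩⟩

/-- the tautological point -/
def nId (E : OB k n r) : NG E.fG E := ⟨fun C _ _ g => g, fun φ g => rfl⟩

/-- the functor of `B` -/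
def OB.fB (E : OB k n r) : Fn k := E.fG.sub (cS E.B (nId E))

/-- the functor of `P` -/
def OB.fP (E : OB k n r) : Fn k := E.fG.sub (cS E.Pa (nId E))

theorem ex_fB : Ex E.fB := ex_fG.sub (cl_cS _ _)

theorem ex_fP : Ex E.fP := ex_fG.sub (cl_cS _ _)

/-- the split torus -/
def fT (k : Type) [Field k] (r : ℕ) : Fn k where
  obj C _ _ := Fin r → Cˣ
  map φ t := fun i => Units.map (φ : _ →* _) (t i)
  map_id t := rfl
  map_comp φ ψ t := rfl

/-- the product of the coordinates -/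
def nP (k : Type) [Field k] (r : ℕ) : NF (aff k (Fin r)) :=
  ⟨fun C _ _ t => ∏ i, t i, fun φ t => (map_prod φ t _).symm⟩

/-- the torus as an open part of affine space -/
def niT (k : Type) [Field k] (r : ℕ) : NI (fT k r) ((aff k (Fin r)).loc (nP k r)) where
  ap C _ _ t := ⟨fun i => (t i : C),
    show IsUnit (∏ i, (t i : C)) from IsUnit.prod_iff.2 fun i _ => (t i).isUnit⟩
  bij C _ _ := ⟨fun s t h => funext fun i => Units.ext (congrFun (congrArg Subtype.val h) i),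
    fun t => ⟨fun i => ((IsUnit.prod_iff.1 (show IsUnit (∏ i, (t.1 i : C)) from t.2)) i
      (Finset.mem_univ i)).unit, rfl⟩⟩
  nat φ t := rfl

theorem ex_fT : Ex (fT k r) := ((ex_aff _).loc _).iso (niT k r).symm

theorem sc_fT : SC (fT k r) := ((sc_aff _).loc (ex_aff _) _).iso (niT k r).symm

theorem po_fT (t : (fT k r).obj k) : PO (fT k r) t := by
  have h := ((po_aff (Fin r) _).loc (nP k r) ((niT k r).ap k t).2).iso (niT k r).symm
  have e : (niT k r).symm.ap k ((niT k r).ap k t) = t :=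
    ((niT k r).bij k).1 ((niT k r).ap_symm k _)
  exact e ▸ h

/-- the diagonal matrix of a point of the torus -/
def dT (E : OB k n r) (t : Fin r → Cˣ) : Mx n C :=
  diagonal fun a => ((∏ i, t i ^ E.wt a i : Cˣ) : C)

theorem dT_map (φ : C →ₐ[k] C') (t : Fin r → Cˣ) :
    (dT E t).map φ = dT E fun i => Units.map (φ : C →* C') (t i) := by
  unfold dT
  rw [diagonal_map (map_zero φ)]
  congr 1
  funext a
  have : φ ((∏ i, t i ^ E.wt a i : Cˣ) : C) =
    ((Units.map (φ : C →* C') (∏ i, t i ^ E.wt a i) : C'ˣ) : C') := rfl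
  rw [this, map_prod]
  simp only [map_zpow]

theorem sol_uT (a : Fin E.N → C) (t : Fin r → Cˣ) :
    Sol E.B (E.u.map (MvPolynomial.aeval a) * dT E t) :=
  (E.ok.bor C).mapsTo (x := (a, t)) (Set.mem_univ _)

/-- the structure of `B` -/
def niB (E : OB k n r) : NI ((aff k (Fin E.N)).prod (fT k r)) E.fB where
  ap C _ _ x := ⟨mkG (E.u.map (MvPolynomial.aeval x.1) * dT E x.2) (sol_B_G (sol_uT _ _)),
    sol_uT _ _⟩
  bij C _ _ := by
    constructor
    · intro x y h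
      have h1 : E.u.map (MvPolynomial.aeval x.1) * dT E x.2 =
        E.u.map (MvPolynomial.aeval y.1) * dT E y.2 := congrArg (fun z : E.fB.obj C => mx z.1) h
      exact (E.ok.bor C).injOn (Set.mem_univ x) (Set.mem_univ y) h1
    · intro b
      obtain ⟨x, -, hx⟩ := (E.ok.bor C).surjOn (show mx b.1 ∈ {g | Sol E.B g} from b.2)
      exact ⟨x, Subtype.ext (mx_inj hx)⟩
  nat {C C'} _ _ _ _ φ x := by
    refine Subtype.ext (mx_inj ?_)
    show _ = (E.u.map (MvPolynomial.aeval x.1) * dT E x.2).map (φ : C →+* C')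
    rw [Matrix.map_mul]
    show E.u.map (MvPolynomial.aeval fun i => φ (x.1 i)) *
      dT E (fun i => Units.map (φ : C →* C') (x.2 i)) = _
    rw [← dT_map]
    congr 1
    ext s t
    exact (MvPolynomial.comp_aeval_apply x.1 φ _).symm

theorem sc_fB : SC E.fB := ((sc_aff _).prod (ex_aff _) sc_fT).iso (niB E)

theorem po_fB (b : E.fB.obj k) : PO E.fB b := by
  obtain ⟨x, rfl⟩ := ((niB E).bij k).2 b
  exact ((po_aff _ x.1).prod (po_fT x.2)).iso (niB E)

/-- the point of `B` with given parameters -/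
def bG (E : OB k n r) (a : Fin E.N → C) (t : Fin r → Cˣ) : E.Γ C :=
  mkG (E.u.map (MvPolynomial.aeval a) * dT E t) (sol_B_G (sol_uT _ _))

/-- the point of the torus in the group -/
def tG (E : OB k n r) (t : Fin r → Cˣ) : E.Γ C := (bG E 0 1)⁻¹ * bG E 0 t

theorem tG_BB (t : Fin r → Cˣ) : tG E t ∈ E.BB C :=
  mul_mem (inv_mem (mem_BB.2 (sol_uT _ _))) (mem_BB.2 (sol_uT _ _))

theorem mx_tG (t : Fin r → Cˣ) : mx (tG E t) = dT E t := by
  have h1 : dT E (1 : Fin r → Cˣ) = 1 := by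
    unfold dT
    simp
  have h2 : mx (bG E 0 t) = mx (bG E (C := C) 0 1) * dT E t := by
    show _ = E.u.map (MvPolynomial.aeval (0 : Fin E.N → C)) * dT E 1 * dT E t
    rw [h1, Matrix.mul_one]
    rfl
  unfold tG
  rw [mx_mul, h2, ← Matrix.mul_assoc, ← mx_mul, inv_mul_cancel, mx_one, Matrix.one_mul]

end Pool.Agent.P.MP_1bf4cb_ag.RG
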