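import Pool.Agent.P.MP_1bf4cb_ag.RE

set_option autoImplicit false
set_option maxHeartbeats 400000
set_option linter.unusedSectionVars false
set_option linter.unusedVariables false

open Function Matrix
open scoped TensorProduct

noncomputable section

namespace Pool.Agent.P.MP_1bf4cb_ag.RG

variable {k : Type} [Field k] {n r : ℕ} {C C' : Type} [CommRing C] [Algebra k C] [CommRing C']
  [Algebra k C'] {E : OB k n r} {X Y : Fn k} {j : ℕ}

/-- a point depending on the first factor -/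
def NG.fst (h : NG X E) (Y : Fn k) : NG (X.prod Y) E :=
  ⟨fun C _ _ x => h.g C x.1, fun φ x => h.nat φ x.1⟩

/-- a point depending on the second factor -/
def NG.snd (h : NG X E) (Y : Fn k) : NG (Y.prod X) E :=
  ⟨fun C _ _ x => h.g C x.2, fun φ x => h.nat φ x.2⟩

/-- the parameters of a cell -/
def OB.fC (E : OB k n r) (j : ℕ) : Fn k := (aff k (Fin (E.l j))).prod E.fB

/-- the group element underlying a point of `B` -/
def gB (b : E.fB.obj C) : E.Γ C := b.1

theorem gB_mem (b : E.fB.obj C) : gB b ∈ E.BB C := b.2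

/-- the point of a cell -/
def cel (hj : j < E.M) (y : (E.fC j).obj C) : E.Γ C := cc hj y.1 * rt C (ww hj) * gB y.2

theorem mp_cel (hj : j < E.M) (φ : C →ₐ[k] C') (y : (E.fC j).obj C) :
    mp φ (cel hj y) = cel hj ((E.fC j).map φ y) := by
  unfold cel
  rw [map_mul, map_mul, mp_cc, mp_rt]
  rfl

theorem cel_inj (hj : j < E.M) {y y' : (E.fC j).obj C} (e : cel hj y = cel hj y') : y = y' := by
  obtain ⟨h1, h2⟩ := cel_uniq hj (gB_mem y.2) (gB_mem y'.2) e
  exact Prod.ext h1 (Subtype.ext h2)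

theorem cel_surj (hj : j < E.M) {g : E.Γ C} (h1 : Sol (E.Z (j + 1)) (mx g))
    (h2 : Ideal.span (vl (mx g) '' E.Z j) = ⊤) : ∃ y, cel hj y = g := by
  obtain ⟨a, b, hb, e⟩ := cel_ex hj h1 h2
  exact ⟨(a, ⟨b, hb⟩), e.symm⟩

theorem cel_sol (hj : j < E.M) (y : (E.fC j).obj C) :
    Sol (E.Z (j + 1)) (mx (cel hj y)) ∧ Ideal.span (vl (mx (cel hj y)) '' E.Z j) = ⊤ :=
  cel_mem hj y.1 (gB_mem y.2)

/-- the point of a cell as a natural map -/
def nC (hj : j < E.M) : NG (E.fC j) E := ⟨fun C _ _ y => cel hj y, fun φ y => (mp_cel hj φ y).symm⟩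

theorem ex_fC : Ex (E.fC j) := (ex_aff _).prod ex_fB

theorem sc_fC : SC (E.fC j) := (sc_aff _).prod (ex_aff _) sc_fB

theorem po_fC (y : (E.fC j).obj k) : PO (E.fC j) y := (po_aff _ y.1).prod (po_fB y.2)

/-- the stratum over a cell -/
def Cel (h : NG X E) (hj : j < E.M) : Fn k :=
  (X.prod (E.fC j)).sub (cE (h.fst _) ((nC hj).snd _))

theorem step_RF {R : Type} [CommRing R] [Algebra k R] {x : X.obj R} (hx : Rp X R x) (h : NG X E)
    (hj : j < E.M) (hc : CF (Cel h hj)) (hA : CellI R (Ideal.span (vl (mx (h.g R x)) '' E.Z j))) :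
    CellI R (Ideal.span (vl (mx (h.g R x)) '' E.Z (j + 1))) := by
  classical
  have := hx.noeth
  obtain ⟨P, _, _, z, hz⟩ : Ex (Cel h hj) :=
    (Ex.prod ⟨R, _, _, x, hx⟩ ex_fC).sub (cl_cE _ _)
  obtain ⟨ψ, hψ⟩ := hx.ex P z.1.1
  have hz2 : h.g P z.1.1 = cel hj z.1.2 := z.2
  obtain ⟨F, hF1, hF2⟩ := (Submodule.fg_span_iff_fg_span_finset_subset
    (vl (mx (h.g R x)) '' E.Z j)).1 (IsNoetherian.noetherian (R := R) _)
  set b := Ideal.span (vl (mx (h.g R x)) '' E.Z (j + 1)) with hb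
  have hbk : ∀ i ∈ b, ψ i = 0 := by
    refine (sol_map_iff _ _ ψ).1 ?_
    rw [← mx_mp, ← h.nat, hψ, hz2]
    exact (cel_sol hj _).1
  have key : ∀ f ∈ F, ∃ θ : P →ₐ[k] Localization.Away (Ideal.Quotient.mk b f),
      θ.comp ψ = (IsScalarTower.toAlgHom k (R ⧸ b) _).comp (Ideal.Quotient.mkₐ k b) := by
    intro f hf
    set π : R →ₐ[k] Localization.Away (Ideal.Quotient.mk b f) :=
      (IsScalarTower.toAlgHom k (R ⧸ b) _).comp (Ideal.Quotient.mkₐ k b) with hπ
    have h1 : Sol (E.Z (j + 1)) (mx (h.g _ (X.map π x))) := by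
      rw [h.nat, mx_mp]
      refine (sol_map_iff _ _ π).2 fun i hi => ?_
      show algebraMap (R ⧸ b) _ (Ideal.Quotient.mk b i) = 0
      rw [Ideal.Quotient.eq_zero_iff_mem.2 hi, map_zero]
    have h2 : Ideal.span (vl (mx (h.g _ (X.map π x))) '' E.Z j) = ⊤ := by
      rw [h.nat, mx_mp, ← span_map_vl]
      exact Ideal.eq_top_of_isUnit_mem _ (Ideal.mem_map_of_mem π (Ideal.subset_span (hF1 hf)))
        (IsLocalization.Away.algebraMap_isUnit (Ideal.Quotient.mk b f))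
    obtain ⟨y, hy⟩ := cel_surj hj h1 h2
    obtain ⟨θ, hθ⟩ := hz.ex _ ⟨(X.map π x, y), hy.symm⟩
    refine ⟨θ, hx.ext _ _ _ ?_⟩
    rw [← X.map_comp, hψ]
    exact congrArg (fun w : (Cel h hj).obj _ => w.1.1) hθ
  refine step (ψ : R →+* P) F b (fun f hf y => ?_) (fun i hi => hbk i hi)
    (fun 𝔭 h𝔭 hb𝔭 ⟨f, hf, hf𝔭⟩ i hi => ?_) (hc P z hz) (mono_RB hA ?_)
  · obtain ⟨θ, hθ⟩ := key f hf
    let ι : P →ₐ[k] Localization.Away (ψ f) := IsScalarTower.toAlgHom k P _
    let ψ' : (R ⧸ b) →ₐ[k] Localization.Away (ψ f) :=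
      ι.comp (Ideal.Quotient.liftₐ b ψ hbk)
    have hu : IsUnit (ψ' (Ideal.Quotient.mk b f)) :=
      IsLocalization.Away.algebraMap_isUnit (ψ f)
    let θ' : Localization.Away (Ideal.Quotient.mk b f) →ₐ[k] Localization.Away (ψ f) :=
      IsLocalization.Away.liftAlgHom (Ideal.Quotient.mk b f) (f := ψ') hu
    have hθ' : ∀ i : R, θ' (algebraMap (R ⧸ b) _ (Ideal.Quotient.mk b i)) = ι (ψ i) := fun i => by
      simp [θ', IsLocalization.Away.liftAlgHom, ψ']
    have e1 : (θ'.comp θ).comp ψ = ι.comp ψ := by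
      rw [AlgHom.comp_assoc, hθ]
      ext i
      exact hθ' i
    have e2 : X.map (θ'.comp θ) z.1.1 = X.map ι z.1.1 := by
      rw [← hψ, X.map_comp, X.map_comp, e1]
    have e3 : θ'.comp θ = ι := by
      refine hz.ext _ _ _ (Subtype.ext (Prod.ext e2 (cel_inj hj ?_)))
      show cel hj ((E.fC j).map _ z.1.2) = cel hj ((E.fC j).map _ z.1.2)
      rw [← mp_cel, ← mp_cel, ← hz2, ← h.nat, ← h.nat, e2]
    obtain ⟨⟨s, _, N, rfl⟩, hs⟩ :=
      IsLocalization.surj (Submonoid.powers (Ideal.Quotient.mk b f)) (θ y)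
    obtain ⟨s, rfl⟩ := Ideal.Quotient.mk_surjective s
    have e4 : ι (ψ f ^ N * y) = ι (ψ s) := by
      have := congrArg θ' hs
      rw [map_mul, hθ'] at this
      have h5 : θ' (θ y) = ι y := DFunLike.congr_fun e3 y
      have h6 : θ' (algebraMap (R ⧸ b) _ (Ideal.Quotient.mk b f ^ N)) = ι (ψ f ^ N) := by
        rw [← map_pow, hθ', map_pow]
      rw [← this, h5, map_mul, mul_comm]
      exact congrArg _ h6.symm
    obtain ⟨⟨_, m, rfl⟩, hm⟩ := (IsLocalization.eq_iff_exists (Submonoid.powers (ψ f)) _).1 e4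
    refine ⟨m + N, f ^ m * s, ?_⟩
    show ψ f ^ (m + N) * y = ψ (f ^ m * s)
    rw [map_mul, map_pow, pow_add, mul_assoc]
    exact hm
  · obtain ⟨θ, hθ⟩ := key f hf
    have h1 : algebraMap (R ⧸ b) (Localization.Away (Ideal.Quotient.mk b f))
        (Ideal.Quotient.mk b i) = 0 := by
      have h2 := DFunLike.congr_fun hθ i
      have h3 : ψ i = 0 := hi
      rw [AlgHom.comp_apply, h3, map_zero] at h2
      exact h2.symm
    obtain ⟨⟨_, m, rfl⟩, hm⟩ :=
      (IsLocalization.map_eq_zero_iff (Submonoid.powers (Ideal.Quotient.mk b f)) _ _).1 h1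
    have h4 : f ^ m * i ∈ b := by
      rw [← Ideal.Quotient.eq_zero_iff_mem, map_mul, map_pow]
      exact hm
    exact (h𝔭.mem_or_mem (hb𝔭 h4)).resolve_left fun h5 => hf𝔭 (h𝔭.mem_of_pow_mem m h5)
  · exact le_sup_of_le_right (le_of_eq hF2)

/-- stratification by cells -/
theorem strat (h : NG X E) (hc : ∀ j (hj : j < E.M), CF (Cel h hj)) : CF X := by
  intro R _ _ x hx
  have h1 : ∀ j ≤ E.M, CellI R (Ideal.span (vl (mx (h.g R x)) '' E.Z j)) := by
    intro j
    induction j with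
    | zero =>
      intro _
      rw [E.ok.ends.1, Set.image_singleton, vl, map_one, Ideal.span_singleton_one]
      exact cellI_top R
    | succ j ih => exact fun hj => step_RF hx h hj (hc j hj) (ih (le_of_lt hj))
  have h2 := h1 E.M le_rfl
  rwa [E.ok.ends.2, Set.image_empty, Ideal.span_empty] at h2

/-- strata of a product -/
def niCel (h : NG X E) (hj : j < E.M) (W : Fn k) : NI (W.prod (Cel h hj)) (Cel (h.snd W) hj) where
  ap C _ _ x := ⟨((x.1, x.2.1.1), x.2.1.2), x.2.2⟩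
  bij C _ _ := ⟨fun x y e => Prod.ext (congrArg (fun z => z.1.1.1) e :)
    (Subtype.ext (Prod.ext (congrArg (fun z => z.1.1.2) e :) (congrArg (fun z => z.1.2) e :))),
    fun y => ⟨(y.1.1.1, ⟨(y.1.1.2, y.1.2), y.2⟩), rfl⟩⟩
  nat φ x := rfl

theorem sc_strat (h : NG X E) (hc : ∀ j (hj : j < E.M), SC (Cel h hj)) : SC X :=
  fun W h1 h2 => strat (h.snd W) fun j hj => (hc j hj W h1 h2).iso (niCel h hj W)

end Pool.Agent.P.MP_1bf4cb_ag.RG
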