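import Pool.Agent.P.MP_1bf4cb_ag.G0

set_option autoImplicit false
set_option linter.unusedSectionVars false
set_option linter.unusedVariables false

open Function Matrix
open scoped TensorProduct

noncomputable section

namespace Pool.Agent.P.MP_1bf4cb_ag

theorem flat_of_basis_YA {A B ι : Type} [CommRing A] [CommRing B] [Fintype ι] (φ : A →+* B)
    (b : ι → B) (h : Function.Bijective fun f : ι → A => ∑ i, φ (f i) * b i) : φ.Flat := by
  let _ : Algebra A B := φ.toAlgebra
  let L : (ι → A) →ₗ[A] B :=
    { toFun := fun f => ∑ i, φ (f i) * b i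
      map_add' := fun f g => by
        simp only [Pi.add_apply, map_add, add_mul, Finset.sum_add_distrib]
      map_smul' := fun c f => by
        simp only [Pi.smul_apply, smul_eq_mul, map_mul, RingHom.id_apply, Algebra.smul_def,
          Finset.mul_sum, mul_assoc]
        rfl }
  exact Module.Flat.of_linearEquiv (LinearEquiv.ofBijective L h).symm

theorem aeval_mon_YA (k σ : Type) [Field k] [Fintype σ] (r : σ → ℕ) (e : σ →₀ ℕ) (a : k) :
    MvPolynomial.aeval (R := k) (fun v => (MvPolynomial.X v : MvPolynomial σ k) ^ r v)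
        (MvPolynomial.monomial e a) =
      MvPolynomial.monomial (Finsupp.equivFunOnFinite.symm fun v => r v * e v) a := by
  rw [MvPolynomial.aeval_monomial, MvPolynomial.monomial_eq,
    Finsupp.prod_fintype _ _ (by simp), Finsupp.prod_fintype _ _ (by simp)]
  simp only [MvPolynomial.algebraMap_eq, Finsupp.equivFunOnFinite_symm_apply_apply, pow_mul]

theorem coeff_YA (k σ : Type) [Field k] [Fintype σ] [DecidableEq σ] (r : σ → ℕ)
    (i j : ∀ v, Fin (r v)) (e : σ →₀ ℕ) (p : MvPolynomial σ k) :
    MvPolynomial.coeff (Finsupp.equivFunOnFinite.symm fun v => r v * e v + i v)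
      (MvPolynomial.aeval (R := k) (fun v => (MvPolynomial.X v : MvPolynomial σ k) ^ r v) p *
        MvPolynomial.monomial (Finsupp.equivFunOnFinite.symm fun v => (j v : ℕ)) 1) =
      if j = i then MvPolynomial.coeff e p else 0 := by
  induction p using MvPolynomial.induction_on' with
  | add p q hp hq =>
    rw [map_add, add_mul, MvPolynomial.coeff_add, hp, hq, MvPolynomial.coeff_add]
    split_ifs <;> simp
  | monomial e' a =>
    rw [aeval_mon_YA, MvPolynomial.monomial_mul, mul_one, MvPolynomial.coeff_monomial,
      MvPolynomial.coeff_monomial]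
    have key : ((Finsupp.equivFunOnFinite.symm fun v => r v * e' v) +
        (Finsupp.equivFunOnFinite.symm fun v => (j v : ℕ)) =
        Finsupp.equivFunOnFinite.symm fun v => r v * e v + i v) ↔ (j = i ∧ e' = e) := by
      constructor
      · intro h
        have h' : ∀ v, r v * e' v + j v = r v * e v + i v := fun v => by
          have := DFunLike.congr_fun h v
          simpa using this
        have hj : ∀ v, (j v : ℕ) = i v := fun v => by
          have h1 := congrArg (· % r v) (h' v)
          simpa [Nat.mul_add_mod, Nat.mod_eq_of_lt (j v).2, Nat.mod_eq_of_lt (i v).2] using h1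
        refine ⟨funext fun v => Fin.ext (hj v), Finsupp.ext fun v => ?_⟩
        have h1 := h' v
        rw [hj v] at h1
        exact Nat.eq_of_mul_eq_mul_left (lt_of_le_of_lt (Nat.zero_le _) (i v).2)
          (Nat.add_right_cancel h1)
      · rintro ⟨rfl, rfl⟩
        ext v
        simp
    by_cases h1 : j = i
    · by_cases h2 : e' = e
      · rw [if_pos (key.2 ⟨h1, h2⟩), if_pos h1, if_pos h2]
      · rw [if_neg (fun h => h2 (key.1 h).2), if_pos h1, if_neg h2]
    · rw [if_neg (fun h => h1 (key.1 h).1), if_neg h1]

/-- raising variables to positive powers is flat -/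
theorem flat_pexp (k σ : Type) [Field k] [Finite σ] (r : σ → ℕ) (hr : ∀ v, 0 < r v) :
    (MvPolynomial.aeval (R := k) fun v => (MvPolynomial.X v : MvPolynomial σ k) ^ r v).toRingHom.Flat := by
  classical
  let _ : Fintype σ := Fintype.ofFinite σ
  refine flat_of_basis_YA (ι := ∀ v, Fin (r v)) _
    (fun j => MvPolynomial.monomial (Finsupp.equivFunOnFinite.symm fun v => (j v : ℕ)) 1) ⟨?_, ?_⟩
  · intro f g hfg
    funext i
    ext e
    have h := congrArg (MvPolynomial.coeff
      (Finsupp.equivFunOnFinite.symm fun v => r v * e v + i v)) hfg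
    simp only [AlgHom.toRingHom_eq_coe, RingHom.coe_coe, MvPolynomial.coeff_sum, coeff_YA,
      Finset.sum_ite_eq', Finset.mem_univ, if_true] at h
    exact h
  · intro p
    induction p using MvPolynomial.induction_on' with
    | add p q hp hq =>
      obtain ⟨f, hf⟩ := hp
      obtain ⟨g, hg⟩ := hq
      refine ⟨f + g, ?_⟩
      simp only [Pi.add_apply, map_add, add_mul, Finset.sum_add_distrib] at hf hg ⊢
      rw [hf, hg]
    | monomial d a =>
      refine ⟨Pi.single (fun v => ⟨d v % r v, Nat.mod_lt _ (hr v)⟩)
        (MvPolynomial.monomial (Finsupp.equivFunOnFinite.symm fun v => d v / r v) a), ?_⟩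
      dsimp only
      rw [Finset.sum_eq_single (fun v => (⟨d v % r v, Nat.mod_lt _ (hr v)⟩ : Fin (r v)))]
      · rw [Pi.single_eq_same, AlgHom.toRingHom_eq_coe, RingHom.coe_coe, aeval_mon_YA,
          MvPolynomial.monomial_mul, mul_one]
        congr 2
        ext v
        simp [Nat.div_add_mod]
      · intro j _ hj
        rw [Pi.single_eq_of_ne hj, map_zero, zero_mul]
      · intro h
        exact absurd (Finset.mem_univ _) h

theorem flat_quot_YA {S T : Type} [CommRing S] [CommRing T] (φ : S →+* T) (hφ : φ.Flat)
    (J : Ideal S) : (Ideal.quotientMap (J.map φ) φ Ideal.le_comap_map).Flat := by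
  let _ : Algebra S T := φ.toAlgebra
  have _ : Module.Flat S T := hφ
  have h : Module.Flat (S ⧸ J) (T ⧸ J.map (algebraMap S T)) :=
    Module.Flat.of_linearEquiv
      (Algebra.TensorProduct.quotIdealMapEquivQuotTensor T J).toLinearEquiv
  exact RingHom.flat_algebraMap_iff.2 h

theorem flat_quot {S : Type} [CommRing S] (φ : S →+* S) (hφ : φ.Flat) (J : Ideal S) :
    (Ideal.quotientMap (J.map φ) φ Ideal.le_comap_map).Flat :=
  flat_quot_YA φ hφ J

theorem flat_of_retract_YA {R T B : Type} [CommRing R] [CommRing T] [CommRing B] (j : R →+* B)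
    (g : T →+* B) (π : B →+* T) (φ : R →+* T) (hj : j.Flat) (h1 : π.comp g = RingHom.id T)
    (h2 : π.comp j = φ) (h3 : g.comp φ = j) : φ.Flat := by
  let _ : Algebra R B := j.toAlgebra
  let _ : Algebra R T := φ.toAlgebra
  have _ : Module.Flat R B := hj
  let g' : T →ₐ[R] B := { g with commutes' := fun x => DFunLike.congr_fun h3 x }
  let π' : B →ₐ[R] T := { π with commutes' := fun x => DFunLike.congr_fun h2 x }
  exact Module.Flat.of_retract g'.toLinearMap π'.toLinearMap
    (LinearMap.ext fun x => DFunLike.congr_fun h1 x)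

theorem flat_of_retract {R B : Type} [CommRing R] [CommRing B] (j g : R →+* B) (π : B →+* R)
    (φ : R →+* R) (hj : j.Flat) (h1 : π.comp g = RingHom.id R) (h2 : π.comp j = φ)
    (h3 : g.comp φ = j) : φ.Flat :=
  flat_of_retract_YA j g π φ hj h1 h2 h3

end Pool.Agent.P.MP_1bf4cb_ag
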