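import Pool.Agent.P.MP_1bf4cb_ag.RF
import Pool.Agent.P.MP_1bf4cb_ag.YA

set_option autoImplicit false
set_option maxHeartbeats 400000
set_option linter.unusedSectionVars false
set_option linter.unusedVariables false

open Function Matrix
open scoped TensorProduct

noncomputable section

namespace Pool.Agent.P.MP_1bf4cb_ag.RG

variable {k : Type} [Field k] {n r : ℕ} {C C' : Type} [CommRing C] [Algebra k C] [CommRing C']
  [Algebra k C'] {E : OB k n r} {X Y : Fn k}

/-- points lift along square-zero extensions -/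
def FS (X : Fn k) : Prop :=
  ∀ (C : Type) [CommRing C] [Algebra k C] (I : Ideal C), I ^ 2 = ⊥ →
    Surjective (X.map (Ideal.Quotient.mkₐ k I))

theorem FS.smooth (h : FS X) {R : Type} [CommRing R] [Algebra k R] {x : X.obj R} (hx : Rp X R x) :
    Algebra.FormallySmooth k R := by
  refine Algebra.FormallySmooth.of_comp_surjective fun B _ _ I hI f => ?_
  obtain ⟨y, hy⟩ := h B I hI (X.map f x)
  obtain ⟨φ, rfl⟩ := hx.ex B y
  exact ⟨φ, hx.ext _ _ _ (by rw [← X.map_comp, hy])⟩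

theorem FS.prod (h : FS X) (h' : FS Y) : FS (X.prod Y) :=
  fun C _ _ I hI => (h C I hI).prodMap (h' C I hI)

theorem sol_lift (S : Set (Pn k n)) [Algebra.FormallySmooth k (Pn k n ⧸ Ideal.span S)]
    (I : Ideal C) (hI : I ^ 2 = ⊥) (g : Mx n (C ⧸ I)) (hg : Sol S g) :
    ∃ g' : Mx n C, Sol S g' ∧ g'.map (Ideal.Quotient.mkₐ k I) = g := by
  have hk0 : Ideal.span S ≤
      RingHom.ker (MvPolynomial.aeval (fun ab => g ab.1 ab.2) : Pn k n →ₐ[k] C ⧸ I) :=
    Ideal.span_le.2 fun t ht => hg t ht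
  have hk : ∀ a ∈ Ideal.span S,
      (MvPolynomial.aeval (fun ab => g ab.1 ab.2) : Pn k n →ₐ[k] C ⧸ I) a = 0 := fun a ha => hk0 ha
  obtain ⟨φ, hφ⟩ := Algebra.FormallySmooth.comp_surjective k (Pn k n ⧸ Ideal.span S) I hI
    (Ideal.Quotient.liftₐ _ _ hk)
  refine ⟨Matrix.of fun a b => φ (Ideal.Quotient.mk _ (MvPolynomial.X (a, b))), fun f hf => ?_, ?_⟩
  · have e : (MvPolynomial.aeval (fun ab : Fin n × Fin n =>
        φ (Ideal.Quotient.mk _ (MvPolynomial.X (ab.1, ab.2)))) : Pn k n →ₐ[k] C) =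
        φ.comp (Ideal.Quotient.mkₐ k _) := MvPolynomial.algHom_ext fun v => by simp
    show MvPolynomial.aeval (fun ab : Fin n × Fin n =>
        φ (Ideal.Quotient.mk _ (MvPolynomial.X (ab.1, ab.2)))) f = 0
    rw [e, AlgHom.comp_apply, Ideal.Quotient.mkₐ_eq_mk,
      Ideal.Quotient.eq_zero_iff_mem.2 (Ideal.subset_span hf), map_zero]
  · ext a b
    have := DFunLike.congr_fun hφ (Ideal.Quotient.mk _ (MvPolynomial.X (a, b)))
    simpa using this

theorem lift_G (I : Ideal C) (hI : I ^ 2 = ⊥) (g : E.Γ (C ⧸ I)) :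
    ∃ g' : E.Γ C, mp (Ideal.Quotient.mkₐ k I) g' = g := by
  have := E.ok.smo.1
  obtain ⟨g', h1, h2⟩ := sol_lift E.G I hI (mx g) (mx_sol g)
  exact ⟨mkG g' h1, mx_inj h2⟩

theorem lift_P (I : Ideal C) (hI : I ^ 2 = ⊥) {g : E.Γ (C ⧸ I)} (hg : g ∈ E.PP _) :
    ∃ g' : E.Γ C, g' ∈ E.PP C ∧ mp (Ideal.Quotient.mkₐ k I) g' = g := by
  have := E.ok.smo.2
  obtain ⟨g', h1, h2⟩ := sol_lift E.Pa I hI (mx g) hg
  exact ⟨mkG g' (sol_P_G h1), h1, mx_inj h2⟩

theorem fs_fP : FS E.fP := fun C _ _ I hI g => by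
  obtain ⟨g', h1, h2⟩ := lift_P I hI (g := g.1) g.2
  exact ⟨⟨g', h1⟩, Subtype.ext h2⟩

variable [Fintype k]

/-- the Frobenius of `k` -/
abbrev fro (k : Type) [Field k] [Fintype k] (C : Type) [CommRing C] [Algebra k C] : C →ₐ[k] C :=
  FiniteField.frobeniusAlgHom k C

theorem fro_apply (x : C) : fro k C x = x ^ Fintype.card k := rfl

theorem fro_nat (φ : C →ₐ[k] C') : φ.comp (fro k C) = (fro k C').comp φ :=
  AlgHom.ext fun x => map_pow φ x _

theorem flat_fro_quot (m : ℕ) (J : Ideal (MvPolynomial (Fin m) k))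
    [Algebra.FormallySmooth k (MvPolynomial (Fin m) k ⧸ J)] :
    (fro k (MvPolynomial (Fin m) k ⧸ J)).toRingHom.Flat := by
  set S := MvPolynomial (Fin m) k
  let φ : S →+* S := (fro k S : S →+* S)
  have hφ : φ.Flat := by
    have h := flat_pexp k (Fin m) (fun _ => Fintype.card k) fun _ => Fintype.card_pos
    have e : (MvPolynomial.aeval (R := k) fun v : Fin m =>
        (MvPolynomial.X v : S) ^ Fintype.card k) = fro k S :=
      MvPolynomial.algHom_ext fun v => by rw [MvPolynomial.aeval_X]; rfl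
    rw [e] at h
    exact h
  have hle : J.map φ ≤ J := Ideal.map_le_iff_le_comap.2 fun x hx =>
    J.pow_mem_of_mem hx _ Fintype.card_pos
  let π : (S ⧸ J.map φ) →ₐ[k] S ⧸ J := Ideal.Quotient.factorₐ k hle
  have hπ : Surjective π := Ideal.Quotient.factor_surjective hle
  have hker : ∀ y, π y = 0 → fro k _ y = 0 := by
    intro y hy
    obtain ⟨t, rfl⟩ := Ideal.Quotient.mk_surjective y
    have ht : t ∈ J := Ideal.Quotient.eq_zero_iff_mem.1 hy
    rw [fro_apply, ← map_pow]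
    exact Ideal.Quotient.eq_zero_iff_mem.2 (Ideal.mem_map_of_mem φ ht)
  have hnil : IsNilpotent (RingHom.ker (π : (S ⧸ J.map φ) →+* S ⧸ J)) :=
    (Ideal.FG.isNilpotent_iff_le_nilradical (IsNoetherian.noetherian _)).2
      fun y hy => ⟨_, hker y hy⟩
  let g := Algebra.FormallySmooth.liftOfSurjective (AlgHom.id k (S ⧸ J)) π hπ hnil
  have hg : ∀ x, π (g x) = x := fun x => DFunLike.congr_fun
    (Algebra.FormallySmooth.comp_liftOfSurjective (AlgHom.id k (S ⧸ J)) π hπ hnil) x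
  refine flat_of_retract_YA _ (g : (S ⧸ J) →+* _) (π : _ →+* S ⧸ J) _ (flat_quot φ hφ J)
    (RingHom.ext hg) (Ideal.Quotient.ringHom_ext (RingHom.ext fun s => rfl))
    (Ideal.Quotient.ringHom_ext (RingHom.ext fun s => ?_))
  have h1 := hker (g (Ideal.Quotient.mk J s) - Ideal.Quotient.mk _ s) (by
    rw [map_sub, hg]
    exact sub_self _)
  rw [map_sub, sub_eq_zero] at h1
  exact (map_pow g _ _).trans h1

theorem flat_fro (R : Type) [CommRing R] [Algebra k R] [Algebra.FiniteType k R]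
    [Algebra.FormallySmooth k R] : (fro k R : R →+* R).Flat := by
  obtain ⟨m, f, hf⟩ := Algebra.FiniteType.iff_quotient_mvPolynomial''.1
    (inferInstance : Algebra.FiniteType k R)
  let e := Ideal.quotientKerAlgEquivOfSurjective hf
  have : Algebra.FormallySmooth k (MvPolynomial (Fin m) k ⧸ RingHom.ker f) :=
    Algebra.FormallySmooth.of_equiv e.symm
  have h := (flat_fro_quot m (RingHom.ker f)).comp
    (RingHom.Flat.of_bijective (f := (e : _ →+* R)) e.bijective)
  have h2 : (e : _ →+* R).comp (fro k (MvPolynomial (Fin m) k ⧸ RingHom.ker f)).toRingHom =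
      (fro k R : R →+* R).comp (e : _ →+* R) := RingHom.ext fun x => map_pow e x _
  rw [h2] at h
  exact (RingHom.Flat.comp_iff_of_bijective_right e.bijective).1 h

theorem reduced_of_smooth (R : Type) [CommRing R] [Algebra k R] [Algebra.FiniteType k R]
    [Algebra.FormallySmooth k R] : IsReduced R := by
  have h : Injective (fro k R : R →+* R) := by
    refine RingHom.FaithfullyFlat.injective
      (RingHom.FaithfullyFlat.iff_flat_and_comap_surjective.2 ⟨flat_fro R, fun 𝔭 => ⟨𝔭, ?_⟩⟩)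
    ext x
    exact 𝔭.2.pow_mem_iff_mem _ Fintype.card_pos
  refine (isReduced_iff_pow_one_lt (Fintype.card k) Fintype.one_lt_card).2 fun x hx => h ?_
  rw [map_zero]
  exact hx

end Pool.Agent.P.MP_1bf4cb_ag.RG
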