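import Pool.Agent.P.MP_1bf4cb_ag.RH

set_option autoImplicit false
set_option maxHeartbeats 400000
set_option linter.unusedSectionVars false
set_option linter.unusedVariables false

open Function Matrix
open scoped TensorProduct

noncomputable section

namespace Pool.Agent.P.MP_1bf4cb_ag.RG

variable {k : Type} [Field k] {n r : ℕ} {C C' : Type} [CommRing C] [Algebra k C] [CommRing C']
  [Algebra k C'] {E : OB k n r} {X Y : Fn k} {j : ℕ}

theorem sc_fG : SC E.fG := by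
  refine sc_strat (nId E) fun j hj => sc_fC.iso
    ⟨fun C _ _ y => ⟨(cel hj y, y), rfl⟩, fun C _ _ => ⟨fun y y' e => (congrArg (fun z => z.1.2) e :),
      fun z => ⟨z.1.2, Subtype.ext (Prod.ext z.2.symm rfl)⟩⟩, fun φ y => ?_⟩
  exact Subtype.ext (Prod.ext (mp_cel hj φ y).symm rfl)

/-- the group element underlying a point of `P` -/
def gP (p : E.fP.obj C) : E.Γ C := p.1

theorem gP_mem (p : E.fP.obj C) : gP p ∈ E.PP C := p.2

theorem rt_PP [Nontrivial C] {x : E.Γ k} (h : rt C x ∈ E.PP C) : x ∈ E.PP k := fun f hf =>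
  (algebraMap k C).injective (((vl_map (Algebra.ofId k C) _ f).symm.trans (h f hf)).trans
    (map_zero _).symm)

theorem sc_fP : SC E.fP := by
  refine sc_strat ⟨fun C _ _ p => gP p, fun φ p => rfl⟩ fun j hj => ?_
  by_cases h : ww hj ∈ E.PP k
  · refine sc_fC.iso ⟨fun C _ _ y => ⟨(⟨cel hj y, (mul_mem (mul_mem (BB_le (cc_BB hj y.1))
      (mp_PP _ h)) (BB_le (gB_mem y.2)) : cel hj y ∈ E.PP C)⟩, y), rfl⟩,
      fun C _ _ => ⟨fun y y' e => (congrArg (fun z => z.1.2) e :),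
      fun z => ⟨z.1.2, Subtype.ext (Prod.ext (Subtype.ext z.2.symm) rfl)⟩⟩, fun φ y => ?_⟩
    exact Subtype.ext (Prod.ext (Subtype.ext (mp_cel hj φ y).symm) rfl)
  · refine sc_empty fun C _ _ z => ?_
    by_contra hn
    have : Nontrivial C := not_subsingleton_iff_nontrivial.1 hn
    have h1 : gP z.1.1 = cel hj z.1.2 := z.2
    have h2 := gP_mem z.1.1
    rw [h1, cel, mul_mem_cancel_right (BB_le (gB_mem _)), mul_mem_cancel_left (BB_le (cc_BB hj _))]
      at h2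
    exact h (rt_PP h2)

/-- the transporter -/
def fV (x y : E.Γ k) : Fn k :=
  E.fG.sub ((cS E.Pa (nId E)).and (cS E.Pa ⟨fun C _ _ (v : E.Γ C) => (rt C x)⁻¹ * v * rt C y,
    fun φ v => by rw [map_mul, map_mul, map_inv, mp_rt, mp_rt]; rfl⟩))

theorem ex_fV (x y : E.Γ k) : Ex (fV x y) := ex_fG.sub ((cl_cS _ _).and (cl_cS _ _))

/-- the group element underlying a point of the transporter -/
def gV {x y : E.Γ k} (v : (fV x y).obj C) : E.Γ C := v.1

theorem gV_mem {x y : E.Γ k} (v : (fV x y).obj C) :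
    gV v ∈ E.PP C ∧ (rt C x)⁻¹ * gV v * rt C y ∈ E.PP C := v.2

/-- a point of the transporter -/
def mkV {x y : E.Γ k} (v : E.Γ C) (h1 : v ∈ E.PP C) (h2 : (rt C x)⁻¹ * v * rt C y ∈ E.PP C) :
    (fV x y).obj C := ⟨v, h1, h2⟩

/-- translation of transporters -/
def niV {x y p q : E.Γ k} (hp : p ∈ E.PP k) (hq : q ∈ E.PP k) (e : x * q = p * y) :
    NI (fV x x) (fV x y) where
  ap C _ _ v := mkV (gV v * rt C p) (mul_mem (gV_mem v).1 (mp_PP _ hp)) (by
    rw [mul_assoc, mul_assoc, ← map_mul, ← e, map_mul, ← mul_assoc, ← mul_assoc]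
    exact mul_mem (gV_mem v).2 (mp_PP _ hq))
  bij C _ _ := by
    refine ⟨fun v v' h => Subtype.ext (mul_right_cancel (b := rt C p)
      (congrArg gV h : gV v * rt C p = gV v' * rt C p)), fun v => ?_⟩
    refine ⟨mkV (gV v * (rt C p)⁻¹) (mul_mem (gV_mem v).1 (inv_mem (mp_PP _ hp))) ?_,
      Subtype.ext (inv_mul_cancel_right (gV v) (rt C p))⟩
    have h1 : rt C x * rt C q = rt C p * rt C y := by rw [← map_mul, e, map_mul]
    have h2 : (rt C x)⁻¹ * (gV v * (rt C p)⁻¹) * rt C x =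
        (rt C x)⁻¹ * gV v * rt C y * (rt C q)⁻¹ := by
      rw [eq_mul_inv_iff_mul_eq, mul_assoc, h1]
      group
    rw [h2]
    exact mul_mem (gV_mem v).2 (inv_mem (mp_PP _ hq))
  nat {C C'} _ _ _ _ φ v := by
    refine Subtype.ext ?_
    show mp φ (gV v) * rt C' p = mp φ (gV v * rt C p)
    rw [map_mul, mp_rt]

/-- the double coset map -/
def nM (x : E.Γ k) : NG (E.fP.prod E.fP) E :=
  ⟨fun C _ _ z => (gP z.1)⁻¹ * rt C x * gP z.2, fun φ z => by
    rw [map_mul, map_mul, map_inv, mp_rt]; rfl⟩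

/-- the open part of `P × P` over a cell -/
def niO (x : E.Γ k) (hj : j < E.M) {f : Pn k n} (hf : f ∈ E.Z j)
    (h : ∀ (C : Type) [CommRing C] [Algebra k C] (z : (E.fP.prod E.fP).obj C),
      Sol (E.Z (j + 1)) (mx ((nM x).g C z))) :
    NI ((fV x (ww hj)).prod ((E.fC j).loc (nv (nC hj) f))) ((E.fP.prod E.fP).loc (nv (nM x) f)) where
  ap C _ _ z := ⟨(⟨gV z.1 * (cc hj z.2.1.1)⁻¹,
      (mul_mem (gV_mem z.1).1 (inv_mem (BB_le (cc_BB hj _))) : _ ∈ E.PP C)⟩,
    ⟨(rt C x)⁻¹ * gV z.1 * rt C (ww hj) * gB z.2.1.2,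
      (mul_mem (gV_mem z.1).2 (BB_le (gB_mem _)) : _ ∈ E.PP C)⟩), by
    have e : (gV z.1 * (cc hj z.2.1.1)⁻¹)⁻¹ * rt C x *
        ((rt C x)⁻¹ * gV z.1 * rt C (ww hj) * gB z.2.1.2) = cel hj z.2.1 := by
      unfold cel
      group
    show IsUnit (vl (mx ((gV z.1 * (cc hj z.2.1.1)⁻¹)⁻¹ * rt C x *
        ((rt C x)⁻¹ * gV z.1 * rt C (ww hj) * gB z.2.1.2))) f)
    rw [e]
    exact z.2.2⟩
  bij C _ _ := by
    constructor
    · intro z z' e
      have e1 : gV z.1 * (cc hj z.2.1.1)⁻¹ = gV z'.1 * (cc hj z'.2.1.1)⁻¹ :=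
        (congrArg (fun w => gP w.1.1) e :)
      have e2 : (rt C x)⁻¹ * gV z.1 * rt C (ww hj) * gB z.2.1.2 =
          (rt C x)⁻¹ * gV z'.1 * rt C (ww hj) * gB z'.2.1.2 := (congrArg (fun w => gP w.1.2) e :)
      have e3 : z.2.1 = z'.2.1 := by
        refine cel_inj hj ?_
        calc cel hj z.2.1 = (gV z.1 * (cc hj z.2.1.1)⁻¹)⁻¹ * rt C x *
              ((rt C x)⁻¹ * gV z.1 * rt C (ww hj) * gB z.2.1.2) := by unfold cel; group
          _ = cel hj z'.2.1 := by rw [e1, e2]; unfold cel; group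
      rw [e3] at e1
      have e4 : gV z.1 = gV z'.1 := mul_right_cancel e1
      exact Prod.ext (Subtype.ext e4) (Subtype.ext e3)
    · intro z
      have hu : IsUnit (vl (mx ((nM x).g C z.1)) f) := z.2
      obtain ⟨y, hy⟩ := cel_surj hj (h C z.1)
        (Ideal.eq_top_of_isUnit_mem _ (Ideal.subset_span ⟨f, hf, rfl⟩) hu)
      have hy' : cc hj y.1 * rt C (ww hj) * gB y.2 = (gP z.1.1)⁻¹ * rt C x * gP z.1.2 := hy
      have e : (rt C x)⁻¹ * (gP z.1.1 * cc hj y.1) * rt C (ww hj) * gB y.2 = gP z.1.2 := by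
        calc _ = (rt C x)⁻¹ * gP z.1.1 * (cc hj y.1 * rt C (ww hj) * gB y.2) := by group
          _ = _ := by rw [hy']; group
      refine ⟨(mkV (gP z.1.1 * cc hj y.1) (mul_mem (gP_mem _) (BB_le (cc_BB hj _))) ?_,
        ⟨y, show IsUnit (vl (mx (cel hj y)) f) by rw [hy]; exact hu⟩),
        Subtype.ext (Prod.ext (Subtype.ext (mul_inv_cancel_right (gP z.1.1) _)) (Subtype.ext e))⟩
      rw [← mul_mem_cancel_right (BB_le (gB_mem y.2)), e]
      exact gP_mem _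
  nat {C C'} _ _ _ _ φ z := by
    refine Subtype.ext (Prod.ext (Subtype.ext ?_) (Subtype.ext ?_))
    · show mp φ (gV z.1) * (cc hj fun i => φ (z.2.1.1 i))⁻¹ = mp φ (gV z.1 * (cc hj z.2.1.1)⁻¹)
      rw [map_mul, map_inv, mp_cc]
    · show (rt C' x)⁻¹ * mp φ (gV z.1) * rt C' (ww hj) * mp φ (gB z.2.1.2) =
        mp φ ((rt C x)⁻¹ * gV z.1 * rt C (ww hj) * gB z.2.1.2)
      rw [map_mul, map_mul, map_mul, map_inv, mp_rt, mp_rt]

/-- the base point of a cell -/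
def y0 (E : OB k n r) (j : ℕ) : (E.fC j).obj k := (fun _ => 0, ⟨(1 : E.Γ k), (E.BB k).one_mem⟩)

theorem ex_unit (hj : j < E.M) : ∃ f ∈ E.Z j, IsUnit (vl (mx (cel hj (y0 E j))) f) := by
  by_contra hn
  push Not at hn
  have h := (cel_sol hj (y0 E j)).2
  have h1 : Ideal.span (vl (mx (cel hj (y0 E j))) '' E.Z j) = ⊥ := Ideal.span_eq_bot.2 (by
    rintro _ ⟨f, hf, rfl⟩
    by_contra h0
    exact hn f hf (IsUnit.mk0 _ h0))
  exact bot_ne_top (h1.symm.trans h)

variable [Fintype k]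

theorem sc_fV_self (x : E.Γ k) : SC (fV x x) := by
  classical
  obtain ⟨A, _, _, z, hz⟩ : Ex (E.fP.prod E.fP) := ex_fP.prod ex_fP
  have := hz.ft
  have := (fs_fP.prod fs_fP).smooth hz
  have := reduced_of_smooth (k := k) A
  obtain ⟨φ₀, -⟩ := hz.ex k (⟨(1 : E.Γ k), (E.PP k).one_mem⟩, ⟨(1 : E.Γ k), (E.PP k).one_mem⟩)
  have : Nontrivial A := φ₀.toRingHom.domain_nontrivial
  have hM : Sol (E.Z E.M) (mx ((nM x).g A z)) := by
    rw [E.ok.ends.2]
    exact fun f hf => hf.elim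
  have hex : ∃ i, Sol (E.Z i) (mx ((nM x).g A z)) := ⟨_, hM⟩
  have h0 : Nat.find hex ≠ 0 := fun h => by
    have h1 := Nat.find_spec hex
    rw [h, E.ok.ends.1] at h1
    have h2 := h1 1 rfl
    rw [vl, map_one] at h2
    exact one_ne_zero h2
  obtain ⟨j, hj0⟩ := Nat.exists_eq_succ_of_ne_zero h0
  have hj : j < E.M := by
    have := Nat.find_min' hex hM
    omega
  have h1 : ∀ (C : Type) [CommRing C] [Algebra k C] (w : (E.fP.prod E.fP).obj C),
      Sol (E.Z (j + 1)) (mx ((nM x).g C w)) := fun C _ _ w => by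
    obtain ⟨φ, rfl⟩ := hz.ex C w
    have h2 := Nat.find_spec hex
    rw [hj0] at h2
    rw [(nM x).nat]
    exact h2.map φ
  have h2 : ¬ Sol (E.Z j) (mx ((nM x).g A z)) := Nat.find_min hex (by omega)
  unfold Sol at h2
  push Not at h2
  obtain ⟨f', hf', hne⟩ := h2
  have hL := rp_loc hz (nv (nM x) f')
  have : Nontrivial (Localization.Away ((nv (nM x) f').f A z)) := by
    rw [← not_subsingleton_iff_nontrivial,
      IsLocalization.subsingleton_iff (M := Submonoid.powers ((nv (nM x) f').f A z))]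
    rintro ⟨m, hm⟩
    exact hne (IsNilpotent.eq_zero ⟨m, hm⟩)
  obtain ⟨w, -⟩ := ((niO x hj hf' h1).bij _).2
    ⟨_, show ((nv (nM x) f').f (Localization.Away ((nv (nM x) f').f A z))
      ((E.fP.prod E.fP).map (IsScalarTower.toAlgHom k A _) z) |> IsUnit) by
        rw [NF.nat]
        exact IsLocalization.Away.algebraMap_isUnit _⟩
  obtain ⟨p, q, hp, hq, e⟩ := dbl_pt x (ww hj) (gV_mem w.1).1 (gV_mem w.1).2 (by group)
  obtain ⟨f, hf, hu⟩ := ex_unit hj
  have h3 := ((sc_fP.prod ex_fP sc_fP).loc (ex_fP.prod ex_fP) (nv (nM x) f)).iso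
    (niO x hj hf h1).symm
  refine SC.iso (fun W hW hW' => ?_) (niV hp hq e).symm
  exact ((po_fC (y0 E j)).loc (nv (nC hj) f) hu).back ((h3 W hW hW').iso (NI.assoc _ _ _).symm)

theorem sc_fV (x y : E.Γ k) : SC (fV x y) := by
  by_cases h : ∀ (C : Type) [CommRing C] [Algebra k C], (fV x y).obj C → Subsingleton C
  · exact sc_empty h
  · push Not at h
    obtain ⟨C, _, _, v, hC⟩ := h
    obtain ⟨p, q, hp, hq, e⟩ := dbl_pt x y (gV_mem v).1 (gV_mem v).2 (by group)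
    exact (sc_fV_self x).iso (niV hp hq e)

end Pool.Agent.P.MP_1bf4cb_ag.RG
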