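import Pool.Agent.P.MP_1bf4cb_ag.RI

set_option autoImplicit false
set_option maxHeartbeats 400000
set_option linter.unusedSectionVars false
set_option linter.unusedVariables false

open Function Matrix
open scoped TensorProduct

noncomputable section

namespace Pool.Agent.P.MP_1bf4cb_ag.RG

variable {k : Type} [Field k] {n r : ℕ} {C C' : Type} [CommRing C] [Algebra k C] [CommRing C']
  [Algebra k C'] {E : OB k n r} {X Y : Fn k} {j : ℕ}

theorem flat_of_lift {U L : Type} [CommRing U] [Algebra k U] [CommRing L] [Algebra k L]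
    {x : X.obj U} {y : Y.obj L} (hx : Rp X U x) (hy : Rp Y L y)
    (Λ : ∀ (C : Type) [CommRing C] [Algebra k C], Y.obj C → X.obj C)
    (hΛ : ∀ {C C' : Type} [CommRing C] [Algebra k C] [CommRing C'] [Algebra k C'] (φ : C →ₐ[k] C')
      (z : Y.obj C), Λ C' (Y.map φ z) = X.map φ (Λ C z))
    (hl : ∀ (C : Type) [CommRing C] [Algebra k C] (I : Ideal C), I ^ 2 = ⊥ →
      ∀ (u : X.obj C) (z : Y.obj (C ⧸ I)), X.map (Ideal.Quotient.mkₐ k I) u = Λ _ z →
        ∃ z', Λ C z' = u ∧ Y.map (Ideal.Quotient.mkₐ k I) z' = z)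
    (θ : U →ₐ[k] L) (hθ : X.map θ x = Λ L y) : (θ : U →+* L).Flat := by
  let : Algebra U L := (θ : U →+* L).toAlgebra
  have : IsScalarTower k U L := IsScalarTower.of_algebraMap_eq fun c => (θ.commutes c).symm
  have := hy.ft
  have hUL : Algebra.FiniteType U L := Algebra.FiniteType.of_restrictScalars_finiteType k U L
  have := hx.noeth
  have hsm : Algebra.FormallySmooth U L := by
    refine Algebra.FormallySmooth.of_comp_surjective fun B _ _ I hI f => ?_
    let _ : Algebra k B := ((algebraMap U B).comp (algebraMap k U)).toAlgebra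
    let β : U →ₐ[k] B := { algebraMap U B with commutes' := fun c => rfl }
    let f' : L →ₐ[k] B ⧸ I := { (f : L →+* B ⧸ I) with
      commutes' := fun c =>
        (congrArg f (IsScalarTower.algebraMap_apply k U L c)).trans (f.commutes _) }
    have e1 : f'.comp θ = (Ideal.Quotient.mkₐ k I).comp β := AlgHom.ext fun u => f.commutes u
    obtain ⟨z', h1, h2⟩ := hl B I hI (X.map β x) (Y.map f' y) (by
      rw [hΛ, ← hθ, X.map_comp, X.map_comp, e1])
    obtain ⟨φ, rfl⟩ := hy.ex B z'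
    have e2 : φ.comp θ = β := hx.ext _ _ _ (by rw [← X.map_comp, hθ, ← hΛ, h1])
    have e3 : (Ideal.Quotient.mkₐ k I).comp φ = f' := hy.ext _ _ _ (by rw [← Y.map_comp, h2])
    refine ⟨{ (φ : L →+* B) with commutes' := fun u => DFunLike.congr_fun e2 u }, ?_⟩
    ext l
    exact DFunLike.congr_fun e3 l
  obtain ⟨m, f, hf⟩ := (Algebra.FiniteType.iff_quotient_mvPolynomial'' (R := U) (S := L)).mp hUL
  exact Algebra.FormallySmooth.flat_of_algHom_of_isNoetherianRing f hf

/-- the relative position in the universal family -/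
def nU (E : OB k n r) (s : Bool) : NG (E.pw (Option Bool)) E :=
  ⟨fun C _ _ (x : Option Bool → E.Γ C) => (x (some s))⁻¹ * x none * E.FF C (x (some s)),
    fun φ x => by rw [map_mul, map_mul, map_inv, mp_FF]; rfl⟩

/-- the condition of the universal family -/
def cU (E : OB k n r) : Cnd (E.pw (Option Bool)) :=
  (cS E.Pa (nU E false)).and (cS E.Pa (nU E true))

/-- the universal family -/
def OB.fU (E : OB k n r) : Fn k := (E.pw (Option Bool)).sub (cU E)

/-- the frames of a point of the universal family -/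
def gU (x : E.fU.obj C) : Option Bool → E.Γ C := x.1

theorem gU_mem (x : E.fU.obj C) (s : Bool) :
    (gU x (some s))⁻¹ * gU x none * E.FF C (gU x (some s)) ∈ E.PP C := by
  cases s
  · exact x.2.1
  · exact x.2.2

/-- a point of the universal family -/
def mkU (g : Bool → E.Γ C) (γ : E.Γ C) (h : ∀ s, (g s)⁻¹ * γ * E.FF C (g s) ∈ E.PP C) :
    E.fU.obj C := ⟨fun o => o.elim γ g, h false, h true⟩

theorem ext_U {x y : E.fU.obj C} (h1 : ∀ s, gU x (some s) = gU y (some s))
    (h2 : gU x none = gU y none) : x = y :=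
  Subtype.ext (funext fun o => by
    cases o with
    | none => exact h2
    | some s => exact h1 s)

/-- the relative position of the two frames -/
def nH (E : OB k n r) : NG E.fU E :=
  ⟨fun C _ _ x => (gU x (some false))⁻¹ * gU x (some true),
    fun φ x => by rw [map_mul, map_inv]; rfl⟩

/-- the group element underlying a point of `G` -/
def gG (g : E.fG.obj C) : E.Γ C := g

theorem rt_FF (x : E.Γ k) : rt C (E.FF k x) = E.FF C (rt C x) := mp_FF _ x

/-- the strata of the universal family -/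
def niU (hj : j < E.M) :
    NI ((E.fG.prod (E.fC j)).prod (fV (ww hj) (E.FF k (ww hj)))) (Cel (nH E) hj) where
  ap C _ _ z := ⟨(mkU (fun s => cond s (gG z.1.1 * rt C (ww hj) * gB z.1.2.2)
      (gG z.1.1 * (cc hj z.1.2.1)⁻¹)) (gG z.1.1 * gV z.2 * (E.FF C (gG z.1.1))⁻¹) (fun s => by
        cases s
        · have e : (gG z.1.1 * (cc hj z.1.2.1)⁻¹)⁻¹ * (gG z.1.1 * gV z.2 * (E.FF C (gG z.1.1))⁻¹) *
              E.FF C (gG z.1.1 * (cc hj z.1.2.1)⁻¹) =
              cc hj z.1.2.1 * gV z.2 * (E.FF C (cc hj z.1.2.1))⁻¹ := by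
            rw [map_mul, map_inv]
            group
          exact e ▸ mul_mem (mul_mem (BB_le (cc_BB hj _)) (gV_mem z.2).1)
            (inv_mem (BB_le (FF_BB (cc_BB hj _))))
        · have e : (gG z.1.1 * rt C (ww hj) * gB z.1.2.2)⁻¹ *
              (gG z.1.1 * gV z.2 * (E.FF C (gG z.1.1))⁻¹) *
              E.FF C (gG z.1.1 * rt C (ww hj) * gB z.1.2.2) =
              (gB z.1.2.2)⁻¹ * ((rt C (ww hj))⁻¹ * gV z.2 * rt C (E.FF k (ww hj))) *
                E.FF C (gB z.1.2.2) := by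
            rw [map_mul, map_mul, rt_FF]
            group
          exact e ▸ mul_mem (mul_mem (inv_mem (BB_le (gB_mem _))) (gV_mem z.2).2)
            (BB_le (FF_BB (gB_mem _)))), z.1.2), by
    show (gG z.1.1 * (cc hj z.1.2.1)⁻¹)⁻¹ * (gG z.1.1 * rt C (ww hj) * gB z.1.2.2) = cel hj z.1.2
    unfold cel
    group⟩
  bij C _ _ := by
    constructor
    · intro z z' e
      have e1 : z.1.2 = z'.1.2 := (congrArg (fun w => w.1.2) e :)
      have e2 : gG z.1.1 * (cc hj z.1.2.1)⁻¹ = gG z'.1.1 * (cc hj z'.1.2.1)⁻¹ :=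
        (congrArg (fun w => gU w.1.1 (some false)) e :)
      have e3 : gG z.1.1 * gV z.2 * (E.FF C (gG z.1.1))⁻¹ =
          gG z'.1.1 * gV z'.2 * (E.FF C (gG z'.1.1))⁻¹ := (congrArg (fun w => gU w.1.1 none) e :)
      rw [e1] at e2
      have e4 : gG z.1.1 = gG z'.1.1 := mul_right_cancel e2
      rw [e4] at e3
      have e5 : gV z.2 = gV z'.2 := mul_left_cancel (mul_right_cancel e3)
      exact Prod.ext (Prod.ext e4 e1) (Subtype.ext e5)
    · intro w
      have e : (gU w.1.1 (some false))⁻¹ * gU w.1.1 (some true) =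
        cc hj w.1.2.1 * rt C (ww hj) * gB w.1.2.2 := w.2
      have e1 : gU w.1.1 (some false) * cc hj w.1.2.1 * rt C (ww hj) * gB w.1.2.2 =
          gU w.1.1 (some true) := by
        calc _ = gU w.1.1 (some false) * (cc hj w.1.2.1 * rt C (ww hj) * gB w.1.2.2) := by group
          _ = _ := by rw [← e]; group
      refine ⟨((gU w.1.1 (some false) * cc hj w.1.2.1, w.1.2),
        mkV ((gU w.1.1 (some false) * cc hj w.1.2.1)⁻¹ * gU w.1.1 none *
          E.FF C (gU w.1.1 (some false) * cc hj w.1.2.1)) ?_ ?_),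
        Subtype.ext (Prod.ext (ext_U (fun s => ?_) ?_) rfl)⟩
      · have e2 : (gU w.1.1 (some false) * cc hj w.1.2.1)⁻¹ * gU w.1.1 none *
            E.FF C (gU w.1.1 (some false) * cc hj w.1.2.1) = (cc hj w.1.2.1)⁻¹ *
            ((gU w.1.1 (some false))⁻¹ * gU w.1.1 none * E.FF C (gU w.1.1 (some false))) *
            E.FF C (cc hj w.1.2.1) := by
          rw [map_mul]
          group
        rw [e2]
        exact mul_mem (mul_mem (inv_mem (BB_le (cc_BB hj _))) (gU_mem _ _))
          (BB_le (FF_BB (cc_BB hj _)))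
      · have e2 : (rt C (ww hj))⁻¹ * ((gU w.1.1 (some false) * cc hj w.1.2.1)⁻¹ * gU w.1.1 none *
            E.FF C (gU w.1.1 (some false) * cc hj w.1.2.1)) * rt C (E.FF k (ww hj)) = gB w.1.2.2 *
            ((gU w.1.1 (some true))⁻¹ * gU w.1.1 none * E.FF C (gU w.1.1 (some true))) *
            (E.FF C (gB w.1.2.2))⁻¹ := by
          rw [← e1, rt_FF]
          simp only [map_mul]
          group
        rw [e2]
        exact mul_mem (mul_mem (BB_le (gB_mem _)) (gU_mem _ _)) (inv_mem (BB_le (FF_BB (gB_mem _))))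
      · cases s
        · exact mul_inv_cancel_right (gU w.1.1 (some false)) _
        · exact e1
      · show gU w.1.1 (some false) * cc hj w.1.2.1 * ((gU w.1.1 (some false) * cc hj w.1.2.1)⁻¹ *
          gU w.1.1 none * E.FF C (gU w.1.1 (some false) * cc hj w.1.2.1)) *
          (E.FF C (gU w.1.1 (some false) * cc hj w.1.2.1))⁻¹ = gU w.1.1 none
        group
  nat {C C'} _ _ _ _ φ z := by
    refine Subtype.ext (Prod.ext (ext_U (fun s => ?_) ?_) rfl)
    · cases s
      · show mp φ (gG z.1.1) * (cc hj fun i => φ (z.1.2.1 i))⁻¹ =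
          mp φ (gG z.1.1 * (cc hj z.1.2.1)⁻¹)
        rw [map_mul, map_inv, mp_cc]
      · show mp φ (gG z.1.1) * rt C' (ww hj) * mp φ (gB z.1.2.2) =
          mp φ (gG z.1.1 * rt C (ww hj) * gB z.1.2.2)
        rw [map_mul, map_mul, mp_rt]
    · show mp φ (gG z.1.1) * mp φ (gV z.2) * (E.FF C' (mp φ (gG z.1.1)))⁻¹ =
        mp φ (gG z.1.1 * gV z.2 * (E.FF C (gG z.1.1))⁻¹)
      rw [map_mul, map_mul, map_inv, mp_FF]

variable [Fintype k]

theorem cf_fU : CF E.fU := strat (nH E) fun j hj =>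
  (((sc_fG.prod ex_fG sc_fC).prod (ex_fG.prod ex_fC) (sc_fV _ _)).iso (niU hj)).cf

theorem fro_pow_apply (e : ℕ) (x : C) : (fro k C ^ e) x = x ^ Fintype.card k ^ e := by
  induction e generalizing x with
  | zero => simp
  | succ e ih => rw [pow_succ, AlgHom.mul_apply, ih, fro_apply, ← pow_mul, ← pow_succ']

theorem FF_iter : ∃ ρ e : ℕ, 0 < e ∧ ∀ (C : Type) [CommRing C] [Algebra k C] (g : E.Γ C),
    (E.FF C)^[ρ] g = mp (fro k C ^ e) g := by
  obtain ⟨ρ, e, he, h⟩ := E.ok.pow
  refine ⟨ρ, e, he, fun C _ _ g => mx_inj ?_⟩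
  have h1 : ∀ m, mx ((E.FF C)^[m] g) = E.fr^[m] (mx g) := fun m => by
    induction m with
    | zero => rfl
    | succ m ih => rw [iterate_succ_apply', iterate_succ_apply', mx_FF, ih]
  rw [h1, h C _ (mx_sol g), Nat.card_eq_fintype_card]
  ext a b
  exact (fro_pow_apply e _).symm

theorem lang_fix (I : Ideal C) (hI : I ^ 2 = ⊥) (a b : E.Γ C) (g : E.Γ (C ⧸ I))
    (h : mp (Ideal.Quotient.mkₐ k I) a * E.FF _ g * mp (Ideal.Quotient.mkₐ k I) b = g) :
    ∃ g' : E.Γ C, a * E.FF C g' * b = g' ∧ mp (Ideal.Quotient.mkₐ k I) g' = g := by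
  obtain ⟨ρ, e, he, hρ⟩ := FF_iter (E := E)
  obtain ⟨g0, h0⟩ := lift_G I hI g
  let Φ : E.Γ C → E.Γ C := fun z => a * E.FF C z * b
  have h1 : ∀ z, mp (Ideal.Quotient.mkₐ k I) z = g → mp (Ideal.Quotient.mkₐ k I) (Φ z) = g :=
    fun z hz => by
      show mp _ (a * E.FF C z * b) = g
      rw [map_mul, map_mul, mp_FF, hz, h]
  have h2 : ∀ m, mp (Ideal.Quotient.mkₐ k I) (Φ^[m] g0) = g := fun m => by
    induction m with
    | zero => exact h0
    | succ m ih => rw [iterate_succ_apply']; exact h1 _ ih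
  have h3 : ∀ m, ∃ A B : E.Γ C, ∀ z, Φ^[m] z = A * (E.FF C)^[m] z * B := fun m => by
    induction m with
    | zero => exact ⟨1, 1, fun z => by simp⟩
    | succ m ih =>
      obtain ⟨A, B, ih⟩ := ih
      refine ⟨a * E.FF C A, E.FF C B * b, fun z => ?_⟩
      rw [iterate_succ_apply', iterate_succ_apply', ih]
      show a * E.FF C _ * b = _
      rw [map_mul, map_mul]
      group
  have h4 : mp (fro k C ^ e) (Φ g0) = mp (fro k C ^ e) g0 := by
    refine mx_inj ?_
    ext s t
    have h5 : mx (Φ g0) s t - mx g0 s t ∈ I := Ideal.Quotient.eq.1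
      (congrFun (congrFun (congrArg mx ((h1 g0 h0).trans h0.symm)) s) t)
    have h6 : (fro k C ^ e) (mx (Φ g0) s t - mx g0 s t) = 0 := by
      rw [fro_pow_apply]
      have h7 : 2 ≤ Fintype.card k ^ e := Nat.one_lt_pow he.ne' Fintype.one_lt_card
      have h8 := Ideal.pow_le_pow_right h7 (Ideal.pow_mem_pow h5 _)
      rwa [hI, Ideal.mem_bot] at h8
    rw [map_sub, sub_eq_zero] at h6
    exact h6
  refine ⟨Φ^[ρ] g0, ?_, h2 ρ⟩
  obtain ⟨A, B, h5⟩ := h3 ρ
  calc _ = Φ (Φ^[ρ] g0) := rfl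
    _ = Φ^[ρ] (Φ g0) := by rw [← iterate_succ_apply' Φ, iterate_succ_apply]
    _ = Φ^[ρ] g0 := by rw [h5, h5, hρ, hρ, h4]

end Pool.Agent.P.MP_1bf4cb_ag.RG
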