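import Pool.Agent.P.MP_1bf4cb_ag.RB

set_option autoImplicit false
set_option maxHeartbeats 400000
set_option linter.unusedSectionVars false
set_option linter.unusedVariables false

open Function
open scoped TensorProduct

noncomputable section

namespace Pool.Agent.P.MP_1bf4cb_ag.RG

section
variable {A : Type} [CommRing A]

theorem euler_RK {Γ : Type 1} [AddCommGroup Γ] (χ : AddF A Γ) {M N P M' N' P' : Type}
    [AddCommGroup M] [Module A M] [AddCommGroup N] [Module A N] [AddCommGroup P] [Module A P]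
    [AddCommGroup M'] [Module A M'] [AddCommGroup N'] [Module A N'] [AddCommGroup P'] [Module A P']
    (f : M →ₗ[A] N) (g : N →ₗ[A] P) (hf : Injective f) (hg : Surjective g) (h : Exact f g)
    (f' : M' →ₗ[A] N') (g' : N' →ₗ[A] P') (hf' : Injective f') (hg' : Surjective g')
    (h' : Exact f' g') (i₁ : M' →ₗ[A] M) (i₂ : N' →ₗ[A] N) (i₃ : P' →ₗ[A] P)
    (h₁ : ∀ y, f (i₁ y) = i₂ (f' y)) (h₂ : ∀ y, g (i₂ y) = i₃ (g' y))
    [Module.Finite A (LinearMap.ker i₁)] [Module.Finite A (LinearMap.ker i₂)]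
    [Module.Finite A (LinearMap.ker i₃)] [Module.Finite A (M ⧸ LinearMap.range i₁)]
    [Module.Finite A (N ⧸ LinearMap.range i₂)] [Module.Finite A (P ⧸ LinearMap.range i₃)] :
    χ.val (N ⧸ LinearMap.range i₂) - χ.val (LinearMap.ker i₂) =
      (χ.val (M ⧸ LinearMap.range i₁) - χ.val (LinearMap.ker i₁)) +
        (χ.val (P ⧸ LinearMap.range i₃) - χ.val (LinearMap.ker i₃)) := by
  let F1 : LinearMap.ker i₁ →ₗ[A] LinearMap.ker i₂ := f'.restrict (fun y hy => by
    rw [LinearMap.mem_ker] at hy ⊢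
    rw [← h₁, hy, map_zero])
  let F2 : LinearMap.ker i₂ →ₗ[A] LinearMap.ker i₃ := g'.restrict (fun y hy => by
    rw [LinearMap.mem_ker] at hy ⊢
    rw [← h₂, hy, map_zero])
  let G1 : (M ⧸ LinearMap.range i₁) →ₗ[A] (N ⧸ LinearMap.range i₂) :=
    Submodule.mapQ _ _ f (by
      rintro _ ⟨y, rfl⟩
      exact ⟨f' y, (h₁ y).symm⟩)
  let G2 : (N ⧸ LinearMap.range i₂) →ₗ[A] (P ⧸ LinearMap.range i₃) :=
    Submodule.mapQ _ _ g (by
      rintro _ ⟨y, rfl⟩
      exact ⟨g' y, (h₂ y).symm⟩)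
  have k1 : f.comp i₁ = i₂.comp f' := LinearMap.ext h₁
  have k2 : g.comp i₂ = i₃.comp g' := LinearMap.ext h₂
  have eF : Exact F1 F2 := by
    intro y
    constructor
    · intro hy
      have h0 : g' y.1 = 0 := congrArg Subtype.val hy
      obtain ⟨z, hz⟩ := (h' _).1 h0
      refine ⟨⟨z, ?_⟩, Subtype.ext hz⟩
      rw [LinearMap.mem_ker]
      apply hf
      rw [h₁, hz, map_zero]
      exact y.2
    · rintro ⟨z, rfl⟩
      exact Subtype.ext (h'.apply_apply_eq_zero z.1)
  have eG : Exact G1 G2 := by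
    intro y
    obtain ⟨y, rfl⟩ := Submodule.Quotient.mk_surjective _ y
    constructor
    · intro hy
      have h0 : g y ∈ LinearMap.range i₃ := (Submodule.Quotient.mk_eq_zero _).1 hy
      obtain ⟨w, hw⟩ := h0
      obtain ⟨v, rfl⟩ := hg' w
      obtain ⟨z, hz⟩ := (h (y - i₂ v)).1 (by rw [map_sub, h₂, hw, sub_self])
      refine ⟨Submodule.Quotient.mk z, ?_⟩
      refine (Submodule.Quotient.eq _).2 ⟨-v, ?_⟩
      rw [hz, map_neg]
      abel
    · rintro ⟨z, hz⟩
      obtain ⟨z, rfl⟩ := Submodule.Quotient.mk_surjective _ z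
      rw [← hz]
      refine (Submodule.Quotient.mk_eq_zero _).2 ?_
      rw [h.apply_apply_eq_zero z]
      exact zero_mem _
  have e2 := SnakeLemma.exact_δ'_right i₁ i₂ i₃ f' g' h' f g h k1 k2
    (LinearMap.ker i₂).subtype (LinearMap.exact_subtype_ker_map i₂)
    (LinearMap.ker i₃).subtype (LinearMap.exact_subtype_ker_map i₃)
    (LinearMap.range i₁).mkQ (LinearMap.exact_map_mkQ_range i₁) hg' hf F2
    (LinearMap.ext fun _ => rfl) (Submodule.subtype_injective _)
  have e3 := SnakeLemma.exact_δ'_left i₁ i₂ i₃ f' g' h' f g h k1 k2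
    (LinearMap.ker i₃).subtype (LinearMap.exact_subtype_ker_map i₃)
    (LinearMap.range i₁).mkQ (LinearMap.exact_map_mkQ_range i₁)
    (LinearMap.range i₂).mkQ (LinearMap.exact_map_mkQ_range i₂) hg' hf G1
    (LinearMap.ext fun _ => rfl) (Submodule.mkQ_surjective _)
  have iF : Injective F1 := fun y z hyz => Subtype.ext (hf' (congrArg Subtype.val hyz))
  have sG : Surjective G2 := by
    intro y
    obtain ⟨y, rfl⟩ := Submodule.Quotient.mk_surjective _ y
    obtain ⟨z, rfl⟩ := hg y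
    exact ⟨Submodule.Quotient.mk z, rfl⟩
  have a1 := χ.congr (LinearEquiv.ofInjective F1 iF)
  have a2 := exact_GD χ _ _ eF
  have a3 := exact_GD χ _ _ e2
  have a4 := exact_GD χ _ _ e3
  have a5 := exact_GD χ _ _ eG
  have a6 := χ.congr (LinearEquiv.ofTop (LinearMap.range G2) (LinearMap.range_eq_top.2 sG))
  rw [a1, a2, a3, a4, a5, a6]
  abel

theorem exists_cls' (A : Type) [CommRing A] [IsNoetherianRing A] :
    ∃ χ : AddF A (G0 A), ∀ M : FG A,
      χ.val M.M = QuotientAddGroup.mk (FreeAbelianGroup.of M) := by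
  classical
  refine ⟨⟨fun M _ _ => if h : Module.Finite A M then
    QuotientAddGroup.mk (FreeAbelianGroup.of (@FG.mk A _ M _ _ h)) else 0, ?_⟩, fun M => ?_⟩
  · intro M N P _ _ _ _ _ _ hN f g hf hg h
    have hM : Module.Finite A M := Module.Finite.of_injective f hf
    have hP : Module.Finite A P := Module.Finite.of_surjective g hg
    rw [dif_pos hM, dif_pos hN, dif_pos hP, ← QuotientAddGroup.mk_add, eq_comm,
      QuotientAddGroup.eq]
    refine AddSubgroup.subset_closure ⟨⟨M⟩, ⟨N⟩, ⟨P⟩, f, g, hf, hg, h, ?_⟩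
    abel
  · exact dif_pos M.fin

theorem zero_of_FG {Γ : Type 1} [AddCommGroup Γ] (Φ : G0 A →+ Γ)
    (h : ∀ M : FG A, Φ (QuotientAddGroup.mk (FreeAbelianGroup.of M)) = 0) (z : G0 A) : Φ z = 0 := by
  obtain ⟨G, hG⟩ := list_RB z
  exact hG Γ Φ fun M _ => h M

theorem zero_of_cyc [IsNoetherianRing A] {Γ : Type 1} [AddCommGroup Γ] (Φ : G0 A →+ Γ)
    (h : ∀ I : Ideal A, Φ (cyc I) = 0) (z : G0 A) : Φ z = 0 := by
  obtain ⟨χ, hχ⟩ := exists_cls' A
  obtain ⟨τ, hτ⟩ := exists_comp χ Φ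
  have h1 : Van τ ⊥ := van_of_primes fun 𝔭 _ _ => by
    rw [hτ, hχ ⟨A ⧸ 𝔭⟩]
    exact h 𝔭
  refine zero_of_FG Φ (fun M => ?_) z
  rw [← hχ, ← hτ]
  exact h1 _ fun x hx y => by rw [Ideal.mem_bot.1 hx, zero_smul]

theorem iter_hom {Γ : Type 1} [AddCommGroup Γ] (ν : Γ →+ Γ) (m : ℕ) :
    ∃ μ : Γ →+ Γ, ∀ z, μ z = ν^[m] z := by
  induction m with
  | zero => exact ⟨AddMonoidHom.id _, fun z => rfl⟩
  | succ m ih =>
    obtain ⟨μ, h⟩ := ih
    exact ⟨μ.comp ν, fun z => h _⟩

theorem fg_of_nil {Γ : Type 1} [AddCommGroup Γ] (ν : Γ →+ Γ) (m : ℕ) (hm : ∀ z, ν^[m] z = 0)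
    {H : AddSubgroup Γ} (hH : H.FG) (h : ∀ z, ∃ a ∈ H, ∃ z', z = a + ν z') :
    (⊤ : AddSubgroup Γ).FG := by
  have h1 : ∀ i, ∃ K : AddSubgroup Γ, K.FG ∧ ∀ z, ∃ a ∈ K, ∃ z', z = a + ν^[i] z' := fun i => by
    induction i with
    | zero => exact ⟨H, hH, fun z => ⟨0, H.zero_mem, z, by simp⟩⟩
    | succ i ih =>
      obtain ⟨K, hK, ih⟩ := ih
      refine ⟨H ⊔ K.map ν, hH.sup ?_, fun z => ?_⟩
      · obtain ⟨s, hs, hf⟩ := (AddSubgroup.fg_iff _).1 hK
        exact (AddSubgroup.fg_iff _).2 ⟨ν '' s, by rw [← hs, AddMonoidHom.map_closure], hf.image _⟩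
      · obtain ⟨a, ha, z', rfl⟩ := h z
        obtain ⟨b, hb, z'', rfl⟩ := ih z'
        exact ⟨a + ν b, add_mem (AddSubgroup.mem_sup_left ha)
          (AddSubgroup.mem_sup_right ⟨b, hb, rfl⟩), z'', by
            rw [iterate_succ_apply', map_add, add_assoc]⟩
  obtain ⟨K, hK, h2⟩ := h1 m
  have : K = ⊤ := eq_top_iff.2 fun z _ => by
    obtain ⟨a, ha, z', rfl⟩ := h2 z
    rw [hm, add_zero]
    exact ha
  exact this ▸ hK

end

variable {R A : Type} [CommRing R] [CommRing A] [Algebra R A]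

theorem pr_mem (pr : A →ₗ[R] R) (I : Ideal R) {z : A} (hz : z ∈ I.map (algebraMap R A)) :
    pr z ∈ I := by
  have h : z ∈ I • (⊤ : Submodule R A) := by
    rw [Ideal.smul_top_eq_map]
    exact hz
  refine Submodule.smul_induction_on h (fun i hi a _ => ?_) fun a b ha hb => ?_
  · rw [map_smul]
    exact I.mul_mem_right _ hi
  · rw [map_add]
    exact I.add_mem ha hb

theorem comap_map_pr (pr : A →ₗ[R] R) (hp : ∀ a, pr (algebraMap R A a) = a) (I : Ideal R) :
    (I.map (algebraMap R A)).comap (algebraMap R A) = I :=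
  le_antisymm (fun a ha => hp a ▸ pr_mem pr I ha) Ideal.le_comap_map

theorem noeth_pr [IsNoetherianRing A] (pr : A →ₗ[R] R) (hp : ∀ a, pr (algebraMap R A a) = a) :
    IsNoetherianRing R := by
  refine monotone_stabilizes_iff_noetherian.1 fun f => ?_
  obtain ⟨m, hm⟩ := monotone_stabilizes_iff_noetherian.2 (inferInstance : IsNoetherian A A)
    ⟨fun i => Ideal.map (algebraMap R A) (f i), fun a b h => Ideal.map_mono (f.monotone h)⟩
  refine ⟨m, fun i hi => ?_⟩
  have h1 : Ideal.map (algebraMap R A) (f m) = Ideal.map (algebraMap R A) (f i) := hm i hi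
  rw [← comap_map_pr pr hp (f m), h1, comap_map_pr pr hp]

section
variable {m : ℕ} (e : Fin m → Fin m → R) (M N : Type) [AddCommGroup M] [Module R M]
  [AddCommGroup N] [Module R N]

/-- the twist of a module by an idempotent matrix -/
def TW : Submodule R (Fin m → M) where
  carrier := {v | ∀ i, ∑ j, e i j • v j = v i}
  zero_mem' i := by simp
  add_mem' {v w} hv hw i := by
    simp only [Pi.add_apply, smul_add, Finset.sum_add_distrib, hv i, hw i]
  smul_mem' c v hv i := by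
    simp only [Pi.smul_apply, smul_comm (e i _) c, ← Finset.smul_sum, hv i]

variable {M N}

/-- functoriality of the twist -/
def TWm (f : M →ₗ[R] N) : TW e M →ₗ[R] TW e N :=
  (f.compLeft (Fin m)).restrict fun v hv i => by
    simp only [LinearMap.compLeft_apply, comp_apply, ← map_smul, ← map_sum, hv i]

theorem TWm_apply (f : M →ₗ[R] N) (v : TW e M) (i : Fin m) : (TWm e f v).1 i = f (v.1 i) := rfl

variable {e}

theorem mem_TW (he : ∀ i l, ∑ j, e i j * e j l = e i l) (v : Fin m → M) :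
    (fun i => ∑ j, e i j • v j) ∈ TW e M := fun i => by
  simp only [Finset.smul_sum, smul_smul]
  rw [Finset.sum_comm]
  simp only [← Finset.sum_smul, he]

theorem TW_inj {f : M →ₗ[R] N} (hf : Injective f) : Injective (TWm e f) :=
  fun v w h => Subtype.ext (funext fun i => hf (congrFun (congrArg Subtype.val h) i))

theorem TW_surj (he : ∀ i l, ∑ j, e i j * e j l = e i l) {f : M →ₗ[R] N} (hf : Surjective f) :
    Surjective (TWm e f) := fun w => by
  choose v hv using fun i => hf (w.1 i)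
  refine ⟨⟨_, mem_TW he v⟩, Subtype.ext (funext fun i => ?_)⟩
  rw [TWm_apply]
  simp only [map_sum, map_smul, hv, w.2 i]

theorem TW_exact {P : Type} [AddCommGroup P] [Module R P] {f : M →ₗ[R] N} {g : N →ₗ[R] P}
    (hf : Injective f) (h : Exact f g) : Exact (TWm e f) (TWm e g) := fun w => by
  constructor
  · intro hw
    choose v hv using fun i => (h (w.1 i)).1 (congrFun (congrArg Subtype.val hw) i)
    refine ⟨⟨v, fun i => hf ?_⟩, Subtype.ext (funext hv)⟩
    simp only [map_sum, map_smul, hv, w.2 i]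
  · rintro ⟨v, rfl⟩
    exact Subtype.ext (funext fun i => h.apply_apply_eq_zero _)

variable {Γ : Type 1} [AddCommGroup Γ]

/-- the twisted additive function -/
def twF [IsNoetherianRing R] (he : ∀ i l, ∑ j, e i j * e j l = e i l) (χ : AddF R Γ) : AddF R Γ :=
  ⟨fun M _ _ => χ.val (TW e M), fun f g hf hg h =>
    χ.add _ _ (TW_inj hf) (TW_surj he hg) (TW_exact hf h)⟩

theorem tw_step [IsNoetherianRing R] (he : ∀ i l, ∑ j, e i j * e j l = e i l)
    (h2 : ∀ i j l, e j j * e i l = e i j * e j l) (χ : AddF R Γ) (b : Ideal R) (j : Fin m)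
    (h : Van χ (b ⊔ Ideal.span {e j j})) [Module.Finite R M] (hM : ∀ x ∈ b, ∀ y : M, x • y = 0) :
    χ.val (TW e M) = χ.val M := by
  let α : TW e M →ₗ[R] M := (LinearMap.proj j).comp (TW e M).subtype
  have h3 : χ.val (LinearMap.ker α) = 0 := by
    refine h _ fun x hx v => ?_
    obtain ⟨x, hxb, _, hy, rfl⟩ := Submodule.mem_sup.1 hx
    obtain ⟨c, rfl⟩ := Ideal.mem_span_singleton'.1 hy
    refine Subtype.ext (Subtype.ext (funext fun i => ?_))
    have h4 : v.1.1 j = 0 := v.2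
    have h5 : e j j • v.1.1 i = 0 := by
      rw [← v.1.2 i, Finset.smul_sum]
      have h6 : ∀ l, e j j • e i l • v.1.1 l = e i j • e j l • v.1.1 l := fun l => by
        rw [smul_smul, smul_smul, h2]
      rw [Finset.sum_congr rfl fun l _ => h6 l, ← Finset.smul_sum, v.1.2 j, h4, smul_zero]
    show (x + c * e j j) • v.1.1 i = 0
    rw [add_smul, hM x hxb, mul_smul, h5, smul_zero, add_zero]
  have h4 : χ.val (M ⧸ LinearMap.range α) = 0 := by
    refine h _ fun x hx v => ?_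
    obtain ⟨x, hxb, _, hy, rfl⟩ := Submodule.mem_sup.1 hx
    obtain ⟨c, rfl⟩ := Ideal.mem_span_singleton'.1 hy
    obtain ⟨v, rfl⟩ := Submodule.Quotient.mk_surjective _ v
    rw [← Submodule.Quotient.mk_smul, Submodule.Quotient.mk_eq_zero, add_smul, hM x hxb, zero_add,
      mul_comm, mul_smul]
    refine ⟨⟨fun i => e i j • c • v, fun i => ?_⟩, rfl⟩
    simp only [smul_smul (e _ _) (e _ _), ← Finset.sum_smul, he]
  rw [χ.ker_range α, χ.sub_quot (LinearMap.range α), h3, h4, zero_add, add_zero]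

theorem fg_of_tw [IsNoetherianRing R] (he : ∀ i l, ∑ j, e i j * e j l = e i l)
    (h2 : ∀ i j l, e j j * e i l = e i j * e j l) (h1 : ∑ j, e j j = 1)
    (h : ∀ (Γ : Type 1) [AddCommGroup Γ] (χ : AddF R Γ), (∀ M : FG R, χ.val (TW e M.M) = χ.val M.M) →
      ∃ H : AddSubgroup Γ, H.FG ∧ ∀ I : Ideal R, χ.val (R ⧸ I) ∈ H) : Cell R := by
  obtain ⟨χ, hχ⟩ := exists_cls' R
  obtain ⟨τ, hτ⟩ := exists_lift (twF he χ)
  let ν : G0 R →+ G0 R := AddMonoidHom.id _ - τ
  have hν : ∀ M : FG R, ν (χ.val M.M) = χ.val M.M - χ.val (TW e M.M) := fun M => by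
    show χ.val M.M - τ (χ.val M.M) = _
    rw [hχ, hτ]
    rfl
  have h3 : ∀ i t, t + i = m → ∀ M : FG R,
      (∀ x ∈ Ideal.span {x | ∃ j : Fin m, j.1 < t ∧ x = e j j}, ∀ y : M.M, x • y = 0) →
      ν^[i] (χ.val M.M) = 0 := by
    intro i
    induction i with
    | zero =>
      intro t ht M hM
      refine van_top χ _ fun x _ y => ?_
      have h4 : (1 : R) ∈ Ideal.span {x | ∃ j : Fin m, j.1 < t ∧ x = e j j} := by
        rw [← h1]
        exact Ideal.sum_mem _ fun j _ => Ideal.subset_span ⟨j, by omega, rfl⟩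
      rw [← one_smul R y, hM 1 h4, smul_zero]
    | succ i ih =>
      intro t ht M hM
      obtain ⟨νi, h5⟩ := iter_hom ν i
      obtain ⟨χ', hχ'⟩ := exists_comp χ νi
      have h4 := tw_step he h2 χ' (Ideal.span {x | ∃ j : Fin m, j.1 < t ∧ x = e j j})
        ⟨t, by omega⟩ (fun N _ _ _ hN => by
          rw [hχ', h5]
          refine ih (t + 1) (by omega) ⟨N⟩ fun x hx => hN x (Ideal.span_le.2 ?_ hx)
          rintro _ ⟨j, hj, rfl⟩
          rcases Nat.lt_succ_iff_lt_or_eq.1 hj with h6 | h6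
          · exact Ideal.mem_sup_left (Ideal.subset_span ⟨j, h6, rfl⟩)
          · have : j = ⟨t, by omega⟩ := Fin.ext h6
            rw [this]
            exact Ideal.mem_sup_right (Ideal.mem_span_singleton_self _)) hM
      rw [iterate_succ_apply, hν, ← h5, map_sub, ← hχ', ← hχ', h4, sub_self]
  have h4 : ∀ z, ν^[m] z = 0 := fun z => by
    obtain ⟨νi, h5⟩ := iter_hom ν m
    rw [← h5]
    refine zero_of_FG _ (fun M => ?_) z
    rw [h5, ← hχ]
    refine h3 m 0 (zero_add m) M fun x hx y => ?_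
    have : x = 0 := by simpa using hx
    rw [this, zero_smul]
  obtain ⟨χ', hχ'⟩ := exists_comp χ (QuotientAddGroup.mk' ν.range)
  obtain ⟨H, hH, h5⟩ := h _ χ' fun M => by
    rw [hχ', hχ', eq_comm, ← sub_eq_zero, ← map_sub, ← hν]
    exact (QuotientAddGroup.eq_zero_iff _).2 ⟨_, rfl⟩
  obtain ⟨s, hs, hf⟩ := (AddSubgroup.fg_iff _).1 hH
  obtain ⟨σ, hσ⟩ := (QuotientAddGroup.mk'_surjective ν.range).hasRightInverse
  refine cell_of_fg (fg_of_nil ν m h4 (H := AddSubgroup.closure (σ '' s))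
    ((AddSubgroup.fg_iff _).2 ⟨_, rfl, hf.image _⟩) fun z => ?_) fun I => AddSubgroup.mem_top _
  have h6 : QuotientAddGroup.mk' ν.range z ∈ H := by
    refine (QuotientAddGroup.eq_zero_iff _).1 (zero_of_cyc
      ((QuotientAddGroup.mk' H).comp (QuotientAddGroup.mk' ν.range)) (fun I => ?_) z)
    refine (QuotientAddGroup.eq_zero_iff _).2 ?_
    have h7 := h5 I
    rw [hχ', hχ ⟨R ⧸ I⟩] at h7
    exact h7
  have h7 : H = (AddSubgroup.closure (σ '' s)).map (QuotientAddGroup.mk' ν.range) := by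
    rw [AddMonoidHom.map_closure, Set.image_image, ← hs]
    simp only [hσ _, Set.image_id']
  rw [h7] at h6
  obtain ⟨a, ha, h8⟩ := h6
  obtain ⟨z', hz'⟩ := (QuotientAddGroup.eq (s := ν.range)).1 h8
  exact ⟨a, ha, z', by rw [hz']; abel⟩

end

end Pool.Agent.P.MP_1bf4cb_ag.RG
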