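import Pool.Agent.P.MP_1bf4cb_ag.RK

set_option autoImplicit false
set_option maxHeartbeats 400000
set_option linter.unusedSectionVars false
set_option linter.unusedVariables false

open Function
open scoped TensorProduct

noncomputable section

namespace Pool.Agent.P.MP_1bf4cb_ag.RG

/-- a strongly graded ring over its part of degree zero -/
structure SG (R A : Type) [CommRing R] [CommRing A] [Algebra R A] where
  H : ℤ → Submodule R A
  mul : ∀ {a b : ℤ} {x y : A}, x ∈ H a → y ∈ H b → x * y ∈ H (a + b)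
  one : 1 ∈ H 0
  pr : A →ₗ[R] R
  pr_zero : ∀ {x}, x ∈ H 0 → algebraMap R A (pr x) = x
  pr_alg : ∀ a, pr (algebraMap R A a) = a
  pr_ne : ∀ {a x}, x ∈ H a → a ≠ 0 → pr x = 0
  span : ∀ x, x ∈ ⨆ a, H a
  m : ℕ
  x : Fin m → A
  y : Fin m → A
  hx : ∀ i, x i ∈ H 1
  hy : ∀ i, y i ∈ H (-1)
  sum : ∑ i, x i * y i = 1

variable {R A : Type} [CommRing R] [CommRing A] [Algebra R A] (S : SG R A)

/-- the idempotent matrix -/
def SG.e (i j : Fin S.m) : R := S.pr (S.y i * S.x j)

include S in
theorem SG.inj : Injective (algebraMap R A) := LeftInverse.injective S.pr_alg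

theorem SG.alg_e (i j : Fin S.m) : algebraMap R A (S.e i j) = S.y i * S.x j :=
  S.pr_zero (by simpa using S.mul (S.hy i) (S.hx j))

theorem SG.he (i l : Fin S.m) : ∑ j, S.e i j * S.e j l = S.e i l := by
  apply S.inj
  simp only [map_sum, map_mul, S.alg_e]
  calc ∑ j, S.y i * S.x j * (S.y j * S.x l) = S.y i * (∑ j, S.x j * S.y j) * S.x l := by
        rw [Finset.mul_sum, Finset.sum_mul]
        exact Finset.sum_congr rfl fun j _ => by ring
    _ = _ := by rw [S.sum, mul_one]

theorem SG.he2 (i j l : Fin S.m) : S.e j j * S.e i l = S.e i j * S.e j l := by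
  apply S.inj
  simp only [map_mul, S.alg_e]
  ring

theorem SG.he1 : ∑ j, S.e j j = 1 := by
  apply S.inj
  simp only [map_sum, S.alg_e, map_one, mul_comm (S.y _), S.sum]

/-- the part of nonnegative degree -/
abbrev SG.Pos : Subalgebra R A := Algebra.adjoin R (Set.range S.x)

/-- the generators -/
def SG.xp (i : Fin S.m) : S.Pos := ⟨S.x i, Algebra.subset_adjoin ⟨i, rfl⟩⟩

theorem SG.mem_pos (c : ℕ) {z : A} (hz : z ∈ S.H c) : z ∈ S.Pos := by
  induction c generalizing z with
  | zero =>
    rw [← S.pr_zero hz]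
    exact S.Pos.algebraMap_mem _
  | succ c ih =>
    rw [← one_mul z, ← S.sum, Finset.sum_mul]
    refine sum_mem fun i _ => ?_
    rw [mul_assoc]
    refine mul_mem (S.xp i).2 (ih ?_)
    have := S.mul (S.hy i) hz
    rwa [show (-1 : ℤ) + ((c + 1 : ℕ) : ℤ) = c by push_cast; ring] at this

theorem SG.den (i : Fin S.m) (z : A) : z ∈ den (S.Pos.val : S.Pos →+* A) (S.xp i) := by
  refine Submodule.iSup_induction S.H
    (motive := fun z => z ∈ Pool.Agent.P.MP_1bf4cb_ag.den (S.Pos.val : S.Pos →+* A) (S.xp i))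
    (S.span z) (fun a z hz => ?_) (zero_mem _) fun _ _ => add_mem
  have h1 : ∀ N : ℕ, S.x i ^ N * z ∈ S.H (N + a) := fun N => by
    induction N with
    | zero => simpa using hz
    | succ N ih =>
      have := S.mul (S.hx i) ih
      rwa [← mul_assoc, ← pow_succ', show (1 : ℤ) + (N + a) = ((N + 1 : ℕ) : ℤ) + a by
        push_cast; ring] at this
  have h2 := h1 (-a).toNat
  rw [show (((-a).toNat : ℕ) : ℤ) + a = (((-a).toNat + a).toNat : ℕ) by omega] at h2
  exact ⟨(-a).toNat, ⟨_, S.mem_pos _ h2⟩, rfl⟩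

theorem SG.dec (p : S.Pos) : ∃ (r : R) (q : Fin S.m → S.Pos),
    p = algebraMap R S.Pos r + ∑ j, S.xp j * q j := by
  obtain ⟨p, hp⟩ := p
  induction hp using Algebra.adjoin_induction with
  | mem _ h =>
    obtain ⟨i, rfl⟩ := h
    refine ⟨0, Pi.single i 1, ?_⟩
    rw [map_zero, zero_add, Finset.sum_eq_single i (fun j _ hj => by
      rw [Pi.single_eq_of_ne hj, mul_zero]) (fun h => absurd (Finset.mem_univ _) h),
      Pi.single_eq_same, mul_one]
    rfl
  | algebraMap r => exact ⟨r, 0, by simp⟩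
  | add a b ha hb iha ihb =>
    obtain ⟨r, q, e⟩ := iha
    obtain ⟨r', q', e'⟩ := ihb
    refine ⟨r + r', q + q', ?_⟩
    show (⟨a, ha⟩ : S.Pos) + ⟨b, hb⟩ = _
    rw [e, e', map_add]
    simp only [Pi.add_apply, mul_add, Finset.sum_add_distrib]
    ring
  | mul a b ha hb iha ihb =>
    obtain ⟨r, q, e⟩ := iha
    obtain ⟨r', q', e'⟩ := ihb
    refine ⟨r * r', fun j => q j * ⟨b, hb⟩ + algebraMap R S.Pos r * q' j, ?_⟩
    show (⟨a, ha⟩ : S.Pos) * ⟨b, hb⟩ = _
    rw [e, add_mul, Finset.sum_mul]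
    nth_rewrite 1 [e']
    rw [mul_add, Finset.mul_sum, map_mul]
    simp only [mul_add, Finset.sum_add_distrib]
    rw [add_assoc, add_comm (∑ _, _)]
    congr 2 <;> exact Finset.sum_congr rfl fun j _ => by ring

theorem SG.pr_pos (p : S.Pos) (j : Fin S.m) : S.pr (S.x j * p) = 0 := by
  have h1 : ∀ z ∈ S.Pos, z ∈ ⨆ c : ℕ, S.H c := by
    intro z hz
    induction hz using Algebra.adjoin_induction with
    | mem _ h =>
      obtain ⟨i, rfl⟩ := h
      exact Submodule.mem_iSup_of_mem 1 (S.hx i)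
    | algebraMap r =>
      rw [Algebra.algebraMap_eq_smul_one]
      exact Submodule.mem_iSup_of_mem 0 (Submodule.smul_mem _ _ S.one)
    | add a b _ _ iha ihb => exact add_mem iha ihb
    | mul a b _ _ iha ihb =>
      refine Submodule.iSup_induction _ (motive := fun a => a * b ∈ ⨆ c : ℕ, S.H c) iha
        (fun c a ha => ?_) (by simp) fun _ _ h h' => by rw [add_mul]; exact add_mem h h'
      refine Submodule.iSup_induction _ (motive := fun b => a * b ∈ ⨆ c : ℕ, S.H c) ihb
        (fun c' b hb => ?_) (by simp) fun _ _ h h' => by rw [mul_add]; exact add_mem h h'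
      exact Submodule.mem_iSup_of_mem (c + c') (by push_cast; exact S.mul ha hb)
  refine Submodule.iSup_induction _ (motive := fun z => S.pr (S.x j * z) = 0) (h1 p.1 p.2)
    (fun c a ha => S.pr_ne (S.mul (S.hx j) ha) (by omega)) (by simp)
    fun _ _ h h' => by rw [mul_add, map_add, h, h', add_zero]

theorem SG.xe (j : Fin S.m) : ∑ i, S.xp i * algebraMap R S.Pos (S.e i j) = S.xp j := by
  refine Subtype.ext ?_
  show S.Pos.val _ = S.x j
  simp only [map_sum, map_mul, AlgHom.commutes, S.alg_e]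
  show ∑ i, S.x i * (S.y i * S.x j) = S.x j
  simp only [← mul_assoc, ← Finset.sum_mul, S.sum, one_mul]

section
variable (M : Type) [AddCommGroup M] [Module R M] [Module S.Pos M] [IsScalarTower R S.Pos M]

theorem SG.fin_quot [Module.Finite S.Pos M] (T : Submodule R M) (hT : ∀ j z, S.xp j • z ∈ T) :
    Module.Finite R (M ⧸ T) := by
  obtain ⟨s, hs⟩ := Module.Finite.fg_top (R := S.Pos) (M := M)
  have h1 : ∀ z : M, z ∈ Submodule.span R (s : Set M) ⊔ T := fun z => by
    have hz : z ∈ Submodule.span S.Pos (s : Set M) := hs ▸ Submodule.mem_top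
    have h2 : ∀ (p : S.Pos) (z : M), z ∈ Submodule.span R (s : Set M) ⊔ T →
        p • z ∈ Submodule.span R (s : Set M) ⊔ T := fun p z hz => by
      obtain ⟨r, q, rfl⟩ := S.dec p
      rw [add_smul, algebraMap_smul, Finset.sum_smul]
      refine add_mem (Submodule.smul_mem _ _ hz) (sum_mem fun j _ => ?_)
      rw [mul_smul]
      exact Submodule.mem_sup_right (hT _ _)
    induction hz using Submodule.span_induction with
    | mem z hz => exact Submodule.mem_sup_left (Submodule.subset_span hz)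
    | zero => exact zero_mem _
    | add a b _ _ ha hb => exact add_mem ha hb
    | smul p a _ ha => exact h2 p a ha
  have : Module.Finite R (Submodule.span R (s : Set M)) :=
    Module.Finite.span_of_finite R s.finite_toSet
  refine Module.Finite.of_surjective (T.mkQ.comp (Submodule.span R (s : Set M)).subtype) fun z => ?_
  obtain ⟨z, rfl⟩ := T.mkQ_surjective z
  obtain ⟨a, ha, b, hb, rfl⟩ := Submodule.mem_sup.1 (h1 z)
  refine ⟨⟨a, ha⟩, ?_⟩
  rw [map_add, show T.mkQ b = 0 from (Submodule.Quotient.mk_eq_zero _).2 hb, add_zero]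
  rfl

/-- the multiplication map -/
def SG.mu : TW S.e M →ₗ[R] M where
  toFun v := ∑ j, S.xp j • v.1 j
  map_add' v w := by simp [Finset.sum_add_distrib]
  map_smul' c v := by
    simp only [SetLike.val_smul, Pi.smul_apply, RingHom.id_apply, Finset.smul_sum,
      smul_comm c (S.xp _)]

theorem SG.mu_apply (v : TW S.e M) : S.mu M v = ∑ j, S.xp j • v.1 j := rfl

theorem SG.mem_range (j : Fin S.m) (z : M) : S.xp j • z ∈ LinearMap.range (S.mu M) := by
  refine ⟨⟨fun i => S.e i j • z, fun i => ?_⟩, ?_⟩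
  · simp only [smul_smul, ← Finset.sum_smul, S.he]
  · rw [S.mu_apply, ← S.xe j, Finset.sum_smul]
    simp only [mul_smul, algebraMap_smul]

theorem SG.fin_ker [IsNoetherianRing S.Pos] [Module.Finite S.Pos M] :
    Module.Finite R (LinearMap.ker (S.mu M)) := by
  let K : Submodule S.Pos (Fin S.m → M) :=
    { carrier := {v | v ∈ TW S.e M ∧ ∑ j, S.xp j • v j = 0}
      zero_mem' := ⟨zero_mem _, by simp⟩
      add_mem' := fun {v w} hv hw => ⟨add_mem hv.1 hw.1, by
        simp only [Pi.add_apply, smul_add, Finset.sum_add_distrib, hv.2, hw.2, add_zero]⟩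
      smul_mem' := fun c v hv => ⟨fun i => by
        simp only [Pi.smul_apply, smul_comm (S.e i _) c, ← Finset.smul_sum, hv.1 i], by
        simp only [Pi.smul_apply, smul_comm (S.xp _) c, ← Finset.smul_sum, hv.2, smul_zero]⟩ }
  have h1 := S.fin_quot K ⊥ fun j v => by
    refine (Submodule.mem_bot R).2 (Subtype.ext (funext fun i => ?_))
    show S.xp j • v.1 i = 0
    have h2 : ∀ l, S.xp j • S.e i l • v.1 l = S.e i j • S.xp l • v.1 l := fun l => by
      rw [← algebraMap_smul S.Pos (S.e i l), ← algebraMap_smul S.Pos (S.e i j), smul_smul,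
        smul_smul]
      congr 1
      refine Subtype.ext ?_
      show S.x j * algebraMap R A _ = algebraMap R A _ * S.x l
      rw [S.alg_e, S.alg_e]
      ring
    rw [← v.2.1 i, Finset.smul_sum, Finset.sum_congr rfl fun l _ => h2 l, ← Finset.smul_sum,
      v.2.2, smul_zero]
  have h2 : Module.Finite R K := Module.Finite.equiv (Submodule.quotEquivOfEqBot _ rfl)
  let f : K →ₗ[R] LinearMap.ker (S.mu M) :=
    { toFun := fun v => ⟨⟨v.1, v.2.1⟩, v.2.2⟩
      map_add' := fun _ _ => rfl
      map_smul' := fun _ _ => rfl }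
  exact Module.Finite.of_surjective f fun v => ⟨⟨v.1.1, v.1.2, v.2⟩, rfl⟩

theorem SG.val_cyc {Γ : Type 1} [AddCommGroup Γ] (χ : AddF R Γ) (I : Ideal R)
    (π : S.Pos →ₗ[S.Pos] M) (hs : Surjective π)
    (hπ : ∀ p, π p = 0 ↔ S.Pos.val p ∈ I.map (algebraMap R A)) :
    χ.val (M ⧸ LinearMap.range (S.mu M)) - χ.val (LinearMap.ker (S.mu M)) = χ.val (R ⧸ I) := by
  have h0 : ∀ q : Fin S.m → S.Pos, π (∑ j, S.xp j * q j) = ∑ j, S.xp j • π (q j) := fun q => by
    rw [map_sum]
    exact Finset.sum_congr rfl fun j _ => π.map_smul _ _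
  have h1 : LinearMap.ker (S.mu M) = ⊥ := by
    refine (Submodule.eq_bot_iff _).2 fun v hv => Subtype.ext (funext fun i => ?_)
    choose q hq using fun j => hs (v.1 j)
    have h2 : π (∑ j, S.xp j * q j) = 0 := by
      rw [h0]
      simp only [hq]
      exact hv
    have h3 : π (∑ j, algebraMap R S.Pos (S.e i j) * q j) = 0 := by
      rw [hπ] at h2 ⊢
      have h4 := Ideal.mul_mem_left _ (S.y i) h2
      simp only [map_sum, map_mul, AlgHom.commutes, S.alg_e, Finset.mul_sum, mul_assoc] at h4 ⊢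
      exact h4
    show v.1 i = 0
    rw [← v.2 i, ← h3, map_sum]
    refine Finset.sum_congr rfl fun j _ => ?_
    rw [← smul_eq_mul, map_smul, algebraMap_smul, hq]
  have : Subsingleton (LinearMap.ker (S.mu M)) := by
    rw [h1]
    infer_instance
  rw [χ.zero (LinearMap.ker _), sub_zero]
  let κ : R →ₗ[R] M ⧸ LinearMap.range (S.mu M) :=
    LinearMap.toSpanSingleton R _ (Submodule.Quotient.mk (π 1))
  have hκ : ∀ a, κ a = Submodule.Quotient.mk (π (algebraMap R S.Pos a)) := fun a => by
    rw [← mul_one (algebraMap R S.Pos a), ← smul_eq_mul, map_smul, algebraMap_smul]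
    rfl
  have hs' : Surjective κ := fun z => by
    obtain ⟨z, rfl⟩ := Submodule.Quotient.mk_surjective _ z
    obtain ⟨p, rfl⟩ := hs z
    obtain ⟨a, q, rfl⟩ := S.dec p
    refine ⟨a, ?_⟩
    rw [hκ, eq_comm, Submodule.Quotient.eq, map_add, add_sub_cancel_left, h0]
    exact sum_mem fun j _ => S.mem_range _ j _
  have hk : LinearMap.ker κ = I := by
    ext a
    rw [LinearMap.mem_ker, hκ, Submodule.Quotient.mk_eq_zero]
    constructor
    · rintro ⟨v, hv⟩
      choose q hq using fun j => hs (v.1 j)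
      have h2 : π (∑ j, S.xp j * q j - algebraMap R S.Pos a) = 0 := by
        rw [map_sub, h0, ← hv, S.mu_apply]
        simp only [hq, sub_self]
      have h4 := pr_mem S.pr I ((hπ _).1 h2)
      have h5 : ∀ j, S.pr (S.Pos.val (S.xp j * q j)) = 0 := fun j => S.pr_pos (q j) j
      rw [map_sub, map_sub, AlgHom.commutes, S.pr_alg, map_sum, map_sum,
        Finset.sum_eq_zero fun j _ => h5 j, zero_sub] at h4
      exact (neg_mem_iff).1 h4
    · intro ha
      rw [(hπ _).2 (Ideal.mem_map_of_mem (algebraMap R A) ha)]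
      exact zero_mem _
  exact χ.congr ((κ.quotKerEquivOfSurjective hs').symm.trans (Submodule.quotEquivOfEq _ _ hk))

end

theorem SG.tower (M : Type) [AddCommGroup M] [Module S.Pos M] :
    @IsScalarTower R S.Pos M _ _ (Module.compHom M (algebraMap R S.Pos)).toSMul :=
  letI : Module R M := Module.compHom M (algebraMap R S.Pos)
  IsScalarTower.of_algebraMap_smul fun _ _ => rfl

theorem SG.noeth [IsNoetherianRing R] : IsNoetherianRing S.Pos := by
  have : Algebra.FiniteType R S.Pos :=
    Algebra.FiniteType.adjoin_of_finite (Set.finite_range S.x)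
  exact Algebra.FiniteType.isNoetherianRing R _

theorem SG.ext [IsNoetherianRing R] {Γ : Type 1} [AddCommGroup Γ] (χ : AddF R Γ)
    (h : ∀ M : FG R, χ.val (TW S.e M.M) = χ.val M.M) :
    ∃ χ' : AddF A Γ, ∀ I : Ideal R, χ'.val (A ⧸ I.map (algebraMap R A)) = χ.val (R ⧸ I) := by
  classical
  have := S.noeth
  let ρ : AddF S.Pos Γ := ⟨fun M _ _ =>
    letI : Module R M := Module.compHom M (algebraMap R S.Pos)
    haveI := S.tower M
    χ.val (M ⧸ LinearMap.range (S.mu M)) - χ.val (LinearMap.ker (S.mu M)), by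
      intro M N P _ _ _ _ _ _ _ f g hf hg hfg
      let _ : Module R M := Module.compHom M (algebraMap R S.Pos)
      let _ : Module R N := Module.compHom N (algebraMap R S.Pos)
      let _ : Module R P := Module.compHom P (algebraMap R S.Pos)
      have := S.tower M
      have := S.tower N
      have := S.tower P
      have : Module.Finite S.Pos M := Module.Finite.of_injective f hf
      have : Module.Finite S.Pos P := Module.Finite.of_surjective g hg
      have := S.fin_ker M
      have := S.fin_ker N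
      have := S.fin_ker P
      have := S.fin_quot M _ (S.mem_range M)
      have := S.fin_quot N _ (S.mem_range N)
      have := S.fin_quot P _ (S.mem_range P)
      exact euler_RK χ (f.restrictScalars R) (g.restrictScalars R) hf hg hfg
        (TWm S.e (f.restrictScalars R)) (TWm S.e (g.restrictScalars R)) (TW_inj hf)
        (TW_surj S.he hg) (TW_exact hf hfg) (S.mu M) (S.mu N) (S.mu P)
        (fun v => by simp [S.mu_apply, TWm_apply]) (fun v => by simp [S.mu_apply, TWm_apply])⟩
  have hi : ∀ f ∈ Finset.univ.image S.xp, ∀ y, y ∈ Pool.Agent.P.MP_1bf4cb_ag.den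
      (S.Pos.val : S.Pos →+* A) f := fun f hf => by
    obtain ⟨i, -, rfl⟩ := Finset.mem_image.1 hf
    exact S.den i
  obtain ⟨χ', hχ'⟩ := lat (S.Pos.val : S.Pos →+* A) (Finset.univ.image S.xp) hi ρ (by
    intro M _ _ _ hM
    let _ : Module R M := Module.compHom M (algebraMap R S.Pos)
    have := S.tower M
    have h0 : ∀ j (z : M), S.xp j • z = 0 := fun j z => hM _ (Ideal.mem_sup_right
      (Ideal.subset_span (Finset.mem_coe.2 (Finset.mem_image_of_mem _ (Finset.mem_univ j))))) z
    have h1 : S.mu M = 0 := LinearMap.ext fun v => by simp [S.mu_apply, h0]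
    have := S.fin_quot M ⊥ fun j z => (Submodule.mem_bot R).2 (h0 j z)
    have : Module.Finite R M := Module.Finite.equiv (Submodule.quotEquivOfEqBot _ rfl)
    show χ.val (M ⧸ LinearMap.range (S.mu M)) - χ.val (LinearMap.ker (S.mu M)) = 0
    rw [χ.congr (Submodule.quotEquivOfEqBot _ (by rw [h1, LinearMap.range_zero])),
      χ.congr (LinearEquiv.ofTop _ (by rw [h1, LinearMap.ker_zero])), h ⟨M⟩, sub_self])
  refine ⟨χ', fun I => ?_⟩
  set IA := I.map (algebraMap R A) with hIA
  set J := IA.comap (S.Pos.val : S.Pos →+* A) with hJ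
  let g : (S.Pos ⧸ J) →ₛₗ[(S.Pos.val : S.Pos →+* A)] (A ⧸ IA) :=
    { toFun := Ideal.quotientMap IA (S.Pos.val : S.Pos →+* A) le_rfl
      map_add' := map_add _
      map_smul' := fun c x => by
        obtain ⟨x, rfl⟩ := Ideal.Quotient.mk_surjective x
        have e1 : c • Ideal.Quotient.mk J x = Ideal.Quotient.mk J (c * x) := rfl
        rw [e1, Ideal.quotientMap_mk, Ideal.quotientMap_mk, map_mul]
        rfl }
  have hg : Injective g := Ideal.quotientMap_injective
  rw [hχ' _ _ g hg fun f hf y => ?_]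
  swap
  · obtain ⟨y, rfl⟩ := Ideal.Quotient.mk_surjective y
    obtain ⟨N, p, hp⟩ := hi f hf y
    refine ⟨N, Ideal.Quotient.mk J p, ?_⟩
    show Ideal.Quotient.mk IA (_ * y) = Ideal.quotientMap IA _ le_rfl (Ideal.Quotient.mk J p)
    rw [Ideal.quotientMap_mk, hp]
  exact @SG.val_cyc R A _ _ _ S (S.Pos ⧸ J) _ (Module.compHom _ (algebraMap R S.Pos)) _
    (S.tower _) Γ _ χ I J.mkQ J.mkQ_surjective fun p => Submodule.Quotient.mk_eq_zero _

include S in
/-- descent along a torsor under the multiplicative group -/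
theorem SG.cell [IsNoetherianRing R] (hA : Cell A) : Cell R := by
  refine fg_of_tw S.he S.he2 S.he1 fun Γ _ χ h => ?_
  obtain ⟨χ', h1⟩ := S.ext χ h
  obtain ⟨G, hG⟩ := hA
  let H : AddSubgroup Γ := AddSubgroup.closure {x | x ∈ G.map fun M => χ'.val M.M}
  refine ⟨H, (AddSubgroup.fg_iff _).2 ⟨_, rfl, List.finite_toSet _⟩, fun I => ?_⟩
  obtain ⟨τ, hτ⟩ := exists_comp χ' (QuotientAddGroup.mk' H)
  have h2 : τ.val (A ⧸ I.map (algebraMap R A)) = 0 := hG _ τ (fun M hM => by
    rw [hτ]
    exact (QuotientAddGroup.eq_zero_iff _).2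
      (AddSubgroup.subset_closure (List.mem_map.2 ⟨M, hM, rfl⟩))) _
    (fun x hx y => by rw [Ideal.mem_bot.1 hx, zero_smul])
  rw [hτ, h1] at h2
  exact (QuotientAddGroup.eq_zero_iff _).1 h2

end Pool.Agent.P.MP_1bf4cb_ag.RG
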