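import Pool.Agent.P.MP_1bf4cb_ag.RL

set_option autoImplicit false
set_option maxHeartbeats 400000
set_option linter.unusedSectionVars false
set_option linter.unusedVariables false

open Function
open scoped TensorProduct

noncomputable section

namespace Pool.Agent.P.MP_1bf4cb_ag.RG

variable {k : Type} [Field k] {ι A : Type} [CommRing A] [Algebra k A]

/-- homogeneous elements for a coaction -/
def hm (ρ : A →ₐ[k] AddMonoidAlgebra A (ι → ℤ)) (l : ι → ℤ) : Submodule k A where
  carrier := {x | ρ x = AddMonoidAlgebra.single l x}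
  zero_mem' := by simp
  add_mem' {x y} hx hy := by
    show ρ (x + y) = _
    rw [map_add, hx, hy, AddMonoidAlgebra.single_add]
  smul_mem' c x hx := by
    show ρ (c • x) = _
    rw [map_smul, hx, AddMonoidAlgebra.smul_single]

/-- a strong grading by a lattice -/
structure MG (k : Type) [Field k] (ι A : Type) [CommRing A] [Algebra k A] where
  ρ : A →ₐ[k] AddMonoidAlgebra A (ι → ℤ)
  gen : ∀ a, a ∈ ⨆ l, hm ρ l
  str : ∀ l, ∃ (m : ℕ) (x y : Fin m → A), (∀ i, x i ∈ hm ρ l) ∧ (∀ i, y i ∈ hm ρ (-l)) ∧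
    ∑ i, x i * y i = 1

theorem hm_mul {ρ : A →ₐ[k] AddMonoidAlgebra A (ι → ℤ)} {l l' : ι → ℤ} {x y : A} (hx : x ∈ hm ρ l)
    (hy : y ∈ hm ρ l') : x * y ∈ hm ρ (l + l') := by
  show ρ (x * y) = _
  rw [map_mul, hx, hy, AddMonoidAlgebra.single_mul_single]

theorem hm_one (ρ : A →ₐ[k] AddMonoidAlgebra A (ι → ℤ)) : 1 ∈ hm ρ 0 := map_one ρ

/-- homogeneous components -/
def cp (ρ : A →ₐ[k] AddMonoidAlgebra A (ι → ℤ)) (l : ι → ℤ) : A →ₗ[k] A where
  toFun a := (ρ a).coeff l
  map_add' a b := by simp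
  map_smul' c a := by simp

theorem cp_eq {ρ : A →ₐ[k] AddMonoidAlgebra A (ι → ℤ)} {l : ι → ℤ} {x : A} (hx : x ∈ hm ρ l) :
    cp ρ l x = x := by
  show (ρ x).coeff l = x
  rw [hx, AddMonoidAlgebra.coeff_single, Finsupp.single_eq_same]

theorem cp_ne {ρ : A →ₐ[k] AddMonoidAlgebra A (ι → ℤ)} {l l' : ι → ℤ} {x : A} (hx : x ∈ hm ρ l)
    (h : l' ≠ l) : cp ρ l' x = 0 := by
  show (ρ x).coeff l' = 0
  rw [hx, AddMonoidAlgebra.coeff_single, Finsupp.single_eq_of_ne h]

theorem cp_mul {ρ : A →ₐ[k] AddMonoidAlgebra A (ι → ℤ)} {l : ι → ℤ} {x : A} (hx : x ∈ hm ρ l)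
    (l' : ι → ℤ) (a : A) : cp ρ l' (x * a) = x * cp ρ (-l + l') a := by
  show (ρ (x * a)).coeff l' = _
  rw [map_mul, hx, AddMonoidAlgebra.coeff_single_mul_apply]
  rfl

variable (G : MG k ι A)

theorem MG.cp_mem (l : ι → ℤ) (a : A) : cp G.ρ l a ∈ hm G.ρ l := by
  refine Submodule.iSup_induction _ (motive := fun a => cp G.ρ l a ∈ hm G.ρ l) (G.gen a)
    (fun l' x hx => ?_) (by simp) fun _ _ h h' => by rw [map_add]; exact add_mem h h'
  by_cases e : l = l'
  · subst e
    rwa [cp_eq hx]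
  · rw [cp_ne hx e]
    exact zero_mem _

/-- the degrees that occur -/
def MG.sp (a : A) : Finset (ι → ℤ) := (G.ρ a).coeff.support

theorem MG.not_sp {a : A} {l : ι → ℤ} (h : l ∉ G.sp a) : cp G.ρ l a = 0 :=
  Finsupp.notMem_support_iff.1 h

theorem MG.dec (a : A) : ∑ l ∈ G.sp a, cp G.ρ l a = a := by
  show (G.ρ a).coeff.sum (fun _ x => x) = a
  refine Submodule.iSup_induction _ (motive := fun a => (G.ρ a).coeff.sum (fun _ x => x) = a)
    (G.gen a) (fun l x hx => ?_) (by simp) fun _ _ h h' => ?_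
  · rw [show G.ρ x = _ from hx, AddMonoidAlgebra.coeff_single, Finsupp.sum_single_index rfl]
  · rw [map_add, AddMonoidAlgebra.coeff_add, Finsupp.sum_add_index' (fun _ => rfl)
      (fun _ _ _ => rfl), h, h']

theorem MG.dec' (a : A) {s : Finset (ι → ℤ)} (hs : G.sp a ⊆ s) : ∑ l ∈ s, cp G.ρ l a = a := by
  rw [← Finset.sum_subset hs fun l _ h => G.not_sp h, G.dec]

theorem MG.ext0 {a : A} (h : ∀ l, cp G.ρ l a = 0) : a = 0 := by
  rw [← G.dec a]
  exact Finset.sum_eq_zero fun l _ => h l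

theorem MG.ext {a b : A} (h : ∀ l, cp G.ρ l a = cp G.ρ l b) : a = b :=
  sub_eq_zero.1 (G.ext0 fun l => by rw [map_sub, h, sub_self])

theorem MG.cp_mul_zero {a b : A} {l : ι → ℤ}
    (h : ∀ l', cp G.ρ l' a = 0 ∨ cp G.ρ (-l' + l) b = 0) : cp G.ρ l (a * b) = 0 := by
  rw [← G.dec a, Finset.sum_mul, map_sum]
  refine Finset.sum_eq_zero fun l' _ => ?_
  rw [cp_mul (G.cp_mem l' a)]
  rcases h l' with h | h <;> rw [h] <;> simp

open Classical in
/-- truncation -/
def MG.tr (p : (ι → ℤ) → Prop) (a : A) : A := ∑ l ∈ (G.sp a).filter p, cp G.ρ l a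

open Classical in
theorem MG.cp_tr (p : (ι → ℤ) → Prop) (a : A) (l : ι → ℤ) :
    cp G.ρ l (G.tr p a) = if p l then cp G.ρ l a else 0 := by
  unfold MG.tr
  rw [map_sum]
  by_cases h : l ∈ (G.sp a).filter p
  · rw [Finset.sum_eq_single_of_mem l h (fun l' _ h => cp_ne (G.cp_mem l' a) h.symm),
      cp_eq (G.cp_mem l a), if_pos (Finset.mem_filter.1 h).2]
  · rw [Finset.sum_eq_zero fun l' h' => cp_ne (G.cp_mem l' a) fun e : l = l' => h (e ▸ h')]
    split_ifs with hp
    · exact (G.not_sp fun h' => h (Finset.mem_filter.2 ⟨h', hp⟩)).symm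
    · rfl

/-- the invariants of a coordinate subtorus -/
def MG.sub (S : Finset ι) : Subalgebra k A where
  carrier := {a | ∀ l, (∃ i ∈ S, l i ≠ 0) → cp G.ρ l a = 0}
  add_mem' {a b} ha hb l h := by rw [map_add, ha l h, hb l h, add_zero]
  mul_mem' {a b} ha hb l := by
    rintro ⟨i, hi, h⟩
    refine G.cp_mul_zero fun l' => ?_
    by_cases e : l' i = 0
    · exact Or.inr (hb _ ⟨i, hi, by simpa [e] using h⟩)
    · exact Or.inl (ha _ ⟨i, hi, e⟩)
  algebraMap_mem' c l := by
    rintro ⟨i, hi, h⟩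
    rw [Algebra.algebraMap_eq_smul_one, map_smul, cp_ne (hm_one G.ρ) fun e => h (by rw [e]; rfl),
      smul_zero]

theorem MG.hm_sub {S : Finset ι} {l : ι → ℤ} {x : A} (hx : x ∈ hm G.ρ l) (h : ∀ i ∈ S, l i = 0) :
    x ∈ G.sub S := by
  rintro l' ⟨i, hi, h'⟩
  exact cp_ne hx fun e => h' (e ▸ h i hi)

theorem MG.step [DecidableEq ι] {S : Finset ι} {i : ι} (hi : i ∉ S)
    (h : IsNoetherianRing (G.sub S) ∧ Cell (G.sub S)) :
    IsNoetherianRing (G.sub (insert i S)) ∧ Cell (G.sub (insert i S)) := by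
  have hle : G.sub (insert i S) ≤ G.sub S := fun a ha l ⟨j, hj, h⟩ =>
    ha l ⟨j, Finset.mem_insert_of_mem hj, h⟩
  let _ : Algebra (G.sub (insert i S)) (G.sub S) := (Subalgebra.inclusion hle).toRingHom.toAlgebra
  have hsm : ∀ (c : G.sub (insert i S)) (a : G.sub S), ((c • a : G.sub S) : A) = c * a :=
    fun c a => rfl
  let H : ℤ → Submodule (G.sub (insert i S)) (G.sub S) := fun n =>
    { carrier := {a | ∀ l, l i ≠ n → cp G.ρ l a = 0}
      zero_mem' := fun l _ => map_zero _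
      add_mem' := fun {a b} ha hb l h => by
        rw [Subalgebra.coe_add, map_add, ha l h, hb l h, add_zero]
      smul_mem' := fun c a ha l h => by
        rw [hsm]
        refine G.cp_mul_zero fun l' => ?_
        by_cases e : l' i = 0
        · exact Or.inr (ha _ (by simpa [e] using h))
        · exact Or.inl (c.2 _ ⟨i, Finset.mem_insert_self _ _, e⟩) }
  have hH : ∀ {l : ι → ℤ} {x : G.sub S}, x.1 ∈ hm G.ρ l → x ∈ H (l i) := fun hx l' h' =>
    cp_ne hx fun e => h' (by rw [e])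
  have hp : ∀ a : G.sub S, G.tr (fun l => l i = 0) a ∈ G.sub (insert i S) := by
    rintro a l ⟨j, hj, h⟩
    rw [G.cp_tr]
    split_ifs with e
    · rcases Finset.mem_insert.1 hj with rfl | hj
      · exact absurd e h
      · exact a.2 l ⟨j, hj, h⟩
    · rfl
  let pr : G.sub S →ₗ[G.sub (insert i S)] G.sub (insert i S) :=
    { toFun := fun a => ⟨_, hp a⟩
      map_add' := fun a b => Subtype.ext (G.ext fun l => by
        show cp G.ρ l (G.tr _ (a + b)) = cp G.ρ l (G.tr _ a + G.tr _ b)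
        rw [map_add, G.cp_tr, G.cp_tr, G.cp_tr, map_add]
        split_ifs <;> simp)
      map_smul' := fun c a => Subtype.ext (G.ext fun l => by
        show cp G.ρ l (G.tr _ (c * a)) = cp G.ρ l (c * G.tr _ a)
        rw [G.cp_tr, ← G.dec c, Finset.sum_mul, Finset.sum_mul, map_sum, map_sum]
        simp only [cp_mul (G.cp_mem _ _), G.cp_tr]
        have h1 : ∀ l', l' i ≠ 0 → cp G.ρ l' c = 0 := fun l' e =>
          c.2 _ ⟨i, Finset.mem_insert_self _ _, e⟩
        split_ifs with e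
        · refine Finset.sum_congr rfl fun l' _ => ?_
          by_cases e' : l' i = 0
          · rw [if_pos (by simp [e, e'])]
          · rw [h1 l' e', zero_mul, zero_mul]
        · refine (Finset.sum_eq_zero fun l' _ => ?_).symm
          by_cases e' : l' i = 0
          · rw [if_neg (by simpa [e'] using e), mul_zero]
          · rw [h1 l' e', zero_mul]) }
  obtain ⟨m, x, y, hx, hy, hs⟩ := G.str (Pi.single i 1)
  have h0 : ∀ j ∈ S, (Pi.single i 1 : ι → ℤ) j = 0 := fun j hj =>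
    Pi.single_eq_of_ne (fun e : j = i => hi (e ▸ hj)) _
  let T : SG (G.sub (insert i S)) (G.sub S) :=
    { H := H
      mul := fun {a b x y} hx hy l h => G.cp_mul_zero fun l' => by
        by_cases e : l' i = a
        · exact Or.inr (hy _ fun e' => h (by simp [e] at e'; omega))
        · exact Or.inl (hx _ e)
      one := hH (l := 0) (x := 1) (hm_one G.ρ)
      pr := pr
      pr_zero := fun {x} hx => Subtype.ext (G.ext fun l => by
        show cp G.ρ l (G.tr _ x) = _
        rw [G.cp_tr]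
        split_ifs with e
        · rfl
        · exact (hx l e).symm)
      pr_alg := fun a => Subtype.ext (G.ext fun l => by
        show cp G.ρ l (G.tr _ a) = _
        rw [G.cp_tr]
        split_ifs with e
        · rfl
        · exact (a.2 l ⟨i, Finset.mem_insert_self _ _, e⟩).symm)
      pr_ne := fun {a x} hx ha => Subtype.ext (G.ext0 fun l => by
        show cp G.ρ l (G.tr _ x) = _
        rw [G.cp_tr]
        split_ifs with e
        · exact hx l fun e' => ha (e'.symm.trans e)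
        · rfl)
      span := fun a => by
        have h1 : ∀ l, cp G.ρ l a ∈ G.sub S := fun l l' h' => by
          by_cases e : l' = l
          · subst e
            rw [cp_eq (G.cp_mem _ _)]
            exact a.2 _ h'
          · exact cp_ne (G.cp_mem _ _) e
        have h2 : a = ∑ l ∈ G.sp a, (⟨_, h1 l⟩ : G.sub S) := Subtype.ext (by
          rw [AddSubmonoidClass.coe_finsetSum]
          exact (G.dec a).symm)
        rw [h2]
        exact sum_mem fun l _ => Submodule.mem_iSup_of_mem (l i) (hH (G.cp_mem l a))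
      m := m
      x := fun j => ⟨x j, G.hm_sub (hx j) h0⟩
      y := fun j => ⟨y j, G.hm_sub (hy j) fun j hj => by rw [Pi.neg_apply, h0 j hj, neg_zero]⟩
      hx := fun j => by simpa using hH (x := ⟨x j, G.hm_sub (hx j) h0⟩) (hx j)
      hy := fun j => by
        simpa using hH (x := ⟨y j, G.hm_sub (hy j) fun j hj => by
          rw [Pi.neg_apply, h0 j hj, neg_zero]⟩) (hy j)
      sum := Subtype.ext (by
        rw [AddSubmonoidClass.coe_finsetSum]
        exact hs) }
  have := h.1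
  have := noeth_pr T.pr T.pr_alg
  exact ⟨this, T.cell h.2⟩

section
variable {Z : Subalgebra k A} (hZ : ∀ a, a ∈ Z ↔ a ∈ hm G.ρ 0)
include hZ

theorem MG.cell [Fintype ι] [IsNoetherianRing A] (hA : Cell A) : Cell Z := by
  classical
  have h1 : ∀ S : Finset ι, IsNoetherianRing (G.sub S) ∧ Cell (G.sub S) := fun S => by
    induction S using Finset.induction_on with
    | empty =>
      have e : G.sub ∅ = ⊤ := eq_top_iff.2 fun a _ l ⟨i, hi, _⟩ => absurd hi (Finset.notMem_empty i)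
      rw [e]
      exact ⟨isNoetherianRing_of_ringEquiv A Subalgebra.topEquiv.symm.toRingEquiv,
        cell_equiv Subalgebra.topEquiv.symm.toRingEquiv hA⟩
    | insert i S hi ih => exact G.step hi ih
  have e : G.sub Finset.univ = Z := by
    ext a
    rw [hZ]
    refine ⟨fun h => ?_, fun h => G.hm_sub h fun _ _ => rfl⟩
    have h2 : a = cp G.ρ 0 a := G.ext fun l => by
      by_cases e : l = 0
      · rw [e, cp_eq (G.cp_mem 0 a)]
      · rw [cp_ne (G.cp_mem 0 a) e]
        refine h l ?_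
        by_contra hn
        push Not at hn
        exact e (funext fun i => hn i (Finset.mem_univ i))
    rw [h2]
    exact G.cp_mem 0 a
  exact e ▸ (h1 _).2

/-- the projection onto the invariants -/
def MG.pr : A →ₗ[Z] Z where
  toFun a := ⟨cp G.ρ 0 a, (hZ _).2 (G.cp_mem 0 a)⟩
  map_add' a b := Subtype.ext (map_add _ a b)
  map_smul' c a := Subtype.ext (by
    show cp G.ρ 0 (c * a) = c * cp G.ρ 0 a
    rw [cp_mul ((hZ _).1 c.2), neg_zero, add_zero])

theorem MG.pr_alg (a : Z) : G.pr hZ (algebraMap Z A a) = a := Subtype.ext (cp_eq ((hZ _).1 a.2))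

theorem MG.flat : Module.Flat Z A := by
  classical
  refine Module.Flat.of_forall_isTrivialRelation fun {N f a} h => ?_
  choose m x y hx hy hs using G.str
  let s : Finset (ι → ℤ) := Finset.univ.biUnion fun i => G.sp (a i)
  let e := (Fintype.equivFin (Σ l : s, Fin (m l))).symm
  refine ⟨_, fun i j => G.pr hZ (y _ (e j).2 * a i), fun j => x _ (e j).2, fun i => ?_, fun j => ?_⟩
  · rw [e.sum_comp fun j => G.pr hZ (y _ j.2 * a i) • x _ j.2, Fintype.sum_sigma]
    refine (G.dec' (a i) (s := s) (Finset.subset_biUnion_of_mem (fun i => G.sp (a i))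
        (Finset.mem_univ i))).symm.trans ?_
    rw [← Finset.sum_coe_sort]
    refine Finset.sum_congr rfl fun l _ => ?_
    rw [← one_mul (cp G.ρ l (a i)), ← hs l, Finset.sum_mul]
    refine Finset.sum_congr rfl fun j _ => ?_
    show _ = cp G.ρ 0 (y _ j * a i) * x _ j
    rw [cp_mul (hy _ j), neg_neg, add_zero]
    ring
  · have h1 : ∀ i, f i * G.pr hZ (y _ (e j).2 * a i) = G.pr hZ (y _ (e j).2 * f i • a i) :=
      fun i => by rw [mul_smul_comm, map_smul, smul_eq_mul]
    rw [Finset.sum_congr rfl fun i _ => h1 i, ← map_sum, ← Finset.mul_sum, h, mul_zero, map_zero]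

theorem MG.map_comap (I : Ideal A) (hI : ∀ l, ∀ a ∈ I, cp G.ρ l a ∈ I) :
    (I.comap (algebraMap Z A)).map (algebraMap Z A) = I := by
  refine le_antisymm Ideal.map_comap_le fun a ha => ?_
  rw [← G.dec a]
  refine sum_mem fun l _ => ?_
  obtain ⟨m, x, y, hx, hy, hs⟩ := G.str l
  rw [← one_mul (cp G.ρ l a), ← hs, Finset.sum_mul]
  refine sum_mem fun j _ => ?_
  rw [mul_assoc]
  refine Ideal.mul_mem_left _ _ (Ideal.mem_map_of_mem (algebraMap Z A)
    (x := ⟨y j * cp G.ρ l a, (hZ _).2 ?_⟩) (I.mul_mem_left _ (hI l a ha)))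
  simpa using hm_mul (hy j) (G.cp_mem l a)

end

section
variable {σ : Type} {ρ : A →ₐ[k] AddMonoidAlgebra A (ι → ℤ)} {v : σ → A} {deg : σ → ι → ℤ}

theorem mon_mem (K : (ι → ℤ) → Submodule k A) (h1 : 1 ∈ K 0)
    (h2 : ∀ l l' x y, x ∈ K l → y ∈ K l' → x * y ∈ K (l + l')) (h3 : ∀ s, v s ∈ K (deg s))
    (m : σ →₀ ℕ) : MvPolynomial.aeval v (MvPolynomial.monomial m (1 : k)) ∈
      K (Finsupp.weight deg m) := by
  induction m using Finsupp.induction_linear with
  | zero => simpa using h1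
  | add f g hf hg =>
    rw [map_add, ← mul_one (1 : k), ← MvPolynomial.monomial_mul, map_mul]
    exact h2 _ _ _ _ hf hg
  | single s c =>
    rw [Finsupp.weight_single, ← MvPolynomial.X_pow_eq_monomial, map_pow, MvPolynomial.aeval_X]
    induction c with
    | zero => simpa using h1
    | succ c ih =>
      rw [pow_succ, succ_nsmul]
      exact h2 _ _ _ _ ih (h3 s)

theorem gen_of_surj (hv : Surjective (MvPolynomial.aeval v : _ →ₐ[k] A))
    (h : ∀ s, v s ∈ hm ρ (deg s)) (a : A) : a ∈ ⨆ l, hm ρ l := by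
  obtain ⟨P, rfl⟩ := hv a
  rw [P.as_sum, map_sum]
  refine sum_mem fun m _ => ?_
  rw [← mul_one (MvPolynomial.coeff m P), ← smul_eq_mul, ← MvPolynomial.smul_monomial, map_smul]
  exact Submodule.smul_mem _ _ (Submodule.mem_iSup_of_mem _
    (mon_mem (hm ρ) (hm_one ρ) (fun _ _ _ _ => hm_mul) h m))

theorem mem_of_mon (hv : Surjective (MvPolynomial.aeval v : _ →ₐ[k] A))
    (h : ∀ s, v s ∈ hm ρ (deg s)) {l : ι → ℤ} (K : Submodule k A)
    (hK : ∀ m, Finsupp.weight deg m = l →
      MvPolynomial.aeval v (MvPolynomial.monomial m (1 : k)) ∈ K) {a : A} (ha : a ∈ hm ρ l) :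
    a ∈ K := by
  rw [← cp_eq ha]
  obtain ⟨P, rfl⟩ := hv a
  rw [P.as_sum, map_sum, map_sum]
  refine sum_mem fun m _ => ?_
  rw [← mul_one (MvPolynomial.coeff m P), ← smul_eq_mul, ← MvPolynomial.smul_monomial, map_smul,
    map_smul]
  refine Submodule.smul_mem _ _ ?_
  have h1 := mon_mem (hm ρ) (hm_one ρ) (fun _ _ _ _ => hm_mul) h m
  by_cases e : l = Finsupp.weight deg m
  · rw [e, cp_eq h1]
    exact hK m e.symm
  · rw [cp_ne h1 e]
    exact zero_mem _

theorem hm_le (hv : Surjective (MvPolynomial.aeval v : _ →ₐ[k] A)) (h : ∀ s, v s ∈ hm ρ (deg s))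
    (K : (ι → ℤ) → Submodule k A) (h1 : 1 ∈ K 0)
    (h2 : ∀ l l' x y, x ∈ K l → y ∈ K l' → x * y ∈ K (l + l')) (h3 : ∀ s, v s ∈ K (deg s))
    {l : ι → ℤ} {a : A} (ha : a ∈ hm ρ l) : a ∈ K l :=
  mem_of_mon hv h (K l) (fun m e => by rw [← e]; exact mon_mem K h1 h2 h3 m) ha

end

end Pool.Agent.P.MP_1bf4cb_ag.RG
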