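import Pool.Agent.P.MP_1bf4cb_ag.RJ
import Pool.Agent.P.MP_1bf4cb_ag.RM

set_option autoImplicit false
set_option maxHeartbeats 400000
set_option linter.unusedSectionVars false
set_option linter.unusedVariables false

open Function Matrix
open scoped TensorProduct

noncomputable section

namespace Pool.Agent.P.MP_1bf4cb_ag.RG

variable {k : Type} [Field k] {n r : ℕ} {C C' : Type} [CommRing C] [Algebra k C] [CommRing C']
  [Algebra k C'] {E : OB k n r} {κ : Type}

/-- functions on the torus -/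
abbrev Lt (C : Type) [CommRing C] (r : ℕ) := AddMonoidAlgebra C (Bool × Fin r → ℤ)

/-- the characters of one factor -/
def emb (r : ℕ) (s : Bool) : (Fin r → ℤ) →+ (Bool × Fin r → ℤ) where
  toFun w p := if p.1 = s then w p.2 else 0
  map_zero' := by funext p; simp
  map_add' w w' := by funext p; by_cases h : p.1 = s <;> simp [h]

/-- the tautological point of the torus -/
def tau (C : Type) [CommRing C] (r : ℕ) (s : Bool) (i : Fin r) : (Lt C r)ˣ :=
  (AddMonoidAlgebra.of C (Bool × Fin r → ℤ)).toHomUnits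
    (Multiplicative.ofAdd (emb r s (Pi.single i 1)))

theorem tau_prod (s : Bool) (w : Fin r → ℤ) :
    ((∏ i, tau C r s i ^ w i : (Lt C r)ˣ) : Lt C r) = AddMonoidAlgebra.single (emb r s w) 1 := by
  unfold tau
  simp only [← map_zpow, ← map_prod, ← ofAdd_zsmul, ← ofAdd_sum, ← map_zsmul, ← map_sum]
  have : ∑ i, w i • (Pi.single i 1 : Fin r → ℤ) = w := by
    funext j
    simp [Finset.sum_apply, Pi.single_apply]
  rw [this]
  rfl

/-- constants -/
abbrev cst (k : Type) [Field k] (C : Type) [CommRing C] [Algebra k C] (r : ℕ) : C →ₐ[k] Lt C r :=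
  IsScalarTower.toAlgHom k C (Lt C r)

/-- degrees of the entries -/
def dg (E : OB k n r) (sel : κ → Option Bool) (v : κ × Fin n × Fin n) : Bool × Fin r → ℤ :=
  (sel v.1).elim 0 fun s => emb r s (E.wt v.2.2)

/-- right translation of frames -/
def rtr (sel : κ → Option Bool) (x : κ → E.Γ C) (b : Bool → E.Γ C) : κ → E.Γ C :=
  fun s => x s * (sel s).elim 1 b

/-- translation by the tautological point -/
def twp (sel : κ → Option Bool) (x : κ → E.Γ C) : κ → E.Γ (Lt C r) :=
  rtr sel (fun s => mp (cst k C r) (x s)) fun s => tG E (tau C r s)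

theorem ent_twp (sel : κ → Option Bool) (x : κ → E.Γ C) (v : κ × Fin n × Fin n) :
    ent (twp sel x) v = AddMonoidAlgebra.single (dg E sel v) (ent x v) := by
  unfold ent twp rtr dg
  cases sel v.1 with
  | none =>
    rw [Option.elim_none, Option.elim_none, mul_one]
    rfl
  | some s =>
    rw [Option.elim_some, Option.elim_some, mx_mul, mx_tG, dT, mul_diagonal, tau_prod]
    show AddMonoidAlgebra.single 0 _ * _ = _
    rw [AddMonoidAlgebra.single_mul_single, zero_add, mul_one]
    rfl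

theorem ent_ext {x y : κ → E.Γ C} (h : ∀ v, ent x v = ent y v) : x = y :=
  funext fun s => mx_inj (Matrix.ext fun a b => h (s, a, b))

theorem mx_tG_inv (t : Fin r → Cˣ) : mx (tG E t)⁻¹ = dT E t⁻¹ := by
  have h1 : dT E t * dT E t⁻¹ = 1 := by
    unfold dT
    rw [diagonal_mul_diagonal, ← diagonal_one]
    congr 1
    funext a
    rw [← Units.val_mul, ← Finset.prod_mul_distrib]
    simp
  rw [← Matrix.mul_one (mx _), ← h1, ← Matrix.mul_assoc, ← mx_tG, ← mx_mul, inv_mul_cancel, mx_one,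
    Matrix.one_mul]

/-- conditions invariant under `B` -/
def Inv (sel : κ → Option Bool) (q : Cnd (E.pw κ)) : Prop :=
  ∀ (C : Type) [CommRing C] [Algebra k C] (x : κ → E.Γ C) (b : Bool → E.Γ C),
    (∀ s, b s ∈ E.BB C) → q.p C x → q.p C (rtr sel x b)

theorem Inv.twp {sel : κ → Option Bool} {q : Cnd (E.pw κ)} (h : Inv sel q) {x : κ → E.Γ C}
    (hx : q.p C x) : q.p _ (twp sel x) :=
  h _ _ _ (fun s => tG_BB _) (q.st (cst k C r) x hx)

theorem ex_MG {sel : κ → Option Bool} (hsel : ∀ s, ∃ s', sel s' = some s) {q : Cnd (E.pw κ)}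
    (hq : Inv sel q) {R : Type} [CommRing R] [Algebra k R] {x : ((E.pw κ).sub q).obj R}
    (hx : Rp ((E.pw κ).sub q) R x)
    (hv : Surjective (MvPolynomial.aeval (ent x.1) : _ →ₐ[k] R)) :
    ∃ G : MG k (Bool × Fin r) R, ∀ v, ent x.1 v ∈ hm G.ρ (dg E sel v) := by
  obtain ⟨ρ, hρ⟩ := hx.ex _ ⟨twp sel x.1, hq.twp x.2⟩
  have hρ' : ∀ s, mp ρ (x.1 s) = twp sel x.1 s := fun s => congrFun (congrArg Subtype.val hρ) s
  have h1 : ∀ v, ent x.1 v ∈ hm ρ (dg E sel v) := fun v => by
    show ρ _ = _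
    rw [← ent_twp]
    exact congrFun (congrFun (congrArg mx (hρ' v.1)) v.2.1) v.2.2
  let St : AddSubgroup (Bool × Fin r → ℤ) :=
    { carrier := {l | (1 : R) ∈ hm ρ l * hm ρ (-l)}
      zero_mem' := by
        show (1 : R) ∈ hm ρ 0 * hm ρ (-0)
        rw [neg_zero, ← mul_one (1 : R)]
        exact Submodule.mul_mem_mul (hm_one ρ) (hm_one ρ)
      add_mem' := fun {l l'} h h' => by
        have h2 := Submodule.mul_mem_mul (show (1 : R) ∈ hm ρ l * hm ρ (-l) from h)
          (show (1 : R) ∈ hm ρ l' * hm ρ (-l') from h')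
        rw [mul_one, mul_mul_mul_comm] at h2
        refine mul_le_mul' (Submodule.mul_le.2 fun _ h _ h' => hm_mul h h')
          (Submodule.mul_le.2 fun _ h _ h' => ?_) h2
        rw [neg_add]
        exact hm_mul h h'
      neg_mem' := fun {l} h => by
        show (1 : R) ∈ hm ρ (-l) * hm ρ (- -l)
        rw [neg_neg, mul_comm]
        exact h }
  have h2 : ∀ s w, emb r s w ∈ St := fun s w => by
    obtain ⟨s', hs'⟩ := hsel s
    have h3 : AddSubgroup.closure (Set.range E.wt) ≤ St.comap (emb r s) := by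
      refine (AddSubgroup.closure_le _).2 ?_
      rintro _ ⟨b, rfl⟩
      show (1 : R) ∈ hm ρ (emb r s (E.wt b)) * hm ρ (-emb r s (E.wt b))
      have h4 : (1 : R) = ∑ a, mx (x.1 s') a b * mx (x.1 s' : E.Γ R)⁻¹ b a := by
        have h5 := congrFun (congrFun (congrArg mx (inv_mul_cancel (x.1 s' : E.Γ R))) b) b
        rw [mx_mul, mx_one, one_apply_eq, mul_apply] at h5
        rw [← h5]
        exact Finset.sum_congr rfl fun a _ => mul_comm _ _
      rw [h4]
      refine sum_mem fun a _ => Submodule.mul_mem_mul ?_ ?_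
      · have h5 := h1 (s', a, b)
        unfold dg at h5
        rw [hs'] at h5
        exact h5
      · have h5 : mp ρ (x.1 s' : E.Γ R)⁻¹ =
            (tG E (tau R r s))⁻¹ * mp (cst k R r) (x.1 s' : E.Γ R)⁻¹ := by
          rw [map_inv, hρ', map_inv, ← _root_.mul_inv_rev]
          unfold twp rtr
          rw [hs']
          rfl
        have h6 := congrFun (congrFun (congrArg mx h5) b) a
        rw [mx_mul, mx_tG_inv, dT, diagonal_mul] at h6
        refine h6.trans ?_
        simp only [Pi.inv_apply, _root_.inv_zpow']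
        rw [tau_prod]
        show _ * AddMonoidAlgebra.single 0 _ = _
        rw [AddMonoidAlgebra.single_mul_single, add_zero, one_mul, ← map_neg]
        rfl
    rw [E.ok.span] at h3
    exact h3 (AddSubgroup.mem_top w)
  refine ⟨⟨ρ, gen_of_surj hv h1, fun l => ?_⟩, h1⟩
  have h3 : l ∈ St := by
    have e : l = emb r false (fun i => l (false, i)) + emb r true (fun i => l (true, i)) := by
      funext p
      obtain ⟨s, i⟩ := p
      cases s <;> simp [emb]
    rw [e]
    exact add_mem (h2 _ _) (h2 _ _)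
  have h4 : (1 : R) ∈ hm ρ l * hm ρ (-l) := h3
  rw [Submodule.mul_eq_span_mul_set] at h4
  obtain ⟨m, c, g, hg⟩ := Submodule.mem_span_set'.1 h4
  choose a ha b hb hab using fun i => Set.mem_mul.1 (g i).2
  refine ⟨m, fun i => c i • a i, b, fun i => Submodule.smul_mem _ _ (ha i), hb, ?_⟩
  rw [← hg]
  exact Finset.sum_congr rfl fun i _ => by rw [smul_mul_assoc, hab]

theorem homog {sel : κ → Option Bool} {R : Type} [CommRing R] [Algebra k R] {x : κ → E.Γ R}
    (hv : Surjective (MvPolynomial.aeval (ent x) : _ →ₐ[k] R))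
    {ρ : R →ₐ[k] Lt R r} (hρ : ∀ v, ent x v ∈ hm ρ (dg E sel v)) {q : Cnd (E.pw κ)} (hq : Inv sel q)
    (I : Ideal R) (hI : ∀ (C : Type) [CommRing C] [Algebra k C] (φ : R →ₐ[k] C),
      q.p C ((E.pw κ).map φ x) ↔ ∀ i ∈ I, φ i = 0) (l : Bool × Fin r → ℤ) (a : R) (ha : a ∈ I) :
    cp ρ l a ∈ I := by
  have h1 := hq.twp ((hI _ (Ideal.Quotient.mkₐ k I)).2 fun i hi =>
    Ideal.Quotient.eq_zero_iff_mem.2 hi)
  have h2 : twp sel ((E.pw κ).map (Ideal.Quotient.mkₐ k I) x) = (E.pw κ).map
      ((AddMonoidAlgebra.mapAlgHom _ (Ideal.Quotient.mkₐ k I)).comp ρ) x := ent_ext fun v => by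
    rw [ent_twp]
    show _ = AddMonoidAlgebra.mapAlgHom _ (Ideal.Quotient.mkₐ k I) (ρ (ent x v))
    rw [hρ v, AddMonoidAlgebra.mapAlgHom_single]
    rfl
  rw [h2] at h1
  have h3 := congrArg (fun z => z.coeff l) ((hI _ _).1 h1 a ha)
  rw [← Ideal.Quotient.eq_zero_iff_mem]
  exact (AddMonoidAlgebra.coeff_mapAlgHom (Ideal.Quotient.mkₐ k I) (ρ a) l).symm.trans h3

end Pool.Agent.P.MP_1bf4cb_ag.RG
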