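import Pool.Agent.P.MP_1bf4cb_ag.RN

set_option autoImplicit false
set_option maxHeartbeats 400000
set_option linter.unusedSectionVars false
set_option linter.unusedVariables false

open Function Matrix
open scoped TensorProduct

noncomputable section

namespace Pool.Agent.P.MP_1bf4cb_ag.RG

section
variable {U L M : Type} [CommRing U] [CommRing L] [CommRing M] (j : L →+* M) (pr : M →+ L)
  (h1 : ∀ u y, pr (j u * y) = u * pr y) (h2 : pr 1 = 1)
include h1 h2

theorem flat_of_pr (θ : U →+* L) (h : (j.comp θ).Flat) : θ.Flat := by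
  let _ : Algebra U M := (j.comp θ).toAlgebra
  let _ : Algebra U L := θ.toAlgebra
  have : Module.Flat U M := h
  exact Module.Flat.of_retract (R := U) (M := M) (N := L)
    { toFun := j, map_add' := j.map_add, map_smul' := fun c y => j.map_mul _ _ }
    { toFun := pr, map_add' := pr.map_add, map_smul' := fun c y => h1 _ _ }
    (LinearMap.ext fun u => by
      show pr (j u) = u
      rw [← mul_one (j u), h1, h2, mul_one])

theorem map_inj_pr {I I' : Ideal L} (h : I.map j = I'.map j) : I = I' := by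
  let _ : Algebra L M := j.toAlgebra
  let p : M →ₗ[L] L := { toFun := pr, map_add' := pr.map_add, map_smul' := fun c y => h1 _ _ }
  have hp : ∀ u, p (algebraMap L M u) = u := fun u => by
    show pr (j u) = u
    rw [← mul_one (j u), h1, h2, mul_one]
  have h3 : I.map (algebraMap L M) = I'.map (algebraMap L M) := h
  rw [← comap_map_pr p hp I, h3, comap_map_pr p hp I']

end

variable {k : Type} [Field k] {n r : ℕ} {C C' : Type} [CommRing C] [Algebra k C] [CommRing C']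
  [Algebra k C'] {E : OB k n r} {κ : Type}

/-- the elements of degree zero -/
def hm0 {ι : Type} (ρ : C →ₐ[k] AddMonoidAlgebra C (ι → ℤ)) : Subalgebra k C :=
  (hm ρ 0).toSubalgebra (hm_one ρ) fun x y hx hy => by simpa using hm_mul hx hy

theorem mem_hm0 {ι : Type} (ρ : C →ₐ[k] AddMonoidAlgebra C (ι → ℤ)) (a : C) :
    a ∈ hm0 ρ ↔ a ∈ hm ρ 0 := Iff.rfl

theorem hm_pow {ι : Type} {ρ : C →ₐ[k] AddMonoidAlgebra C (ι → ℤ)} {l : ι → ℤ} {x : C}
    (hx : x ∈ hm ρ l) (c : ℕ) : x ^ c ∈ hm ρ (c • l) := by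
  induction c with
  | zero => simpa using hm_one ρ
  | succ c ih =>
    rw [pow_succ, succ_nsmul]
    exact hm_mul ih hx

theorem MG.ex_pr {ι : Type} (G : MG k ι C) {Z : Subalgebra k C} (hZ : ∀ a, a ∈ Z ↔ a ∈ hm G.ρ 0) :
    ∃ pr : C →ₗ[k] Z, (∀ (u : Z) y, pr (u * y) = u * pr y) ∧ pr 1 = 1 :=
  ⟨(G.pr hZ).restrictScalars k, fun u y => (G.pr hZ).map_smul u y, G.pr_alg hZ 1⟩

theorem MG.flat_val {ι : Type} (G : MG k ι C) {Z : Subalgebra k C}
    (hZ : ∀ a, a ∈ Z ↔ a ∈ hm G.ρ 0) : (Z.val : Z →+* C).Flat :=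
  RingHom.flat_algebraMap_iff.2 (G.flat hZ)

/-- the relative position of a frame and its image -/
def nR (E : OB k n r) (s : κ) : NG (E.pw κ) E :=
  ⟨fun C _ _ (x : κ → E.Γ C) => (x s)⁻¹ * E.FF C (x s),
    fun φ x => by rw [map_mul, map_inv, mp_FF]; rfl⟩

/-- the condition on the two frames -/
def cR (E : OB k n r) : Cnd (E.pw Bool) := (cS E.Pa (nR E false)).and (cS E.Pa (nR E true))

/-- pairs of frames -/
def OB.fR (E : OB k n r) : Fn k := (E.pw Bool).sub (cR E)

/-- the frames of a point -/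
def gR (x : E.fR.obj C) : Bool → E.Γ C := x.1

theorem cR_iff (x : Bool → E.Γ C) : (cR E).p C x ↔ ∀ s, (x s)⁻¹ * E.FF C (x s) ∈ E.PP C :=
  ⟨fun h s => by
    cases s
    · exact h.1
    · exact h.2, fun h => ⟨h false, h true⟩⟩

theorem gR_mem (x : E.fR.obj C) (s : Bool) : (gR x s)⁻¹ * E.FF C (gR x s) ∈ E.PP C :=
  (cR_iff x.1).1 x.2 s

/-- a pair of frames -/
def mkR (x : Bool → E.Γ C) (h : ∀ s, (x s)⁻¹ * E.FF C (x s) ∈ E.PP C) : E.fR.obj C :=
  ⟨x, (cR_iff x).2 h⟩

theorem adj_mul_map (φ : C →+* C') (g h : Mx n C) :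
    (g.adjugate * h).map φ = (g.map φ).adjugate * h.map φ := by
  rw [Matrix.map_mul]
  congr 1
  exact φ.map_adjugate g

theorem adj_fr_map (φ : C →ₐ[k] C') (g : Mx n C) :
    (g.adjugate * E.fr g).map φ = (g.map φ).adjugate * E.fr (g.map φ) := by
  rw [fr_map]
  exact adj_mul_map (φ : C →+* C') g _

theorem rp_Frm (E : OB k n r) : ∃ x : E.fR.obj E.Frm, Rp E.fR E.Frm x ∧
    ∀ v, ent (gR x) v = Ideal.Quotient.mk _ (MvPolynomial.X v) := by
  refine rp_span (cR E) _ (fun C _ _ ψ h => ?_) ?_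
  · refine ⟨fun s => mkG ((gn k n s).map ψ) fun f hf =>
      (vl_map ψ _ f).trans (h _ ⟨s, Or.inl ⟨f, hf, rfl⟩⟩), fun v => rfl, (cR_iff _).2 fun s f hf => ?_⟩
    show vl (((gn k n s).map ψ).adjugate * E.fr ((gn k n s).map ψ)) f = 0
    rw [← adj_fr_map, vl_map]
    exact h _ ⟨s, Or.inr ⟨f, hf, rfl⟩⟩
  · rintro C _ _ x hx _ ⟨s, ⟨f, hf, rfl⟩ | ⟨f, hf, rfl⟩⟩
    · rw [← vl_map]
      exact (congrArg (vl · f) (gm_map x s)).trans (mx_sol _ f hf)
    · rw [← vl_map, adj_fr_map]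
      exact (congrArg (fun g => vl (adjugate g * E.fr g) f) (gm_map x s)).trans
        ((cR_iff x).1 hx s f hf)

theorem inv_cR : Inv some (cR E) := fun C _ _ x b hb hx => (cR_iff _).2 fun s => by
  show (x s * b s)⁻¹ * E.FF C (x s * b s) ∈ _
  have e : (x s * b s)⁻¹ * E.FF C (x s * b s) =
      (b s)⁻¹ * ((x s)⁻¹ * E.FF C (x s)) * E.FF C (b s) := by
    rw [map_mul]
    group
  rw [e]
  exact mul_mem (mul_mem (inv_mem (BB_le (hb s))) ((cR_iff x).1 hx s)) (BB_le (FF_BB (hb s)))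

theorem inv_cU : Inv id (cU E) := fun C _ _ x b hb hx => by
  have h : ∀ s, (x (some s) * b s)⁻¹ * (x none * 1) * E.FF C (x (some s) * b s) ∈ E.PP C := fun s => by
    have e : (x (some s) * b s)⁻¹ * (x none * 1) * E.FF C (x (some s) * b s) =
        (b s)⁻¹ * ((x (some s))⁻¹ * x none * E.FF C (x (some s))) * E.FF C (b s) := by
      rw [map_mul]
      group
    rw [e]
    exact mul_mem (mul_mem (inv_mem (BB_le (hb s))) (gU_mem ⟨x, hx⟩ s)) (BB_le (FF_BB (hb s)))
  exact ⟨h false, h true⟩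

theorem weight_iff (m : Bool × Fin n × Fin n →₀ ℕ) :
    Finsupp.weight (dg E some) m = 0 ↔ ∀ s, ∑ a, ∑ b, m (s, a, b) • E.wt b = 0 := by
  have h : Finsupp.weight (dg E some) m = ∑ s, emb r s (∑ a, ∑ b, m (s, a, b) • E.wt b) := by
    rw [Finsupp.weight_apply, Finsupp.sum_fintype m (fun i c => c • dg E some i)
      (fun _ => zero_smul _ _), Fintype.sum_prod_type]
    refine Finset.sum_congr rfl fun s _ => ?_
    rw [Fintype.sum_prod_type, map_sum]
    refine Finset.sum_congr rfl fun a _ => ?_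
    rw [map_sum]
    exact Finset.sum_congr rfl fun b _ => (map_nsmul _ _ _).symm
  rw [h]
  constructor
  · intro h0 s
    funext i
    have := congrFun h0 (s, i)
    rw [Fintype.sum_bool] at this
    cases s <;> simpa [emb] using this
  · intro h0
    simp only [h0, map_zero, Finset.sum_const_zero]

theorem aeval_Frm {x : Bool → E.Γ E.Frm}
    (hv : ∀ v, ent x v = Ideal.Quotient.mk _ (MvPolynomial.X v)) :
    (MvPolynomial.aeval (ent x) : _ →ₐ[k] E.Frm) = Ideal.Quotient.mkₐ k _ :=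
  MvPolynomial.algHom_ext fun v => (MvPolynomial.aeval_X _ _).trans (hv v)

theorem surj_Frm {x : Bool → E.Γ E.Frm}
    (hv : ∀ v, ent x v = Ideal.Quotient.mk _ (MvPolynomial.X v)) :
    Surjective (MvPolynomial.aeval (ent x) : _ →ₐ[k] E.Frm) := by
  rw [aeval_Frm hv]
  exact Ideal.Quotient.mkₐ_surjective k _

theorem inv_iff {x : Bool → E.Γ E.Frm}
    (hv : ∀ v, ent x v = Ideal.Quotient.mk _ (MvPolynomial.X v)) {ρ : E.Frm →ₐ[k] Lt E.Frm r}
    (hρ : ∀ v, ent x v ∈ hm ρ (dg E some v)) (a : E.Frm) : a ∈ E.Inv ↔ a ∈ hm ρ 0 := by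
  constructor
  · intro ha
    refine (Algebra.adjoin_le (S := hm0 ρ) ?_ : E.Inv ≤ hm0 ρ) ha
    rintro _ ⟨m, hm, rfl⟩
    have h := mon_mem (RG.hm ρ) (hm_one ρ) (fun _ _ _ _ => hm_mul) hρ m
    rw [(weight_iff m).2 hm, aeval_Frm hv] at h
    exact h
  · intro ha
    refine mem_of_mon (A := E.Frm) (v := ent x) (surj_Frm hv) hρ
      (Subalgebra.toSubmodule E.Inv) (fun m hm => ?_) ha
    rw [aeval_Frm hv, Subalgebra.mem_toSubmodule, Ideal.Quotient.mkₐ_eq_mk]
    unfold Bru.Inv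
    exact Algebra.subset_adjoin ⟨m, (weight_iff m).1 hm, rfl⟩

theorem ft_Inv (E : OB k n r) : Algebra.FiniteType k E.Inv := by
  obtain ⟨S, hS, hf⟩ := (AddSubmonoid.fg_iff _).1
    (AddSubmonoid.fg_eqLocusM (Finsupp.weight (R := ℕ) (dg E some)) 0)
  let f : (Bool × Fin n × Fin n →₀ ℕ) → E.Frm :=
    fun m => Ideal.Quotient.mk _ (MvPolynomial.monomial m 1)
  have e : E.Inv = Algebra.adjoin k (f '' S) := by
    refine le_antisymm (Algebra.adjoin_le ?_) (Algebra.adjoin_mono ?_)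
    · rintro _ ⟨m, hm, rfl⟩
      have h1 : m ∈ AddSubmonoid.closure S := by
        rw [hS]
        exact (weight_iff m).2 hm
      clear hm
      induction h1 using AddSubmonoid.closure_induction with
      | mem m hm => exact Algebra.subset_adjoin ⟨m, hm, rfl⟩
      | zero => exact one_mem _
      | add a b _ _ ha hb =>
        rw [← mul_one (1 : k), ← MvPolynomial.monomial_mul, map_mul]
        exact mul_mem ha hb
    · rintro _ ⟨m, hm, rfl⟩
      have h1 : m ∈ AddSubmonoid.closure S := AddSubmonoid.subset_closure hm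
      rw [hS] at h1
      exact ⟨m, (weight_iff m).1 h1, rfl⟩
  rw [e]
  exact Algebra.FiniteType.adjoin_of_finite (hf.image f)

end Pool.Agent.P.MP_1bf4cb_ag.RG
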