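import Pool.Agent.P.MP_1bf4cb_ag.RO

set_option autoImplicit false
set_option maxHeartbeats 400000
set_option linter.unusedSectionVars false
set_option linter.unusedVariables false

open Function Matrix
open scoped TensorProduct

noncomputable section

namespace Pool.Agent.P.MP_1bf4cb_ag.RG

variable {k : Type} [Field k] {n r : ℕ} {C C' : Type} [CommRing C] [Algebra k C] [CommRing C']
  [Algebra k C'] {E : OB k n r} {κ : Type}

/-- the ideal saying that a point lies in `B` -/
def bI (g : E.Γ C) : Ideal C := Ideal.span (vl (mx g) '' E.B)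

theorem bI_map (φ : C →ₐ[k] C') (g : E.Γ C) : (bI g).map (φ : C →+* C') = bI (mp φ g) :=
  span_map_vl E.B _ φ

theorem bI_hom {sel : κ → Option Bool} {x : κ → E.Γ C}
    (hv : Surjective (MvPolynomial.aeval (ent x) : _ →ₐ[k] C)) (G : MG k (Bool × Fin r) C)
    (hρ : ∀ v, ent x v ∈ hm G.ρ (dg E sel v)) {Z : Subalgebra k C}
    (hZ : ∀ a, a ∈ Z ↔ a ∈ hm G.ρ 0) (h : NG (E.pw κ) E) (hq : Inv sel (cS E.B h)) :
    ((bI (h.g C x)).comap (Z.val : Z →+* C)).map (Z.val : Z →+* C) = bI (h.g C x) :=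
  G.map_comap hZ _ fun l a ha => homog hv hρ hq _ (fun C' _ _ φ => by
    show Sol E.B (mx (h.g C' _)) ↔ _
    rw [h.nat]
    exact sol_map_iff E.B _ φ) l a ha

variable [Fintype k]

theorem fro_pow_nat (φ : C →ₐ[k] C') (a : ℕ) : φ.comp (fro k C ^ a) = (fro k C' ^ a).comp φ :=
  AlgHom.ext fun x => by
    rw [AlgHom.comp_apply, AlgHom.comp_apply, fro_pow_apply, fro_pow_apply, map_pow]

/-- the relative position of the second frame and the Frobenius image of the first -/
def nF (E : OB k n r) (a : ℕ) : NG (E.pw Bool) E :=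
  ⟨fun C _ _ (x : Bool → E.Γ C) => (mp (fro k C ^ a) (x false))⁻¹ * x true, fun φ x => by
    rw [map_mul, map_inv, mp_mp _ φ, fro_pow_nat]
    rfl⟩

theorem inv_nF (a : ℕ) : Inv some (cS E.B (nF E a)) := fun C _ _ x b hb hx => by
  show (mp (fro k C ^ a) (x false * b false))⁻¹ * (x true * b true) ∈ E.BB C
  have e : (mp (fro k C ^ a) (x false * b false))⁻¹ * (x true * b true) =
      (mp (fro k C ^ a) (b false))⁻¹ * ((mp (fro k C ^ a) (x false))⁻¹ * x true) * b true := by
    rw [map_mul]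
    group
  rw [e]
  exact mul_mem (mul_mem (inv_mem (mp_BB _ (hb _))) hx) (hb _)

/-- single frames -/
def OB.f1 (E : OB k n r) : Fn k := (E.pw Unit).sub (cS E.Pa (nR E ()))

/-- the frame of a point -/
def g1 (x : E.f1.obj C) : E.Γ C := x.1 ()

theorem g1_mem (x : E.f1.obj C) : (g1 x)⁻¹ * E.FF C (g1 x) ∈ E.PP C := x.2

/-- a single frame -/
def mk1 (g : E.Γ C) (h : g⁻¹ * E.FF C g ∈ E.PP C) : E.f1.obj C := ⟨fun _ => g, h⟩

theorem fs_f1 : FS E.f1 := fun C _ _ I hI g => by
  obtain ⟨p, hp, h1⟩ := lift_P I hI (g1_mem g)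
  obtain ⟨g', h2, h3⟩ := lang_fix I hI 1 p⁻¹ (g1 g) (by rw [map_one, map_inv, h1]; group)
  refine ⟨mk1 g' ?_, Subtype.ext (funext fun _ => h3)⟩
  have e : g'⁻¹ * E.FF C g' = p := by
    calc _ = (1 * E.FF C g' * p⁻¹)⁻¹ * E.FF C g' := by rw [h2]
      _ = p := by group
  rw [e]
  exact hp

/-- pairs of frames as a product -/
def ni1 (E : OB k n r) : NI (E.f1.prod E.f1) E.fR where
  ap C _ _ z := mkR (fun s => cond s (g1 z.2) (g1 z.1)) fun s => by
    cases s
    · exact g1_mem z.1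
    · exact g1_mem z.2
  bij C _ _ := ⟨fun z z' e => Prod.ext
      (Subtype.ext (funext fun _ => (congrArg (fun w => gR w false) e :)))
      (Subtype.ext (funext fun _ => (congrArg (fun w => gR w true) e :))),
    fun w => ⟨(mk1 (gR w false) (gR_mem w _), mk1 (gR w true) (gR_mem w _)),
      Subtype.ext (funext fun s => by cases s <;> rfl)⟩⟩
  nat φ z := Subtype.ext (funext fun s => by cases s <;> rfl)

theorem ex_pfrob {R : Type} [CommRing R] [Algebra k R] {x : E.fR.obj R} (hx : Rp E.fR R x) :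
    ∃ φ : R →ₐ[k] R, (φ : R →+* R).Flat ∧ mp φ (gR x false) = mp (fro k R) (gR x false) ∧
      mp φ (gR x true) = gR x true := by
  obtain ⟨A, _, _, y, hy, -⟩ := ex_gen (E := E) (cl_cS E.Pa (nR E ()))
  have := hy.ft
  have := fs_f1.smooth hy
  obtain ⟨e, he⟩ := ((rp_tensor hy hy).iso (ni1 E)).equiv hx
  let ψ : A ⊗[k] A →ₐ[k] A ⊗[k] A := Algebra.TensorProduct.map (fro k A) (AlgHom.id k A)
  have hψ : (ψ : A ⊗[k] A →+* A ⊗[k] A).Flat :=
    RingHom.Flat.tensorProductMap (flat_fro A) (RingHom.Flat.id A)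
  have h1 : gR x false = mp ((e : A ⊗[k] A →ₐ[k] R).comp Algebra.TensorProduct.includeLeft) (g1 y) :=
    (congrArg (fun w => gR w false) he).symm
  have h2 : gR x true = mp ((e : A ⊗[k] A →ₐ[k] R).comp Algebra.TensorProduct.includeRight) (g1 y) :=
    (congrArg (fun w => gR w true) he).symm
  refine ⟨(e : A ⊗[k] A →ₐ[k] R).comp (ψ.comp (e.symm : R →ₐ[k] A ⊗[k] A)), ?_, ?_, ?_⟩
  · exact ((RingHom.Flat.of_bijective (f := (e.symm : R →+* A ⊗[k] A)) e.symm.bijective).comp
      hψ).comp (RingHom.Flat.of_bijective (f := (e : A ⊗[k] A →+* R)) e.bijective)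
  · rw [h1, mp_mp, mp_mp, ← fro_nat]
    congr 2
    ext a
    simp [ψ]
  · rw [h2, mp_mp]
    congr 2
    ext a
    simp [ψ]

/-- scaling the degrees of the first frame -/
def scl (r Q : ℕ) : (Bool × Fin r → ℤ) →+ (Bool × Fin r → ℤ) where
  toFun l p := cond p.1 (l p) (Q • l p)
  map_zero' := by
    funext p
    cases p.1 <;> simp
  map_add' l l' := by
    funext p
    obtain ⟨s, i⟩ := p
    cases s <;> simp [mul_add]

theorem ex_shift {R : Type} [CommRing R] [Algebra k R] {x : E.fR.obj R} (hx : Rp E.fR R x)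
    (hv : Surjective (MvPolynomial.aeval (ent (gR x)) : _ →ₐ[k] R)) (G : MG k (Bool × Fin r) R)
    (hρ : ∀ v, ent (gR x) v ∈ hm G.ρ (dg E some v)) {Z : Subalgebra k R}
    (hZ : ∀ a, a ∈ Z ↔ a ∈ hm G.ρ 0) : ∃ φ : Z →+* Z, φ.Flat ∧ ∀ a,
      ((bI ((nF E a).g R (gR x))).comap (Z.val : Z →+* R)).map φ =
        (bI ((nF E (a + 1)).g R (gR x))).comap (Z.val : Z →+* R) := by
  obtain ⟨φ, hφ, h0, h1⟩ := ex_pfrob hx
  have h2 : ∀ a ∈ Z, φ a ∈ Z := fun a ha => by
    have h3 := hm_le hv hρ (fun l => (hm G.ρ (scl r (Fintype.card k) l)).comap φ.toLinearMap)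
      (by
        show φ 1 ∈ hm G.ρ (scl r _ 0)
        rw [map_one, map_zero]
        exact hm_one _)
      (fun l l' a b ha hb => by
        show φ (a * b) ∈ hm G.ρ (scl r _ (l + l'))
        rw [map_mul, map_add]
        exact hm_mul ha hb)
      (by
        rintro ⟨s, a, b⟩
        show φ (ent (gR x) (s, a, b)) ∈ hm G.ρ (scl r _ (dg E some (s, a, b)))
        cases s
        · have e1 : φ (ent (gR x) (false, a, b)) = ent (gR x) (false, a, b) ^ Fintype.card k :=
            congrFun (congrFun (congrArg mx h0) a) b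
          have e2 : scl r (Fintype.card k) (dg E some (false, a, b)) =
              Fintype.card k • dg E some (false, a, b) := by
            funext p
            obtain ⟨s, i⟩ := p
            cases s <;> simp [scl, dg, emb]
          rw [e1, e2]
          exact hm_pow (hρ _) _
        · have e1 : φ (ent (gR x) (true, a, b)) = ent (gR x) (true, a, b) :=
            congrFun (congrFun (congrArg mx h1) a) b
          have e2 : scl r (Fintype.card k) (dg E some (true, a, b)) = dg E some (true, a, b) := by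
            funext p
            obtain ⟨s, i⟩ := p
            cases s <;> simp [scl, dg, emb]
          rw [e1, e2]
          exact hρ _) ((hZ a).1 ha)
    rw [hZ, ← map_zero (scl r (Fintype.card k))]
    exact h3
  let φ0 : Z →+* Z := (φ : R →+* R).restrict Z Z h2
  have h3 : (Z.val : Z →+* R).comp φ0 = (φ : R →+* R).comp (Z.val : Z →+* R) := rfl
  obtain ⟨pr, hp1, hp2⟩ := G.ex_pr hZ
  refine ⟨φ0, flat_of_pr (Z.val : Z →+* R) pr.toAddMonoidHom hp1 hp2 φ0 ?_, fun a =>
    map_inj_pr (Z.val : Z →+* R) pr.toAddMonoidHom hp1 hp2 ?_⟩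
  · rw [h3]
    exact (G.flat_val hZ).comp hφ
  · rw [Ideal.map_map, h3, ← Ideal.map_map, bI_hom hv G hρ hZ _ (inv_nF a),
      bI_hom hv G hρ hZ _ (inv_nF (a + 1)), bI_map]
    congr 1
    show mp φ ((mp (fro k R ^ a) (gR x false))⁻¹ * gR x true) =
      (mp (fro k R ^ (a + 1)) (gR x false))⁻¹ * gR x true
    rw [map_mul, map_inv, h1, mp_mp, fro_pow_nat, ← mp_mp, h0, mp_mp, pow_succ]
    rfl

end Pool.Agent.P.MP_1bf4cb_ag.RG
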