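import Pool.Agent.P.MP_1bf4cb_ag.RP

set_option autoImplicit false
set_option maxHeartbeats 400000
set_option linter.unusedSectionVars false
set_option linter.unusedVariables false

open Function Matrix
open scoped TensorProduct

noncomputable section

namespace Pool.Agent.P.MP_1bf4cb_ag.RG

variable {k : Type} [Field k] {n r : ℕ} {C C' : Type} [CommRing C] [Algebra k C] [CommRing C']
  [Algebra k C'] {E : OB k n r} {κ : Type} {j : ℕ}

/-- the twisted endomorphism -/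
def psi (γ : E.Γ C) (g : E.Γ C) : E.Γ C := γ * E.FF C g

theorem psi_map (φ : C →ₐ[k] C') (γ g : E.Γ C) (m : ℕ) :
    mp φ ((psi γ)^[m] g) = (psi (mp φ γ))^[m] (mp φ g) := by
  induction m with
  | zero => rfl
  | succ m ih =>
    rw [iterate_succ_apply', iterate_succ_apply', ← ih]
    unfold psi
    rw [map_mul, mp_FF]

theorem psi_mul (γ g b : E.Γ C) (m : ℕ) :
    (psi γ)^[m] (g * b) = (psi γ)^[m] g * (E.FF C)^[m] b := by
  induction m with
  | zero => rfl
  | succ m ih =>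
    rw [iterate_succ_apply', iterate_succ_apply', iterate_succ_apply', ih]
    unfold psi
    rw [map_mul, mul_assoc]

theorem psi_lang (z g : E.Γ C) (m : ℕ) :
    (psi (z * (E.FF C z)⁻¹))^[m] (z * g) = z * (E.FF C)^[m] g := by
  rw [psi_mul, iterate_fixed]
  exact inv_mul_cancel_right _ _

theorem FF_iter_BB {b : E.Γ C} (h : b ∈ E.BB C) (m : ℕ) : (E.FF C)^[m] b ∈ E.BB C := by
  induction m with
  | zero => exact h
  | succ m ih =>
    rw [iterate_succ_apply']
    exact FF_BB ih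

/-- the universal graphs -/
def nJ (E : OB k n r) (m : ℕ) : NG (E.pw (Option Bool)) E :=
  ⟨fun C _ _ (x : Option Bool → E.Γ C) =>
    ((psi (x none))^[m] (x (some false)))⁻¹ * x (some true), fun φ x => by
    rw [map_mul, map_inv, psi_map]
    rfl⟩

theorem inv_nJ (m : ℕ) : Inv id (cS E.B (nJ E m)) := fun C _ _ x b hb hx => by
  show ((psi (x none * 1))^[m] (x (some false) * b false))⁻¹ * (x (some true) * b true) ∈ E.BB C
  have e : ((psi (x none * 1))^[m] (x (some false) * b false))⁻¹ * (x (some true) * b true) =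
      ((E.FF C)^[m] (b false))⁻¹ * (((psi (x none))^[m] (x (some false)))⁻¹ * x (some true)) *
        b true := by
    rw [mul_one, psi_mul]
    group
  rw [e]
  exact mul_mem (mul_mem (inv_mem (FF_iter_BB (hb _) m)) hx) (hb _)

theorem ex_top (E : OB k n r) : ∃ j, j + 1 = E.M := by
  refine Nat.exists_eq_add_one.2 (Nat.pos_of_ne_zero fun h => ?_) |>.imp fun _ h => h.symm
  have h1 := E.ok.ends.2
  rw [h, E.ok.ends.1] at h1
  exact Set.singleton_ne_empty _ h1

/-- an open part of a cell -/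
def fO (hj : j < E.M) (f : Pn k n) : Fn k := (E.fC j).loc (nv (nC hj) f)

/-- the group element of a point of the open part -/
def gO {hj : j < E.M} {f : Pn k n} (y : (fO hj f).obj C) : E.Γ C := cel hj y.1

theorem mp_gO {hj : j < E.M} {f : Pn k n} (φ : C →ₐ[k] C') (y : (fO hj f).obj C) :
    mp φ (gO y) = gO ((fO hj f).map φ y) := mp_cel hj φ y.1

/-- the Lang map -/
def lam (hj : j < E.M) (f : Pn k n) (C : Type) [CommRing C] [Algebra k C]
    (z : (E.fR.prod (fO hj f)).obj C) : E.fU.obj C :=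
  mkU (fun s => gO z.2 * gR z.1 s) (gO z.2 * (E.FF C (gO z.2))⁻¹) fun s => by
    have e : (gO z.2 * gR z.1 s)⁻¹ * (gO z.2 * (E.FF C (gO z.2))⁻¹) * E.FF C (gO z.2 * gR z.1 s) =
        (gR z.1 s)⁻¹ * E.FF C (gR z.1 s) := by
      rw [map_mul]
      group
    rw [e]
    exact gR_mem _ _

theorem lam_nat (hj : j < E.M) (f : Pn k n) (φ : C →ₐ[k] C') (z : (E.fR.prod (fO hj f)).obj C) :
    lam hj f C' ((E.fR.prod (fO hj f)).map φ z) = E.fU.map φ (lam hj f C z) := by
  refine ext_U (fun s => ?_) ?_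
  · show gO ((fO hj f).map φ z.2) * mp φ (gR z.1 s) = mp φ (gO z.2 * gR z.1 s)
    rw [map_mul, mp_gO]
  · show gO ((fO hj f).map φ z.2) * (E.FF C' (gO ((fO hj f).map φ z.2)))⁻¹ =
      mp φ (gO z.2 * (E.FF C (gO z.2))⁻¹)
    rw [map_mul, map_inv, mp_FF, mp_gO]

variable [Fintype k]

theorem lam_lift (hj : j < E.M) (hM : j + 1 = E.M) {f : Pn k n} (hf : f ∈ E.Z j) (C : Type)
    [CommRing C] [Algebra k C] (I : Ideal C) (hI : I ^ 2 = ⊥) (u : E.fU.obj C)
    (z : (E.fR.prod (fO hj f)).obj (C ⧸ I))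
    (h : E.fU.map (Ideal.Quotient.mkₐ k I) u = lam hj f _ z) :
    ∃ z', lam hj f C z' = u ∧ (E.fR.prod (fO hj f)).map (Ideal.Quotient.mkₐ k I) z' = z := by
  have h1 : mp (Ideal.Quotient.mkₐ k I) (gU u none) = gO z.2 * (E.FF _ (gO z.2))⁻¹ :=
    congrArg (fun w => gU w none) h
  have h2 : ∀ s, mp (Ideal.Quotient.mkₐ k I) (gU u (some s)) = gO z.2 * gR z.1 s := fun s =>
    congrArg (fun w => gU w (some s)) h
  obtain ⟨c, h3, h4⟩ := lang_fix I hI (gU u none) 1 (gO z.2) (by rw [h1, map_one]; group)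
  have hu : IsUnit (vl (mx c) f) := by
    rw [← IsNilpotent.isUnit_quotient_mk_iff (I := I) ⟨2, hI⟩, ← Ideal.Quotient.mkₐ_eq_mk k,
      ← vl_map, ← mx_mp, h4]
    exact z.2.2
  obtain ⟨y, hy⟩ := cel_surj hj (g := c) (by
      rw [hM, E.ok.ends.2]
      exact fun f hf => hf.elim)
    (Ideal.eq_top_of_isUnit_mem _ (Ideal.subset_span ⟨f, hf, rfl⟩) hu)
  subst hy
  have h5 : gU u none = cel hj y * (E.FF C (cel hj y))⁻¹ := by
    rw [mul_one] at h3
    exact eq_mul_inv_of_mul_eq h3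
  refine ⟨(mkR (fun s => (cel hj y)⁻¹ * gU u (some s)) fun s => ?_, ⟨y, hu⟩),
    ext_U (fun s => mul_inv_cancel_left (cel hj y) _) h5.symm,
    Prod.ext (Subtype.ext (funext fun s => ?_)) (Subtype.ext (cel_inj hj ?_))⟩
  · have e : ((cel hj y)⁻¹ * gU u (some s))⁻¹ * E.FF C ((cel hj y)⁻¹ * gU u (some s)) =
        (gU u (some s))⁻¹ * gU u none * E.FF C (gU u (some s)) := by
      rw [h5, map_mul, map_inv]
      group
    rw [e]
    exact gU_mem u s
  · show mp (Ideal.Quotient.mkₐ k I) ((cel hj y)⁻¹ * gU u (some s)) = gR z.1 s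
    rw [map_mul, map_inv, h4, h2, inv_mul_cancel_left]
  · exact (mp_cel hj _ y).symm.trans h4

theorem ex_fgH {R : Type} [CommRing R] [Algebra k R] {x : E.fR.obj R} (hx : Rp E.fR R x)
    (hv : Surjective (MvPolynomial.aeval (ent (gR x)) : _ →ₐ[k] R)) (G : MG k (Bool × Fin r) R)
    (hρ : ∀ v, ent (gR x) v ∈ hm G.ρ (dg E some v)) {Z : Subalgebra k R}
    (hZ : ∀ a, a ∈ Z ↔ a ∈ hm G.ρ 0) (hft : Algebra.FiniteType k Z) :
    ∃ (H : AddSubgroup (G0 Z)) (e : ℕ), H.FG ∧ 0 < e ∧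
      ∀ i, cyc ((bI ((nF E (e * i)).g R (gR x))).comap (Z.val : Z →+* R)) ∈ H := by
  have := Algebra.FiniteType.isNoetherianRing k Z
  obtain ⟨j, hM⟩ := ex_top E
  have hj : j < E.M := by omega
  obtain ⟨f, hf, hu⟩ := ex_unit hj
  obtain ⟨L, _, _, δ, ω, ε, hL, -, -, hS⟩ := (po_fC (y0 E j)).loc (nv (nC hj) f) hu Z hft
  obtain ⟨O, _, _, y, hy⟩ : Ex (fO hj f) := ex_fC.loc _
  obtain ⟨eq, heq⟩ := (rp_tensor (rp_hF hft) hy).equiv hL
  have heq1 : (eq : Z ⊗[k] O →ₐ[k] L).comp Algebra.TensorProduct.includeLeft = δ :=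
    congrArg Prod.fst heq
  obtain ⟨U, _, _, u, hU, hUs⟩ := ex_gen (E := E) ((cl_cS E.Pa (nU E false)).and (cl_cS _ (nU E true)))
  obtain ⟨GU, hGU⟩ := ex_MG (sel := id) (fun s => ⟨some s, rfl⟩) inv_cU hU hUs
  have := hU.noeth
  have hc : Cell (hm0 GU.ρ) := GU.cell (mem_hm0 _) (cf_fU U u hU)
  have hT := rp_tensor hx hy
  obtain ⟨θ, hθ⟩ := hU.ex (R ⊗[k] O) (lam hj f _ (E.fR.map Algebra.TensorProduct.includeLeft x,
    (fO hj f).map Algebra.TensorProduct.includeRight y))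
  have hθf := flat_of_lift hU hT (lam hj f) (fun φ z => lam_nat hj f φ z)
    (lam_lift hj hM hf) θ hθ
  let ι : Z ⊗[k] O →ₐ[k] R ⊗[k] O := Algebra.TensorProduct.map Z.val (AlgHom.id k O)
  have hι : Injective ι := Module.Flat.rTensor_preserves_injective_linearMap (M := O)
    Z.val.toLinearMap Subtype.val_injective
  obtain ⟨pr, hp1, hp2⟩ := G.ex_pr hZ
  have hq1 : ∀ a b, pr.rTensor O (ι a * b) = a * pr.rTensor O b := fun a b => by
    induction a using TensorProduct.induction_on with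
    | zero => simp
    | add a a' h h' => rw [map_add, add_mul, map_add, h, h', add_mul]
    | tmul a o =>
      induction b using TensorProduct.induction_on with
      | zero => simp
      | add b b' h h' => rw [mul_add, map_add, h, h', map_add, mul_add]
      | tmul b o' =>
        rw [Algebra.TensorProduct.map_tmul, Algebra.TensorProduct.tmul_mul_tmul,
          LinearMap.rTensor_tmul, LinearMap.rTensor_tmul, Algebra.TensorProduct.tmul_mul_tmul,
          ← hp1]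
        rfl
  have hq2 : pr.rTensor O 1 = 1 := by
    rw [Algebra.TensorProduct.one_def, LinearMap.rTensor_tmul, hp2]
    rfl
  have h1 : ∀ s, mp θ (gU u (some s)) = mp Algebra.TensorProduct.includeRight (gO y) *
      mp Algebra.TensorProduct.includeLeft (gR x s) := fun s => by
    rw [mp_gO]
    exact congrArg (fun w => gU w (some s)) hθ
  have h2 : mp θ (gU u none) = mp Algebra.TensorProduct.includeRight (gO y) *
      (E.FF _ (mp Algebra.TensorProduct.includeRight (gO y)))⁻¹ := by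
    rw [mp_gO]
    exact congrArg (fun w => gU w none) hθ
  have h3 : ∀ a ∈ hm0 GU.ρ, θ a ∈ ι.range := fun a ha => by
    let K : (Bool × Fin r → ℤ) → Submodule k (R ⊗[k] O) := fun l =>
      Submodule.span k {t | ∃ a ∈ hm G.ρ l, ∃ o, t = a ⊗ₜ[k] o}
    have h4 := hm_le hUs hGU (fun l => (K l).comap θ.toLinearMap)
      (by
        show θ 1 ∈ K 0
        rw [map_one]
        exact Submodule.subset_span ⟨1, hm_one _, 1, rfl⟩)
      (fun l l' a b ha hb => by
        show θ (a * b) ∈ K (l + l')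
        rw [map_mul]
        have h5 := Submodule.mul_mem_mul (show θ a ∈ K l from ha) (show θ b ∈ K l' from hb)
        rw [Submodule.span_mul_span] at h5
        refine Submodule.span_mono ?_ h5
        rintro _ ⟨_, ⟨a, ha, o, rfl⟩, _, ⟨b, hb, o', rfl⟩, rfl⟩
        exact ⟨_, hm_mul ha hb, _, Algebra.TensorProduct.tmul_mul_tmul _ _ _ _⟩)
      (by
        rintro ⟨s, a, b⟩
        show mx (mp θ (gU u s)) a b ∈ K (dg E id (s, a, b))
        cases s with
        | none =>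
          rw [h2, ← mp_FF, ← map_inv, ← map_mul]
          exact Submodule.subset_span ⟨1, hm_one _, _, rfl⟩
        | some s =>
          rw [h1, mx_mul, mul_apply]
          refine sum_mem fun c _ => Submodule.subset_span ⟨_, hρ (s, c, b), mx (gO y) a c, ?_⟩
          show ((1 : R) ⊗ₜ[k] _) * (_ ⊗ₜ[k] (1 : O)) = _
          rw [Algebra.TensorProduct.tmul_mul_tmul, one_mul, mul_one]
          rfl) ha
    refine (Submodule.span_le (p := Subalgebra.toSubmodule ι.range)).2 ?_ h4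
    rintro _ ⟨a, ha, o, rfl⟩
    exact ⟨(⟨a, (hZ a).2 ha⟩ : Z) ⊗ₜ[k] o, rfl⟩
  let θ0 : hm0 GU.ρ →ₐ[k] Z ⊗[k] O := ((AlgEquiv.ofInjective ι hι).symm : _ →ₐ[k] _).comp
    ((θ.comp (hm0 GU.ρ).val).codRestrict ι.range fun a => h3 a a.2)
  have h4 : (ι : Z ⊗[k] O →+* R ⊗[k] O).comp (θ0 : hm0 GU.ρ →+* Z ⊗[k] O) =
      (θ : U →+* R ⊗[k] O).comp ((hm0 GU.ρ).val : hm0 GU.ρ →+* U) :=
    RingHom.ext fun a => congrArg Subtype.val
      ((AlgEquiv.ofInjective ι hι).apply_symm_apply ⟨θ a, h3 a a.2⟩)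
  have h5 : (θ0 : hm0 GU.ρ →+* Z ⊗[k] O).Flat := by
    refine flat_of_pr (ι : Z ⊗[k] O →+* R ⊗[k] O) (pr.rTensor O).toAddMonoidHom hq1 hq2 _ ?_
    rw [h4]
    exact (GU.flat_val (mem_hm0 _)).comp hθf
  obtain ⟨H, hH, h6⟩ := key_spec hS ((eq : Z ⊗[k] O →+* L).comp (θ0 : hm0 GU.ρ →+* Z ⊗[k] O))
    (h5.comp (RingHom.Flat.of_bijective (f := (eq : Z ⊗[k] O →+* L)) eq.bijective)) hc
  obtain ⟨ρ, e, he, h7⟩ := FF_iter (E := E)
  refine ⟨H, e, hH, he, fun i => h6 _
    ⟨(bI ((nJ E (ρ * i)).g U u.1)).comap ((hm0 GU.ρ).val : hm0 GU.ρ →+* U), ?_⟩⟩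
  have h8 : (δ : Z →+* L) = (eq : Z ⊗[k] O →+* L).comp
      ((Algebra.TensorProduct.includeLeft : Z →ₐ[k] Z ⊗[k] O) : Z →+* Z ⊗[k] O) := by
    rw [← heq1]
    rfl
  have h9 : (ι : Z ⊗[k] O →+* R ⊗[k] O).comp
      ((Algebra.TensorProduct.includeLeft : Z →ₐ[k] Z ⊗[k] O) : Z →+* Z ⊗[k] O) =
      ((Algebra.TensorProduct.includeLeft : R →ₐ[k] R ⊗[k] O) : R →+* R ⊗[k] O).comp
        (Z.val : Z →+* R) := rfl
  rw [h8, ← Ideal.map_map, ← Ideal.map_map]
  congr 1
  refine map_inj_pr (ι : Z ⊗[k] O →+* R ⊗[k] O) (pr.rTensor O).toAddMonoidHom hq1 hq2 ?_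
  rw [Ideal.map_map, Ideal.map_map, h4, h9, ← Ideal.map_map, ← Ideal.map_map,
    bI_hom hUs GU hGU (mem_hm0 _) _ (inv_nJ _), bI_hom hv G hρ hZ _ (inv_nF _), bI_map, bI_map]
  congr 1
  show mp θ (((psi (gU u none))^[ρ * i] (gU u (some false)))⁻¹ * gU u (some true)) =
    mp _ ((mp (fro k R ^ (e * i)) (gR x false))⁻¹ * gR x true)
  have h10 : ∀ (i : ℕ) (g : E.Γ (R ⊗[k] O)),
      (E.FF _)^[ρ * i] g = mp (fro k _ ^ (e * i)) g := fun i => by
    induction i with
    | zero => exact fun g => rfl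
    | succ i ih =>
      intro g
      rw [mul_add_one, iterate_add_apply, h7, ih, mp_mp, mul_add_one, pow_add]
      rfl
  rw [map_mul, map_inv, psi_map, h1, h1, h2, psi_lang, h10, map_mul, map_inv, mp_mp, mp_mp,
    fro_pow_nat]
  group

end Pool.Agent.P.MP_1bf4cb_ag.RG
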