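import Pool.Agent.P.MP_1bf4cb_ag.RQ
import Pool.Agent.P.MP_1bf4cb_ag.YE

set_option autoImplicit false
set_option maxHeartbeats 400000
set_option linter.unusedSectionVars false
set_option linter.unusedVariables false

open Function Matrix
open scoped TensorProduct

noncomputable section

namespace Pool.Agent.P.MP_1bf4cb_ag.RG

variable {k : Type} [Field k] {n r : ℕ}

theorem gph_eq [Fintype k] (E : OB k n r) {x : Bool → E.Γ E.Frm}
    (hv : ∀ v, ent x v = Ideal.Quotient.mk _ (MvPolynomial.X v)) (a : ℕ) :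
    E.gph (Nat.card k ^ a) = (bI ((nF E a).g E.Frm x)).comap (E.Inv.val : E.Inv →+* E.Frm) := by
  have h : (((gn k n false).map (· ^ Nat.card k ^ a)).adjugate * gn k n true).map
      (Ideal.Quotient.mk _ : _ →+* E.Frm) = mx ((nF E a).g E.Frm x) := by
    rw [adj_mul_map]
    show _ = ((mx (x false)).map (fro k E.Frm ^ a)).adjugate * mx (x true)
    congr 2
    · ext s t
      show Ideal.Quotient.mk _ (MvPolynomial.X (false, s, t) ^ _) =
        (fro k E.Frm ^ a) (ent x (false, s, t))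
      rw [fro_pow_apply, hv, map_pow, Nat.card_eq_fintype_card]
    · ext s t
      exact (hv (true, s, t)).symm
  unfold Bru.gph bI
  rw [h]
  rfl

theorem main (k : Type) [Field k] [Finite k] (n r : ℕ) (D : Bru k n r) (h : D.Ok) (N : ℕ)
    (P : Fin (N + 1) → Polynomial ℚ) (hP : Pairwise fun i j => IsCoprime (P i) (P j)) :
    ∃ π : Fin (N + 1) → Polynomial ℚ, (∀ i j, P j ∣ π i - if i = j then 1 else 0) ∧
      Ort (fun a => D.gph (Nat.card k ^ a)) π := by
  cases nonempty_fintype k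
  let E : OB k n r := ⟨D, h⟩
  obtain ⟨x, hx, hv⟩ := rp_Frm E
  have hs := surj_Frm hv
  obtain ⟨G, hG⟩ := ex_MG (sel := some) (fun s => ⟨s, rfl⟩) inv_cR hx hs
  have hZ := inv_iff hv hG
  have hft := ft_Inv E
  have : IsNoetherianRing D.Inv := Algebra.FiniteType.isNoetherianRing k E.Inv
  obtain ⟨H, e, hH, he, h1⟩ := ex_fgH hx hs G hG hZ hft
  have hd : ¬ LinearIndependent ℤ fun a : ℕ => cyc (D.gph (Nat.card k ^ a)) :=
    dep hH (ι := fun j => e * j) (mul_right_injective₀ he.ne') fun j => by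
      have h2 := h1 j
      rw [← gph_eq E hv] at h2
      exact h2
  obtain ⟨φ, hφ, h2⟩ := ex_shift hx hs G hG hZ
  obtain ⟨Φ, hΦ⟩ := exists_shift (A := D.Inv) φ hφ
  obtain ⟨c, hc, hann⟩ := exists_ann Φ (fun a : ℕ => cyc (D.gph (Nat.card k ^ a))) (fun a => by
    refine (hΦ _).trans (congrArg cyc ?_)
    have h3 := h2 a
    rw [← gph_eq E hv, ← gph_eq E hv] at h3
    exact h3) hd
  obtain ⟨π, h3, h4, h5⟩ := exists_crt P hP c hc
  let ℓ : Polynomial ℚ →+ ℚ ⊗[ℤ] G0 D.Inv :=
    { toFun := evl fun a => D.gph (Nat.card k ^ a)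
      map_zero' := Polynomial.sum_zero_index _
      map_add' := fun f g => Polynomial.sum_add_index f g _ (fun _ => TensorProduct.zero_tmul _ _)
        fun _ _ _ => TensorProduct.add_tmul _ _ _ }
  have hz : ∀ u v : Polynomial ℚ, c ∣ u - v → ℓ u = ℓ v := by
    rintro u v ⟨w, hw⟩
    rw [← sub_eq_zero, ← map_sub, hw]
    exact hann w
  refine ⟨π, h5, fun i j => ?_, ?_⟩
  · have := hz _ _ (h3 i j)
    split_ifs at this ⊢
    · exact this
    · exact this.trans (map_zero ℓ)
  · exact (map_sum ℓ π Finset.univ).symm.trans (hz _ _ h4)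

end Pool.Agent.P.MP_1bf4cb_ag.RG
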