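import Pool.Agent.P.MP_1bf4cb_ag.RJ

set_option autoImplicit false
set_option maxHeartbeats 400000
set_option linter.unusedSectionVars false
set_option linter.unusedVariables false

open Function Matrix

noncomputable section

namespace Pool.Agent.P.MP_1bf4cb_ag.RG

variable {k : Type} [Field k] {n r : ℕ} {C C' : Type} [CommRing C] [Algebra k C] [CommRing C']
  [Algebra k C']

theorem vl_X (g : Mx n C) (a b : Fin n) : vl g (MvPolynomial.X (a, b) : Pn k n) = g a b :=
  MvPolynomial.aeval_X _ _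

theorem gen_map (g : Mx n C) : (mvPolynomialX (Fin n) (Fin n) k).map (vl g) = g := by
  ext a b
  exact vl_X g a b

theorem vl_det (g : Mx n C) : vl g ((mvPolynomialX (Fin n) (Fin n) k).det - 1) = g.det - 1 := by
  unfold vl
  rw [map_sub, map_one, AlgHom.map_det]
  congr 2
  exact gen_map g

theorem smooth_of_lift {S : Set (Pn k n)} (hS : S.Finite)
    (h : ∀ (C : Type) [CommRing C] [Algebra k C] (I : Ideal C), I ^ 2 = ⊥ → ∀ g : Mx n (C ⧸ I),
      Sol S g → ∃ g' : Mx n C, Sol S g' ∧ g'.map (Ideal.Quotient.mk I) = g) :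
    Algebra.Smooth k (Pn k n ⧸ Ideal.span S) := by
  have : Algebra.FinitePresentation k (Pn k n ⧸ Ideal.span S) :=
    Algebra.FinitePresentation.quotient (Submodule.fg_span hS)
  have : Algebra.FormallySmooth k (Pn k n ⧸ Ideal.span S) := by
    refine Algebra.FormallySmooth.of_comp_surjective fun B _ _ I hI f => ?_
    let ψ : Pn k n →ₐ[k] B ⧸ I := f.comp (Ideal.Quotient.mkₐ k _)
    obtain ⟨g', h1, h2⟩ := h B I hI ((mvPolynomialX (Fin n) (Fin n) k).map ψ) fun t ht => by
      rw [vl_map]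
      have e : vl (mvPolynomialX (Fin n) (Fin n) k) t = t := MvPolynomial.aeval_X_left_apply t
      rw [e]
      show f (Ideal.Quotient.mk _ t) = 0
      rw [Ideal.Quotient.eq_zero_iff_mem.2 (Ideal.subset_span ht), map_zero]
    have hk0 : Ideal.span S ≤
        RingHom.ker (MvPolynomial.aeval (fun ab => g' ab.1 ab.2) : Pn k n →ₐ[k] B) :=
      Ideal.span_le.2 fun t ht => h1 t ht
    refine ⟨Ideal.Quotient.liftₐ _ _ fun a ha => hk0 ha, ?_⟩
    refine Ideal.Quotient.algHom_ext k (MvPolynomial.algHom_ext fun v => ?_)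
    have := congrFun (congrFun h2 v.1) v.2
    simpa [ψ] using this
  exact ⟨inferInstance, inferInstance⟩

theorem Grp.det {S : Set (Pn k n)} (hS : Grp S) {g : Mx n C} (hg : Sol S g) : g.det = 1 :=
  ((hS C).2 g g hg hg).1

theorem Grp.adj {S : Set (Pn k n)} (hS : Grp S) {g : Mx n C} (hg : Sol S g) :
    Sol S g.adjugate := by
  have := ((hS C).2 1 g (hS C).1 hg).2
  rwa [Matrix.one_mul] at this

theorem Grp.mul {S : Set (Pn k n)} (hS : Grp S) {g h : Mx n C} (hg : Sol S g) (hh : Sol S h) :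
    Sol S (g * h) := by
  have h2 := ((hS C).2 g _ hg (hS.adj hh)).2
  have h3 : (adjugate h).adjugate = h :=
    congrArg Subtype.val (inv_inv (G := SpecialLinearGroup (Fin n) C) ⟨h, hS.det hh⟩)
  rwa [h3] at h2

theorem cel_of {D : Bru k n r} (hG : Grp D.G) (hB : D.G ⊆ D.B) {j : ℕ} (hw : Sol D.G (D.w j))
    (q : (C : Type) → [CommRing C] → Mx n C → Prop)
    (hq : ∀ (C : Type) [CommRing C] [Algebra k C] (g : Mx n C),
      (Sol (D.Z (j + 1)) g ∧ Ideal.span (vl g '' D.Z j) = ⊤) ↔ q C g)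
    (h1 : ∀ (C : Type) [CommRing C] [Algebra k C] (a : Fin (D.l j) → C),
      Sol D.B ((D.c j).map (MvPolynomial.aeval a)))
    (h2 : ∀ (C : Type) [CommRing C] [Algebra k C] (a : Fin (D.l j) → C) (b : Mx n C), Sol D.B b →
      q C ((D.c j).map (MvPolynomial.aeval a) * (D.w j).map (algebraMap k C) * b))
    (h3 : ∀ (C : Type) [CommRing C] [Algebra k C] (g : Mx n C), Sol D.G g → q C g →
      ∃! a : Fin (D.l j) → C, Sol D.B
        (((D.c j).map (MvPolynomial.aeval a) * (D.w j).map (algebraMap k C)).adjugate * g)) :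
    D.Cel j := by
  refine ⟨hw, fun C _ _ => ⟨h1 C, ?_⟩⟩
  have h4 : ∀ a : Fin (D.l j) → C,
      Sol D.G ((D.c j).map (MvPolynomial.aeval a) * (D.w j).map (algebraMap k C)) := fun a =>
    hG.mul ((h1 C a).mono hB) (hw.map (Algebra.ofId k C))
  have h5 : ∀ a : Fin (D.l j) → C,
      ((D.c j).map (MvPolynomial.aeval a) * (D.w j).map (algebraMap k C)).det = 1 := fun a =>
    hG.det (h4 a)
  have h6 : ∀ (a : Fin (D.l j) → C) (b : Mx n C), Sol D.B b →
      Sol D.G ((D.c j).map (MvPolynomial.aeval a) * (D.w j).map (algebraMap k C) * b) :=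
    fun a b hb => hG.mul (h4 a) (hb.mono hB)
  have h7 : ∀ (a : Fin (D.l j) → C) (b : Mx n C),
      ((D.c j).map (MvPolynomial.aeval a) * (D.w j).map (algebraMap k C)).adjugate *
        ((D.c j).map (MvPolynomial.aeval a) * (D.w j).map (algebraMap k C) * b) = b := fun a b => by
    rw [← Matrix.mul_assoc, adjugate_mul, h5, one_smul, Matrix.one_mul]
  refine ⟨fun x hx => ⟨h6 _ _ hx, (hq C _).2 (h2 C _ _ hx)⟩, fun x hx y hy e => ?_, fun g hg => ?_⟩
  · have e' : (D.c j).map (MvPolynomial.aeval x.1) * (D.w j).map (algebraMap k C) * x.2 =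
        (D.c j).map (MvPolynomial.aeval y.1) * (D.w j).map (algebraMap k C) * y.2 := e
    have e1 : x.1 = y.1 := (h3 C _ (h6 _ _ hx) (h2 C x.1 _ hx)).unique (by rw [h7]; exact hx)
      (by rw [e', h7]; exact hy)
    refine Prod.ext e1 ?_
    rw [← h7 x.1 x.2, e', e1, h7]
  · obtain ⟨a, ha, -⟩ := h3 C g hg.1 ((hq C g).1 hg.2)
    refine ⟨(a, _), ha, ?_⟩
    show _ * (_ * g) = g
    rw [← Matrix.mul_assoc, mul_adjugate, h5, one_smul, Matrix.one_mul]

theorem span_top_iff {S : Set (Pn k n)} {g : Mx n C} {f : Pn k n} (hf : f ∈ S)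
    (h : ∀ z ∈ S, z = f ∨ vl g z = 0) : Ideal.span (vl g '' S) = ⊤ ↔ IsUnit (vl g f) := by
  refine ⟨fun e => Ideal.span_singleton_eq_top.1 (top_le_iff.1 (e.ge.trans (Ideal.span_le.2 ?_))),
    Ideal.eq_top_of_isUnit_mem _ (Ideal.subset_span ⟨f, hf, rfl⟩)⟩
  rintro _ ⟨z, hz, rfl⟩
  rcases h z hz with e | e
  · rw [e]
    exact Ideal.mem_span_singleton_self _
  · rw [e]
    exact zero_mem _

end Pool.Agent.P.MP_1bf4cb_ag.RG
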