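import Pool.Agent.P.MP_1bf4cb_ag.RX

set_option autoImplicit false
set_option maxHeartbeats 400000
set_option linter.unusedSectionVars false
set_option linter.unusedVariables false
set_option linter.unusedSimpArgs false

open Function Matrix MvPolynomial

noncomputable section

namespace Pool.Agent.P.MP_1bf4cb_ag.RG

/-- The datum of the unitary group in three variables with a minimal parabolic subgroup. -/
def su3 (k : Type) [Field k] : Bru k 3 2 where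
  G := {(mvPolynomialX _ _ k).det - 1}
  B := {(mvPolynomialX _ _ k).det - 1, X (2, 0), X (2, 1), X (1, 0)}
  Pa := {(mvPolynomialX _ _ k).det - 1, X (2, 0), X (2, 1)}
  F := !![0, 0, 1; 0, 1, 0; 1, 0, 0] * ((mvPolynomialX _ _ k).map (· ^ Nat.card k)).adjugateᵀ *
    !![0, 0, 1; 0, 1, 0; 1, 0, 0]
  wt := ![![1, 0], ![0, 1], ![-1, -1]]
  N := 3
  u := !![1, X 0, X 1; 0, 1, X 2; 0, 0, 1]
  M := 6
  l := fun
    | 0 => 0 | 1 => 1 | 2 => 1 | 3 => 2 | 4 => 2 | _ + 5 => 3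
  c := fun
    | 0 => 1
    | 1 => !![1, X (0 : Fin 1), 0; 0, 1, 0; 0, 0, 1]
    | 2 => !![1, 0, 0; 0, 1, X (0 : Fin 1); 0, 0, 1]
    | 3 => !![1, X (0 : Fin 2), X (1 : Fin 2); 0, 1, 0; 0, 0, 1]
    | 4 => !![1, 0, X (0 : Fin 2); 0, 1, X (1 : Fin 2); 0, 0, 1]
    | _ + 5 => !![1, X (0 : Fin 3), X (1 : Fin 3); 0, 1, X (2 : Fin 3); 0, 0, 1]
  w := fun
    | 0 => 1
    | 1 => !![0, -1, 0; 1, 0, 0; 0, 0, 1]
    | 2 => !![1, 0, 0; 0, 0, -1; 0, 1, 0]
    | 3 => !![0, 0, 1; 1, 0, 0; 0, 1, 0]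
    | 4 => !![0, 1, 0; 0, 0, 1; 1, 0, 0]
    | _ + 5 => !![0, 0, 1; 0, -1, 0; 1, 0, 0]
  Z := fun
    | 0 => {1}
    | 1 => {X (2, 0), X (2, 1), X (1, 0)}
    | 2 => {X (2, 0), X (2, 1)}
    | 3 => {X (2, 0), X (1, 0) * X (2, 1)}
    | 4 => {X (2, 0)}
    | 5 => {X (2, 0) * (X (1, 0) * X (2, 1) - X (1, 1) * X (2, 0))}
    | _ + 6 => ∅

variable {k : Type} [Field k] {C C' : Type} [CommRing C] [Algebra k C] [CommRing C'] [Algebra k C']

theorem s3G (g : Mx 3 C) : Sol (su3 k).G g ↔ g.det = 1 := by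
  simp only [Sol, su3, Set.mem_singleton_iff, forall_eq, vl_det, sub_eq_zero]

theorem s3P (g : Mx 3 C) : Sol (su3 k).Pa g ↔ g.det = 1 ∧ g 2 0 = 0 ∧ g 2 1 = 0 := by
  simp only [Sol, su3, Set.mem_insert_iff, Set.mem_singleton_iff, forall_eq_or_imp, forall_eq,
    vl_det, vl_X, sub_eq_zero]

theorem s3B (g : Mx 3 C) : Sol (su3 k).B g ↔ g.det = 1 ∧ g 2 0 = 0 ∧ g 2 1 = 0 ∧ g 1 0 = 0 := by
  simp only [Sol, su3, Set.mem_insert_iff, Set.mem_singleton_iff, forall_eq_or_imp, forall_eq,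
    vl_det, vl_X, sub_eq_zero]

theorem det_adj3 {g : Mx 3 C} (h : g.det = 1) : g.adjugate.det = 1 := by
  rw [det_adjugate, h, one_pow]

theorem s3_grp : Grp (su3 k).G ∧ Grp (su3 k).B ∧ Grp (su3 k).Pa := by
  refine ⟨fun C _ _ => ⟨(s3G _).2 det_one, fun g h hg hh => ?_⟩,
    fun C _ _ => ⟨(s3B _).2 ⟨det_one, by simp, by simp, by simp⟩, fun g h hg hh => ?_⟩,
    fun C _ _ => ⟨(s3P _).2 ⟨det_one, by simp, by simp⟩, fun g h hg hh => ?_⟩⟩
  · rw [s3G] at *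
    exact ⟨hg, by rw [det_mul, hg, det_adj3 hh, one_mul]⟩
  · rw [s3B] at *
    obtain ⟨h1, h2, h3, h4⟩ := hg
    obtain ⟨h5, h6, h7, h8⟩ := hh
    refine ⟨h1, by rw [det_mul, h1, det_adj3 h5, one_mul], ?_, ?_, ?_⟩ <;>
      simp [mul_apply, Fin.sum_univ_three, adjugate_fin_three, h2, h3, h4, h6, h7, h8]
  · rw [s3P] at *
    obtain ⟨h1, h2, h3⟩ := hg
    obtain ⟨h5, h6, h7⟩ := hh
    refine ⟨h1, by rw [det_mul, h1, det_adj3 h5, one_mul], ?_, ?_⟩ <;>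
      simp [mul_apply, Fin.sum_univ_three, adjugate_fin_three, h2, h3, h6, h7]

theorem lift3 (I : Ideal C) (hI : I ^ 2 = ⊥) (g : Mx 3 (C ⧸ I)) (hg : g.det = 1) :
    ∃ g' : Mx 3 C, g'.det = 1 ∧ g'.map (Ideal.Quotient.mk I) = g ∧ ∀ a b, g a b = 0 → g' a b = 0 := by
  classical
  have h0 : ∀ y : C ⧸ I, ∃ x, Ideal.Quotient.mk I x = y ∧ (y = 0 → x = 0) := fun y => by
    by_cases h : y = 0
    · exact ⟨0, h.symm, fun _ => rfl⟩
    · obtain ⟨x, hx⟩ := Ideal.Quotient.mk_surjective y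
      exact ⟨x, hx, fun e => absurd e h⟩
  choose σ h1 h2 using h0
  have h3 : (g.map σ).map (Ideal.Quotient.mk I) = g := by
    ext a b
    exact h1 _
  have h4 : Ideal.Quotient.mk I (g.map σ).det = 1 := by
    rw [RingHom.map_det]
    exact (congrArg det h3).trans hg
  have h5 : (g.map σ).det - 1 ∈ I := Ideal.Quotient.eq.1 h4
  have h6 : ((g.map σ).det - 1) ^ 2 = 0 := by
    have := Ideal.pow_mem_pow h5 2
    rwa [hI, Ideal.mem_bot] at this
  refine ⟨g.map σ * diagonal ![2 - (g.map σ).det, 1, 1], ?_, ?_, fun a b h => ?_⟩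
  · rw [det_mul, det_diagonal, Fin.prod_univ_three]
    simp only [cons_val_zero, cons_val_one, cons_val]
    linear_combination (-1 : C) * h6
  · rw [Matrix.map_mul, h3, diagonal_map (map_zero _)]
    have : (fun m => Ideal.Quotient.mk I (![2 - (g.map σ).det, 1, 1] m)) = fun _ => 1 := by
      funext m
      fin_cases m
      · show Ideal.Quotient.mk I (2 - _) = 1
        rw [map_sub, h4, map_ofNat]
        norm_num
      · exact map_one _
      · exact map_one _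
    rw [this, diagonal_one, Matrix.mul_one]
  · rw [mul_diagonal, map_apply, h2 _ h, zero_mul]

theorem s3_smo : Algebra.Smooth k (Pn k 3 ⧸ Ideal.span (su3 k).G) ∧
    Algebra.Smooth k (Pn k 3 ⧸ Ideal.span (su3 k).Pa) := by
  refine ⟨smooth_of_lift (Set.finite_singleton _) fun C _ _ I hI g hg => ?_,
    smooth_of_lift (((Set.finite_singleton _).insert _).insert _) fun C _ _ I hI g hg => ?_⟩
  · obtain ⟨g', h1, h2, -⟩ := lift3 I hI g ((s3G g).1 hg)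
    exact ⟨g', (s3G _).2 h1, h2⟩
  · obtain ⟨h3, h4, h5⟩ := (s3P g).1 hg
    obtain ⟨g', h1, h2, h6⟩ := lift3 I hI g h3
    exact ⟨g', (s3P _).2 ⟨h1, h6 _ _ h4, h6 _ _ h5⟩, h2⟩

theorem s3_bor : (su3 k).Bor := by
  intro C _ _
  have h : ∀ x : (Fin 3 → C) × (Fin 2 → Cˣ), (su3 k).u.map (aeval x.1) *
      (diagonal fun a => ((∏ i, x.2 i ^ (su3 k).wt a i : Cˣ) : C)) =
      !![(x.2 0 : C), x.1 0 * x.2 1, x.1 1 * ((x.2 0)⁻¹ * (x.2 1)⁻¹ : Cˣ); 0, (x.2 1 : C),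
        x.1 2 * ((x.2 0)⁻¹ * (x.2 1)⁻¹ : Cˣ); 0, 0, (((x.2 0)⁻¹ * (x.2 1)⁻¹ : Cˣ) : C)] := fun x => by
    ext a b
    rw [mul_diagonal]
    fin_cases a <;> fin_cases b <;> simp [su3, Fin.prod_univ_two]
  refine ⟨fun x _ => ?_, fun x _ y _ e => ?_, fun g hg => ?_⟩
  · refine (congrArg (Sol (su3 k).B) (h x)).mpr ?_
    rw [s3B, det_fin_three]
    simp
    rw [mul_comm (x.2 0 : C), mul_assoc, Units.mul_inv_cancel_left, Units.mul_inv]
  · have e' := (h x).symm.trans (e.trans (h y))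
    have e0 : x.2 0 = y.2 0 := Units.ext (congrFun (congrFun e' 0) 0)
    have e1 : x.2 1 = y.2 1 := Units.ext (congrFun (congrFun e' 1) 1)
    rw [e0, e1] at e'
    refine Prod.ext (funext fun i => ?_) (funext fun i => ?_)
    · fin_cases i
      · exact (Units.mul_left_inj _).1 (congrFun (congrFun e' 0) 1)
      · exact (Units.mul_left_inj _).1 (congrFun (congrFun e' 0) 2)
      · exact (Units.mul_left_inj _).1 (congrFun (congrFun e' 1) 2)
    · fin_cases i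
      · exact e0
      · exact e1
  · obtain ⟨h1, h2, h3, h4⟩ := (s3B g).1 hg
    rw [det_fin_three, h2, h3, h4] at h1
    let t0 : Cˣ := Units.mkOfMulEqOne (g 0 0) (g 1 1 * g 2 2) (by linear_combination h1)
    let t1 : Cˣ := Units.mkOfMulEqOne (g 1 1) (g 0 0 * g 2 2) (by linear_combination h1)
    refine ⟨(![g 0 1 * g 0 0 * g 2 2, g 0 2 * g 0 0 * g 1 1, g 1 2 * g 0 0 * g 1 1], ![t0, t1]),
      Set.mem_univ _, (h _).trans ?_⟩
    have e0 : ((t0⁻¹ * t1⁻¹ : Cˣ) : C) = g 2 2 := by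
      show g 1 1 * g 2 2 * (g 0 0 * g 2 2) = _
      linear_combination g 2 2 * h1
    ext a b
    fin_cases a <;> fin_cases b <;> simp only [cons_val_zero, cons_val_one, cons_val, e0, of_apply,
      Fin.zero_eta, Fin.mk_one, Fin.reduceFinMk, cons_val', cons_val_fin_one]
    · rfl
    · show g 0 1 * g 0 0 * g 2 2 * g 1 1 = _
      linear_combination g 0 1 * h1
    · linear_combination g 0 2 * h1
    · exact h4.symm
    · rfl
    · linear_combination g 1 2 * h1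
    · exact h2.symm
    · exact h3.symm

theorem s3_span : AddSubgroup.closure (Set.range (su3 k).wt) = ⊤ := by
  refine eq_top_iff.2 fun v _ => ?_
  have e : v = v 0 • (su3 k).wt 0 + v 1 • (su3 k).wt 1 := by
    funext i
    fin_cases i <;> simp [su3]
  rw [e]
  exact add_mem (AddSubgroup.zsmul_mem _ (AddSubgroup.subset_closure (Set.mem_range_self 0)) _)
    (AddSubgroup.zsmul_mem _ (AddSubgroup.subset_closure (Set.mem_range_self 1)) _)

theorem ex_q3 {x : Mx 3 k} (hx : x.det = 1) (h : ¬ (x 2 0 = 0 ∧ x 2 1 = 0)) :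
    ∃ p q : Mx 3 k, Sol (su3 k).Pa p ∧ Sol (su3 k).Pa q ∧
      x * q = p * !![1, 0, 0; 0, 0, -1; 0, 1, 0] := by
  have h1 : ∀ q : Mx 3 k, Sol (su3 k).Pa q → (x * q) 2 0 = 0 → (x * q) 2 2 = 0 →
      ∃ p q : Mx 3 k, Sol (su3 k).Pa p ∧ Sol (su3 k).Pa q ∧
        x * q = p * !![1, 0, 0; 0, 0, -1; 0, 1, 0] := fun q hq h2 h3 => by
    refine ⟨x * q * !![1, 0, 0; 0, 0, 1; 0, -1, 0], q, (s3P _).2 ⟨?_, ?_, ?_⟩, hq, ?_⟩
    · rw [det_mul, det_mul, hx, ((s3P q).1 hq).1, det_fin_three]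
      simp
    · rw [mul_apply, Fin.sum_univ_three, h2]
      simp
    · rw [mul_apply, Fin.sum_univ_three, h3]
      simp
    · rw [Matrix.mul_assoc (x * q)]
      have : (!![1, 0, 0; 0, 0, 1; 0, -1, 0] : Mx 3 k) * !![1, 0, 0; 0, 0, -1; 0, 1, 0] = 1 := by
        rw [one_fin_three]
        simp
      rw [this, Matrix.mul_one]
  by_cases h2 : x 2 1 = 0
  · have h3 : x 2 0 ≠ 0 := fun e => h ⟨e, h2⟩
    refine h1 !![0, (x 2 0)⁻¹, -x 2 2; -1, 0, 0; 0, 0, x 2 0] ((s3P _).2 ⟨?_, rfl, rfl⟩) ?_ ?_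
    · rw [det_fin_three]
      simp [h3]
    · simp [mul_apply, Fin.sum_univ_three, h2]
    · simp [mul_apply, Fin.sum_univ_three, h2, mul_comm]
  · refine h1 !![1, 0, 0; -(x 2 0 * (x 2 1)⁻¹), (x 2 1)⁻¹, -x 2 2; 0, 0, x 2 1]
      ((s3P _).2 ⟨?_, rfl, rfl⟩) ?_ ?_
    · rw [det_fin_three]
      simp [h2]
    · simp [mul_apply, Fin.sum_univ_three]
      field_simp
      ring
    · simp [mul_apply, Fin.sum_univ_three, mul_comm]

theorem s3_dbl : (su3 k).Dbl := by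
  intro x y hx hy C _ _ _ p q hp hq e
  have hP := (s3_grp (k := k)).2.2
  have h0 : ∀ z : Mx 3 k, z.det = 1 → (Sol (su3 k).Pa (z.map (algebraMap k C)) ↔ Sol (su3 k).Pa z) :=
    fun z hz => ⟨fun h => (s3P z).2 ⟨hz, (map_eq_zero (algebraMap k C)).1 ((s3P _).1 h).2.1,
      (map_eq_zero (algebraMap k C)).1 ((s3P _).1 h).2.2⟩, fun h => h.map (Algebra.ofId k C)⟩
  rw [s3G] at hx hy
  have h1 : Sol (su3 k).Pa x ↔ Sol (su3 k).Pa y := by
    rw [← h0 x hx, ← h0 y hy]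
    constructor
    · intro h
      have := hP.mul (hP.adj hp) (hP.mul h hq)
      rwa [e, ← Matrix.mul_assoc, adjugate_mul, hP.det hp, one_smul, Matrix.one_mul] at this
    · intro h
      have := hP.mul (hP.mul hp h) (hP.adj hq)
      rwa [← e, Matrix.mul_assoc, mul_adjugate, hP.det hq, one_smul, Matrix.mul_one] at this
  by_cases h : Sol (su3 k).Pa x
  · exact ⟨x, y, h, h1.1 h, rfl⟩
  · obtain ⟨p1, q1, h2, h3, h4⟩ := ex_q3 hx fun e => h ((s3P x).2 ⟨hx, e⟩)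
    obtain ⟨p2, q2, h5, h6, h7⟩ := ex_q3 hy fun e => h (h1.2 ((s3P y).2 ⟨hy, e⟩))
    refine ⟨p1 * p2.adjugate, q1 * q2.adjugate, hP.mul h2 (hP.adj h5), hP.mul h3 (hP.adj h6), ?_⟩
    have h8 : y = p2 * !![1, 0, 0; 0, 0, -1; 0, 1, 0] * q2.adjugate := by
      rw [← h7, Matrix.mul_assoc, mul_adjugate, hP.det h6, one_smul, Matrix.mul_one]
    rw [← Matrix.mul_assoc, h4, h8, Matrix.mul_assoc p1 _ (_ * _), Matrix.mul_assoc p2,
      ← Matrix.mul_assoc p2.adjugate, adjugate_mul, hP.det h5, one_smul, Matrix.one_mul,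
      Matrix.mul_assoc]

theorem s3_fr [Fintype k] (g : Mx 3 C) : (su3 k).fr g = !![0, 0, 1; 0, 1, 0; 1, 0, 0] *
    (g.map (fro k C)).adjugateᵀ * !![0, 0, 1; 0, 1, 0; 1, 0, 0] := by
  let φ : Pn k 3 →+* C := (aeval (fun ab : Fin 3 × Fin 3 => g ab.1 ab.2) : Pn k 3 →ₐ[k] C)
  have h1 : (!![0, 0, 1; 0, 1, 0; 1, 0, 0] : Mx 3 (Pn k 3)).map φ =
      !![0, 0, 1; 0, 1, 0; 1, 0, 0] := by
    ext a b
    fin_cases a <;> fin_cases b <;> simp
  have h2 : ((mvPolynomialX (Fin 3) (Fin 3) k).map (· ^ Nat.card k)).map φ = g.map (fro k C) := by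
    ext a b
    show φ (X (a, b) ^ _) = g a b ^ _
    rw [map_pow, Nat.card_eq_fintype_card]
    exact congrArg (· ^ _) (vl_X g a b)
  show (_ * _ * _ : Mx 3 (Pn k 3)).map φ = _
  rw [Matrix.map_mul, Matrix.map_mul, h1, ← h2, transpose_map]
  congr 3
  exact φ.map_adjugate _

theorem J3_sq : (!![0, 0, 1; 0, 1, 0; 1, 0, 0] : Mx 3 C) * !![0, 0, 1; 0, 1, 0; 1, 0, 0] = 1 := by
  rw [one_fin_three]
  simp

theorem det_fro [Fintype k] {g : Mx 3 C} (h : g.det = 1) : (g.map (fro k C)).det = 1 := by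
  have := (fro k C).map_det g
  rw [h, map_one] at this
  exact this.symm

theorem s3_hom [Fintype k] : (su3 k).Hom := by
  intro C _ _ g h hg hh
  rw [s3G] at *
  have h0 : ((su3 k).fr g).det = 1 := by
    rw [s3_fr, det_mul, mul_comm, det_mul, ← mul_assoc, ← det_mul, J3_sq, det_one, one_mul,
      det_transpose, det_adj3 (det_fro hg)]
  refine ⟨h0, ?_, fun hb => ?_⟩
  · rw [s3_fr, s3_fr, s3_fr]
    have e : (g * h).map (fro k C) = g.map (fro k C) * h.map (fro k C) :=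
      Matrix.map_mul (f := (fro k C : C →+* C))
    rw [e, adjugate_mul_distrib, transpose_mul]
    simp only [Matrix.mul_assoc]
    rw [← Matrix.mul_assoc !![0, 0, 1; 0, 1, 0; 1, 0, 0] !![0, 0, 1; 0, 1, 0; 1, 0, 0], J3_sq,
      Matrix.one_mul]
  · obtain ⟨-, h2, h3, h4⟩ := (s3B g).1 hb
    refine (s3B _).2 ⟨h0, ?_, ?_, ?_⟩ <;>
      simp [s3_fr, mul_apply, Fin.sum_univ_three, adjugate_fin_three, h2, h3, h4] <;> rfl

theorem s3_pow [Fintype k] : (su3 k).Pow := by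
  refine ⟨2, 2, two_pos, fun C _ _ g hg => ?_⟩
  rw [s3G] at hg
  show (su3 k).fr ((su3 k).fr g) = _
  have h1 : (!![0, 0, 1; 0, 1, 0; 1, 0, 0] : Mx 3 C).map (fro k C : C →+* C) =
      !![0, 0, 1; 0, 1, 0; 1, 0, 0] := by
    ext a b
    fin_cases a <;> fin_cases b <;> simp
  have h2 : ((su3 k).fr g).map (fro k C) = (su3 k).fr (g.map (fro k C)) := (fr_map _ _ _).symm
  have h3 : (!![0, 0, 1; 0, 1, 0; 1, 0, 0] : Mx 3 C).adjugate = -!![0, 0, 1; 0, 1, 0; 1, 0, 0] := by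
    rw [adjugate_fin_three]
    simp
  have h4 : (!![0, 0, 1; 0, 1, 0; 1, 0, 0] : Mx 3 C)ᵀ = !![0, 0, 1; 0, 1, 0; 1, 0, 0] := by
    ext a b
    fin_cases a <;> fin_cases b <;> rfl
  have h5 := det_fro (k := k) (det_fro (k := k) hg)
  have h6 : ((g.map (fro k C)).map (fro k C)).adjugate.adjugate = (g.map (fro k C)).map (fro k C) :=
    congrArg Subtype.val (inv_inv (G := SpecialLinearGroup (Fin 3) C) ⟨_, h5⟩)
  rw [s3_fr ((su3 k).fr g), h2, s3_fr, adjugate_mul_distrib, adjugate_mul_distrib, h3,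
    ← adjugate_transpose, h6]
  simp only [Matrix.neg_mul, Matrix.mul_neg, neg_neg, transpose_mul, transpose_transpose, h4,
    Matrix.mul_assoc, J3_sq, Matrix.mul_one]
  rw [← Matrix.mul_assoc, J3_sq, Matrix.one_mul]
  ext a b
  show (g a b ^ _) ^ _ = g a b ^ _
  rw [← pow_mul, Nat.card_eq_fintype_card, pow_two]

end Pool.Agent.P.MP_1bf4cb_ag.RG
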