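import Pool.Agent.P.MP_1bf4cb_ag.RY

set_option autoImplicit false
set_option maxHeartbeats 400000
set_option linter.unusedSectionVars false
set_option linter.unusedVariables false
set_option linter.unusedSimpArgs false

open Function Matrix MvPolynomial

noncomputable section

namespace Pool.Agent.P.MP_1bf4cb_ag.RG

variable {k : Type} [Field k] {C : Type} [CommRing C] [Algebra k C]

theorem vl_mul {n : ℕ} (g : Mx n C) (a b : Pn k n) : vl g (a * b) = vl g a * vl g b := map_mul _ a b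

theorem vl_sub {n : ℕ} (g : Mx n C) (a b : Pn k n) : vl g (a - b) = vl g a - vl g b := map_sub _ a b

theorem s3_sub : (su3 k).G ⊆ (su3 k).Pa ∧ (su3 k).Pa ⊆ (su3 k).B := by
  refine ⟨fun x hx => Or.inl hx, fun x hx => ?_⟩
  rcases hx with h | h | h
  · exact Or.inl h
  · exact Or.inr (Or.inl h)
  · exact Or.inr (Or.inr (Or.inl h))

theorem cel3 {j : ℕ} (hw : ((su3 k).w j).det = 1)
    (q : (C : Type) → [CommRing C] → Mx 3 C → Prop)
    (hq : ∀ (C : Type) [CommRing C] [Algebra k C] (g : Mx 3 C),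
      (Sol ((su3 k).Z (j + 1)) g ∧ Ideal.span (vl g '' (su3 k).Z j) = ⊤) ↔ q C g)
    (h1 : ∀ (C : Type) [CommRing C] [Algebra k C] (a : Fin ((su3 k).l j) → C),
      Sol (su3 k).B (((su3 k).c j).map (aeval a)))
    (m m' : (C : Type) → [CommRing C] → (Fin ((su3 k).l j) → C) → Mx 3 C)
    (hm : ∀ (C : Type) [CommRing C] [Algebra k C] (a : Fin ((su3 k).l j) → C),
      ((su3 k).c j).map (aeval a) * ((su3 k).w j).map (algebraMap k C) = m C a)
    (hm' : ∀ (C : Type) [CommRing C] (a : Fin ((su3 k).l j) → C), (m C a).adjugate = m' C a)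
    (h2 : ∀ (C : Type) [CommRing C] (a : Fin ((su3 k).l j) → C) (b : Mx 3 C),
      b 0 0 * b 1 1 * b 2 2 = 1 → b 2 0 = 0 → b 2 1 = 0 → b 1 0 = 0 → q C (m C a * b))
    (h3 : ∀ (C : Type) [CommRing C] (g : Mx 3 C), q C g →
      ∃! a : Fin ((su3 k).l j) → C, (m' C a * g) 2 0 = 0 ∧ (m' C a * g) 2 1 = 0 ∧
        (m' C a * g) 1 0 = 0) : (su3 k).Cel j := by
  refine cel_of s3_grp.1 (s3_sub.1.trans s3_sub.2) ((s3G _).2 hw) q hq h1 (fun C _ _ a b hb => ?_)
    fun C _ _ g hg h => ?_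
  · obtain ⟨h4, h5, h6, h7⟩ := (s3B b).1 hb
    rw [det_fin_three, h5, h6, h7] at h4
    rw [hm]
    exact h2 C a b (by linear_combination h4) h5 h6 h7
  · refine (existsUnique_congr fun a => ?_).1 (h3 C g h)
    rw [s3B, ← hm', ← hm, det_mul, det_adj3, (s3G g).1 hg]
    · simp only [one_mul, true_and]
    · rw [det_mul, ((s3B _).1 (h1 C a)).1, one_mul]
      exact (s3G _).1 (((s3G _).2 hw).map (Algebra.ofId k C))

theorem s3_c0 : (su3 k).Cel 0 := by
  refine cel3 det_one (fun C _ g => g 2 0 = 0 ∧ g 2 1 = 0 ∧ g 1 0 = 0) (fun C _ _ g => ?_)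
    (fun C _ _ a => ?_) (fun C _ a => 1) (fun C _ a => 1) (fun C _ _ a => ?_)
    (fun C _ a => adjugate_one) (fun C _ a b h1 h2 h3 h4 => ?_) fun C _ g h => ?_
  · simp [Sol, su3, vl_X, vl]
  · have e : ((su3 k).c 0).map (aeval a) = 1 := Matrix.map_one _ (map_zero _) (map_one _)
    rw [e]
    exact (s3_grp.2.1 C).1
  · have e : ((su3 k).c 0).map (aeval a) = 1 := Matrix.map_one _ (map_zero _) (map_one _)
    have e' : ((su3 k).w 0).map (algebraMap k C) = 1 := Matrix.map_one _ (map_zero _) (map_one _)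
    rw [e, e', Matrix.one_mul]
  · rw [Matrix.one_mul]
    exact ⟨h2, h3, h4⟩
  · exact ⟨Fin.elim0, by rw [Matrix.one_mul]; exact h, fun y _ => funext fun i => i.elim0⟩

theorem s3_m1 (a : Fin 1 → C) : ((su3 k).c 1).map (aeval a) = !![1, a 0, 0; 0, 1, 0; 0, 0, 1] := by
  show (!![1, X 0, 0; 0, 1, 0; 0, 0, 1] : Mx 3 (MvPolynomial (Fin 1) k)).map (aeval a) = _
  ext s t
  fin_cases s <;> fin_cases t <;> simp

theorem s3_c1 : (su3 k).Cel 1 := by
  refine cel3 (by simp [su3, det_fin_three])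
    (fun C _ g => (g 2 0 = 0 ∧ g 2 1 = 0) ∧ IsUnit (g 1 0)) (fun C _ _ g => ?_)
    (fun C _ _ a => ?_) (fun C _ (a : Fin 1 → C) => !![a 0, -1, 0; 1, 0, 0; 0, 0, 1])
    (fun C _ (a : Fin 1 → C) => !![0, 1, 0; -1, a 0, 0; 0, 0, 1]) (fun C _ _ a => ?_)
    (fun C _ a => by simp [adjugate_fin_three]) (fun C _ a b h1 h2 h3 h4 => ?_) fun C _ g h => ?_
  · have e : Sol ((su3 k).Z 2) g ↔ g 2 0 = 0 ∧ g 2 1 = 0 := by simp [Sol, su3, vl_X]
    rw [e]
    refine and_congr_right fun h => ?_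
    rw [span_top_iff (f := X (1, 0)) (by simp [su3]) (by simp [su3, vl_X, h.1, h.2]), vl_X]
  · refine (congrArg (Sol (su3 k).B) (s3_m1 a)).mpr ?_
    simp [s3B, det_fin_three]
  · refine (congrArg (· * _) (s3_m1 a)).trans ?_
    ext s t
    fin_cases s <;> fin_cases t <;> simp [su3, mul_apply, Fin.sum_univ_three]
  · simp only [mul_apply, Fin.sum_univ_three]
    simp [h2, h3]
    exact IsUnit.of_mul_eq_one (b 1 1 * b 2 2) (by linear_combination h1)
  · obtain ⟨⟨h1, h2⟩, h3⟩ := h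
    obtain ⟨v, hv⟩ := h3.exists_right_inv
    simp only [mul_apply, Fin.sum_univ_three]
    refine ⟨fun _ => g 0 0 * v, ?_, fun y hy => funext fun i => ?_⟩
    · simp [h1, h2]
      linear_combination g 0 0 * hv
    · simp [h1, h2] at hy
      rw [Subsingleton.elim (α := Fin 1) i 0]
      linear_combination v * hy - y (0 : Fin 1) * hv

theorem s3_m2 (a : Fin 1 → C) : ((su3 k).c 2).map (aeval a) = !![1, 0, 0; 0, 1, a 0; 0, 0, 1] := by
  show (!![1, 0, 0; 0, 1, X 0; 0, 0, 1] : Mx 3 (MvPolynomial (Fin 1) k)).map (aeval a) = _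
  ext s t
  fin_cases s <;> fin_cases t <;> simp

theorem s3_c2 : (su3 k).Cel 2 := by
  refine cel3 (by simp [su3, det_fin_three])
    (fun C _ g => (g 2 0 = 0 ∧ g 1 0 * g 2 1 = 0) ∧ IsUnit (g 2 1)) (fun C _ _ g => ?_)
    (fun C _ _ a => ?_) (fun C _ (a : Fin 1 → C) => !![1, 0, 0; 0, a 0, -1; 0, 1, 0])
    (fun C _ (a : Fin 1 → C) => !![1, 0, 0; 0, 0, 1; 0, -1, a 0]) (fun C _ _ a => ?_)
    (fun C _ a => by simp [adjugate_fin_three]) (fun C _ a b h1 h2 h3 h4 => ?_) fun C _ g h => ?_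
  · have e : Sol ((su3 k).Z 3) g ↔ g 2 0 = 0 ∧ g 1 0 * g 2 1 = 0 := by
      simp [Sol, su3, vl_X, vl_mul]
    rw [e]
    refine and_congr_right fun h => ?_
    rw [span_top_iff (f := X (2, 1)) (by simp [su3]) (by simp [su3, vl_X, h.1]), vl_X]
  · refine (congrArg (Sol (su3 k).B) (s3_m2 a)).mpr ?_
    simp [s3B, det_fin_three]
  · refine (congrArg (· * _) (s3_m2 a)).trans ?_
    ext s t
    fin_cases s <;> fin_cases t <;> simp [su3, mul_apply, Fin.sum_univ_three]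
  · simp only [mul_apply, Fin.sum_univ_three]
    simp [h2, h4]
    exact IsUnit.of_mul_eq_one (b 0 0 * b 2 2) (by linear_combination h1)
  · obtain ⟨⟨h1, h2⟩, h3⟩ := h
    obtain ⟨v, hv⟩ := h3.exists_right_inv
    have h4 : g 1 0 = 0 := by linear_combination v * h2 - g 1 0 * hv
    simp only [mul_apply, Fin.sum_univ_three]
    refine ⟨fun _ => g 1 1 * v, ?_, fun y hy => funext fun i => ?_⟩
    · simp [h1, h4]
      linear_combination g 1 1 * hv
    · simp [h1, h4] at hy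
      rw [Subsingleton.elim (α := Fin 1) i 0]
      linear_combination v * hy - y (0 : Fin 1) * hv

theorem s3_m3 (a : Fin 2 → C) : ((su3 k).c 3).map (aeval a) = !![1, a 0, a 1; 0, 1, 0; 0, 0, 1] := by
  show (!![1, X 0, X 1; 0, 1, 0; 0, 0, 1] : Mx 3 (MvPolynomial (Fin 2) k)).map (aeval a) = _
  ext s t
  fin_cases s <;> fin_cases t <;> simp

theorem s3_c3 : (su3 k).Cel 3 := by
  refine cel3 (by simp [su3, det_fin_three])
    (fun C _ g => g 2 0 = 0 ∧ IsUnit (g 1 0 * g 2 1)) (fun C _ _ g => ?_)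
    (fun C _ _ a => ?_) (fun C _ (a : Fin 2 → C) => !![a 0, a 1, 1; 1, 0, 0; 0, 1, 0])
    (fun C _ (a : Fin 2 → C) => !![0, 1, 0; 0, 0, 1; 1, -a 0, -a 1]) (fun C _ _ a => ?_)
    (fun C _ a => by simp [adjugate_fin_three]) (fun C _ a b h1 h2 h3 h4 => ?_) fun C _ g h => ?_
  · have e : Sol ((su3 k).Z 4) g ↔ g 2 0 = 0 := by simp [Sol, su3, vl_X]
    rw [e]
    refine and_congr_right fun h => ?_
    rw [span_top_iff (f := X (1, 0) * X (2, 1)) (by simp [su3]) (by simp [su3, vl_X, h]), vl_mul,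
      vl_X, vl_X]
  · refine (congrArg (Sol (su3 k).B) (s3_m3 a)).mpr ?_
    simp [s3B, det_fin_three]
  · refine (congrArg (· * _) (s3_m3 a)).trans ?_
    ext s t
    fin_cases s <;> fin_cases t <;> simp [su3, mul_apply, Fin.sum_univ_three]
  · simp only [mul_apply, Fin.sum_univ_three]
    simp [-IsUnit.mul_iff, h4]
    exact IsUnit.of_mul_eq_one (b 2 2) h1
  · obtain ⟨h1, h3⟩ := h
    obtain ⟨v, hv⟩ := h3.exists_right_inv
    simp only [mul_apply, Fin.sum_univ_three]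
    refine ⟨![g 0 0 * g 2 1 * v, (g 0 1 - g 0 0 * g 2 1 * v * g 1 1) * g 1 0 * v], ?_,
      fun y hy => ?_⟩
    · simp [h1]
      exact ⟨by linear_combination -g 0 0 * hv,
        by linear_combination -(g 0 1 - g 0 0 * g 2 1 * v * g 1 1) * hv⟩
    · simp [h1] at hy
      obtain ⟨h4, h5⟩ := hy
      have e0 : y (0 : Fin 2) = g 0 0 * g 2 1 * v := by
        linear_combination -g 2 1 * v * h4 - y (0 : Fin 2) * hv
      have e1 : y (1 : Fin 2) = (g 0 1 - g 0 0 * g 2 1 * v * g 1 1) * g 1 0 * v := by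
        rw [← e0]
        linear_combination -g 1 0 * v * h5 - y (1 : Fin 2) * hv
      funext i
      fin_cases i
      · exact e0
      · exact e1

theorem s3_m4 (a : Fin 2 → C) : ((su3 k).c 4).map (aeval a) = !![1, 0, a 0; 0, 1, a 1; 0, 0, 1] := by
  show (!![1, 0, X 0; 0, 1, X 1; 0, 0, 1] : Mx 3 (MvPolynomial (Fin 2) k)).map (aeval a) = _
  ext s t
  fin_cases s <;> fin_cases t <;> simp

theorem s3_c4 : (su3 k).Cel 4 := by
  refine cel3 (by simp [su3, det_fin_three])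
    (fun C _ g => g 2 0 * (g 1 0 * g 2 1 - g 1 1 * g 2 0) = 0 ∧ IsUnit (g 2 0)) (fun C _ _ g => ?_)
    (fun C _ _ a => ?_) (fun C _ (a : Fin 2 → C) => !![a 0, 1, 0; a 1, 0, 1; 1, 0, 0])
    (fun C _ (a : Fin 2 → C) => !![0, 0, 1; 1, 0, -a 0; 0, 1, -a 1]) (fun C _ _ a => ?_)
    (fun C _ a => by simp [adjugate_fin_three]) (fun C _ a b h1 h2 h3 h4 => ?_) fun C _ g h => ?_
  · have e : Sol ((su3 k).Z 5) g ↔ g 2 0 * (g 1 0 * g 2 1 - g 1 1 * g 2 0) = 0 := by
      simp [Sol, su3, vl_X, vl_mul, vl_sub]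
    rw [e]
    refine and_congr_right fun h => ?_
    rw [span_top_iff (f := X (2, 0)) (by simp [su3]) (by simp [su3]), vl_X]
  · refine (congrArg (Sol (su3 k).B) (s3_m4 a)).mpr ?_
    simp [s3B, det_fin_three]
  · refine (congrArg (· * _) (s3_m4 a)).trans ?_
    ext s t
    fin_cases s <;> fin_cases t <;> simp [su3, mul_apply, Fin.sum_univ_three]
  · simp only [mul_apply, Fin.sum_univ_three]
    simp [h2, h3]
    exact ⟨by ring, IsUnit.of_mul_eq_one (b 1 1 * b 2 2) (by linear_combination h1)⟩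
  · obtain ⟨h1, h3⟩ := h
    obtain ⟨v, hv⟩ := h3.exists_right_inv
    simp only [mul_apply, Fin.sum_univ_three]
    refine ⟨![g 0 0 * v, g 1 0 * v], ?_, fun y hy => ?_⟩
    · simp
      exact ⟨by linear_combination -g 1 0 * hv,
        by linear_combination -v * v * h1 + (v * g 1 0 * g 2 1 - g 1 1 - g 1 1 * g 2 0 * v) * hv,
        by linear_combination -g 0 0 * hv⟩
    · simp at hy
      obtain ⟨h4, -, h5⟩ := hy
      funext i
      fin_cases i
      · show y (0 : Fin 2) = g 0 0 * v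
        linear_combination -v * h5 - y (0 : Fin 2) * hv
      · show y (1 : Fin 2) = g 1 0 * v
        linear_combination -v * h4 - y (1 : Fin 2) * hv

theorem s3_m5 (a : Fin 3 → C) : ((su3 k).c 5).map (aeval a) = !![1, a 0, a 1; 0, 1, a 2; 0, 0, 1] := by
  show (!![1, X 0, X 1; 0, 1, X 2; 0, 0, 1] : Mx 3 (MvPolynomial (Fin 3) k)).map (aeval a) = _
  ext s t
  fin_cases s <;> fin_cases t <;> simp

theorem s3_c5 : (su3 k).Cel 5 := by
  refine cel3 (by simp [su3, det_fin_three])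
    (fun C _ g => IsUnit (g 2 0 * (g 1 0 * g 2 1 - g 1 1 * g 2 0))) (fun C _ _ g => ?_)
    (fun C _ _ a => ?_) (fun C _ (a : Fin 3 → C) => !![a 1, -a 0, 1; a 2, -1, 0; 1, 0, 0])
    (fun C _ (a : Fin 3 → C) => !![0, 0, 1; 0, -1, a 2; 1, -a 0, a 0 * a 2 - a 1])
    (fun C _ _ a => ?_)
    (fun C _ a => ?_) (fun C _ a b h1 h2 h3 h4 => ?_) fun C _ g h => ?_
  · have e : Sol ((su3 k).Z 6) g := fun f hf => hf.elim
    rw [and_iff_right e, span_top_iff (S := (su3 k).Z 5)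
      (f := X (2, 0) * (X (1, 0) * X (2, 1) - X (1, 1) * X (2, 0))) rfl fun z hz => Or.inl hz]
    simp only [vl_mul, vl_sub, vl_X]
  · refine (congrArg (Sol (su3 k).B) (s3_m5 a)).mpr ?_
    simp [s3B, det_fin_three]
  · refine (congrArg (· * _) (s3_m5 a)).trans ?_
    ext s t
    fin_cases s <;> fin_cases t <;> simp [su3, mul_apply, Fin.sum_univ_three]
  · simp [adjugate_fin_three]
    ring
  · simp only [mul_apply, Fin.sum_univ_three]
    simp [-IsUnit.mul_iff, h4]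
    exact IsUnit.of_mul_eq_one (b 1 1 * b 2 2 * b 2 2) (by
      linear_combination (b 0 0 * b 1 1 * b 2 2 + 1) * h1)
  · obtain ⟨h1, h2⟩ := IsUnit.mul_iff.1 h
    obtain ⟨v, hv⟩ := h1.exists_right_inv
    obtain ⟨w, hw⟩ := h2.exists_right_inv
    simp only [mul_apply, Fin.sum_univ_three]
    refine ⟨![(g 0 0 * g 2 1 - g 0 1 * g 2 0) * w, g 0 0 * v, g 1 0 * v], ?_, fun y hy => ?_⟩
    · simp
      exact ⟨by linear_combination ((g 0 0 * g 2 1 - g 0 1 * g 2 0) * w * g 1 0 - g 0 0) * hv,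
        by linear_combination (v * (g 0 0 * g 2 1 - g 0 1 * g 2 0) * hw +
          ((g 0 0 * g 2 1 - g 0 1 * g 2 0) * w * g 1 1 - g 0 1) * hv),
        by linear_combination g 1 0 * hv⟩
    · simp at hy
      obtain ⟨h4, h5, h6⟩ := hy
      funext i
      fin_cases i
      · show y (0 : Fin 3) = (g 0 0 * g 2 1 - g 0 1 * g 2 0) * w
        linear_combination w * g 2 0 * h5 - w * g 2 1 * h4 - y (0 : Fin 3) * hw
      · show y (1 : Fin 3) = g 0 0 * v
        linear_combination -v * h4 + v * y (0 : Fin 3) * h6 - y (1 : Fin 3) * hv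
      · show y (2 : Fin 3) = g 1 0 * v
        linear_combination v * h6 - y (2 : Fin 3) * hv

theorem su3_ok (k : Type) [Field k] [Finite k] : (su3 k).Ok := by
  cases nonempty_fintype k
  refine ⟨s3_grp, s3_sub, s3_smo, s3_hom, s3_pow, s3_bor, s3_span, ⟨rfl, rfl⟩, fun j hj => ?_,
    s3_dbl⟩
  have h : j < 6 := hj
  interval_cases j
  exacts [s3_c0, s3_c1, s3_c2, s3_c3, s3_c4, s3_c5]

end Pool.Agent.P.MP_1bf4cb_ag.RG
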