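import Pool.Agent.P.MP_1bf4cb_ag.RDefs

/-! The group `G₂` as automorphisms of the split octonions, and chains of flags. -/

namespace Pool.Agent.P.MP_1bf4cb_ag.RG

open Matrix MvPolynomial

variable {k : Type} [Field k] {n r m : ℕ}

/-- The product of the split octonions: Zorn's vector matrices `(α, u; v, β)` with coordinates
`(u₁, v₃, v₂, α, β, u₂, u₃, v₁)`. -/
def om {C : Type} [CommRing C] (x y : Fin 8 → C) : Fin 8 → C :=
  ![x 3 * y 0 + x 0 * y 4 - x 2 * y 1 + x 1 * y 2, x 1 * y 3 + x 4 * y 1 + x 0 * y 5 - x 5 * y 0,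
    x 2 * y 3 + x 4 * y 2 + x 6 * y 0 - x 0 * y 6, x 3 * y 3 + x 0 * y 7 + x 5 * y 2 + x 6 * y 1,
    x 4 * y 4 + x 7 * y 0 + x 2 * y 5 + x 1 * y 6, x 3 * y 5 + x 5 * y 4 - x 1 * y 7 + x 7 * y 1,
    x 3 * y 6 + x 6 * y 4 - x 7 * y 2 + x 2 * y 7, x 7 * y 3 + x 4 * y 7 + x 5 * y 6 - x 6 * y 5]

/-- The equations of the automorphism group `G₂` of the split octonions. -/
def eG (k : Type) [Field k] : Set (Pn k 8) :=
  {f | f = (mvPolynomialX _ _ k).det - 1 ∨ ∃ i j l, f =
    (mvPolynomialX _ _ k *ᵥ om (Pi.single i 1) (Pi.single j 1)) l -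
      om (fun a => X (a, i)) (fun a => X (a, j)) l}

/-- The two parabolic subgroups: the stabilisers of the line `e₀` and of the plane `e₀, e₁`. -/
def eP (k : Type) [Field k] (s : Bool) : Set (Pn k 8) :=
  eG k ∪ {f | ∃ a b : Fin 8, b ≤ cond s 1 0 ∧ cond s 1 0 < a ∧ f = X (a, b)}

/-- `G₂` with its Borel subgroup, the Frobenius of `k` and the weights of the torus; the fields
`Pa`, `N`, `u`, `M`, `l`, `c`, `w`, `Z` are not used. -/
noncomputable def g2 (k : Type) [Field k] : Bru k 8 2 where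
  G := eG k
  B := eP k false ∪ eP k true
  Pa := ∅
  F := (mvPolynomialX _ _ k).map (· ^ Nat.card k)
  wt := ![![1, 1], ![1, 0], ![0, 1], ![0, 0], ![0, 0], ![0, -1], ![-1, 0], ![-1, -1]]
  N := 0
  u := 1
  M := 0
  l := 0
  c := 1
  w := 1
  Z := fun _ => ∅

/-- The `c`-th diagonal block. -/
def blk {C : Type} (c : Fin m) (g : Mx (n * m) C) : Mx n C :=
  g.submatrix (fun a => finProdFinEquiv (a, c)) fun a => finProdFinEquiv (a, c)

/-- The block diagonal matrix with given blocks. -/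
def bd {C : Type} [Zero C] (x : Fin m → Mx n C) : Mx (n * m) C :=
  Matrix.of fun a b => if a.modNat = b.modNat then x a.modNat a.divNat b.divNat else 0

/-- The equations of block diagonal matrices whose `c`-th block solves `S c`. -/
def pe (S : Fin m → Set (Pn k n)) : Set (Pn k (n * m)) :=
  {f | (∃ a b : Fin (n * m), a.modNat ≠ b.modNat ∧ f = X (a, b)) ∨
    ∃ c, f ∈ vl (blk c (mvPolynomialX _ _ k)) '' S c}

/-- Chains `g₀, …, g_m` in `G` with `g_c⁻¹ g_(c+1) ∈ P c` and `g_m⁻¹ F(g₀) ∈ P m`, written as one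
block diagonal matrix; the fields `N`, `u`, `M`, `l`, `c`, `w`, `Z` are not used. -/
noncomputable def chn (D : Bru k n r) (m : ℕ) (P : Fin (m + 1) → Set (Pn k n)) :
    Bru k (n * (m + 1)) (r * (m + 1)) where
  G := pe fun _ => D.G
  B := pe fun _ => D.B
  Pa := pe P
  F := bd fun c => if c = Fin.last m then D.fr (blk 0 (mvPolynomialX _ _ k))
    else blk (c + 1) (mvPolynomialX _ _ k)
  wt := fun a i => if a.modNat = i.modNat then D.wt a.divNat i.divNat else 0
  N := 0
  u := 1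
  M := 0
  l := 0
  c := 1
  w := 1
  Z := fun _ => ∅

end Pool.Agent.P.MP_1bf4cb_ag.RG
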