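import Pool.Agent.P.MP_1bf4cb_ag.RZ
import Pool.Agent.P.MP_1bf4cb_ag.TDefs

set_option autoImplicit false
set_option maxHeartbeats 800000
set_option linter.unusedSectionVars false
set_option linter.unusedVariables false
set_option linter.unusedSimpArgs false

open Function Matrix MvPolynomial

noncomputable section

namespace Pool.Agent.P.MP_1bf4cb_ag.RG

variable {k : Type} [Field k] {C C' : Type} [CommRing C] [CommRing C']

/-- basis vectors -/
abbrev bv (C : Type) [CommRing C] (i : Fin 8) : Fin 8 → C := Pi.single i 1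

/-- the norm -/
def nm (x : Fin 8 → C) : C := x 3 * x 4 - x 0 * x 7 - x 5 * x 2 - x 6 * x 1

/-- the polar form -/
def pf (x y : Fin 8 → C) : C := x 3 * y 4 + x 4 * y 3 - x 0 * y 7 - x 7 * y 0 - x 5 * y 2 -
  x 2 * y 5 - x 6 * y 1 - x 1 * y 6

/-- automorphisms -/
def Au (g : Mx 8 C) : Prop := g.det = 1 ∧ ∀ x y, g *ᵥ om x y = om (g *ᵥ x) (g *ᵥ y)

theorem om_add_l (x x' y : Fin 8 → C) : om (x + x') y = om x y + om x' y := by
  funext l
  fin_cases l <;> simp [om] <;> ring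

theorem om_add_r (x y y' : Fin 8 → C) : om x (y + y') = om x y + om x y' := by
  funext l
  fin_cases l <;> simp [om] <;> ring

theorem om_smul_l (c : C) (x y : Fin 8 → C) : om (c • x) y = c • om x y := by
  funext l
  fin_cases l <;> simp [om] <;> ring

theorem om_smul_r (c : C) (x y : Fin 8 → C) : om x (c • y) = c • om x y := by
  funext l
  fin_cases l <;> simp [om] <;> ring

theorem om_map (φ : C →+* C') (x y : Fin 8 → C) : φ ∘ om x y = om (φ ∘ x) (φ ∘ y) := by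
  funext l
  fin_cases l <;> simp [om]

theorem bv_map (φ : C →+* C') (i : Fin 8) : φ ∘ bv C i = bv C' i := by
  funext l
  simp [Pi.single_apply, apply_ite φ]

/-- the product as a bilinear map -/
def omL (C : Type) [CommRing C] : (Fin 8 → C) →ₗ[C] (Fin 8 → C) →ₗ[C] Fin 8 → C :=
  LinearMap.mk₂ C om om_add_l om_smul_l om_add_r om_smul_r

theorem au_of_bv {g : Mx 8 C} (h1 : g.det = 1)
    (h : ∀ i j, g *ᵥ om (bv C i) (bv C j) = om (g *ᵥ bv C i) (g *ᵥ bv C j)) : Au g := by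
  refine ⟨h1, fun x y => ?_⟩
  have e : (omL C).compr₂ (mulVecLin g) = (omL C).compl₁₂ (mulVecLin g) (mulVecLin g) :=
    LinearMap.ext_basis (Pi.basisFun C _) (Pi.basisFun C _) fun i j => by
      rw [Pi.basisFun_apply, Pi.basisFun_apply]
      exact h i j
  exact DFunLike.congr_fun (DFunLike.congr_fun e x) y

theorem mv_bv (g : Mx 8 C) (j a : Fin 8) : (g *ᵥ bv C j) a = g a j := by
  rw [mulVec_single_one]
  rfl

theorem mv_map (φ : C →+* C') (g : Mx 8 C) (x : Fin 8 → C) :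
    g.map φ *ᵥ (φ ∘ x) = φ ∘ (g *ᵥ x) := funext fun a => (φ.map_mulVec g x a).symm

theorem Au.map {g : Mx 8 C} (h : Au g) (φ : C →+* C') : Au (g.map φ) := by
  refine au_of_bv ?_ fun i j => ?_
  · have := φ.map_det g
    rw [h.1, map_one] at this
    exact this.symm
  · rw [← bv_map φ, ← bv_map φ, ← om_map, mv_map, mv_map, mv_map, h.2, om_map]

theorem sG [Algebra k C] (g : Mx 8 C) : Sol (eG k) g ↔ Au g := by
  let φ : Pn k 8 →+* C := (aeval (fun ab : Fin 8 × Fin 8 => g ab.1 ab.2) : Pn k 8 →ₐ[k] C)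
  have h0 : ∀ i j l, vl g ((mvPolynomialX _ _ k *ᵥ om (Pi.single i 1) (Pi.single j 1)) l -
      om (fun a => X (a, i)) (fun a => X (a, j)) l) =
      (g *ᵥ om (bv C i) (bv C j)) l - om (g *ᵥ bv C i) (g *ᵥ bv C j) l := fun i j l => by
    have e1 : ∀ i, φ ∘ (fun a => (X (a, i) : Pn k 8)) = g *ᵥ bv C i := fun i => funext fun a =>
      (vl_X g a i).trans (mv_bv g i a).symm
    have e2 := congrFun (om_map φ (fun a => X (a, i)) fun a => X (a, j)) l
    have e3 := congrFun (mv_map φ (mvPolynomialX _ _ k) (om (bv _ i) (bv _ j))) l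
    have e4 : (mvPolynomialX (Fin 8) (Fin 8) k).map φ = g := gen_map g
    rw [e1, e1] at e2
    rw [om_map, bv_map, bv_map, e4] at e3
    rw [vl_sub, ← e2, e3]
    rfl
  constructor
  · intro h
    refine au_of_bv ?_ fun i j => funext fun l => ?_
    · rw [← sub_eq_zero, ← vl_det (k := k)]
      exact h _ (Or.inl rfl)
    · rw [← sub_eq_zero, ← h0]
      exact h _ (Or.inr ⟨i, j, l, rfl⟩)
  · rintro h _ (rfl | ⟨i, j, l, rfl⟩)
    · rw [vl_det, h.1, sub_self]
    · rw [h0, h.2, sub_self]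

theorem au_one : Au (1 : Mx 8 C) := ⟨det_one, fun x y => by simp only [one_mulVec]⟩

theorem Au.mul {g h : Mx 8 C} (hg : Au g) (hh : Au h) : Au (g * h) :=
  ⟨by rw [det_mul, hg.1, hh.1, one_mul], fun x y => by simp only [← mulVec_mulVec, hh.2, hg.2]⟩

theorem Au.adj_mul {g : Mx 8 C} (hg : Au g) : g.adjugate * g = 1 := by
  rw [adjugate_mul, hg.1, one_smul]

theorem Au.mul_adj {g : Mx 8 C} (hg : Au g) : g * g.adjugate = 1 := by
  rw [mul_adjugate, hg.1, one_smul]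

theorem Au.adj_mv {g : Mx 8 C} (hg : Au g) (x : Fin 8 → C) : g.adjugate *ᵥ (g *ᵥ x) = x := by
  rw [mulVec_mulVec, hg.adj_mul, one_mulVec]

theorem Au.mv_adj {g : Mx 8 C} (hg : Au g) (x : Fin 8 → C) : g *ᵥ (g.adjugate *ᵥ x) = x := by
  rw [mulVec_mulVec, hg.mul_adj, one_mulVec]

theorem Au.adj {g : Mx 8 C} (hg : Au g) : Au g.adjugate :=
  ⟨by rw [det_adjugate, hg.1, one_pow], fun x y => by
    rw [← hg.mv_adj x, ← hg.mv_adj y, ← hg.2, hg.adj_mv, hg.adj_mv, hg.adj_mv]⟩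

theorem om_one_r (x : Fin 8 → C) : om x (bv C 3 + bv C 4) = x := by
  funext l
  fin_cases l <;> simp [om]

theorem om_one_l (x : Fin 8 → C) : om (bv C 3 + bv C 4) x = x := by
  funext l
  fin_cases l <;> simp [om]

theorem om_sq (x : Fin 8 → C) : om x x = (x 3 + x 4) • x - nm x • (bv C 3 + bv C 4) := by
  funext l
  fin_cases l <;> simp [om, nm] <;> ring

theorem Au.one {g : Mx 8 C} (hg : Au g) : g *ᵥ (bv C 3 + bv C 4) = bv C 3 + bv C 4 := by
  have := hg.2 (bv C 3 + bv C 4) (g.adjugate *ᵥ (bv C 3 + bv C 4))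
  rw [om_one_l, hg.mv_adj, om_one_r] at this
  exact this.symm

theorem Au.key {g : Mx 8 C} (hg : Au g) (x : Fin 8 → C) :
    ((g *ᵥ x) 3 + (g *ᵥ x) 4 - (x 3 + x 4)) • x = (nm (g *ᵥ x) - nm x) • (bv C 3 + bv C 4) := by
  have h := hg.2 x x
  rw [om_sq, om_sq, mulVec_sub, mulVec_smul, mulVec_smul, hg.one] at h
  have h2 := congrArg (g.adjugate *ᵥ ·) h
  simp only [mulVec_sub, mulVec_smul, hg.adj_mv, hg.adj.one] at h2
  rw [sub_smul, sub_smul]
  linear_combination -h2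

theorem Au.tr {g : Mx 8 C} (hg : Au g) (x : Fin 8 → C) :
    (g *ᵥ x) 3 + (g *ᵥ x) 4 = x 3 + x 4 := by
  have h : ∀ i, g 3 i + g 4 i = bv C i 3 + bv C i 4 := fun i => by
    have h1 := hg.key (bv C i)
    rw [mv_bv, mv_bv] at h1
    have h2 := congrFun h1 i
    have h3 := congrFun h1 3
    have h4 := congrFun h1 4
    fin_cases i <;> simp at h2 h3 h4 ⊢ <;>
      first | exact h2 | linear_combination h3 - h4 | linear_combination h4 - h3
  simp only [mulVec, dotProduct, ← Finset.sum_add_distrib, ← add_mul, h]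
  simp [Fin.sum_univ_eight]

theorem Au.nm {g : Mx 8 C} (hg : Au g) (x : Fin 8 → C) : nm (g *ᵥ x) = nm x := by
  have h := congrFun (hg.key x) 3
  rw [hg.tr, sub_self, zero_smul] at h
  simpa [sub_eq_zero] using h.symm

theorem pf_eq (x y : Fin 8 → C) : pf x y = nm (x + y) - nm x - nm y := by
  simp only [pf, nm, Pi.add_apply]
  ring

theorem Au.pf {g : Mx 8 C} (hg : Au g) (x y : Fin 8 → C) : pf (g *ᵥ x) (g *ᵥ y) = pf x y := by
  rw [pf_eq, pf_eq, ← mulVec_add, hg.nm, hg.nm, hg.nm]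

theorem mx_ext {g h : Mx 8 C} (e : ∀ j, g *ᵥ bv C j = h *ᵥ bv C j) : g = h :=
  Matrix.ext fun a j => by rw [← mv_bv g, e, mv_bv]

theorem Au.ext {g h : Mx 8 C} (hg : Au g) (hh : Au h) (e1 : g *ᵥ bv C 1 = h *ᵥ bv C 1)
    (e2 : g *ᵥ bv C 2 = h *ᵥ bv C 2) (e7 : g *ᵥ bv C 7 = h *ᵥ bv C 7) : g = h := by
  have k0 : ∀ i j l, om (bv C i) (bv C j) = bv C l → g *ᵥ bv C i = h *ᵥ bv C i →
      g *ᵥ bv C j = h *ᵥ bv C j → g *ᵥ bv C l = h *ᵥ bv C l := fun i j l a b c => by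
    rw [← a, hg.2, hh.2, b, c]
  have e0 := k0 1 2 0 (by funext l; fin_cases l <;> simp [om]) e1 e2
  have e3 := k0 0 7 3 (by funext l; fin_cases l <;> simp [om]) e0 e7
  have e4 := k0 7 0 4 (by funext l; fin_cases l <;> simp [om]) e7 e0
  have e5 := k0 7 1 5 (by funext l; fin_cases l <;> simp [om]) e7 e1
  have e6 := k0 2 7 6 (by funext l; fin_cases l <;> simp [om]) e2 e7
  refine mx_ext fun j => ?_
  fin_cases j
  exacts [e0, e1, e2, e3, e4, e5, e6, e7]

end Pool.Agent.P.MP_1bf4cb_ag.RG
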