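import Pool.Agent.P.MP_1bf4cb_ag.TA

set_option autoImplicit false
set_option maxHeartbeats 1600000
set_option linter.unusedSectionVars false
set_option linter.unusedVariables false
set_option linter.unusedSimpArgs false

open Function Matrix MvPolynomial

noncomputable section

namespace Pool.Agent.P.MP_1bf4cb_ag.RG

variable {k : Type} [Field k] {C C' : Type} [CommRing C] [CommRing C']

/-- upper unitriangular -/
def UT (g : Mx 8 C) : Prop := (∀ a b : Fin 8, b < a → g a b = 0) ∧ ∀ a, g a a = 1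

theorem UT.det {g : Mx 8 C} (h : UT g) : g.det = 1 := by
  rw [det_of_isUpperTriangular (fun a b e => h.1 a b e)]
  exact Finset.prod_eq_one fun a _ => h.2 a

/-- a root element -/
def r0 (t : C) : Mx 8 C :=
  !![1, -t, 0, 0, 0, 0, 0, 0;
      0, 1, 0, 0, 0, 0, 0, 0;
      0, 0, 1, -t, t, -t ^ 2, 0, 0;
      0, 0, 0, 1, 0, t, 0, 0;
      0, 0, 0, 0, 1, -t, 0, 0;
      0, 0, 0, 0, 0, 1, 0, 0;
      0, 0, 0, 0, 0, 0, 1, t;
      0, 0, 0, 0, 0, 0, 0, 1]

theorem r0_mv (t : C) (x : Fin 8 → C) : r0 t *ᵥ x =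
    ![x 0 - t * x 1,
      x 1,
      x 2 - t * x 3 + t * x 4 - t ^ 2 * x 5,
      x 3 + t * x 5,
      x 4 - t * x 5,
      x 5,
      x 6 + t * x 7,
      x 7] := by
  funext l
  fin_cases l <;> simp [r0, mulVec, dotProduct, Fin.sum_univ_eight] <;> ring

theorem r0_ut (t : C) : UT (r0 t) := by
  refine ⟨fun a b h => ?_, fun a => ?_⟩
  · fin_cases a <;> fin_cases b <;> first | rfl | exact absurd h (by decide)
  · fin_cases a <;> rfl

theorem r0_au (t : C) : Au (r0 t) := by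
  refine ⟨(r0_ut t).det, fun x y => ?_⟩
  rw [r0_mv, r0_mv, r0_mv]
  funext l
  fin_cases l <;> simp [om] <;> ring

theorem r0_map (φ : C →+* C') (t : C) : (r0 t).map φ = r0 (φ t) := by
  ext a b
  fin_cases a <;> fin_cases b <;> simp [r0]

theorem r0_neg (t : C) : r0 t * r0 (-t) = 1 := by
  refine mx_ext fun j => ?_
  rw [← mulVec_mulVec, one_mulVec]
  generalize bv C j = x
  rw [r0_mv, r0_mv]
  funext l
  fin_cases l <;> simp <;> ring

/-- a root element -/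
def r1 (t : C) : Mx 8 C :=
  !![1, 0, 0, 0, 0, 0, 0, 0;
      0, 1, -t, 0, 0, 0, 0, 0;
      0, 0, 1, 0, 0, 0, 0, 0;
      0, 0, 0, 1, 0, 0, 0, 0;
      0, 0, 0, 0, 1, 0, 0, 0;
      0, 0, 0, 0, 0, 1, t, 0;
      0, 0, 0, 0, 0, 0, 1, 0;
      0, 0, 0, 0, 0, 0, 0, 1]

theorem r1_mv (t : C) (x : Fin 8 → C) : r1 t *ᵥ x =
    ![x 0,
      x 1 - t * x 2,
      x 2,
      x 3,
      x 4,
      x 5 + t * x 6,
      x 6,
      x 7] := by
  funext l
  fin_cases l <;> simp [r1, mulVec, dotProduct, Fin.sum_univ_eight] <;> ring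

theorem r1_ut (t : C) : UT (r1 t) := by
  refine ⟨fun a b h => ?_, fun a => ?_⟩
  · fin_cases a <;> fin_cases b <;> first | rfl | exact absurd h (by decide)
  · fin_cases a <;> rfl

theorem r1_au (t : C) : Au (r1 t) := by
  refine ⟨(r1_ut t).det, fun x y => ?_⟩
  rw [r1_mv, r1_mv, r1_mv]
  funext l
  fin_cases l <;> simp [om] <;> ring

theorem r1_map (φ : C →+* C') (t : C) : (r1 t).map φ = r1 (φ t) := by
  ext a b
  fin_cases a <;> fin_cases b <;> simp [r1]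

theorem r1_neg (t : C) : r1 t * r1 (-t) = 1 := by
  refine mx_ext fun j => ?_
  rw [← mulVec_mulVec, one_mulVec]
  generalize bv C j = x
  rw [r1_mv, r1_mv]
  funext l
  fin_cases l <;> simp <;> ring

/-- a root element -/
def r2 (t : C) : Mx 8 C :=
  !![1, 0, t, 0, 0, 0, 0, 0;
      0, 1, 0, -t, t, 0, -t ^ 2, 0;
      0, 0, 1, 0, 0, 0, 0, 0;
      0, 0, 0, 1, 0, 0, t, 0;
      0, 0, 0, 0, 1, 0, -t, 0;
      0, 0, 0, 0, 0, 1, 0, -t;
      0, 0, 0, 0, 0, 0, 1, 0;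
      0, 0, 0, 0, 0, 0, 0, 1]

theorem r2_mv (t : C) (x : Fin 8 → C) : r2 t *ᵥ x =
    ![x 0 + t * x 2,
      x 1 - t * x 3 + t * x 4 - t ^ 2 * x 6,
      x 2,
      x 3 + t * x 6,
      x 4 - t * x 6,
      x 5 - t * x 7,
      x 6,
      x 7] := by
  funext l
  fin_cases l <;> simp [r2, mulVec, dotProduct, Fin.sum_univ_eight] <;> ring

theorem r2_ut (t : C) : UT (r2 t) := by
  refine ⟨fun a b h => ?_, fun a => ?_⟩
  · fin_cases a <;> fin_cases b <;> first | rfl | exact absurd h (by decide)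
  · fin_cases a <;> rfl

theorem r2_au (t : C) : Au (r2 t) := by
  refine ⟨(r2_ut t).det, fun x y => ?_⟩
  rw [r2_mv, r2_mv, r2_mv]
  funext l
  fin_cases l <;> simp [om] <;> ring

theorem r2_map (φ : C →+* C') (t : C) : (r2 t).map φ = r2 (φ t) := by
  ext a b
  fin_cases a <;> fin_cases b <;> simp [r2]

theorem r2_neg (t : C) : r2 t * r2 (-t) = 1 := by
  refine mx_ext fun j => ?_
  rw [← mulVec_mulVec, one_mulVec]
  generalize bv C j = x
  rw [r2_mv, r2_mv]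
  funext l
  fin_cases l <;> simp <;> ring

/-- a root element -/
def r3 (t : C) : Mx 8 C :=
  !![1, 0, 0, t, -t, 0, 0, -t ^ 2;
      0, 1, 0, 0, 0, t, 0, 0;
      0, 0, 1, 0, 0, 0, -t, 0;
      0, 0, 0, 1, 0, 0, 0, -t;
      0, 0, 0, 0, 1, 0, 0, t;
      0, 0, 0, 0, 0, 1, 0, 0;
      0, 0, 0, 0, 0, 0, 1, 0;
      0, 0, 0, 0, 0, 0, 0, 1]

theorem r3_mv (t : C) (x : Fin 8 → C) : r3 t *ᵥ x =
    ![x 0 + t * x 3 - t * x 4 - t ^ 2 * x 7,
      x 1 + t * x 5,
      x 2 - t * x 6,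
      x 3 - t * x 7,
      x 4 + t * x 7,
      x 5,
      x 6,
      x 7] := by
  funext l
  fin_cases l <;> simp [r3, mulVec, dotProduct, Fin.sum_univ_eight] <;> ring

theorem r3_ut (t : C) : UT (r3 t) := by
  refine ⟨fun a b h => ?_, fun a => ?_⟩
  · fin_cases a <;> fin_cases b <;> first | rfl | exact absurd h (by decide)
  · fin_cases a <;> rfl

theorem r3_au (t : C) : Au (r3 t) := by
  refine ⟨(r3_ut t).det, fun x y => ?_⟩
  rw [r3_mv, r3_mv, r3_mv]
  funext l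
  fin_cases l <;> simp [om] <;> ring

theorem r3_map (φ : C →+* C') (t : C) : (r3 t).map φ = r3 (φ t) := by
  ext a b
  fin_cases a <;> fin_cases b <;> simp [r3]

theorem r3_neg (t : C) : r3 t * r3 (-t) = 1 := by
  refine mx_ext fun j => ?_
  rw [← mulVec_mulVec, one_mulVec]
  generalize bv C j = x
  rw [r3_mv, r3_mv]
  funext l
  fin_cases l <;> simp <;> ring

/-- a root element -/
def r4 (t : C) : Mx 8 C :=
  !![1, 0, 0, 0, 0, t, 0, 0;
      0, 1, 0, 0, 0, 0, 0, 0;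
      0, 0, 1, 0, 0, 0, 0, -t;
      0, 0, 0, 1, 0, 0, 0, 0;
      0, 0, 0, 0, 1, 0, 0, 0;
      0, 0, 0, 0, 0, 1, 0, 0;
      0, 0, 0, 0, 0, 0, 1, 0;
      0, 0, 0, 0, 0, 0, 0, 1]

theorem r4_mv (t : C) (x : Fin 8 → C) : r4 t *ᵥ x =
    ![x 0 + t * x 5,
      x 1,
      x 2 - t * x 7,
      x 3,
      x 4,
      x 5,
      x 6,
      x 7] := by
  funext l
  fin_cases l <;> simp [r4, mulVec, dotProduct, Fin.sum_univ_eight] <;> ring

theorem r4_ut (t : C) : UT (r4 t) := by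
  refine ⟨fun a b h => ?_, fun a => ?_⟩
  · fin_cases a <;> fin_cases b <;> first | rfl | exact absurd h (by decide)
  · fin_cases a <;> rfl

theorem r4_au (t : C) : Au (r4 t) := by
  refine ⟨(r4_ut t).det, fun x y => ?_⟩
  rw [r4_mv, r4_mv, r4_mv]
  funext l
  fin_cases l <;> simp [om] <;> ring

theorem r4_map (φ : C →+* C') (t : C) : (r4 t).map φ = r4 (φ t) := by
  ext a b
  fin_cases a <;> fin_cases b <;> simp [r4]

theorem r4_neg (t : C) : r4 t * r4 (-t) = 1 := by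
  refine mx_ext fun j => ?_
  rw [← mulVec_mulVec, one_mulVec]
  generalize bv C j = x
  rw [r4_mv, r4_mv]
  funext l
  fin_cases l <;> simp <;> ring

/-- a root element -/
def r5 (t : C) : Mx 8 C :=
  !![1, 0, 0, 0, 0, 0, t, 0;
      0, 1, 0, 0, 0, 0, 0, -t;
      0, 0, 1, 0, 0, 0, 0, 0;
      0, 0, 0, 1, 0, 0, 0, 0;
      0, 0, 0, 0, 1, 0, 0, 0;
      0, 0, 0, 0, 0, 1, 0, 0;
      0, 0, 0, 0, 0, 0, 1, 0;
      0, 0, 0, 0, 0, 0, 0, 1]

theorem r5_mv (t : C) (x : Fin 8 → C) : r5 t *ᵥ x =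
    ![x 0 + t * x 6,
      x 1 - t * x 7,
      x 2,
      x 3,
      x 4,
      x 5,
      x 6,
      x 7] := by
  funext l
  fin_cases l <;> simp [r5, mulVec, dotProduct, Fin.sum_univ_eight] <;> ring

theorem r5_ut (t : C) : UT (r5 t) := by
  refine ⟨fun a b h => ?_, fun a => ?_⟩
  · fin_cases a <;> fin_cases b <;> first | rfl | exact absurd h (by decide)
  · fin_cases a <;> rfl

theorem r5_au (t : C) : Au (r5 t) := by
  refine ⟨(r5_ut t).det, fun x y => ?_⟩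
  rw [r5_mv, r5_mv, r5_mv]
  funext l
  fin_cases l <;> simp [om] <;> ring

theorem r5_map (φ : C →+* C') (t : C) : (r5 t).map φ = r5 (φ t) := by
  ext a b
  fin_cases a <;> fin_cases b <;> simp [r5]

theorem r5_neg (t : C) : r5 t * r5 (-t) = 1 := by
  refine mx_ext fun j => ?_
  rw [← mulVec_mulVec, one_mulVec]
  generalize bv C j = x
  rw [r5_mv, r5_mv]
  funext l
  fin_cases l <;> simp <;> ring

/-- the root elements -/
def rr (i : Fin 6) (t : C) : Mx 8 C := ![r0 t, r1 t, r2 t, r3 t, r4 t, r5 t] i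

theorem rr_ut (i : Fin 6) (t : C) : UT (rr i t) := by
  fin_cases i
  exacts [r0_ut t, r1_ut t, r2_ut t, r3_ut t, r4_ut t, r5_ut t]

theorem rr_au (i : Fin 6) (t : C) : Au (rr i t) := by
  fin_cases i
  exacts [r0_au t, r1_au t, r2_au t, r3_au t, r4_au t, r5_au t]

theorem rr_map (φ : C →+* C') (i : Fin 6) (t : C) : (rr i t).map φ = rr i (φ t) := by
  fin_cases i
  exacts [r0_map φ t, r1_map φ t, r2_map φ t, r3_map φ t, r4_map φ t, r5_map φ t]

/-- the short simple reflection -/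
def sa (C : Type) [CommRing C] : Mx 8 C :=
  Equiv.Perm.permMatrix C (Equiv.swap 0 1 * Equiv.swap 2 5 * Equiv.swap 3 4 * Equiv.swap 6 7)

/-- the long simple reflection -/
def sb (C : Type) [CommRing C] : Mx 8 C :=
  Equiv.Perm.permMatrix C (Equiv.swap 1 2 * Equiv.swap 5 6) * diagonal ![1, 1, -1, 1, 1, -1, 1, 1]

theorem sa_mv (x : Fin 8 → C) : sa C *ᵥ x = ![x 1, x 0, x 5, x 4, x 3, x 2, x 7, x 6] := by
  rw [sa, permMatrix_mulVec]
  funext l
  fin_cases l <;> rfl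

theorem sb_mv (x : Fin 8 → C) : sb C *ᵥ x = ![x 0, -x 2, x 1, x 3, x 4, x 6, -x 5, x 7] := by
  have e : (diagonal ![1, 1, -1, 1, 1, -1, 1, 1] : Mx 8 C) *ᵥ x =
      ![x 0, x 1, -x 2, x 3, x 4, -x 5, x 6, x 7] := by
    funext l
    rw [mulVec_diagonal]
    fin_cases l <;> simp
  rw [sb, ← mulVec_mulVec, permMatrix_mulVec, e]
  funext l
  fin_cases l <;> rfl

theorem sa_au : Au (sa C) := by
  refine ⟨?_, fun x y => ?_⟩
  · rw [sa, det_permutation]
    simp
  · rw [sa_mv, sa_mv, sa_mv]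
    funext l
    fin_cases l <;> simp [om] <;> ring

theorem sb_au : Au (sb C) := by
  refine ⟨?_, fun x y => ?_⟩
  · rw [sb, det_mul, det_permutation, det_diagonal, Fin.prod_univ_eight]
    simp
  · rw [sb_mv, sb_mv, sb_mv]
    funext l
    fin_cases l <;> simp [om] <;> ring

theorem map_of_mv (φ : C →+* C') {g : Mx 8 C} {h : Mx 8 C'}
    (e : ∀ x, h *ᵥ (φ ∘ x) = φ ∘ (g *ᵥ x)) : g.map φ = h :=
  mx_ext fun j => by rw [← bv_map φ, mv_map, e]

theorem sa_map (φ : C →+* C') : (sa C).map φ = sa C' := map_of_mv φ fun x => by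
  rw [sa_mv, sa_mv]
  funext l
  fin_cases l <;> rfl

theorem sb_map (φ : C →+* C') : (sb C).map φ = sb C' := map_of_mv φ fun x => by
  rw [sb_mv, sb_mv]
  funext l
  fin_cases l <;> simp

end Pool.Agent.P.MP_1bf4cb_ag.RG
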