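import Pool.Agent.P.MP_1bf4cb_ag.TB

set_option autoImplicit false
set_option maxHeartbeats 800000
set_option linter.unusedSectionVars false
set_option linter.unusedVariables false
set_option linter.unusedSimpArgs false

open Function Matrix MvPolynomial

noncomputable section

namespace Pool.Agent.P.MP_1bf4cb_ag.RG

variable {k : Type} [Field k] {C C' : Type} [CommRing C] [CommRing C'] {g h : Mx 8 C}

/-- the stabiliser of the line -/
def Q1 (g : Mx 8 C) : Prop := Au g ∧ ∀ a : Fin 8, 0 < a → g a 0 = 0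

/-- the stabiliser of the plane -/
def Q2 (g : Mx 8 C) : Prop := Au g ∧ ∀ a : Fin 8, 1 < a → g a 0 = 0 ∧ g a 1 = 0

/-- the stabiliser of the flag -/
def QB (g : Mx 8 C) : Prop := Q1 g ∧ Q2 g

theorem sol_union [Algebra k C] {n : ℕ} {S T : Set (Pn k n)} {g : Mx n C} :
    Sol (S ∪ T) g ↔ Sol S g ∧ Sol T g :=
  ⟨fun h => ⟨h.mono Set.subset_union_left, h.mono Set.subset_union_right⟩,
    fun h f hf => hf.elim (h.1 f) (h.2 f)⟩

theorem sP1 [Algebra k C] (g : Mx 8 C) : Sol (eP k false) g ↔ Q1 g := by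
  rw [eP, sol_union, sG]
  refine and_congr_right fun _ => ⟨fun h a ha => (vl_X g a 0).symm.trans
    (h _ ⟨a, 0, le_rfl, ha, rfl⟩), ?_⟩
  rintro h _ ⟨a, b, hb, ha, rfl⟩
  rw [vl_X, le_zero_iff.1 hb]
  exact h a ha

theorem sP2 [Algebra k C] (g : Mx 8 C) : Sol (eP k true) g ↔ Q2 g := by
  rw [eP, sol_union, sG]
  refine and_congr_right fun _ => ⟨fun h a ha => ⟨(vl_X g a 0).symm.trans
    (h _ ⟨a, 0, Fin.zero_le _, ha, rfl⟩), (vl_X g a 1).symm.trans (h _ ⟨a, 1, le_rfl, ha, rfl⟩)⟩, ?_⟩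
  rintro h _ ⟨a, b, hb, ha, rfl⟩
  rw [vl_X]
  have : b = 0 ∨ b = 1 := by
    have h1 : b ≤ 1 := hb
    omega
  rcases this with rfl | rfl
  exacts [(h a ha).1, (h a ha).2]

theorem sB [Algebra k C] (g : Mx 8 C) : Sol (eP k false ∪ eP k true) g ↔ QB g := by
  rw [sol_union, sP1, sP2, QB]

theorem mul_col (g h : Mx 8 C) (a j : Fin 8) : (g * h) a j = (g *ᵥ (h *ᵥ bv C j)) a := by
  rw [mulVec_mulVec, mv_bv]

theorem Q1.col (hg : Q1 g) : g *ᵥ bv C 0 = g 0 0 • bv C 0 := by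
  funext a
  rw [mv_bv]
  rcases (Fin.zero_le a).eq_or_lt with rfl | ha
  · simp
  · simp [hg.2 a ha, ha.ne']

theorem Q1.adj_col (hg : Q1 g) (a : Fin 8) : g 0 0 * g.adjugate a 0 = bv C 0 a := by
  have := congrFun (hg.1.adj_mv (bv C 0)) a
  rwa [hg.col, mulVec_smul, Pi.smul_apply, mv_bv] at this

theorem Q1.unit (hg : Q1 g) : IsUnit (g 0 0) :=
  IsUnit.of_mul_eq_one _ ((hg.adj_col 0).trans (Pi.single_eq_same _ _))

theorem Q1.adj (hg : Q1 g) : Q1 g.adjugate := ⟨hg.1.adj, fun a ha =>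
  hg.unit.mul_right_eq_zero.1 ((hg.adj_col a).trans (Pi.single_eq_of_ne ha.ne' _))⟩

theorem Q1.mul (hg : Q1 g) (hh : Q1 h) : Q1 (g * h) := ⟨hg.1.mul hh.1, fun a ha => by
  rw [mul_col, hh.col, mulVec_smul, Pi.smul_apply, mv_bv, hg.2 a ha, smul_zero]⟩

theorem Q1.w3 (hg : Q1 g) {y : Fin 8 → C} (hy : ∀ a : Fin 8, 2 < a → y a = 0) (a : Fin 8)
    (ha : 2 < a) : (g *ᵥ y) a = 0 := by
  have h3 := hy 3 (by decide)
  have h4 := hy 4 (by decide)
  have h5 := hy 5 (by decide)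
  have h6 := hy 6 (by decide)
  have h7 := hy 7 (by decide)
  have e1 : om (bv C 0) y = 0 := by
    funext l
    fin_cases l <;> simp [om, h4, h5, h6, h7]
  have e2 : om y (bv C 0) = 0 := by
    funext l
    fin_cases l <;> simp [om, h3, h5, h6, h7]
  have e3 := hg.1.2 (bv C 0) y
  have e4 := hg.1.2 y (bv C 0)
  rw [e1, mulVec_zero, hg.col] at e3
  rw [e2, mulVec_zero, hg.col] at e4
  have a0 := congrFun e3 0
  have a1 := congrFun e3 1
  have a2 := congrFun e3 2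
  have a3 := congrFun e3 3
  have a4 := congrFun e4 0
  simp [om] at a0 a1 a2 a3 a4
  refine hg.unit.mul_right_eq_zero.1 ?_
  fin_cases a
  · exact absurd ha (by decide)
  · exact absurd ha (by decide)
  · exact absurd ha (by decide)
  · exact (mul_comm _ _).trans a4.symm
  · exact a0.symm
  · exact a1.symm
  · exact a2
  · exact a3.symm

theorem Q1.w7 (hg : Q1 g) (y : Fin 8 → C) : g 0 0 * (g *ᵥ y) 7 = y 7 := by
  have := hg.1.pf (bv C 0) y
  rw [hg.col] at this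
  simpa [pf] using this

theorem Q2.col (hg : Q2 g) : g *ᵥ bv C 0 = g 0 0 • bv C 0 + g 1 0 • bv C 1 ∧
    g *ᵥ bv C 1 = g 0 1 • bv C 0 + g 1 1 • bv C 1 := by
  have h2 := hg.2 2 (by decide)
  have h3 := hg.2 3 (by decide)
  have h4 := hg.2 4 (by decide)
  have h5 := hg.2 5 (by decide)
  have h6 := hg.2 6 (by decide)
  have h7 := hg.2 7 (by decide)
  constructor <;> funext a <;> rw [mv_bv] <;> fin_cases a <;> simp [h2, h3, h4, h5, h6, h7]

theorem Q2.adj_col (hg : Q2 g) (a : Fin 8) :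
    g 0 0 * g.adjugate a 0 + g 1 0 * g.adjugate a 1 = bv C 0 a ∧
      g 0 1 * g.adjugate a 0 + g 1 1 * g.adjugate a 1 = bv C 1 a := by
  have h0 := congrFun (hg.1.adj_mv (bv C 0)) a
  have h1 := congrFun (hg.1.adj_mv (bv C 1)) a
  rw [hg.col.1] at h0
  rw [hg.col.2] at h1
  simp only [mulVec_add, mulVec_smul, Pi.add_apply, Pi.smul_apply, mv_bv, smul_eq_mul] at h0 h1
  exact ⟨h0, h1⟩

theorem Q2.unit (hg : Q2 g) : IsUnit (g 0 0 * g 1 1 - g 0 1 * g 1 0) := by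
  obtain ⟨h1, h2⟩ := hg.adj_col 0
  obtain ⟨h3, h4⟩ := hg.adj_col 1
  simp at h1 h2 h3 h4
  refine IsUnit.of_mul_eq_one (g.adjugate 0 0 * g.adjugate 1 1 - g.adjugate 0 1 * g.adjugate 1 0) ?_
  linear_combination (g 0 1 * g.adjugate 1 0 + g 1 1 * g.adjugate 1 1) * h1 + h4 -
    (g 0 0 * g.adjugate 1 0 + g 1 0 * g.adjugate 1 1) * h2

theorem Q2.adj (hg : Q2 g) : Q2 g.adjugate := ⟨hg.1.adj, fun a ha => by
  obtain ⟨h1, h2⟩ := hg.adj_col a
  rw [show bv C 0 a = 0 from Pi.single_eq_of_ne (by omega) _] at h1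
  rw [show bv C 1 a = 0 from Pi.single_eq_of_ne ha.ne' _] at h2
  exact ⟨hg.unit.mul_right_eq_zero.1 (by linear_combination g 1 1 * h1 - g 1 0 * h2),
    hg.unit.mul_right_eq_zero.1 (by linear_combination g 0 0 * h2 - g 0 1 * h1)⟩⟩

theorem Q2.mul (hg : Q2 g) (hh : Q2 h) : Q2 (g * h) := ⟨hg.1.mul hh.1, fun a ha => by
  rw [mul_col, mul_col, hh.col.1, hh.col.2]
  simp only [mulVec_add, mulVec_smul, Pi.add_apply, Pi.smul_apply, mv_bv, (hg.2 a ha).1,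
    (hg.2 a ha).2, smul_zero, add_zero, and_self]⟩

theorem Q2.w6 (hg : Q2 g) (y : Fin 8 → C) : g 0 0 * (g *ᵥ y) 7 + g 1 0 * (g *ᵥ y) 6 = y 7 ∧
    g 0 1 * (g *ᵥ y) 7 + g 1 1 * (g *ᵥ y) 6 = y 6 := by
  have h0 := hg.1.pf (bv C 0) y
  have h1 := hg.1.pf (bv C 1) y
  rw [hg.col.1] at h0
  rw [hg.col.2] at h1
  simp [pf] at h0 h1
  exact ⟨by linear_combination -h0, by linear_combination -h1⟩

theorem QB.mul (hg : QB g) (hh : QB h) : QB (g * h) := ⟨hg.1.mul hh.1, hg.2.mul hh.2⟩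

theorem QB.adj (hg : QB g) : QB g.adjugate := ⟨hg.1.adj, hg.2.adj⟩

theorem QB.au (hg : QB g) : Au g := hg.1.1

theorem qb_of_ut (h1 : Au g) (h2 : ∀ a b : Fin 8, b < a → g a b = 0) : QB g :=
  ⟨⟨h1, fun a ha => h2 a 0 ha⟩, h1, fun a ha => ⟨h2 a 0 (by omega), h2 a 1 ha⟩⟩

theorem qb_one : QB (1 : Mx 8 C) := qb_of_ut au_one fun a b h => one_apply_ne h.ne'

theorem rr_qb (i : Fin 6) (t : C) : QB (rr i t) := qb_of_ut (rr_au i t) (rr_ut i t).1

theorem Q1.qb (hg : Q1 g) (h : g 2 1 = 0) : QB g := ⟨hg, hg.1, fun a ha =>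
  ⟨hg.2 a (by omega), by
    rcases (show a = 2 ∨ 2 < a by omega) with rfl | h2
    · exact h
    · rw [← mv_bv g]
      exact hg.w3 (fun b hb => Pi.single_eq_of_ne (by omega) _) a h2⟩⟩

theorem QB.unit1 (hg : QB g) : IsUnit (g 1 1) := by
  have := hg.2.unit
  rw [hg.1.2 1 (by decide), mul_zero, sub_zero] at this
  exact (IsUnit.mul_iff.1 this).2

theorem g2_grp : Grp (eG k) ∧ Grp (eP k false ∪ eP k true) ∧ ∀ s, Grp (eP k s) := by
  refine ⟨fun C _ _ => ⟨(sG _).2 au_one, fun g h hg hh => ?_⟩,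
    fun C _ _ => ⟨(sB _).2 qb_one, fun g h hg hh => ?_⟩, fun s => ?_⟩
  · rw [sG] at *
    exact ⟨hg.1, hg.mul hh.adj⟩
  · rw [sB] at *
    exact ⟨hg.au.1, hg.mul hh.adj⟩
  · cases s
    · refine fun C _ _ => ⟨(sP1 _).2 qb_one.1, fun g h hg hh => ?_⟩
      rw [sP1] at *
      exact ⟨hg.1.1, hg.mul hh.adj⟩
    · refine fun C _ _ => ⟨(sP2 _).2 qb_one.2, fun g h hg hh => ?_⟩
      rw [sP2] at *
      exact ⟨hg.1.1, hg.mul hh.adj⟩

/-- the torus -/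
def tt (s t : Cˣ) : Mx 8 C :=
  diagonal ![s * t, s, t, 1, 1, (t⁻¹ : Cˣ), (s⁻¹ : Cˣ), (s⁻¹ : Cˣ) * (t⁻¹ : Cˣ)]

theorem tt_mv (s t : Cˣ) (x : Fin 8 → C) : tt s t *ᵥ x = ![s * t * x 0, s * x 1, t * x 2, x 3, x 4,
    (t⁻¹ : Cˣ) * x 5, (s⁻¹ : Cˣ) * x 6, (s⁻¹ : Cˣ) * (t⁻¹ : Cˣ) * x 7] := by
  funext l
  rw [tt, mulVec_diagonal]
  fin_cases l <;> simp

theorem tt_qb (s t : Cˣ) : QB (tt s t) := by
  have h1 := s.mul_inv
  have h2 := t.mul_inv
  refine qb_of_ut ⟨?_, fun x y => ?_⟩ fun a b h => diagonal_apply_ne _ h.ne'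
  · rw [tt, det_diagonal, Fin.prod_univ_eight]
    simp only [cons_val_zero, cons_val_one, cons_val]
    generalize ((s⁻¹ : Cˣ) : C) = s' at *
    generalize ((t⁻¹ : Cˣ) : C) = t' at *
    linear_combination (s * s' + 1) * (t * t') ^ 2 * h1 + (t * t' + 1) * h2
  · rw [tt_mv, tt_mv, tt_mv]
    generalize ((s⁻¹ : Cˣ) : C) = s' at *
    generalize ((t⁻¹ : Cˣ) : C) = t' at *
    funext l
    fin_cases l <;> simp only [om, cons_val_zero, cons_val_one, cons_val, Fin.zero_eta, Fin.mk_one,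
      Fin.reduceFinMk]
    · ring
    · linear_combination (-s * x 0 * y 5 + s * x 5 * y 0) * h2
    · linear_combination (-t * x 6 * y 0 + t * x 0 * y 6) * h1
    · linear_combination -(t * t' * x 0 * y 7 + x 6 * y 1) * h1 - (x 0 * y 7 + x 5 * y 2) * h2
    · linear_combination -(t * t' * x 7 * y 0 + x 1 * y 6) * h1 - (x 7 * y 0 + x 2 * y 5) * h2
    · linear_combination (t' * x 1 * y 7 - t' * x 7 * y 1) * h1
    · linear_combination (s' * x 7 * y 2 - s' * x 2 * y 7) * h2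
    · ring

/-- the unipotent radical -/
def uu (a : Fin 6 → C) : Mx 8 C :=
  r5 (a 5) * r4 (a 4) * r3 (a 3) * (r2 (a 2) * r1 (a 1) * r0 (a 0))

theorem uu_qb (a : Fin 6 → C) : QB (uu a) :=
  (((rr_qb 5 _).mul (rr_qb 4 _)).mul (rr_qb 3 _)).mul
    (((rr_qb 2 _).mul (rr_qb 1 _)).mul (rr_qb 0 _))

theorem uu_map (φ : C →+* C') (a : Fin 6 → C) : (uu a).map φ = uu fun i => φ (a i) := by
  simp only [uu, Matrix.map_mul, r0_map, r1_map, r2_map, r3_map, r4_map, r5_map]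

theorem uu_mv1 (a : Fin 6 → C) (c : C) : uu a *ᵥ (c • bv C 1) = ![-(c * a 0), c, 0, 0, 0, 0, 0, 0] := by
  simp only [uu, ← mulVec_mulVec, r0_mv, r1_mv, r2_mv, r3_mv, r4_mv, r5_mv]
  simp [mul_comm]

theorem uu_mv2 (a : Fin 6 → C) (c : C) :
    uu a *ᵥ (c • bv C 2) = ![c * a 2, -(c * a 1), c, 0, 0, 0, 0, 0] := by
  simp only [uu, ← mulVec_mulVec, r0_mv, r1_mv, r2_mv, r3_mv, r4_mv, r5_mv]
  simp [mul_comm]

theorem top_mv (a b c : C) : (r5 a * r4 b * r3 c) *ᵥ bv C 7 =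
    ![-c ^ 2, -a, -b, -c, c, 0, 0, 1] := by
  simp only [← mulVec_mulVec, r3_mv, r4_mv, r5_mv]
  simp

theorem top_fix (a b c : C) : (r5 a * r4 b * r3 c) *ᵥ bv C 1 = bv C 1 ∧
    (r5 a * r4 b * r3 c) *ᵥ bv C 2 = bv C 2 := by
  simp only [← mulVec_mulVec, r3_mv, r4_mv, r5_mv]
  constructor <;> funext l <;> fin_cases l <;> simp

theorem tt_bv (s t : Cˣ) : tt s t *ᵥ bv C 1 = (s : C) • bv C 1 ∧ tt s t *ᵥ bv C 2 = (t : C) • bv C 2 := by
  rw [tt_mv, tt_mv]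
  constructor <;> funext l <;> fin_cases l <;> simp

theorem Au.cancel {g h m : Mx 8 C} (hm : Au m) (e : g * m = h * m) : g = h := by
  rw [← Matrix.mul_one g, ← hm.mul_adj, ← Matrix.mul_assoc, e, Matrix.mul_assoc, hm.mul_adj,
    Matrix.mul_one]

theorem ut_inj {a a' : Fin 6 → C} {s t s' t' : Cˣ} (e : uu a * tt s t = uu a' * tt s' t') :
    a = a' ∧ s = s' ∧ t = t' := by
  have e1 := congrArg (· *ᵥ bv C 1) e
  have e2 := congrArg (· *ᵥ bv C 2) e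
  simp only [← mulVec_mulVec, tt_bv, uu_mv1, uu_mv2] at e1 e2
  have hs : s = s' := Units.ext (congrFun e1 1)
  have ht : t = t' := Units.ext (congrFun e2 2)
  subst hs ht
  have h0 : a 0 = a' 0 := (Units.mul_right_inj s).1 (neg_injective (congrFun e1 0))
  have h1 : a 1 = a' 1 := (Units.mul_right_inj t).1 (neg_injective (congrFun e2 1))
  have h2 : a 2 = a' 2 := (Units.mul_right_inj t).1 (congrFun e2 0)
  have e3 := (tt_qb s t).au.cancel e
  rw [uu, uu, h0, h1, h2] at e3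
  have e4 := congrArg (· *ᵥ bv C 7)
    ((((rr_qb 2 _).mul (rr_qb 1 _)).mul (rr_qb 0 _)).au.cancel e3)
  simp only [top_mv] at e4
  refine ⟨funext fun i => ?_, rfl, rfl⟩
  fin_cases i
  exacts [h0, h1, h2, congrFun e4 4, neg_injective (congrFun e4 2), neg_injective (congrFun e4 1)]

theorem ut_surj (hg : QB g) : ∃ (a : Fin 6 → C) (s t : Cˣ), uu a * tt s t = g := by
  have h2 : ∀ a : Fin 8, 2 < a → g a 2 = 0 := fun a ha => by
    rw [← mv_bv g]
    exact hg.1.w3 (fun b hb => Pi.single_eq_of_ne (by omega) _) a ha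
  have h00 : g 0 0 = g 1 1 * g 2 2 := by
    have e : om (bv C 1) (bv C 2) = bv C 0 := by
      funext l
      fin_cases l <;> simp [om]
    have := congrFun (hg.au.2 (bv C 1) (bv C 2)) 0
    rw [e] at this
    simpa [om, mv_bv, h2 4 (by decide), (hg.2.2 2 (by decide)).2, (hg.2.2 3 (by decide)).2]
      using this
  obtain ⟨s, hs⟩ := hg.unit1
  obtain ⟨t, ht⟩ : IsUnit (g 2 2) := (IsUnit.mul_iff.1 (h00 ▸ hg.1.unit)).2
  let a0 : C := -((s⁻¹ : Cˣ) * g 0 1)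
  let a1 : C := -((t⁻¹ : Cˣ) * g 1 2)
  let a2 : C := (t⁻¹ : Cˣ) * g 0 2
  have hm : QB (uu ![a0, a1, a2, 0, 0, 0] * tt s t) := (uu_qb _).mul (tt_qb s t)
  have e1 : g *ᵥ bv C 1 = (uu ![a0, a1, a2, 0, 0, 0] * tt s t) *ᵥ bv C 1 := by
    rw [← mulVec_mulVec, (tt_bv s t).1, uu_mv1]
    funext l
    rw [mv_bv]
    fin_cases l
    · simp [a0]
    · exact hs.symm
    all_goals exact (hg.2.2 _ (by decide)).2
  have e2 : g *ᵥ bv C 2 = (uu ![a0, a1, a2, 0, 0, 0] * tt s t) *ᵥ bv C 2 := by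
    rw [← mulVec_mulVec, (tt_bv s t).2, uu_mv2]
    funext l
    rw [mv_bv]
    fin_cases l
    · simp [a2]
    · simp [a1]
    · exact ht.symm
    all_goals exact h2 _ (by decide)
  set m := uu ![a0, a1, a2, 0, 0, 0] * tt s t with hmd
  have hz : QB (g * m.adjugate) := hg.mul hm.adj
  have k1 : m *ᵥ bv C 1 = (s : C) • (bv C 1 - a0 • bv C 0) := by
    rw [hmd, ← mulVec_mulVec, (tt_bv s t).1, uu_mv1]
    funext l
    fin_cases l <;> simp
  have k2 : m *ᵥ bv C 2 = (t : C) • (bv C 2 - a1 • bv C 1 + a2 • bv C 0) := by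
    rw [hmd, ← mulVec_mulVec, (tt_bv s t).2, uu_mv2]
    funext l
    fin_cases l <;> simp
  have f1 : (g * m.adjugate) *ᵥ (m *ᵥ bv C 1) = m *ᵥ bv C 1 := by
    rw [← mulVec_mulVec, hm.au.adj_mv, e1]
  have f2 : (g * m.adjugate) *ᵥ (m *ᵥ bv C 2) = m *ᵥ bv C 2 := by
    rw [← mulVec_mulVec, hm.au.adj_mv, e2]
  set z := g * m.adjugate with hzd
  have e : om (bv C 1) (bv C 2) = bv C 0 := by
    funext l
    fin_cases l <;> simp [om]
  have f0 : z *ᵥ (m *ᵥ bv C 0) = m *ᵥ bv C 0 := by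
    rw [← e, hm.au.2, hz.au.2, f1, f2]
  have un : ∀ (u : C) (y : Fin 8 → C), IsUnit u → z *ᵥ (u • y) = u • y → z *ᵥ y = y :=
    fun u y hu h => hu.smul_left_cancel.1 ((mulVec_smul _ _ _).symm.trans h)
  have g0 : z *ᵥ bv C 0 = bv C 0 := un _ _ hm.1.unit (hm.1.col ▸ f0)
  have g1 : z *ᵥ bv C 1 = bv C 1 := by
    have := un _ _ s.isUnit (k1 ▸ f1)
    rw [mulVec_sub, mulVec_smul, g0] at this
    exact sub_left_injective this
  have g2 : z *ᵥ bv C 2 = bv C 2 := by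
    have := un _ _ t.isUnit (k2 ▸ f2)
    rw [mulVec_add, mulVec_sub, mulVec_smul, mulVec_smul, g0, g1] at this
    exact sub_left_injective (add_right_cancel this)
  have p0 := hz.au.pf (bv C 0) (bv C 7)
  have p1 := hz.au.pf (bv C 1) (bv C 7)
  have p2 := hz.au.pf (bv C 2) (bv C 7)
  have p3 := hz.au.tr (bv C 7)
  have p4 := hz.au.nm (bv C 7)
  rw [g0] at p0
  rw [g1] at p1
  rw [g2] at p2
  generalize hy : z *ᵥ bv C 7 = y at p0 p1 p2 p3 p4
  simp [pf, nm] at p0 p1 p2 p3 p4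
  have e7 : z = r5 (-y 1) * r4 (-y 2) * r3 (y 4) := by
    refine hz.au.ext (((rr_au 5 _).mul (rr_au 4 _)).mul (rr_au 3 _))
      (g1.trans (top_fix _ _ _).1.symm) (g2.trans (top_fix _ _ _).2.symm) ?_
    rw [hy, top_mv]
    funext l
    fin_cases l <;> simp only [cons_val_zero, cons_val_one, cons_val, Fin.zero_eta, Fin.mk_one,
      Fin.reduceFinMk, neg_neg]
    · linear_combination -p4 - y 0 * p0 - y 2 * p2 - y 1 * p1 + y 4 * p3
    · linear_combination p3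
    · exact p2
    · exact p1
    · exact p0
  refine ⟨![a0, a1, a2, y 4, -y 2, -y 1], s, t, ?_⟩
  have e8 : g = z * m := by
    rw [hzd, Matrix.mul_assoc, hm.au.adj_mul, Matrix.mul_one]
  have z0 : ∀ i, rr i (0 : C) = 1 := fun i => by
    ext a b
    fin_cases i <;> fin_cases a <;> fin_cases b <;> simp [rr, r0, r1, r2, r3, r4, r5]
  rw [e8, e7, hmd, ← Matrix.mul_assoc]
  congr 1
  show _ = _ * (rr 5 0 * rr 4 0 * rr 3 0 * _)
  rw [z0, z0, z0, Matrix.one_mul, Matrix.one_mul, Matrix.one_mul]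
  rfl

end Pool.Agent.P.MP_1bf4cb_ag.RG
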