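import Pool.Agent.P.MP_1bf4cb_ag.TC

set_option autoImplicit false
set_option maxHeartbeats 800000
set_option linter.unusedSectionVars false
set_option linter.unusedVariables false
set_option linter.unusedSimpArgs false

open Function Matrix MvPolynomial

noncomputable section

namespace Pool.Agent.P.MP_1bf4cb_ag.RG

variable {k : Type} [Field k] {C C' : Type} [CommRing C] [CommRing C'] {g h : Mx 8 C}

/-- one cell -/
def CelS {n l : ℕ} (G B : Set (Pn k n)) (c : Mx n (MvPolynomial (Fin l) k)) (w : Mx n k)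
    (Z0 Z1 : Set (Pn k n)) : Prop :=
  Sol G w ∧ ∀ (C : Type) [CommRing C] [Algebra k C],
    (∀ a : Fin l → C, Sol B (c.map (aeval a))) ∧ Set.BijOn
      (fun x : (Fin l → C) × Mx n C => c.map (aeval x.1) * w.map (algebraMap k C) * x.2)
      {x | Sol B x.2} {g | Sol G g ∧ Sol Z1 g ∧ Ideal.span (vl g '' Z0) = ⊤}

theorem celS_of {n l : ℕ} {G B : Set (Pn k n)} {c : Mx n (MvPolynomial (Fin l) k)} {w : Mx n k}
    {Z0 Z1 : Set (Pn k n)} (hG : Grp G) (hB : G ⊆ B) (hw : Sol G w)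
    (h1 : ∀ (C : Type) [CommRing C] [Algebra k C] (a : Fin l → C), Sol B (c.map (aeval a)))
    (h2 : ∀ (C : Type) [CommRing C] [Algebra k C] (a : Fin l → C) (b : Mx n C), Sol B b →
      Sol Z1 (c.map (aeval a) * w.map (algebraMap k C) * b) ∧
        Ideal.span (vl (c.map (aeval a) * w.map (algebraMap k C) * b) '' Z0) = ⊤)
    (h3 : ∀ (C : Type) [CommRing C] [Algebra k C] (g : Mx n C), Sol G g → Sol Z1 g →
      Ideal.span (vl g '' Z0) = ⊤ →
      ∃! a : Fin l → C, Sol B ((c.map (aeval a) * w.map (algebraMap k C)).adjugate * g)) :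
    CelS G B c w Z0 Z1 := by
  refine ⟨hw, fun C _ _ => ⟨h1 C, ?_⟩⟩
  have h4 : ∀ a : Fin l → C, Sol G (c.map (aeval a) * w.map (algebraMap k C)) := fun a =>
    hG.mul ((h1 C a).mono hB) (hw.map (Algebra.ofId k C))
  have h6 : ∀ (a : Fin l → C) (b : Mx n C), Sol B b →
      Sol G (c.map (aeval a) * w.map (algebraMap k C) * b) :=
    fun a b hb => hG.mul (h4 a) (hb.mono hB)
  have h7 : ∀ (a : Fin l → C) (b : Mx n C), (c.map (aeval a) * w.map (algebraMap k C)).adjugate *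
      (c.map (aeval a) * w.map (algebraMap k C) * b) = b := fun a b => by
    rw [← Matrix.mul_assoc, adjugate_mul, hG.det (h4 a), one_smul, Matrix.one_mul]
  refine ⟨fun x hx => ⟨h6 _ _ hx, h2 C _ _ hx⟩, fun x hx y hy e => ?_, fun g hg => ?_⟩
  · have e' : c.map (aeval x.1) * w.map (algebraMap k C) * x.2 =
        c.map (aeval y.1) * w.map (algebraMap k C) * y.2 := e
    have e1 : x.1 = y.1 := (h3 C _ (h6 _ _ hx) (h2 C x.1 _ hx).1 (h2 C x.1 _ hx).2).unique
      (by rw [h7]; exact hx) (by rw [e', h7]; exact hy)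
    refine Prod.ext e1 ?_
    rw [← h7 x.1 x.2, e', e1, h7]
  · obtain ⟨a, ha, -⟩ := h3 C g hg.1 hg.2.1 hg.2.2
    refine ⟨(a, _), ha, ?_⟩
    show _ * (_ * g) = g
    rw [← Matrix.mul_assoc, mul_adjugate, hG.det (h4 a), one_smul, Matrix.one_mul]

theorem UT.mul (hg : UT g) (hh : UT h) : UT (g * h) := by
  refine ⟨fun a b e => ?_, fun a => ?_⟩
  · rw [mul_apply]
    refine Finset.sum_eq_zero fun c _ => ?_
    rcases lt_or_ge c a with h1 | h1
    · rw [hg.1 a c h1, zero_mul]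
    · rw [hh.1 c b (e.trans_le h1), mul_zero]
  · rw [mul_apply, Finset.sum_eq_single a, hg.2, hh.2, one_mul]
    · intro c _ hc
      rcases lt_or_gt_of_ne hc with h1 | h1
      · rw [hg.1 a c h1, zero_mul]
      · rw [hh.1 c a h1, mul_zero]
    · exact fun h => absurd (Finset.mem_univ a) h

theorem ut_one : UT (1 : Mx 8 C) := ⟨fun a b h => one_apply_ne h.ne', fun a => one_apply_eq a⟩

/-- a minor of two vectors -/
def mnr (i j : Fin 8) (x y : Fin 8 → C) : C := x i * y j - x j * y i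

/-- the data of two neighbouring cells -/
structure Stp (i j : Fin 8) (l : ℕ) where
  U : (C : Type) → [CommRing C] → (Fin l → C) → Mx 8 C
  W : (C : Type) → [CommRing C] → Mx 8 C
  γ : Fin 6
  σ : ℤ
  τ : ℤ
  ε : ℤ
  hσ : σ * σ = 1
  hτ : τ * τ = 1
  hε : ε * ε = 1
  ut : ∀ (C : Type) [CommRing C] (a : Fin l → C), UT (U C a) ∧ Au (U C a)
  U_map : ∀ (C C' : Type) [CommRing C] [CommRing C'] (φ : C →+* C') (a : Fin l → C),
    (U C a).map φ = U C' fun s => φ (a s)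
  au : ∀ (C : Type) [CommRing C], Au (W C)
  W_map : ∀ (C C' : Type) [CommRing C] [CommRing C'] (φ : C →+* C'), (W C).map φ = W C'
  w0 : ∀ (C : Type) [CommRing C], W C *ᵥ bv C 0 = (σ : C) • bv C i
  hA : ∀ (C : Type) [CommRing C] (x : Fin 8 → C), x 3 + x 4 = 0 → nm x = 0 →
    (∀ a, i < a → x a = 0) → x i = 1 → ∃! a, U C a *ᵥ bv C i = x
  hB : ∀ (C : Type) [CommRing C] (a : Fin l → C),
    mnr i j (U C a *ᵥ (W C *ᵥ bv C 0)) (U C a *ᵥ (W C *ᵥ bv C 1)) = 0 ∧
      mnr i j (U C a *ᵥ (W C *ᵥ bv C 0)) (U C a *ᵥ (W C *ᵥ bv C 2)) = τ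
  hC : ∀ (C : Type) [CommRing C] (t : C), rr γ t * W C = W C * r1 (ε * t)

theorem sq_unit {σ : ℤ} (h : σ * σ = 1) : (σ : C) * σ = 1 := by
  rw [← Int.cast_mul, h, Int.cast_one]

variable {i j : Fin 8} {l : ℕ} (S : Stp i j l)

theorem Stp.mau (a : Fin l → C) : Au (S.U C a * S.W C) := (S.ut C a).2.mul (S.au C)

theorem Stp.col (a : Fin l → C) (hg : Q1 g) :
    (S.U C a * S.W C * g) *ᵥ bv C 0 = (g 0 0 * S.σ) • (S.U C a *ᵥ bv C i) := by
  rw [← mulVec_mulVec, hg.col, mulVec_smul, ← mulVec_mulVec, S.w0, mulVec_smul, smul_smul]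

theorem Stp.cond (a : Fin l → C) (hg : Q1 g) : (∀ b, i < b → (S.U C a * S.W C * g) b 0 = 0) ∧
    (S.U C a * S.W C * g) i 0 = g 0 0 * S.σ := by
  refine ⟨fun b hb => ?_, ?_⟩
  · rw [← mv_bv (_ * g), S.col a hg, Pi.smul_apply, mv_bv, (S.ut C a).1.1 b i hb, smul_zero]
  · rw [← mv_bv (_ * g), S.col a hg, Pi.smul_apply, mv_bv, (S.ut C a).1.2, smul_eq_mul, mul_one]

theorem Q1.col1 (hg : Q1 g) :
    g *ᵥ bv C 1 = g 0 1 • bv C 0 + g 1 1 • bv C 1 + g 2 1 • bv C 2 := by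
  have h := hg.w3 (y := bv C 1) fun b hb => Pi.single_eq_of_ne (by omega) _
  simp only [mv_bv] at h
  have h3 := h 3 (by decide)
  have h4 := h 4 (by decide)
  have h5 := h 5 (by decide)
  have h6 := h 6 (by decide)
  have h7 := h 7 (by decide)
  funext a
  rw [mv_bv]
  fin_cases a <;> simp [h3, h4, h5, h6, h7]

/-- the minor of the first two columns -/
def mn2 (i j : Fin 8) (g : Mx 8 C) : C := g i 0 * g j 1 - g j 0 * g i 1

theorem mn2_mul (i j : Fin 8) (m : Mx 8 C) (hg : Q1 g) : mn2 i j (m * g) =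
    g 0 0 * (g 1 1 * mnr i j (m *ᵥ bv C 0) (m *ᵥ bv C 1) +
      g 2 1 * mnr i j (m *ᵥ bv C 0) (m *ᵥ bv C 2)) := by
  unfold mn2 mnr
  simp only [mul_col m g, hg.col, hg.col1, mulVec_add, mulVec_smul, Pi.add_apply, Pi.smul_apply,
    smul_eq_mul]
  ring

theorem Stp.mn (a : Fin l → C) (hg : Q1 g) :
    mn2 i j (S.U C a * S.W C * g) = g 0 0 * g 2 1 * S.τ := by
  rw [mn2_mul i j _ hg]
  simp only [← mulVec_mulVec, (S.hB C a).1, (S.hB C a).2]
  ring

theorem Stp.ex (hg : Au g) (h1 : ∀ b, i < b → g b 0 = 0) (h2 : IsUnit (g i 0)) :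
    ∃! a, Q1 ((S.U C a * S.W C).adjugate * g) := by
  obtain ⟨u, hu⟩ := h2
  have e3 := hg.tr (bv C 0)
  have e4 := hg.nm (bv C 0)
  have h3 := S.hA C ((u⁻¹ : Cˣ) • (g *ᵥ bv C 0))
    (by
      simp only [Units.smul_def, Pi.smul_apply, smul_eq_mul, ← mul_add, e3]
      simp)
    (by
      have : nm ((u⁻¹ : Cˣ) • (g *ᵥ bv C 0)) = ((u⁻¹ : Cˣ) : C) ^ 2 * nm (g *ᵥ bv C 0) := by
        simp only [nm, Units.smul_def, Pi.smul_apply, smul_eq_mul]
        ring
      rw [this, e4]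
      simp [nm])
    (fun b hb => by rw [Pi.smul_apply, mv_bv, h1 b hb, smul_zero])
    (by rw [Pi.smul_apply, mv_bv, ← hu, Units.smul_def, smul_eq_mul, Units.inv_mul])
  refine (existsUnique_congr (q := fun a => Q1 ((S.U C a * S.W C).adjugate * g))
    fun a => ⟨fun e => ⟨(S.mau a).adj.mul hg, fun b hb => ?_⟩, fun e => ?_⟩).1 h3
  · have e1 : g *ᵥ bv C 0 = (S.U C a * S.W C) *ᵥ (((u : C) * S.σ) • bv C 0) := by
      rw [mulVec_smul, ← mulVec_mulVec, S.w0, mulVec_smul, smul_smul, mul_assoc, sq_unit S.hσ,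
        mul_one, e, Units.smul_def, smul_smul, Units.mul_inv, one_smul]
    rw [mul_col, e1, (S.mau a).adj_mv, Pi.smul_apply,
      show bv C 0 b = 0 from Pi.single_eq_of_ne hb.ne' _, smul_zero]
  · have e1 := S.col a e
    have e2 := (S.cond a e).2
    rw [← Matrix.mul_assoc, (S.mau a).mul_adj, Matrix.one_mul] at e1 e2
    rw [e1, ← e2, ← hu, Units.smul_def, smul_smul, Units.inv_mul, one_smul]

theorem n1_mv (t : C) (x : Fin 8 → C) : (r1 t * sb C) *ᵥ x =
    ![x 0, -x 2 - t * x 1, x 1, x 3, x 4, x 6 - t * x 5, -x 5, x 7] := by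
  rw [← mulVec_mulVec, sb_mv, r1_mv]
  funext a
  fin_cases a <;> simp <;> ring

theorem n1_q1 (t : C) : Q1 (r1 t * sb C) := ⟨(r1_au t).mul sb_au, fun a ha => by
  rw [← mv_bv (_ * _), n1_mv]
  fin_cases a <;> first | exact absurd ha (by decide) | simp⟩

theorem n1_mul (t : C) (g : Mx 8 C) : (r1 t * sb C * g) 2 1 = g 1 1 ∧
    (r1 t * sb C * g) 1 1 = -g 2 1 - t * g 1 1 := by
  rw [mul_col, mul_col, n1_mv]
  exact ⟨mv_bv g 1 1, by simp only [cons_val_one, cons_val_zero, mv_bv]⟩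

theorem n1_ex (hg : Q1 g) (h : IsUnit (g 2 1)) : ∃! t : C, QB ((r1 t * sb C).adjugate * g) := by
  obtain ⟨v, hv⟩ := h.exists_right_inv
  have h1 : ∀ t : C, QB ((r1 t * sb C).adjugate * g) ↔ t = -(g 1 1 * v) := fun t => by
    obtain ⟨h2, h3⟩ := n1_mul t ((r1 t * sb C).adjugate * g)
    rw [← Matrix.mul_assoc, (n1_q1 t).1.mul_adj, Matrix.one_mul] at h2 h3
    constructor
    · intro e
      rw [(e.2.2 2 (by decide)).2, ← h2] at h3
      linear_combination v * h3 - t * hv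
    · intro e
      refine ((n1_q1 t).adj.mul hg).qb ?_
      rw [← h2] at h3
      linear_combination h3 - g 2 1 * e + g 1 1 * hv
  exact ⟨_, (h1 _).2 rfl, fun t ht => (h1 t).1 ht⟩

/-- vanishing of the first column below row `i` -/
def Zg (k : Type) [Field k] (i : Fin 8) : Set (Pn k 8) := {f | ∃ a, i < a ∧ f = X (a, 0)}

/-- the function that separates two neighbouring cells -/
def fm (k : Type) [Field k] (i j : Fin 8) : Pn k 8 :=
  X (i, 0) * (X (i, 0) * X (j, 1) - X (j, 0) * X (i, 1))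

/-- the equations of the smaller of two neighbouring cells -/
def Zm (k : Type) [Field k] (i j : Fin 8) : Set (Pn k 8) := insert (fm k i j) (Zg k i)

variable [Algebra k C]

theorem sZg (g : Mx 8 C) : Sol (Zg k i) g ↔ ∀ a, i < a → g a 0 = 0 :=
  ⟨fun h a ha => (vl_X g a 0).symm.trans (h _ ⟨a, ha, rfl⟩), by
    rintro h _ ⟨a, ha, rfl⟩
    rw [vl_X]
    exact h a ha⟩

theorem vl_fm (g : Mx 8 C) : vl g (fm k i j) = g i 0 * mn2 i j g := by
  simp only [fm, vl_mul, vl_sub, vl_X, mn2]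

theorem sZm (g : Mx 8 C) :
    Sol (Zm k i j) g ↔ g i 0 * mn2 i j g = 0 ∧ ∀ a, i < a → g a 0 = 0 := by
  rw [← sZg (k := k), ← vl_fm (k := k)]
  exact Set.forall_mem_insert

theorem span_Zm (h : ∀ a, i < a → g a 0 = 0) :
    Ideal.span (vl g '' Zm k i j) = ⊤ ↔ IsUnit (g i 0 * mn2 i j g) := by
  rw [← vl_fm (k := k)]
  exact span_top_iff (Set.mem_insert _ _) fun z hz => hz.imp_right fun e => (sZg g).2 h z e

/-- the chart of the smaller cell -/
def Stp.c0 (k : Type) [Field k] : Mx 8 (MvPolynomial (Fin l) k) := S.U _ X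

/-- the chart of the larger cell -/
def Stp.c1 (k : Type) [Field k] : Mx 8 (MvPolynomial (Fin (l + 1)) k) :=
  S.U _ (fun s => X s.castSucc) * rr S.γ (X (Fin.last l))

theorem Stp.c0_map (a : Fin l → C) : (S.c0 k).map (aeval a) = S.U C a := by
  have := S.U_map _ C ((aeval a : MvPolynomial (Fin l) k →ₐ[k] C) :
    MvPolynomial (Fin l) k →+* C) X
  simp only [RingHom.coe_coe, aeval_X] at this
  exact this

theorem Stp.c1_map (a : Fin (l + 1) → C) : (S.c1 k).map (aeval a) =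
    S.U C (fun s => a s.castSucc) * rr S.γ (a (Fin.last l)) := by
  let φ : MvPolynomial (Fin (l + 1)) k →+* C := (aeval a : MvPolynomial (Fin (l + 1)) k →ₐ[k] C)
  have h1 := S.U_map _ C φ fun s => X s.castSucc
  have h2 := rr_map φ S.γ (X (Fin.last l))
  have h3 := Matrix.map_mul (L := S.U _ fun s => X s.castSucc) (M := rr S.γ (X (Fin.last l)))
    (f := φ)
  rw [h1, h2] at h3
  simp only [φ, RingHom.coe_coe, aeval_X] at h3
  exact h3

theorem eG_sub (s : Bool) : eG k ⊆ eP k s := Set.subset_union_left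

theorem eP_sub (s : Bool) : eP k s ⊆ eP k false ∪ eP k true := by
  cases s
  exacts [Set.subset_union_left, Set.subset_union_right]

theorem Stp.uqb (a : Fin l → C) : QB (S.U C a) := qb_of_ut (S.ut C a).2 (S.ut C a).1.1

theorem Stp.cel0 {Z0 : Set (Pn k 8)}
    (hZ : ∀ (C : Type) [CommRing C] [Algebra k C] (g : Mx 8 C), Au g → (∀ a, i < a → g a 0 = 0) →
      (Ideal.span (vl g '' Z0) = ⊤ ↔ IsUnit (g i 0))) :
    CelS (eG k) (eP k false ∪ eP k true) (S.c0 k) (S.W k) Z0 (Zm k i j) := by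
  refine celS_of g2_grp.1 ((eG_sub false).trans (eP_sub false)) ((sG _).2 (S.au k))
    (fun C _ _ a => ?_) (fun C _ _ a b hb => ?_) fun C _ _ g hg h1 h2 => ?_
  · rw [S.c0_map, sB]
    exact S.uqb a
  · rw [sB] at hb
    rw [S.c0_map, S.W_map, sZm, hZ C _ ((S.mau a).mul hb.au) (S.cond a hb.1).1, (S.cond a hb.1).2,
      S.mn a hb.1, (hb.2.2 2 (by decide)).2]
    exact ⟨⟨by ring, (S.cond a hb.1).1⟩,
      hb.1.unit.mul (IsUnit.of_mul_eq_one _ (sq_unit S.hσ))⟩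
  · rw [sG] at hg
    rw [sZm] at h1
    rw [hZ C g hg h1.2] at h2
    refine (existsUnique_congr fun a => ?_).1 (S.ex hg h1.2 h2)
    rw [S.c0_map, S.W_map, sB]
    refine ⟨fun e => e.qb ?_, fun e => e.1⟩
    have e1 := S.mn a e
    rw [← Matrix.mul_assoc, (S.mau a).mul_adj, Matrix.one_mul, h2.mul_right_eq_zero.1 h1.1] at e1
    exact e.unit.mul_right_eq_zero.1
      ((IsUnit.of_mul_eq_one _ (sq_unit S.hτ)).mul_left_eq_zero.1 e1.symm)

theorem Stp.cw (a : Fin (l + 1) → C) :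
    (S.c1 k).map (aeval a) * (S.W k * sb k).map (algebraMap k C) =
      S.U C (fun s => a s.castSucc) * S.W C * (r1 (S.ε * a (Fin.last l)) * sb C) := by
  rw [S.c1_map, Matrix.map_mul, S.W_map, sb_map, Matrix.mul_assoc, ← Matrix.mul_assoc (rr _ _),
    S.hC]
  simp only [Matrix.mul_assoc]

theorem Stp.cel1 {Z2 : Set (Pn k 8)}
    (hZ : ∀ (C : Type) [CommRing C] [Algebra k C] (g : Mx 8 C),
      Sol Z2 g ↔ ∀ a, i < a → g a 0 = 0) :
    CelS (eG k) (eP k false ∪ eP k true) (S.c1 k) (S.W k * sb k) (Zm k i j) Z2 := by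
  refine celS_of g2_grp.1 ((eG_sub false).trans (eP_sub false)) ((sG _).2 ((S.au k).mul sb_au))
    (fun C _ _ a => ?_) (fun C _ _ a b hb => ?_) fun C _ _ g hg h1 h2 => ?_
  · rw [S.c1_map, sB]
    exact (S.uqb _).mul (rr_qb _ _)
  · rw [sB] at hb
    have h3 := (n1_q1 (S.ε * a (Fin.last l))).mul hb.1
    rw [S.cw, Matrix.mul_assoc _ _ b, hZ, span_Zm (S.cond _ h3).1, (S.cond _ h3).2, S.mn _ h3,
      (n1_mul _ b).1]
    exact ⟨(S.cond _ h3).1, (h3.unit.mul (IsUnit.of_mul_eq_one _ (sq_unit S.hσ))).mul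
      ((h3.unit.mul hb.unit1).mul (IsUnit.of_mul_eq_one _ (sq_unit S.hτ)))⟩
  · rw [sG] at hg
    rw [hZ] at h1
    rw [span_Zm h1, IsUnit.mul_iff] at h2
    obtain ⟨a, ha, hu⟩ := S.ex hg h1 h2.1
    have e1 := S.mn a ha
    rw [← Matrix.mul_assoc, (S.mau a).mul_adj, Matrix.one_mul] at e1
    obtain ⟨t, ht, hu'⟩ := n1_ex ha (IsUnit.mul_iff.1 (IsUnit.mul_iff.1 (e1 ▸ h2.2)).1).2
    refine ⟨Fin.snoc a (S.ε * t), ?_, fun y hy => ?_⟩
    · show Sol _ _
      rw [S.cw, sB, adjugate_mul_distrib, Matrix.mul_assoc]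
      simp only [Fin.snoc_castSucc, Fin.snoc_last, ← mul_assoc (S.ε : C), sq_unit S.hε, one_mul]
      exact ht
    · replace hy : Sol _ _ := hy
      rw [S.cw, sB, adjugate_mul_distrib, Matrix.mul_assoc] at hy
      have h4 := (n1_q1 (S.ε * y (Fin.last l))).mul hy.1
      rw [← Matrix.mul_assoc, (n1_q1 _).1.mul_adj, Matrix.one_mul] at h4
      have h5 := hu _ h4
      rw [h5] at hy
      rw [← hu' _ hy, ← h5, ← mul_assoc, sq_unit S.hε, one_mul]
      exact (Fin.snoc_init_self y).symm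

end Pool.Agent.P.MP_1bf4cb_ag.RG
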