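import Pool.Agent.P.MP_1bf4cb_ag.TD

set_option autoImplicit false
set_option maxHeartbeats 1600000
set_option linter.unusedSectionVars false
set_option linter.unusedVariables false
set_option linter.unusedSimpArgs false

open Function Matrix MvPolynomial

noncomputable section

namespace Pool.Agent.P.MP_1bf4cb_ag.RG

variable {C : Type} [CommRing C]

theorem vec8 {x y : Fin 8 → C} (h0 : x 0 = y 0) (h1 : x 1 = y 1) (h2 : x 2 = y 2) (h3 : x 3 = y 3)
    (h4 : x 4 = y 4) (h5 : x 5 = y 5) (h6 : x 6 = y 6) (h7 : x 7 = y 7) : x = y := by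
  funext l
  fin_cases l
  exacts [h0, h1, h2, h3, h4, h5, h6, h7]

/-- a pair of cells -/
def st0 : Stp 0 2 0 where
  U := fun C _ a => 1
  W := fun C _ => 1
  γ := 1
  σ := 1
  τ := 1
  ε := 1
  hσ := rfl
  hτ := rfl
  hε := rfl
  ut := fun C _ a => ⟨ut_one,
    au_one⟩
  U_map := fun C C' _ _ φ a => Matrix.map_one _ (map_zero φ) (map_one φ)
  au := fun C _ => au_one
  W_map := fun C C' _ _ φ => Matrix.map_one _ (map_zero φ) (map_one φ)
  w0 := fun C _ => by
    simp only [← mulVec_mulVec, one_mulVec, sa_mv, sb_mv, r0_mv, r1_mv, r2_mv, r3_mv, r4_mv, r5_mv]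
    refine vec8 ?_ ?_ ?_ ?_ ?_ ?_ ?_ ?_ <;> simp
  hA := fun C _ x h1 h2 h3 h4 => by
    refine ⟨![], ?_, fun a _ => Subsingleton.elim _ _⟩
    show (1 : Mx 8 C) *ᵥ _ = _
    rw [one_mulVec]
    exact vec8 h4.symm (h3 1 (by decide)).symm (h3 2 (by decide)).symm (h3 3 (by decide)).symm
      (h3 4 (by decide)).symm (h3 5 (by decide)).symm (h3 6 (by decide)).symm
      (h3 7 (by decide)).symm
  hB := fun C _ a => by
    simp only [← mulVec_mulVec, one_mulVec, sa_mv, sb_mv, r0_mv, r1_mv, r2_mv, r3_mv, r4_mv, r5_mv]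
    constructor <;> simp [mnr]
  hC := fun C _ t => by
    refine mx_ext fun j => ?_
    generalize bv C j = x
    show (r1 t * _) *ᵥ x = _
    simp only [← mulVec_mulVec, one_mulVec, sa_mv, sb_mv, r0_mv, r1_mv, r2_mv, r3_mv, r4_mv, r5_mv]
    refine vec8 ?_ ?_ ?_ ?_ ?_ ?_ ?_ ?_ <;> simp <;> ring

/-- a pair of cells -/
def st1 : Stp 1 5 1 where
  U := fun C _ a => r0 (a 0)
  W := fun C _ => sa C
  γ := 4
  σ := 1
  τ := 1
  ε := -1
  hσ := rfl
  hτ := rfl
  hε := rfl
  ut := fun C _ a => ⟨r0_ut _,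
    r0_au _⟩
  U_map := fun C C' _ _ φ a => by
    simp only [Matrix.map_mul, r0_map, r1_map, r2_map, r3_map, r4_map, r5_map]
  au := fun C _ => sa_au
  W_map := fun C C' _ _ φ => by simp only [Matrix.map_mul, sa_map, sb_map]
  w0 := fun C _ => by
    simp only [← mulVec_mulVec, one_mulVec, sa_mv, sb_mv, r0_mv, r1_mv, r2_mv, r3_mv, r4_mv, r5_mv]
    refine vec8 ?_ ?_ ?_ ?_ ?_ ?_ ?_ ?_ <;> simp
  hA := fun C _ x h1 h2 h3 h4 => by
    have e : ∀ a : Fin 1 → C, (r0 (a 0)) *ᵥ bv C 1 = ![-a 0, 1, 0, 0, 0, 0, 0, 0] := fun a => by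
      simp only [← mulVec_mulVec, one_mulVec, sa_mv, sb_mv, r0_mv, r1_mv, r2_mv, r3_mv, r4_mv, r5_mv]
      refine vec8 ?_ ?_ ?_ ?_ ?_ ?_ ?_ ?_ <;> simp <;> ring
    have z2 := h3 2 (by decide)
    have z3 := h3 3 (by decide)
    have z4 := h3 4 (by decide)
    have z5 := h3 5 (by decide)
    have z6 := h3 6 (by decide)
    have z7 := h3 7 (by decide)
    unfold nm at h2
    refine ⟨![-x 0], (e _).trans (vec8 ?_ ?_ ?_ ?_ ?_ ?_ ?_ ?_), fun a ha => ?_⟩
    · simp only [cons_val_zero, cons_val_one, cons_val] <;> ring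
    · simp only [cons_val_zero, cons_val_one, cons_val] <;> linear_combination -h4
    · simp only [cons_val_zero, cons_val_one, cons_val] <;> linear_combination -z2
    · simp only [cons_val_zero, cons_val_one, cons_val] <;> linear_combination -z3
    · simp only [cons_val_zero, cons_val_one, cons_val] <;> linear_combination -z4
    · simp only [cons_val_zero, cons_val_one, cons_val] <;> linear_combination -z5
    · simp only [cons_val_zero, cons_val_one, cons_val] <;> linear_combination -z6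
    · simp only [cons_val_zero, cons_val_one, cons_val] <;> linear_combination -z7
    · have hb := (e a).symm.trans ha
      have y0 := congrFun hb 0
      have y1 := congrFun hb 1
      have y2 := congrFun hb 2
      have y3 := congrFun hb 3
      have y4 := congrFun hb 4
      have y5 := congrFun hb 5
      have y6 := congrFun hb 6
      have y7 := congrFun hb 7
      simp only [cons_val_zero, cons_val_one, cons_val] at y0 y1 y2 y3 y4 y5 y6 y7
      funext s
      fin_cases s <;> simp only [cons_val_zero, cons_val_one, cons_val, Fin.zero_eta, Fin.mk_one,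
        Fin.reduceFinMk]
      · linear_combination -y0
  hB := fun C _ a => by
    simp only [← mulVec_mulVec, one_mulVec, sa_mv, sb_mv, r0_mv, r1_mv, r2_mv, r3_mv, r4_mv, r5_mv]
    constructor <;> simp [mnr]
  hC := fun C _ t => by
    refine mx_ext fun j => ?_
    generalize bv C j = x
    show (r4 t * _) *ᵥ x = _
    simp only [← mulVec_mulVec, one_mulVec, sa_mv, sb_mv, r0_mv, r1_mv, r2_mv, r3_mv, r4_mv, r5_mv]
    refine vec8 ?_ ?_ ?_ ?_ ?_ ?_ ?_ ?_ <;> simp <;> ring

/-- a pair of cells -/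
def st2 : Stp 2 6 2 where
  U := fun C _ a => r2 (a 1) * r1 (a 0)
  W := fun C _ => sb C * sa C
  γ := 5
  σ := 1
  τ := -1
  ε := 1
  hσ := rfl
  hτ := rfl
  hε := rfl
  ut := fun C _ a => ⟨(r2_ut _).mul (r1_ut _),
    (r2_au _).mul (r1_au _)⟩
  U_map := fun C C' _ _ φ a => by
    simp only [Matrix.map_mul, r0_map, r1_map, r2_map, r3_map, r4_map, r5_map]
  au := fun C _ => (sb_au).mul (sa_au)
  W_map := fun C C' _ _ φ => by simp only [Matrix.map_mul, sa_map, sb_map]
  w0 := fun C _ => by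
    simp only [← mulVec_mulVec, one_mulVec, sa_mv, sb_mv, r0_mv, r1_mv, r2_mv, r3_mv, r4_mv, r5_mv]
    refine vec8 ?_ ?_ ?_ ?_ ?_ ?_ ?_ ?_ <;> simp
  hA := fun C _ x h1 h2 h3 h4 => by
    have e : ∀ a : Fin 2 → C, (r2 (a 1) * r1 (a 0)) *ᵥ bv C 2 = ![a 1, -a 0, 1, 0, 0, 0, 0, 0] := fun a => by
      simp only [← mulVec_mulVec, one_mulVec, sa_mv, sb_mv, r0_mv, r1_mv, r2_mv, r3_mv, r4_mv, r5_mv]
      refine vec8 ?_ ?_ ?_ ?_ ?_ ?_ ?_ ?_ <;> simp <;> ring
    have z3 := h3 3 (by decide)
    have z4 := h3 4 (by decide)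
    have z5 := h3 5 (by decide)
    have z6 := h3 6 (by decide)
    have z7 := h3 7 (by decide)
    unfold nm at h2
    refine ⟨![-x 1, x 0], (e _).trans (vec8 ?_ ?_ ?_ ?_ ?_ ?_ ?_ ?_), fun a ha => ?_⟩
    · simp only [cons_val_zero, cons_val_one, cons_val] <;> ring
    · simp only [cons_val_zero, cons_val_one, cons_val] <;> ring
    · simp only [cons_val_zero, cons_val_one, cons_val] <;> linear_combination -h4
    · simp only [cons_val_zero, cons_val_one, cons_val] <;> linear_combination -z3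
    · simp only [cons_val_zero, cons_val_one, cons_val] <;> linear_combination -z4
    · simp only [cons_val_zero, cons_val_one, cons_val] <;> linear_combination -z5
    · simp only [cons_val_zero, cons_val_one, cons_val] <;> linear_combination -z6
    · simp only [cons_val_zero, cons_val_one, cons_val] <;> linear_combination -z7
    · have hb := (e a).symm.trans ha
      have y0 := congrFun hb 0
      have y1 := congrFun hb 1
      have y2 := congrFun hb 2
      have y3 := congrFun hb 3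
      have y4 := congrFun hb 4
      have y5 := congrFun hb 5
      have y6 := congrFun hb 6
      have y7 := congrFun hb 7
      simp only [cons_val_zero, cons_val_one, cons_val] at y0 y1 y2 y3 y4 y5 y6 y7
      funext s
      fin_cases s <;> simp only [cons_val_zero, cons_val_one, cons_val, Fin.zero_eta, Fin.mk_one,
        Fin.reduceFinMk]
      · linear_combination -y1
      · linear_combination y0
  hB := fun C _ a => by
    simp only [← mulVec_mulVec, one_mulVec, sa_mv, sb_mv, r0_mv, r1_mv, r2_mv, r3_mv, r4_mv, r5_mv]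
    constructor <;> simp [mnr]
  hC := fun C _ t => by
    refine mx_ext fun j => ?_
    generalize bv C j = x
    show (r5 t * _) *ᵥ x = _
    simp only [← mulVec_mulVec, one_mulVec, sa_mv, sb_mv, r0_mv, r1_mv, r2_mv, r3_mv, r4_mv, r5_mv]
    refine vec8 ?_ ?_ ?_ ?_ ?_ ?_ ?_ ?_ <;> simp <;> ring

/-- a pair of cells -/
def st5 : Stp 5 7 3 where
  U := fun C _ a => r4 (a 2) * r3 (a 1) * r0 (a 0)
  W := fun C _ => sa C * sb C * sa C
  γ := 5
  σ := 1
  τ := -1
  ε := -1
  hσ := rfl
  hτ := rfl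
  hε := rfl
  ut := fun C _ a => ⟨((r4_ut _).mul (r3_ut _)).mul (r0_ut _),
    ((r4_au _).mul (r3_au _)).mul (r0_au _)⟩
  U_map := fun C C' _ _ φ a => by
    simp only [Matrix.map_mul, r0_map, r1_map, r2_map, r3_map, r4_map, r5_map]
  au := fun C _ => ((sa_au).mul (sb_au)).mul (sa_au)
  W_map := fun C C' _ _ φ => by simp only [Matrix.map_mul, sa_map, sb_map]
  w0 := fun C _ => by
    simp only [← mulVec_mulVec, one_mulVec, sa_mv, sb_mv, r0_mv, r1_mv, r2_mv, r3_mv, r4_mv, r5_mv]
    refine vec8 ?_ ?_ ?_ ?_ ?_ ?_ ?_ ?_ <;> simp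
  hA := fun C _ x h1 h2 h3 h4 => by
    have e : ∀ a : Fin 3 → C, (r4 (a 2) * r3 (a 1) * r0 (a 0)) *ᵥ bv C 5 = ![2 * a 0 * a 1 + a 2, a 1, -a 0 ^ 2, a 0, -a 0, 1, 0, 0] := fun a => by
      simp only [← mulVec_mulVec, one_mulVec, sa_mv, sb_mv, r0_mv, r1_mv, r2_mv, r3_mv, r4_mv, r5_mv]
      refine vec8 ?_ ?_ ?_ ?_ ?_ ?_ ?_ ?_ <;> simp <;> ring
    have z6 := h3 6 (by decide)
    have z7 := h3 7 (by decide)
    unfold nm at h2
    refine ⟨![x 3, x 1, x 0 - 2 * x 3 * x 1], (e _).trans (vec8 ?_ ?_ ?_ ?_ ?_ ?_ ?_ ?_), fun a ha => ?_⟩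
    · simp only [cons_val_zero, cons_val_one, cons_val] <;> ring
    · simp only [cons_val_zero, cons_val_one, cons_val] <;> ring
    · simp only [cons_val_zero, cons_val_one, cons_val] <;> linear_combination h2 - x 3 * h1 + x 0 * z7 + x 1 * z6 + x 2 * h4
    · simp only [cons_val_zero, cons_val_one, cons_val] <;> ring
    · simp only [cons_val_zero, cons_val_one, cons_val] <;> linear_combination -h1
    · simp only [cons_val_zero, cons_val_one, cons_val] <;> linear_combination -h4
    · simp only [cons_val_zero, cons_val_one, cons_val] <;> linear_combination -z6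
    · simp only [cons_val_zero, cons_val_one, cons_val] <;> linear_combination -z7
    · have hb := (e a).symm.trans ha
      have y0 := congrFun hb 0
      have y1 := congrFun hb 1
      have y2 := congrFun hb 2
      have y3 := congrFun hb 3
      have y4 := congrFun hb 4
      have y5 := congrFun hb 5
      have y6 := congrFun hb 6
      have y7 := congrFun hb 7
      simp only [cons_val_zero, cons_val_one, cons_val] at y0 y1 y2 y3 y4 y5 y6 y7
      funext s
      fin_cases s <;> simp only [cons_val_zero, cons_val_one, cons_val, Fin.zero_eta, Fin.mk_one,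
        Fin.reduceFinMk]
      · linear_combination y3
      · linear_combination y1
      · linear_combination y0 - 2 * a 1 * y3 - 2 * x 3 * y1
  hB := fun C _ a => by
    simp only [← mulVec_mulVec, one_mulVec, sa_mv, sb_mv, r0_mv, r1_mv, r2_mv, r3_mv, r4_mv, r5_mv]
    constructor <;> simp [mnr]
  hC := fun C _ t => by
    refine mx_ext fun j => ?_
    generalize bv C j = x
    show (r5 t * _) *ᵥ x = _
    simp only [← mulVec_mulVec, one_mulVec, sa_mv, sb_mv, r0_mv, r1_mv, r2_mv, r3_mv, r4_mv, r5_mv]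
    refine vec8 ?_ ?_ ?_ ?_ ?_ ?_ ?_ ?_ <;> simp <;> ring

/-- a pair of cells -/
def st6 : Stp 6 7 4 where
  U := fun C _ a => r5 (a 3) * r3 (a 2) * r2 (a 1) * r1 (a 0)
  W := fun C _ => sb C * sa C * sb C * sa C
  γ := 4
  σ := -1
  τ := 1
  ε := -1
  hσ := rfl
  hτ := rfl
  hε := rfl
  ut := fun C _ a => ⟨(((r5_ut _).mul (r3_ut _)).mul (r2_ut _)).mul (r1_ut _),
    (((r5_au _).mul (r3_au _)).mul (r2_au _)).mul (r1_au _)⟩
  U_map := fun C C' _ _ φ a => by
    simp only [Matrix.map_mul, r0_map, r1_map, r2_map, r3_map, r4_map, r5_map]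
  au := fun C _ => (((sb_au).mul (sa_au)).mul (sb_au)).mul (sa_au)
  W_map := fun C C' _ _ φ => by simp only [Matrix.map_mul, sa_map, sb_map]
  w0 := fun C _ => by
    simp only [← mulVec_mulVec, one_mulVec, sa_mv, sb_mv, r0_mv, r1_mv, r2_mv, r3_mv, r4_mv, r5_mv]
    refine vec8 ?_ ?_ ?_ ?_ ?_ ?_ ?_ ?_ <;> simp
  hA := fun C _ x h1 h2 h3 h4 => by
    have e : ∀ a : Fin 4 → C, (r5 (a 3) * r3 (a 2) * r2 (a 1) * r1 (a 0)) *ᵥ bv C 6 = ![2 * a 1 * a 2 + a 3, -a 1 ^ 2 + a 0 * a 2, -a 2, a 1, -a 1, a 0, 1, 0] := fun a => by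
      simp only [← mulVec_mulVec, one_mulVec, sa_mv, sb_mv, r0_mv, r1_mv, r2_mv, r3_mv, r4_mv, r5_mv]
      refine vec8 ?_ ?_ ?_ ?_ ?_ ?_ ?_ ?_ <;> simp <;> ring
    have z7 := h3 7 (by decide)
    unfold nm at h2
    refine ⟨![x 5, x 3, -x 2, x 0 + 2 * x 3 * x 2], (e _).trans (vec8 ?_ ?_ ?_ ?_ ?_ ?_ ?_ ?_), fun a ha => ?_⟩
    · simp only [cons_val_zero, cons_val_one, cons_val] <;> ring
    · simp only [cons_val_zero, cons_val_one, cons_val] <;> linear_combination h2 - x 3 * h1 + x 0 * z7 + x 1 * h4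
    · simp only [cons_val_zero, cons_val_one, cons_val] <;> ring
    · simp only [cons_val_zero, cons_val_one, cons_val] <;> ring
    · simp only [cons_val_zero, cons_val_one, cons_val] <;> linear_combination -h1
    · simp only [cons_val_zero, cons_val_one, cons_val] <;> ring
    · simp only [cons_val_zero, cons_val_one, cons_val] <;> linear_combination -h4
    · simp only [cons_val_zero, cons_val_one, cons_val] <;> linear_combination -z7
    · have hb := (e a).symm.trans ha
      have y0 := congrFun hb 0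
      have y1 := congrFun hb 1
      have y2 := congrFun hb 2
      have y3 := congrFun hb 3
      have y4 := congrFun hb 4
      have y5 := congrFun hb 5
      have y6 := congrFun hb 6
      have y7 := congrFun hb 7
      simp only [cons_val_zero, cons_val_one, cons_val] at y0 y1 y2 y3 y4 y5 y6 y7
      funext s
      fin_cases s <;> simp only [cons_val_zero, cons_val_one, cons_val, Fin.zero_eta, Fin.mk_one,
        Fin.reduceFinMk]
      · linear_combination y5
      · linear_combination y3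
      · linear_combination -y2
      · linear_combination y0 - 2 * a 2 * y3 + 2 * x 3 * y2
  hB := fun C _ a => by
    simp only [← mulVec_mulVec, one_mulVec, sa_mv, sb_mv, r0_mv, r1_mv, r2_mv, r3_mv, r4_mv, r5_mv]
    constructor <;> simp [mnr]
  hC := fun C _ t => by
    refine mx_ext fun j => ?_
    generalize bv C j = x
    show (r4 t * _) *ᵥ x = _
    simp only [← mulVec_mulVec, one_mulVec, sa_mv, sb_mv, r0_mv, r1_mv, r2_mv, r3_mv, r4_mv, r5_mv]
    refine vec8 ?_ ?_ ?_ ?_ ?_ ?_ ?_ ?_ <;> simp <;> ring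

/-- a pair of cells -/
def st7 : Stp 7 6 5 where
  U := fun C _ a => r5 (a 4) * r4 (a 3) * r3 (a 2) * r2 (a 1) * r0 (a 0)
  W := fun C _ => sa C * sb C * sa C * sb C * sa C
  γ := 1
  σ := -1
  τ := 1
  ε := 1
  hσ := rfl
  hτ := rfl
  hε := rfl
  ut := fun C _ a => ⟨((((r5_ut _).mul (r4_ut _)).mul (r3_ut _)).mul (r2_ut _)).mul (r0_ut _),
    ((((r5_au _).mul (r4_au _)).mul (r3_au _)).mul (r2_au _)).mul (r0_au _)⟩
  U_map := fun C C' _ _ φ a => by
    simp only [Matrix.map_mul, r0_map, r1_map, r2_map, r3_map, r4_map, r5_map]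
  au := fun C _ => ((((sa_au).mul (sb_au)).mul (sa_au)).mul (sb_au)).mul (sa_au)
  W_map := fun C C' _ _ φ => by simp only [Matrix.map_mul, sa_map, sb_map]
  w0 := fun C _ => by
    simp only [← mulVec_mulVec, one_mulVec, sa_mv, sb_mv, r0_mv, r1_mv, r2_mv, r3_mv, r4_mv, r5_mv]
    refine vec8 ?_ ?_ ?_ ?_ ?_ ?_ ?_ ?_ <;> simp
  hA := fun C _ x h1 h2 h3 h4 => by
    have e : ∀ a : Fin 5 → C, (r5 (a 4) * r4 (a 3) * r3 (a 2) * r2 (a 1) * r0 (a 0)) *ᵥ bv C 7 = ![2 * a 0 * a 1 * a 2 - a 2 ^ 2 - a 1 * a 3 + a 0 * a 4, -a 1 ^ 2 * a 0 - a 1 * a 2 - a 4, -a 0 * a 2 - a 3, a 0 * a 1 - a 2, a 2 - a 0 * a 1, -a 1, a 0, 1] := fun a => by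
      simp only [← mulVec_mulVec, one_mulVec, sa_mv, sb_mv, r0_mv, r1_mv, r2_mv, r3_mv, r4_mv, r5_mv]
      refine vec8 ?_ ?_ ?_ ?_ ?_ ?_ ?_ ?_ <;> simp <;> ring
    unfold nm at h2
    refine ⟨![x 6, -x 5, -x 5 * x 6 - x 3, -x 2 + x 6 * (x 5 * x 6 + x 3), -x 1 - 2 * x 5 ^ 2 * x 6 - x 5 * x 3], (e _).trans (vec8 ?_ ?_ ?_ ?_ ?_ ?_ ?_ ?_), fun a ha => ?_⟩
    · simp only [cons_val_zero, cons_val_one, cons_val] <;> linear_combination h2 - x 3 * h1 + x 0 * h4
    · simp only [cons_val_zero, cons_val_one, cons_val] <;> ring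
    · simp only [cons_val_zero, cons_val_one, cons_val] <;> ring
    · simp only [cons_val_zero, cons_val_one, cons_val] <;> ring
    · simp only [cons_val_zero, cons_val_one, cons_val] <;> linear_combination -h1
    · simp only [cons_val_zero, cons_val_one, cons_val] <;> ring
    · simp only [cons_val_zero, cons_val_one, cons_val] <;> ring
    · simp only [cons_val_zero, cons_val_one, cons_val] <;> linear_combination -h4
    · have hb := (e a).symm.trans ha
      have y0 := congrFun hb 0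
      have y1 := congrFun hb 1
      have y2 := congrFun hb 2
      have y3 := congrFun hb 3
      have y4 := congrFun hb 4
      have y5 := congrFun hb 5
      have y6 := congrFun hb 6
      have y7 := congrFun hb 7
      simp only [cons_val_zero, cons_val_one, cons_val] at y0 y1 y2 y3 y4 y5 y6 y7
      funext s
      fin_cases s <;> simp only [cons_val_zero, cons_val_one, cons_val, Fin.zero_eta, Fin.mk_one,
        Fin.reduceFinMk]
      · rw [← y6]
      · rw [← y5]; ring
      · rw [← y5, ← y6, ← y3]; ring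
      · rw [← y5, ← y6, ← y3, ← y2]; ring
      · rw [← y5, ← y6, ← y3, ← y1]; ring
  hB := fun C _ a => by
    simp only [← mulVec_mulVec, one_mulVec, sa_mv, sb_mv, r0_mv, r1_mv, r2_mv, r3_mv, r4_mv, r5_mv]
    constructor <;> simp [mnr]
  hC := fun C _ t => by
    refine mx_ext fun j => ?_
    generalize bv C j = x
    show (r1 t * _) *ᵥ x = _
    simp only [← mulVec_mulVec, one_mulVec, sa_mv, sb_mv, r0_mv, r1_mv, r2_mv, r3_mv, r4_mv, r5_mv]
    refine vec8 ?_ ?_ ?_ ?_ ?_ ?_ ?_ ?_ <;> simp <;> ring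

end Pool.Agent.P.MP_1bf4cb_ag.RG
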