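import Pool.Agent.P.MP_1bf4cb_ag.TD

set_option autoImplicit false
set_option maxHeartbeats 800000
set_option linter.unusedSectionVars false
set_option linter.unusedVariables false
set_option linter.unusedSimpArgs false

open Function Matrix MvPolynomial

noncomputable section

namespace Pool.Agent.P.MP_1bf4cb_ag.RG

variable {k : Type} [Field k] {n r : ℕ} {C C' : Type} [CommRing C] [Algebra k C] [CommRing C']
  [Algebra k C']

theorem fp_quot (S : Set (Pn k n)) : Algebra.FinitePresentation k (Pn k n ⧸ Ideal.span S) :=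
  Algebra.FinitePresentation.quotient (IsNoetherian.noetherian _)

theorem vl_gen (f : Pn k n) : vl (mvPolynomialX (Fin n) (Fin n) k) f = f :=
  MvPolynomial.aeval_X_left_apply f

theorem sol_of_hom {S : Set (Pn k n)} (ψ : (Pn k n ⧸ Ideal.span S) →ₐ[k] C) :
    Sol S ((mvPolynomialX (Fin n) (Fin n) k).map (ψ.comp (Ideal.Quotient.mkₐ k _))) := fun t ht => by
  rw [vl_map, vl_gen]
  show ψ (Ideal.Quotient.mk _ t) = 0
  rw [Ideal.Quotient.eq_zero_iff_mem.2 (Ideal.subset_span ht), map_zero]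

theorem smooth_of_cover {S : Set (Pn k n)} (T : Set (Pn k n))
    (h1 : ∀ (K : Type) [Field K] [Algebra k K] (g : Mx n K), Sol S g → ∃ f ∈ T, vl g f ≠ 0)
    (h2 : ∀ f ∈ T, ∀ (C : Type) [CommRing C] [Algebra k C] (I : Ideal C), I ^ 2 = ⊥ →
      ∀ g : Mx n (C ⧸ I), Sol S g → IsUnit (vl g f) →
      ∃ g' : Mx n C, Sol S g' ∧ g'.map (Ideal.Quotient.mkₐ k I) = g) :
    Algebra.Smooth k (Pn k n ⧸ Ideal.span S) := by
  have := fp_quot S
  refine ⟨Algebra.smoothLocus_eq_univ_iff.1 (Set.eq_univ_of_forall fun p => ?_), this⟩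
  let ψ0 : (Pn k n ⧸ Ideal.span S) →ₐ[k] p.asIdeal.ResidueField :=
    IsScalarTower.toAlgHom k _ _
  obtain ⟨f, hf, h3⟩ := h1 _ _ (sol_of_hom ψ0)
  rw [vl_map, vl_gen] at h3
  have hp : p ∈ PrimeSpectrum.basicOpen (Ideal.Quotient.mk (Ideal.span S) f) := fun e =>
    h3 (Ideal.algebraMap_residueField_eq_zero.2 e)
  refine Algebra.basicOpen_subset_smoothLocus_iff.2 ?_ hp
  refine Algebra.FormallySmooth.of_comp_surjective fun B _ _ I hI ψ => ?_
  let ι : (Pn k n ⧸ Ideal.span S) →ₐ[k] Localization.Away (Ideal.Quotient.mk (Ideal.span S) f) :=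
    IsScalarTower.toAlgHom k _ _
  have h4 : IsUnit (vl ((mvPolynomialX (Fin n) (Fin n) k).map
      ((ψ.comp ι).comp (Ideal.Quotient.mkₐ k _))) f) := by
    rw [vl_map, vl_gen]
    exact (IsLocalization.Away.algebraMap_isUnit (Ideal.Quotient.mk (Ideal.span S) f)).map ψ
  obtain ⟨g', h5, h6⟩ := h2 f hf B I hI _ (sol_of_hom (ψ.comp ι)) h4
  have hk0 : Ideal.span S ≤
      RingHom.ker (aeval (fun ab => g' ab.1 ab.2) : Pn k n →ₐ[k] B) :=
    Ideal.span_le.2 fun t ht => h5 t ht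
  let φ : (Pn k n ⧸ Ideal.span S) →ₐ[k] B := Ideal.Quotient.liftₐ _ _ fun a ha => hk0 ha
  have h7 : (Ideal.Quotient.mkₐ k I).comp φ = ψ.comp ι := by
    refine Ideal.Quotient.algHom_ext k (MvPolynomial.algHom_ext fun v => ?_)
    have := congrFun (congrFun h6 v.1) v.2
    simpa [φ] using this
  have hu : IsUnit (φ (Ideal.Quotient.mk (Ideal.span S) f)) := by
    rw [← h6, vl_map] at h4
    exact (IsNilpotent.isUnit_quotient_mk_iff ⟨2, hI⟩).1 h4
  refine ⟨IsLocalization.Away.liftAlgHom (Ideal.Quotient.mk (Ideal.span S) f) (f := φ) hu, ?_⟩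
  apply AlgHom.coe_ringHom_injective
  refine IsLocalization.ringHom_ext (Submonoid.powers (Ideal.Quotient.mk (Ideal.span S) f)) ?_
  refine RingHom.ext fun s => ?_
  have := DFunLike.congr_fun h7 s
  simpa [IsLocalization.Away.liftAlgHom, ι] using this

theorem map_mul_alg (φ : C →ₐ[k] C') (g h : Mx n C) : (g * h).map φ = g.map φ * h.map φ :=
  Matrix.map_mul (f := (φ : C →+* C'))

theorem map_rt (φ : C →ₐ[k] C') (w : Mx n k) :
    (w.map (algebraMap k C)).map φ = w.map (algebraMap k C') := by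
  ext a b
  exact φ.commutes _

theorem map_aev {l : ℕ} (φ : C →ₐ[k] C') (c : Mx n (MvPolynomial (Fin l) k)) (a : Fin l → C) :
    (c.map (aeval a)).map φ = c.map (aeval fun i => φ (a i)) := by
  ext s t
  exact MvPolynomial.comp_aeval_apply _ _ _

theorem Sol.rt {S : Set (Pn k n)} {w : Mx n k} (h : Sol S w) (C : Type) [CommRing C] [Algebra k C] :
    Sol S (w.map (algebraMap k C)) := h.map (Algebra.ofId k C)

theorem Grp.adj_mul {S : Set (Pn k n)} (hS : Grp S) {g : Mx n C} (hg : Sol S g) :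
    g.adjugate * g = 1 := by rw [adjugate_mul, hS.det hg, one_smul]

theorem Grp.mul_adj {S : Set (Pn k n)} (hS : Grp S) {g : Mx n C} (hg : Sol S g) :
    g * g.adjugate = 1 := by rw [mul_adjugate, hS.det hg, one_smul]

theorem smooth_of_tr {S : Set (Pn k n)} (hS : Grp S) (f : Pn k n)
    (h1 : ∀ (K : Type) [Field K] [Algebra k K] (g : Mx n K), Sol S g →
      ∃ w : Mx n k, Sol S w ∧ vl (w.map (algebraMap k K) * g) f ≠ 0)
    (h2 : ∀ (C : Type) [CommRing C] [Algebra k C] (I : Ideal C), I ^ 2 = ⊥ →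
      ∀ g : Mx n (C ⧸ I), Sol S g → IsUnit (vl g f) →
      ∃ g' : Mx n C, Sol S g' ∧ g'.map (Ideal.Quotient.mkₐ k I) = g) :
    Algebra.Smooth k (Pn k n ⧸ Ideal.span S) := by
  have e : ∀ (C : Type) [CommRing C] [Algebra k C] (g : Mx n C) (w : Mx n k),
      vl g (vl (w.map (algebraMap k (Pn k n)) * mvPolynomialX _ _ k) f) =
        vl (w.map (algebraMap k C) * g) f := fun C _ _ g w => by
    let φ : Pn k n →ₐ[k] C := aeval fun ab : Fin n × Fin n => g ab.1 ab.2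
    have := vl_map φ (w.map (algebraMap k (Pn k n)) * mvPolynomialX _ _ k) f
    rw [map_mul_alg, map_rt, show (mvPolynomialX (Fin n) (Fin n) k).map φ = g from gen_map g] at this
    exact this.symm
  refine smooth_of_cover
    {x | ∃ w : Mx n k, Sol S w ∧ x = vl (w.map (algebraMap k (Pn k n)) * mvPolynomialX _ _ k) f}
    (fun K _ _ g hg => ?_) ?_
  · obtain ⟨w, h3, h4⟩ := h1 K g hg
    exact ⟨_, ⟨w, h3, rfl⟩, by rwa [e]⟩
  · rintro _ ⟨w, hw, rfl⟩ C _ _ I hI g hg hu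
    rw [e] at hu
    obtain ⟨g', h3, h4⟩ := h2 C I hI _ (hS.mul (hw.rt _) hg) hu
    refine ⟨w.adjugate.map (algebraMap k C) * g', hS.mul ((hS.adj hw).rt C) h3, ?_⟩
    rw [map_mul_alg, map_rt, h4, ← Matrix.mul_assoc, ← Matrix.map_mul, hS.adj_mul hw,
      Matrix.map_one _ (map_zero _) (map_one _), Matrix.one_mul]

theorem lift_B {D : Bru k n r} (hB : D.Bor) (I : Ideal C) (hI : I ^ 2 = ⊥) (b : Mx n (C ⧸ I))
    (hb : Sol D.B b) : ∃ b' : Mx n C, Sol D.B b' ∧ b'.map (Ideal.Quotient.mkₐ k I) = b := by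
  obtain ⟨x, -, rfl⟩ := (hB _).2.2 hb
  choose a ha using fun i => Ideal.Quotient.mk_surjective (I := I) (x.1 i)
  have : ∀ i, ∃ t : Cˣ, Units.map (Ideal.Quotient.mk I : C →* C ⧸ I) t = x.2 i := fun i => by
    obtain ⟨c, hc⟩ := Ideal.Quotient.mk_surjective (I := I) (x.2 i)
    obtain ⟨t, rfl⟩ := (IsNilpotent.isUnit_quotient_mk_iff (I := I) ⟨2, hI⟩ (x := c)).1
      (hc ▸ (x.2 i).isUnit)
    exact ⟨t, Units.ext hc⟩
  choose t ht using this
  refine ⟨_, (hB C).1 (Set.mem_univ (a, t)), ?_⟩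
  show (_ * _ : Mx n C).map _ = _ * _
  rw [map_mul_alg, map_aev, diagonal_map (map_zero _)]
  congr 2
  · exact congrArg (fun y : Fin D.N → C ⧸ I => ⇑(aeval y : MvPolynomial (Fin D.N) k →ₐ[k] _))
      (funext ha)
  · funext s
    rw [← funext ht]
    simp only [← map_zpow, ← map_prod]
    rfl

theorem CelS.lift {l : ℕ} {G B : Set (Pn k n)} {c : Mx n (MvPolynomial (Fin l) k)} {w : Mx n k}
    {Z0 Z1 : Set (Pn k n)} (h : CelS G B c w Z0 Z1) (I : Ideal C)
    (hB : ∀ b : Mx n (C ⧸ I), Sol B b → ∃ b' : Mx n C, Sol B b' ∧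
      b'.map (Ideal.Quotient.mkₐ k I) = b) {g : Mx n (C ⧸ I)} (h1 : Sol G g) (h2 : Sol Z1 g)
    (h3 : Ideal.span (vl g '' Z0) = ⊤) : ∃ x y : Mx n C, Sol B x ∧ Sol B y ∧
      (x * w.map (algebraMap k C) * y).map (Ideal.Quotient.mkₐ k I) = g := by
  obtain ⟨x, hx, rfl⟩ := (h.2 _).2.2.2 ⟨h1, h2, h3⟩
  obtain ⟨b, h4, h5⟩ := hB x.2 hx
  choose a ha using fun i => Ideal.Quotient.mk_surjective (I := I) (x.1 i)
  refine ⟨_, b, (h.2 C).1 a, h4, ?_⟩
  rw [map_mul_alg, map_mul_alg, map_rt, map_aev, h5]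
  congr 3
  exact congrArg (fun y : Fin l → C ⧸ I => ⇑(aeval y : MvPolynomial (Fin l) k →ₐ[k] _))
    (funext ha)

theorem ex_cell {D : Bru k n r} (h1 : D.Z 0 = {1} ∧ D.Z D.M = ∅) (h2 : ∀ j < D.M, D.Cel j)
    {x : Mx n k} (hx : Sol D.G x) :
    ∃ j < D.M, ∃ p q : Mx n k, Sol D.B p ∧ Sol D.B q ∧ x = p * D.w j * q := by
  classical
  have h3 : ∃ j, Sol (D.Z j) x := ⟨D.M, fun f hf => by simp [h1.2] at hf⟩
  have h4 := Nat.find_spec h3
  have h5 : Nat.find h3 ≤ D.M := Nat.find_min' h3 fun f hf => by simp [h1.2] at hf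
  have h6 : Nat.find h3 ≠ 0 := fun e => by
    rw [e, h1.1] at h4
    have := h4 1 rfl
    simp [vl] at this
  obtain ⟨j, hj⟩ := Nat.exists_eq_succ_of_ne_zero h6
  have h7 := Nat.find_min h3 (m := j) (by omega)
  rw [hj] at h4 h5
  have h8 : Ideal.span (vl x '' D.Z j) = ⊤ := by
    by_contra e
    refine h7 fun f hf => by_contra fun e' => e ?_
    exact Ideal.eq_top_of_isUnit_mem _ (Ideal.subset_span ⟨f, hf, rfl⟩) (Ne.isUnit e')
  obtain ⟨y, hy, e⟩ := ((h2 j h5).2 k).2.2.2 ⟨hx, h4, h8⟩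
  exact ⟨j, h5, _, y.2, ((h2 j h5).2 k).1 y.1, hy, e.symm⟩

theorem dbl_of {D : Bru k n r} (hP : Grp D.Pa) {ι : Type} (ρ : ι → Mx n k)
    (h1 : ∀ x, Sol D.G x → ∃ (i : ι) (p q : Mx n k), Sol D.Pa p ∧ Sol D.Pa q ∧ x = p * ρ i * q)
    (h2 : ∀ (i j : ι) (C : Type) [CommRing C] [Algebra k C] [Nontrivial C] (p q : Mx n C),
      Sol D.Pa p → Sol D.Pa q → (ρ i).map (algebraMap k C) = p * (ρ j).map (algebraMap k C) * q →
      i = j) : D.Dbl := by
  intro x y hx hy C _ _ _ p q hp hq e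
  obtain ⟨i, p1, q1, a1, b1, rfl⟩ := h1 x hx
  obtain ⟨j, p2, q2, a2, b2, rfl⟩ := h1 y hy
  simp only [Matrix.map_mul] at e
  have h3 : i = j := by
    refine h2 i j C ((p1.map (algebraMap k C)).adjugate * p * p2.map (algebraMap k C))
      (q2.map (algebraMap k C) * (q1.map (algebraMap k C) * q).adjugate)
      (hP.mul (hP.mul (hP.adj (a1.rt C)) hp) (a2.rt C))
      (hP.mul (b2.rt C) (hP.adj (hP.mul (b1.rt C) hq))) ?_
    have e1 := congrArg (fun z => (p1.map (algebraMap k C)).adjugate * z *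
      (q1.map (algebraMap k C) * q).adjugate) e
    simp only [Matrix.mul_assoc] at e1 ⊢
    rw [← e1, ← Matrix.mul_assoc (q1.map _) q, hP.mul_adj (hP.mul (b1.rt C) hq), Matrix.mul_one,
      ← Matrix.mul_assoc, hP.adj_mul (a1.rt C), Matrix.one_mul]
  subst h3
  refine ⟨p1 * p2.adjugate, q1.adjugate * q2, hP.mul a1 (hP.adj a2), hP.mul (hP.adj b1) b2, ?_⟩
  simp only [Matrix.mul_assoc]
  rw [← Matrix.mul_assoc q1, hP.mul_adj b1, ← Matrix.mul_assoc p2.adjugate, hP.adj_mul a2,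
    Matrix.one_mul, Matrix.one_mul]

end Pool.Agent.P.MP_1bf4cb_ag.RG
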