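import Pool.Agent.P.MP_1bf4cb_ag.TE
import Pool.Agent.P.MP_1bf4cb_ag.TF

set_option autoImplicit false
set_option maxHeartbeats 800000
set_option linter.unusedSectionVars false
set_option linter.unusedVariables false
set_option linter.unusedSimpArgs false

open Function Matrix MvPolynomial

noncomputable section

namespace Pool.Agent.P.MP_1bf4cb_ag.RG

variable {k : Type} [Field k] {C C' : Type} [CommRing C] [Algebra k C] [CommRing C']
  [Algebra k C'] {g : Mx 8 C}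

/-- the full datum of `G₂` -/
def g2D (k : Type) [Field k] (s : Bool) : Bru k 8 2 where
  G := eG k
  B := eP k false ∪ eP k true
  Pa := eP k s
  F := (g2 k).F
  wt := (g2 k).wt
  N := 6
  u := uu X
  M := 12
  l := fun
    | 0 => 0 | 1 => 1 | 2 => 1 | 3 => 2 | 4 => 2 | 5 => 3 | 6 => 3 | 7 => 4 | 8 => 4 | 9 => 5
    | 10 => 5 | _ + 11 => 6
  c := fun
    | 0 => st0.c0 k | 1 => st0.c1 k | 2 => st1.c0 k | 3 => st1.c1 k | 4 => st2.c0 k | 5 => st2.c1 k
    | 6 => st5.c0 k | 7 => st5.c1 k | 8 => st6.c0 k | 9 => st6.c1 k | 10 => st7.c0 k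
    | _ + 11 => st7.c1 k
  w := fun
    | 0 => st0.W k | 1 => st0.W k * sb k | 2 => st1.W k | 3 => st1.W k * sb k | 4 => st2.W k
    | 5 => st2.W k * sb k | 6 => st5.W k | 7 => st5.W k * sb k | 8 => st6.W k
    | 9 => st6.W k * sb k | 10 => st7.W k | _ + 11 => st7.W k * sb k
  Z := fun
    | 0 => {1} | 1 => Zm k 0 2 | 2 => Zg k 0 | 3 => Zm k 1 5 | 4 => Zg k 1 | 5 => Zm k 2 6
    | 6 => Zg k 2 | 7 => Zm k 5 7 | 8 => Zg k 5 | 9 => Zm k 6 7 | 10 => Zg k 6 | 11 => Zm k 7 6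
    | _ + 12 => ∅

theorem span_Zg {i i' : Fin 8} (h1 : i' < i) (h2 : ∀ a, i' < a → a = i ∨ i < a)
    (h : ∀ a, i < a → g a 0 = 0) : Ideal.span (vl g '' Zg k i') = ⊤ ↔ IsUnit (g i 0) := by
  rw [← vl_X (k := k) g i 0]
  refine span_top_iff ⟨i, h1, rfl⟩ ?_
  rintro _ ⟨a, ha, rfl⟩
  rcases h2 a ha with rfl | e
  · exact Or.inl rfl
  · exact Or.inr ((vl_X g a 0).trans (h a e))

theorem span_Z5 (hg : Au g) (h : ∀ a, 5 < a → g a 0 = 0) :
    Ideal.span (vl g '' Zg k 2) = ⊤ ↔ IsUnit (g 5 0) := by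
  refine ⟨fun e => ?_, Ideal.eq_top_of_isUnit_mem _
    (Ideal.subset_span ⟨X (5, 0), ⟨5, by decide, rfl⟩, vl_X g 5 0⟩)⟩
  have e3 := hg.tr (bv C 0)
  have e4 := hg.nm (bv C 0)
  simp only [nm, mv_bv, h 6 (by decide), h 7 (by decide)] at e3 e4
  simp at e3 e4
  have h3 : g 3 0 ∈ (Ideal.span {g 5 0}).radical := ⟨2, Ideal.mem_span_singleton'.2
    ⟨-g 2 0, by linear_combination e4 - g 3 0 * e3⟩⟩
  rw [← Ideal.span_singleton_eq_top, ← Ideal.radical_eq_top]
  refine top_le_iff.1 (e.ge.trans (Ideal.span_le.2 ?_))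
  rintro _ ⟨_, ⟨a, ha, rfl⟩, rfl⟩
  rw [vl_X]
  rcases (show a = 3 ∨ a = 4 ∨ a = 5 ∨ 5 < a by omega) with rfl | rfl | rfl | h5
  · exact h3
  · rw [show g 4 0 = -g 3 0 by linear_combination e3]
    exact neg_mem h3
  · exact Ideal.le_radical (Ideal.mem_span_singleton_self _)
  · rw [h a h5]
    exact zero_mem _

theorem cel_a0 : CelS (eG k) (eP k false ∪ eP k true) (st0.c0 k) (st0.W k) {1} (Zm k 0 2) :=
  st0.cel0 fun C _ _ g hg h => iff_of_true
    ((Ideal.eq_top_iff_one _).2 (Ideal.subset_span ⟨1, rfl, map_one _⟩)) (Q1.unit ⟨hg, h⟩)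

theorem cel_a1 : CelS (eG k) (eP k false ∪ eP k true) (st1.c0 k) (st1.W k) (Zg k 0) (Zm k 1 5) :=
  st1.cel0 fun C _ _ g hg h => span_Zg (by decide) (by decide) h

theorem cel_b0 : CelS (eG k) (eP k false ∪ eP k true) (st0.c1 k) (st0.W k * sb k) (Zm k 0 2)
    (Zg k 0) := st0.cel1 fun C _ _ g => sZg g

theorem cel_b7 : CelS (eG k) (eP k false ∪ eP k true) (st7.c1 k) (st7.W k * sb k) (Zm k 7 6) ∅ :=
  st7.cel1 fun C _ _ g => iff_of_true (fun f hf => hf.elim)
    fun a ha => absurd ha (not_lt.2 (Fin.le_last a))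

theorem g2_cel (s : Bool) (j : ℕ) (hj : j < 12) : (g2D k s).Cel j := by
  interval_cases j
  · exact cel_a0
  · exact cel_b0
  · exact cel_a1
  · exact st1.cel1 (k := k) fun C _ _ g => sZg g
  · exact st2.cel0 (k := k) fun C _ _ g hg h => span_Zg (by decide) (by decide) h
  · exact st2.cel1 (k := k) fun C _ _ g => sZg g
  · exact st5.cel0 (k := k) fun C _ _ g hg h => span_Z5 hg h
  · exact st5.cel1 (k := k) fun C _ _ g => sZg g
  · exact st6.cel0 (k := k) fun C _ _ g hg h => span_Zg (by decide) (by decide) h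
  · exact st6.cel1 (k := k) fun C _ _ g => sZg g
  · exact st7.cel0 (k := k) fun C _ _ g hg h => span_Zg (by decide) (by decide) h
  · exact cel_b7

theorem Zg_Zm {i i' j : Fin 8} (h : i < i') (hg : Sol (Zg k i) g) : Sol (Zm k i' j) g := by
  rw [sZg] at hg
  rw [sZm, hg i' h, zero_mul]
  exact ⟨rfl, fun a ha => hg a (h.trans ha)⟩

theorem g2_mono (s : Bool) (j : ℕ) (hg : Sol ((g2D k s).Z j) g) : Sol ((g2D k s).Z (j + 1)) g := by
  rcases lt_or_ge j 11 with hj | hj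
  · interval_cases j
    · have h1 : (1 : C) = 0 := (map_one _).symm.trans (hg 1 rfl)
      exact fun f _ => by rw [← mul_one (vl g f), h1, mul_zero]
    all_goals first
      | exact hg.mono (Set.subset_insert _ _)
      | exact Zg_Zm (by decide) hg
  · obtain ⟨i, rfl⟩ := Nat.exists_eq_add_of_le' hj
    exact fun f hf => hf.elim

theorem g2_bor (s : Bool) : (g2D k s).Bor := by
  intro C _ _
  have h : ∀ x : (Fin 6 → C) × (Fin 2 → Cˣ), (g2D k s).u.map (aeval x.1) *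
      (diagonal fun a => ((∏ i, x.2 i ^ (g2D k s).wt a i : Cˣ) : C)) =
      uu x.1 * tt (x.2 0) (x.2 1) := fun x => by
    congr 1
    · have := uu_map ((aeval x.1 : MvPolynomial (Fin 6) k →ₐ[k] C) : MvPolynomial (Fin 6) k →+* C) X
      simp only [RingHom.coe_coe, aeval_X] at this
      exact this
    · refine congrArg diagonal (funext fun a => ?_)
      fin_cases a <;> simp [g2D, g2, Fin.prod_univ_two]
  refine ⟨fun x _ => ?_, fun x _ y _ e => ?_, fun g hg => ?_⟩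
  · refine (congrArg (Sol (g2D k s).B) (h x)).mpr ((sB _).2 ((uu_qb _).mul (tt_qb _ _)))
  · obtain ⟨e1, e2, e3⟩ := ut_inj ((h x).symm.trans (e.trans (h y)))
    refine Prod.ext e1 (funext fun i => ?_)
    fin_cases i
    exacts [e2, e3]
  · obtain ⟨a, s', t', e⟩ := ut_surj ((sB (k := k) g).1 hg)
    exact ⟨(a, ![s', t']), Set.mem_univ _, (h _).trans e⟩

theorem g2_span (s : Bool) : AddSubgroup.closure (Set.range (g2D k s).wt) = ⊤ := by
  refine eq_top_iff.2 fun v _ => ?_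
  have e : v = v 0 • (g2D k s).wt 1 + v 1 • (g2D k s).wt 2 := by
    funext i
    fin_cases i <;> simp [g2D, g2]
  rw [e]
  exact add_mem (AddSubgroup.zsmul_mem _ (AddSubgroup.subset_closure (Set.mem_range_self 1)) _)
    (AddSubgroup.zsmul_mem _ (AddSubgroup.subset_closure (Set.mem_range_self 2)) _)

theorem g2_fr [Fintype k] (s : Bool) (g : Mx 8 C) : (g2D k s).fr g = g.map (fro k C) := by
  ext a b
  show vl g (X (a, b) ^ _) = g a b ^ _
  rw [Nat.card_eq_fintype_card]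
  exact (map_pow _ _ _).trans (congrArg (· ^ _) (vl_X g a b))

theorem g2_hom [Fintype k] (s : Bool) : (g2D k s).Hom := fun C _ _ g h hg hh => by
  rw [g2_fr, g2_fr, g2_fr]
  exact ⟨hg.map _, map_mul_alg _ _ _, fun hb => hb.map _⟩

theorem g2_pow [Fintype k] (s : Bool) : (g2D k s).Pow := ⟨1, 1, one_pos, fun C _ _ g hg => by
  rw [iterate_one, g2_fr, pow_one, Nat.card_eq_fintype_card]
  rfl⟩

theorem sa_q2 : Q2 (sa C) := ⟨sa_au, fun a ha => by
  rw [← mv_bv (sa C), ← mv_bv (sa C), sa_mv, sa_mv]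
  fin_cases a <;> first | exact absurd ha (by decide) | simp⟩

theorem sb_q1 : Q1 (sb C) := ⟨sb_au, fun a ha => by
  rw [← mv_bv (sb C), sb_mv]
  fin_cases a <;> first | exact absurd ha (by decide) | simp⟩

theorem liftB (I : Ideal C) (hI : I ^ 2 = ⊥) (b : Mx 8 (C ⧸ I))
    (hb : Sol (eP k false ∪ eP k true) b) : ∃ b' : Mx 8 C, Sol (eP k false ∪ eP k true) b' ∧
      b'.map (Ideal.Quotient.mkₐ k I) = b := lift_B (g2_bor false) I hI b hb

theorem sb_row (g : Mx 8 C) (j : Fin 8) : (sb C * g) 2 j = g 1 j ∧ (sb C * g) 7 j = g 7 j ∧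
    (sb C * g) 6 j = -g 5 j := by
  rw [mul_col, mul_col, mul_col, sb_mv]
  exact ⟨mv_bv g j 1, mv_bv g j 7, congrArg Neg.neg (mv_bv g j 5)⟩

theorem smo_P1 : Algebra.Smooth k (Pn k 8 ⧸ Ideal.span (eP k false)) := by
  refine smooth_of_tr (g2_grp.2.2 false) (X (2, 1)) (fun K _ _ g hg => ?_) fun C _ _ I hI g hg hu => ?_
  · rw [sP1] at hg
    by_cases h : g 2 1 = 0
    · refine ⟨sb k, (sP1 _).2 sb_q1, ?_⟩
      rw [vl_X, sb_map, (sb_row g 1).1]
      exact (hg.qb h).unit1.ne_zero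
    · refine ⟨1, (sP1 _).2 qb_one.1, ?_⟩
      rwa [vl_X, Matrix.map_one _ (map_zero _) (map_one _), Matrix.one_mul]
  · rw [sP1] at hg
    rw [vl_X] at hu
    obtain ⟨x, y, hx, hy, e⟩ := (cel_b0 (k := k)).lift I (liftB I hI) ((sG g).2 hg.1) ((sZg g).2 hg.2) (by
      rw [span_Zm hg.2, mn2, hg.2 2 (by decide), zero_mul, sub_zero]
      exact hg.unit.mul (hg.unit.mul hu))
    rw [sB] at hx hy
    refine ⟨_, (sP1 _).2 ((hx.1.mul ?_).mul hy.1), e⟩
    rw [Matrix.map_mul, st0.W_map, sb_map]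
    exact qb_one.1.mul sb_q1

theorem smo_P2 : Algebra.Smooth k (Pn k 8 ⧸ Ideal.span (eP k true)) := by
  refine smooth_of_tr (g2_grp.2.2 true) (X (1, 0)) (fun K _ _ g hg => ?_) fun C _ _ I hI g hg hu => ?_
  · rw [sP2] at hg
    by_cases h : g 1 0 = 0
    · refine ⟨sa k, (sP2 _).2 sa_q2, ?_⟩
      have := hg.unit
      rw [h, mul_zero, sub_zero] at this
      rw [vl_X, sa_map, mul_col, sa_mv]
      exact fun e => (IsUnit.mul_iff.1 this).1.ne_zero ((mv_bv g 0 0).symm.trans e)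
    · refine ⟨1, (sP2 _).2 qb_one.2, ?_⟩
      rwa [vl_X, Matrix.map_one _ (map_zero _) (map_one _), Matrix.one_mul]
  · rw [sP2] at hg
    rw [vl_X] at hu
    have h1 : ∀ a : Fin 8, 1 < a → g a 0 = 0 := fun a ha => (hg.2 a ha).1
    obtain ⟨x, y, hx, hy, e⟩ := (cel_a1 (k := k)).lift I (liftB I hI) ((sG g).2 hg.1)
      ((sZm g).2 ⟨by rw [mn2, (hg.2 5 (by decide)).1, (hg.2 5 (by decide)).2]; ring, h1⟩)
      ((span_Zg (by decide) (by decide) h1).2 hu)
    rw [sB] at hx hy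
    refine ⟨_, (sP2 _).2 ((hx.2.mul ?_).mul hy.2), e⟩
    rw [st1.W_map]
    exact sa_q2

theorem ex_row7 {K : Type} [Field K] {g : Mx 8 K} (hg : Au g) :
    ∃ w : Mx 8 k, Au w ∧ ∀ [Algebra k K], (w.map (algebraMap k K) * g) 7 0 ≠ 0 := by
  have e3 := hg.tr (bv K 0)
  have e4 := hg.nm (bv K 0)
  by_contra hc
  have h : ∀ w : (C : Type) → [CommRing C] → Mx 8 C, Au (w k) →
      (∀ [Algebra k K], (w k).map (algebraMap k K) = w K) → (w K *ᵥ (g *ᵥ bv K 0)) 7 = 0 :=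
    fun w h1 h2 => by_contra fun e => hc ⟨w k, h1, fun {_} => by rwa [h2, mul_col]⟩
  have h7 := h (fun C _ => 1) au_one fun {_} => Matrix.map_one _ (map_zero _) (map_one _)
  have h6 := h (fun C _ => sa C) sa_au fun {_} => sa_map _
  have h5 := h (fun C _ => sa C * sb C) (sa_au.mul sb_au) fun {_} => by
    simp only [Matrix.map_mul, sa_map, sb_map]
  have h2 := h (fun C _ => sa C * sb C * sa C) ((sa_au.mul sb_au).mul sa_au) fun {_} => by
    simp only [Matrix.map_mul, sa_map, sb_map]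
  have h1 := h (fun C _ => sa C * sb C * sa C * sb C) (((sa_au.mul sb_au).mul sa_au).mul sb_au)
    fun {_} => by simp only [Matrix.map_mul, sa_map, sb_map]
  have h0 := h (fun C _ => sa C * sb C * sa C * sb C * sa C)
    ((((sa_au.mul sb_au).mul sa_au).mul sb_au).mul sa_au)
    fun {_} => by simp only [Matrix.map_mul, sa_map, sb_map]
  have hx := hg.adj_mv (bv K 0)
  generalize g *ᵥ bv K 0 = x at *
  simp only [← mulVec_mulVec, one_mulVec, sa_mv, sb_mv] at h0 h1 h2 h5 h6 h7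
  simp at h0 h1 h2 h5 h6 h7 e3
  simp [nm, h0, h1, h2, h5, h6, h7] at e4
  have h3 : x 3 = 0 := by
    rcases e4 with e | e
    · exact e
    · rwa [e, add_zero] at e3
  have h4 : x 4 = 0 := by rwa [h3, zero_add] at e3
  rw [show x = 0 from vec8 h0 h1 h2 h3 h4 h5 h6 h7, mulVec_zero] at hx
  simpa using congrFun hx 0

theorem smo_G : Algebra.Smooth k (Pn k 8 ⧸ Ideal.span (eG k)) := by
  refine smooth_of_tr g2_grp.1 (fm k 7 6) (fun K _ _ g hg => ?_) fun C _ _ I hI g hg hu => ?_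
  · rw [sG] at hg
    obtain ⟨w, hw, h1⟩ := ex_row7 (k := k) hg
    replace h1 : (w.map (algebraMap k K) * g) 7 0 ≠ 0 := h1
    have h2 : Au (w.map (algebraMap k K) * g) := (hw.map _).mul hg
    by_cases h : mn2 7 6 (w.map (algebraMap k K) * g) = 0
    · refine ⟨sb k * w, (sG _).2 (sb_au.mul hw), ?_⟩
      rw [vl_fm, Matrix.map_mul, sb_map, Matrix.mul_assoc]
      generalize w.map (algebraMap k K) * g = y at *
      obtain ⟨a, ha, -⟩ := st7.ex h2 (fun b hb => absurd hb (not_lt.2 (Fin.le_last b))) h1.isUnit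
      have e1 := st7.mn a ha
      have e2 := mn2_mul 7 5 (st7.U K a * st7.W K) ha
      rw [← Matrix.mul_assoc, (st7.mau a).mul_adj, Matrix.one_mul] at e1 e2
      have e3 : ((st7.U K a * st7.W K).adjugate * y) 2 1 = 0 := by
        rw [h] at e1
        exact ha.unit.mul_right_eq_zero.1
          ((IsUnit.of_mul_eq_one _ (sq_unit st7.hτ)).mul_left_eq_zero.1 e1.symm)
      have e4 : mnr 7 5 ((st7.U K a * st7.W K) *ᵥ bv K 0) ((st7.U K a * st7.W K) *ᵥ bv K 1) = -1 := by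
        simp only [st7, ← mulVec_mulVec, sa_mv, sb_mv, r0_mv, r2_mv, r3_mv, r4_mv, r5_mv]
        simp [mnr]
      rw [e3, e4, zero_mul, add_zero, mul_neg_one, mul_neg] at e2
      have e5 : mn2 7 6 (sb K * y) = -mn2 7 5 y := by
        simp only [mn2, sb_row]
        ring
      rw [e5, e2, neg_neg, (sb_row y 0).2.1]
      exact mul_ne_zero h1 (ha.unit.mul (ha.qb e3).unit1).ne_zero
    · exact ⟨w, (sG _).2 hw, by rw [vl_fm]; exact mul_ne_zero h1 h⟩
  · rw [vl_fm] at hu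
    obtain ⟨x, y, hx, hy, e⟩ := (cel_b7 (k := k)).lift I (liftB I hI) hg (fun f hf => hf.elim)
      ((span_Zm fun b hb => absurd hb (not_lt.2 (Fin.le_last b))).2 hu)
    rw [sB] at hx hy
    exact ⟨_, (sG _).2 ((hx.au.mul (((st7.au k).mul sb_au).map _)).mul hy.au), e⟩

end Pool.Agent.P.MP_1bf4cb_ag.RG
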