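import Pool.Agent.P.MP_1bf4cb_ag.TG

set_option autoImplicit false
set_option maxHeartbeats 800000
set_option linter.unusedSectionVars false
set_option linter.unusedVariables false
set_option linter.unusedSimpArgs false

open Function Matrix MvPolynomial

noncomputable section

namespace Pool.Agent.P.MP_1bf4cb_ag.RG

variable {k : Type} [Field k] {C C' : Type} [CommRing C] [CommRing C'] {g p q : Mx 8 C}

/-- vanishing of the last coordinates -/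
def Vn (d : Fin 8) (v : Fin 8 → C) : Prop := ∀ a, d < a → v a = 0

theorem Vn.smul {d : Fin 8} {v : Fin 8 → C} (h : Vn d v) (c : C) : Vn d (c • v) := fun a ha => by
  rw [Pi.smul_apply, h a ha, smul_zero]

theorem Vn.add {d : Fin 8} {v w : Fin 8 → C} (h : Vn d v) (h' : Vn d w) : Vn d (v + w) :=
  fun a ha => by rw [Pi.add_apply, h a ha, h' a ha, add_zero]

theorem Q1.v0 (hg : Q1 g) {v : Fin 8 → C} (h : Vn 0 v) : Vn 0 (g *ᵥ v) := by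
  have e : v = v 0 • bv C 0 := vec8 (by simp) (by simp [h 1]) (by simp [h 2]) (by simp [h 3])
    (by simp [h 4]) (by simp [h 5]) (by simp [h 6]) (by simp [h 7])
  rw [e, mulVec_smul]
  exact Vn.smul (fun a ha => (mv_bv g 0 a).trans (hg.2 a ha)) _

theorem Q1.v6 (hg : Q1 g) {v : Fin 8 → C} (h : Vn 6 v) : Vn 6 (g *ᵥ v) := fun a ha => by
  rw [show a = 7 by omega]
  exact hg.unit.mul_right_eq_zero.1 ((hg.w7 v).trans (h 7 (by decide)))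

theorem Q2.v1 (hg : Q2 g) {v : Fin 8 → C} (h : Vn 1 v) : Vn 1 (g *ᵥ v) := by
  have e : v = v 0 • bv C 0 + v 1 • bv C 1 := vec8 (by simp) (by simp) (by simp [h 2])
    (by simp [h 3]) (by simp [h 4]) (by simp [h 5]) (by simp [h 6]) (by simp [h 7])
  rw [e, mulVec_add, mulVec_smul, mulVec_smul]
  exact (Vn.smul (fun a ha => (mv_bv g 0 a).trans (hg.2 a ha).1) _).add
    (Vn.smul (fun a ha => (mv_bv g 1 a).trans (hg.2 a ha).2) _)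

theorem Q2.v5 (hg : Q2 g) {v : Fin 8 → C} (h : Vn 5 v) : Vn 5 (g *ᵥ v) := fun a ha => by
  obtain ⟨h1, h2⟩ := hg.w6 v
  rw [h 7 (by decide)] at h1
  rw [h 6 (by decide)] at h2
  refine hg.unit.mul_right_eq_zero.1 ?_
  rcases (show a = 6 ∨ a = 7 by omega) with rfl | rfl
  · linear_combination g 0 0 * h2 - g 0 1 * h1
  · linear_combination g 1 1 * h1 - g 1 0 * h2

theorem Q2.mnr (hg : Q2 g) {u v : Fin 8 → C} (h : mnr 6 7 u v = 0) :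
    mnr 6 7 (g *ᵥ u) (g *ᵥ v) = 0 := by
  obtain ⟨h1, h2⟩ := hg.w6 u
  obtain ⟨h3, h4⟩ := hg.w6 v
  refine hg.unit.mul_right_eq_zero.1 ?_
  unfold RG.mnr at *
  rw [← h1, ← h2, ← h3, ← h4] at h
  linear_combination h

/-- representatives of double cosets -/
def ρ1 (C : Type) [CommRing C] : Fin 4 → Mx 8 C :=
  ![1, sa C, sa C * sb C * sa C, sa C * sb C * sa C * sb C * sa C]

/-- representatives of double cosets -/
def ρ2 (C : Type) [CommRing C] : Fin 4 → Mx 8 C :=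
  ![1, sb C, sb C * sa C * sb C, sb C * sa C * sb C * sa C * sb C]

theorem ρ1_map (φ : C →+* C') (i : Fin 4) : (ρ1 C i).map φ = ρ1 C' i := by
  fin_cases i <;> simp [ρ1, Matrix.map_mul, sa_map, sb_map]

theorem ρ2_map (φ : C →+* C') (i : Fin 4) : (ρ2 C i).map φ = ρ2 C' i := by
  fin_cases i <;> simp [ρ2, Matrix.map_mul, sa_map, sb_map]

theorem ρ1_mv : ρ1 C 0 *ᵥ bv C 0 = bv C 0 ∧ ρ1 C 1 *ᵥ bv C 0 = bv C 1 ∧
    ρ1 C 2 *ᵥ bv C 0 = bv C 5 ∧ ρ1 C 3 *ᵥ bv C 0 = -bv C 7 := by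
  simp only [ρ1, cons_val_zero, cons_val_one, cons_val, ← mulVec_mulVec, one_mulVec, sa_mv, sb_mv]
  refine ⟨trivial, ?_, ?_, ?_⟩ <;> refine vec8 ?_ ?_ ?_ ?_ ?_ ?_ ?_ ?_ <;> simp

theorem ρ2_mv : (ρ2 C 0 *ᵥ bv C 0 = bv C 0 ∧ ρ2 C 0 *ᵥ bv C 1 = bv C 1) ∧
    (ρ2 C 1 *ᵥ bv C 0 = bv C 0 ∧ ρ2 C 1 *ᵥ bv C 1 = bv C 2) ∧
    (ρ2 C 2 *ᵥ bv C 0 = bv C 2 ∧ ρ2 C 2 *ᵥ bv C 1 = -bv C 6) ∧
    ρ2 C 3 *ᵥ bv C 0 = -bv C 6 ∧ ρ2 C 3 *ᵥ bv C 1 = -bv C 7 := by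
  simp only [ρ2, cons_val_zero, cons_val_one, cons_val, ← mulVec_mulVec, one_mulVec, sa_mv, sb_mv]
  refine ⟨⟨trivial, trivial⟩, ⟨?_, ?_⟩, ⟨?_, ?_⟩, ?_, ?_⟩ <;>
    refine vec8 ?_ ?_ ?_ ?_ ?_ ?_ ?_ ?_ <;> simp

theorem vn_bv {d i : Fin 8} (h : i ≤ d) : Vn d (bv C i) :=
  fun a ha => Pi.single_eq_of_ne (h.trans_lt ha).ne' _

theorem vn_of {d i : Fin 8} {v : Fin 8 → C} (e : v = bv C i) (h : i ≤ d) : Vn d v := e ▸ vn_bv h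

theorem ρ1_le [Nontrivial C] {i j : Fin 4} (hp : Q1 p) (hq : Q1 q) (e : ρ1 C i = p * ρ1 C j * q) :
    i ≤ j := by
  have e1 : ρ1 C i *ᵥ bv C 0 = p *ᵥ (q 0 0 • (ρ1 C j *ᵥ bv C 0)) := by
    rw [e, ← mulVec_mulVec, ← mulVec_mulVec, hq.col, mulVec_smul]
  obtain ⟨h0, h1, h2, h3⟩ := ρ1_mv (C := C)
  have a1 : ∀ d, Vn d (ρ1 C 1 *ᵥ bv C 0) → ¬ d < 1 := fun d h hd => by simpa [h1] using h 1 hd
  have a2 : ∀ d, Vn d (ρ1 C 2 *ᵥ bv C 0) → ¬ d < 5 := fun d h hd => by simpa [h2] using h 5 hd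
  have a3 : ∀ d, Vn d (ρ1 C 3 *ᵥ bv C 0) → ¬ d < 7 := fun d h hd => by simpa [h3] using h 7 hd
  fin_cases j
  · have : Vn 0 (ρ1 C i *ᵥ bv C 0) := e1 ▸ hp.v0 (Vn.smul (vn_of h0 le_rfl) _)
    fin_cases i
    exacts [le_rfl, absurd (by decide) (a1 _ this), absurd (by decide) (a2 _ this),
      absurd (by decide) (a3 _ this)]
  · have : Vn 2 (ρ1 C i *ᵥ bv C 0) := e1 ▸ hp.w3 (Vn.smul (vn_of h1 (by decide)) _)
    fin_cases i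
    exacts [by decide, le_rfl, absurd (by decide) (a2 _ this), absurd (by decide) (a3 _ this)]
  · have : Vn 6 (ρ1 C i *ᵥ bv C 0) := e1 ▸ hp.v6 (Vn.smul (vn_of h2 (by decide)) _)
    fin_cases i
    exacts [by decide, by decide, le_rfl, absurd (by decide) (a3 _ this)]
  · exact Fin.le_last i

theorem ρ2_le [Nontrivial C] {i j : Fin 4} (hp : Q2 p) (hq : Q2 q) (e : ρ2 C i = p * ρ2 C j * q) :
    i ≤ j := by
  have e0 : ρ2 C i *ᵥ bv C 0 =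
      p *ᵥ (q 0 0 • (ρ2 C j *ᵥ bv C 0) + q 1 0 • (ρ2 C j *ᵥ bv C 1)) := by
    rw [e, ← mulVec_mulVec, ← mulVec_mulVec, hq.col.1, mulVec_add, mulVec_smul, mulVec_smul]
  have e1 : ρ2 C i *ᵥ bv C 1 =
      p *ᵥ (q 0 1 • (ρ2 C j *ᵥ bv C 0) + q 1 1 • (ρ2 C j *ᵥ bv C 1)) := by
    rw [e, ← mulVec_mulVec, ← mulVec_mulVec, hq.col.2, mulVec_add, mulVec_smul, mulVec_smul]
  obtain ⟨⟨h0, k0⟩, ⟨h1, k1⟩, ⟨h2, k2⟩, h3, k3⟩ := ρ2_mv (C := C)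
  have a1 : ∀ d, Vn d (ρ2 C 1 *ᵥ bv C 1) → ¬ d < 2 := fun d h hd => by simpa [k1] using h 2 hd
  have a2 : ∀ d, Vn d (ρ2 C 2 *ᵥ bv C 1) → ¬ d < 6 := fun d h hd => by simpa [k2] using h 6 hd
  have a3 : ∀ d, Vn d (ρ2 C 3 *ᵥ bv C 1) → ¬ d < 7 := fun d h hd => by simpa [k3] using h 7 hd
  fin_cases j
  · have : Vn 1 (ρ2 C i *ᵥ bv C 1) := e1 ▸ hp.v1
      ((Vn.smul (vn_of h0 (by decide)) _).add (Vn.smul (vn_of k0 le_rfl) _))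
    fin_cases i
    exacts [le_rfl, absurd (by decide) (a1 _ this), absurd (by decide) (a2 _ this),
      absurd (by decide) (a3 _ this)]
  · have : Vn 5 (ρ2 C i *ᵥ bv C 1) := e1 ▸ hp.v5
      ((Vn.smul (vn_of h1 (by decide)) _).add (Vn.smul (vn_of k1 (by decide)) _))
    fin_cases i
    exacts [by decide, le_rfl, absurd (by decide) (a2 _ this), absurd (by decide) (a3 _ this)]
  · have : mnr 6 7 (ρ2 C i *ᵥ bv C 0) (ρ2 C i *ᵥ bv C 1) = 0 := by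
      rw [e0, e1]
      refine hp.mnr ?_
      show mnr 6 7 (_ • (ρ2 C 2 *ᵥ _) + _ • (ρ2 C 2 *ᵥ _)) (_ • (ρ2 C 2 *ᵥ _) + _ • (ρ2 C 2 *ᵥ _)) = 0
      rw [h2, k2]
      simp [mnr]
    fin_cases i
    · decide
    · decide
    · decide
    · replace this : mnr 6 7 (ρ2 C 3 *ᵥ bv C 0) (ρ2 C 3 *ᵥ bv C 1) = 0 := this
      rw [h3, k3] at this
      simp [mnr] at this
  · exact Fin.le_last i

theorem Au.flip {x y : Mx 8 C} (hp : Au p) (hq : Au q) (e : x = p * y * q) :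
    y = p.adjugate * x * q.adjugate := by
  rw [e, Matrix.mul_assoc, Matrix.mul_assoc, hq.mul_adj, Matrix.mul_one, ← Matrix.mul_assoc,
    hp.adj_mul, Matrix.one_mul]

theorem w_cos1 (s : Bool) (j : ℕ) (hj : j < 12) :
    ∃ (i : Fin 4) (p q : Mx 8 k), Q1 p ∧ Q1 q ∧ (g2D k s).w j = p * ρ1 k i * q := by
  have h1 : Q1 (1 : Mx 8 k) := qb_one.1
  have h2 : Q1 (sb k) := sb_q1
  interval_cases j
  · exact ⟨0, _, _, h1, h1, by simp [g2D, st0, ρ1]⟩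
  · exact ⟨0, _, _, h1, h2, by simp [g2D, st0, ρ1]⟩
  · exact ⟨1, _, _, h1, h1, by simp [g2D, st1, ρ1]⟩
  · exact ⟨1, _, _, h1, h2, by simp [g2D, st1, ρ1]⟩
  · exact ⟨1, _, _, h2, h1, by simp [g2D, st2, ρ1]⟩
  · exact ⟨1, _, _, h2, h2, by simp [g2D, st2, ρ1]⟩
  · exact ⟨2, _, _, h1, h1, by simp [g2D, st5, ρ1]⟩
  · exact ⟨2, _, _, h1, h2, by simp [g2D, st5, ρ1]⟩
  · exact ⟨2, _, _, h2, h1, by simp [g2D, st6, ρ1, Matrix.mul_assoc]⟩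
  · exact ⟨2, _, _, h2, h2, by simp [g2D, st6, ρ1, Matrix.mul_assoc]⟩
  · exact ⟨3, _, _, h1, h1, by simp [g2D, st7, ρ1]⟩
  · exact ⟨3, _, _, h1, h2, by simp [g2D, st7, ρ1]⟩

theorem w_cos2 (s : Bool) (j : ℕ) (hj : j < 12) :
    ∃ (i : Fin 4) (p q : Mx 8 k), Q2 p ∧ Q2 q ∧ (g2D k s).w j = p * ρ2 k i * q := by
  have h1 : Q2 (1 : Mx 8 k) := qb_one.2
  have h2 : Q2 (sa k) := sa_q2
  interval_cases j
  · exact ⟨0, _, _, h1, h1, by simp [g2D, st0, ρ2]⟩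
  · exact ⟨1, _, _, h1, h1, by simp [g2D, st0, ρ2]⟩
  · exact ⟨0, _, _, h2, h1, by simp [g2D, st1, ρ2]⟩
  · exact ⟨1, _, _, h2, h1, by simp [g2D, st1, ρ2]⟩
  · exact ⟨1, _, _, h1, h2, by simp [g2D, st2, ρ2]⟩
  · exact ⟨2, _, _, h1, h1, by simp [g2D, st2, ρ2]⟩
  · exact ⟨1, _, _, h2, h2, by simp [g2D, st5, ρ2]⟩
  · exact ⟨2, _, _, h2, h1, by simp [g2D, st5, ρ2, Matrix.mul_assoc]⟩
  · exact ⟨2, _, _, h1, h2, by simp [g2D, st6, ρ2]⟩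
  · exact ⟨3, _, _, h1, h1, by simp [g2D, st6, ρ2]⟩
  · exact ⟨2, _, _, h2, h2, by simp [g2D, st7, ρ2, Matrix.mul_assoc]⟩
  · exact ⟨3, _, _, h2, h1, by simp [g2D, st7, ρ2, Matrix.mul_assoc]⟩

theorem g2_dbl (s : Bool) : (g2D k s).Dbl := by
  cases s
  · refine dbl_of (g2_grp.2.2 false) (ρ1 k) (fun x hx => ?_) fun i j C _ _ _ p q hp hq e => ?_
    · obtain ⟨j, hj, p, q, hp, hq, rfl⟩ := ex_cell ⟨rfl, rfl⟩ (g2_cel false) hx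
      obtain ⟨i, p', q', h1, h2, e⟩ := w_cos1 (k := k) false j hj
      refine ⟨i, p * p', q' * q, (sP1 _).2 (((sB p).1 hp).1.mul h1),
        (sP1 _).2 (h2.mul ((sB q).1 hq).1), ?_⟩
      simp only [e, Matrix.mul_assoc]
    · rw [ρ1_map, ρ1_map] at e
      have h1 := (sP1 p).1 hp
      have h2 := (sP1 q).1 hq
      exact le_antisymm (ρ1_le h1 h2 e) (ρ1_le h1.adj h2.adj (h1.1.flip h2.1 e))
  · refine dbl_of (g2_grp.2.2 true) (ρ2 k) (fun x hx => ?_) fun i j C _ _ _ p q hp hq e => ?_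
    · obtain ⟨j, hj, p, q, hp, hq, rfl⟩ := ex_cell ⟨rfl, rfl⟩ (g2_cel true) hx
      obtain ⟨i, p', q', h1, h2, e⟩ := w_cos2 (k := k) true j hj
      refine ⟨i, p * p', q' * q, (sP2 _).2 (((sB p).1 hp).2.mul h1),
        (sP2 _).2 (h2.mul ((sB q).1 hq).2), ?_⟩
      simp only [e, Matrix.mul_assoc]
    · rw [ρ2_map, ρ2_map] at e
      have h1 := (sP2 p).1 hp
      have h2 := (sP2 q).1 hq
      exact le_antisymm (ρ2_le h1 h2 e) (ρ2_le h1.adj h2.adj (h1.1.flip h2.1 e))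

theorem g2_ok [Finite k] (s : Bool) : (g2D k s).Ok := by
  cases nonempty_fintype k
  refine ⟨⟨g2_grp.1, g2_grp.2.1, g2_grp.2.2 s⟩, ⟨eG_sub s, eP_sub s⟩, ⟨smo_G, ?_⟩, g2_hom s,
    g2_pow s, g2_bor s, g2_span s, ⟨rfl, rfl⟩, g2_cel s, g2_dbl s⟩
  cases s
  exacts [smo_P1, smo_P2]

end Pool.Agent.P.MP_1bf4cb_ag.RG
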