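import Pool.Agent.P.MP_1bf4cb_ag.TF

set_option autoImplicit false
set_option maxHeartbeats 800000
set_option linter.unusedSectionVars false
set_option linter.unusedVariables false
set_option linter.unusedSimpArgs false

open Function Matrix MvPolynomial

noncomputable section

namespace Pool.Agent.P.MP_1bf4cb_ag.RG

variable {k : Type} [Field k] {n r m : ℕ} {C C' : Type} [CommRing C] [CommRing C']

theorem fp_mod (a : Fin n) (c : Fin m) : (finProdFinEquiv (a, c)).modNat = c :=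
  congrArg Prod.snd (finProdFinEquiv.symm_apply_apply (a, c))

theorem fp_div (a : Fin n) (c : Fin m) : (finProdFinEquiv (a, c)).divNat = a :=
  congrArg Prod.fst (finProdFinEquiv.symm_apply_apply (a, c))

theorem fp_eta (a : Fin (n * m)) : finProdFinEquiv (a.divNat, a.modNat) = a :=
  finProdFinEquiv.apply_symm_apply a

theorem bd_eq (x : Fin m → Mx n C) :
    bd x = (blockDiagonal x).submatrix finProdFinEquiv.symm finProdFinEquiv.symm := rfl

theorem blk_bd (x : Fin m → Mx n C) (c : Fin m) : blk c (bd x) = x c := by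
  ext a b
  simp only [blk, bd, submatrix_apply, of_apply, fp_mod, fp_div, if_true]

theorem bd_inj {x y : Fin m → Mx n C} (e : bd x = bd y) : x = y :=
  funext fun c => by rw [← blk_bd x, e, blk_bd]

theorem bd_mul (x y : Fin m → Mx n C) : bd x * bd y = bd fun c => x c * y c := by
  rw [bd_eq, bd_eq, bd_eq, submatrix_mul_equiv, blockDiagonal_mul]

theorem bd_one : bd (fun _ : Fin m => (1 : Mx n C)) = 1 := by
  rw [bd_eq, show blockDiagonal (fun _ : Fin m => (1 : Mx n C)) = 1 from blockDiagonal_one,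
    submatrix_one_equiv]

theorem det_bd (x : Fin m → Mx n C) : (bd x).det = ∏ c, (x c).det := by
  rw [bd_eq, det_submatrix_equiv_self, det_blockDiagonal]

theorem bd_map (x : Fin m → Mx n C) (f : C → C') (hf : f 0 = 0) :
    (bd x).map f = bd fun c => (x c).map f := by
  ext a b
  simp only [bd, map_apply, of_apply, apply_ite f, hf]

theorem bd_adj {x : Fin m → Mx n C} (h : ∀ c, (x c).det = 1) :
    (bd x).adjugate = bd fun c => (x c).adjugate := by
  have e1 : bd x * bd (fun c => (x c).adjugate) = 1 := by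
    rw [bd_mul, ← bd_one]
    exact congrArg bd (funext fun c => by rw [mul_adjugate, h, one_smul])
  have e2 : (bd x).adjugate * bd x = 1 := by
    rw [adjugate_mul, det_bd, Finset.prod_eq_one fun c _ => h c, one_smul]
  rw [← Matrix.mul_one (bd x).adjugate, ← e1, ← Matrix.mul_assoc, e2, Matrix.one_mul]

theorem bd_diag (d : Fin m → Fin n → C) :
    bd (fun c => diagonal (d c)) = diagonal fun a => d a.modNat a.divNat := by
  rw [bd_eq, blockDiagonal_diagonal, submatrix_diagonal_equiv]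
  rfl

variable [Algebra k C] [Algebra k C']

theorem vl_vl {n' : ℕ} (g : Mx n C) (y : Mx n' (Pn k n)) (f : Pn k n') :
    vl g (vl y f) = vl (y.map (vl g)) f :=
  (vl_map (aeval fun ab : Fin n × Fin n => g ab.1 ab.2 : Pn k n →ₐ[k] C) y f).symm

theorem vl_zero (g : Mx n C) : vl g (0 : Pn k n) = 0 := map_zero _

theorem blk_gen (g : Mx (n * m) C) (c : Fin m) :
    (blk c (mvPolynomialX _ _ k)).map (vl g) = blk c g := by
  ext a b
  exact vl_X g _ _

theorem vl_blk (g : Mx (n * m) C) (c : Fin m) (f : Pn k n) :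
    vl g (vl (blk c (mvPolynomialX _ _ k)) f) = vl (blk c g) f := by
  rw [vl_vl, blk_gen]

theorem sol_pe {S : Fin m → Set (Pn k n)} {g : Mx (n * m) C} :
    Sol (pe S) g ↔ ∃ x, g = bd x ∧ ∀ c, Sol (S c) (x c) := by
  constructor
  · intro h
    refine ⟨fun c => blk c g, ?_, fun c f hf => ?_⟩
    · ext a b
      show _ = ite _ _ _
      split_ifs with e
      · show _ = g (finProdFinEquiv (_, _)) (finProdFinEquiv (_, _))
        rw [fp_eta, e, fp_eta]
      · exact (vl_X g a b).symm.trans (h _ (Or.inl ⟨a, b, e, rfl⟩))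
    · exact (vl_blk g c f).symm.trans (h _ (Or.inr ⟨c, f, hf, rfl⟩))
  · rintro ⟨x, rfl, h⟩ _ (⟨a, b, e, rfl⟩ | ⟨c, f, hf, rfl⟩)
    · rw [vl_X]
      exact if_neg e
    · rw [vl_blk, blk_bd]
      exact h c f hf

theorem sol_bd {S : Fin m → Set (Pn k n)} {x : Fin m → Mx n C} :
    Sol (pe S) (bd x) ↔ ∀ c, Sol (S c) (x c) :=
  sol_pe.trans ⟨fun ⟨_, e, h⟩ => bd_inj e ▸ h, fun h => ⟨x, rfl, h⟩⟩

theorem pe_mono {S T : Fin m → Set (Pn k n)} (h : ∀ c, S c ⊆ T c) : pe S ⊆ pe T :=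
  fun f hf => hf.imp_right fun ⟨c, e⟩ => ⟨c, Set.image_mono (h c) e⟩

theorem pe_grp {S : Fin m → Set (Pn k n)} (h : ∀ c, Grp (S c)) : Grp (pe S) := fun C _ _ => by
  refine ⟨bd_one (C := C) ▸ sol_bd.2 fun c => (h c C).1, fun g g' hg hg' => ?_⟩
  obtain ⟨x, rfl, hx⟩ := sol_pe.1 hg
  obtain ⟨y, rfl, hy⟩ := sol_pe.1 hg'
  rw [det_bd, bd_adj fun c => (h c).det (hy c), bd_mul, sol_bd]
  exact ⟨Finset.prod_eq_one fun c _ => (h c).det (hx c), fun c => ((h c C).2 _ _ (hx c) (hy c)).2⟩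

theorem pe_smo {S : Fin m → Set (Pn k n)}
    (h : ∀ c, Algebra.Smooth k (Pn k n ⧸ Ideal.span (S c))) :
    Algebra.Smooth k (Pn k (n * m) ⧸ Ideal.span (pe S)) := by
  refine smooth_of_cover {1} (fun K _ _ g _ => ⟨1, rfl, by simp [vl]⟩) fun _ _ C _ _ I hI g hg _ => ?_
  obtain ⟨x, rfl, hx⟩ := sol_pe.1 hg
  choose y h1 h2 using fun c => sol_lift (S c) I hI (x c) (hx c)
  exact ⟨bd y, sol_bd.2 h1, (bd_map _ _ (map_zero _)).trans (congrArg bd (funext h2))⟩

/-- block charts -/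
def bc {ι : Type} {l : Fin m → ℕ} (e : (c : Fin m) → Fin (l c) → ι)
    (u : (c : Fin m) → Mx n (MvPolynomial (Fin (l c)) k)) : Mx (n * m) (MvPolynomial ι k) :=
  bd fun c => (u c).map (rename (e c))

theorem bc_map {ι : Type} {l : Fin m → ℕ} (e : (c : Fin m) → Fin (l c) → ι)
    (u : (c : Fin m) → Mx n (MvPolynomial (Fin (l c)) k)) (a : ι → C) :
    (bc e u).map (aeval a) = bd fun c => (u c).map (aeval fun i => a (e c i)) := by
  rw [bc, bd_map _ _ (map_zero _)]
  refine congrArg bd (funext fun c => ?_)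
  ext s t
  exact aeval_rename _ _ _

variable (D : Bru k n r) (m : ℕ) (P : Fin (m + 1) → Set (Pn k n))

theorem chn_fr (x : Fin (m + 1) → Mx n C) : (chn D m P).fr (bd x) =
    bd fun c => if c = Fin.last m then D.fr (x 0) else x (c + 1) := by
  show (bd _).map (vl (bd x)) = _
  rw [bd_map _ _ (vl_zero _)]
  refine congrArg bd (funext fun c => ?_)
  split_ifs
  · refine (fr_map D (aeval fun ab : Fin (n * (m + 1)) × Fin (n * (m + 1)) => bd x ab.1 ab.2 :
      Pn k (n * (m + 1)) →ₐ[k] C) _).symm.trans ?_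
    exact congrArg D.fr ((blk_gen _ _).trans (blk_bd x 0))
  · exact (blk_gen _ _).trans (blk_bd x _)

theorem chn_hom (h : D.Hom) : (chn D m P).Hom := fun C _ _ g g' hg hg' => by
  obtain ⟨x, rfl, hx⟩ := sol_pe.1 hg
  obtain ⟨y, rfl, hy⟩ := sol_pe.1 hg'
  rw [bd_mul, chn_fr, chn_fr, chn_fr, bd_mul]
  refine ⟨sol_bd.2 fun c => ?_, congrArg bd (funext fun c => ?_), fun hb => sol_bd.2 fun c => ?_⟩
  · split_ifs
    exacts [(h C _ _ (hx 0) (hy 0)).1, hx _]
  · split_ifs
    exacts [(h C _ _ (hx 0) (hy 0)).2.1, rfl]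
  · have := sol_bd.1 hb
    split_ifs
    exacts [(h C _ _ (hx 0) (hy 0)).2.2 (this 0), this _]

theorem chn_iter (y : ℕ → Mx n C) (hy : ∀ a, y (a + (m + 1)) = D.fr (y a)) (i : ℕ) :
    (chn D m P).fr^[i] (bd fun c => y c) = bd fun c : Fin (m + 1) => y (c + i) := by
  induction i with
  | zero => rfl
  | succ i ih =>
    rw [iterate_succ_apply', ih, chn_fr]
    refine congrArg bd (funext fun c => ?_)
    split_ifs with e
    · rw [← hy, e]
      exact congrArg y (by simp; omega)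
    · rw [Fin.val_add_one_of_lt (Fin.lt_last_iff_ne_last.2 e)]
      exact congrArg y (by omega)

theorem chn_pow [Finite k] (h : D.Pow) : (chn D m P).Pow := by
  obtain ⟨ρ, e, he, h⟩ := h
  refine ⟨ρ * (m + 1), e, he, fun C _ _ g hg => ?_⟩
  obtain ⟨x, rfl, hx⟩ := sol_pe.1 hg
  let y : ℕ → Mx n C := fun a => D.fr^[a / (m + 1)] (x ⟨a % (m + 1), Nat.mod_lt _ m.succ_pos⟩)
  have h1 : ∀ (c : Fin (m + 1)) (i : ℕ), y (c + i * (m + 1)) = D.fr^[i] (x c) := fun c i => by
    simp only [y, Nat.add_mul_div_right _ _ m.succ_pos, Nat.div_eq_of_lt c.2, zero_add,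
      Nat.add_mul_mod_self_right, Nat.mod_eq_of_lt c.2]
  have h2 : x = fun c : Fin (m + 1) => y c := funext fun c => by simpa using (h1 c 0).symm
  have h3 := chn_iter D m P y (fun a => by
    simp only [y, Nat.add_div_right _ m.succ_pos, Nat.add_mod_right, iterate_succ_apply']) (ρ * (m + 1))
  rw [← h2] at h3
  have h4 : (0 : C) ^ Nat.card k ^ e = 0 := zero_pow (pow_ne_zero _ Nat.card_pos.ne')
  rw [h3, bd_map x (· ^ Nat.card k ^ e) h4]
  refine congrArg bd (funext fun c => ?_)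
  rw [h1 c ρ, h C _ (hx c)]

theorem chn_span (h : AddSubgroup.closure (Set.range D.wt) = ⊤) :
    AddSubgroup.closure (Set.range (chn D m P).wt) = ⊤ := by
  refine eq_top_iff.2 fun v _ => ?_
  let ι : Fin (m + 1) → (Fin r → ℤ) →+ (Fin (r * (m + 1)) → ℤ) := fun c =>
    { toFun := fun y i => if c = i.modNat then y i.divNat else 0
      map_zero' := funext fun i => ite_self _
      map_add' := fun y z => funext fun i => by
        simp only [Pi.add_apply]
        split_ifs
        exacts [rfl, (add_zero _).symm] }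
  have e : v = ∑ c, ι c fun i => v (finProdFinEquiv (i, c)) := by
    funext i
    rw [Finset.sum_apply, Finset.sum_eq_single i.modNat (fun c _ hc => by exact if_neg hc)
      fun h => absurd (Finset.mem_univ _) h]
    exact ((if_pos rfl).trans (congrArg v (fp_eta i))).symm
  rw [e]
  refine sum_mem fun c _ => ?_
  have h1 : AddSubgroup.closure (Set.range D.wt) ≤
      (AddSubgroup.closure (Set.range (chn D m P).wt)).comap (ι c) := by
    rw [AddSubgroup.closure_le]
    rintro _ ⟨a, rfl⟩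
    refine AddSubgroup.subset_closure ⟨finProdFinEquiv (a, c), funext fun i => ?_⟩
    show ite _ _ _ = ite _ _ _
    rw [fp_mod, fp_div]
  exact h1 (h ▸ AddSubgroup.mem_top _)

theorem chn_dbl (h : ∀ c, ({ D with Pa := P c } : Bru k n r).Dbl) : (chn D m P).Dbl := by
  intro x0 y0 hx0 hy0 C _ _ _ p0 q0 hp0 hq0 e
  obtain ⟨x, rfl, hx⟩ := sol_pe.1 hx0
  obtain ⟨y, rfl, hy⟩ := sol_pe.1 hy0
  obtain ⟨p, rfl, hp⟩ := sol_pe.1 hp0
  obtain ⟨q, rfl, hq⟩ := sol_pe.1 hq0
  rw [bd_map _ _ (map_zero _), bd_map _ _ (map_zero _), bd_mul, bd_mul] at e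
  choose p' q' h1 h2 h3 using fun c =>
    h c (x c) (y c) (hx c) (hy c) C (p c) (q c) (hp c) (hq c) (congrFun (bd_inj e) c)
  refine ⟨bd p', bd q', sol_bd.2 h1, sol_bd.2 h2, ?_⟩
  rw [bd_mul, bd_mul, funext h3]

theorem bor_mem (h : D.Bor) (a : Fin D.N → C) (t : Fin r → Cˣ) : Sol D.B (D.u.map (aeval a) *
    diagonal fun s => ((∏ i, t i ^ D.wt s i : Cˣ) : C)) := by
  have := (h C).1 (Set.mem_univ (a, t))
  rwa [Set.mem_ofPred_eq] at this

theorem bor_inj (h : D.Bor) {a a' : Fin D.N → C} {t t' : Fin r → Cˣ} (e : D.u.map (aeval a) *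
    (diagonal fun s => ((∏ i, t i ^ D.wt s i : Cˣ) : C)) = D.u.map (aeval a') *
    diagonal fun s => ((∏ i, t' i ^ D.wt s i : Cˣ) : C)) : (a, t) = (a', t') :=
  (h C).2.1 (Set.mem_univ _) (Set.mem_univ _) e

theorem bor_surj (h : D.Bor) {g : Mx n C} (hg : Sol D.B g) : ∃ (a : Fin D.N → C) (t : Fin r → Cˣ),
    D.u.map (aeval a) * (diagonal fun s => ((∏ i, t i ^ D.wt s i : Cˣ) : C)) = g := by
  obtain ⟨x, -, e⟩ := (h C).2.2 hg
  exact ⟨x.1, x.2, e⟩

theorem pe_bor (h : D.Bor) (C : Type) [CommRing C] [Algebra k C] : Set.BijOn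
    (fun x : (Fin (D.N * (m + 1)) → C) × (Fin (r * (m + 1)) → Cˣ) =>
      (bc (fun c i => finProdFinEquiv (i, c)) fun _ => D.u).map (aeval x.1) *
        diagonal fun a => ((∏ i, x.2 i ^ (chn D m P).wt a i : Cˣ) : C))
    Set.univ {g | Sol (pe fun _ => D.B) g} := by
  have e : ∀ x : (Fin (D.N * (m + 1)) → C) × (Fin (r * (m + 1)) → Cˣ),
      (bc (fun c i => finProdFinEquiv (i, c)) fun _ => D.u).map (aeval x.1) *
        (diagonal fun a => ((∏ i, x.2 i ^ (chn D m P).wt a i : Cˣ) : C)) =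
      bd fun c => D.u.map (aeval fun i => x.1 (finProdFinEquiv (i, c))) *
        diagonal fun a => ((∏ i, x.2 (finProdFinEquiv (i, c)) ^ D.wt a i : Cˣ) : C) := fun x => by
    rw [bc_map, ← bd_mul, bd_diag]
    congr 2
    funext a
    congr 1
    rw [← finProdFinEquiv.prod_comp, Fintype.prod_prod_type]
    refine Finset.prod_congr rfl fun i _ => ?_
    rw [Finset.prod_eq_single a.modNat (fun c _ hc => ?_) fun h => absurd (Finset.mem_univ _) h]
    · show _ ^ ite _ _ _ = _
      rw [fp_mod, fp_div, if_pos rfl]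
    · show _ ^ ite _ _ _ = _
      rw [fp_mod, if_neg hc.symm, zpow_zero]
  rw [funext e]
  refine ⟨fun x _ => ?_, fun x _ y _ e1 => ?_, fun g hg => ?_⟩
  · rw [Set.mem_ofPred_eq, sol_bd]
    exact fun c => bor_mem D h _ _
  · have e2 := fun c => bor_inj D h (congrFun (bd_inj e1) c)
    refine Prod.ext (funext fun i => ?_) (funext fun i => ?_)
    · rw [← fp_eta i]
      exact congrFun (congrArg Prod.fst (e2 _)) _
    · rw [← fp_eta i]
      exact congrFun (congrArg Prod.snd (e2 _)) _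
  · rw [Set.mem_ofPred_eq, sol_pe] at hg
    obtain ⟨x, rfl, hx⟩ := hg
    choose y z hy using fun c => bor_surj D h (hx c)
    refine ⟨(fun i => y i.modNat i.divNat, fun i => z i.modNat i.divNat), Set.mem_univ _,
      congrArg bd (funext fun c => ?_)⟩
    simp only [fp_mod, fp_div]
    exact hy c

end Pool.Agent.P.MP_1bf4cb_ag.RG
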