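import Pool.Agent.P.MP_1bf4cb_ag.TI

set_option autoImplicit false
set_option maxHeartbeats 800000
set_option linter.unusedSectionVars false
set_option linter.unusedVariables false
set_option linter.unusedSimpArgs false

open Function Matrix MvPolynomial
open scoped Pointwise

noncomputable section

namespace Pool.Agent.P.MP_1bf4cb_ag.RG

variable {k : Type} [Field k] {n r m : ℕ} {C : Type} [CommRing C] [Algebra k C]

theorem ex_dg (M m : ℕ) (hM : 0 < M) : ∃ (dg : ℕ → Fin m → ℕ) (L : ℕ),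
    (∀ j < L + 1, ∀ c, dg j c < M) ∧
    (∀ j < L + 1, ∀ c t, dg j c = t + 1 → ∃ i < j, dg i = update (dg j) c t) ∧
    (∀ j < L + 1, ∀ i < j, ∃ c, dg i c < dg j c) ∧ ∀ c, dg L c + 1 = M := by
  obtain ⟨L, hL⟩ := Nat.exists_eq_succ_of_ne_zero (pow_pos hM m).ne'
  replace hL : L + 1 = M ^ m := hL.symm
  let dg : ℕ → Fin m → ℕ := fun j c =>
    if h : j < M ^ m then finFunctionFinEquiv.symm ⟨j, h⟩ c else 0
  have h1 : ∀ j < M ^ m, ∀ c, dg j c < M := fun j hj c => by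
    simp only [dg, dif_pos hj]
    exact Fin.is_lt _
  have h2 : ∀ j < M ^ m, j = ∑ c, dg j c * M ^ (c : ℕ) := fun j hj => by
    simp only [dg, dif_pos hj]
    rw [← finFunctionFinEquiv_apply, Equiv.apply_symm_apply]
  have h3 : ∀ f : Fin m → ℕ, (∀ c, f c < M) → ∃ i < M ^ m, dg i = f := fun f hf =>
    ⟨finFunctionFinEquiv fun c => (⟨f c, hf c⟩ : Fin M), Fin.is_lt _, funext fun c => by
      simp only [dg, Fin.is_lt, dif_pos, Fin.eta, Equiv.symm_apply_apply]⟩
  have h4 : ∀ j < M ^ m, ∀ i < j, ∃ c, dg i c < dg j c := fun j hj i hi => by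
    by_contra e
    refine absurd hi (not_lt.2 ?_)
    rw [h2 j hj, h2 i (hi.trans hj)]
    exact Finset.sum_le_sum fun c _ => Nat.mul_le_mul_right _ (not_lt.1 fun h => e ⟨c, h⟩)
  refine ⟨dg, L, hL ▸ h1, fun j hj c t e => ?_, hL ▸ h4, fun c => ?_⟩
  · rw [hL] at hj
    have h5 : ∀ c', update (dg j) c t c' ≤ dg j c' := fun c' => by
      rcases eq_or_ne c' c with rfl | hc
      · rw [update_self, e]
        exact t.le_succ
      · rw [update_of_ne hc]
    obtain ⟨i, hi, e1⟩ := h3 (update (dg j) c t) fun c' => (h5 c').trans_lt (h1 j hj c')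
    refine ⟨i, ?_, e1⟩
    rw [h2 j hj, h2 i hi, e1]
    refine Finset.sum_lt_sum (fun c' _ => Nat.mul_le_mul_right _ (h5 c')) ⟨c, Finset.mem_univ _, ?_⟩
    rw [update_self, e]
    exact Nat.mul_lt_mul_of_pos_right t.lt_succ_self (pow_pos hM _)
  · obtain ⟨i, hi, e1⟩ := h3 (fun _ => M - 1) fun _ => by omega
    rcases (show i < L ∨ i = L by omega) with h5 | rfl
    · obtain ⟨c', h6⟩ := h4 L (by omega) i h5
      have := h1 L (by omega) c'
      rw [e1] at h6
      beta_reduce at h6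
      omega
    · rw [e1]
      beta_reduce
      omega

/-- products of equations -/
def PZ (E : ℕ → Set (Pn k n)) : ℕ → Set (Pn k n)
  | 0 => {1}
  | j + 1 => PZ E j * E j

theorem span_one (g : Mx n C) : Ideal.span (vl g '' ({1} : Set (Pn k n))) = ⊤ :=
  (Ideal.eq_top_iff_one _).2 (Ideal.subset_span ⟨1, rfl, map_one _⟩)

theorem span_PZ (E : ℕ → Set (Pn k n)) (g : Mx n C) (j : ℕ) :
    Ideal.span (vl g '' PZ E j) = ⊤ ↔ ∀ i < j, Ideal.span (vl g '' E i) = ⊤ := by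
  induction j with
  | zero => exact iff_of_true (span_one g) fun i hi => absurd hi i.not_lt_zero
  | succ j ih =>
    have e : vl g '' PZ E (j + 1) = vl g '' PZ E j * vl g '' E j :=
      Set.image_mul (aeval fun ab : Fin n × Fin n => g ab.1 ab.2 : Pn k n →ₐ[k] C)
    rw [e, ← Ideal.span_mul_span', Nat.forall_lt_succ_right, ← ih]
    exact ⟨fun h => ⟨top_le_iff.1 (h.ge.trans Ideal.mul_le_left),
      top_le_iff.1 (h.ge.trans Ideal.mul_le_right)⟩, fun h => by rw [h.1, h.2, Ideal.top_mul]⟩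

theorem sol_PZ (E : ℕ → Set (Pn k n)) (g : Mx n C) (j : ℕ) (h : Ideal.span (vl g '' PZ E j) = ⊤) :
    Sol (PZ E (j + 1)) g ↔ Sol (E j) g := by
  constructor
  · intro h1 b hb
    have : Ideal.span (vl g '' PZ E j) ≤ LinearMap.ker (LinearMap.toSpanSingleton C C (vl g b)) :=
      Ideal.span_le.2 (by
        rintro _ ⟨a, ha, rfl⟩
        exact (vl_mul g a b).symm.trans (h1 _ ⟨a, ha, b, hb, rfl⟩))
    have h2 : (1 : C) * vl g b = 0 := this (h ▸ Submodule.mem_top)
    rwa [one_mul] at h2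
  · rintro h1 _ ⟨a, ha, b, hb, rfl⟩
    exact (vl_mul g a b).trans (by rw [h1 b hb, mul_zero])

/-- the closed sets of the filtration increase -/
def Bru.Mono (D : Bru k n r) : Prop :=
  ∀ (C : Type) [CommRing C] [Algebra k C] (j : ℕ) (g : Mx n C), Sol (D.Z j) g → Sol (D.Z (j + 1)) g

theorem Bru.Mono.span {D : Bru k n r} (h : D.Mono) (g : Mx n C) {a b : ℕ} (hab : a ≤ b) :
    Ideal.span (vl g '' D.Z b) ≤ Ideal.span (vl g '' D.Z a) := by
  let φ := Ideal.Quotient.mkₐ k (Ideal.span (vl g '' D.Z a))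
  have h1 : Sol (D.Z b) (g.map φ) := by
    induction hab with
    | refl => exact (sol_map_iff _ g φ).2 fun i hi => Ideal.Quotient.eq_zero_iff_mem.2 hi
    | step _ ih => exact h _ _ _ ih
  exact fun i hi => Ideal.Quotient.eq_zero_iff_mem.1 ((sol_map_iff _ g φ).1 h1 i hi)

theorem CelS.exu {l : ℕ} {G B : Set (Pn k n)} {c : Mx n (MvPolynomial (Fin l) k)} {w : Mx n k}
    {Z0 Z1 : Set (Pn k n)} (h : CelS G B c w Z0 Z1) (hG : Grp G) (hB : G ⊆ B) {g : Mx n C}
    (h1 : Sol G g) (h2 : Sol Z1 g) (h3 : Ideal.span (vl g '' Z0) = ⊤) :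
    ∃! a : Fin l → C, Sol B ((c.map (aeval a) * w.map (algebraMap k C)).adjugate * g) := by
  have h4 : ∀ a : Fin l → C, Sol G (c.map (aeval a) * w.map (algebraMap k C)) := fun a =>
    hG.mul (((h.2 C).1 a).mono hB) (h.1.rt C)
  obtain ⟨x, hx, e⟩ := (h.2 C).2.2.2 ⟨h1, h2, h3⟩
  replace e : c.map (aeval x.1) * w.map (algebraMap k C) * x.2 = g := e
  refine ⟨x.1, ?_, fun a ha => ?_⟩
  · beta_reduce
    rw [← e, ← Matrix.mul_assoc, hG.adj_mul (h4 _), Matrix.one_mul]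
    exact hx
  · beta_reduce at ha
    have h6 : c.map (aeval a) * w.map (algebraMap k C) *
        ((c.map (aeval a) * w.map (algebraMap k C)).adjugate * g) = g := by
      rw [← Matrix.mul_assoc, hG.mul_adj (h4 _), Matrix.one_mul]
    generalize (c.map (aeval a) * w.map (algebraMap k C)).adjugate * g = b at ha h6
    exact congrArg Prod.fst ((h.2 C).2.2.1
      (show (a, b) ∈ {x : (Fin l → C) × Mx n C | Sol B x.2} from ha) hx (h6.trans e.symm))

theorem CelS.mem {l : ℕ} {G B : Set (Pn k n)} {c : Mx n (MvPolynomial (Fin l) k)} {w : Mx n k}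
    {Z0 Z1 : Set (Pn k n)} (h : CelS G B c w Z0 Z1) (a : Fin l → C) {b : Mx n C} (hb : Sol B b) :
    Sol Z1 (c.map (aeval a) * w.map (algebraMap k C) * b) ∧
      Ideal.span (vl (c.map (aeval a) * w.map (algebraMap k C) * b) '' Z0) = ⊤ :=
  ((h.2 C).2.1 (show (a, b) ∈ {x : (Fin l → C) × Mx n C | Sol B x.2} from hb)).2

/-- the equations of a product of closed sets -/
def EU (S : Fin m → Set (Pn k n)) : Set (Pn k (n * m)) :=
  ⋃ c, vl (blk c (mvPolynomialX _ _ k)) '' S c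

theorem im_EU (S : Fin m → Set (Pn k n)) (x : Fin m → Mx n C) :
    vl (bd x) '' EU S = ⋃ c, vl (x c) '' S c := by
  simp only [EU, Set.image_iUnion, Set.image_image, vl_blk, blk_bd]

theorem sol_EU (S : Fin m → Set (Pn k n)) (x : Fin m → Mx n C) :
    Sol (EU S) (bd x) ↔ ∀ c, Sol (S c) (x c) := by
  simp only [EU, Sol, Set.mem_iUnion, Set.mem_image, forall_exists_index, and_imp]
  constructor
  · intro h c f hf
    have := h _ c f hf rfl
    rwa [vl_blk, blk_bd] at this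
  · rintro h _ c f hf rfl
    rw [vl_blk, blk_bd]
    exact h c f hf

/-- the full datum of a chain -/
def chD (D : Bru k n r) (m : ℕ) (P : Fin (m + 1) → Set (Pn k n)) (dg : ℕ → Fin (m + 1) → ℕ)
    (L : ℕ) : Bru k (n * (m + 1)) (r * (m + 1)) :=
  { chn D m P with
    N := D.N * (m + 1)
    u := bc (fun c i => finProdFinEquiv (i, c)) fun _ => D.u
    M := L + 1
    l := fun j => ∑ c, D.l (dg j c)
    c := fun j => bc (fun c i => finSigmaFinEquiv ⟨c, i⟩) fun c => D.c (dg j c)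
    w := fun j => bd fun c => D.w (dg j c)
    Z := PZ fun j => EU fun c => D.Z (dg j c + 1) }

theorem key_PZ {D : Bru k n r} (hM : D.Mono) (h0 : D.Z 0 = {1}) {dg : ℕ → Fin m → ℕ} {j : ℕ}
    (h2 : ∀ c t, dg j c = t + 1 → ∃ i < j, dg i = update (dg j) c t)
    (h3 : ∀ i < j, ∃ c, dg i c < dg j c) (x : Fin m → Mx n C) :
    (Sol (PZ (fun j => EU fun c => D.Z (dg j c + 1)) (j + 1)) (bd x) ∧
      Ideal.span (vl (bd x) '' PZ (fun j => EU fun c => D.Z (dg j c + 1)) j) = ⊤) ↔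
    ∀ c, Sol (D.Z (dg j c + 1)) (x c) ∧ Ideal.span (vl (x c) '' D.Z (dg j c)) = ⊤ := by
  constructor
  · rintro ⟨h4, h5⟩
    rw [sol_PZ _ _ _ h5, sol_EU] at h4
    rw [span_PZ] at h5
    refine fun c => ⟨h4 c, ?_⟩
    rcases e : dg j c with _ | t
    · rw [h0]
      exact span_one _
    · obtain ⟨i, hi, e1⟩ := h2 c t e
      have h6 := h5 i hi
      rw [im_EU, e1] at h6
      refine top_le_iff.1 (h6.ge.trans (Ideal.span_le.2 (Set.iUnion_subset fun c' => ?_)))
      rcases eq_or_ne c' c with rfl | hc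
      · rw [update_self]
        exact Ideal.subset_span
      · rw [update_of_ne hc]
        rintro _ ⟨f, hf, rfl⟩
        rw [h4 c' f hf]
        exact zero_mem _
  · intro h
    have h5 : Ideal.span (vl (bd x) '' PZ (fun j => EU fun c => D.Z (dg j c + 1)) j) = ⊤ := by
      rw [span_PZ]
      intro i hi
      obtain ⟨c, hc⟩ := h3 i hi
      rw [im_EU]
      exact top_le_iff.1 ((h c).2.ge.trans ((hM.span _ hc).trans
        (Ideal.span_mono (Set.subset_iUnion (fun c => vl (x c) '' D.Z (dg i c + 1)) c))))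
    exact ⟨(sol_PZ _ _ _ h5).2 ((sol_EU _ _).2 fun c => (h c).1), h5⟩

theorem cel_pe {G B : Set (Pn k n)} (hG : Grp G) (hB : G ⊆ B) {l : Fin m → ℕ}
    {u : (c : Fin m) → Mx n (MvPolynomial (Fin (l c)) k)} {w : Fin m → Mx n k}
    {Z0 Z1 : Fin m → Set (Pn k n)} (h : ∀ c, CelS G B (u c) (w c) (Z0 c) (Z1 c))
    {Y0 Y1 : Set (Pn k (n * m))}
    (hY : ∀ (C : Type) [CommRing C] [Algebra k C] (x : Fin m → Mx n C),
      (Sol Y1 (bd x) ∧ Ideal.span (vl (bd x) '' Y0) = ⊤) ↔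
        ∀ c, Sol (Z1 c) (x c) ∧ Ideal.span (vl (x c) '' Z0 c) = ⊤) :
    CelS (pe fun _ => G) (pe fun _ => B) (bc (fun c i => finSigmaFinEquiv ⟨c, i⟩) u) (bd w)
      Y0 Y1 := by
  refine celS_of (pe_grp fun _ => hG) (pe_mono fun _ => hB) (sol_bd.2 fun c => (h c).1)
    (fun C _ _ a => ?_) (fun C _ _ a b hb => ?_) fun C _ _ g hg h1 h2 => ?_
  · rw [bc_map, sol_bd]
    exact fun c => ((h c).2 C).1 _
  · obtain ⟨y, rfl, hy⟩ := sol_pe.1 hb
    rw [bc_map, bd_map _ _ (map_zero _), bd_mul, bd_mul, hY]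
    exact fun c => (h c).mem _ (hy c)
  · obtain ⟨x, rfl, hx⟩ := sol_pe.1 hg
    have h3 := (hY C x).1 ⟨h1, h2⟩
    have h4 : ∀ a : Fin (∑ c, l c) → C, Sol (pe fun _ => B)
        (((bc (fun c i => finSigmaFinEquiv ⟨c, i⟩) u).map (aeval a) *
          (bd w).map (algebraMap k C)).adjugate * bd x) ↔ ∀ c, Sol B
        (((u c).map (aeval fun i => a (finSigmaFinEquiv ⟨c, i⟩)) *
          (w c).map (algebraMap k C)).adjugate * x c) := fun a => by
      rw [bc_map, bd_map _ _ (map_zero _), bd_mul, bd_adj fun c => hG.det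
        (hG.mul ((((h c).2 C).1 _).mono hB) ((h c).1.rt C)), bd_mul, sol_bd]
    choose a ha hu using fun c => (h c).exu hG hB (hx c) (h3 c).1 (h3 c).2
    refine ⟨fun i => a (finSigmaFinEquiv.symm i).1 (finSigmaFinEquiv.symm i).2, (h4 _).2 fun c => ?_,
      fun y hy => funext fun i => ?_⟩
    · have e : (fun i => a (finSigmaFinEquiv.symm (finSigmaFinEquiv (n := l) ⟨c, i⟩)).1
          (finSigmaFinEquiv.symm (finSigmaFinEquiv (n := l) ⟨c, i⟩)).2) = a c :=
        funext fun i => congrArg (fun z : (c : Fin m) × Fin (l c) => a z.1 z.2)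
          (finSigmaFinEquiv.symm_apply_apply ⟨c, i⟩)
      rw [e]
      exact ha c
    · rw [← hu _ _ ((h4 y).1 hy _)]
      exact congrArg y (finSigmaFinEquiv.apply_symm_apply i).symm

theorem chn_ok [Finite k] {D : Bru k n r} (hM : D.Mono) {P : Fin (m + 1) → Set (Pn k n)}
    (h : ∀ c, ({ D with Pa := P c } : Bru k n r).Ok) :
    ∃ (dg : ℕ → Fin (m + 1) → ℕ) (L : ℕ), (chD D m P dg L).Ok := by
  have h0 := h 0
  have hM0 : 0 < D.M := Nat.pos_of_ne_zero fun e => by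
    have h1 : D.Z D.M = ∅ := h0.ends.2
    rw [e, show D.Z 0 = {1} from h0.ends.1] at h1
    exact Set.singleton_ne_empty _ h1
  obtain ⟨dg, L, h1, h2, h3, h4⟩ := ex_dg D.M (m + 1) hM0
  refine ⟨dg, L, ⟨pe_grp fun _ => h0.grp.1, pe_grp fun _ => h0.grp.2.1,
    pe_grp fun c => (h c).grp.2.2⟩, ⟨pe_mono fun c => (h c).sub.1, pe_mono fun c => (h c).sub.2⟩,
    ⟨pe_smo fun _ => h0.smo.1, pe_smo fun c => (h c).smo.2⟩, chn_hom D m P h0.hom,
    chn_pow D m P h0.pow, pe_bor D m P h0.bor, chn_span D m P h0.span, ⟨rfl, ?_⟩, fun j hj => ?_,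
    chn_dbl D m P fun c => (h c).dbl⟩
  · show PZ _ L * EU _ = ∅
    simp only [EU, h4, show D.Z D.M = ∅ from h0.ends.2, Set.image_empty, Set.iUnion_empty,
      Set.mul_empty]
  · exact cel_pe h0.grp.1 (h0.sub.1.trans h0.sub.2) (fun c => h0.cel _ (h1 j hj c))
      fun C _ _ x => key_PZ hM h0.ends.1 (h2 j hj) (h3 j hj) x

end Pool.Agent.P.MP_1bf4cb_ag.RG
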