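import Pool.Agent.P.MP_1bf4cb_ag.TH
import Pool.Agent.P.MP_1bf4cb_ag.TJ
import Pool.Agent.P.MP_1bf4cb_ag.RS

set_option autoImplicit false
set_option maxHeartbeats 800000
set_option linter.unusedSectionVars false
set_option linter.unusedVariables false

noncomputable section

namespace Pool.Agent.P.MP_1bf4cb_ag.RG

variable {k : Type} [Field k] {n r : ℕ}

theorem main' [Finite k] {D E : Bru k n r} (h : E.Ok) (h1 : E.G = D.G) (h2 : E.B = D.B)
    (h3 : E.Pa = D.Pa) (h4 : E.F = D.F) (h5 : E.wt = D.wt) (N : ℕ)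
    (P : Fin (N + 1) → Polynomial ℚ) (hP : Pairwise fun i j => IsCoprime (P i) (P j)) :
    ∃ π : Fin (N + 1) → Polynomial ℚ, (∀ i j, P j ∣ π i - if i = j then 1 else 0) ∧
      Ort (fun a => D.gph (Nat.card k ^ a)) π := by
  have := main k n r E h N P hP
  cases D
  cases E
  dsimp only at h1 h2 h3 h4 h5
  subst h1 h2 h3 h4 h5
  exact this

theorem g2_chain (k : Type) [Field k] [Finite k] (m : ℕ) (s : Fin (m + 1) → Bool) :
    ∃ E : Bru k (8 * (m + 1)) (2 * (m + 1)), E.Ok ∧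
      E.G = (chn (g2 k) m fun c => eP k (s c)).G ∧ E.B = (chn (g2 k) m fun c => eP k (s c)).B ∧
      E.Pa = (chn (g2 k) m fun c => eP k (s c)).Pa ∧ E.F = (chn (g2 k) m fun c => eP k (s c)).F ∧
      E.wt = (chn (g2 k) m fun c => eP k (s c)).wt := by
  obtain ⟨dg, L, h⟩ := chn_ok (D := g2D k false) (P := fun c => eP k (s c))
    (fun C _ _ j g => g2_mono false j) fun c => g2_ok (s c)
  exact ⟨_, h, rfl, rfl, rfl, rfl, rfl⟩

theorem g2_main (k : Type) [Field k] [Finite k] (m : ℕ) (s : Fin (m + 1) → Bool) (N : ℕ)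
    (P : Fin (N + 1) → Polynomial ℚ) (hP : Pairwise fun i j => IsCoprime (P i) (P j)) :
    ∃ π : Fin (N + 1) → Polynomial ℚ, (∀ i j, P j ∣ π i - if i = j then 1 else 0) ∧
      Ort (fun a => (chn (g2 k) m fun c => eP k (s c)).gph (Nat.card k ^ a)) π := by
  obtain ⟨E, h, h1, h2, h3, h4, h5⟩ := g2_chain k m s
  exact main' h h1 h2 h3 h4 h5 N P hP

end Pool.Agent.P.MP_1bf4cb_ag.RG
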