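import Pool.Agent.P.MP_1bf4cb_ag.TK
import Pool.Agent.P.MP_1bf4cb_ag.NsD

set_option autoImplicit false
set_option maxHeartbeats 800000
set_option linter.unusedSectionVars false
set_option linter.unusedVariables false

noncomputable section

namespace Pool.Agent.P.MP_1bf4cb_ag.RG

open Matrix

variable {k : Type} [Field k] {n r m : ℕ}

theorem chain_desc [Finite k] {D : Bru k n r} (hM : D.Mono) {P : Fin (m + 1) → Set (Pn k n)}
    (h : ∀ c, ({ D with Pa := P c } : Bru k n r).Ok) :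
    ∃ E : Bru k (n * (m + 1)) (r * (m + 1)), E.Ok ∧ ∀ (C : Type) [CommRing C] [Algebra k C],
      (∀ g : Mx (n * (m + 1)) C, (Sol E.G g ↔ ∃ x, g = bd x ∧ ∀ c, Sol D.G (x c)) ∧
        (Sol E.B g ↔ ∃ x, g = bd x ∧ ∀ c, Sol D.B (x c)) ∧
        (Sol E.Pa g ↔ ∃ x, g = bd x ∧ ∀ c, Sol (P c) (x c))) ∧
      ∀ x : Fin (m + 1) → Mx n C,
        E.fr (bd x) = bd fun c => if c = Fin.last m then D.fr (x 0) else x (c + 1) := by
  obtain ⟨dg, L, h1⟩ := chn_ok hM h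
  exact ⟨_, h1, fun C _ _ => ⟨fun g => ⟨sol_pe, sol_pe, sol_pe⟩, chn_fr D m P⟩⟩

theorem slD_mono (β : Fin (r + 1) → ℕ) (F : Mx (r + 1) (Pn k (r + 1))) (M : ℕ)
    (en : ℕ → Equiv.Perm (Fin (r + 1))) : (In.slD β F M en).Mono := by
  rintro C _ _ j g hg _ ⟨a, ha, b, hb, rfl⟩
  exact (vl_mul g a b).trans (by rw [hg a ha, zero_mul])

theorem sl_all [Finite k] (p : ℕ) [Fact p.Prime] [CharP k p] {e : ℕ} (he : 0 < e) (u : Bool) :
    ∃ D : Bru k (r + 1) r, D.Mono ∧ (∀ β : Fin (r + 1) → ℕ, Monotone β → ∃ P,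
      ({ D with Pa := P } : Bru k (r + 1) r).Ok ∧ ∀ (C : Type) [CommRing C] [Algebra k C]
        (g : Mx (r + 1) C), Sol P g ↔ g.det = 1 ∧ g.BlockTriangular β) ∧
      ∀ (C : Type) [CommRing C] [Algebra k C] (g : Mx (r + 1) C), (Sol D.G g ↔ g.det = 1) ∧
        (Sol D.B g ↔ g.det = 1 ∧ g.IsUpperTriangular) ∧
        D.fr g = if u then (g.map (· ^ p ^ e)).adjugateᵀ.submatrix Fin.revPerm Fin.revPerm
          else g.map (· ^ p ^ e) := by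
  obtain ⟨M, en, h1, h2⟩ := In.exists_en (r + 1)
  obtain ⟨D, h3, h4⟩ := In.exists_ok (k := k) p he (β := fun _ : Fin (r + 1) => 0)
    monotone_const u
  refine ⟨In.slD (fun _ => 0) D.F M en, slD_mono _ _ _ _, fun β hβ => ⟨In.eqs k β,
    In.slD_ok hβ h1 h2 (fun C _ _ g h hg hh => ?_) ?_, fun C _ _ g => In.sol_eqs⟩,
    fun C _ _ g => ⟨In.sol_G, In.sol_B, (h4 C g).2.2.2⟩⟩
  · have := h3.hom C g h ((h4 C g).1.2 (In.sol_G.1 hg)) ((h4 C h).1.2 (In.sol_G.1 hh))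
    exact ⟨In.sol_G.2 ((h4 C _).1.1 this.1), this.2.1, fun hb => In.sol_B.2 ((h4 C _).2.1.1
      (this.2.2 ((h4 C g).2.1.2 (In.sol_B.1 hb))))⟩
  · obtain ⟨ρ, e', h5, h6⟩ := h3.pow
    exact ⟨ρ, e', h5, fun C _ _ g hg => h6 C g ((h4 C g).1.2 (In.sol_G.1 hg))⟩

theorem g2_all [Finite k] : ∃ D : Bru k 8 2, D.Mono ∧
    (∀ s, ({ D with Pa := eP k s } : Bru k 8 2).Ok) ∧ D.G = (g2 k).G ∧ D.B = (g2 k).B ∧
      D.F = (g2 k).F :=
  ⟨g2D k false, fun C _ _ j g => g2_mono false j, fun s => g2_ok s, rfl, rfl, rfl⟩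

end Pool.Agent.P.MP_1bf4cb_ag.RG
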