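import Pool.Agent.P.MP_1bf4cb_ag.TK

namespace Pool.Agent.P.MP_1bf4cb_ag.VariantG2DL

open Pool.Agent.P.MP_1bf4cb_ag.RG

theorem result (k : Type) [Field k] [Finite k] (m : ℕ) (s : Fin (m + 1) → Bool) (N : ℕ)
    (P : Fin (N + 1) → Polynomial ℚ) (hP : Pairwise fun i j => IsCoprime (P i) (P j)) :
    ∃ π : Fin (N + 1) → Polynomial ℚ, (∀ i j, P j ∣ π i - if i = j then 1 else 0) ∧
      Ort (fun a => (chn (g2 k) m fun c => eP k (s c)).gph (Nat.card k ^ a)) π :=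
  g2_main k m s N P hP

end Pool.Agent.P.MP_1bf4cb_ag.VariantG2DL
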