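import Pool.Agent.P.MP_1bf4cb_ag.G0

set_option autoImplicit false
set_option linter.unusedSectionVars false
set_option linter.unusedVariables false

open Function Matrix
open scoped TensorProduct

noncomputable section

namespace Pool.Agent.P.MP_1bf4cb_ag

/-- the numerical data -/
structure Dat (k : Type) [Field k] where
  n : ℕ
  m : ℕ
  d : ℕ
  q : ℕ
  E : Fin (d + 1) → Fin m → Fin m → Prop
  two : 2 ≤ q
  add : ∀ (C : Type) [CommRing C] [Algebra k C] (x y : C), (x + y) ^ q = x ^ q + y ^ q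

/-- square matrices -/
abbrev Mt (n : ℕ) (C : Type) := Matrix (Fin n) (Fin n) C

/-- the projection onto a coordinate subspace -/
def dg {n : ℕ} (C : Type) [CommRing C] (I : Finset (Fin n)) : Mt n C :=
  Matrix.diagonal fun a => if a ∈ I then 1 else 0

/-- all entries lie in `S` -/
def InS {n : ℕ} {C : Type} [CommRing C] (S : Subring C) (M : Mt n C) : Prop := ∀ a b, M a b ∈ S

/-- the level of a set of rows -/
def lev {n : ℕ} (w : Fin n → ℕ) (I : Finset (Fin n)) : ℕ := ∑ a ∈ I, 2 ^ w a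

/-- the minor with rows `I` and columns `j` -/
def mnr {n : ℕ} {C : Type} [CommRing C] (M : Mt n C) (I : Finset (Fin n)) (j : I → Fin n) : C :=
  (M.submatrix (Subtype.val : I → Fin n) j).det

variable {k : Type} [Field k] (𝒟 : Dat k)

/-- the `q`-th power map -/
def Dat.fr (C : Type) [CommRing C] [Algebra k C] : C →+* C where
  toFun x := x ^ 𝒟.q
  map_one' := one_pow _
  map_mul' x y := mul_pow x y _
  map_zero' := zero_pow (by have := 𝒟.two; omega)
  map_add' := 𝒟.add C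

/-- points of the universal family -/
@[ext] structure Pt (C : Type) where
  e : Ix 𝒟.d 𝒟.m → Mt 𝒟.n C
  γ : Fin (𝒟.d + 1) → Mt 𝒟.n C

variable {𝒟} {C C' : Type} [CommRing C] [CommRing C']

/-- image of a point under a homomorphism -/
def Pt.map (x : Pt 𝒟 C) (φ : C → C') : Pt 𝒟 C' := ⟨fun v => (x.e v).map φ, fun c => (x.γ c).map φ⟩

variable (𝒟)

/-- left factor of an edge equation -/
def LA (c : Fin (𝒟.d + 1)) (M : Mt 𝒟.n C) : Mt 𝒟.n C := if c = Fin.last 𝒟.d then Mᵀ else 1 - M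

/-- right factor of an edge equation -/
def RB (c : Fin (𝒟.d + 1)) (M : Mt 𝒟.n C) : Mt 𝒟.n C :=
  if c = Fin.last 𝒟.d then M.map (· ^ 𝒟.q) else M

/-- left factor of the action -/
def LG (c : Fin (𝒟.d + 1)) (g h : Mt 𝒟.n C) : Mt 𝒟.n C := if c = Fin.last 𝒟.d then hᵀ else g

variable {𝒟}

/-- the equations of the universal family -/
structure Sat0 (x : Pt 𝒟 C) : Prop where
  chain : ∀ s c i j, i ≤ j → x.e (s, c, j) * x.e (s, c, i) = x.e (s, c, i)
  edge : ∀ s c i j, 𝒟.E c i j → LA 𝒟 c (x.e (s, c, i)) * x.γ c * RB 𝒟 c (x.e (s, c + 1, j)) = 0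

/-- the image of `M` is the coordinate subspace `I` -/
def Std {n : ℕ} (I : Finset (Fin n)) (M : Mt n C) : Prop := dg C I * M = M ∧ M * dg C I = dg C I

/-- assignments of coordinate subspaces -/
abbrev Asg (𝒟 : Dat k) := Ix 𝒟.d 𝒟.m → Option (Finset (Fin 𝒟.n))

/-- the equations with some subspaces fixed -/
structure Sat (τ : Asg 𝒟) (x : Pt 𝒟 C) : Prop where
  base : Sat0 x
  std : ∀ v I, τ v = some I → Std I (x.e v)

/-- the equations of the fibre over the standard form -/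
structure Sat1 (x : Pt 𝒟 C) : Prop where
  base : Sat0 x
  one : ∀ c, x.γ c = 1

/-- change of frames -/
def act (g h : Fin (𝒟.d + 1) → Mt 𝒟.n C) (x : Pt 𝒟 C) : Pt 𝒟 C :=
  ⟨fun v => g v.2.1 * x.e v * h v.2.1,
    fun c => LG 𝒟 c (g c) (h c) * x.γ c * RB 𝒟 c (h (c + 1))⟩

/-- `g` and `h` are inverse to each other -/
def Inv {n : ℕ} {ι : Type} (g h : ι → Mt n C) : Prop := ∀ c, g c * h c = 1 ∧ h c * g c = 1

/-- the pair `(R, x)` represents the condition `S` -/
structure Rep (S : ∀ (C : Type) [CommRing C], Pt 𝒟 C → Prop) (R : Type) [CommRing R]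
    [Algebra k R] (x : Pt 𝒟 R) : Prop where
  sat : S R x
  gen : ∀ T : Subring R, (∀ c : k, algebraMap k R c ∈ T) → (∀ v, InS T (x.e v)) →
    (∀ c, InS T (x.γ c)) → T = ⊤
  univ : ∀ (C : Type) [CommRing C] [Algebra k C] (y : Pt 𝒟 C), S C y →
    ∃ φ : R →ₐ[k] C, x.map φ = y
  ft : Algebra.FiniteType k R

/-- representing `Sat τ` -/
abbrev RepT (τ : Asg 𝒟) (R : Type) [CommRing R] [Algebra k R] (x : Pt 𝒟 R) : Prop :=
  Rep (fun C _ y => Sat τ y) R x

/-- representing `Sat1` -/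
abbrev Rep1 (R : Type) [CommRing R] [Algebra k R] (x : Pt 𝒟 R) : Prop :=
  Rep (fun C _ y => Sat1 y) R x

/-- every ring representing `Sat τ` is cellular -/
def CellT (τ : Asg 𝒟) : Prop :=
  ∀ (R : Type) [CommRing R] [Algebra k R] (x : Pt 𝒟 R), RepT τ R x → Cell R

/-- the allowed places for an elimination matrix -/
def Alw (τ : Asg 𝒟) (c₀ : Fin (𝒟.d + 1)) (w : Fin 𝒟.n → ℕ) (I : Finset (Fin 𝒟.n))
    (a' a : Fin 𝒟.n) : Prop :=
  a ∈ I ∧ a' ∉ I ∧ w a' < w a ∧ ∀ v J, v.2.1 = c₀ → τ v = some J → a ∈ J → a' ∈ J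

/-- the family that is `u` at the colour `c₀` and `1` elsewhere -/
def at1 (c₀ : Fin (𝒟.d + 1)) (u : Mt 𝒟.n C) : Fin (𝒟.d + 1) → Mt 𝒟.n C :=
  fun c => if c = c₀ then u else 1

/-- generic frames over `R` -/
def gfr (R : Type) [CommRing R] (c : Fin (𝒟.d + 1)) :
    Mt 𝒟.n (MvPolynomial (Fin (𝒟.d + 1) × Fin 𝒟.n × Fin 𝒟.n) R) :=
  Matrix.of fun a b => MvPolynomial.X (c, a, b)

end Pool.Agent.P.MP_1bf4cb_ag
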