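import Pool.Agent.P.MP_1bf4cb_ag.X0

set_option autoImplicit false
set_option linter.unusedSectionVars false
set_option linter.unusedVariables false

open Function Matrix
open scoped TensorProduct

noncomputable section

namespace Pool.Agent.P.MP_1bf4cb_ag

variable {k : Type} [Field k] {𝒟 : Dat k} {C C' : Type} [CommRing C] [CommRing C']
  {g h : Fin (𝒟.d + 1) → Mt 𝒟.n C} {x : Pt 𝒟 C} {τ : Asg 𝒟}

theorem RB_mul [Algebra k C] (c : Fin (𝒟.d + 1)) (M N : Mt 𝒟.n C) :
    RB 𝒟 c (M * N) = RB 𝒟 c M * RB 𝒟 c N := by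
  unfold RB
  split_ifs
  · exact Matrix.map_mul (L := M) (M := N) (f := 𝒟.fr C)
  · rfl

theorem RB_one (c : Fin (𝒟.d + 1)) : RB 𝒟 c (1 : Mt 𝒟.n C) = 1 := by
  have hq : 𝒟.q ≠ 0 := by have := 𝒟.two; omega
  unfold RB
  split_ifs
  · exact Matrix.map_one _ (zero_pow hq) (one_pow _)
  · rfl

theorem RB_dg (c : Fin (𝒟.d + 1)) (I : Finset (Fin 𝒟.n)) : RB 𝒟 c (dg C I) = dg C I := by
  have hq : 𝒟.q ≠ 0 := by have := 𝒟.two; omega
  unfold RB
  split_ifs
  · ext a b
    simp only [dg, Matrix.map_apply, Matrix.diagonal_apply]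
    split_ifs <;> simp [hq]
  · rfl

theorem dg_map {n : ℕ} (φ : C →+* C') (I : Finset (Fin n)) : (dg C I).map φ = dg C' I := by
  ext a b
  simp only [dg, Matrix.map_apply, Matrix.diagonal_apply]
  split_ifs <;> simp

theorem dg_mul_apply {n : ℕ} (I : Finset (Fin n)) (M : Mt n C) (a b : Fin n) :
    (dg C I * M) a b = if a ∈ I then M a b else 0 := by
  simp only [dg, Matrix.diagonal_mul]
  split_ifs <;> simp

theorem mul_dg_apply {n : ℕ} (I : Finset (Fin n)) (M : Mt n C) (a b : Fin n) :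
    (M * dg C I) a b = if b ∈ I then M a b else 0 := by
  simp only [dg, Matrix.mul_diagonal]
  split_ifs <;> simp

theorem InS.mul {n : ℕ} {S : Subring C} {M N : Mt n C} (hM : InS S M) (hN : InS S N) :
    InS S (M * N) := by
  intro a b
  rw [Matrix.mul_apply]
  exact S.sum_mem fun j _ => S.mul_mem (hM a j) (hN j b)

theorem InS.one {n : ℕ} (S : Subring C) : InS S (1 : Mt n C) := by
  intro a b
  rw [Matrix.one_apply]
  split_ifs
  · exact S.one_mem
  · exact S.zero_mem

theorem InS.add {n : ℕ} {S : Subring C} {M N : Mt n C} (hM : InS S M) (hN : InS S N) :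
    InS S (M + N) := by
  exact fun a b => S.add_mem (hM a b) (hN a b)

theorem InS.sub {n : ℕ} {S : Subring C} {M N : Mt n C} (hM : InS S M) (hN : InS S N) :
    InS S (M - N) := by
  exact fun a b => S.sub_mem (hM a b) (hN a b)

theorem InS.tr {n : ℕ} {S : Subring C} {M : Mt n C} (hM : InS S M) : InS S Mᵀ := by
  exact fun a b => hM b a

theorem InS.pow {n : ℕ} {S : Subring C} {M : Mt n C} (hM : InS S M) (r : ℕ) :
    InS S (M.map (· ^ r)) := by
  exact fun a b => S.pow_mem (hM a b) r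

theorem det_mem_XA {n : ℕ} {S : Subring C} {M : Mt n C} (hM : InS S M) : M.det ∈ S := by
  rw [Matrix.det_apply']
  exact S.sum_mem fun σ _ => S.mul_mem (intCast_mem S _) (S.prod_mem fun i _ => hM _ _)

theorem InS.adj {n : ℕ} {S : Subring C} {M : Mt n C} (hM : InS S M) : InS S M.adjugate := by
  intro a b
  rw [Matrix.adjugate_apply]
  refine det_mem_XA fun i j => ?_
  rw [Matrix.updateRow_apply]
  split_ifs
  · rw [Pi.single_apply]
    split_ifs
    · exact S.one_mem
    · exact S.zero_mem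
  · exact hM i j

theorem InS.det {n : ℕ} {S : Subring C} {M : Mt n C} (hM : InS S M) : M.det ∈ S := by
  exact det_mem_XA hM

end Pool.Agent.P.MP_1bf4cb_ag
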