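import Pool.Agent.P.MP_1bf4cb_ag.XA

set_option autoImplicit false
set_option linter.unusedSectionVars false
set_option linter.unusedVariables false

open Function Matrix
open scoped TensorProduct

noncomputable section

namespace Pool.Agent.P.MP_1bf4cb_ag

variable {k : Type} [Field k] {𝒟 : Dat k} {C C' : Type} [CommRing C] [CommRing C']
  {g h : Fin (𝒟.d + 1) → Mt 𝒟.n C} {x : Pt 𝒟 C} {τ : Asg 𝒟}

theorem LA_LG_XA2 (c : Fin (𝒟.d + 1)) (a b e : Mt 𝒟.n C) (hba : b * a = 1) :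
    LA 𝒟 c (a * e * b) * LG 𝒟 c a b = LG 𝒟 c a b * LA 𝒟 c e := by
  unfold LA LG
  split_ifs with hc
  · rw [← Matrix.transpose_mul, ← Matrix.transpose_mul]
    congr 1
    rw [← Matrix.mul_assoc, ← Matrix.mul_assoc, hba, Matrix.one_mul]
  · rw [Matrix.sub_mul, Matrix.mul_sub, Matrix.one_mul, Matrix.mul_one, Matrix.mul_assoc (a * e), hba,
      Matrix.mul_one]

theorem LG_LG_XA2 (c : Fin (𝒟.d + 1)) (a b : Mt 𝒟.n C) (hba : b * a = 1) :
    LG 𝒟 c b a * LG 𝒟 c a b = 1 := by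
  unfold LG
  split_ifs with hc
  · rw [← Matrix.transpose_mul, hba, Matrix.transpose_one]
  · exact hba

theorem LG_map_XA2 (φ : C →+* C') (c : Fin (𝒟.d + 1)) (a b : Mt 𝒟.n C) :
    (LG 𝒟 c a b).map φ = LG 𝒟 c (a.map φ) (b.map φ) := by
  unfold LG
  split_ifs with hc
  · rfl
  · rfl

theorem RB_map_XA2 (φ : C →+* C') (c : Fin (𝒟.d + 1)) (a : Mt 𝒟.n C) :
    (RB 𝒟 c a).map φ = RB 𝒟 c (a.map φ) := by
  unfold RB
  split_ifs with hc
  · ext i j
    simp only [Matrix.map_apply, map_pow]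
  · rfl

theorem one_map_XA2 {n : ℕ} (φ : C →+* C') : (1 : Mt n C).map φ = 1 :=
  Matrix.map_one _ (map_zero φ) (map_one φ)

theorem LA_map_XA2 (φ : C →+* C') (c : Fin (𝒟.d + 1)) (a : Mt 𝒟.n C) :
    (LA 𝒟 c a).map φ = LA 𝒟 c (a.map φ) := by
  unfold LA
  split_ifs with hc
  · rfl
  · rw [Matrix.map_sub _ (map_sub φ), one_map_XA2]

theorem sat0_act [Algebra k C] (hx : Sat0 x) (hi : Inv g h) : Sat0 (act g h x) := by
  refine ⟨fun s c i j hij => ?_, fun s c i j hE => ?_⟩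
  · show g c * x.e (s, c, j) * h c * (g c * x.e (s, c, i) * h c) = g c * x.e (s, c, i) * h c
    have h1 := hx.chain s c i j hij
    calc g c * x.e (s, c, j) * h c * (g c * x.e (s, c, i) * h c)
        = g c * (x.e (s, c, j) * (h c * g c) * x.e (s, c, i)) * h c := by
          simp only [Matrix.mul_assoc]
      _ = g c * x.e (s, c, i) * h c := by rw [(hi c).2, Matrix.mul_one, h1]
  · show LA 𝒟 c (g c * x.e (s, c, i) * h c) *
        (LG 𝒟 c (g c) (h c) * x.γ c * RB 𝒟 c (h (c + 1))) *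
        RB 𝒟 c (g (c + 1) * x.e (s, c + 1, j) * h (c + 1)) = 0
    have h1 := hx.edge s c i j hE
    have h2 : RB 𝒟 c (h (c + 1)) * RB 𝒟 c (g (c + 1) * x.e (s, c + 1, j) * h (c + 1)) =
        RB 𝒟 c (x.e (s, c + 1, j)) * RB 𝒟 c (h (c + 1)) := by
      rw [← RB_mul, ← RB_mul, ← Matrix.mul_assoc, ← Matrix.mul_assoc, (hi (c + 1)).2,
        Matrix.one_mul]
    calc LA 𝒟 c (g c * x.e (s, c, i) * h c) *
        (LG 𝒟 c (g c) (h c) * x.γ c * RB 𝒟 c (h (c + 1))) *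
        RB 𝒟 c (g (c + 1) * x.e (s, c + 1, j) * h (c + 1))
        = (LA 𝒟 c (g c * x.e (s, c, i) * h c) * LG 𝒟 c (g c) (h c)) * x.γ c *
          (RB 𝒟 c (h (c + 1)) * RB 𝒟 c (g (c + 1) * x.e (s, c + 1, j) * h (c + 1))) := by
          simp only [Matrix.mul_assoc]
      _ = LG 𝒟 c (g c) (h c) *
          (LA 𝒟 c (x.e (s, c, i)) * x.γ c * RB 𝒟 c (x.e (s, c + 1, j))) * RB 𝒟 c (h (c + 1)) := by
          rw [LA_LG_XA2 c _ _ _ (hi c).2, h2]
          simp only [Matrix.mul_assoc]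
      _ = 0 := by rw [h1, Matrix.mul_zero, Matrix.zero_mul]

theorem act_act [Algebra k C] (hi : Inv g h) (x : Pt 𝒟 C) : act h g (act g h x) = x := by
  refine Pt.ext (funext fun v => ?_) (funext fun c => ?_)
  · show h v.2.1 * (g v.2.1 * x.e v * h v.2.1) * g v.2.1 = x.e v
    calc h v.2.1 * (g v.2.1 * x.e v * h v.2.1) * g v.2.1
        = (h v.2.1 * g v.2.1) * x.e v * (h v.2.1 * g v.2.1) := by simp only [Matrix.mul_assoc]
      _ = x.e v := by rw [(hi _).2, Matrix.one_mul, Matrix.mul_one]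
  · show LG 𝒟 c (h c) (g c) * (LG 𝒟 c (g c) (h c) * x.γ c * RB 𝒟 c (h (c + 1))) *
        RB 𝒟 c (g (c + 1)) = x.γ c
    calc LG 𝒟 c (h c) (g c) * (LG 𝒟 c (g c) (h c) * x.γ c * RB 𝒟 c (h (c + 1))) *
        RB 𝒟 c (g (c + 1))
        = (LG 𝒟 c (h c) (g c) * LG 𝒟 c (g c) (h c)) * x.γ c *
          (RB 𝒟 c (h (c + 1)) * RB 𝒟 c (g (c + 1))) := by simp only [Matrix.mul_assoc]
      _ = x.γ c := by
          rw [LG_LG_XA2 c _ _ (hi c).2, ← RB_mul, (hi (c + 1)).2, RB_one, Matrix.one_mul,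
            Matrix.mul_one]

theorem act_map (φ : C →+* C') (g h : Fin (𝒟.d + 1) → Mt 𝒟.n C) (x : Pt 𝒟 C) :
    (act g h x).map φ = act (fun c => (g c).map φ) (fun c => (h c).map φ) (x.map φ) := by
  refine Pt.ext (funext fun v => ?_) (funext fun c => ?_)
  · show (g v.2.1 * x.e v * h v.2.1).map φ =
      (g v.2.1).map φ * (x.e v).map φ * (h v.2.1).map φ
    rw [Matrix.map_mul, Matrix.map_mul]
  · show (LG 𝒟 c (g c) (h c) * x.γ c * RB 𝒟 c (h (c + 1))).map φ =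
      LG 𝒟 c ((g c).map φ) ((h c).map φ) * (x.γ c).map φ * RB 𝒟 c ((h (c + 1)).map φ)
    rw [Matrix.map_mul, Matrix.map_mul, LG_map_XA2, RB_map_XA2]

theorem Sat0.map (hx : Sat0 x) (φ : C →+* C') : Sat0 (x.map φ) := by
  refine ⟨fun s c i j hij => ?_, fun s c i j hE => ?_⟩
  · show (x.e (s, c, j)).map φ * (x.e (s, c, i)).map φ = (x.e (s, c, i)).map φ
    rw [← Matrix.map_mul, hx.chain s c i j hij]
  · show LA 𝒟 c ((x.e (s, c, i)).map φ) * (x.γ c).map φ * RB 𝒟 c ((x.e (s, c + 1, j)).map φ) = 0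
    rw [← LA_map_XA2, ← RB_map_XA2, ← Matrix.map_mul, ← Matrix.map_mul, hx.edge s c i j hE]
    exact Matrix.map_zero _ (map_zero φ)

theorem Sat.map (hx : Sat τ x) (φ : C →+* C') : Sat τ (x.map φ) := by
  refine ⟨hx.base.map φ, fun v I hv => ?_⟩
  obtain ⟨h1, h2⟩ := hx.std v I hv
  refine ⟨?_, ?_⟩
  · show dg C' I * (x.e v).map φ = (x.e v).map φ
    rw [← dg_map φ I, ← Matrix.map_mul, h1]
  · show (x.e v).map φ * dg C' I = dg C' I
    rw [← dg_map φ I, ← Matrix.map_mul, h2]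

theorem Sat1.map (hx : Sat1 x) (φ : C →+* C') : Sat1 (x.map φ) := by
  refine ⟨hx.base.map φ, fun c => ?_⟩
  show (x.γ c).map φ = 1
  rw [hx.one c, one_map_XA2]

theorem Pt.map_map {C'' : Type} (x : Pt 𝒟 C) (φ : C → C') (φ' : C' → C'') :
    (x.map φ).map φ' = x.map (φ' ∘ φ) := by
  rfl

theorem act_InS {S : Subring C} (hg : ∀ c, InS S (g c)) (hh : ∀ c, InS S (h c))
    (he : ∀ v, InS S (x.e v)) (hγ : ∀ c, InS S (x.γ c)) :
    (∀ v, InS S ((act g h x).e v)) ∧ ∀ c, InS S ((act g h x).γ c) := by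
  refine ⟨fun v => ((hg _).mul (he v)).mul (hh _), fun c => ?_⟩
  show InS S (LG 𝒟 c (g c) (h c) * x.γ c * RB 𝒟 c (h (c + 1)))
  refine (InS.mul ?_ (hγ c)).mul ?_
  · unfold LG
    split_ifs
    · exact (hh c).tr
    · exact hg c
  · unfold RB
    split_ifs
    · exact (hh _).pow _
    · exact hh _

theorem sq_zero_XA2 {c₁ : Fin (𝒟.d + 1)} {w : Fin 𝒟.n → ℕ} {I : Finset (Fin 𝒟.n)}
    {z : Mt 𝒟.n C} (hz : ∀ a' a, ¬ Alw τ c₁ w I a' a → z a' a = 0) : z * z = 0 := by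
  ext a b
  rw [Matrix.mul_apply, Matrix.zero_apply]
  refine Finset.sum_eq_zero fun t _ => ?_
  by_cases ht : t ∈ I
  · rw [hz t b (fun hA => hA.2.1 ht), mul_zero]
  · rw [hz a t (fun hA => ht hA.1), zero_mul]

theorem pm_XA2 {n : ℕ} {z : Mt n C} (hz : z * z = 0) :
    (1 + z) * (1 - z) = 1 ∧ (1 - z) * (1 + z) = 1 := by
  constructor
  · rw [Matrix.add_mul, Matrix.mul_sub, Matrix.mul_sub, hz]
    simp
  · rw [Matrix.sub_mul, Matrix.mul_add, Matrix.mul_add, hz]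
    simp

theorem dg_dg_XA2 {n : ℕ} (J : Finset (Fin n)) : dg C J * dg C J = dg C J := by
  ext a b
  rw [dg_mul_apply]
  split_ifs with ha
  · rfl
  · unfold dg
    rw [Matrix.diagonal_apply]
    split_ifs <;> simp_all

theorem std_conj_XA2 {n : ℕ} {J : Finset (Fin n)} {e u u' : Mt n C} (he : Std J e)
    (hu : dg C J * (u * dg C J) = u * dg C J) (hu' : dg C J * (u' * dg C J) = u' * dg C J)
    (huu : u * u' = 1) : Std J (u * e * u') := by
  obtain ⟨h1, h2⟩ := he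
  constructor
  · have h3 : u * e = u * dg C J * e := by rw [Matrix.mul_assoc, h1]
    rw [h3, ← Matrix.mul_assoc, ← Matrix.mul_assoc, hu]
  · calc u * e * u' * dg C J = u * (e * dg C J) * (u' * dg C J) := by
          simp only [Matrix.mul_assoc]
          rw [hu']
      _ = u * (dg C J * (u' * dg C J)) := by rw [h2, Matrix.mul_assoc]
      _ = dg C J := by rw [hu', ← Matrix.mul_assoc, huu, Matrix.one_mul]

theorem zD_XA2 {c₀ : Fin (𝒟.d + 1)} {w : Fin 𝒟.n → ℕ} {I : Finset (Fin 𝒟.n)}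
    {z : Mt 𝒟.n C} (hz : ∀ a' a, ¬ Alw τ c₀ w I a' a → z a' a = 0) {v : Ix 𝒟.d 𝒟.m}
    {J : Finset (Fin 𝒟.n)} (hv : v.2.1 = c₀) (hJ : τ v = some J) :
    dg C J * (z * dg C J) = z * dg C J := by
  ext a b
  rw [dg_mul_apply, mul_dg_apply]
  by_cases ha : a ∈ J
  · rw [if_pos ha]
  · rw [if_neg ha]
    split_ifs with hb
    · exact (hz a b fun hA => ha (hA.2.2.2 v J hv hJ hb)).symm
    · rfl

/-- an elimination matrix has square zero -/
theorem inv_at1 {c₀ c₁ : Fin (𝒟.d + 1)} {w : Fin 𝒟.n → ℕ} {I : Finset (Fin 𝒟.n)} {z : Mt 𝒟.n C}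
    (hz : ∀ a' a, ¬ Alw τ c₁ w I a' a → z a' a = 0) :
    Inv (at1 c₀ (1 + z)) (at1 c₀ (1 - z)) ∧ Inv (at1 c₀ (1 - z)) (at1 c₀ (1 + z)) := by
  have h1 := pm_XA2 (sq_zero_XA2 hz)
  constructor
  · intro c
    unfold at1
    split_ifs
    · exact h1
    · exact ⟨Matrix.one_mul _, Matrix.one_mul _⟩
  · intro c
    unfold at1
    split_ifs
    · exact h1.symm
    · exact ⟨Matrix.one_mul _, Matrix.one_mul _⟩

/-- elimination matrices preserve the fixed subspaces -/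
theorem sat_at1 [Algebra k C] {c₀ : Fin (𝒟.d + 1)} {w : Fin 𝒟.n → ℕ} {I : Finset (Fin 𝒟.n)}
    {z : Mt 𝒟.n C} (hz : ∀ a' a, ¬ Alw τ c₀ w I a' a → z a' a = 0) (hx : Sat τ x) :
    Sat τ (act (at1 c₀ (1 + z)) (at1 c₀ (1 - z)) x) ∧
      Sat τ (act (at1 c₀ (1 - z)) (at1 c₀ (1 + z)) x) := by
  have h1 := pm_XA2 (sq_zero_XA2 hz)
  have hi := inv_at1 (c₀ := c₀) hz
  have hp : ∀ v J, v.2.1 = c₀ → τ v = some J →
      dg C J * ((1 + z) * dg C J) = (1 + z) * dg C J := fun v J hv hJ => by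
    rw [Matrix.add_mul, Matrix.mul_add, Matrix.one_mul, dg_dg_XA2, zD_XA2 hz hv hJ]
  have hm : ∀ v J, v.2.1 = c₀ → τ v = some J →
      dg C J * ((1 - z) * dg C J) = (1 - z) * dg C J := fun v J hv hJ => by
    rw [Matrix.sub_mul, Matrix.mul_sub, Matrix.one_mul, dg_dg_XA2, zD_XA2 hz hv hJ]
  constructor
  · refine ⟨sat0_act hx.base hi.1, fun v J hJ => ?_⟩
    show Std J (at1 c₀ (1 + z) v.2.1 * x.e v * at1 c₀ (1 - z) v.2.1)
    unfold at1
    split_ifs with hv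
    · exact std_conj_XA2 (hx.std v J hJ) (hp v J hv hJ) (hm v J hv hJ) h1.1
    · rw [Matrix.one_mul, Matrix.mul_one]
      exact hx.std v J hJ
  · refine ⟨sat0_act hx.base hi.2, fun v J hJ => ?_⟩
    show Std J (at1 c₀ (1 - z) v.2.1 * x.e v * at1 c₀ (1 + z) v.2.1)
    unfold at1
    split_ifs with hv
    · exact std_conj_XA2 (hx.std v J hJ) (hm v J hv hJ) (hp v J hv hJ) h1.2
    · rw [Matrix.one_mul, Matrix.mul_one]
      exact hx.std v J hJ

end Pool.Agent.P.MP_1bf4cb_ag
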