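import Pool.Agent.P.MP_1bf4cb_ag.XA2

set_option autoImplicit false
set_option linter.unusedSectionVars false
set_option linter.unusedVariables false

open Function Matrix
open scoped TensorProduct

noncomputable section

namespace Pool.Agent.P.MP_1bf4cb_ag

variable {k : Type} [Field k] {𝒟 : Dat k}

theorem Rep.ext {S : ∀ (C : Type) [CommRing C], Pt 𝒟 C → Prop} {R C : Type} [CommRing R]
    [Algebra k R] [CommRing C] {x : Pt 𝒟 R} (h : Rep S R x) {φ φ' : R →+* C}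
    (hk : ∀ c : k, φ (algebraMap k R c) = φ' (algebraMap k R c)) (e : x.map φ = x.map φ') :
    φ = φ' := by
  refine RingHom.ext fun r => ?_
  have h1 := h.gen (φ.eqLocus φ') hk (fun v a b => congrFun (congrFun (congrFun
    (congrArg Pt.e e) v) a) b) fun c a b => congrFun (congrFun (congrFun (congrArg Pt.γ e) c) a) b
  exact (h1 ▸ Subring.mem_top r : r ∈ φ.eqLocus φ')

theorem Rep.noeth {S : ∀ (C : Type) [CommRing C], Pt 𝒟 C → Prop} {R : Type} [CommRing R]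
    [Algebra k R] {x : Pt 𝒟 R} (h : Rep S R x) : IsNoetherianRing R := by
  have := h.ft
  exact Algebra.FiniteType.isNoetherianRing k R

theorem rep_quot_XB {S : ∀ (C : Type) [CommRing C], Pt 𝒟 C → Prop} {σ : Type} [Finite σ]
    (x : Pt 𝒟 (MvPolynomial σ k)) (Z : Set (Mt 𝒟.n (MvPolynomial σ k)))
    (hS : ∀ (C : Type) [CommRing C] (φ : MvPolynomial σ k →+* C),
      S C (x.map φ) ↔ ∀ M ∈ Z, M.map φ = 0)
    (hX : ∀ v, (∃ w a b, MvPolynomial.X v = x.e w a b) ∨ ∃ c a b, MvPolynomial.X v = x.γ c a b)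
    (hU : ∀ (C : Type) [CommRing C] [Algebra k C] (y : Pt 𝒟 C), S C y →
      ∃ f : σ → C, x.map (MvPolynomial.aeval f : MvPolynomial σ k →ₐ[k] C) = y) :
    Rep S (MvPolynomial σ k ⧸ ents Z) (x.map (Ideal.Quotient.mk _)) := by
  refine ⟨(hS _ _).2 fun M hM => ?_, fun T h1 h2 h3 => ?_, fun C _ _ y hy => ?_, inferInstance⟩
  · ext a b
    exact Ideal.Quotient.eq_zero_iff_mem.2 (Ideal.subset_span ⟨M, hM, a, b, rfl⟩)
  · refine eq_top_iff.2 fun r _ => ?_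
    obtain ⟨r, rfl⟩ := Ideal.Quotient.mk_surjective r
    induction r using MvPolynomial.induction_on with
    | C c => exact h1 c
    | add p q hp hq => exact map_add (Ideal.Quotient.mk (ents Z)) p q ▸ T.add_mem (hp trivial) (hq trivial)
    | mul_X p v hp =>
      rw [map_mul]
      refine T.mul_mem (hp trivial) ?_
      rcases hX v with ⟨w, a, b, h⟩ | ⟨c, a, b, h⟩
      · rw [h]
        exact h2 w a b
      · rw [h]
        exact h3 c a b
  · obtain ⟨f, rfl⟩ := hU C y hy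
    have h := (hS C (MvPolynomial.aeval f : MvPolynomial σ k →ₐ[k] C)).1 hy
    refine ⟨Ideal.Quotient.liftₐ _ (MvPolynomial.aeval f) fun r hr => ?_, rfl⟩
    refine (show ents Z ≤ RingHom.ker (MvPolynomial.aeval f : MvPolynomial σ k →ₐ[k] C) from
      Ideal.span_le.2 ?_) hr
    rintro _ ⟨M, hM, a, b, rfl⟩
    exact congrFun (congrFun (h M hM) a) b

theorem pow_map_XB {n : ℕ} {C C' : Type} [CommRing C] [CommRing C'] (φ : C →+* C') (q : ℕ)
    (M : Mt n C) : (M.map (· ^ q)).map φ = (M.map φ).map (· ^ q) := by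
  ext a b
  simp

theorem sub_map_XB {n : ℕ} {C C' : Type} [CommRing C] [CommRing C'] (φ : C →+* C')
    (M N : Mt n C) : (M - N).map φ = M.map φ - N.map φ := by
  ext a b
  simp

theorem LA_map_XB {C C' : Type} [CommRing C] [CommRing C'] (φ : C →+* C') (c : Fin (𝒟.d + 1))
    (M : Mt 𝒟.n C) : (LA 𝒟 c M).map φ = LA 𝒟 c (M.map φ) := by
  unfold LA
  split_ifs
  · rfl
  · rw [sub_map_XB, Matrix.map_one _ (map_zero φ) (map_one φ)]

theorem RB_map_XB {C C' : Type} [CommRing C] [CommRing C'] (φ : C →+* C') (c : Fin (𝒟.d + 1))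
    (M : Mt 𝒟.n C) : (RB 𝒟 c M).map φ = RB 𝒟 c (M.map φ) := by
  unfold RB
  split_ifs
  · exact pow_map_XB φ _ M
  · rfl

theorem exists_rep (τ : Asg 𝒟) :
    ∃ (R : Type) (_ : CommRing R) (_ : Algebra k R) (x : Pt 𝒟 R), RepT τ R x := by
  let x : Pt 𝒟 (MvPolynomial ((Ix 𝒟.d 𝒟.m ⊕ Fin (𝒟.d + 1)) × Fin 𝒟.n × Fin 𝒟.n) k) :=
    ⟨fun v => Matrix.of fun a b => MvPolynomial.X (Sum.inl v, a, b),
      fun c => Matrix.of fun a b => MvPolynomial.X (Sum.inr c, a, b)⟩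
  refine ⟨_, _, _, _, rep_quot_XB x {M | (∃ s c i j, i ≤ j ∧
    M = x.e (s, c, j) * x.e (s, c, i) - x.e (s, c, i)) ∨ (∃ s c i j, 𝒟.E c i j ∧
    M = LA 𝒟 c (x.e (s, c, i)) * x.γ c * RB 𝒟 c (x.e (s, c + 1, j))) ∨ ∃ v I, τ v = some I ∧
    (M = dg _ I * x.e v - x.e v ∨ M = x.e v * dg _ I - dg _ I)} (fun C _ φ => ⟨?_, fun h => ?_⟩)
    ?_ fun C _ _ y _ => ?_⟩
  · rintro h M (⟨s, c, i, j, h1, rfl⟩ | ⟨s, c, i, j, h1, rfl⟩ | ⟨v, I, h1, rfl | rfl⟩)
    · rw [sub_map_XB, Matrix.map_mul, sub_eq_zero]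
      exact h.base.chain s c i j h1
    · rw [Matrix.map_mul, Matrix.map_mul, LA_map_XB, RB_map_XB]
      exact h.base.edge s c i j h1
    · rw [sub_map_XB, Matrix.map_mul, sub_eq_zero, dg_map]
      exact (h.std v I h1).1
    · rw [sub_map_XB, Matrix.map_mul, sub_eq_zero, dg_map]
      exact (h.std v I h1).2
  · refine ⟨⟨fun s c i j h1 => ?_, fun s c i j h1 => ?_⟩, fun v I h1 => ⟨?_, ?_⟩⟩
    · have := h _ (Or.inl ⟨s, c, i, j, h1, rfl⟩)
      rwa [sub_map_XB, Matrix.map_mul, sub_eq_zero] at this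
    · have := h _ (Or.inr (Or.inl ⟨s, c, i, j, h1, rfl⟩))
      rwa [Matrix.map_mul, Matrix.map_mul, LA_map_XB, RB_map_XB] at this
    · have := h _ (Or.inr (Or.inr ⟨v, I, h1, Or.inl rfl⟩))
      rwa [sub_map_XB, Matrix.map_mul, sub_eq_zero, dg_map] at this
    · have := h _ (Or.inr (Or.inr ⟨v, I, h1, Or.inr rfl⟩))
      rwa [sub_map_XB, Matrix.map_mul, sub_eq_zero, dg_map] at this
  · rintro ⟨v | c, a, b⟩
    · exact Or.inl ⟨v, a, b, rfl⟩
    · exact Or.inr ⟨c, a, b, rfl⟩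
  · refine ⟨fun p => Sum.elim y.e y.γ p.1 p.2.1 p.2.2, ?_⟩
    ext <;> simp [x, Pt.map]

theorem rep_crd (𝒟 : Dat k) :
    Rep1 (𝒟 := 𝒟) (Crd k 𝒟.n 𝒟.q 𝒟.E) ⟨univ k 𝒟.n 𝒟.q 𝒟.E, fun _ => 1⟩ := by
  have key : ∀ (C : Type) [CommRing C] (c : Fin (𝒟.d + 1)) (M N : Mt 𝒟.n C), c ≠ Fin.last _ →
      (LA 𝒟 c M * 1 * RB 𝒟 c N = 0 ↔ M * N - N = 0) := by
    intro C _ c M N hc
    rw [LA, RB, if_neg hc, if_neg hc, mul_one, sub_mul, one_mul, sub_eq_zero, sub_eq_zero, eq_comm]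
  have key' : ∀ (C : Type) [CommRing C] (M N : Mt 𝒟.n C),
      LA 𝒟 (Fin.last _) M * 1 * RB 𝒟 (Fin.last _) N = Mᵀ * N.map (· ^ 𝒟.q) := by
    intro C _ M N
    rw [LA, RB, if_pos rfl, if_pos rfl, mul_one]
  have h0 : ∀ (C : Type) [CommRing C] (φ : _ →+* C),
      (⟨gen k 𝒟.n, fun _ => 1⟩ : Pt 𝒟 _).map φ = ⟨fun v => (gen k 𝒟.n v).map φ, fun _ => 1⟩ :=
    fun C _ φ => Pt.ext rfl (funext fun _ => Matrix.map_one _ (map_zero φ) (map_one φ))
  have h := rep_quot_XB (𝒟 := 𝒟) (S := fun C _ y => Sat1 y) ⟨gen k 𝒟.n, fun _ => 1⟩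
    (eqs 𝒟.q 𝒟.E (gen k 𝒟.n)) (fun C _ φ => ?_)
    (fun v => Or.inl ⟨v.1, v.2.1, v.2.2, rfl⟩) fun C _ _ y hy => ?_
  · rwa [h0] at h
  · rw [h0]
    refine ⟨?_, fun h => ⟨⟨fun s c i j h1 => ?_, fun s c i j h1 => ?_⟩, fun _ => rfl⟩⟩
    · rintro h M ⟨s, c, i, j, ⟨h1, rfl⟩ | ⟨h1, h2, rfl⟩ | ⟨h1, rfl, rfl⟩⟩
      · rw [sub_map_XB, Matrix.map_mul, sub_eq_zero]
        exact h.base.chain s c i j h1
      · rw [sub_map_XB, Matrix.map_mul]
        exact (key C c _ _ h2).1 (h.base.edge s c i j h1)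
      · have := h.base.edge s _ i j h1
        rw [key', Fin.last_add_one] at this
        rwa [Matrix.map_mul, pow_map_XB]
    · have := h _ ⟨s, c, i, j, Or.inl ⟨h1, rfl⟩⟩
      rwa [sub_map_XB, Matrix.map_mul, sub_eq_zero] at this
    · by_cases hc : c = Fin.last _
      · have := h _ ⟨s, c, i, j, Or.inr (Or.inr ⟨h1, hc, rfl⟩)⟩
        subst hc
        rw [Matrix.map_mul, pow_map_XB] at this
        rw [key', Fin.last_add_one]
        exact this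
      · have := h _ ⟨s, c, i, j, Or.inr (Or.inl ⟨h1, hc, rfl⟩)⟩
        rw [sub_map_XB, Matrix.map_mul] at this
        exact (key C c _ _ hc).2 this
  · refine ⟨fun p => y.e p.1 p.2.1 p.2.2, (h0 C _).trans (Pt.ext ?_ (funext fun c => (hy.one c).symm))⟩
    ext v a b
    simp [gen]

end Pool.Agent.P.MP_1bf4cb_ag
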