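import Pool.Agent.P.MP_1bf4cb_ag.XA

set_option autoImplicit false
set_option linter.unusedSectionVars false
set_option linter.unusedVariables false

open Function Matrix
open scoped TensorProduct

noncomputable section

namespace Pool.Agent.P.MP_1bf4cb_ag

variable {n : ℕ} {w : Fin n → ℕ} {I I' : Finset (Fin n)}

theorem lev_inj (hw : Injective w) : Injective (lev w) := by
  intro I J h
  have key : ∀ K : Finset (Fin n), lev w K = ∑ i ∈ K.image w, 2 ^ i := fun K => by
    rw [Finset.sum_image (fun a _ b _ hab => hw hab)]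
    rfl
  rw [key, key] at h
  exact Finset.image_injective hw (Finset.geomSum_injective (le_refl 2) h)

theorem mnr_map {C C' : Type} [CommRing C] [CommRing C'] (φ : C →+* C') (M : Mt n C)
    (j : I → Fin n) : φ (mnr M I j) = mnr (M.map φ) I j := by
  unfold mnr
  rw [RingHom.map_det]
  rfl

/-- minors of higher level vanish on a cell -/
theorem mnr_tri {C : Type} [CommRing C] (N M : Mt n C)
    (hN : ∀ a' a, N a' a ≠ 0 → a ∈ I ∧ w a' ≤ w a) (hl : lev w I < lev w I') (j : I' → Fin n) :
    mnr (N * M) I' j = 0 := by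
  have e1 : ((N * M).submatrix (Subtype.val : I' → Fin n) j : I' → I' → C) =
      fun s : I' => ∑ a : Fin n, N s a • (fun b : I' => M a (j b)) := by
    funext s b
    simp [Matrix.mul_apply, Finset.sum_apply]
  have e2 : mnr (N * M) I' j = (Matrix.detRowAlternating (n := I') (R := C)).toMultilinearMap
      (fun s : I' => ∑ a : Fin n, N s a • (fun b : I' => M a (j b))) := by
    rw [← e1]
    rfl
  rw [e2, MultilinearMap.map_sum]
  refine Finset.sum_eq_zero fun f _ => ?_
  rw [MultilinearMap.map_smul_univ]
  by_cases hf : Injective f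
  · have hz : ∃ s : I', N s (f s) = 0 := by
      by_contra hcon
      push Not at hcon
      have h1 : lev w I' ≤ ∑ s : I', 2 ^ w (f s) := by
        unfold lev
        rw [← Finset.sum_coe_sort]
        exact Finset.sum_le_sum fun s _ => Nat.pow_le_pow_right (by norm_num) (hN _ _ (hcon s)).2
      have h2 : ∑ s : I', 2 ^ w (f s) = ∑ a ∈ Finset.univ.image f, 2 ^ w a := by
        rw [Finset.sum_image (fun a _ b _ hab => hf hab)]
      have h3 : ∑ a ∈ Finset.univ.image f, 2 ^ w a ≤ lev w I := by
        refine Finset.sum_le_sum_of_subset fun a ha => ?_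
        obtain ⟨s, -, rfl⟩ := Finset.mem_image.1 ha
        exact (hN _ _ (hcon s)).1
      omega
    obtain ⟨s, hs⟩ := hz
    rw [Finset.prod_eq_zero (Finset.mem_univ s) hs, zero_smul]
  · have h0 : (Matrix.detRowAlternating (n := I') (R := C))
        (fun s : I' => fun b : I' => M (f s) (j b)) = 0 := by
      refine AlternatingMap.map_eq_zero_of_not_injective _ _ fun hinj => hf fun s t hst => ?_
      exact hinj (by simp only [hst])
    have h1 : (Matrix.detRowAlternating (n := I') (R := C)).toMultilinearMap
        (fun s : I' => fun b : I' => M (f s) (j b)) = 0 := h0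
    rw [h1, smul_zero]

theorem det_mem_XC {C : Type} [CommRing C] (S : Subring C) {ι : Type} [Fintype ι] [DecidableEq ι]
    (A : Matrix ι ι C) (hA : ∀ a b, A a b ∈ S) : A.det ∈ S := by
  rw [Matrix.det_apply']
  exact sum_mem fun σ _ => mul_mem (intCast_mem S _) (prod_mem fun i _ => hA _ _)

/-- Cramer's rule for the elimination matrix -/
theorem den_elim {C : Type} [CommRing C] (S : Subring C) {e z : Mt n C} (he : InS S e)
    (hz : ∀ a' a, z a' a ≠ 0 → a ∈ I ∧ a' ∉ I) (h : e = (1 + z) * (dg C I * e)) (j : I → Fin n)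
    (a' a : Fin n) : mnr e I j * z a' a ∈ S := by
  by_cases h0 : z a' a = 0
  · rw [h0, mul_zero]
    exact zero_mem S
  obtain ⟨ha, ha'⟩ := hz a' a h0
  have hrow : ∀ c, e a' c = ∑ b : I, z a' b * e b c := fun c => by
    have h1 : e a' c = ((1 + z) * (dg C I * e)) a' c := by rw [← h]
    rw [h1, add_mul, one_mul, Matrix.add_apply, dg_mul_apply, if_neg ha', zero_add,
      Matrix.mul_apply, Finset.sum_coe_sort I (fun b => z a' b * e b c)]
    symm
    refine Finset.sum_subset_zero_on_sdiff (Finset.subset_univ I) (fun b hb => ?_) fun b hb => ?_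
    · rw [dg_mul_apply, if_neg (Finset.mem_sdiff.1 hb).2, mul_zero]
    · rw [dg_mul_apply, if_pos hb]
  have key := Matrix.det_updateRow_sum (e.submatrix (Subtype.val : I → Fin n) j) ⟨a, ha⟩
    (fun b : I => z a' b)
  have e2 : (∑ b : I, z a' b • (e.submatrix (Subtype.val : I → Fin n) j) b) =
      fun c : I => e a' (j c) := by
    funext c
    rw [hrow, Finset.sum_apply]
    rfl
  rw [e2] at key
  have e3 : mnr e I j * z a' a =
      ((e.submatrix (Subtype.val : I → Fin n) j).updateRow ⟨a, ha⟩ fun c : I => e a' (j c)).det := by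
    rw [key, smul_eq_mul, mul_comm]
    rfl
  rw [e3]
  refine det_mem_XC S _ fun b c => ?_
  rw [Matrix.updateRow_apply]
  split_ifs
  · exact he _ _
  · exact he _ _

end Pool.Agent.P.MP_1bf4cb_ag
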