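import Pool.Agent.P.MP_1bf4cb_ag.XC

set_option autoImplicit false
set_option linter.unusedSectionVars false
set_option linter.unusedVariables false

open Function Matrix
open scoped TensorProduct

noncomputable section

namespace Pool.Agent.P.MP_1bf4cb_ag

variable {n : ℕ} {w : Fin n → ℕ} {I I' : Finset (Fin n)}

theorem ind_of_mnr_XC2 {K : Type} [Field K] {e : Mt n K} {j : I → Fin n} (h0 : mnr e I j ≠ 0) :
    LinearIndepOn K (fun a => e a) (I : Set (Fin n)) := by
  have h : LinearIndependent K (e.submatrix (Subtype.val : I → Fin n) j).row :=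
    linearIndependent_rows_iff_isUnit.2 ((isUnit_iff_isUnit_det _).2 (isUnit_iff_ne_zero.2 h0))
  exact LinearIndependent.of_comp (LinearMap.funLeft K K j) h

theorem mnr_of_ind_XC2 {K : Type} [Field K] {e : Mt n K}
    (h : LinearIndepOn K (fun a => e a) (I : Set (Fin n))) : ∃ j, mnr e I j ≠ 0 := by
  set A : Matrix I (Fin n) K := e.submatrix Subtype.val id with hA
  have h1 : LinearIndependent K A.row := h
  have h2 := h1.rank_matrix
  obtain ⟨κ, a, ha, hs, hi⟩ := exists_linearIndependent' K A.col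
  have : Finite κ := Finite.of_injective a ha
  have := Fintype.ofFinite κ
  rw [rank_eq_finrank_span_cols, ← hs, finrank_span_eq_card hi] at h2
  let σ : I ≃ κ := Fintype.equivOfCardEq h2.symm
  refine ⟨a ∘ σ, ?_⟩
  have h3 : LinearIndependent K (e.submatrix (Subtype.val : I → Fin n) (a ∘ σ)).col :=
    hi.comp σ σ.injective
  exact isUnit_iff_ne_zero.1 ((isUnit_iff_isUnit_det _).1 (linearIndependent_cols_iff_isUnit.1 h3))

theorem eq_zero_XC2 {K : Type} [Field K] {e M : Mt n K}
    (h : LinearIndepOn K (fun a => e a) (I : Set (Fin n))) (h1 : M * dg K I * e = 0) :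
    M * dg K I = 0 := by
  ext a b
  rw [mul_dg_apply, Matrix.zero_apply]
  split_ifs with hb
  · refine linearIndepOn_finset_iff.1 h (M a) ?_ b hb
    funext c
    have h2 := congrFun (congrFun h1 a) c
    rw [Matrix.mul_apply, Matrix.zero_apply] at h2
    simp only [mul_dg_apply, ite_mul, zero_mul, Finset.sum_ite_mem, Finset.univ_inter] at h2
    rw [Finset.sum_apply]
    exact h2
  · rfl

theorem dg_dg_XC2 {K : Type} [Field K] : dg K I * dg K I = dg K I := by
  ext a b
  rw [dg_mul_apply]
  split_ifs with ha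
  · rfl
  · by_cases hab : a = b
    · subst hab
      simp [dg, ha]
    · simp [dg, diagonal_apply_ne _ hab]

/-- echelon form over a field -/
theorem echelon {K : Type} [Field K] (hw : Injective w) {e : Mt n K} (he : e * e = e)
    {j : I → Fin n} (h0 : mnr e I j ≠ 0)
    (h1 : ∀ I' : Finset (Fin n), lev w I < lev w I' → ∀ j', mnr e I' j' = 0) :
    ∃ z : Mt n K, (∀ a' a, z a' a ≠ 0 → a ∈ I ∧ a' ∉ I ∧ w a' < w a) ∧
      e = (1 + z) * (dg K I * e) ∧ Std I ((1 - z) * e * (1 + z)) ∧
      ∀ J : Finset (Fin n), e * dg K J = dg K J → ∀ a ∈ J, ∀ a', z a' a = 0 := by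
  have hI := ind_of_mnr_XC2 h0
  have hlev : ∀ J : Finset (Fin n), LinearIndepOn K (fun a => e a) (J : Set (Fin n)) →
      lev w J ≤ lev w I := fun J hJ => by
    obtain ⟨j', hj'⟩ := mnr_of_ind_XC2 hJ
    exact not_lt.1 fun hl => hj' (h1 J hl j')
  have hsp : ∀ a', ∃ c : Fin n → K, a' ∉ I → ∑ a ∈ I, c a • e a = e a' := fun a' => by
    by_cases ha : a' ∈ I
    · exact ⟨0, fun h => absurd ha h⟩
    have hm : e a' ∈ Submodule.span K ((fun a => e a) '' (I : Set (Fin n))) := by
      by_contra hm
      have h2 := hI.insert hm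
      rw [← Finset.coe_insert] at h2
      have h3 := hlev _ h2
      rw [lev, Finset.sum_insert ha] at h3
      have h4 : 0 < 2 ^ w a' := by positivity
      unfold lev at h3
      omega
    obtain ⟨c, hc⟩ := (Submodule.mem_span_image_finset_iff_exists_fun' K).1 hm
    exact ⟨c, fun _ => hc⟩
  choose c hc using hsp
  have hlt : ∀ a' a, a ∈ I → a' ∉ I → c a' a ≠ 0 → w a' < w a := fun a' a ha ha' hne => by
    have h2 : e a' ∉ Submodule.span K ((fun a => e a) '' (I.erase a : Set (Fin n))) := by
      intro hm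
      refine hI.notMem_span (i := a) ha ?_
      rw [← Finset.coe_erase, ← Submodule.smul_mem_iff _ hne]
      have h3 := hc a' ha'
      rw [← Finset.add_sum_erase I _ ha] at h3
      rw [eq_sub_of_add_eq h3]
      exact Submodule.sub_mem _ hm (Submodule.sum_mem _ fun b hb =>
        Submodule.smul_mem _ _ (Submodule.subset_span ⟨b, hb, rfl⟩))
    have h3 := (hI.mono (Finset.coe_subset.2 (I.erase_subset a))).insert h2
    rw [← Finset.coe_insert] at h3
    have h4 := hlev _ h3
    rw [lev, lev, Finset.sum_insert fun h => ha' (Finset.mem_of_mem_erase h),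
      ← Finset.add_sum_erase I _ ha, add_le_add_iff_right,
      Nat.pow_le_pow_iff_right (by norm_num)] at h4
    exact lt_of_le_of_ne h4 fun h => ha' (hw h ▸ ha)
  let z : Mt n K := Matrix.of fun a' a => if a ∈ I ∧ a' ∉ I then c a' a else 0
  have hz : ∀ a' a, z a' a = if a ∈ I ∧ a' ∉ I then c a' a else 0 := fun _ _ => rfl
  have hDz : dg K I * z = 0 := by
    ext a b
    rw [dg_mul_apply, hz, Matrix.zero_apply]
    by_cases ha : a ∈ I <;> simp [ha]
  have hzD : z * dg K I = z := by
    ext a b
    rw [mul_dg_apply, hz]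
    by_cases hb : b ∈ I <;> simp [hb]
  have hzz : z * z = 0 := by
    calc z * z = z * dg K I * z := by rw [hzD]
      _ = 0 := by rw [mul_assoc, hDz, mul_zero]
  have hee : e = (1 + z) * (dg K I * e) := by
    rw [add_mul, one_mul, ← mul_assoc, hzD]
    ext a' b
    rw [Matrix.add_apply, dg_mul_apply, Matrix.mul_apply]
    by_cases ha : a' ∈ I
    · simp [hz, ha]
    · rw [if_neg ha, zero_add, ← hc a' ha, Finset.sum_apply]
      simp [hz, ha]
  have hDD : dg K I * dg K I = dg K I := dg_dg_XC2
  have hm : (1 - z) * e = dg K I * e := by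
    have h2 : (1 - z) * (1 + z) = 1 := by
      rw [sub_mul, mul_add, mul_add, hzz]
      simp
    conv_lhs => rw [hee, ← mul_assoc, h2, one_mul]
  refine ⟨z, fun a' a h => ?_, hee, ⟨?_, ?_⟩, fun J hJ a ha a' => ?_⟩
  · rw [hz] at h
    split_ifs at h with h'
    · exact ⟨h'.1, h'.2, hlt a' a h'.1 h'.2 h⟩
    · exact absurd rfl h
  · rw [hm, ← mul_assoc, ← mul_assoc, hDD]
  · rw [hm]
    have h2 := eq_zero_XC2 (M := dg K I * e * (1 + z) - 1 * dg K I) hI (by
      rw [sub_mul, sub_mul, mul_assoc (dg K I * e * (1 + z)), mul_assoc (dg K I * e), ← hee,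
        one_mul, hDD, mul_assoc, he, sub_self])
    rwa [sub_mul, one_mul, hDD, sub_eq_zero] at h2
  · rw [hz]
    split_ifs with h'
    · have h2 : dg K J = (1 + z) * dg K I * dg K J := by
        conv_lhs => rw [← hJ, hee, mul_assoc, mul_assoc, hJ, ← mul_assoc]
      have hne : a' ≠ a := fun h => h'.2 (h ▸ h'.1)
      have h3 := congrFun (congrFun h2 a') a
      rw [mul_dg_apply, mul_dg_apply, if_pos ha, if_pos h'.1, Matrix.add_apply,
        one_apply_ne hne, zero_add, hz, if_pos h', dg, diagonal_apply_ne _ hne] at h3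
      exact h3.symm
    · rfl

end Pool.Agent.P.MP_1bf4cb_ag
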