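import Pool.Agent.P.MP_1bf4cb_ag.XB
import Pool.Agent.P.MP_1bf4cb_ag.XC2
import Pool.Agent.P.MP_1bf4cb_ag.GB
import Pool.Agent.P.MP_1bf4cb_ag.GH

set_option autoImplicit false
set_option linter.unusedSectionVars false
set_option linter.unusedVariables false

open Function Matrix
open scoped TensorProduct

noncomputable section

namespace Pool.Agent.P.MP_1bf4cb_ag

variable {k : Type} [Field k] {𝒟 : Dat k} {τ : Asg 𝒟} {v₀ : Ix 𝒟.d 𝒟.m} {w : Fin 𝒟.n → ℕ}
  {R : Type} [CommRing R] [Algebra k R] {x : Pt 𝒟 R}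

/-- the ideal of the minors of level at least `l` -/
def lid (M : Mt 𝒟.n R) (w : Fin 𝒟.n → ℕ) (l : ℕ) : Ideal R :=
  Ideal.span {y | ∃ I j, l ≤ lev w I ∧ y = mnr M I j}

/-- the fixed subspaces of the colour of `v₀` are lower members of its flag or initial segments -/
def Adm (τ : Asg 𝒟) (v₀ : Ix 𝒟.d 𝒟.m) (w : Fin 𝒟.n → ℕ) : Prop :=
  ∀ v J, v.2.1 = v₀.2.1 → τ v = some J →
    (v.1 = v₀.1 ∧ v.2.2 ≤ v₀.2.2) ∨ ∀ a ∈ J, ∀ a', w a' < w a → a' ∈ J

theorem at1_map_XD {C C' : Type} [CommRing C] [CommRing C'] (θ : C →+* C')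
    (c₀ : Fin (𝒟.d + 1)) (u : Mt 𝒟.n C) :
    (fun c => (at1 c₀ u c).map θ) = at1 c₀ (u.map θ) := by
  funext c
  simp only [at1]
  split_ifs
  · rfl
  · exact Matrix.map_one _ (map_zero θ) (map_one θ)

theorem at1_InS_XD {C : Type} [CommRing C] {S : Subring C} (c₀ : Fin (𝒟.d + 1)) {u : Mt 𝒟.n C}
    (hu : InS S u) (c : Fin (𝒟.d + 1)) : InS S (at1 c₀ u c) := by
  simp only [at1]
  split_ifs
  · exact hu
  · exact InS.one S

theorem act_e_XD {C : Type} [CommRing C] (u u' : Mt 𝒟.n C) (y : Pt 𝒟 C) :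
    (act (at1 v₀.2.1 u) (at1 v₀.2.1 u') y).e v₀ = u * y.e v₀ * u' := by
  simp only [act, at1, if_true]

theorem sat_forget_XD {C : Type} [CommRing C] {y : Pt 𝒟 C} (h0 : τ v₀ = none)
    {I : Finset (Fin 𝒟.n)} (hy : Sat (Function.update τ v₀ (some I)) y) : Sat τ y := by
  refine ⟨hy.base, fun v J hv => hy.std v J ?_⟩
  have hne : v ≠ v₀ := by
    rintro rfl
    rw [h0] at hv
    cases hv
  rw [Function.update_of_ne hne, hv]

theorem elim_form_XD {C : Type} [CommRing C] {n : ℕ} {I : Finset (Fin n)} {z e u : Mt n C}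
    (hz : ∀ a' a, z a' a ≠ 0 → a' ∉ I) (he : Std I e) :
    (1 + z) * e * u = (1 + z) * (dg C I * ((1 + z) * e * u)) := by
  have h1 : dg C I * z = 0 := by
    ext a' a
    rw [dg_mul_apply]
    split_ifs with h
    · by_contra hne
      exact hz a' a hne h
    · rfl
  rw [← Matrix.mul_assoc (dg C I), ← Matrix.mul_assoc (dg C I), Matrix.mul_add (dg C I), h1,
    add_zero, Matrix.mul_one, he.1, Matrix.mul_assoc]

/-- points with values in a field -/
theorem field_pt_XD {K : Type} [Field K] [Algebra k K] (hw : Injective w) (ha : Adm τ v₀ w)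
    {y : Pt 𝒟 K} (hy : Sat τ y) {I : Finset (Fin 𝒟.n)} {j : I → Fin 𝒟.n}
    (h0 : mnr (y.e v₀) I j ≠ 0)
    (h1 : ∀ I' : Finset (Fin 𝒟.n), lev w I < lev w I' → ∀ j', mnr (y.e v₀) I' j' = 0) :
    ∃ z : Mt 𝒟.n K, (∀ a' a, ¬ Alw τ v₀.2.1 w I a' a → z a' a = 0) ∧
      Sat (Function.update τ v₀ (some I)) (act (at1 v₀.2.1 (1 - z)) (at1 v₀.2.1 (1 + z)) y) := by
  obtain ⟨z, hz1, -, hz3, hz4⟩ :=
    echelon hw (hy.base.chain v₀.1 v₀.2.1 v₀.2.2 v₀.2.2 le_rfl) h0 h1
  have hz : ∀ a' a, ¬ Alw τ v₀.2.1 w I a' a → z a' a = 0 := by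
    intro a' a hn
    by_contra hne
    obtain ⟨g1, g2, g3⟩ := hz1 a' a hne
    refine hn ⟨g1, g2, g3, fun v J hv hJ haJ => ?_⟩
    rcases ha v J hv hJ with ⟨g4, g5⟩ | g4
    · refine absurd (hz4 J ?_ a haJ a') hne
      obtain ⟨s, c, i⟩ := v
      simp only at hv g4 g5
      subst hv g4
      have g6 := hy.base.chain v₀.1 v₀.2.1 i v₀.2.2 g5
      have g7 := (hy.std _ J hJ).2
      rw [← g7, ← Matrix.mul_assoc, g6]
    · exact g4 a haJ a' g3
  have hs := (sat_at1 hz hy).2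
  refine ⟨z, hz, hs.base, fun v J hv => ?_⟩
  by_cases hne : v = v₀
  · subst hne
    rw [Function.update_self] at hv
    cases hv
    rw [act_e_XD]
    exact hz3
  · rw [Function.update_of_ne hne] at hv
    exact hs.std v J hv

/-- one cell -/
theorem cell_step (hw : Injective w) (h0 : τ v₀ = none) (ha : Adm τ v₀ w) (hx : RepT τ R x)
    (I : Finset (Fin 𝒟.n)) (hI : CellT (Function.update τ v₀ (some I)))
    (h : CellI R (lid (x.e v₀) w (lev w I + 1) ⊔
      Ideal.span (Set.range fun j : I → Fin 𝒟.n => mnr (x.e v₀) I j))) :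
    CellI R (lid (x.e v₀) w (lev w I + 1)) := by
  classical
  obtain ⟨R', _, _, x', hx'⟩ := exists_rep (Function.update τ v₀ (some I))
  have := hx.noeth
  have := hx'.noeth
  obtain ⟨z, hz, hzX⟩ : ∃ z : Mt 𝒟.n
      (MvPolynomial {p : Fin 𝒟.n × Fin 𝒟.n // Alw τ v₀.2.1 w I p.1 p.2} R'),
      (∀ a' a, ¬ Alw τ v₀.2.1 w I a' a → z a' a = 0) ∧ ∀ p, z p.1.1 p.1.2 = MvPolynomial.X p :=
    ⟨Matrix.of fun a' a => if h : Alw τ v₀.2.1 w I a' a then MvPolynomial.X ⟨(a', a), h⟩ else 0,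
      fun a' a h => dif_neg h, fun p => dif_pos p.2⟩
  have hz' : ∀ a' a, z a' a ≠ 0 → Alw τ v₀.2.1 w I a' a := fun a' a h =>
    by_contra fun hn => h (hz a' a hn)
  have hy0 := hx'.sat.map (MvPolynomial.C :
    R' →+* MvPolynomial {p : Fin 𝒟.n × Fin 𝒟.n // Alw τ v₀.2.1 w I p.1 p.2} R')
  obtain ⟨ψ, hψ⟩ := hx.univ _ _ (sat_at1 hz (sat_forget_XD h0 hy0)).1
  have he : (x.e v₀).map ψ = (1 + z) * (dg _ I * (x.e v₀).map ψ) := by
    have h1 : (x.e v₀).map ψ = _ := congrArg (fun y : Pt 𝒟 _ => y.e v₀) hψ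
    rw [h1, act_e_XD]
    exact elim_form_XD (fun a' a h => (hz' a' a h).2.1) (hy0.std v₀ I (Function.update_self ..))
  refine step ψ.toRingHom (Finset.univ.image fun j : I → Fin 𝒟.n => mnr (x.e v₀) I j) _
    ?_ ?_ ?_ (cell_mv (hI R' x' hx') _)
    (by rwa [Finset.coe_image, Finset.coe_univ, Set.image_univ])
  · intro f hf
    obtain ⟨j, -, rfl⟩ := Finset.mem_image.1 hf
    have h1 : InS (den ψ.toRingHom (mnr (x.e v₀) I j)) z := by
      intro a' a
      obtain ⟨r, hr⟩ := den_elim ψ.toRingHom.range (e := (x.e v₀).map ψ)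
        (fun a b => ⟨x.e v₀ a b, rfl⟩) (fun a' a h => ⟨(hz' a' a h).1, (hz' a' a h).2.1⟩) he j a' a
      refine ⟨1, r, ?_⟩
      rw [pow_one, mnr_map, hr]
      rfl
    have h2 := act_InS (S := den ψ.toRingHom (mnr (x.e v₀) I j)) (x := x.map ψ)
      (at1_InS_XD v₀.2.1 ((InS.one _).sub h1)) (at1_InS_XD v₀.2.1 ((InS.one _).add h1))
      (fun v a b => map_mem_den _ _ _) (fun c a b => map_mem_den _ _ _)
    rw [hψ, act_act (inv_at1 hz).1] at h2
    have h3 := hx'.gen ((den ψ.toRingHom (mnr (x.e v₀) I j)).comap MvPolynomial.C)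
      (fun c => by
        have h4 := map_mem_den ψ.toRingHom (mnr (x.e v₀) I j) (algebraMap k R c)
        rw [AlgHom.toRingHom_eq_coe, AlgHom.coe_toRingHom, AlgHom.commutes] at h4
        exact h4)
      (fun v a b => h2.1 v a b) (fun c a b => h2.2 c a b)
    intro y
    induction y using MvPolynomial.induction_on with
    | C a =>
      have h4 : a ∈ (den ψ.toRingHom (mnr (x.e v₀) I j)).comap MvPolynomial.C := by
        rw [h3]; trivial
      exact h4
    | add p q hp hq => exact add_mem hp hq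
    | mul_X p i hp => exact mul_mem hp (hzX i ▸ h1 _ _)
  · refine Ideal.span_le.2 ?_
    rintro _ ⟨I', j, hl, rfl⟩
    have h1 : ψ.toRingHom (mnr (x.e v₀) I' j) = mnr ((x.e v₀).map ψ) I' j := mnr_map _ _ _
    refine (RingHom.mem_ker).2 ?_
    rw [h1, he, ← Matrix.mul_assoc]
    refine mnr_tri (w := w) (I := I) _ _ (fun a' a h => ?_) hl j
    rw [mul_dg_apply] at h
    split_ifs at h with h2
    · refine ⟨h2, ?_⟩
      by_cases h3 : a' = a
      · rw [h3]
      · rw [Matrix.add_apply, Matrix.one_apply_ne h3, zero_add] at h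
        exact (hz' a' a h).2.2.1.le
    · exact absurd rfl h
  · rintro 𝔭 hpr hb ⟨f, hf, hfp⟩
    obtain ⟨j, -, rfl⟩ := Finset.mem_image.1 hf
    have hs := hx.sat.map (algebraMap R 𝔭.ResidueField)
    obtain ⟨zK, hK, hsK⟩ := field_pt_XD (I := I) (j := j) hw ha hs
      (by
        have h1 := mnr_map (algebraMap R 𝔭.ResidueField) (x.e v₀) j
        exact fun h2 => hfp (Ideal.algebraMap_residueField_eq_zero.1 (h1.trans h2)))
      (fun I' hl j' => by
        have h1 := mnr_map (algebraMap R 𝔭.ResidueField) (x.e v₀) j'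
        exact h1.symm.trans (Ideal.algebraMap_residueField_eq_zero.2
          (hb (Ideal.subset_span ⟨I', j', hl, rfl⟩))))
    obtain ⟨φ, hφ⟩ := hx'.univ _ _ hsK
    obtain ⟨θ, hC, hX⟩ : ∃ θ : MvPolynomial {p : Fin 𝒟.n × Fin 𝒟.n // Alw τ v₀.2.1 w I p.1 p.2} R'
        →+* 𝔭.ResidueField, (∀ a, θ (MvPolynomial.C a) = φ a) ∧
          ∀ p, θ (MvPolynomial.X p) = zK p.1.1 p.1.2 :=
      ⟨MvPolynomial.eval₂Hom φ.toRingHom fun p => zK p.1.1 p.1.2,
        fun a => MvPolynomial.eval₂Hom_C _ _ _, fun p => MvPolynomial.eval₂Hom_X' _ _ _⟩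
    have hzθ : θ.mapMatrix z = zK := by
      ext a' a
      change θ (z a' a) = zK a' a
      by_cases h1 : Alw τ v₀.2.1 w I a' a
      · rw [hzX ⟨(a', a), h1⟩, hX]
      · rw [hz a' a h1, hK a' a h1, map_zero]
    have h1 : (1 + z).map θ = 1 + zK := by
      rw [← hzθ, ← RingHom.mapMatrix_apply, map_add, map_one]
    have h2 : (1 - z).map θ = 1 - zK := by
      rw [← hzθ, ← RingHom.mapMatrix_apply, map_sub, map_one]
    have h3 : (θ ∘ (MvPolynomial.C : R' →+* _)) = φ := funext hC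
    have h4 : θ.comp ψ.toRingHom = algebraMap R 𝔭.ResidueField := by
      refine hx.ext (fun c => ?_) ?_
      · rw [RingHom.comp_apply, AlgHom.toRingHom_eq_coe, AlgHom.coe_toRingHom, AlgHom.commutes,
          MvPolynomial.algebraMap_apply, hC, AlgHom.commutes, ← IsScalarTower.algebraMap_apply]
      · have h5 : x.map (θ.comp ψ.toRingHom) = (x.map ψ).map θ := (Pt.map_map x ψ θ).symm
        rw [h5, hψ, act_map, at1_map_XD, at1_map_XD, h1, h2, Pt.map_map, h3, hφ,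
          act_act (inv_at1 hK).2]
    intro r hr
    have h5 : ψ.toRingHom r = 0 := hr
    rw [← Ideal.algebraMap_residueField_eq_zero, ← h4, RingHom.comp_apply, h5, map_zero]

end Pool.Agent.P.MP_1bf4cb_ag
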