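import Pool.Agent.P.MP_1bf4cb_ag.XD

set_option autoImplicit false
set_option linter.unusedSectionVars false
set_option linter.unusedVariables false

open Function Matrix
open scoped TensorProduct

noncomputable section

namespace Pool.Agent.P.MP_1bf4cb_ag

variable {k : Type} [Field k] {𝒟 : Dat k} {τ : Asg 𝒟} {v₀ : Ix 𝒟.d 𝒟.m} {w : Fin 𝒟.n → ℕ}

theorem mono_XE {A : Type} [CommRing A] {b b' : Ideal A} (h : CellI A b) (hb : b ≤ b') :
    CellI A b' := by
  obtain ⟨G, hG⟩ := h
  exact ⟨G, fun Γ _ χ h => (hG Γ χ h).mono hb⟩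

/-- elimination of one subspace -/
theorem elim (hw : Injective w) (h0 : τ v₀ = none) (ha : Adm τ v₀ w)
    (h : ∀ I, CellT (Function.update τ v₀ (some I))) : CellT τ := by
  intro R _ _ x hx
  have key : ∀ l, CellI R (lid (x.e v₀) w l) := by
    intro l
    induction l with
    | zero =>
      refine mono_XE (cellI_top R) (top_le_iff.2 ((Ideal.eq_top_iff_one _).2
        (Ideal.subset_span ⟨∅, fun a => a.1, Nat.zero_le _, ?_⟩)))
      exact Matrix.det_isEmpty.symm
    | succ l ih =>
      by_cases hl : ∃ I, lev w I = l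
      · obtain ⟨I, rfl⟩ := hl
        refine cell_step hw h0 ha hx I (h I) (mono_XE ih (Ideal.span_le.2 ?_))
        rintro _ ⟨I', j, h1, rfl⟩
        rcases h1.eq_or_lt with e | e
        · obtain rfl := lev_inj hw e
          exact Ideal.mem_sup_right (Ideal.subset_span ⟨j, rfl⟩)
        · exact Ideal.mem_sup_left (Ideal.subset_span ⟨I', j, e, rfl⟩)
      · refine mono_XE ih (Ideal.span_mono ?_)
        rintro _ ⟨I', j, h1, rfl⟩
        exact ⟨I', j, lt_of_le_of_ne h1 fun e => hl ⟨I', e.symm⟩, rfl⟩
  refine mono_XE (key (lev w Finset.univ + 1)) (Ideal.span_le.2 ?_)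
  rintro _ ⟨I', j, h1, rfl⟩
  exact absurd (Finset.sum_le_sum_of_subset (Finset.subset_univ I')) (Nat.not_le.2 h1)

/-- fixed subspaces are nested -/
theorem Sat.nest {C : Type} [CommRing C] [Nontrivial C] {x : Pt 𝒟 C} (hx : Sat τ x) {s : Bool}
    {c : Fin (𝒟.d + 1)} {i j : Fin 𝒟.m} (hij : i ≤ j) {I J : Finset (Fin 𝒟.n)}
    (hI : τ (s, c, i) = some I) (hJ : τ (s, c, j) = some J) : I ⊆ J := by
  intro a ha
  have h1 := (hx.std _ I hI).2
  have h2 := (hx.std _ J hJ).1
  have h3 : x.e (s, c, j) * dg C I = dg C I := by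
    rw [← h1, ← Matrix.mul_assoc, hx.base.chain s c i j hij]
  have h4 : dg C J * dg C I = dg C I := by rw [← h3, ← Matrix.mul_assoc, h2]
  by_contra hn
  have h5 := dg_mul_apply J (dg C I) a a
  rw [h4, if_neg hn, dg, Matrix.diagonal_apply_eq, if_pos ha] at h5
  exact one_ne_zero h5

/-- an order for which a chain of sets consists of initial segments -/
theorem exists_wt {n m : ℕ} (T : Fin m → Finset (Fin n)) (hT : Monotone T) :
    ∃ w : Fin n → ℕ, Injective w ∧ ∀ i, ∀ a ∈ T i, ∀ a', w a' < w a → a' ∈ T i := by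
  refine ⟨fun a => n * (Finset.univ.filter fun i => a ∉ T i).card + a, fun a b e => ?_,
    fun i a ha a' h => ?_⟩
  · have h := congrArg (· % n) e
    simp only [Nat.mul_add_mod, Nat.mod_eq_of_lt a.2, Nat.mod_eq_of_lt b.2] at h
    exact Fin.ext h
  · by_contra hn
    have h1 : (Finset.univ.filter fun i => a ∉ T i).card <
        (Finset.univ.filter fun i => a' ∉ T i).card := by
      refine Finset.card_lt_card ((Finset.ssubset_iff_of_subset fun i' hi' => ?_).2
        ⟨i, by simpa using hn, by simpa using ha⟩)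
      rw [Finset.mem_filter] at hi' ⊢
      rcases le_total i i' with e | e
      · exact absurd (hT e ha) hi'.2
      · exact ⟨hi'.1, fun h2 => hn (hT e h2)⟩
    have h2 := Nat.mul_le_mul_left n h1
    have h3 := a.2
    rw [Nat.mul_succ] at h2
    simp only at h
    omega

/-- the order of elimination -/
def rk_XE {d m : ℕ} (v : Ix d m) : ℕ := (if v.1 then m else 0) + v.2.2

open Classical in
theorem ind_XE (h : ∀ T : Ix 𝒟.d 𝒟.m → Finset (Fin 𝒟.n), CellT (𝒟 := 𝒟) fun v => some (T v))
    (N : ℕ) : ∀ τ : Asg 𝒟, (Finset.univ.filter fun v => τ v = none).card = N →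
      (∀ v v', rk_XE v' < rk_XE v → τ v' = none → τ v = none) → CellT τ := by
  induction N with
  | zero =>
    intro τ hN _
    have e : τ = fun v => some ((τ v).getD ∅) := funext fun v => by
      have := Finset.filter_eq_empty_iff.1 (Finset.card_eq_zero.1 hN) (Finset.mem_univ v)
      obtain ⟨I, hI⟩ := Option.ne_none_iff_exists'.1 this
      rw [hI, Option.getD_some]
    rw [e]
    exact h _
  | succ N ih =>
    intro τ hN hd R _ _ x hx
    rcases subsingleton_or_nontrivial R with _ | _
    · exact cell_trivial R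
    obtain ⟨v₀, h0, hm⟩ := Finset.exists_min_image _ rk_XE
      (Finset.card_pos.1 ((Nat.succ_pos N).trans_eq hN.symm))
    have h1 : τ v₀ = none := (Finset.mem_filter.1 h0).2
    have h2 : ∀ v, τ v = none → rk_XE v₀ ≤ rk_XE v := fun v hv =>
      hm v (Finset.mem_filter.2 ⟨Finset.mem_univ _, hv⟩)
    have h3 : ∀ v J, τ v = some J → rk_XE v ≤ rk_XE v₀ := fun v J hv => by
      by_contra hn
      rw [hd v v₀ (not_le.1 hn) h1] at hv
      cases hv
    obtain ⟨w, hw, ha⟩ : ∃ w : Fin 𝒟.n → ℕ, Injective w ∧ Adm τ v₀ w := by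
      obtain ⟨s₀, c₀, i₀⟩ := v₀
      have hi₀ := i₀.2
      cases s₀ with
      | false =>
        refine ⟨Fin.val, Fin.val_injective, ?_⟩
        rintro ⟨s, c, i⟩ J - hv
        have h4 := h3 _ J hv
        cases s <;> simp only [rk_XE, if_true, Bool.false_eq_true, if_false] at h4
        · exact Or.inl ⟨rfl, Fin.le_def.2 (by simpa using h4)⟩
        · omega
      | true =>
        have h4 : ∀ i, τ (false, c₀, i) = some ((τ (false, c₀, i)).getD ∅) := fun i => by
          have h5 : τ (false, c₀, i) ≠ none := fun e => by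
            have h6 := h2 _ e
            have h7 := i.2
            simp only [rk_XE, if_true, Bool.false_eq_true, if_false] at h6
            omega
          obtain ⟨I, hI⟩ := Option.ne_none_iff_exists'.1 h5
          rw [hI, Option.getD_some]
        obtain ⟨w, hw, h5⟩ := exists_wt (fun i => (τ (false, c₀, i)).getD ∅)
          fun i j hij => Sat.nest hx.sat hij (h4 i) (h4 j)
        refine ⟨w, hw, ?_⟩
        rintro ⟨s, c, i⟩ J (rfl : c = c₀) hv
        cases s
        · refine Or.inr fun a ha a' h6 => ?_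
          have h7 := h5 i
          simp only [hv, Option.getD_some] at h7
          exact h7 a ha a' h6
        · have h6 := h3 _ J hv
          simp only [rk_XE, if_true] at h6
          exact Or.inl ⟨rfl, Fin.le_def.2 (by simpa using h6)⟩
    refine elim hw h1 ha (fun I => ih _ ?_ fun v v' hv h4 => ?_) R x hx
    · have e : (Finset.univ.filter fun v => Function.update τ v₀ (some I) v = none) =
          (Finset.univ.filter fun v => τ v = none).erase v₀ := by
        ext v
        by_cases hv : v = v₀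
        · simp [hv]
        · simp [hv]
      rw [e, Finset.card_erase_of_mem h0, hN, Nat.add_sub_cancel]
    · have h5 : v' ≠ v₀ := fun e => by simp [e] at h4
      rw [Function.update_of_ne h5] at h4
      have h6 : v ≠ v₀ := fun e => (h2 v' h4).not_gt (e ▸ hv)
      rw [Function.update_of_ne h6]
      exact hd v v' hv h4

theorem cell_of_all (h : ∀ T : Ix 𝒟.d 𝒟.m → Finset (Fin 𝒟.n), CellT (𝒟 := 𝒟) fun v => some (T v)) :
    CellT (𝒟 := 𝒟) fun _ => none :=
  ind_XE h _ _ rfl fun _ _ _ _ => rfl

end Pool.Agent.P.MP_1bf4cb_ag
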