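import Pool.Agent.P.MP_1bf4cb_ag.XE

set_option autoImplicit false
set_option linter.unusedSectionVars false
set_option linter.unusedVariables false

open Function Matrix
open scoped TensorProduct

noncomputable section

namespace Pool.Agent.P.MP_1bf4cb_ag

variable {k : Type} [Field k] {𝒟 : Dat k}

section

variable {C : Type} [CommRing C]

theorem dg_apply_XF {n : ℕ} (I : Finset (Fin n)) (a b : Fin n) :
    dg C I a b = if a = b then (if a ∈ I then 1 else 0) else 0 := by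
  unfold dg
  rw [Matrix.diagonal_apply]

theorem dg_tr_XF {n : ℕ} (I : Finset (Fin n)) : (dg C I)ᵀ = dg C I := by
  unfold dg
  exact Matrix.diagonal_transpose _

theorem dg_dg_XF {n : ℕ} {I J : Finset (Fin n)} (h : I ⊆ J) : dg C J * dg C I = dg C I := by
  ext a b
  rw [dg_mul_apply, dg_apply_XF]
  by_cases ha : a ∈ J
  · rw [if_pos ha]
  · rw [if_neg ha, if_neg (fun h' : a ∈ I => ha (h h')), ite_self]

theorem std_iff_XF {n : ℕ} (I : Finset (Fin n)) (M : Mt n C) :
    Std I M ↔ ∀ a b, ¬ (a ∈ I ∧ b ∉ I) → M a b = dg C I a b := by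
  constructor
  · rintro ⟨h1, h2⟩ a b h
    by_cases hb : b ∈ I
    · have := congrFun (congrFun h2 a) b
      rwa [mul_dg_apply, if_pos hb] at this
    · have ha : a ∉ I := fun ha => h ⟨ha, hb⟩
      have := congrFun (congrFun h1 a) b
      rw [dg_mul_apply, if_neg ha] at this
      rw [← this, dg_apply_XF, if_neg ha, ite_self]
  · intro h
    constructor
    · ext a b
      rw [dg_mul_apply]
      by_cases ha : a ∈ I
      · rw [if_pos ha]
      · rw [if_neg ha, h a b (fun h' => ha h'.1), dg_apply_XF, if_neg ha, ite_self]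
    · ext a b
      rw [mul_dg_apply]
      by_cases hb : b ∈ I
      · rw [if_pos hb, h a b (fun h' => h'.2 hb)]
      · rw [if_neg hb, dg_apply_XF]
        by_cases hab : a = b
        · rw [if_pos hab, if_neg (by rw [hab]; exact hb)]
        · rw [if_neg hab]

theorem chain_XF {n : ℕ} {I J : Finset (Fin n)} (h : I ⊆ J) {M N : Mt n C} (hM : Std I M)
    (hN : Std J N) : N * M = M := by
  calc N * M = N * (dg C J * dg C I * M) := by rw [dg_dg_XF h, hM.1]
    _ = N * dg C J * (dg C I * M) := by simp only [Matrix.mul_assoc]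
    _ = dg C J * dg C I * M := by rw [hN.2, Matrix.mul_assoc]
    _ = M := by rw [dg_dg_XF h, hM.1]

theorem LA_l_XF (c : Fin (𝒟.d + 1)) {I : Finset (Fin 𝒟.n)} {M : Mt 𝒟.n C} (h : Std I M) :
    LA 𝒟 c (dg C I) * LA 𝒟 c M = LA 𝒟 c (dg C I) := by
  unfold LA
  split_ifs
  · rw [← Matrix.transpose_mul, h.2]
  · rw [sub_mul, mul_sub, mul_sub, h.1]
    simp

theorem LA_r_XF (c : Fin (𝒟.d + 1)) {I : Finset (Fin 𝒟.n)} {M : Mt 𝒟.n C} (h : Std I M) :
    LA 𝒟 c M * LA 𝒟 c (dg C I) = LA 𝒟 c M := by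
  unfold LA
  split_ifs
  · rw [← Matrix.transpose_mul, h.1]
  · rw [sub_mul, mul_sub, mul_sub, h.2]
    simp

theorem edge_iff_XF [Algebra k C] (c : Fin (𝒟.d + 1)) {I J : Finset (Fin 𝒟.n)} {M N : Mt 𝒟.n C}
    (hM : Std I M) (hN : Std J N) (γ : Mt 𝒟.n C) :
    LA 𝒟 c M * γ * RB 𝒟 c N = 0 ↔ LA 𝒟 c (dg C I) * γ * dg C J = 0 := by
  have h1 : RB 𝒟 c N * dg C J = dg C J := by
    have := RB_mul c N (dg C J)
    rw [hN.2, RB_dg] at this
    exact this.symm
  have h2 : dg C J * RB 𝒟 c N = RB 𝒟 c N := by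
    have := RB_mul c (dg C J) N
    rw [hN.1, RB_dg] at this
    exact this.symm
  constructor
  · intro h
    calc LA 𝒟 c (dg C I) * γ * dg C J
        = LA 𝒟 c (dg C I) * LA 𝒟 c M * γ * (RB 𝒟 c N * dg C J) := by rw [LA_l_XF c hM, h1]
      _ = LA 𝒟 c (dg C I) * (LA 𝒟 c M * γ * RB 𝒟 c N) * dg C J := by
        simp only [Matrix.mul_assoc]
      _ = 0 := by rw [h, Matrix.mul_zero, Matrix.zero_mul]
  · intro h
    calc LA 𝒟 c M * γ * RB 𝒟 c N
        = LA 𝒟 c M * LA 𝒟 c (dg C I) * γ * (dg C J * RB 𝒟 c N) := by rw [LA_r_XF c hM, h2]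
      _ = LA 𝒟 c M * (LA 𝒟 c (dg C I) * γ * dg C J) * RB 𝒟 c N := by
        simp only [Matrix.mul_assoc]
      _ = 0 := by rw [h, Matrix.mul_zero, Matrix.zero_mul]

/-- the rows that an edge equation sees -/
def row_XF (c : Fin (𝒟.d + 1)) (I : Finset (Fin 𝒟.n)) (a : Fin 𝒟.n) : Prop :=
  if c = Fin.last 𝒟.d then a ∈ I else a ∉ I

theorem zero_iff_XF (c : Fin (𝒟.d + 1)) (I J : Finset (Fin 𝒟.n)) (γ : Mt 𝒟.n C) :
    LA 𝒟 c (dg C I) * γ * dg C J = 0 ↔ ∀ a b, row_XF c I a → b ∈ J → γ a b = 0 := by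
  unfold LA row_XF
  split_ifs
  · rw [dg_tr_XF]
    constructor
    · intro h a b ha hb
      have := congrFun (congrFun h a) b
      rwa [mul_dg_apply, if_pos hb, dg_mul_apply, if_pos ha] at this
    · intro h
      ext a b
      rw [mul_dg_apply, dg_mul_apply, Matrix.zero_apply]
      split_ifs with hb ha
      · exact h a b ha hb
      · rfl
      · rfl
  · rw [sub_mul, Matrix.one_mul]
    constructor
    · intro h a b ha hb
      have := congrFun (congrFun h a) b
      rwa [mul_dg_apply, if_pos hb, Matrix.sub_apply, dg_mul_apply, if_neg ha, sub_zero] at this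
    · intro h
      ext a b
      rw [mul_dg_apply, Matrix.sub_apply, dg_mul_apply, Matrix.zero_apply]
      split_ifs with hb ha
      · exact sub_self _
      · rw [sub_zero]
        exact h a b ha hb
      · rfl

end

/-- the entries that an edge equation forces to vanish -/
def frc_XF (T : Ix 𝒟.d 𝒟.m → Finset (Fin 𝒟.n)) (c : Fin (𝒟.d + 1)) (a b : Fin 𝒟.n) : Prop :=
  ∃ s i j, 𝒟.E c i j ∧ row_XF c (T (s, c, i)) a ∧ b ∈ T (s, c + 1, j)

/-- the free entries -/
abbrev Var_XF (T : Ix 𝒟.d 𝒟.m → Finset (Fin 𝒟.n)) : Type :=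
  {p : Ix 𝒟.d 𝒟.m × Fin 𝒟.n × Fin 𝒟.n // p.2.1 ∈ T p.1 ∧ p.2.2 ∉ T p.1} ⊕
    {p : Fin (𝒟.d + 1) × Fin 𝒟.n × Fin 𝒟.n // ¬ frc_XF T p.1 p.2.1 p.2.2}

open Classical in
/-- the point with given free entries -/
def pt_XF (T : Ix 𝒟.d 𝒟.m → Finset (Fin 𝒟.n)) {C : Type} [CommRing C] (f : Var_XF T → C) :
    Pt 𝒟 C :=
  ⟨fun v => Matrix.of fun a b =>
      if h : a ∈ T v ∧ b ∉ T v then f (Sum.inl ⟨(v, a, b), h⟩) else dg C (T v) a b,
    fun c => Matrix.of fun a b => if h : frc_XF T c a b then 0 else f (Sum.inr ⟨(c, a, b), h⟩)⟩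

/-- the free entries of a point -/
def crd_XF (T : Ix 𝒟.d 𝒟.m → Finset (Fin 𝒟.n)) {C : Type} (x : Pt 𝒟 C) : Var_XF T → C :=
  Sum.elim (fun p => x.e p.1.1 p.1.2.1 p.1.2.2) (fun p => x.γ p.1.1 p.1.2.1 p.1.2.2)

variable {T : Ix 𝒟.d 𝒟.m → Finset (Fin 𝒟.n)} {C C' : Type} [CommRing C] [CommRing C']

theorem crd_pt_XF (f : Var_XF T → C) : crd_XF T (pt_XF T f) = f := by
  funext p
  rcases p with ⟨⟨v, a, b⟩, h⟩ | ⟨⟨c, a, b⟩, h⟩
  · exact dif_pos h
  · exact dif_neg h

theorem pt_map_XF (f : Var_XF T → C) (φ : C →+* C') :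
    (pt_XF T f).map φ = pt_XF T (φ ∘ f) := by
  apply Pt.ext
  · funext v
    ext a b
    simp only [pt_XF, Pt.map, Matrix.map_apply, Matrix.of_apply]
    split_ifs
    · rfl
    · exact congrFun (congrFun (dg_map φ (T v)) a) b
  · funext c
    ext a b
    simp only [pt_XF, Pt.map, Matrix.map_apply, Matrix.of_apply]
    split_ifs
    · exact map_zero φ
    · rfl

theorem pt_crd_XF [Algebra k C] {x : Pt 𝒟 C} (hx : Sat (fun v => some (T v)) x) :
    pt_XF T (crd_XF T x) = x := by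
  apply Pt.ext
  · funext v
    ext a b
    simp only [pt_XF, Matrix.of_apply]
    split_ifs with h
    · rfl
    · exact ((std_iff_XF _ _).1 (hx.std v _ rfl) a b h).symm
  · funext c
    ext a b
    simp only [pt_XF, Matrix.of_apply]
    split_ifs with h
    · obtain ⟨s, i, j, hE, ha, hb⟩ := h
      exact ((zero_iff_XF c _ _ _).1 ((edge_iff_XF c (hx.std (s, c, i) _ rfl)
        (hx.std (s, c + 1, j) _ rfl) _).1 (hx.base.edge s c i j hE)) a b ha hb).symm
    · rfl

theorem sat_pt_XF [Algebra k C] (hT : ∀ s c i j, i ≤ j → T (s, c, i) ⊆ T (s, c, j))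
    (f : Var_XF T → C) : Sat (fun v => some (T v)) (pt_XF T f) := by
  have h : ∀ v, Std (T v) ((pt_XF T f).e v) := fun v =>
    (std_iff_XF _ _).2 fun a b h => dif_neg h
  refine ⟨⟨fun s c i j hij => chain_XF (hT s c i j hij) (h _) (h _), fun s c i j hE => ?_⟩,
    fun v I hI => ?_⟩
  · exact (edge_iff_XF c (h _) (h _) _).2 ((zero_iff_XF c _ _ _).2 fun a b ha hb =>
      dif_pos (show frc_XF T c a b from ⟨s, i, j, hE, ha, hb⟩))
  · rw [← Option.some.inj hI]
    exact h v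

/-- all subspaces fixed: an affine space or empty -/
theorem cell_all (T : Ix 𝒟.d 𝒟.m → Finset (Fin 𝒟.n)) : CellT (𝒟 := 𝒟) fun v => some (T v) := by
  intro R _ _ x hx
  rcases subsingleton_or_nontrivial R with hR | hR
  · exact cell_trivial R
  have hT : ∀ s c i j, i ≤ j → T (s, c, i) ⊆ T (s, c, j) := fun s c i j hij =>
    Sat.nest hx.sat hij rfl rfl
  obtain ⟨ψ, hψ⟩ := hx.univ (MvPolynomial (Var_XF T) k) (pt_XF T MvPolynomial.X)
    (sat_pt_XF hT _)
  let φ : MvPolynomial (Var_XF T) k →ₐ[k] R := MvPolynomial.aeval (crd_XF T x)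
  have hφ : (pt_XF T MvPolynomial.X).map φ = x := by
    have := pt_map_XF (T := T) (MvPolynomial.X : Var_XF T → MvPolynomial (Var_XF T) k)
      (φ : MvPolynomial (Var_XF T) k →+* R)
    refine this.trans ?_
    have h2 : ((φ : MvPolynomial (Var_XF T) k →+* R) ∘ MvPolynomial.X) = crd_XF T x := by
      funext p
      exact MvPolynomial.aeval_X _ p
    rw [h2]
    exact pt_crd_XF hx.sat
  have h1 : φ.comp ψ = AlgHom.id k R := by
    apply AlgHom.coe_ringHom_injective
    apply Rep.ext hx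
    · intro c
      exact ((φ.comp ψ).commutes c).trans ((AlgHom.id k R).commutes c).symm
    · have := Pt.map_map x ψ φ
      rw [hψ, hφ] at this
      exact this.symm
  have h2 : ψ.comp φ = AlgHom.id k _ := by
    apply MvPolynomial.algHom_ext
    intro p
    have h3 : φ (MvPolynomial.X p) = crd_XF T x p := MvPolynomial.aeval_X _ p
    have h4 : ψ (crd_XF T x p) = crd_XF T (x.map ψ) p := by
      rcases p with p | p <;> rfl
    rw [AlgHom.comp_apply, h3, h4, hψ, crd_pt_XF]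
    rfl
  exact cell_equiv (AlgEquiv.ofAlgHom φ ψ h1 h2).toRingEquiv (cell_mv (cell_field k) _)

end Pool.Agent.P.MP_1bf4cb_ag
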