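import Pool.Agent.P.MP_1bf4cb_ag.XA2

set_option autoImplicit false
set_option linter.unusedSectionVars false
set_option linter.unusedVariables false

open Function Matrix
open scoped TensorProduct

noncomputable section

namespace Pool.Agent.P.MP_1bf4cb_ag

variable {k : Type} [Field k] {𝒟 : Dat k} {L : Type} [CommRing L] [Algebra k L]
  {g h : Fin (𝒟.d + 1) → Mt 𝒟.n L} {x : Pt 𝒟 L}

theorem hom_XI (r : ℕ) : ∃ ψ : L →+* L, ⇑ψ = (· ^ 𝒟.q ^ r) := by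
  induction r with
  | zero => exact ⟨RingHom.id L, funext fun y => by simp⟩
  | succ r ih =>
    obtain ⟨ψ, hψ⟩ := ih
    refine ⟨(𝒟.fr L).comp ψ, funext fun y => ?_⟩
    change (ψ y) ^ 𝒟.q = _
    rw [hψ, pow_succ, pow_mul]

theorem pow_mul_mat (r : ℕ) (M N : Mt 𝒟.n L) :
    (M * N).map (· ^ 𝒟.q ^ r) = M.map (· ^ 𝒟.q ^ r) * N.map (· ^ 𝒟.q ^ r) := by
  obtain ⟨ψ, hψ⟩ := hom_XI (𝒟 := 𝒟) (L := L) r
  rw [← hψ, Matrix.map_mul]

theorem one_XI (r : ℕ) : (1 : Mt 𝒟.n L).map (· ^ 𝒟.q ^ r) = 1 := by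
  obtain ⟨ψ, hψ⟩ := hom_XI (𝒟 := 𝒟) (L := L) r
  rw [← hψ, Matrix.map_one _ (map_zero ψ) (map_one ψ)]

theorem add_XI (r s : ℕ) (M : Mt 𝒟.n L) :
    (M.map (· ^ 𝒟.q ^ r)).map (· ^ 𝒟.q ^ s) = M.map (· ^ 𝒟.q ^ (r + s)) := by
  ext a b
  simp only [Matrix.map_apply]
  rw [← pow_mul, ← pow_add]

/-- invertible over `S` -/
def Gd_XI (S : Subring L) (M : Mt 𝒟.n L) : Prop :=
  InS S M ∧ ∃ N, InS S N ∧ M * N = 1 ∧ N * M = 1

theorem mul_XI {S : Subring L} {M N : Mt 𝒟.n L} (hM : Gd_XI S M) (hN : Gd_XI S N) :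
    Gd_XI S (M * N) := by
  obtain ⟨a, M', b, c, d⟩ := hM
  obtain ⟨a', N', b', c', d'⟩ := hN
  refine ⟨a.mul a', N' * M', b'.mul b, ?_, ?_⟩
  · rw [Matrix.mul_assoc, ← Matrix.mul_assoc N, c', Matrix.one_mul, c]
  · rw [Matrix.mul_assoc, ← Matrix.mul_assoc M', d, Matrix.one_mul, d']

theorem tr_XI {S : Subring L} {M : Mt 𝒟.n L} (hM : Gd_XI S M) : Gd_XI S Mᵀ := by
  obtain ⟨a, M', b, c, d⟩ := hM
  refine ⟨a.tr, M'ᵀ, b.tr, ?_, ?_⟩
  · rw [← Matrix.transpose_mul, d, Matrix.transpose_one]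
  · rw [← Matrix.transpose_mul, c, Matrix.transpose_one]

theorem pw_XI {S : Subring L} {M : Mt 𝒟.n L} (hM : Gd_XI S M) (r : ℕ) :
    Gd_XI S (M.map (· ^ 𝒟.q ^ r)) := by
  obtain ⟨a, M', b, c, d⟩ := hM
  refine ⟨a.pow _, M'.map (· ^ 𝒟.q ^ r), b.pow _, ?_, ?_⟩
  · rw [← pow_mul_mat, c, one_XI]
  · rw [← pow_mul_mat, d, one_XI]

theorem id_XI (S : Subring L) : Gd_XI S (1 : Mt 𝒟.n L) :=
  ⟨InS.one S, 1, InS.one S, Matrix.one_mul _, Matrix.one_mul _⟩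

theorem canc_XI {S : Subring L} {M A : Mt 𝒟.n L} (hM : Gd_XI S M) (hA : Gd_XI S (M * A)) :
    Gd_XI S A := by
  obtain ⟨a, M', b, c, d⟩ := hM
  have h1 := mul_XI (⟨b, M, a, d, c⟩ : Gd_XI S M') hA
  rwa [← Matrix.mul_assoc, d, Matrix.one_mul] at h1

theorem inv_XI {S : Subring L} {M A : Mt 𝒟.n L} (hM : Gd_XI S M) (hA : M * A = 1) :
    Gd_XI S A := canc_XI hM (by rw [hA]; exact id_XI S)

/-- the twisted powers of the frames are defined over the base -/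
theorem coc_InS (S : Subring L) (hi : Inv g h) (hx : ∀ c, x.γ c = 1)
    (hγ : ∀ c, InS S ((act h g x).γ c)) (hd : ∀ c, ∃ u ∈ S, u * ((act h g x).γ c).det = 1)
    (b : ℕ) (c : Fin (𝒟.d + 1)) :
    InS S (h c * (g c).map (· ^ 𝒟.q ^ (2 * b))) ∧ InS S ((h c).map (· ^ 𝒟.q ^ (2 * b)) * g c) := by
  have g1 : ∀ c, Gd_XI S ((act h g x).γ c) := by
    intro c
    obtain ⟨u, hu, e⟩ := hd c
    refine ⟨hγ c, u • ((act h g x).γ c).adjugate, fun a b => S.mul_mem hu ((hγ c).adj a b), ?_, ?_⟩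
    · rw [Matrix.mul_smul, Matrix.mul_adjugate, smul_smul, e, one_smul]
    · rw [Matrix.smul_mul, Matrix.adjugate_mul, smul_smul, e, one_smul]
  have cg : ∀ c (M : Mt 𝒟.n L), g c * (h c * M) = M := fun c M => by
    rw [← Matrix.mul_assoc, (hi c).1, Matrix.one_mul]
  have cF : ∀ r c (M : Mt 𝒟.n L),
      (g c).map (· ^ 𝒟.q ^ r) * ((h c).map (· ^ 𝒟.q ^ r) * M) = M := fun r c M => by
    rw [← Matrix.mul_assoc, ← pow_mul_mat, (hi c).1, one_XI, Matrix.one_mul]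
  have g2 : ∀ c, Gd_XI S (h 0 * g c) := by
    intro c
    induction c using Fin.induction with
    | zero => rw [(hi 0).2]; exact id_XI S
    | succ c ih =>
      have h1 := g1 c.castSucc
      have ne : c.castSucc ≠ Fin.last 𝒟.d := (Fin.castSucc_lt_last c).ne
      simp only [act, LG, RB, hx, if_neg ne, Matrix.mul_one, Fin.coeSucc_eq_succ] at h1
      have h2 := mul_XI ih h1
      rwa [Matrix.mul_assoc, cg] at h2
  have g3 : Gd_XI S ((g 0)ᵀ * (g 0).map (· ^ 𝒟.q ^ 1)) := by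
    have h1 := g1 (Fin.last 𝒟.d)
    simp only [act, LG, RB, hx, if_true, Matrix.mul_one, Fin.last_add_one] at h1
    refine canc_XI (tr_XI (g2 (Fin.last 𝒟.d))) ?_
    rw [← Matrix.mul_assoc, ← Matrix.transpose_mul, cg, pow_one]
    exact h1
  have g4 : Gd_XI S (h 0 * (g 0).map (· ^ 𝒟.q ^ 2)) := by
    refine canc_XI (tr_XI g3) ?_
    have h1 := pw_XI g3 1
    rw [pow_mul_mat, add_XI] at h1
    rw [Matrix.transpose_mul, Matrix.transpose_transpose, Matrix.mul_assoc, cg]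
    exact h1
  have g5 : ∀ b, Gd_XI S (h 0 * (g 0).map (· ^ 𝒟.q ^ (2 * b))) := by
    intro b
    induction b with
    | zero =>
      have e : (g 0).map (· ^ 𝒟.q ^ (2 * 0)) = g 0 := by ext a b; simp
      rw [e]; exact g2 0
    | succ b ih =>
      have h1 := mul_XI ih (pw_XI g4 (2 * b))
      rw [pow_mul_mat, add_XI, Matrix.mul_assoc, cF] at h1
      rw [show 2 * (b + 1) = 2 + 2 * b by ring]
      exact h1
  have g6 : Gd_XI S (h c * (g c).map (· ^ 𝒟.q ^ (2 * b))) := by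
    have h0 : Gd_XI S (h c * g 0) := inv_XI (g2 c) (by rw [Matrix.mul_assoc, cg, (hi 0).2])
    have h1 := mul_XI h0 (mul_XI (g5 b) (pw_XI (g2 c) (2 * b)))
    rwa [pow_mul_mat, Matrix.mul_assoc, Matrix.mul_assoc, cg, cF] at h1
  exact ⟨g6.1, (inv_XI g6 (by rw [Matrix.mul_assoc, cF, (hi c).2])).1⟩

end Pool.Agent.P.MP_1bf4cb_ag
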