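import Pool.Agent.P.MP_1bf4cb_ag.X0

set_option autoImplicit false
set_option linter.unusedSectionVars false
set_option linter.unusedVariables false

open Function Matrix
open scoped TensorProduct

noncomputable section

namespace Pool.Agent.P.MP_1bf4cb_ag

theorem lift_gen_YB {A A' : Type} [Ring A] [Ring A'] (π : A →+* A') (hπ : Surjective π)
    (hk : ∀ x y, π x = 0 → π y = 0 → x * y = 0) (m : ℕ) :
    ∀ (a : Fin m → A'), (∀ i j, i ≤ j → a j * a i = a i) → ∀ t : A, t * t = t →
      (∀ i, π t * a i = a i) →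
      ∃ e : Fin m → A, (∀ i j, i ≤ j → e j * e i = e i) ∧ (∀ i, π (e i) = a i) ∧
        ∀ i, t * e i = e i := by
  induction m with
  | zero => exact fun a _ t _ _ => ⟨Fin.elim0, fun i => i.elim0, fun i => i.elim0, fun i => i.elim0⟩
  | succ m ih =>
    intro a ha t ht hta
    obtain ⟨b, hb⟩ := hπ (a (Fin.last m))
    have hid : a (Fin.last m) * a (Fin.last m) = a (Fin.last m) := ha _ _ le_rfl
    obtain ⟨c, hc⟩ : ∃ c, c = t * b := ⟨_, rfl⟩
    have hπc : π c = a (Fin.last m) := by rw [hc, map_mul, hb, hta]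
    have htc : t * c = c := by rw [hc, ← mul_assoc, ht]
    have hn : π (c * c - c) = 0 := by rw [map_sub, map_mul, hπc, hid, sub_self]
    have hnn := hk _ _ hn hn
    obtain ⟨u, hu⟩ : ∃ u, u = c * c + c * c + c * c - c * c * c - c * c * c := ⟨_, rfl⟩
    have huu : u * u = u := by
      have : u * u - u = (c * c - c) * (c * c - c) *
          ((c * c - c) + (c * c - c) + (c * c - c) + (c * c - c) - 1 - 1 - 1) := by
        rw [hu]; noncomm_ring
      rw [hnn, zero_mul] at this
      exact sub_eq_zero.mp this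
    have hπu : π u = a (Fin.last m) := by
      rw [hu]
      simp only [map_sub, map_add, map_mul, hπc, hid]
      abel
    have htu : t * u = u := by
      rw [hu]
      simp only [mul_sub, mul_add, ← mul_assoc, htc]
    obtain ⟨e, he1, he2, he3⟩ := ih (fun i => a i.castSucc)
      (fun i j hij => ha _ _ (Fin.castSucc_le_castSucc_iff.mpr hij)) u huu
      (fun i => by rw [hπu]; exact ha _ _ (Fin.le_last _))
    refine ⟨Fin.snoc (α := fun _ => A) e u, ?_, ?_, ?_⟩
    · intro i j
      refine Fin.lastCases ?_ (fun i => ?_) i <;> refine Fin.lastCases ?_ (fun j => ?_) j <;>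
        intro hij
      · simpa using huu
      · exact absurd hij (not_le.mpr (Fin.castSucc_lt_last j))
      · simpa using he3 i
      · simpa using he1 i j (Fin.castSucc_le_castSucc_iff.mp hij)
    · intro i
      refine Fin.lastCases ?_ (fun i => ?_) i
      · simpa using hπu
      · simpa using he2 i
    · intro i
      refine Fin.lastCases ?_ (fun i => ?_) i
      · simpa using htu
      · have : t * e i = e i := by rw [← he3 i, ← mul_assoc, htu]
        simpa using this

theorem comm_gen_YB {A : Type} [Ring A] (m : ℕ) :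
    ∀ (e : Fin m → A), (∀ i j, i ≤ j → e j * e i = e i) → ∀ u : A, u * u = u →
      (∀ i, u * e i = e i) →
      ∃ f : Fin m → A, (∀ i j, i ≤ j → f j * f i = f i ∧ f i * f j = f i) ∧
        (∀ i, f i * e i = e i ∧ e i * f i = f i) ∧ ∀ i, u * f i = f i ∧ f i * u = f i := by
  induction m with
  | zero => exact fun e _ u _ _ => ⟨Fin.elim0, fun i => i.elim0, fun i => i.elim0, fun i => i.elim0⟩
  | succ m ih =>
    intro e he u hu hue
    have hid : e (Fin.last m) * e (Fin.last m) = e (Fin.last m) := he _ _ le_rfl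
    obtain ⟨v, hv⟩ : ∃ v, v = e (Fin.last m) * u := ⟨_, rfl⟩
    have hve : ∀ i, v * e i = e i := fun i => by
      rw [hv, mul_assoc, hue, he _ _ (Fin.le_last _)]
    have hev : e (Fin.last m) * v = v := by rw [hv, ← mul_assoc, hid]
    have huv : u * v = v := by rw [hv, ← mul_assoc, hue]
    have hvu : v * u = v := by rw [hv, mul_assoc, hu]
    have hvv : v * v = v := by
      calc v * v = v * e (Fin.last m) * u := by rw [mul_assoc, ← hv]
        _ = v := by rw [hve, ← hv]
    obtain ⟨f, hf1, hf2, hf3⟩ := ih (fun i => e i.castSucc)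
      (fun i j hij => he _ _ (Fin.castSucc_le_castSucc_iff.mpr hij)) v hvv (fun i => hve _)
    refine ⟨Fin.snoc (α := fun _ => A) f v, ?_, ?_, ?_⟩
    · intro i j
      refine Fin.lastCases ?_ (fun i => ?_) i <;> refine Fin.lastCases ?_ (fun j => ?_) j <;>
        intro hij
      · simpa using hvv
      · exact absurd hij (not_le.mpr (Fin.castSucc_lt_last j))
      · simpa using hf3 i
      · simpa using hf1 i j (Fin.castSucc_le_castSucc_iff.mp hij)
    · intro i
      refine Fin.lastCases ?_ (fun i => ?_) i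
      · simpa using ⟨hve _, hev⟩
      · simpa using hf2 i
    · intro i
      refine Fin.lastCases ?_ (fun i => ?_) i
      · simpa using ⟨huv, hvu⟩
      · have h1 : u * f i = f i := by rw [← (hf3 i).1, ← mul_assoc, huv]
        have h2 : f i * u = f i := by rw [← (hf3 i).2, mul_assoc, hvu]
        simpa using ⟨h1, h2⟩

/-- chains of idempotents lift along square-zero extensions -/
theorem lift_chain {B : Type} [CommRing B] (I : Ideal B) (hI : I ^ 2 = ⊥) {n m : ℕ}
    (a : Fin m → Mt n (B ⧸ I)) (ha : ∀ i j, i ≤ j → a j * a i = a i) :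
    ∃ e : Fin m → Mt n B, (∀ i j, i ≤ j → e j * e i = e i) ∧
      ∀ i, (e i).map (Ideal.Quotient.mk I) = a i := by
  have hs : Surjective ((Ideal.Quotient.mk I).mapMatrix : Mt n B →+* Mt n (B ⧸ I)) := by
    intro M
    choose N hN using fun p q => Ideal.Quotient.mk_surjective (M p q)
    exact ⟨Matrix.of N, by ext p q; exact hN p q⟩
  have hk : ∀ x y : Mt n B, (Ideal.Quotient.mk I).mapMatrix x = 0 →
      (Ideal.Quotient.mk I).mapMatrix y = 0 → x * y = 0 := by
    intro x y hx hy
    ext p q
    rw [Matrix.mul_apply, Matrix.zero_apply]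
    refine Finset.sum_eq_zero fun r _ => ?_
    have h1 : x p r ∈ I := Ideal.Quotient.eq_zero_iff_mem.mp (congrFun (congrFun hx p) r)
    have h2 : y r q ∈ I := Ideal.Quotient.eq_zero_iff_mem.mp (congrFun (congrFun hy r) q)
    have h3 : x p r * y r q ∈ I ^ 2 := by rw [pow_two]; exact Ideal.mul_mem_mul h1 h2
    rwa [hI, Ideal.mem_bot] at h3
  obtain ⟨e, h1, h2, -⟩ := lift_gen_YB _ hs hk m a ha 1 (mul_one 1)
    (fun i => by rw [map_one, one_mul])
  exact ⟨e, h1, h2⟩

/-- a commuting chain with the same images -/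
theorem comm_chain {A : Type} [Ring A] {m : ℕ} (e : Fin m → A)
    (he : ∀ i j, i ≤ j → e j * e i = e i) : ∃ f : Fin m → A,
      (∀ i j, i ≤ j → f j * f i = f i ∧ f i * f j = f i) ∧ ∀ i, f i * e i = e i ∧ e i * f i = f i := by
  obtain ⟨f, h1, h2, -⟩ := comm_gen_YB m e he 1 (mul_one 1) (fun i => one_mul _)
  exact ⟨f, h1, h2⟩

/-- commuting projections -/
theorem exists_gamma {A A' ι : Type} [Ring A] [Ring A'] [Finite ι] (π : A →+* A') (a b : ι → A)
    (ha : ∀ i j, a i * a j = a j * a i) (hb : ∀ i j, b i * b j = b j * b i)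
    (ha' : ∀ i, a i * a i = a i) (hb' : ∀ i, b i * b i = b i) (h : ∀ i, π (a i * b i) = 0) :
    ∃ γ : A, π γ = 1 ∧ ∀ i, a i * γ * b i = 0 := by
  classical
  have key : ∀ s : Finset ι, ∃ γ : A, π γ = 1 ∧ ∀ i ∈ s, a i * γ * b i = 0 := by
    intro s
    induction s using Finset.induction_on with
    | empty => exact ⟨1, map_one π, fun i hi => absurd hi (Finset.notMem_empty i)⟩
    | insert j s hj ih =>
      obtain ⟨γ, h1, h2⟩ := ih
      refine ⟨γ - a j * γ * b j, ?_, fun i hi => ?_⟩
      · rw [map_sub, map_mul, map_mul, h1, mul_one, ← map_mul, h, sub_zero]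
      · have e1 : a i * (γ - a j * γ * b j) * b i =
            a i * γ * b i - (a i * a j) * γ * (b j * b i) := by noncomm_ring
        rw [e1]
        rcases Finset.mem_insert.mp hi with rfl | hi
        · rw [ha', hb', sub_self]
        · have e2 : (a j * a i) * γ * (b i * b j) = a j * (a i * γ * b i) * b j := by noncomm_ring
          rw [ha i j, hb j i, e2, h2 i hi, mul_zero, zero_mul, sub_zero]
  have := Fintype.ofFinite ι
  obtain ⟨γ, h1, h2⟩ := key Finset.univ
  exact ⟨γ, h1, fun i => h2 i (Finset.mem_univ i)⟩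

end Pool.Agent.P.MP_1bf4cb_ag
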